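import Mathlib

set_option autoImplicit false

namespace Pool.Agent.H51.AuerC

open Filter Topology OnePoint

abbrev E : Type := C(OnePoint ℕ, ℝ)

noncomputable def tau (N : ℕ) : E :=
  OnePoint.continuousMapMkNat (fun n => if N ≤ n then 1 else 0) 1 (by
    refine tendsto_const_nhds.congr' ?_
    filter_upwards [eventually_ge_atTop N] with n hn
    rw [if_pos hn])

lemma tau_coe (N n : ℕ) : tau N (n : OnePoint ℕ) = if N ≤ n then 1 else 0 := rfl
lemma tau_inf (N : ℕ) : tau N ∞ = 1 := rfl

lemma tau_norm (N : ℕ) : ‖tau N‖ ≤ 1 := by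
  rw [ContinuousMap.norm_le _ zero_le_one]
  intro x
  induction x using OnePoint.rec with
  | infty => rw [tau_inf]; simp
  | coe n => rw [tau_coe]; split_ifs <;> simp

noncomputable def chi (N : ℕ) : E :=
  OnePoint.continuousMapMkNat (fun n => if n = N then 1 else 0) 0 (by
    refine tendsto_const_nhds.congr' ?_
    filter_upwards [eventually_gt_atTop N] with n hn
    rw [if_neg hn.ne'])

lemma chi_coe (N n : ℕ) : chi N (n : OnePoint ℕ) = if n = N then 1 else 0 := rfl

lemma not_fin : ¬ FiniteDimensional ℝ E := by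
  intro h
  have hli : LinearIndependent ℝ chi := by
    rw [linearIndependent_iff']
    intro s g hg i hi
    have := congrArg (fun f : E => f (i : OnePoint ℕ)) hg
    simp only [ContinuousMap.coe_sum, Finset.sum_apply, ContinuousMap.smul_apply, chi_coe,
      smul_eq_mul, mul_ite, mul_one, mul_zero, ContinuousMap.zero_apply] at this
    rw [Finset.sum_ite_eq] at this
    simpa [hi] using this
  haveI := hli.finite
  exact not_finite ℕ

noncomputable def δ (p : OnePoint ℕ) : E →L[ℝ] ℝ := ContinuousMap.evalCLM ℝ p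

lemma δ_ap (p : OnePoint ℕ) (x : E) : δ p x = x p := rfl

lemma conv (z : E) : Tendsto (fun n : ℕ => z n) atTop (𝓝 (z ∞)) :=
  (OnePoint.continuous_iff_from_nat z).1 z.continuous

lemma atom (z : E) (h : E →L[ℝ] ℝ) (hz : ‖z‖ = 1) (hh : ‖h‖ = 1) (h1 : h z = 1)
    (h2 : |z ∞| < 1 / 2) : ∀ᶠ N in atTop, h (tau N) = 0 := by
  have := (conv z).abs.eventually (Iio_mem_nhds h2)
  obtain ⟨N0, hN0⟩ := eventually_atTop.1 this
  filter_upwards [eventually_ge_atTop N0] with N hN
  have key : ∀ t : ℝ, |t| ≤ 1 / 2 → h (z + t • tau N) ≤ 1 := by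
    intro t ht
    have a1 : ‖z + t • tau N‖ ≤ 1 := by
      rw [ContinuousMap.norm_le _ zero_le_one]
      intro x
      rw [ContinuousMap.add_apply, ContinuousMap.smul_apply, smul_eq_mul, Real.norm_eq_abs]
      induction x using OnePoint.rec with
      | infty =>
        rw [tau_inf, mul_one]
        exact (abs_add_le _ _).trans (by linarith)
      | coe n =>
        rw [tau_coe]
        split_ifs with hn
        · rw [mul_one]
          have : |z n| < 1 / 2 := hN0 n (by omega)
          exact (abs_add_le _ _).trans (by linarith)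
        · rw [mul_zero, add_zero, ← Real.norm_eq_abs, ← hz]
          exact z.norm_coe_le_norm _
    have a2 := h.le_opNorm (z + t • tau N)
    rw [hh, one_mul, Real.norm_eq_abs] at a2
    exact (le_abs_self _).trans (a2.trans a1)
  have b1 := key (1 / 2) (by norm_num [abs_of_pos])
  have b2 := key (-(1 / 2)) (by norm_num [abs_of_pos])
  rw [map_add, _root_.map_smul, h1, smul_eq_mul] at b1 b2
  linarith

lemma approx {X : Type} [NormedAddCommGroup X] [NormedSpace ℝ X] (S : Submodule ℝ (X →L[ℝ] ℝ))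
    (f : X →L[ℝ] ℝ) (hf : f ∈ S.topologicalClosure) (ε : ℝ) (hε : 0 < ε) :
    ∃ g ∈ S, ‖f - g‖ < ε := by
  have hf' : f ∈ closure (S : Set (X →L[ℝ] ℝ)) := hf
  obtain ⟨g, hg1, hg2⟩ := Metric.mem_closure_iff.1 hf' ε hε
  exact ⟨g, hg1, by rwa [dist_eq_norm] at hg2⟩

lemma closed_lim {l : Filter ℕ} (y : ℕ → E) (C : ℝ) (hy : ∀ n, ‖y n‖ ≤ C) (h : ℕ → E →L[ℝ] ℝ)
    (hh : ∀ i, Tendsto (fun n => h i (y n)) l (𝓝 0)) (f : E →L[ℝ] ℝ)
    (hf : f ∈ (Submodule.span ℝ (Set.range h)).topologicalClosure) :
    Tendsto (fun n => f (y n)) l (𝓝 0) := by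
  have hs : ∀ g ∈ Submodule.span ℝ (Set.range h), Tendsto (fun n => g (y n)) l (𝓝 0) := by
    intro g hg
    induction hg using Submodule.span_induction with
    | mem x hx => obtain ⟨i, rfl⟩ := hx; exact hh i
    | zero => simpa using tendsto_const_nhds
    | add a b _ _ ha hb => simpa using ha.add hb
    | smul c a _ ha => simpa using ha.const_mul c
  have hC : 0 ≤ C := (norm_nonneg _).trans (hy 0)
  rw [Metric.tendsto_nhds]
  intro ε hε
  obtain ⟨g, hg1, hg2⟩ := approx _ f hf (ε / (2 * (C + 1))) (by positivity)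
  filter_upwards [Metric.tendsto_nhds.1 (hs g hg1) (ε / 2) (by positivity)] with n hn
  rw [dist_zero_right] at hn ⊢
  rw [lt_div_iff₀ (by positivity)] at hg2
  have a1 := (f - g).le_opNorm (y n)
  have a2 : f (y n) = (f - g) (y n) + g (y n) := by simp
  rw [a2]
  have a3 := norm_add_le ((f - g) (y n)) (g (y n))
  have a4 := mul_le_mul_of_nonneg_left (hy n) (norm_nonneg (f - g))
  nlinarith [norm_nonneg (f - g)]

theorem no_auer (z : ℕ → E) (h : ℕ → E →L[ℝ] ℝ)
    (h1 : ∀ i j : ℕ, h i (z j) = if i = j then 1 else 0) (h2 : ∀ n, ‖z n‖ = 1 ∧ ‖h n‖ = 1)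
    (h3 : ∀ p, δ p ∈ (Submodule.span ℝ (Set.range h)).topologicalClosure) : False := by
  classical
  obtain ⟨g, hg1, hg2⟩ := approx _ _ (h3 ∞) (1 / 2) (by positivity)
  obtain ⟨c, hc⟩ := (Finsupp.mem_span_range_iff_exists_finsupp).1 hg1
  have hsmall : ∀ n, n ∉ c.support → |z n ∞| < 1 / 2 := by
    intro n hn
    have a1 : g (z n) = 0 := by
      rw [← hc, Finsupp.sum, ContinuousLinearMap.sum_apply]
      refine Finset.sum_eq_zero (fun i hi => ?_)
      rw [ContinuousLinearMap.smul_apply, h1, if_neg (fun e : i = n => hn (e ▸ hi)), smul_zero]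
    have a2 := (δ ∞ - g).le_opNorm (z n)
    rw [(h2 n).1, mul_one, ContinuousLinearMap.sub_apply, a1, sub_zero, δ_ap, Real.norm_eq_abs] at a2
    linarith
  let U : Ultrafilter ℕ := hyperfilter ℕ
  have hU : (U : Filter ℕ) ≤ atTop := by
    rw [← Nat.cofinite_eq_atTop]; exact hyperfilter_le_cofinite
  have hm : ∀ i, ∃ m : ℝ, Tendsto (fun N => h i (tau N)) U (𝓝 m) := by
    intro i
    obtain ⟨m, _, hm⟩ := (isCompact_Icc (a := (-1 : ℝ)) (b := 1)).ultrafilter_le_nhds
      (U.map (fun N => h i (tau N))) (by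
        rw [Ultrafilter.coe_map, le_principal_iff, mem_map]
        refine Eventually.of_forall (fun N => ?_)
        have a1 := (h i).le_opNorm (tau N)
        rw [(h2 i).2, one_mul, Real.norm_eq_abs] at a1
        exact abs_le.1 (a1.trans (tau_norm N)))
    exact ⟨m, hm⟩
  choose m hm using hm
  set w : E := ∑ n ∈ c.support, m n • z n with hw
  have hhw : ∀ i, h i w = if i ∈ c.support then m i else 0 := by
    intro i
    rw [hw, map_sum]
    simp only [_root_.map_smul, h1, smul_eq_mul, mul_ite, mul_one, mul_zero]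
    rw [Finset.sum_ite_eq]
  have hlim := closed_lim (l := U) (fun N => tau N - w) (1 + ‖w‖) (fun N =>
    (norm_sub_le _ _).trans (by have := tau_norm N; linarith)) h (fun i => by
      simp only [map_sub, hhw]
      split_ifs with hi
      · simpa using (hm i).sub_const (m i)
      · refine tendsto_const_nhds.congr' (hU ?_)
        have h11 : h i (z i) = 1 := by rw [h1, if_pos rfl]
        filter_upwards [atom (z i) (h i) (h2 i).1 (h2 i).2 h11 (hsmall i hi)] with N hN
        simp [hN])
  have e1 : w ∞ = 1 := by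
    have := hlim _ (h3 ∞)
    simp only [δ_ap, ContinuousMap.sub_apply, tau_inf] at this
    have := tendsto_nhds_unique this tendsto_const_nhds
    linarith
  have e2 : ∀ k : ℕ, w k = 0 := by
    intro k
    have a1 := hlim _ (h3 k)
    have a2 : Tendsto (fun N => δ k (tau N - w)) U (𝓝 (-w k)) := by
      refine tendsto_const_nhds.congr' (hU ?_)
      filter_upwards [eventually_gt_atTop k] with N hN
      simp only [Set.mem_setOf_eq, δ_ap, ContinuousMap.sub_apply, tau_coe]
      rw [if_neg (by omega)]; ring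
    have := tendsto_nhds_unique a1 a2
    linarith
  have e3 := conv w
  simp only [e2, e1] at e3
  have := tendsto_nhds_unique e3 tendsto_const_nhds
  norm_num at this

end Pool.Agent.H51.AuerC
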