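import Mathlib

set_option autoImplicit false

namespace Pool.Agent.H51.Renorm

def Syn (X : Type) : Type := X

/-- An equivalent norm gives an isomorphic normed space carrying that norm. -/
theorem exists_renorm {𝕜 : Type} [RCLike 𝕜] {X : Type} [NormedAddCommGroup X] [NormedSpace 𝕜 X]
    (N : Seminorm 𝕜 X) (a C : ℝ) (ha : 0 < a) (h : ∀ x, a * ‖x‖ ≤ N x ∧ N x ≤ C * ‖x‖) :
    ∃ (E : Type) (_ : NormedAddCommGroup E) (_ : NormedSpace 𝕜 E) (e : X ≃L[𝕜] E),
      ∀ x, ‖e x‖ = N x := by
  letI : AddCommGroup (Syn X) := inferInstanceAs (AddCommGroup X)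
  letI : Module 𝕜 (Syn X) := inferInstanceAs (Module 𝕜 X)
  let n : AddGroupNorm (Syn X) :=
    { toFun := fun x => N x
      map_zero' := map_zero N
      add_le' := fun x y => map_add_le_add N x y
      neg' := fun x => map_neg_eq_map N x
      eq_zero_of_map_eq_zero' := fun x hx => by
        have h1 := (h x).1
        have h2 : N x = 0 := hx
        rw [h2] at h1
        have h3 : ‖(show X from x)‖ ≤ 0 := by
          by_contra hc
          push Not at hc
          have := mul_pos ha hc
          linarith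
        exact norm_le_zero_iff.1 h3 }
  letI i1 : NormedAddCommGroup (Syn X) := n.toNormedAddCommGroup
  letI i2 : NormedSpace 𝕜 (Syn X) :=
    { norm_smul_le := fun c x => (map_smul_eq_mul N c x).le }
  let l : X ≃ₗ[𝕜] Syn X := LinearEquiv.refl 𝕜 X
  refine ⟨Syn X, i1, i2, l.toContinuousLinearEquivOfBounds C a⁻¹ (fun x => (h x).2) (fun x => ?_),
    fun x => rfl⟩
  have h1 := (h x).1
  change ‖(show X from x)‖ ≤ a⁻¹ * N x
  rw [le_inv_mul_iff₀ ha]
  exact h1

end Pool.Agent.H51.Renorm
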