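import Pool.Agent.H51.AuerC
import Pool.Agent.H51.Renorm

set_option autoImplicit false

namespace Pool.Agent.H51.AuerD

open Filter Topology Pool.Agent.H51.AuerC
open scoped OnePoint

noncomputable def tm (z : E) (j : ℕ) : ℝ := (1 / 2) ^ j * max |z j| |z j - z ∞|

noncomputable def ctr (z : E) : E := z - (z ∞) • (1 : E)

lemma ctr_ap (z : E) (p : OnePoint ℕ) : ctr z p = z p - z ∞ := by simp [ctr]

noncomputable def N0 (z : E) : ℝ := max |z ∞| ‖ctr z‖ + |z ∞| + ∑' j, tm z j

lemma ab (z : E) (p : OnePoint ℕ) : |z p| ≤ ‖z‖ := z.norm_coe_le_norm p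

lemma tm_nn (z : E) (j : ℕ) : 0 ≤ tm z j := by unfold tm; positivity

lemma tm_le (z : E) (j : ℕ) : tm z j ≤ (1 / 2) ^ j * (2 * ‖z‖) := by
  unfold tm
  refine mul_le_mul_of_nonneg_left (max_le ?_ ?_) (by positivity)
  · have := ab z j; have := norm_nonneg z; linarith
  · have := abs_sub (z j) (z ∞); have := ab z j; have := ab z ∞; linarith

lemma tm_sum (z : E) : Summable (tm z) :=
  Summable.of_nonneg_of_le (tm_nn z) (tm_le z) (summable_geometric_two.mul_right _)

lemma ctr_add (x y : E) : ctr (x + y) = ctr x + ctr y := by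
  ext p; simp [ctr_ap]; ring

lemma ctr_smul (c : ℝ) (x : E) : ctr (c • x) = c • ctr x := by
  ext p; simp [ctr_ap]; ring

noncomputable def N : Seminorm ℝ E := Seminorm.of N0
  (fun x y => by
    unfold N0
    have h1 : ∑' j, tm (x + y) j ≤ ∑' j, tm x j + ∑' j, tm y j := by
      rw [← (tm_sum x).tsum_add (tm_sum y)]
      refine (tm_sum _).tsum_le_tsum (fun j => ?_) ((tm_sum x).add (tm_sum y))
      unfold tm
      rw [← mul_add]
      refine mul_le_mul_of_nonneg_left (max_le ?_ ?_) (by positivity)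
      · exact (abs_add_le _ _).trans (add_le_add (le_max_left _ _) (le_max_left _ _))
      · have : (x + y) j - (x + y) ∞ = (x j - x ∞) + (y j - y ∞) := by simp; ring
        rw [this]
        exact (abs_add_le _ _).trans (add_le_add (le_max_right _ _) (le_max_right _ _))
    have h2 : |(x + y) ∞| ≤ |x ∞| + |y ∞| := abs_add_le _ _
    have h3 : max |(x + y) ∞| ‖ctr (x + y)‖ ≤ max |x ∞| ‖ctr x‖ + max |y ∞| ‖ctr y‖ := by
      refine max_le (h2.trans (add_le_add (le_max_left _ _) (le_max_left _ _))) ?_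
      rw [ctr_add]
      exact (norm_add_le _ _).trans (add_le_add (le_max_right _ _) (le_max_right _ _))
    linarith)
  (fun c x => by
    unfold N0
    have h1 : ∑' j, tm (c • x) j = ‖c‖ * ∑' j, tm x j := by
      rw [← tsum_mul_left]
      refine tsum_congr (fun j => ?_)
      unfold tm
      have : (c • x) j - (c • x) ∞ = c * (x j - x ∞) := by simp; ring
      rw [this, ContinuousMap.smul_apply, smul_eq_mul, abs_mul, abs_mul,
        ← mul_max_of_nonneg _ _ (abs_nonneg c), Real.norm_eq_abs]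
      ring
    rw [h1, ctr_smul, norm_smul, ContinuousMap.smul_apply, smul_eq_mul, abs_mul, Real.norm_eq_abs,
      ← mul_max_of_nonneg _ _ (abs_nonneg c)]
    ring)

lemma N_ap (z : E) : N z = max |z ∞| ‖ctr z‖ + |z ∞| + ∑' j, tm z j := rfl

lemma N_bounds (z : E) : 1 * ‖z‖ ≤ N z ∧ N z ≤ 7 * ‖z‖ := by
  rw [N_ap]
  have h0 : 0 ≤ ∑' j, tm z j := tsum_nonneg (tm_nn z)
  have h1 : ∑' j, tm z j ≤ 4 * ‖z‖ := by
    refine ((tm_sum z).tsum_le_tsum (tm_le z) (summable_geometric_two.mul_right _)).trans ?_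
    rw [tsum_mul_right, tsum_geometric_two]; linarith
  have h2 : ‖z‖ ≤ ‖ctr z‖ + |z ∞| := by
    rw [ContinuousMap.norm_le _ (by positivity)]
    intro p
    have a1 := ab (ctr z) p
    rw [ctr_ap] at a1
    have a2 := abs_add_le (z p - z ∞) (z ∞)
    rw [sub_add_cancel] at a2
    rw [Real.norm_eq_abs]; linarith
  have h3 : ‖ctr z‖ ≤ 2 * ‖z‖ := by
    rw [ContinuousMap.norm_le _ (by positivity)]
    intro p
    rw [ctr_ap, Real.norm_eq_abs]
    have := abs_sub (z p) (z ∞); have := ab z p; have := ab z ∞; linarith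
  have h4 := ab z ∞
  have h5 := le_max_right |z ∞| ‖ctr z‖
  have h6 : max |z ∞| ‖ctr z‖ ≤ 2 * ‖z‖ := max_le (by linarith [norm_nonneg z]) h3
  constructor <;> linarith

lemma ridge (z : E) (hz : 0 < z ∞) : N (z - (z ∞) • (1 : E)) ≤ N z - z ∞ := by
  rw [N_ap, N_ap]
  have e1 : (z - (z ∞) • (1 : E)) ∞ = 0 := by simp
  have e2 : ctr (z - (z ∞) • (1 : E)) = ctr z := by ext p; simp [ctr_ap]
  have e3 : ∑' j, tm (z - (z ∞) • (1 : E)) j ≤ ∑' j, tm z j := by
    refine (tm_sum _).tsum_le_tsum (fun j => ?_) (tm_sum _)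
    unfold tm
    refine mul_le_mul_of_nonneg_left ?_ (by positivity)
    rw [e1, sub_zero, max_self]
    have : (z - (z ∞) • (1 : E)) j = z j - z ∞ := by simp
    rw [this]; exact le_max_right _ _
  rw [e1, e2, abs_zero, abs_of_pos hz]
  have := max_le_max_right ‖ctr z‖ hz.le
  linarith

lemma chi_inf (j : ℕ) : chi j ∞ = 0 := rfl

lemma flat (z : E) (j : ℕ) (s : ℝ) (hj : |z j - z ∞| ≤ z ∞ / 4) (hs : |s| ≤ z ∞ / 4) :
    N (z + s • chi j) ≤ N z + (1 / 2) ^ j * s := by
  have hz : 0 ≤ z ∞ := by have := abs_nonneg s; linarith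
  rw [N_ap, N_ap]
  have e1 : (z + s • chi j) ∞ = z ∞ := by simp [chi_inf]
  have e0 : ∀ i : ℕ, (z + s • chi j) i = z i + if i = j then s else 0 := by
    intro i; simp [chi_coe]
  have a1 := abs_le.1 hj
  have a2 := abs_le.1 hs
  have e2 : ‖ctr (z + s • chi j)‖ ≤ max |z ∞| ‖ctr z‖ := by
    rw [ContinuousMap.norm_le _ (le_max_of_le_left (abs_nonneg _))]
    intro p
    rw [ctr_ap, e1, Real.norm_eq_abs]
    induction p using OnePoint.rec with
    | infty => rw [e1]; simp
    | coe i =>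
      rw [e0]
      split_ifs with hi
      · refine le_max_of_le_left ?_
        rw [hi, abs_of_nonneg hz, abs_le]; constructor <;> linarith
      · refine le_max_of_le_right ?_
        rw [add_zero, ← ctr_ap]; exact ab _ _
  have e3 : ∑' i, tm (z + s • chi j) i = ∑' i, tm z i + (1 / 2) ^ j * s := by
    rw [← tsum_ite_eq j (fun _ => (1 / 2 : ℝ) ^ j * s), ← (tm_sum z).tsum_add
      (summable_of_ne_finset_zero (s := {j}) (fun b hb => by simp at hb; simp [hb]))]
    refine tsum_congr (fun i => ?_)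
    unfold tm
    rw [e1, e0]
    split_ifs with hi
    · rw [hi, max_eq_left, max_eq_left, abs_of_nonneg (by linarith), abs_of_nonneg (by linarith)]
      · ring
      · rw [abs_of_nonneg (show 0 ≤ z j by linarith), abs_le]; constructor <;> linarith
      · rw [abs_of_nonneg (show 0 ≤ z j + s by linarith), abs_le]; constructor <;> linarith
    · simp
  rw [e1, e3]
  have := max_le (le_max_left |z ∞| ‖ctr z‖) e2
  linarith

lemma pos_case (z : E) (f : E →L[ℝ] ℝ) (hz : N z = 1) (hf : ∀ y, f y ≤ N y) (h1 : f z = 1)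
    (h0 : 0 < z ∞) : 1 ≤ f 1 ∧ ∀ᶠ j in atTop, f (chi j) = (1 / 2) ^ j := by
  constructor
  · have a1 := (hf _).trans (ridge z h0)
    rw [map_sub, map_smul, h1, hz, smul_eq_mul] at a1
    by_contra hc
    push Not at hc
    nlinarith
  · have a1 := (Metric.tendsto_nhds.1 (conv z)) (z ∞ / 4) (by linarith)
    filter_upwards [a1] with j hj
    rw [Real.dist_eq] at hj
    have b1 := (hf _).trans (flat z j (z ∞ / 4) hj.le (by rw [abs_of_pos (by linarith)]))
    have b2 := (hf _).trans (flat z j (-(z ∞ / 4)) hj.le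
      (by rw [abs_neg, abs_of_pos (by linarith)]))
    rw [map_add, map_smul, h1, hz, smul_eq_mul] at b1 b2
    have : z ∞ / 4 * (f (chi j) - (1 / 2) ^ j) = 0 := by linarith
    have := (mul_eq_zero.1 this).resolve_left (by linarith)
    linarith

lemma gen_case (z : E) (f : E →L[ℝ] ℝ) (hz : N z = 1) (hf : ∀ y, |f y| ≤ N y) (h1 : f z = 1)
    (h0 : z ∞ ≠ 0) : 1 ≤ |f 1| ∧ ∀ᶠ j in atTop, z ∞ * f (chi j) = |z ∞| * (1 / 2) ^ j := by
  rcases lt_or_gt_of_ne h0 with h | h
  · have := pos_case (-z) (-f) (by rw [map_neg_eq_map, hz]) (fun y => by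
      simpa using (neg_le_abs _).trans (hf y)) (by simp [h1]) (by simpa using h)
    refine ⟨this.1.trans (by simpa using neg_le_abs _), ?_⟩
    filter_upwards [this.2] with j hj
    rw [abs_of_neg h, ← hj]; simp
  · have := pos_case z f hz (fun y => (le_abs_self _).trans (hf y)) h1 h
    refine ⟨this.1.trans (le_abs_self _), ?_⟩
    filter_upwards [this.2] with j hj
    rw [abs_of_pos h, hj]

theorem no_complete (x : ℕ → E) (f : ℕ → E →L[ℝ] ℝ)
    (h1 : ∀ i j : ℕ, f i (x j) = if i = j then 1 else 0) (h2 : ∀ n, N (x n) = 1)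
    (h3 : ∀ n y, |f n y| ≤ N y) (h4 : Dense (Submodule.span ℝ (Set.range x) : Set E)) : False := by
  classical
  obtain ⟨y, hy1, hy2⟩ := h4.exists_dist_lt (1 : E) (show (0 : ℝ) < 1 / 7 by norm_num)
  obtain ⟨c, hc⟩ := (Finsupp.mem_span_range_iff_exists_finsupp).1 hy1
  have hF : ∀ n, n ∉ c.support → x n ∞ = 0 := by
    intro n hn
    by_contra h0
    have a0 := (gen_case (x n) (f n) (h2 n) (h3 n) (by rw [h1, if_pos rfl]) h0).1
    have a1 : f n y = 0 := by
      rw [← hc, Finsupp.sum, map_sum]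
      refine Finset.sum_eq_zero (fun i hi => ?_)
      rw [map_smul, h1, if_neg (fun e : n = i => hn (e ▸ hi)), smul_zero]
    have a2 := (h3 n (1 - y)).trans (N_bounds _).2
    rw [map_sub, a1, sub_zero] at a2
    rw [dist_eq_norm] at hy2
    linarith
  have hm : (δ ∞ : E →L[ℝ] ℝ) = ∑ n ∈ c.support, x n ∞ • f n := by
    apply ContinuousLinearMap.ext_on h4
    rintro _ ⟨k, rfl⟩
    rw [δ_ap, ContinuousLinearMap.sum_apply]
    simp only [ContinuousLinearMap.smul_apply, h1, smul_eq_mul, mul_ite, mul_one, mul_zero]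
    rw [Finset.sum_ite_eq']
    split_ifs with hk
    · rfl
    · exact hF k hk
  have hev : ∀ᶠ j in atTop, ∀ n ∈ c.support, x n ∞ * f n (chi j) = |x n ∞| * (1 / 2) ^ j := by
    rw [Filter.eventually_all_finset]
    intro n _
    by_cases h0 : x n ∞ = 0
    · simp [h0]
    · exact (gen_case (x n) (f n) (h2 n) (h3 n) (by rw [h1, if_pos rfl]) h0).2
  obtain ⟨j, hj⟩ := hev.exists
  have b1 := congrArg (fun g : E →L[ℝ] ℝ => g (chi j)) hm
  simp only [δ_ap, chi_inf, ContinuousLinearMap.sum_apply, ContinuousLinearMap.smul_apply,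
    smul_eq_mul] at b1
  rw [Finset.sum_congr rfl hj, ← Finset.sum_mul] at b1
  have b2 : ∑ n ∈ c.support, |x n ∞| = 0 :=
    (mul_eq_zero.1 b1.symm).resolve_right (by positivity)
  rw [Finset.sum_eq_zero_iff_of_nonneg (fun _ _ => abs_nonneg _)] at b2
  have b3 := congrArg (fun g : E →L[ℝ] ℝ => g 1) hm
  simp only [δ_ap, ContinuousLinearMap.sum_apply, ContinuousLinearMap.smul_apply,
    smul_eq_mul] at b3
  rw [Finset.sum_eq_zero (fun n hn => by rw [abs_eq_zero.1 (b2 n hn), zero_mul])] at b3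
  simp at b3

end Pool.Agent.H51.AuerD
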