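import Mathlib

set_option autoImplicit false

namespace Pool.Agent.H51.BKDefs

open CategoryTheory
open scoped ModuleCat.Algebra

universe u

variable {k : Type u} [Field k]

section ext

variable {A : Type u} [Ring A] [Algebra k A]

/-- The field `k` as a left `A`-module through an augmentation `ε`. -/
def Tv (_ε : A →ₐ[k] k) : Type u := k

instance (ε : A →ₐ[k] k) : AddCommGroup (Tv ε) := inferInstanceAs (AddCommGroup k)

noncomputable instance (ε : A →ₐ[k] k) : Module A (Tv ε) := Module.compHom k ε.toRingHom

/-- The same module as an object of the module category. -/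
noncomputable def tv (ε : A →ₐ[k] k) : ModuleCat.{u} A := ModuleCat.of A (Tv ε)

/-- `Ext^i_A(k,k)` as a `k`-vector space. -/
noncomputable def ExtK (ε : A →ₐ[k] k) (i : ℕ) : ModuleCat.{u} k :=
  ((Ext k (ModuleCat.{u} A) i).obj (Opposite.op (tv ε))).obj (tv ε)

end ext

attribute [local instance 100] LieRing.ofAssociativeRing

variable {L : Type u} [LieRing L] [LieAlgebra k L]

variable (k L) in
/-- The augmentation of `U(L)` killing `L`. -/
noncomputable def aug : UniversalEnvelopingAlgebra k L →ₐ[k] k :=
  UniversalEnvelopingAlgebra.lift k (0 : L →ₗ⁅k⁆ k)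

variable (k L) in
/-- The cohomology `H^i(L) = Ext^i_{U(L)}(k,k)`. -/
noncomputable def Coh (i : ℕ) : ModuleCat.{u} k := ExtK (aug k L) i

variable (k) in
/-- The subalgebra generated by `y 1, ..., y m` is quadratic on these generators: the kernel of
the map from the free Lie algebra is the ideal generated by its elements of degree two. -/
def Quadratic {m : ℕ} (y : Fin m → L) : Prop :=
  (FreeLieAlgebra.lift k y).ker = LieSubmodule.lieSpan k (FreeLieAlgebra k (Fin m))
    {q | FreeLieAlgebra.lift k y q = 0 ∧ q ∈ Submodule.span k (Set.range fun p : Fin m × Fin m =>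
      ⁅FreeLieAlgebra.of k p.1, FreeLieAlgebra.of k p.2⁆)}

/-- `L` is Bloch-Kato with degree one part `V`: `V` is finite-dimensional and generates `L`, and
every subspace of `V` (given by a basis `y`) generates a quadratic subalgebra. -/
def IsBK (V : Submodule k L) : Prop :=
  FiniteDimensional k V ∧ LieSubalgebra.lieSpan k L V = ⊤ ∧
    ∀ (m : ℕ) (y : Fin m → L), (∀ j, y j ∈ V) → LinearIndependent k y → Quadratic k y

end Pool.Agent.H51.BKDefs
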