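import Mathlib

set_option autoImplicit false

namespace Pool.Agent.H51.BKa

open Finset

universe u

def Wd (ι : Type) : ℕ → Type
  | 0 => Unit
  | n + 1 => ι × Wd ι n

variable {ι : Type}

instance instFintypeWd [Fintype ι] : (n : ℕ) → Fintype (Wd ι n)
  | 0 => inferInstanceAs (Fintype Unit)
  | n + 1 => have := instFintypeWd n; inferInstanceAs (Fintype (ι × Wd ι n))

def sn : {n : ℕ} → Wd ι n → ι → Wd ι (n + 1)
  | 0, _, c => (c, ())
  | _ + 1, w, c => (w.1, sn w.2 c)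

variable {k : Type u} [Field k] [Fintype ι]

def Lb {M : Type*} {i : ℕ} (b : ι) (f : Wd ι (i + 1) → M) : Wd ι i → M := fun w => f (b, w)

def Rp {M : Type*} [AddCommMonoid M] [Module k M] {i : ℕ} (φ : ι → k) (f : Wd ι (i + 1) → M) :
    Wd ι i → M := fun w => ∑ c, φ c • f (sn w c)

def RpL (i : ℕ) (φ : ι → k) : (Wd ι (i + 1) → k) →ₗ[k] (Wd ι i → k) where
  toFun := Rp φ
  map_add' f g := by funext w; simp [Rp, mul_add, sum_add_distrib]
  map_smul' c f := by funext w; simp [Rp, mul_sum, mul_left_comm]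

def dot (φ : ι → k) : (ι → k) →ₗ[k] k where
  toFun v := ∑ c, φ c • v c
  map_add' f g := by simp [mul_add, sum_add_distrib]
  map_smul' c f := by simp [mul_sum, mul_left_comm]

lemma dot_apply (φ v : ι → k) : dot φ v = ∑ c, φ c • v c := rfl

variable (R : Submodule k (ι → ι → k))

def S (O : Submodule k (ι → k)) : (i : ℕ) → Submodule k (Wd ι i → k)
  | 0 => ⊤
  | 1 => O.comap (LinearMap.funLeft k k (fun c => ((c, ()) : Wd ι 1)))
  | i + 2 => (⨅ b : ι, (S O (i + 1)).comap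
        (LinearMap.funLeft k k (fun w => ((b, w) : Wd ι (i + 2))))) ⊓
      ⨅ v : Wd ι i, R.comap (LinearMap.pi fun a =>
        LinearMap.funLeft k k (fun b => ((a, (b, v)) : Wd ι (i + 2))))

variable {R}

omit [Fintype ι] in
lemma mem_S1 {O : Submodule k (ι → k)} {f : Wd ι 1 → k} :
    f ∈ S R O 1 ↔ (fun c => f (c, ())) ∈ O := Iff.rfl

omit [Fintype ι] in
lemma mem_S2 {O : Submodule k (ι → k)} {i : ℕ} {f : Wd ι (i + 2) → k} :
    f ∈ S R O (i + 2) ↔ (∀ b, Lb b f ∈ S R O (i + 1)) ∧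
      ∀ v : Wd ι i, (fun a b => f (a, (b, v))) ∈ R := by
  rw [S, Submodule.mem_inf, Submodule.mem_iInf, Submodule.mem_iInf]
  rfl

omit [Fintype ι] in
lemma Lb_mem {O : Submodule k (ι → k)} {i : ℕ} {f : Wd ι (i + 1) → k} (hf : f ∈ S R O (i + 1))
    (b : ι) : Lb b f ∈ S R O i := by
  cases i with
  | zero => exact Submodule.mem_top
  | succ i => exact (mem_S2.1 hf).1 b

omit [Fintype ι] in
lemma eq_zero_of_Lb {M : Type*} [Zero M] {i : ℕ} {f : Wd ι (i + 1) → M} (h : ∀ b, Lb b f = 0) :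
    f = 0 := funext fun w => congrFun (h w.1) w.2

lemma Lb_Rp {M : Type*} [AddCommMonoid M] [Module k M] {i : ℕ} (φ : ι → k) (b : ι)
    (f : Wd ι (i + 2) → M) : Lb b (Rp φ f) = Rp φ (Lb b f) := rfl

lemma mem_inf_ker {O : Submodule k (ι → k)} {φ : ι → k} {i : ℕ} {f : Wd ι (i + 1) → k} :
    f ∈ S R (O ⊓ LinearMap.ker (dot φ)) (i + 1) ↔ f ∈ S R O (i + 1) ∧ Rp φ f = 0 := by
  induction i with
  | zero =>
    rw [mem_S1, mem_S1, Submodule.mem_inf, LinearMap.mem_ker]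
    refine and_congr_right fun _ => ⟨fun h => funext fun _ => h, fun h => congrFun h ()⟩
  | succ i ih =>
    rw [mem_S2, mem_S2]
    simp only [ih]
    constructor
    · rintro ⟨h1, h2⟩
      exact ⟨⟨fun b => (h1 b).1, h2⟩, eq_zero_of_Lb fun b => (h1 b).2⟩
    · rintro ⟨⟨h1, h2⟩, h3⟩
      exact ⟨fun b => ⟨h1 b, by rw [← Lb_Rp, h3]; rfl⟩, h2⟩

omit [Fintype ι] in
lemma S_mono {O O' : Submodule k (ι → k)} (h : O ≤ O') (i : ℕ) : S R O i ≤ S R O' i := by
  induction i using Nat.twoStepInduction with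
  | zero => exact le_top
  | one => exact fun f hf => h hf
  | more i _ ih => exact fun f hf => mem_S2.2 ⟨fun b => ih ((mem_S2.1 hf).1 b), (mem_S2.1 hf).2⟩

omit [Fintype ι] in
lemma S_bot {i : ℕ} {f : Wd ι (i + 1) → k} (hf : f ∈ S R ⊥ (i + 1)) : f = 0 := by
  induction i with
  | zero => exact funext fun w => congrFun ((Submodule.mem_bot k).1 (mem_S1.1 hf)) w.1
  | succ i ih => exact eq_zero_of_Lb fun b => ih (Lb_mem hf b)

variable (R) in
def PP (O : Submodule k (ι → k)) (φ : ι → k) : Submodule k (ι → k) :=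
  (S R O 2).map (LinearMap.funLeft k k (fun c => ((c, ()) : Wd ι 1)) ∘ₗ RpL 1 φ)

lemma Rp_mem {O : Submodule k (ι → k)} (φ : ι → k) {i : ℕ} {f : Wd ι (i + 1) → k}
    (hf : f ∈ S R O (i + 1)) : Rp φ f ∈ S R (PP R O φ) i := by
  induction i using Nat.twoStepInduction with
  | zero => exact Submodule.mem_top
  | one => exact mem_S1.2 ⟨f, hf, rfl⟩
  | more i _ ih =>
    refine mem_S2.2 ⟨fun b => ih (Lb_mem hf b), fun v => ?_⟩
    have : (fun a b => Rp φ f (a, (b, v))) = ∑ c, φ c • fun a b => f (a, (b, sn v c)) := by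
      funext a b; simp only [Finset.sum_apply, Pi.smul_apply]; rfl
    rw [this]
    exact R.sum_mem fun c _ => R.smul_mem _ ((mem_S2.1 hf).2 _)

variable (R) in
def Surj (O : Submodule k (ι → k)) (φ : ι → k) (i : ℕ) : Prop :=
  ∀ s ∈ S R (PP R O φ) i, ∃ z ∈ S R O (i + 1), Rp φ z = s

lemma surj_one (O : Submodule k (ι → k)) (φ : ι → k) : Surj R O φ 1 := by
  intro s hs
  obtain ⟨z, hz, e⟩ := mem_S1.1 hs
  exact ⟨z, hz, funext fun w => congrFun e w.1⟩

variable (R) in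
/-- the degree three condition -/
def H3 : Prop :=
  ∀ (O : Submodule k (ι → k)) (w β : ι → ι → ι → k), (∀ a b, w a b ∈ O) → (∀ a, β a ∈ R) →
    (∀ c, (fun a b => w a b c - β a b c) ∈ R) →
    ∃ β' : ι → ι → ι → k, (∀ a, β' a ∈ R) ∧ (∀ a b, β' a b ∈ O) ∧
      ∀ c, (fun a b => w a b c - β' a b c) ∈ R

lemma PP_eq_bot {O : Submodule k (ι → k)} {φ : ι → k} (h : ∀ y ∈ O, dot φ y = 0) :
    PP R O φ = ⊥ := by
  refine (Submodule.eq_bot_iff _).2 ?_
  rintro _ ⟨z, hz, rfl⟩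
  funext a
  exact h _ (mem_S1.1 (Lb_mem hz a))

lemma surj_two (h : H3 R) (O : Submodule k (ι → k)) (φ : ι → k) : Surj R O φ 2 := by
  intro s hs
  by_cases h0 : ∀ y ∈ O, dot φ y = 0
  · rw [PP_eq_bot h0] at hs
    refine ⟨0, zero_mem _, ?_⟩
    rw [S_bot hs]; exact map_zero (RpL 2 φ)
  push Not at h0
  obtain ⟨y0, hy0, hne⟩ := h0
  set y := (dot φ y0)⁻¹ • y0 with hy
  have hyO : y ∈ O := O.smul_mem _ hy0
  have hy1 : dot φ y = 1 := by rw [hy, map_smul, smul_eq_mul, inv_mul_cancel₀ hne]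
  choose z hz e using fun b => surj_one O φ (Lb b s) (Lb_mem hs b)
  obtain ⟨β, h1, h2, h3⟩ := h (O ⊓ LinearMap.ker (dot φ))
    (fun a b c => z a (b, (c, ())) - s (a, (b, ())) * y c) (fun a b c => z a (b, (c, ())))
    (fun a b => by
      have m1 : (fun c => z a (b, (c, ()))) ∈ O := mem_S1.1 (Lb_mem (hz a) b)
      have e1 : (fun c => z a (b, (c, ())) - s (a, (b, ())) * y c)
        = (fun c => z a (b, (c, ()))) - s (a, (b, ())) • y := rfl
      rw [e1]
      refine ⟨O.sub_mem m1 (O.smul_mem _ hyO), ?_⟩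
      have e2 : dot φ (fun c => z a (b, (c, ()))) = s (a, (b, ())) := congrFun (e a) (b, ())
      simp [e2, hy1])
    (fun a => (mem_S2.1 (hz a)).2 ())
    (fun c => by
      have e1 : (fun a b => z a (b, (c, ())) - s (a, (b, ())) * y c - z a (b, (c, ())))
        = (-y c) • fun a b => s (a, (b, ())) := by
        funext a b; simp [mul_comm]
      rw [e1]; exact R.smul_mem _ ((mem_S2.1 hs).2 ()))
  refine ⟨fun w => z w.1 w.2 - β w.1 w.2.1 w.2.2.1, mem_S2.2 ⟨fun a => ?_, fun v => ?_⟩, ?_⟩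
  · refine (S R O 2).sub_mem (hz a) (mem_S2.2 ⟨fun b => (h2 a b).1, fun _ => h1 a⟩)
  · have e1 : (fun a b => z a (b, v) - β a b v.1)
        = (fun a b => z a (b, (v.1, ())) - s (a, (b, ())) * y v.1 - β a b v.1)
          + y v.1 • fun a b => s (a, (b, ())) := by
      funext a b
      simp only [Pi.add_apply, Pi.smul_apply, smul_eq_mul]
      have : z a (b, v) = z a (b, (v.1, ())) := rfl
      rw [this]; ring
    exact e1 ▸ R.add_mem (h3 v.1) (R.smul_mem _ ((mem_S2.1 hs).2 ()))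
  · funext w
    have e2 : dot φ (fun c => z w.1 (w.2.1, (c, ()))) = s w := congrFun (e w.1) (w.2.1, ())
    have e3 : dot φ (β w.1 w.2.1) = 0 := (h2 _ _).2
    have e4 : dot φ ((fun c => z w.1 (w.2.1, (c, ()))) - β w.1 w.2.1) = s w := by
      rw [map_sub, e2, e3, sub_zero]
    exact e4

section points

variable {A : Type u} [Ring A] [Algebra k A] {W W' : Type} [Fintype W]

variable (A) in
def Pt (K : Submodule k (W → k)) : Submodule A (W → A) where
  carrier := {f | ∀ l : A →ₗ[k] k, (fun w => l (f w)) ∈ K}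
  add_mem' := fun {f g} hf hg l => by
    have : (fun w => l ((f + g) w)) = (fun w => l (f w)) + fun w => l (g w) := by
      funext w; simp
    exact this ▸ K.add_mem (hf l) (hg l)
  zero_mem' := fun l => by
    have : (fun w => l ((0 : W → A) w)) = 0 := by funext w; simp
    exact this ▸ K.zero_mem
  smul_mem' := fun a f hf l => hf (l ∘ₗ LinearMap.mulLeft k a)

omit [Fintype W] in
lemma ext_l {f g : W → A} (h : ∀ l : A →ₗ[k] k, (fun w => l (f w)) = fun w => l (g w)) :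
    f = g := by
  funext w
  rw [← sub_eq_zero, ← Module.forall_dual_apply_eq_zero_iff k]
  intro l
  rw [map_sub, sub_eq_zero]
  exact congrFun (h l) w

open Classical in
noncomputable def bc (T : (W → k) →ₗ[k] (W' → k)) (f : W → A) : W' → A :=
  fun w' => ∑ w, T (Pi.single w 1) w' • f w

lemma l_bc (T : (W → k) →ₗ[k] (W' → k)) (f : W → A) (l : A →ₗ[k] k) :
    (fun w' => l (bc T f w')) = T (fun w => l (f w)) := by
  classical
  rw [LinearMap.pi_apply_eq_sum_univ]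
  funext w'
  simp only [bc, map_sum, map_smul, Finset.sum_apply, Pi.smul_apply, smul_eq_mul]
  refine sum_congr rfl fun w _ => ?_
  have : (Pi.single w 1 : W → k) = fun j => if w = j then 1 else 0 := by
    funext j
    simp [Pi.single_apply, eq_comm]
  rw [mul_comm, this]

lemma l_Rp {i : ℕ} (φ : ι → k) (f : Wd ι (i + 1) → A) (l : A →ₗ[k] k) :
    (fun w => l (Rp φ f w)) = Rp φ (fun w => l (f w)) := by
  funext w; simp [Rp]

lemma Pt_sum {K : Submodule k (W → k)} {y g : W → A} (hy : ∀ c ∈ K, ∑ w, c w • y w = 0)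
    (hg : g ∈ Pt A K) : ∑ w, g w * y w = 0 := by
  classical
  obtain ⟨Q, hQ⟩ := K.exists_isCompl
  let p : (W → k) →ₗ[k] (W → k) := K.subtype ∘ₗ K.projectionOnto Q hQ
  have e : g = bc p g := ext_l (k := k) fun l => by
    rw [l_bc]
    exact (congrArg Subtype.val (Submodule.projectionOnto_apply_left hQ ⟨_, hg l⟩)).symm
  rw [e]
  simp only [bc, sum_mul]
  rw [sum_comm]
  refine sum_eq_zero fun w _ => ?_
  have := hy _ (K.projectionOnto Q hQ (Pi.single w 1)).2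
  simp only [smul_mul_assoc, ← mul_smul_comm, ← mul_sum]
  exact (congrArg (g w * ·) this).trans (mul_zero _)

lemma Pt_ker {O : Submodule k (ι → k)} {φ : ι → k} {i : ℕ} {f : Wd ι (i + 1) → A} :
    f ∈ Pt A (S R (O ⊓ LinearMap.ker (dot φ)) (i + 1)) ↔
      f ∈ Pt A (S R O (i + 1)) ∧ Rp φ f = 0 := by
  constructor
  · intro h
    refine ⟨fun l => (mem_inf_ker.1 (h l)).1, ext_l (k := k) fun l => ?_⟩
    rw [l_Rp, (mem_inf_ker.1 (h l)).2]; funext w; simp
  · rintro ⟨h1, h2⟩ l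
    refine mem_inf_ker.2 ⟨h1 l, ?_⟩
    rw [← l_Rp, h2]; funext w; simp

lemma Pt_Rp {O : Submodule k (ι → k)} (φ : ι → k) {i : ℕ} {f : Wd ι (i + 1) → A}
    (hf : f ∈ Pt A (S R O (i + 1))) : Rp φ f ∈ Pt A (S R (PP R O φ) i) := fun l => by
  rw [l_Rp]; exact Rp_mem φ (hf l)

lemma Pt_surj {O : Submodule k (ι → k)} {φ : ι → k} {i : ℕ} (h : Surj R O φ i) {g : Wd ι i → A}
    (hg : g ∈ Pt A (S R (PP R O φ) i)) : ∃ f ∈ Pt A (S R O (i + 1)), Rp φ f = g := by
  let F : S R O (i + 1) →ₗ[k] S R (PP R O φ) i :=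
    (RpL i φ).restrict (fun _ hf => Rp_mem φ hf)
  have hF : LinearMap.range F = ⊤ := LinearMap.range_eq_top.2 fun s => by
    obtain ⟨z, hz, e⟩ := h s.1 s.2
    exact ⟨⟨z, hz⟩, Subtype.ext e⟩
  obtain ⟨G, hG⟩ := F.exists_rightInverse_of_surjective hF
  obtain ⟨G', hG'⟩ := G.exists_extend
  refine ⟨bc ((S R O (i + 1)).subtype ∘ₗ G') g, fun l => ?_, ext_l (k := k) fun l => ?_⟩
  · rw [l_bc]; exact (G' _).2
  · rw [l_Rp, l_bc]
    have e1 : G' (fun w => l (g w)) = G ⟨_, hg l⟩ := LinearMap.congr_fun hG' ⟨_, hg l⟩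
    have e2 := congrArg Subtype.val (LinearMap.congr_fun hG ⟨_, hg l⟩)
    rw [LinearMap.comp_apply, e1]
    exact e2

variable (x : ι → A)

def dd {i : ℕ} (f : Wd ι (i + 1) → A) : Wd ι i → A := fun w => ∑ b, f (b, w) * x b

def ddL (i : ℕ) : (Wd ι (i + 1) → A) →ₗ[A] (Wd ι i → A) where
  toFun := dd x
  map_add' f g := by funext w; simp [dd, add_mul, sum_add_distrib]
  map_smul' a f := by funext w; simp [dd, mul_sum, mul_assoc]

lemma dd_sub {i : ℕ} (f g : Wd ι (i + 1) → A) : dd x (f - g) = dd x f - dd x g :=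
  map_sub (ddL x i) f g

lemma dd_add {i : ℕ} (f g : Wd ι (i + 1) → A) : dd x (f + g) = dd x f + dd x g :=
  map_add (ddL x i) f g

lemma dd_zero {i : ℕ} : dd x (0 : Wd ι (i + 1) → A) = 0 := map_zero (ddL x i)

lemma Rp_sub {i : ℕ} (φ : ι → k) (f g : Wd ι (i + 1) → A) : Rp φ (f - g) = Rp φ f - Rp φ g := by
  funext w; simp [Rp, smul_sub, sum_sub_distrib]

lemma Rp_dd {i : ℕ} (φ : ι → k) (f : Wd ι (i + 2) → A) : Rp φ (dd x f) = dd x (Rp φ f) := by
  funext w
  simp only [Rp, dd, smul_sum, sum_mul, smul_mul_assoc]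
  rw [sum_comm]
  rfl

lemma Pt_dd {O : Submodule k (ι → k)} {i : ℕ} {f : Wd ι (i + 1) → A}
    (hf : f ∈ Pt A (S R O (i + 1))) : dd x f ∈ Pt A (S R O i) := fun l => by
  have : (fun w => l (dd x f w))
      = ∑ b, Lb b (fun w => (l ∘ₗ LinearMap.mulRight k (x b)) (f w)) := by
    funext w; simp [dd, Lb, Finset.sum_apply]
  rw [this]
  exact Submodule.sum_mem _ fun b _ => Lb_mem (hf _) b

variable (R) in
structure Ctx (τ : ℕ → A →ₗ[k] A) (lam : A →ₗ[k] (ι → k)) : Prop where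
  rel : ∀ c ∈ R, ∑ a, ∑ b, c a b • (x a * x b) = 0
  t0 : ∀ a, τ 0 a = 0
  ts : ∀ j a b, τ (j + 1) (a * x b) = τ j a * x b
  tt : ∀ j a, τ j (τ j a) = τ j a
  tf : ∀ a, ∃ j, ∀ j', j ≤ j' → τ j' a = a
  lam1 : ∀ c : ι → k, lam (∑ b, c b • x b) = c
  lam2 : ∀ u : ι → A, ∑ b, u b * x b = 0 → (fun a b => lam (u b) a) ∈ R

variable (R) in
def E (O : Submodule k (ι → k)) (i : ℕ) : Prop :=
  ∀ z ∈ Pt A (S R O (i + 1)), dd x z = 0 → ∃ g ∈ Pt A (S R O (i + 2)), dd x g = z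

variable (R) in
def E1 (τ : ℕ → A →ₗ[k] A) (O : Submodule k (ι → k)) (j : ℕ) : Prop :=
  ∀ z ∈ Pt A (S R O 1), (∀ t, τ j (z t) = z t) → dd x z = 0 → ∃ g ∈ Pt A (S R O 2), dd x g = z

variable {x} {τ : ℕ → A →ₗ[k] A} {lam : A →ₗ[k] (ι → k)}

lemma Ctx.sq (C : Ctx R x τ lam) {O : Submodule k (ι → k)} {i : ℕ} {f : Wd ι (i + 2) → A}
    (hf : f ∈ Pt A (S R O (i + 2))) : dd x (dd x f) = 0 := by
  funext w
  have := Pt_sum (K := R.comap (LinearEquiv.curry k k ι ι).toLinearMap)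
    (y := fun p => x p.1 * x p.2) (g := fun p => f (p.1, (p.2, w)))
    (fun c hc => by rw [Fintype.sum_prod_type]; exact C.rel _ hc)
    (fun l => (mem_S2.1 (hf l)).2 w)
  rw [Fintype.sum_prod_type, sum_comm] at this
  simpa only [dd, sum_mul, mul_assoc, Pi.zero_apply] using this

lemma Ctx.up (C : Ctx R x τ lam) {O : Submodule k (ι → k)} {φ : ι → k} {i : ℕ}
    (s : Surj R O φ (i + 2)) (h1 : E R x (O ⊓ LinearMap.ker (dot φ)) (i + 1))
    (h2 : E R x (PP R O φ) i) : E R x O (i + 1) := by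
  intro z hz hd
  obtain ⟨u, hu1, hu3⟩ := h2 (Rp φ z) (Pt_Rp φ hz) (by
    rw [← Rp_dd, hd]; funext w; simp [Rp])
  obtain ⟨f, hf1, hf3⟩ := Pt_surj s hu1
  obtain ⟨g, hg1, hg3⟩ := h1 (z - dd x f)
    (Pt_ker.2 ⟨sub_mem hz (Pt_dd x hf1), by rw [Rp_sub, Rp_dd, hf3, hu3, sub_self]⟩)
    (by rw [dd_sub, hd, C.sq hf1, sub_self])
  exact ⟨g + f, add_mem (Pt_ker.1 hg1).1 hf1, by rw [dd_add, hg3]; abel⟩

lemma Ctx.down (C : Ctx R x τ lam) {O : Submodule k (ι → k)} {φ : ι → k} {j : ℕ}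
    (s : Surj R O φ 2) (h1 : E1 R x τ O (j + 1)) (h2 : E1 R x τ (PP R O φ) j) :
    E1 R x τ (O ⊓ LinearMap.ker (dot φ)) (j + 1) := by
  intro z hz ht hd
  obtain ⟨w0, hw1, hw3⟩ := h1 z (Pt_ker.1 hz).1 ht hd
  set w : Wd ι 2 → A := fun t => τ j (w0 t) with hw
  have a1 : w ∈ Pt A (S R O 2) := fun l => hw1 (l ∘ₗ τ j)
  have a3 : dd x w = z := by
    funext t
    rw [← ht t, ← hw3]
    simp only [dd, hw, map_sum, C.ts]
  obtain ⟨u, hu1, hu3⟩ := h2 (Rp φ w) (Pt_Rp φ a1)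
    (fun t => by simp only [Rp, hw, map_sum, map_smul, C.tt])
    (by rw [← Rp_dd, a3, (Pt_ker.1 hz).2])
  obtain ⟨f, hf1, hf3⟩ := Pt_surj s hu1
  refine ⟨w - dd x f, Pt_ker.2 ⟨sub_mem a1 (Pt_dd x hf1), ?_⟩, ?_⟩
  · rw [Rp_sub, Rp_dd, hf3, hu3, sub_self]
  · rw [dd_sub, C.sq hf1, a3, sub_zero]

lemma Ctx.surj_succ (C : Ctx R x τ lam) {O : Submodule k (ι → k)} {φ : ι → k} {i : ℕ}
    (s : Surj R O φ (i + 1)) (h : E R x (O ⊓ LinearMap.ker (dot φ)) i) : Surj R O φ (i + 2) := by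
  intro t ht
  choose z hz e using fun b => s (Lb b t) (Lb_mem ht b)
  let Z : Wd ι (i + 2) → A := fun w => ∑ a, z a w • x a
  have hZ : Z ∈ Pt A (S R O (i + 2)) := fun l => by
    have : (fun w => l (Z w)) = ∑ a, l (x a) • z a := by
      funext w; simp [Z, Finset.sum_apply, mul_comm]
    rw [this]
    exact Submodule.sum_mem _ fun a _ => Submodule.smul_mem _ _ (hz a)
  have hR : Rp φ (dd x Z) = 0 := by
    rw [Rp_dd]
    funext w
    have e1 : ∀ b, Rp φ Z (b, w) = ∑ a, t (a, (b, w)) • x a := fun b => by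
      have e2 : ∀ a, t (a, (b, w)) = ∑ c, φ c • z a (sn (b, w) c) := fun a =>
        (congrFun (e a) (b, w)).symm
      simp only [Rp, Z, e2, smul_sum, sum_smul, smul_eq_mul, mul_smul]
      rw [sum_comm]
    have := C.rel _ ((mem_S2.1 ht).2 w)
    rw [sum_comm] at this
    simpa only [dd, e1, sum_mul, smul_mul_assoc, Pi.zero_apply] using this
  obtain ⟨u, hu1, hu3⟩ := h (dd x Z) (Pt_ker.2 ⟨Pt_dd x hZ, hR⟩) (C.sq hZ)
  have hu : ∀ a, (fun w => lam (u w) a) ∈ S R (O ⊓ LinearMap.ker (dot φ)) (i + 2) := fun a =>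
    hu1 (LinearMap.proj a ∘ₗ lam)
  refine ⟨fun w => z w.1 w.2 - lam (u w.2) w.1, mem_S2.2 ⟨fun a => ?_, fun v => ?_⟩, ?_⟩
  · exact sub_mem (hz a) (mem_inf_ker.1 (hu a)).1
  · have h0 : dd x (Z - u) v = 0 := by rw [dd_sub, hu3, sub_self]; rfl
    have := C.lam2 (fun b => (Z - u) (b, v)) h0
    simpa only [Pi.sub_apply, map_sub, Z, C.lam1] using this
  · funext w
    have e1 := congrFun (e w.1) w.2
    have e2 := congrFun (mem_inf_ker.1 (hu w.1)).2 w.2
    have e3 : Rp φ (fun w : Wd ι (i + 3) => z w.1 w.2 - lam (u w.2) w.1) w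
        = Rp φ (z w.1) w.2 - Rp φ (fun v => lam (u v) w.1) w.2 := by
      simp only [Rp, ← sum_sub_distrib, ← smul_sub]; rfl
    rw [e3, e1, e2]; exact sub_zero _

lemma exists_ker_lt {O : Submodule k (ι → k)} (h : O ≠ ⊥) :
    ∃ φ : ι → k, O ⊓ LinearMap.ker (dot φ) < O := by
  classical
  obtain ⟨v, hv, hne⟩ := (Submodule.ne_bot_iff _).1 h
  obtain ⟨c, hc⟩ := Function.ne_iff.1 hne
  refine ⟨Pi.single c 1, lt_of_le_of_ne inf_le_left fun e => hc ?_⟩
  have : v ∈ O ⊓ LinearMap.ker (dot (Pi.single c 1)) := e.symm ▸ hv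
  simpa [dot_apply, Pi.single_apply] using this.2

lemma exists_dot (g : (ι → k) →ₗ[k] k) : ∃ φ : ι → k, dot φ = g := by
  classical
  refine ⟨fun b => g (Pi.single b 1), (Pi.basisFun k ι).ext fun b => ?_⟩
  simp [dot_apply, Pi.single_apply]

lemma exists_gt {O' O1 : Submodule k (ι → k)} (h : O' < O1) :
    ∃ (O : Submodule k (ι → k)) (φ : ι → k), O' < O ∧ O ≤ O1 ∧
      O ⊓ LinearMap.ker (dot φ) = O' ∧ Module.finrank k O = Module.finrank k O' + 1 := by
  obtain ⟨y, hy1, hy⟩ := SetLike.exists_of_lt h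
  obtain ⟨g, hg1, hg2⟩ := Submodule.exists_dual_map_eq_bot_of_notMem hy inferInstance
  obtain ⟨φ, rfl⟩ := exists_dot g
  have hz : ∀ v ∈ O', dot φ v = 0 := fun v hv =>
    (Submodule.mem_bot k).1 (hg2 ▸ Submodule.mem_map_of_mem hv)
  refine ⟨O' ⊔ Submodule.span k {y}, φ, ?_, ?_, ?_, ?_⟩
  · refine lt_of_le_of_ne le_sup_left fun e => hy ?_
    rw [e]; exact Submodule.mem_sup_right (Submodule.mem_span_singleton_self y)
  · exact sup_le h.le ((Submodule.span_singleton_le_iff_mem _ _).2 hy1)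
  · refine le_antisymm ?_ (le_inf le_sup_left hz)
    rintro v ⟨h1, h2⟩
    obtain ⟨a, ha, b, hb, rfl⟩ := Submodule.mem_sup.1 h1
    obtain ⟨c, rfl⟩ := Submodule.mem_span_singleton.1 hb
    have h3 : dot φ (a + c • y) = 0 := h2
    rw [map_add, hz a ha, zero_add, map_smul, smul_eq_mul, mul_eq_zero] at h3
    rcases h3 with rfl | h3
    · simpa using ha
    · exact absurd h3 hg1
  · have hy0 : y ≠ 0 := fun e => hy (e ▸ O'.zero_mem)
    have := Submodule.finrank_sup_add_finrank_inf_eq O' (Submodule.span k {y})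
    rw [finrank_span_singleton hy0,
      (Submodule.disjoint_span_singleton_of_notMem hy).eq_bot, finrank_bot] at this
    omega

lemma Ctx.E_zero (C : Ctx R x τ lam) (h : H3 R) (hV : E R x ⊤ 0) (O : Submodule k (ι → k)) :
    E R x O 0 := by
  have key : ∀ j O, E1 R x τ O j := by
    intro j
    induction j with
    | zero =>
      intro O z _ ht _
      refine ⟨0, zero_mem _, ?_⟩
      rw [dd_zero]; funext t; rw [← ht t, C.t0]; rfl
    | succ j ih =>
      intro O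
      induction O using WellFoundedGT.induction with
      | ind O ihO =>
        by_cases hO : O = ⊤
        · subst hO; exact fun z hz _ hd => hV z hz hd
        · obtain ⟨O1, φ, h1, -, h2, -⟩ := exists_gt (lt_top_iff_ne_top.2 hO)
          rw [← h2]
          exact C.down (surj_two h O1 φ) (ihO O1 h1) (ih _)
  intro z hz hd
  choose J hJ using C.tf
  exact key (univ.sup fun t => J (z t)) O z hz
    (fun t => hJ _ _ (le_sup (f := fun t => J (z t)) (mem_univ t))) hd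

theorem Ctx.all (C : Ctx R x τ lam) (h : H3 R) (hV : E R x ⊤ 0) (i : ℕ) :
    (∀ O, E R x O i) ∧ ∀ O φ, Surj R O φ (i + 1) := by
  induction i with
  | zero => exact ⟨C.E_zero h hV, surj_one⟩
  | succ i ih =>
    have hs : ∀ O φ, Surj R O φ (i + 2) := fun O φ => C.surj_succ (ih.2 O φ) (ih.1 _)
    refine ⟨fun O => ?_, hs⟩
    induction O using WellFoundedLT.induction with
    | ind O ihO =>
      by_cases hO : O = ⊥
      · subst hO
        intro z hz _
        refine ⟨0, zero_mem _, ?_⟩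
        rw [dd_zero]
        exact ext_l (k := k) fun l => by rw [S_bot (hz l)]; funext w; simp
      · obtain ⟨φ, hφ⟩ := exists_ker_lt hO
        exact C.up (hs O φ) (ihO _ hφ) (ih.1 _)

end points

end Pool.Agent.H51.BKa
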