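import Pool.Agent.H51.BKa
import Pool.Agent.H51.BKDefs

set_option autoImplicit false

namespace Pool.Agent.H51.BKb

open Finset Pool.Agent.H51.BKa Pool.Agent.H51.BKDefs Module Polynomial CategoryTheory
open scoped ModuleCat.Algebra

universe u

variable {ι : Type} {k : Type u} [Field k] [Fintype ι] {R : Submodule k (ι → ι → k)}

lemma rank_step (O : Submodule k (ι → k)) (φ : ι → k) :
    finrank k (S R O 2) = finrank k (S R (O ⊓ LinearMap.ker (dot φ)) 2) + finrank k (PP R O φ) := by
  set g := LinearMap.funLeft k k (fun c => ((c, ()) : Wd ι 1)) ∘ₗ RpL 1 φ with hg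
  have h := LinearMap.finrank_range_add_finrank_ker (g.domRestrict (S R O 2))
  rw [LinearMap.range_domRestrict, LinearMap.ker_domRestrict,
    ← Submodule.finrank_map_subtype_eq, Submodule.map_comap_subtype] at h
  have e : S R (O ⊓ LinearMap.ker (dot φ)) 2 = S R O 2 ⊓ LinearMap.ker g := by
    ext f
    rw [mem_inf_ker, Submodule.mem_inf, LinearMap.mem_ker]
    refine and_congr_right fun _ => ⟨fun h => ?_, fun h => funext fun w => congrFun h w.1⟩
    funext c; exact congrFun h (c, ())
  rw [e, ← h, add_comm]; rfl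

lemma PP_le (hanti : ∀ c ∈ R, ∀ a b, c a b = - c b a) (O : Submodule k (ι → k)) (φ : ι → k) :
    PP R O φ ≤ O := by
  rintro _ ⟨z, hz, rfl⟩
  have e : (LinearMap.funLeft k k (fun c => ((c, ()) : Wd ι 1)) ∘ₗ RpL 1 φ) z
      = ∑ c, (-φ c) • fun a => z (c, (a, ())) := by
    funext a
    simp only [Finset.sum_apply, Pi.smul_apply, smul_eq_mul]
    refine sum_congr rfl fun c _ => ?_
    have := hanti _ ((mem_S2.1 hz).2 ()) a c
    change φ c * z (a, (c, ())) = _
    rw [this]; ring
  rw [e]
  exact O.sum_mem fun c _ => O.smul_mem _ (mem_S1.1 (Lb_mem hz c))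

theorem count (hanti : ∀ c ∈ R, ∀ a b, c a b = - c b a)
    (hs : ∀ i O φ, Surj R O φ (i + 1)) (n : ℕ) : ∀ O : Submodule k (ι → k),
    (∀ f ∈ S R O (n + 1), f = 0) →
      2 * (n : ℤ) * finrank k (S R O 2) ≤ ((n : ℤ) - 1) * (finrank k O : ℤ) ^ 2 := by
  induction n with
  | zero =>
    intro O h
    have : O = ⊥ := (Submodule.eq_bot_iff _).2 fun v hv => by
      have := h (fun w => v w.1) (mem_S1.2 hv)
      funext c; exact congrFun this (c, ())
    subst this; simp
  | succ n ih =>
    intro O h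
    rcases Nat.eq_zero_or_pos n with rfl | hn
    · have : S R O 2 = ⊥ := (Submodule.eq_bot_iff _).2 h
      rw [this]; simp
    have bdd : BddAbove (Set.range fun φ : ι → k => finrank k (PP R O φ)) :=
      ⟨finrank k (ι → k), by rintro _ ⟨φ, rfl⟩; exact Submodule.finrank_le _⟩
    obtain ⟨φ, hφ⟩ := Nat.sSup_mem (Set.range_nonempty _) bdd
    have hmax : ∀ ψ, finrank k (PP R O ψ) ≤ finrank k (PP R O φ) := fun ψ => by
      have := le_csSup bdd ⟨ψ, rfl⟩
      rw [← hφ] at this; exact this
    have h1 := ih (PP R O φ) (fun f hf => by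
      obtain ⟨z, hz, rfl⟩ := hs n O φ f hf
      rw [h z hz]; exact map_zero (RpL (n + 1) φ))
    have key : ∀ m, finrank k (PP R O φ) + m ≤ finrank k O → ∃ O', O' ≤ O ∧
        finrank k O' = finrank k (PP R O φ) + m ∧
        finrank k (S R O' 2) ≤ finrank k (S R (PP R O φ) 2) + m * finrank k (PP R O φ) := by
      intro m
      induction m with
      | zero => exact fun _ => ⟨_, PP_le hanti O φ, rfl, by simp⟩
      | succ m ihm =>
        intro hm
        obtain ⟨O', a1, a2, a3⟩ := ihm (by omega)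
        have lt : O' < O := lt_of_le_of_ne a1 (fun e => by rw [e] at a2; omega)
        obtain ⟨O2, ψ, -, b2, b3, b4⟩ := exists_gt lt
        refine ⟨O2, b2, by omega, ?_⟩
        have c1 := rank_step (R := R) O2 ψ
        have c2 : finrank k (PP R O2 ψ) ≤ finrank k (PP R O ψ) :=
          Submodule.finrank_mono (Submodule.map_mono (S_mono b2 2))
        have := hmax ψ
        rw [b3] at c1
        rw [add_mul]; omega
    obtain ⟨m, hm⟩ := Nat.exists_eq_add_of_le (Submodule.finrank_mono (PP_le hanti O φ))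
    obtain ⟨O', a1, a2, a3⟩ := key m hm.ge
    have : O' = O := Submodule.eq_of_le_of_finrank_eq a1 (by omega)
    subst this
    rw [hm]
    push_cast
    have a4 : (finrank k (S R O' 2) : ℤ) ≤ finrank k (S R (PP R O' φ) 2)
      + m * finrank k (PP R O' φ) := by exact_mod_cast a3
    have hn' : (0 : ℤ) < n := by exact_mod_cast hn
    generalize (finrank k (S R O' 2) : ℤ) = r at *
    generalize (finrank k (S R (PP R O' φ) 2) : ℤ) = s at *
    generalize (finrank k (PP R O' φ) : ℤ) = D at *
    refine le_of_mul_le_mul_left ?_ hn'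
    nlinarith [sq_nonneg ((n : ℤ) * m - D), mul_le_mul_of_nonneg_left a4
      (show (0 : ℤ) ≤ 2 * n * (n + 1) by positivity), mul_le_mul_of_nonneg_left h1
      (show (0 : ℤ) ≤ n + 1 by positivity)]

variable {A : Type u} [Ring A] [Algebra k A]

variable (R) in
structure Pres (x : ι → A) : Prop where
  gen : Algebra.adjoin k (Set.range x) = ⊤
  rel : ∀ c ∈ R, ∑ a, ∑ b, c a b • (x a * x b) = 0
  lift : ∀ (C : Type u) [Ring C] [Algebra k C] (c : ι → C),
    (∀ r ∈ R, ∑ a, ∑ b, r a b • (c a * c b) = 0) → ∃ f : A →ₐ[k] C, ∀ b, f (x b) = c b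

variable {x : ι → A}

lemma Pres.ind (H : Pres R x) (P : A → Prop) (h1 : P 1) (hs : ∀ (c : k) a, P a → P (c • a))
    (ha : ∀ a b, P a → P b → P (a + b)) (hm : ∀ a b, P a → P (a * x b)) (a : A) : P a := by
  have ha' : a ∈ Algebra.adjoin k (Set.range x) := H.gen ▸ Algebra.mem_top
  have : ∀ u, P u → P (u * a) := by
    induction ha' using Algebra.adjoin_induction with
    | mem y hy => obtain ⟨b, rfl⟩ := hy; exact fun u hu => hm _ _ hu
    | algebraMap r =>
      intro u hu
      rw [← Algebra.commutes, ← Algebra.smul_def]; exact hs _ _ hu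
    | add a b _ _ iha ihb => intro u hu; rw [mul_add]; exact ha _ _ (iha _ hu) (ihb _ hu)
    | mul a b _ _ iha ihb => intro u hu; rw [← mul_assoc]; exact ihb _ (iha _ hu)
  simpa using this 1 h1

lemma Pres.exists_tau (H : Pres R x) : ∃ τ : ℕ → A →ₗ[k] A, (∀ a, τ 0 a = 0) ∧
    (∀ j a b, τ (j + 1) (a * x b) = τ j a * x b) ∧ (∀ j a, τ j (τ j a) = τ j a) ∧
    ∀ a, ∃ j, ∀ j', j ≤ j' → τ j' a = a := by
  obtain ⟨phi, hphi⟩ := H.lift A[X] (fun a => C (x a) * X) (fun c hc => by
    have e : ∀ a b, C (x a) * X * (C (x b) * X) = C (x a * x b) * (X * X) := fun a b => by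
      rw [C_mul, mul_assoc, ← mul_assoc X, X_mul_C]; simp only [mul_assoc]
    simp only [e]
    have h0 := H.rel c hc
    simp only [← smul_mul_assoc] at h0
    simp only [← smul_mul_assoc, ← sum_mul, smul_C, ← map_sum C, h0, zero_mul, map_zero])
  let tau : ℕ → A →ₗ[k] A := fun j =>
    { toFun := fun a => ∑ n ∈ range j, (phi a).coeff n
      map_add' := fun a b => by simp [sum_add_distrib]
      map_smul' := fun c a => by simp [smul_sum] }
  have t0 : ∀ a, tau 0 a = 0 := fun a => by simp [tau]
  have ts : ∀ j a b, tau (j + 1) (a * x b) = tau j a * x b := fun j a b => by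
    simp only [tau, LinearMap.coe_mk, AddHom.coe_mk, sum_range_succ', map_mul, hphi,
      ← mul_assoc, coeff_mul_X, coeff_mul_C, mul_coeff_zero, coeff_X_zero, mul_zero, add_zero,
      sum_mul]
  have t1 : ∀ j, tau (j + 1) 1 = 1 := fun j => by simp [tau, sum_range_succ', coeff_one]
  refine ⟨tau, t0, ts, fun j a => ?_, fun a => ?_⟩
  · induction a using H.ind generalizing j with
    | h1 => rcases j with _ | j
            · simp [t0]
            · rw [t1, t1]
    | hs c a h => rw [map_smul, map_smul, h]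
    | ha a b h h' => rw [map_add, map_add, h, h']
    | hm a b h => rcases j with _ | j
                  · simp [t0]
                  · rw [ts, ts, h]
  · induction a using H.ind with
    | h1 => exact ⟨1, fun j hj => by obtain ⟨j, rfl⟩ := Nat.exists_eq_add_of_le' hj; exact t1 j⟩
    | hs c a h => obtain ⟨j, h⟩ := h; exact ⟨j, fun j' hj => by rw [map_smul, h j' hj]⟩
    | ha a b h h' =>
      obtain ⟨j, h⟩ := h; obtain ⟨i, h'⟩ := h'
      exact ⟨max j i, fun j' hj => by
        rw [map_add, h j' (le_trans (le_max_left _ _) hj), h' j' (le_trans (le_max_right _ _) hj)]⟩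
    | hm a b h =>
      obtain ⟨j, h⟩ := h
      refine ⟨j + 1, fun j' hj => ?_⟩
      obtain ⟨i, rfl⟩ : ∃ i, j' = i + 1 := ⟨j' - 1, by omega⟩
      rw [ts, h i (by omega)]

def tens (u : ι → k) : (ι → k) →ₗ[k] (ι → ι → k) where
  toFun v := fun a b => u a * v b
  map_add' v w := by funext a b; simp [mul_add]
  map_smul' c v := by funext a b; simp [mul_left_comm]

lemma sum_tens [DecidableEq ι] (c : ι → ι → k) :
    ∑ a, ∑ b, c a b • tens (Pi.single a 1) (Pi.single b 1) = c := by
  funext a b
  simp [tens, Finset.sum_apply, Pi.single_apply]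

lemma Pres.exists_lam (H : Pres R x) : ∃ lam : A →ₗ[k] (ι → k),
    (∀ c : ι → k, lam (∑ b, c b • x b) = c) ∧
    ∀ u : ι → A, ∑ b, u b * x b = 0 → (fun a b => lam (u b) a) ∈ R := by
  classical
  let F : ι → Module.End k (k × (ι → k) × ((ι → ι → k) ⧸ R)) := fun b =>
    LinearMap.prod 0 (LinearMap.prod (LinearMap.toSpanSingleton k _ (Pi.single b 1) ∘ₗ
      LinearMap.fst k _ _) (R.mkQ ∘ₗ tens (Pi.single b 1) ∘ₗ LinearMap.fst k _ _ ∘ₗ
        LinearMap.snd k _ _))
  have hF : ∀ b p, F b p = (0, p.1 • Pi.single b 1, R.mkQ (tens (Pi.single b 1) p.2.1)) :=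
    fun _ _ => rfl
  obtain ⟨ρ, hρ⟩ := H.lift _ F (fun c hc => by
    refine LinearMap.ext fun p => ?_
    simp only [LinearMap.sum_apply, LinearMap.smul_apply, Module.End.mul_apply, hF,
      LinearMap.zero_apply, zero_smul, map_smul]
    refine Prod.ext (by simp [Prod.fst_sum]) (Prod.ext (by simp [Prod.fst_sum, Prod.snd_sum]) ?_)
    simp only [Prod.snd_sum, Prod.smul_snd, Prod.snd_zero, smul_comm _ p.1, ← smul_sum,
      ← map_smul R.mkQ, ← map_sum R.mkQ, sum_tens]
    exact (Submodule.Quotient.mk_eq_zero _).2 (R.smul_mem _ hc))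
  let lam : A →ₗ[k] (ι → k) := LinearMap.fst k _ _ ∘ₗ LinearMap.snd k _ _ ∘ₗ
    LinearMap.applyₗ (1, 0, 0) ∘ₗ ρ.toLinearMap
  have hl : ∀ a, lam a = (ρ a (1, 0, 0)).2.1 := fun _ => rfl
  have key : ∀ a, ∃ e : k, (∀ n, ρ a (0, 0, n) = (0, 0, e • n)) ∧
      ∀ v, ρ a (0, v, 0) = (0, e • v, R.mkQ (tens (lam a) v)) := by
    intro a
    induction a using H.ind with
    | h1 =>
      refine ⟨1, by simp, fun v => ?_⟩
      have : tens (lam 1) v = 0 := by funext a b; simp [hl, tens]
      simp [this]
    | hs c a h =>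
      obtain ⟨e, h1, h2⟩ := h
      refine ⟨c * e, fun n => by simp [h1, mul_smul], fun v => ?_⟩
      have : tens (lam (c • a)) v = c • tens (lam a) v := by
        funext a b; simp [tens, mul_assoc]
      rw [this]; simp [h2, mul_smul]
    | ha a b h h' =>
      obtain ⟨e, h1, h2⟩ := h
      obtain ⟨e', h1', h2'⟩ := h'
      refine ⟨e + e', fun n => by simp [h1, h1', add_smul], fun v => ?_⟩
      have : tens (lam (a + b)) v = tens (lam a) v + tens (lam b) v := by
        funext a b; simp [tens, add_mul]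
      rw [this]; simp [h2, h2', add_smul]
    | hm a b h =>
      obtain ⟨e, h1, h2⟩ := h
      refine ⟨0, fun n => ?_, fun v => ?_⟩
      · rw [map_mul, Module.End.mul_apply, hρ, hF]
        simp only [zero_smul, map_zero]
        exact map_zero (ρ a)
      · have : tens (lam (a * x b)) v = e • tens (Pi.single b 1) v := by
          rw [hl, map_mul, Module.End.mul_apply, hρ, hF]
          simp only [one_smul, map_zero, h2]
          funext a b; simp [tens, mul_assoc]
        rw [this, map_mul, Module.End.mul_apply, hρ, hF]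
        simp only [zero_smul, h1, map_smul]
  refine ⟨lam, fun c => ?_, fun u hu => ?_⟩
  · rw [map_sum]
    funext a
    simp [hl, hρ, hF, Finset.sum_apply, Pi.single_apply]
  · choose e _ h2 using key
    have h := congrArg (fun a => (ρ a (1, 0, 0)).2.2) hu
    simp only [map_sum, map_mul, LinearMap.sum_apply, Module.End.mul_apply, hρ, hF, one_smul,
      map_zero, h2, Prod.snd_sum, LinearMap.zero_apply, Prod.snd_zero] at h
    rw [← map_sum R.mkQ] at h
    have h' := (Submodule.Quotient.mk_eq_zero _).1 h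
    convert h' using 1
    funext a b
    simp [tens, Finset.sum_apply, Pi.single_apply]

lemma Pres.exact_one (H : Pres R x) {W : Type u} [AddCommGroup W] [Module A W] [Module k W]
    [IsScalarTower k A W] (e : ι → W)
    (he : ∀ c ∈ R, ∑ a, ∑ b, c a b • (x a • e b) = 0)
    (z : ι → A) (hz : ∑ b, z b * x b = 0) : ∑ b, z b • e b = 0 := by
  let F : ι → Module.End k (W × k) := fun b =>
    { toFun := fun p => (x b • p.1 + p.2 • e b, 0)
      map_add' := fun p q => by
        ext
        · simp only [Prod.fst_add, Prod.snd_add, smul_add, add_smul]; abel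
        · simp
      map_smul' := fun c p => by
        ext
        · simp only [Prod.smul_fst, Prod.smul_snd, RingHom.id_apply, smul_add, smul_eq_mul,
            mul_smul, smul_comm c (x b)]
        · simp }
  have hF : ∀ b p, F b p = (x b • p.1 + p.2 • e b, 0) := fun _ _ => rfl
  obtain ⟨ρ, hρ⟩ := H.lift _ F (fun c hc => by
      refine LinearMap.ext fun p => ?_
      simp only [LinearMap.sum_apply, LinearMap.smul_apply, Module.End.mul_apply, hF,
        LinearMap.zero_apply]
      ext
      · simp only [Prod.fst_sum, Prod.smul_fst, zero_smul, add_zero, smul_add, sum_add_distrib,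
          Prod.fst_zero]
        have e1 : ∑ a, ∑ b, c a b • x a • x b • p.1
            = (∑ a, ∑ b, c a b • (x a * x b)) • p.1 := by
          simp only [sum_smul, smul_assoc, mul_smul]
        have e2 : ∑ a, ∑ b, c a b • x a • p.2 • e b
            = p.2 • ∑ a, ∑ b, c a b • x a • e b := by
          simp only [smul_sum]
          refine sum_congr rfl fun a _ => sum_congr rfl fun b _ => ?_
          rw [← smul_comm p.2 (x a), smul_comm]
        rw [e1, e2, H.rel c hc, he c hc]; simp
      · simp [Prod.snd_sum])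
  have h1 : ∀ (a : A) (q : W), ρ a (q, 0) = (a • q, 0) := by
    intro a
    induction a using H.ind with
    | h1 => intro q; simp
    | hs c a h => intro q; rw [map_smul, LinearMap.smul_apply, h]; simp
    | ha a b h h' => intro q; rw [map_add, LinearMap.add_apply, h, h']; simp [add_smul]
    | hm a b h => intro q; rw [map_mul, Module.End.mul_apply, hρ, hF, h]; simp [mul_smul]
  have h2 := congrArg (fun a => (ρ a (0, 1)).1) hz
  simpa only [map_sum, map_mul, LinearMap.sum_apply, Module.End.mul_apply, hρ, hF, h1,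
    Prod.fst_sum, smul_zero, zero_add, one_smul, map_zero, LinearMap.zero_apply,
    Prod.fst_zero] using h2

lemma hat_mem {W : Type} {K : Submodule k (W → k)} {s : W → k} (hs : s ∈ K) :
    (fun w => algebraMap k A (s w)) ∈ Pt A K := fun l => by
  have : (fun w => l (algebraMap k A (s w))) = l 1 • s := by
    funext w; rw [Algebra.algebraMap_eq_smul_one, map_smul]; simp [mul_comm]
  exact this ▸ K.smul_mem _ hs

lemma Pres.E_top (H : Pres R x) : E R x ⊤ 0 := by
  classical
  intro z _ hd
  let B : Submodule A (Wd ι 1 → A) := (Pt A (S R ⊤ 2)).map (ddL x 1)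
  have h := H.exact_one (W := (Wd ι 1 → A) ⧸ B)
    (fun b => B.mkQ (fun w => if w.1 = b then 1 else 0)) (fun c hc => by
      have hm : dd x (fun w : Wd ι 2 => algebraMap k A (c w.1 w.2.1)) ∈ B :=
        ⟨_, hat_mem (s := fun w : Wd ι 2 => c w.1 w.2.1)
          (mem_S2.2 ⟨fun _ => mem_S1.2 Submodule.mem_top, fun _ => hc⟩), rfl⟩
      rw [← Submodule.Quotient.mk_eq_zero, ← Submodule.mkQ_apply] at hm
      rw [← hm]
      simp only [← map_smul, ← LinearMap.map_smul_of_tower, ← map_sum]
      congr 1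
      funext w
      simp [dd, Finset.sum_apply, Algebra.smul_def]) (fun b => z (b, ())) (congrFun hd ())
  simp only [← map_smul, ← map_sum] at h
  rw [Submodule.mkQ_apply, Submodule.Quotient.mk_eq_zero] at h
  obtain ⟨g, hg, e⟩ := h
  refine ⟨g, hg, e.trans ?_⟩
  funext w
  simp [Finset.sum_apply]
  rfl

lemma Pres.ker_aug (H : Pres R x) (ε : A →ₐ[k] k) (hε : ∀ b, ε (x b) = 0) (a : A) :
    ∃ z : ι → A, a = algebraMap k _ (ε a) + ∑ b, z b * x b := by
  classical
  induction a using H.ind with
  | h1 => exact ⟨0, by simp⟩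
  | hs c a h =>
    obtain ⟨z, h⟩ := h
    refine ⟨fun b => c • z b, ?_⟩
    conv_lhs => rw [h]
    simp [smul_sum, Algebra.smul_def, mul_sum, mul_add, mul_assoc]
  | ha a b h h' =>
    obtain ⟨z, h⟩ := h; obtain ⟨y, h'⟩ := h'
    refine ⟨z + y, ?_⟩
    conv_lhs => rw [h, h']
    simp only [map_add, Pi.add_apply, add_mul, sum_add_distrib]; abel
  | hm a b _ =>
    refine ⟨Pi.single b a, ?_⟩
    rw [map_mul, hε, mul_zero, map_zero, zero_add, sum_eq_single b] <;> simp +contextual

lemma exists_basis {W : Type} [Fintype W] (K : Submodule k (W → k)) :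
    ∃ β : Basis (Fin (finrank k K)) A (Pt A K), ∀ j, ∃ s ∈ K,
      (β j).1 = fun w => algebraMap k A (s w) := by
  let b := Module.finBasis k K
  let v : Fin (finrank k K) → Pt A K := fun j => ⟨_, hat_mem (b j).2⟩
  have e : ∀ (a : Fin (finrank k K) → A) (l : A →ₗ[k] k),
      (fun w => l ((∑ j, a j • v j).1 w)) = (∑ j, l (a j) • b j).1 := fun a l => by
    funext w
    simp only [AddSubmonoidClass.coe_finsetSum, Finset.sum_apply, map_sum, SetLike.val_smul,
      Pi.smul_apply, smul_eq_mul, v]
    refine sum_congr rfl fun j _ => ?_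
    rw [← Algebra.commutes, ← Algebra.smul_def, map_smul, smul_eq_mul, mul_comm]
  refine ⟨Basis.mk (v := v) ?_ ?_, fun j => ⟨b j, (b j).2, by rw [Basis.mk_apply]⟩⟩
  · refine Fintype.linearIndependent_iff.2 fun a ha j => ?_
    rw [← Module.forall_dual_apply_eq_zero_iff k]
    intro l
    refine Fintype.linearIndependent_iff.1 b.linearIndependent (fun j => l (a j)) ?_ j
    refine Subtype.ext ?_
    rw [← e, ha]
    funext w; simp
  · intro f _
    obtain ⟨G, hG⟩ := b.equivFun.toLinearMap.exists_extend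
    have : f = ∑ j, bc G f.1 j • v j := Subtype.ext (ext_l (k := k) fun l => by
      rw [e]
      have h1 := l_bc G f.1 l
      have h2 : G (fun w => l (f.1 w)) = b.equivFun ⟨_, f.2 l⟩ :=
        LinearMap.congr_fun hG ⟨_, f.2 l⟩
      simp only [congrFun h1, h2]
      rw [b.sum_equivFun])
    rw [this]
    exact Submodule.sum_mem _ fun j _ => Submodule.smul_mem _ _ (Submodule.subset_span ⟨j, rfl⟩)

section ext

variable (ε : A →ₐ[k] k) {P : ℕ → Type u} [∀ i, AddCommGroup (P i)] [∀ i, Module A (P i)]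
  (D : ∀ i, P (i + 1) →ₗ[A] P i) (π : P 0 →ₗ[A] Tv ε)
  (hs : Function.Surjective π) (h0 : Function.Exact (D 0) π)
  (hx : ∀ i, Function.Exact (D (i + 1)) (D i))

noncomputable def cx : ChainComplex (ModuleCat.{u} A) ℕ :=
  ChainComplex.of (fun i => ModuleCat.of A (P i)) (fun i => ModuleCat.ofHom (D i)) (fun i => by
    ext1
    refine LinearMap.ext fun f => ?_
    exact (hx i).apply_apply_eq_zero f)

lemma cx_d (i : ℕ) : (cx D hx).d (i + 1) i = ModuleCat.ofHom (D i) :=
  ChainComplex.of_d (fun i => ModuleCat.of A (P i)) (fun i => ModuleCat.ofHom (D i)) i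

noncomputable def pp : (cx D hx).X 0 ⟶ tv ε := ModuleCat.ofHom π

include h0 in
lemma d_pp : (cx D hx).d 1 0 ≫ pp ε D π hx = 0 := by
  rw [cx_d]
  ext1
  refine LinearMap.ext fun f => ?_
  exact h0.apply_apply_eq_zero f

set_option backward.isDefEq.respectTransparency false in
noncomputable def res [∀ i, Module.Projective A (P i)] : ProjectiveResolution (tv ε) where
  complex := cx D hx
  projective i := ModuleCat.projective_of_categoryTheory_projective (ModuleCat.of _ (P i))
  π := (ChainComplex.toSingle₀Equiv _ _).symm ⟨pp ε D π hx, d_pp ε D π h0 hx⟩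
  quasiIso := ⟨fun n => by
    cases n with
    | zero =>
      rw [ChainComplex.quasiIsoAt₀_iff, ShortComplex.quasiIso_iff_of_zeros' _ rfl rfl rfl]
      refine (ShortComplex.exact_and_epi_g_iff_of_iso
        (S₂ := ShortComplex.mk (ModuleCat.ofHom (D 0)) (ModuleCat.ofHom π) (by
          ext1; exact LinearMap.ext fun f => h0.apply_apply_eq_zero f)) ?_).2 ⟨?_, ?_⟩
      · exact ShortComplex.isoMk (Iso.refl _) (Iso.refl _) (Iso.refl _)
          (by simp [cx_d]) (by simp [pp])
      · exact (ShortComplex.ShortExact.moduleCat_exact_iff_function_exact _).2 h0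
      · exact (ModuleCat.epi_iff_surjective _).2 hs
    | succ m =>
      rw [quasiIsoAt_iff_exactAt' (hL := ChainComplex.exactAt_succ_single_obj ..),
          HomologicalComplex.exactAt_iff' _ (m + 2) (m + 1) m (by simp) (by simp)]
      refine (ShortComplex.ShortExact.moduleCat_exact_iff_function_exact _).2 ?_
      have e1 := cx_d D hx (m + 1)
      have e2 := cx_d D hx m
      change Function.Exact ((cx D hx).d (m + 1 + 1) (m + 1)) ((cx D hx).d (m + 1) m)
      rw [e1, e2]
      exact hx m⟩

noncomputable def homEq {M : Type u} [AddCommGroup M] [Module A M] {J : Type} (β : Basis J A M) :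
    (ModuleCat.of A M ⟶ tv ε) ≃ₗ[k] (J → k) where
  toFun := fun g q => (show k from g.hom (β q))
  map_add' := fun g h => rfl
  map_smul' := fun c g => by
    funext q
    change (show k from ε (algebraMap k _ c)) * _ = c * _
    rw [AlgHom.commutes]; rfl
  invFun := fun y => ModuleCat.ofHom (β.constr ℕ (fun q => (show Tv ε from y q)))
  left_inv := fun g => by
    ext1
    exact β.ext fun q => β.constr_basis ℕ _ q
  right_inv := fun y => by
    funext q
    exact β.constr_basis ℕ (fun q => (show Tv ε from y q)) q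

include π hs h0 hx in
lemma ext_equiv {J : ℕ → Type} (β : ∀ i, Basis (J i) A (P i))
    (hz : ∀ i (g : P i →ₗ[A] Tv ε), g ∘ₗ D i = 0) (i : ℕ) :
    Nonempty (ExtK ε i ≃ₗ[k] (J i → k)) := by
  have : ∀ i, Module.Projective A (P i) := fun i => Module.Projective.of_basis (β i)
  have e1 := (res ε D π hs h0 hx).isoExt (R := k) i (tv ε)
  have hd : ∀ a b, ((cx D hx).linearYonedaObj k (tv ε)).d a b = 0 := by
    intro a b
    by_cases h : a + 1 = b
    · subst h
      ext1
      refine LinearMap.ext fun g => ?_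
      change (cx D hx).d (a + 1) a ≫ g = 0
      rw [cx_d]
      ext1
      exact hz a g.hom
    · exact HomologicalComplex.shape _ _ _ h
  have e2 : ((cx D hx).linearYonedaObj k (tv ε)).homology i ≅
      ((cx D hx).linearYonedaObj k (tv ε)).X i :=
    (ShortComplex.HomologyData.ofZeros (((cx D hx).linearYonedaObj k (tv ε)).sc i)
      (hd _ _) (hd _ _)).left.homologyIso
  exact ⟨(e1 ≪≫ e2).toLinearEquiv.trans (homEq ε (β i))⟩

end ext

theorem Pres.main (H : Pres R x) (h3 : H3 R) (ε : A →ₐ[k] k) (hε : ∀ b, ε (x b) = 0) :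
    (∀ i O φ, Surj R O φ (i + 1)) ∧
      ∀ i, Nonempty (ExtK ε i ≃ₗ[k] (Fin (finrank k (S R ⊤ i)) → k)) := by
  obtain ⟨τ, t0, ts, tt, tf⟩ := H.exists_tau
  obtain ⟨lam, l1, l2⟩ := H.exists_lam
  have C : Ctx R x τ lam := ⟨H.rel, t0, ts, tt, tf, l1, l2⟩
  have hall := C.all h3 H.E_top
  refine ⟨fun i => (hall i).2, ?_⟩
  choose β hβ using fun i => exists_basis (A := A) (S R ⊤ i)
  let D : ∀ i, Pt A (S R ⊤ (i + 1)) →ₗ[A] Pt A (S R ⊤ i) := fun i =>
    (ddL x i).restrict (fun _ hf => Pt_dd x hf)
  let π : Pt A (S R ⊤ 0) →ₗ[A] Tv ε :=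
    { toFun := fun f => (show k from ε (f.1 ()))
      map_add' := fun _ _ => map_add ε _ _
      map_smul' := fun _ _ => map_mul ε _ _ }
  refine ext_equiv ε D π ?_ ?_ ?_ β ?_
  · intro y
    exact ⟨⟨fun _ => algebraMap k A (show k from y), fun _ => Submodule.mem_top⟩, ε.commutes _⟩
  · intro y
    constructor
    · intro h
      obtain ⟨z, hz⟩ := H.ker_aug ε hε (y.1 ())
      have h' : ε (y.1 ()) = 0 := h
      rw [h', map_zero, zero_add] at hz
      exact ⟨⟨fun w => z w.1, fun _ => mem_S1.2 Submodule.mem_top⟩,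
        Subtype.ext (funext fun _ => hz.symm)⟩
    · rintro ⟨g, rfl⟩
      change ε (∑ b, g.1 (b, ()) * x b) = 0
      simp [hε]
  · intro i y
    constructor
    · intro h
      obtain ⟨g, hg, e⟩ := (hall i).1 ⊤ y.1 y.2 (congrArg Subtype.val h)
      exact ⟨⟨g, hg⟩, Subtype.ext e⟩
    · rintro ⟨g, rfl⟩
      exact Subtype.ext (C.sq g.2)
  · intro i g
    refine (β (i + 1)).ext fun j => ?_
    obtain ⟨s, hs, e⟩ := hβ (i + 1) j
    have : D i (β (i + 1) j) = ∑ b, x b • ⟨_, hat_mem (A := A) (Lb_mem hs b)⟩ := by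
      refine Subtype.ext (funext fun w => ?_)
      change dd x (β (i + 1) j).1 w = _
      rw [e]
      simp only [dd, AddSubmonoidClass.coe_finsetSum, Finset.sum_apply, SetLike.val_smul,
        Pi.smul_apply, smul_eq_mul, Algebra.commutes]
      rfl
    rw [LinearMap.comp_apply, this, map_sum]
    refine sum_eq_zero fun b _ => ?_
    rw [map_smul]
    change (show k from ε (x b)) * _ = 0
    rw [hε, zero_mul]

end Pool.Agent.H51.BKb
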