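import Pool.Agent.H51.BKb

set_option autoImplicit false

namespace Pool.Agent.H51.BKc

open Finset Pool.Agent.H51.BKa Pool.Agent.H51.BKb Pool.Agent.H51.BKDefs Module

universe u

attribute [local instance 100] LieRing.ofAssociativeRing

variable {k : Type u} [Field k] {L : Type u} [LieRing L] [LieAlgebra k L]

lemma lie_lift {m : ℕ} {y : Fin m → L} (hq : Quadratic k y) {C : Type u} [LieRing C]
    [LieAlgebra k C] (c : Fin m → C)
    (h : ∀ r : Fin m → Fin m → k, ∑ a, ∑ b, r a b • ⁅y a, y b⁆ = 0 →
      ∑ a, ∑ b, r a b • ⁅c a, c b⁆ = 0) (q : FreeLieAlgebra k (Fin m))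
    (h0 : FreeLieAlgebra.lift k y q = 0) : FreeLieAlgebra.lift k c q = 0 := by
  have : (FreeLieAlgebra.lift k y).ker ≤ (FreeLieAlgebra.lift k c).ker := by
    rw [hq, LieSubmodule.lieSpan_le]
    rintro q ⟨h1, h2⟩
    obtain ⟨r, rfl⟩ := (Submodule.mem_span_range_iff_exists_fun k).1 h2
    change FreeLieAlgebra.lift k c _ = 0
    have := h (fun a b => r (a, b)) (by
      simpa [map_sum, Fintype.sum_prod_type] using h1)
    simpa [map_sum, Fintype.sum_prod_type] using this
  exact this h0

variable {ι : Type} [Fintype ι] (x : ι → L)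

def kap : (ι → ι → k) →ₗ[k] L where
  toFun c := ∑ a, ∑ b, c a b • ⁅x a, x b⁆
  map_add' c d := by simp [add_smul, sum_add_distrib]
  map_smul' t c := by simp [smul_sum, mul_smul]

lemma kap_apply (c : ι → ι → k) : kap x c = ∑ a, ∑ b, c a b • ⁅x a, x b⁆ := rfl

variable (k) in
def RR : Submodule k (ι → ι → k) where
  carrier := {c | (∀ a b, c a b = - c b a) ∧ kap x c = 0}
  add_mem' := fun {c d} hc hd => ⟨fun a b => by
    simp only [Pi.add_apply]; rw [hc.1 a b, hd.1 a b]; ring, by rw [map_add, hc.2, hd.2, add_zero]⟩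
  zero_mem' := ⟨by simp, map_zero _⟩
  smul_mem' := fun t c hc => ⟨fun a b => by
    simp only [Pi.smul_apply, smul_eq_mul]; rw [hc.1 a b]; ring, by rw [map_smul, hc.2, smul_zero]⟩

lemma kap_swap (c : ι → ι → k) : kap x (fun a b => c b a) = - kap x c := by
  rw [kap_apply, kap_apply, sum_comm, ← sum_neg_distrib]
  refine sum_congr rfl fun a _ => ?_
  rw [← sum_neg_distrib]
  exact sum_congr rfl fun b _ => by rw [← lie_skew, smul_neg]

lemma skew_mem {c : ι → ι → k} (h : kap x c = 0) : (fun a b => c a b - c b a) ∈ RR k x :=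
  ⟨fun a b => by ring, by
    have : (fun a b => c a b - c b a) = c - fun a b => c b a := rfl
    rw [this, map_sub, kap_swap x c, h]; simp⟩

lemma sum_skew {C : Type*} [Ring C] [Algebra k C] (r : ι → ι → k) (c : ι → C) :
    ∑ a, ∑ b, r a b • ⁅c a, c b⁆ = ∑ a, ∑ b, (r a b - r b a) • (c a * c b) := by
  simp only [LieRing.of_associative_ring_bracket, smul_sub, sub_smul, sum_sub_distrib]
  congr 1
  rw [sum_comm]

theorem pres {d : ℕ} (x : Fin d → L) (h2 : (2 : k) ≠ 0) (hq : Quadratic k x)
    (hg : LieSubalgebra.lieSpan k L (Set.range x) = ⊤) :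
    Pres (RR k x) (fun b => UniversalEnvelopingAlgebra.ι k (x b)) where
  gen := by
    set B := Algebra.adjoin k (Set.range fun b => UniversalEnvelopingAlgebra.ι k (x b))
    have h1 : ∀ l : L, UniversalEnvelopingAlgebra.ι k l ∈ B := by
      intro l
      have hl : l ∈ LieSubalgebra.lieSpan k L (Set.range x) := hg ▸ LieSubalgebra.mem_top l
      induction hl using LieSubalgebra.lieSpan_induction with
      | mem y hy => obtain ⟨b, rfl⟩ := hy; exact Algebra.subset_adjoin ⟨b, rfl⟩
      | zero => rw [map_zero]; exact B.zero_mem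
      | add a b _ _ ha hb => rw [map_add]; exact B.add_mem ha hb
      | smul t a _ ha => rw [map_smul]; exact B.smul_mem ha t
      | lie a b _ _ ha hb =>
        rw [LieHom.map_lie, LieRing.of_associative_ring_bracket]
        exact B.sub_mem (B.mul_mem ha hb) (B.mul_mem hb ha)
    let g : L →ₗ⁅k⁆ B :=
      { toFun := fun l => ⟨_, h1 l⟩
        map_add' := fun a b => Subtype.ext (map_add _ a b)
        map_smul' := fun t a => Subtype.ext (map_smul _ t a)
        map_lie' := fun {a b} => Subtype.ext (LieHom.map_lie _ a b) }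
    have h3 : B.val.comp (UniversalEnvelopingAlgebra.lift k g) = AlgHom.id k _ := by
      ext l
      simp [g]
    refine eq_top_iff.2 fun a _ => ?_
    have := AlgHom.congr_fun h3 a
    rw [AlgHom.id_apply] at this
    rw [← this]
    exact (UniversalEnvelopingAlgebra.lift k g a).2
  rel c hc := by
    have h1 := congrArg (UniversalEnvelopingAlgebra.ι k) hc.2
    simp only [kap_apply, map_sum, map_smul, LieHom.map_lie, map_zero] at h1
    rw [sum_skew] at h1
    have e : ∀ a b, c a b - c b a = 2 * c a b := fun a b => by rw [hc.1 b a]; ring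
    simp only [e, mul_smul, ← smul_sum] at h1
    exact (smul_eq_zero.1 h1).resolve_left h2
  lift C _ _ c hc := by
    have hk := lie_lift hq c (fun r hr => by rw [sum_skew]; exact hc _ (skew_mem x hr))
    set F := FreeLieAlgebra.lift k x
    have hF : Function.Surjective F := by
      rw [← LieHom.range_eq_top, eq_top_iff, ← hg, LieSubalgebra.lieSpan_le]
      rintro _ ⟨b, rfl⟩
      exact ⟨FreeLieAlgebra.of k b, FreeLieAlgebra.lift_of_apply _ _⟩
    obtain ⟨s, hs⟩ := F.toLinearMap.exists_rightInverse_of_surjective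
      (LinearMap.range_eq_top.2 hF)
    have e : ∀ a, FreeLieAlgebra.lift k c (s (F a)) = FreeLieAlgebra.lift k c a := fun a => by
      rw [← sub_eq_zero, ← map_sub]
      refine hk _ ?_
      rw [map_sub, sub_eq_zero]
      exact LinearMap.congr_fun hs (F a)
    let g : L →ₗ⁅k⁆ C :=
      { toLinearMap := (FreeLieAlgebra.lift k c).toLinearMap ∘ₗ s
        map_lie' := fun {a b} => by
          obtain ⟨a, rfl⟩ := hF a
          obtain ⟨b, rfl⟩ := hF b
          change FreeLieAlgebra.lift k c (s _) = ⁅FreeLieAlgebra.lift k c (s _),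
            FreeLieAlgebra.lift k c (s _)⁆
          rw [← LieHom.map_lie, e, e, e, LieHom.map_lie] }
    refine ⟨UniversalEnvelopingAlgebra.lift k g, fun b => ?_⟩
    rw [UniversalEnvelopingAlgebra.lift_ι_apply]
    have := e (FreeLieAlgebra.of k b)
    rw [FreeLieAlgebra.lift_of_apply, FreeLieAlgebra.lift_of_apply] at this
    exact this

/-- the triple bracket -/
def br3 : (ι → ι → ι → k) →ₗ[k] L where
  toFun w := ∑ a, ⁅x a, kap x (w a)⁆
  map_add' c d := by simp [sum_add_distrib]
  map_smul' t c := by simp [smul_sum]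

lemma br3_apply (w : ι → ι → ι → k) : br3 x w = ∑ a, ⁅x a, kap x (w a)⁆ := rfl

lemma br3_alt [LinearOrder ι] (h2 : (2 : k) ≠ 0) {w : ι → ι → ι → k}
    (h12 : ∀ a b c, w a b c = - w b a c) (h23 : ∀ a b c, w a b c = - w a c b) : br3 x w = 0 := by
  have cyc : ∀ a b c, w a b c = w b c a := fun a b c => by rw [h12, h23, neg_neg]
  have z : ∀ a c, w a a c = 0 := fun a c => by
    have h : 2 * w a a c = 0 := by linear_combination h12 a a c
    exact (mul_eq_zero.1 h).resolve_left h2
  let f : ι → ι → ι → L := fun a b c => w a b c • ⁅x a, ⁅x b, x c⁆⁆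
  let P : ι → ι → ι → Prop := fun a b c => a < b ∧ a < c
  have e0 : br3 x w = ∑ a, ∑ b, ∑ c, f a b c := by
    simp only [br3_apply, kap_apply, lie_sum, lie_smul, f]
  have e1 : ∀ a b c, f a b c = (if P a b c then f a b c else 0) + (if P b c a then f a b c else 0)
      + (if P c a b then f a b c else 0) := by
    intro a b c
    by_cases hab : a = b
    · subst hab; simp [f, z]
    by_cases hbc : b = c
    · subst hbc; simp [f]
    by_cases hca : c = a
    · subst hca; simp [f, ← cyc c c b, z]
    simp only [P]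
    rcases lt_or_gt_of_ne hab with h | h <;> rcases lt_or_gt_of_ne hbc with h' | h' <;>
      rcases lt_or_gt_of_ne hca with h'' | h'' <;>
      first
        | exact absurd (h.trans (h'.trans h'')) (lt_irrefl _)
        | exact absurd (h''.trans (h'.trans h)) (lt_irrefl _)
        | simp [h, h', h'', h.not_gt, h'.not_gt, h''.not_gt]
  have r1 : ∀ g : ι → ι → ι → L, ∑ a, ∑ b, ∑ c, g a b c = ∑ a, ∑ b, ∑ c, g c a b := fun g => by
    rw [sum_comm]
    exact sum_congr rfl fun _ _ => sum_comm
  rw [e0, sum_congr rfl fun a _ => sum_congr rfl fun b _ => sum_congr rfl fun c _ => e1 a b c]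
  simp only [sum_add_distrib]
  rw [r1 (fun a b c => if P b c a then f a b c else 0),
    r1 (fun a b c => if P c a b then f a b c else 0),
    r1 (fun a b c => if P b c a then f c a b else 0)]
  simp only [← sum_add_distrib]
  refine sum_eq_zero fun a _ => sum_eq_zero fun b _ => sum_eq_zero fun c _ => ?_
  split_ifs
  · simp only [f]
    rw [cyc c a b, ← cyc a b c, ← smul_add, ← smul_add, add_right_comm, lie_jacobi, smul_zero]
  · simp

def tens3 (u : ι → k) : (ι → ι → k) →ₗ[k] (ι → ι → ι → k) where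
  toFun v := fun a => u a • v
  map_add' v w := by funext a; simp
  map_smul' c v := by funext a; simp [smul_comm c]

lemma kap_tens (u v : ι → k) : kap x (tens u v) = ⁅∑ a, u a • x a, ∑ a, v a • x a⁆ := by
  simp only [kap_apply, tens, LinearMap.coe_mk, AddHom.coe_mk, sum_lie, lie_sum, smul_lie,
    lie_smul, mul_smul, smul_sum]
  rw [sum_comm]
  exact sum_congr rfl fun _ _ => sum_congr rfl fun _ _ => smul_comm _ _ _

lemma br3_tens (u : ι → k) (c : ι → ι → k) : br3 x (tens3 u c) = ⁅∑ a, u a • x a, kap x c⁆ := by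
  simp only [br3_apply, tens3, LinearMap.coe_mk, AddHom.coe_mk, map_smul, sum_lie, smul_lie,
    lie_smul]

lemma extract (h2 : (2 : k) ≠ 0) (O : Submodule k (ι → k)) {m : ℕ} (Y : Fin m → ι → k)
    (hY : ∀ j, Y j ∈ O) (hq : Quadratic k (fun j => ∑ a, Y j a • x a))
    (e : Fin m → Fin m → Fin m → k) (η : ι → ι → ι → k)
    (hη : ∀ a b c, η a b c = ∑ j, ∑ l, ∑ n, e j l n * (Y j a * (Y l b * Y n c)))
    (h23 : ∀ a b c, η a b c = - η a c b) (h0 : br3 x η = 0) :
    ∃ ρ : ι → ι → ι → k, (∀ a, ρ a ∈ RR k x) ∧ (∀ a b, ρ a b ∈ O) ∧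
      ∀ a b c, η a b c - ρ a b c = - (η b a c - ρ b a c) := by
  let R' : Submodule k (ι → ι → k) := RR k x ⊓ Submodule.pi Set.univ (fun _ => O)
  let J1 : Submodule k (ι → ι → ι → k) := Submodule.pi Set.univ (fun _ => R')
  let J2 : Submodule k (ι → ι → ι → k) :=
    { carrier := {w | ∀ c, (fun a b => w a b c) ∈ R'}
      add_mem' := fun hc hd c => R'.add_mem (hc c) (hd c)
      zero_mem' := fun _ => R'.zero_mem
      smul_mem' := fun t _ hc c => R'.smul_mem t (hc c) }
  let Z : Submodule k (k × (ι → k) × (ι → ι → k) × (ι → ι → ι → k)) :=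
    Submodule.prod ⊥ (Submodule.prod ⊥ (R'.prod (J1 ⊔ J2)))
  let G : (ι → k) → Module.End k (k × (ι → k) × (ι → ι → k) × (ι → ι → ι → k)) := fun v =>
    LinearMap.prod 0 (LinearMap.prod (LinearMap.toSpanSingleton k _ v ∘ₗ LinearMap.fst k _ _)
      (LinearMap.prod (tens v ∘ₗ LinearMap.fst k _ _ ∘ₗ LinearMap.snd k _ _)
        (tens3 v ∘ₗ LinearMap.fst k _ _ ∘ₗ LinearMap.snd k _ _ ∘ₗ LinearMap.snd k _ _)))
  have hG : ∀ v p, G v p = (0, p.1 • v, tens v p.2.1, tens3 v p.2.2.1) := fun _ _ => rfl
  have hZ : ∀ v, Z ≤ Z.comap (G v) := by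
    rintro v p ⟨h1, h2, h3, -⟩
    have h1' : p.1 = 0 := h1
    have h2' : p.2.1 = 0 := h2
    refine ⟨rfl, ?_, ?_, Submodule.mem_sup_left fun a _ => R'.smul_mem _ h3⟩
    · change p.1 • v = 0
      rw [h1', zero_smul]
    · change tens v p.2.1 ∈ R'
      rw [h2', map_zero]; exact R'.zero_mem
  let F : Fin m → Module.End k (_ ⧸ Z) := fun j => Z.mapQ Z (G (Y j)) (hZ _)
  have hF : ∀ j p, F j (Z.mkQ p) = Z.mkQ (G (Y j) p) := fun _ _ => rfl
  have key := lie_lift hq F (fun r hr => by
    rw [sum_skew]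
    have hs := skew_mem (fun j => ∑ a, Y j a • x a) hr
    set s : Fin m → Fin m → k := fun a b => r a b - r b a with hsd
    let t : ι → ι → k := ∑ j, ∑ l, s j l • tens (Y j) (Y l)
    have ht : t ∈ R' := by
      refine ⟨⟨fun a b => ?_, ?_⟩, fun a _ => ?_⟩
      · simp only [t, Finset.sum_apply, Pi.smul_apply, tens, LinearMap.coe_mk, AddHom.coe_mk,
          smul_eq_mul]
        rw [sum_comm, ← sum_neg_distrib]
        refine sum_congr rfl fun j _ => ?_
        rw [← sum_neg_distrib]
        refine sum_congr rfl fun l _ => ?_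
        rw [hs.1 l j]; ring
      · simp only [t, map_sum, map_smul, kap_tens]
        exact hs.2
      · have : t a = ∑ j, ∑ l, (s j l * Y j a) • Y l := by
          funext b
          simp [t, tens, Finset.sum_apply, mul_assoc]
        rw [this]
        exact O.sum_mem fun j _ => O.sum_mem fun l _ => O.smul_mem _ (hY l)
    refine LinearMap.ext fun p => ?_
    obtain ⟨p, rfl⟩ := Z.mkQ_surjective p
    simp only [LinearMap.sum_apply, LinearMap.smul_apply, Module.End.mul_apply, hF,
      LinearMap.zero_apply, ← map_smul Z.mkQ]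
    simp only [← map_sum Z.mkQ]
    refine (Submodule.Quotient.mk_eq_zero _).2 ⟨?_, ?_, ?_, Submodule.mem_sup_right fun c => ?_⟩
    · simp [hG, Prod.fst_sum]
    · simp [hG, Prod.fst_sum, Prod.snd_sum]
    · convert R'.smul_mem p.1 ht using 1
      simp only [hG, Prod.fst_sum, Prod.snd_sum, Prod.smul_fst, Prod.smul_snd, map_smul, t,
        smul_sum, smul_comm p.1, hsd]
      exact Iff.rfl
    · convert R'.smul_mem (p.2.1 c) ht using 1
      funext a b
      simp only [hG, Prod.snd_sum, Prod.smul_snd, t, Finset.sum_apply, Pi.smul_apply, tens, tens3,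
        LinearMap.coe_mk, AddHom.coe_mk, smul_eq_mul, mul_sum, hsd]
      exact sum_congr rfl fun j _ => sum_congr rfl fun l _ => by ring)
    (∑ j, ∑ l, ∑ n, e j l n • ⁅FreeLieAlgebra.of k j, ⁅FreeLieAlgebra.of k l,
      FreeLieAlgebra.of k n⁆⁆) (by
      have : η = ∑ j, ∑ l, ∑ n, e j l n • tens3 (Y j) (tens (Y l) (Y n)) := by
        funext a b c
        simp [hη, tens3, tens, Finset.sum_apply]
      rw [this] at h0
      simpa only [map_sum, map_smul, LieHom.map_lie, FreeLieAlgebra.lift_of_apply, br3_tens,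
        kap_tens] using h0)
  have k2 := LinearMap.congr_fun key (Z.mkQ (1, 0, 0, 0))
  simp only [map_sum, map_smul, LieHom.map_lie, FreeLieAlgebra.lift_of_apply,
    LieRing.of_associative_ring_bracket, LinearMap.sum_apply, LinearMap.smul_apply,
    LinearMap.sub_apply, Module.End.mul_apply, hF, LinearMap.zero_apply, map_sub] at k2
  simp only [← map_sub Z.mkQ, ← map_smul Z.mkQ] at k2
  simp only [← map_sum Z.mkQ] at k2
  have k3 := ((Submodule.Quotient.mk_eq_zero _).1 k2).2.2.2
  have k4 : (fun a b c => η a b c - η c a b) ∈ J1 ⊔ J2 := by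
    convert (J1 ⊔ J2).smul_mem (2 : k)⁻¹ k3 using 1
    funext a b c
    have e1 : η a b c - η c a b = (2 : k)⁻¹ * (η a b c - η a c b - (η c a b - η c b a)) := by
      rw [h23 a c b, h23 c b a]; field_simp; ring
    rw [e1]
    simp only [hG, Prod.snd_sum, Prod.smul_snd, Prod.snd_sub, Finset.sum_apply, Pi.smul_apply,
      Pi.sub_apply, tens, tens3, LinearMap.coe_mk, AddHom.coe_mk, smul_eq_mul, hη, one_mul,
      ← sum_sub_distrib]
    congr 1
    exact sum_congr rfl fun j _ => sum_congr rfl fun l _ => sum_congr rfl fun n _ => by ring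
  obtain ⟨β, hβ, α, hα, e2⟩ := Submodule.mem_sup.1 k4
  refine ⟨β, fun a => (hβ a trivial).1, fun a b => (hβ a trivial).2 b trivial, fun a b c => ?_⟩
  have e3 : ∀ a b c, β a b c + α a b c = η a b c - η c a b := fun a b c =>
    congrFun (congrFun (congrFun e2 a) b) c
  have e4 : α a b c = - α b a c := (hα c).1.1 a b
  linear_combination - e3 a b c - e3 b a c + e4 + h23 c a b

def ev3 (w : ι → ι → ι → k) : (ι → k) →ₗ[k] (ι → k) →ₗ[k] (ι → k) →ₗ[k] k :=
  ∑ a, ∑ b, (LinearMap.proj a : (ι → k) →ₗ[k] k).smulRight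
    ((LinearMap.proj b : (ι → k) →ₗ[k] k).smulRight (dot (w a b)))

lemma ev3_apply (w : ι → ι → ι → k) (f g h : ι → k) :
    ev3 w f g h = ∑ a, ∑ b, f a * (g b * dot (w a b) h) := by
  simp [ev3, LinearMap.sum_apply]

lemma dot_single [DecidableEq ι] (v : ι → k) (c : ι) : dot v (Pi.single c 1) = v c := by
  simp [dot_apply, Pi.single_apply]

lemma dot_comm (u v : ι → k) : dot u v = dot v u := by
  simp [dot_apply, mul_comm]

lemma anti_of_basis [DecidableEq ι] (B : (ι → k) →ₗ[k] (ι → k) →ₗ[k] k)
    (h : ∀ a b, B (Pi.single a 1) (Pi.single b 1) = - B (Pi.single b 1) (Pi.single a 1))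
    (f g : ι → k) : B f g = - B g f := by
  have : B = - B.flip := LinearMap.ext_basis (Pi.basisFun k ι) (Pi.basisFun k ι) fun a b => by
    simpa using h a b
  conv_lhs => rw [this]
  rfl

theorem h3 [LinearOrder ι] (h2 : (2 : k) ≠ 0) (hx : LinearIndependent k x)
    (hq : ∀ (m : ℕ) (y : Fin m → L), (∀ j, y j ∈ Submodule.span k (Set.range x)) →
      LinearIndependent k y → Quadratic k y) : H3 (RR k x) := by
  intro O w β hw hβ hα
  let bO := Module.finBasis k O
  let Y : Fin (finrank k O) → ι → k := fun j => bO j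
  have hQ : Quadratic k (fun j => ∑ a, Y j a • x a) := by
    refine hq _ _ (fun j => Submodule.sum_mem _ fun a _ =>
      Submodule.smul_mem _ _ (Submodule.subset_span ⟨a, rfl⟩)) ?_
    exact bO.linearIndependent.map' (Fintype.linearCombination k x ∘ₗ O.subtype)
      (LinearMap.ker_eq_bot.2 ((linearIndependent_iff_injective_fintypeLinearCombination.1 hx).comp
        O.injective_subtype))
  have hθ : ∀ j, ∃ θ : ι → k, ∀ v : O, dot θ v = bO.equivFun v j := fun j => by
    obtain ⟨g, hg⟩ := (bO.coord j).exists_extend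
    obtain ⟨θ, rfl⟩ := exists_dot g
    exact ⟨θ, fun v => LinearMap.congr_fun hg v⟩
  choose θ hθ using hθ
  let p : (ι → k) →ₗ[k] (ι → k) := ∑ j, (dot (Y j)).smulRight (θ j)
  have hp : ∀ f, p f = ∑ j, dot (Y j) f • θ j := fun f => by simp [p, LinearMap.sum_apply]
  have hOp : ∀ v ∈ O, ∀ f, dot v (p f) = dot v f := fun v hv f => by
    have e : v = ∑ j, bO.equivFun ⟨v, hv⟩ j • Y j := by
      have := congrArg Subtype.val (bO.sum_equivFun ⟨v, hv⟩)
      rw [AddSubmonoidClass.coe_finsetSum] at this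
      exact this.symm
    rw [hp, map_sum, dot_comm v f]
    conv_rhs => rw [e, map_sum]
    refine sum_congr rfl fun j _ => ?_
    rw [map_smul, map_smul, dot_comm v, hθ j ⟨v, hv⟩, dot_comm f, smul_eq_mul, smul_eq_mul,
      mul_comm]
  have pp : ∀ f, p (p f) = p f := fun f => by
    rw [hp (p f), hp f]
    exact sum_congr rfl fun j _ => by rw [← hp f, hOp _ (bO j).2]
  let e : ι → ι → k := fun a => Pi.single a 1
  have pe : ∀ (T : (ι → k) →ₗ[k] k) c, T (p (e c)) = ∑ j, T (θ j) * Y j c := fun T c => by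
    simp [hp, e, dot_single, mul_comm]
  have memO : ∀ T : (ι → k) →ₗ[k] k, (fun c => T (p (e c))) ∈ O := fun T => by
    have : (fun c => T (p (e c))) = ∑ j, T (θ j) • Y j := by
      funext c; simp [pe, Finset.sum_apply]
    rw [this]; exact O.sum_mem fun j _ => O.smul_mem _ (bO j).2
  let q : (ι → k) →ₗ[k] (ι → k) := LinearMap.id - p
  have hqq : ∀ f, q f = f - p f := fun _ => rfl
  have pq : ∀ f, p (q f) = 0 := fun f => by rw [hqq, map_sub, pp, sub_self]
  have qp : ∀ f, q (p f) = 0 := fun f => by rw [hqq, pp, sub_self]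
  have qq : ∀ f, q (q f) = q f := fun f => by rw [hqq (q f), pq, sub_zero]
  have spl : ∀ f, f = p f + q f := fun f => by rw [hqq]; abel
  set B := ev3 β with hBd
  have Be : ∀ a b h, B (e a) (e b) h = dot (β a b) h := fun a b h => by
    simp [hBd, ev3_apply, e, Pi.single_apply]
  have Bee : ∀ a b c, B (e a) (e b) (e c) = β a b c := fun a b c => by rw [Be, dot_single]
  have hB : ∀ f, (fun b c => B f (e b) (e c)) ∈ RR k x := fun f => by
    have : (fun b c => B f (e b) (e c)) = ∑ a, f a • β a := by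
      funext b c
      simp [hBd, ev3_apply, e, Pi.single_apply, dot_single, Finset.sum_apply]
    rw [this]; exact Submodule.sum_mem _ fun a _ => Submodule.smul_mem _ _ (hβ a)
  have a23 : ∀ f g h, B f g h = - B f h g := fun f => anti_of_basis (B f) (hB f).1
  have hA : ∀ h, (fun a b => B (e a) (e b) (q h)) ∈ RR k x := fun h => by
    have : (fun a b => B (e a) (e b) (q h)) = ∑ c, (- q h c) • fun a b => w a b c - β a b c := by
      funext a b
      have h0 : dot (w a b) (q h) = 0 := by rw [hqq, map_sub, hOp _ (hw a b), sub_self]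
      rw [Be, ← sub_zero (dot (β a b) (q h)), ← h0, dot_apply, dot_apply, ← sum_sub_distrib]
      simp only [Finset.sum_apply, Pi.smul_apply, smul_eq_mul]
      exact sum_congr rfl fun c _ => by ring
    rw [this]; exact Submodule.sum_mem _ fun c _ => Submodule.smul_mem _ _ (hα c)
  have a12 : ∀ f g h, B f g (q h) = - B g f (q h) := fun f g h =>
    anti_of_basis (B.compr₂ (LinearMap.applyₗ (q h))) (hA h).1 f g
  let B' : (ι → k) → (ι → k) → (ι → k) → k := fun f g h =>
    B f (p g) (p h) + B (p g) (q f) (p h)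
  have b23 : ∀ f g h, B' f g h = - B' f h g := fun f g h => by
    simp only [B']
    linear_combination a23 f (p g) (p h) + a23 (p g) (q f) (p h) - a12 (p g) (p h) f
      + a23 (p h) (q f) (p g)
  let Γ : (ι → k) → (ι → k) → (ι → k) → k := fun f g h => B f g h - B' f g h
  have g23 : ∀ f g h, Γ f g h = - Γ f h g := fun f g h => by
    simp only [Γ]; linear_combination a23 f g h - b23 f g h
  have g12 : ∀ f g h, Γ f g h = - Γ g f h := fun f g h => by
    have e1 : ∀ f g, B f g h = B f g (q h) + B f (p g) (p h) + B (p f) (q g) (p h)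
        + B (q f) (q g) (p h) := fun f g => by
      conv_lhs => rw [spl h, map_add]
      have : B f g (p h) = B f (p g) (p h) + B f (q g) (p h) := by
        conv_lhs => rw [spl g, map_add, LinearMap.add_apply]
      have t2 : B f (q g) (p h) = B (p f) (q g) (p h) + B (q f) (q g) (p h) := by
        conv_lhs => rw [spl f, map_add, LinearMap.add_apply, LinearMap.add_apply]
      rw [this, t2]; ring
    simp only [Γ, B']
    linear_combination e1 f g + e1 g f + a12 f g h + a23 (q f) (q g) (p h) - a12 (q f) (p h) g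
      + a23 (p h) (q f) (q g) + a23 (q g) (q f) (p h) - a12 (q g) (p h) f
  have gcyc : ∀ f g h, Γ f g h = Γ g h f := fun f g h => by rw [g12, g23, neg_neg]
  have K1 : ∀ f, kap x (fun b c => Γ f (e b) (e c)) = - kap x (fun b c => B' f (e b) (e c)) :=
    fun f => by
    have : (fun b c => Γ f (e b) (e c))
      = (fun b c => B f (e b) (e c)) - fun b c => B' f (e b) (e c) := rfl
    rw [this, map_sub, (hB f).2, zero_sub]
  have K2 : ∀ f, kap x (fun b c => B' (q f) (e b) (e c)) = 0 := fun f => by
    rw [← neg_eq_zero, ← K1, ← (hA f).2]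
    congr 1
    funext b c
    rw [gcyc]
    simp [Γ, B', pq]
  let η : ι → ι → ι → k := fun a b c => B (p (e a)) (p (e b)) (p (e c))
  have spB : ∀ a b c, B' (e a) (e b) (e c) = η a b c + B' (q (e a)) (e b) (e c) := fun a b c => by
    simp only [B', η, qq]
    conv_lhs => rw [spl (e a)]
    simp only [map_add, LinearMap.add_apply, qp, qq, zero_add]
    ring
  have K3 : ∀ a, kap x (η a) = - kap x (fun b c => Γ (e a) (e b) (e c)) := fun a => by
    have : (fun b c => B' (e a) (e b) (e c)) = η a + fun b c => B' (q (e a)) (e b) (e c) := by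
      funext b c; exact spB a b c
    rw [K1, neg_neg, this, map_add, K2, add_zero]
  have h0 : br3 x η = 0 := by
    have := br3_alt x h2 (w := fun a b c => Γ (e a) (e b) (e c)) (fun a b c => g12 _ _ _)
      (fun a b c => g23 _ _ _)
    rw [br3_apply] at this ⊢
    simp only [K3, lie_neg, sum_neg_distrib, this, neg_zero]
  obtain ⟨ρ, r1, r2, r3⟩ := extract x h2 O Y (fun j => (bO j).2) hQ
    (fun j l n => B (θ j) (θ l) (θ n)) η (fun a b c => by
      simp only [η, hp, e, dot_single, map_sum, map_smul, LinearMap.sum_apply,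
        LinearMap.smul_apply, smul_eq_mul, mul_sum]
      rw [sum_comm]
      conv_lhs => enter [2, l]; rw [sum_comm]
      rw [sum_comm]
      exact sum_congr rfl fun j _ => sum_congr rfl fun l _ => sum_congr rfl fun n _ => by ring)
    (fun a b c => a23 _ _ _) h0
  refine ⟨fun a b c => B' (q (e a)) (e b) (e c) + ρ a b c, fun a => ?_, fun a b => ?_,
    fun c => ?_⟩
  · exact (RR k x).add_mem (show (fun b c => B' (q (e a)) (e b) (e c)) ∈ RR k x from
      ⟨fun b c => b23 _ _ _, K2 _⟩) (r1 a)
  · exact O.add_mem (O.add_mem (memO _) (memO _)) (r2 a b)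
  · have e1 : (fun a b => w a b c - (B' (q (e a)) (e b) (e c) + ρ a b c))
        = (fun a b => w a b c - β a b c)
          + fun a b => Γ (e a) (e b) (e c) + (η a b c - ρ a b c) := by
      funext a b
      simp only [Pi.add_apply, Γ, Bee, spB]
      ring
    rw [e1]
    refine (RR k x).add_mem (hα c) ⟨fun a b => by
      linear_combination g12 (e a) (e b) (e c) + r3 a b c, ?_⟩
    have e2 : (fun a b => Γ (e a) (e b) (e c) + (η a b c - ρ a b c))
        = (fun a b => Γ (e c) (e a) (e b)) + (η c - ρ c) := by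
      funext a b
      simp only [Pi.add_apply, Pi.sub_apply]
      have t2 : η a c b = - η a b c := a23 _ _ _
      linear_combination - gcyc (e c) (e a) (e b) - r3 c a b + t2 - (r1 a).1 b c
    rw [e2, map_add, map_sub, K3, (r1 c).2]
    simp

theorem main (h2 : (2 : k) ≠ 0) {V : Submodule k L} (h : IsBK V) (n : ℕ)
    (hn : ∀ i, n < i → Subsingleton (Coh k L i)) :
    (∀ i, Module.Finite k (Coh k L i)) ∧ finrank k (Coh k L 1) = finrank k V ∧
      2 * (n : ℤ) * finrank k (Coh k L 2) ≤ ((n : ℤ) - 1) * (finrank k (Coh k L 1) : ℤ) ^ 2 := by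
  obtain ⟨hfin, hg, hq⟩ := h
  let bV := Module.finBasis k V
  let x : Fin (finrank k V) → L := fun j => bV j
  have hx : LinearIndependent k x :=
    bV.linearIndependent.map' V.subtype (Submodule.ker_subtype V)
  have hsp : Submodule.span k (Set.range x) = V := by
    have := congrArg (Submodule.map V.subtype) bV.span_eq
    rw [Submodule.map_span, Submodule.map_top, Submodule.range_subtype, ← Set.range_comp] at this
    exact this
  have hg' : LieSubalgebra.lieSpan k L (Set.range x) = ⊤ := by
    rw [eq_top_iff, ← hg, LieSubalgebra.lieSpan_le]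
    exact fun v hv => LieSubalgebra.submodule_span_le_lieSpan (hsp.ge hv)
  have P := pres x h2 (hq _ x (fun j => (bV j).2) hx) hg'
  obtain ⟨m1, m2⟩ := P.main (h3 x h2 hx (fun m y hy => hq m y (hsp ▸ hy))) (aug k L)
    (fun b => by simp [aug])
  have fr : ∀ i, finrank k (Coh k L i) = finrank k (S (RR k x) ⊤ i) := fun i => by
    obtain ⟨e⟩ := m2 i
    exact e.finrank_eq.trans (by simp)
  have f1 : finrank k (S (RR k x) ⊤ 1) = finrank k V := by
    have : S (RR k x) ⊤ 1 = ⊤ := eq_top_iff.2 fun _ _ => mem_S1.2 Submodule.mem_top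
    rw [this, finrank_top, finrank_fintype_fun_eq_card]
    exact (Fintype.card_congr (Equiv.prodPUnit _)).trans (Fintype.card_fin _)
  refine ⟨fun i => ?_, (fr 1).trans f1, ?_⟩
  · obtain ⟨e⟩ := m2 i
    exact Module.Finite.equiv e.symm
  · have := count (R := RR k x) (fun c hc => hc.1) m1 n ⊤ (fun f hf => by
      have := hn (n + 1) (by omega)
      have h0 : finrank k (S (RR k x) ⊤ (n + 1)) = 0 := by
        rw [← fr]; exact finrank_zero_of_subsingleton
      rw [Submodule.finrank_eq_zero] at h0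
      rw [h0] at hf
      exact (Submodule.mem_bot k).1 hf)
    rw [fr, fr, f1]
    simpa using this

end Pool.Agent.H51.BKc
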