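import Mathlib

set_option autoImplicit false

namespace Pool.Agent.H51.BesA

open Complex

/-- entire power series with real coefficients -/
noncomputable def ps (c : ℕ → ℝ) (w : ℂ) : ℂ := ∑' n, (c n : ℂ) * w ^ n

lemma ps_summable (c : ℕ → ℝ) (hc : ∀ n, |c n| ≤ 1 / n.factorial) (w : ℂ) :
    Summable fun n => (c n : ℂ) * w ^ n := by
  refine Summable.of_norm_bounded (Real.summable_pow_div_factorial ‖w‖) fun n => ?_
  rw [norm_mul, norm_pow, Complex.norm_real, Real.norm_eq_abs]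
  calc |c n| * ‖w‖ ^ n ≤ 1 / n.factorial * ‖w‖ ^ n :=
        mul_le_mul_of_nonneg_right (hc n) (by positivity)
    _ = _ := by ring

lemma ps_deriv (c : ℕ → ℝ) (hc : ∀ n, |c n| ≤ 1 / n.factorial) (w : ℂ) :
    HasDerivAt (ps c) (ps (fun n => (n + 1) * c (n + 1)) w) w := by
  set R := ‖w‖ + 1 with hR
  have hR0 : 0 < R := by positivity
  have hu : Summable fun n : ℕ => (n : ℝ) * R ^ (n - 1) / n.factorial := by
    rw [← summable_nat_add_iff 1]
    refine (Real.summable_pow_div_factorial R).congr fun n => ?_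
    rw [Nat.factorial_succ, Nat.add_sub_cancel]
    push_cast
    have : ((n : ℝ) + 1) ≠ 0 := by positivity
    have : ((n.factorial : ℝ)) ≠ 0 := by positivity
    field_simp
  have hb : ∀ (n : ℕ) (y : ℂ), y ∈ Metric.ball (0 : ℂ) R →
      ‖(c n : ℂ) * ((n : ℂ) * y ^ (n - 1))‖ ≤ (n : ℝ) * R ^ (n - 1) / n.factorial := by
    intro n y hy
    have hy' : ‖y‖ ≤ R := by simpa using (le_of_lt (mem_ball_zero_iff.1 hy))
    rw [norm_mul, norm_mul, norm_pow, Complex.norm_real, Real.norm_eq_abs, Complex.norm_natCast]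
    calc |c n| * (n * ‖y‖ ^ (n - 1)) ≤ 1 / n.factorial * (n * R ^ (n - 1)) :=
          mul_le_mul (hc n) (by gcongr) (by positivity) (by positivity)
      _ = _ := by ring
  have hw : w ∈ Metric.ball (0 : ℂ) R := by simp [hR]
  have := hasDerivAt_tsum_of_isPreconnected (g := fun n z => (c n : ℂ) * z ^ n)
    (g' := fun n z => (c n : ℂ) * ((n : ℂ) * z ^ (n - 1))) hu Metric.isOpen_ball
    (convex_ball (0 : ℂ) R).isPreconnected
    (fun n y _ => (hasDerivAt_pow n y).const_mul _) hb hw (ps_summable c hc w) hw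
  refine this.congr_deriv (Eq.symm ?_)
  have hs : Summable fun n : ℕ => (c n : ℂ) * ((n : ℂ) * w ^ (n - 1)) :=
    Summable.of_norm_bounded hu fun n => hb n w hw
  rw [hs.tsum_eq_zero_add]
  simp only [ps, Nat.cast_zero, zero_mul, mul_zero, zero_add, Nat.add_sub_cancel]
  refine tsum_congr fun n => ?_
  push_cast; ring

lemma ps_conj (c : ℕ → ℝ) (w : ℂ) : ps c ((starRingEnd ℂ) w) = (starRingEnd ℂ) (ps c w) := by
  unfold ps
  rw [Complex.conj_tsum]
  refine tsum_congr fun n => ?_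
  simp

lemma ps_tail (c : ℕ → ℝ) (hc : ∀ n, |c n| ≤ 1 / (n.factorial : ℝ) ^ 2) (w : ℂ) (hw : ‖w‖ ≤ 4) :
    ‖ps c w - ∑ n ∈ Finset.range 6, (c n : ℂ) * w ^ n‖ ≤ ‖w‖ ^ 6 / 470000 := by
  have hc' : ∀ n, |c n| ≤ 1 / n.factorial := fun n => (hc n).trans (by
    have h1 : (1 : ℝ) ≤ n.factorial := by exact_mod_cast Nat.factorial_pos n
    apply one_div_le_one_div_of_le (by positivity); nlinarith)
  have hs := ps_summable c hc' w
  have e := hs.sum_add_tsum_nat_add 6
  have : ps c w - ∑ n ∈ Finset.range 6, (c n : ℂ) * w ^ n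
      = ∑' n, (c (n + 6) : ℂ) * w ^ (n + 6) := by unfold ps; rw [← e]; ring
  rw [this]
  have hg : HasSum (fun n : ℕ => ‖w‖ ^ 6 / 518400 * (4 / 49 : ℝ) ^ n)
      (‖w‖ ^ 6 / 518400 * (1 - 4 / 49 : ℝ)⁻¹) :=
    (hasSum_geometric_of_lt_one (by norm_num) (by norm_num)).mul_left _
  have hf : ∀ n : ℕ, (720 : ℝ) * 7 ^ n ≤ ((n + 6).factorial : ℝ) := by
    intro n
    induction n with
    | zero => norm_num [Nat.factorial]
    | succ n ih =>
      rw [show n + 1 + 6 = (n + 6) + 1 by ring, Nat.factorial_succ]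
      push_cast
      have : (0 : ℝ) ≤ n := by positivity
      have h7 : (0 : ℝ) < 720 * 7 ^ n := by positivity
      rw [pow_succ]; nlinarith
  refine (tsum_of_norm_bounded hg fun n => ?_).trans ?_
  · rw [norm_mul, norm_pow, Complex.norm_real, Real.norm_eq_abs]
    have h1 : |c (n + 6)| ≤ 1 / ((720 : ℝ) * 7 ^ n) ^ 2 := (hc _).trans (by
      apply one_div_le_one_div_of_le (by positivity)
      exact pow_le_pow_left₀ (by positivity) (hf n) 2)
    have h2 : ‖w‖ ^ (n + 6) ≤ 4 ^ n * ‖w‖ ^ 6 := by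
      rw [pow_add]; gcongr
    calc |c (n + 6)| * ‖w‖ ^ (n + 6) ≤ 1 / ((720 : ℝ) * 7 ^ n) ^ 2 * (4 ^ n * ‖w‖ ^ 6) :=
          mul_le_mul h1 h2 (by positivity) (by positivity)
      _ = _ := by
          rw [div_pow, show (49 : ℝ) ^ n = (7 ^ n) ^ 2 by rw [← pow_mul, mul_comm, pow_mul]; norm_num]
          field_simp; ring
  · have : 0 ≤ ‖w‖ ^ 6 := by positivity
    norm_num; linarith

noncomputable def c0 (n : ℕ) : ℝ := (-1) ^ n / (n.factorial : ℝ) ^ 2
noncomputable def c1 (n : ℕ) : ℝ := (-1) ^ n / ((n.factorial : ℝ) * ((n + 1).factorial : ℝ))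
noncomputable def c2 : ℕ → ℝ
  | 0 => 0
  | n + 1 => c1 n

lemma c0_le (n : ℕ) : |c0 n| ≤ 1 / (n.factorial : ℝ) ^ 2 := by
  simp [c0, abs_div]

lemma c1_le (n : ℕ) : |c1 n| ≤ 1 / (n.factorial : ℝ) ^ 2 := by
  have h0 : (0 : ℝ) < n.factorial := by exact_mod_cast Nat.factorial_pos n
  have h1 : (n.factorial : ℝ) ≤ ((n + 1).factorial : ℝ) := by
    exact_mod_cast Nat.factorial_le (Nat.le_succ n)
  rw [c1, abs_div, abs_pow, abs_neg, abs_one, one_pow, abs_of_pos (by positivity)]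
  apply one_div_le_one_div_of_le (by positivity); nlinarith

lemma sq_le (n : ℕ) : 1 / (n.factorial : ℝ) ^ 2 ≤ 1 / n.factorial := by
  have h1 : (1 : ℝ) ≤ n.factorial := by exact_mod_cast Nat.factorial_pos n
  apply one_div_le_one_div_of_le (by positivity); nlinarith

lemma c2_le (n : ℕ) : |c2 n| ≤ 1 / (n.factorial : ℝ) := by
  cases n with
  | zero => simp [c2]
  | succ n =>
    have h0 : (1 : ℝ) ≤ n.factorial := by exact_mod_cast Nat.factorial_pos n
    have h1 : (0 : ℝ) < ((n + 1).factorial : ℝ) := by exact_mod_cast Nat.factorial_pos _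
    rw [c2, c1, abs_div, abs_pow, abs_neg, abs_one, one_pow, abs_of_pos (by positivity)]
    apply one_div_le_one_div_of_le (by positivity); nlinarith

lemma F0_deriv (w : ℂ) : HasDerivAt (ps c0) (-ps c1 w) w := by
  refine (ps_deriv c0 (fun n => (c0_le n).trans (sq_le n)) w).congr_deriv (Eq.symm ?_)
  unfold ps
  rw [← tsum_neg]
  refine tsum_congr fun n => ?_
  have : ((n : ℝ) + 1) * c0 (n + 1) = -c1 n := by
    have h0 : (0 : ℝ) < n.factorial := by exact_mod_cast Nat.factorial_pos n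
    rw [c0, c1, Nat.factorial_succ]; push_cast; field_simp; ring
  simp only [this]; push_cast; ring

lemma F2_deriv (w : ℂ) : HasDerivAt (ps c2) (ps c0 w) w := by
  refine (ps_deriv c2 c2_le w).congr_deriv (Eq.symm ?_)
  congr 1
  funext n
  have h0 : (0 : ℝ) < n.factorial := by exact_mod_cast Nat.factorial_pos n
  rw [c0, c2, c1, Nat.factorial_succ]; push_cast; field_simp

lemma F2_eq (w : ℂ) : ps c2 w = w * ps c1 w := by
  unfold ps
  rw [(ps_summable c2 c2_le w).tsum_eq_zero_add, ← tsum_mul_left]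
  simp only [c2, ofReal_zero, zero_mul, zero_add]
  refine tsum_congr fun n => ?_
  ring

/-- the Bessel function of order zero -/
noncomputable def J (z : ℂ) : ℂ := ps c0 (z ^ 2 / 4)
/-- its derivative -/
noncomputable def H (z : ℂ) : ℂ := -(z / 2) * ps c1 (z ^ 2 / 4)

lemma sq_deriv (z : ℂ) : HasDerivAt (fun z : ℂ => z ^ 2 / 4) (z / 2) z := by
  refine ((hasDerivAt_pow 2 z).div_const 4).congr_deriv ?_
  push_cast; ring

lemma J_deriv (z : ℂ) : HasDerivAt J (H z) z := by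
  refine ((F0_deriv (z ^ 2 / 4)).comp z (sq_deriv z)).congr_deriv ?_
  rw [H]; ring

lemma D_deriv (z : ℂ) : HasDerivAt (fun z => z * H z) (-z * J z) z := by
  have : (fun z => z * H z) = fun z => -2 * ps c2 (z ^ 2 / 4) := by
    funext z; rw [F2_eq, H]; ring
  rw [this]
  refine (((F2_deriv (z ^ 2 / 4)).comp z (sq_deriv z)).const_mul (-2)).congr_deriv ?_
  rw [J]; ring

lemma H_deriv (z : ℂ) (hz : z ≠ 0) : HasDerivAt H (-J z - H z / z) z := by
  have h1 := (D_deriv z).div (hasDerivAt_id z) hz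
  have h2 : H =ᶠ[nhds z] ((fun z => z * H z) / id) := by
    filter_upwards [isOpen_ne.mem_nhds hz] with y hy
    simp only [Pi.div_apply, id]; field_simp
  refine (h1.congr_of_eventuallyEq h2).congr_deriv ?_
  simp only [id]; field_simp

lemma J_conj (z : ℂ) : J ((starRingEnd ℂ) z) = (starRingEnd ℂ) (J z) := by
  rw [J, J, ← ps_conj]; congr 1
  simp only [map_div₀, map_pow, map_ofNat]

lemma H_conj (z : ℂ) : H ((starRingEnd ℂ) z) = (starRingEnd ℂ) (H z) := by
  rw [H, H, map_mul, ← ps_conj]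
  simp only [map_div₀, map_pow, map_ofNat, map_neg]

lemma J_neg (z : ℂ) : J (-z) = J z := by rw [J, J]; congr 1; ring

lemma J_zero : J 0 = 1 := by
  have := ps_tail c0 c0_le 0 (by simp)
  simp [Finset.sum_range_succ, c0] at this
  rw [J]; simpa using sub_eq_zero.1 this

lemma F1_zero : ps c1 0 = 1 := by
  have := ps_tail c1 c1_le 0 (by simp)
  simp [Finset.sum_range_succ, c1] at this
  simpa using sub_eq_zero.1 this

lemma F1_cont : Continuous (ps c1) :=
  continuous_iff_continuousAt.2 fun w =>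
    (ps_deriv c1 (fun n => (c1_le n).trans (sq_le n)) w).continuousAt

lemma J_eq (z : ℂ) :
    (∑' n : ℕ, (-1 : ℂ) ^ n * (z / 2) ^ (2 * n) / ((n.factorial : ℂ)) ^ 2) = J z := by
  rw [J, ps]
  refine tsum_congr fun n => ?_
  rw [c0, pow_mul]; push_cast
  rw [show (z / 2) ^ 2 = z ^ 2 / 4 by ring]; ring

lemma J_ne_one (z : ℂ) (hz : z ≠ 0) (h4 : ‖z‖ ≤ 4) : J z ≠ 1 := by
  intro h
  set w := z ^ 2 / 4 with hw
  have hw0 : w ≠ 0 := by simp [hw, hz]
  have hw4 : ‖w‖ ≤ 4 := by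
    rw [hw, norm_div, norm_pow]
    have : ‖z‖ ^ 2 ≤ 4 ^ 2 := pow_le_pow_left₀ (norm_nonneg _) h4 2
    simp only [Complex.norm_ofNat]; linarith
  have ht := ps_tail c0 c0_le w hw4
  have h1 : ps c0 w = 1 := h
  rw [h1] at ht
  have e : (1 : ℂ) - ∑ n ∈ Finset.range 6, (c0 n : ℂ) * w ^ n
      = w * (1 - w / 4 + w ^ 2 / 36 - w ^ 3 / 576 + w ^ 4 / 14400) := by
    simp [Finset.sum_range_succ, c0, Nat.factorial]; ring
  rw [e, norm_mul] at ht
  have hp : 0 < ‖w‖ := norm_pos_iff.2 hw0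
  set S := 1 - w / 4 + w ^ 2 / 36 - w ^ 3 / 576 + w ^ 4 / 14400 with hS
  have hS1 : ‖S‖ ≤ ‖w‖ ^ 5 / 470000 := by
    have : ‖w‖ * ‖S‖ ≤ ‖w‖ * (‖w‖ ^ 5 / 470000) := by linarith [show ‖w‖ * (‖w‖ ^ 5 / 470000) = ‖w‖ ^ 6 / 470000 by ring]
    exact le_of_mul_le_mul_left this hp
  have e2 : (1 : ℂ) = (1 + w / 8) * S + w / 8 + w ^ 2 / 288 + (-w ^ 3 / 576)
      + (17 * w ^ 4 / 115200) + (-w ^ 5 / 115200) := by rw [hS]; ring
  have p2 : ‖w‖ ^ 2 ≤ 16 := by nlinarith
  have p3 : ‖w‖ ^ 3 ≤ 64 := by nlinarith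
  have p4 : ‖w‖ ^ 4 ≤ 256 := by nlinarith
  have p5 : ‖w‖ ^ 5 ≤ 1024 := by nlinarith
  have n1 : ‖(1 + w / 8) * S‖ ≤ 3 / 2 * (1024 / 470000) := by
    rw [norm_mul]
    refine mul_le_mul ((norm_add_le _ _).trans ?_) (by linarith) (norm_nonneg _) (by norm_num)
    simp only [norm_one, norm_div, Complex.norm_ofNat]; linarith
  have n2 : ‖w / 8‖ ≤ 4 / 8 := by simp only [norm_div, Complex.norm_ofNat]; linarith
  have n3 : ‖w ^ 2 / 288‖ ≤ 16 / 288 := by
    simp only [norm_div, norm_pow, Complex.norm_ofNat]; linarith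
  have n4 : ‖-w ^ 3 / 576‖ ≤ 64 / 576 := by
    simp only [norm_div, norm_pow, norm_neg, Complex.norm_ofNat]; linarith
  have n5 : ‖17 * w ^ 4 / 115200‖ ≤ 17 * 256 / 115200 := by
    simp only [norm_div, norm_pow, norm_mul, Complex.norm_ofNat]; linarith
  have n6 : ‖-w ^ 5 / 115200‖ ≤ 1024 / 115200 := by
    simp only [norm_div, norm_pow, norm_neg, Complex.norm_ofNat]; linarith
  have : ‖(1 : ℂ)‖ ≤ ‖(1 + w / 8) * S‖ + ‖w / 8‖ + ‖w ^ 2 / 288‖ + ‖-w ^ 3 / 576‖
      + ‖17 * w ^ 4 / 115200‖ + ‖-w ^ 5 / 115200‖ := by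
    conv_lhs => rw [e2]
    refine (norm_add_le _ _).trans (add_le_add ?_ le_rfl)
    refine (norm_add_le _ _).trans (add_le_add ?_ le_rfl)
    refine (norm_add_le _ _).trans (add_le_add ?_ le_rfl)
    refine (norm_add_le _ _).trans (add_le_add ?_ le_rfl)
    exact norm_add_le _ _
  rw [norm_one] at this
  linarith

lemma J_two : |(J 2).re - 0.2238908| ≤ 0.00001 := by
  have ht := ps_tail c0 c0_le 1 (by simp)
  have e : J 2 = ps c0 1 := by rw [J]; norm_num
  have e2 : ∑ n ∈ Finset.range 6, (c0 n : ℂ) * 1 ^ n = ((806 / 3600 : ℝ) : ℂ) := by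
    simp [Finset.sum_range_succ, c0, Nat.factorial]; norm_num
  rw [e2] at ht
  have := (Complex.abs_re_le_norm _).trans ht
  rw [e]
  simp only [sub_re, ofReal_re, norm_one, one_pow] at this
  rw [abs_le] at this ⊢
  constructor <;> linarith [this.1, this.2]

lemma H_two : |(H 2).re + 0.5767248| ≤ 0.00001 := by
  have ht := ps_tail c1 c1_le 1 (by simp)
  have e : H 2 = -ps c1 1 := by rw [H]; norm_num
  have e2 : ∑ n ∈ Finset.range 6, (c1 n : ℂ) * 1 ^ n = ((49829 / 86400 : ℝ) : ℂ) := by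
    simp [Finset.sum_range_succ, c1, Nat.factorial]; norm_num
  rw [e2] at ht
  have := (Complex.abs_re_le_norm _).trans ht
  rw [e]
  simp only [sub_re, ofReal_re, norm_one, one_pow, neg_re] at this ⊢
  rw [abs_le] at this ⊢
  constructor <;> linarith [this.1, this.2]

end Pool.Agent.H51.BesA
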