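import Pool.Agent.H51.BesA

set_option autoImplicit false

namespace Pool.Agent.H51.BesB

open Complex Set Pool.Agent.H51.BesA

lemma inner_mul_self (a p : ℂ) : inner ℝ p (a * p) = a.re * ‖p‖ ^ 2 := by
  rw [Complex.inner, Complex.sq_norm, Complex.normSq_apply]
  simp; ring

lemma fence (p m A A' e : ℝ → ℂ) (T T' η γ κ : ℝ → ℝ) (a b : ℝ)
    (hp : ∀ t ∈ Icc a b, HasDerivAt p (A t * p t + e t) t)
    (hm : ∀ t ∈ Icc a b, HasDerivAt m (A' t * m t + e t) t)
    (hT : ∀ t ∈ Icc a b, HasDerivAt T (T' t) t)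
    (hT0 : ∀ t ∈ Icc a b, 0 < T t)
    (hA : ∀ t ∈ Icc a b, (A t).re = γ t - η t) (hA' : ∀ t ∈ Icc a b, (A' t).re = γ t + η t)
    (he : ∀ t ∈ Icc a b, ‖e t‖ ≤ κ t * (‖p t‖ + ‖m t‖))
    (hnz : ∀ t ∈ Icc a b, p t = 0 → m t = 0 → False)
    (hs : ∀ t ∈ Icc a b, -2 * η t * T t + (1 + T t) ^ 2 * κ t < T' t)
    (h0 : ‖p a‖ ≤ T a * ‖m a‖) : ∀ t ∈ Icc a b, ‖p t‖ ≤ T t * ‖m t‖ := by
  have key := image_le_of_deriv_right_lt_deriv_boundary'
    (f := fun t => ‖p t‖ ^ 2) (f' := fun t => 2 * inner ℝ (p t) (A t * p t + e t))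
    (B := fun t => T t ^ 2 * ‖m t‖ ^ 2)
    (B' := fun t => 2 * T t * T' t * ‖m t‖ ^ 2 + T t ^ 2 * (2 * inner ℝ (m t) (A' t * m t + e t)))
    (a := a) (b := b)
    (fun t ht => (hp t ht).norm_sq.continuousAt.continuousWithinAt)
    (fun t ht => (hp t (Ico_subset_Icc_self ht)).norm_sq.hasDerivWithinAt)
    (by
      show ‖p a‖ ^ 2 ≤ T a ^ 2 * ‖m a‖ ^ 2
      rw [← mul_pow]; exact pow_le_pow_left₀ (norm_nonneg _) h0 2)
    (fun t ht => (((hT t ht).pow 2).mul (hm t ht).norm_sq).continuousAt.continuousWithinAt)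
    (fun t ht => by
      have := ((hT t (Ico_subset_Icc_self ht)).pow 2).mul (hm t (Ico_subset_Icc_self ht)).norm_sq
      refine (this.congr_deriv ?_).hasDerivWithinAt
      simp)
    (fun t ht hE => by
      have ht' := Ico_subset_Icc_self ht
      have hT1 := hT0 t ht'
      have hE' : ‖p t‖ = T t * ‖m t‖ := by
        have : ‖p t‖ ^ 2 = (T t * ‖m t‖) ^ 2 := by rw [mul_pow]; exact hE
        exact (pow_left_inj₀ (norm_nonneg _) (by positivity) two_ne_zero).1 this
      have hb : 0 < ‖m t‖ := by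
        rcases (norm_nonneg (m t)).lt_or_eq with h | h
        · exact h
        · exfalso
          refine hnz t ht' (norm_eq_zero.1 ?_) (norm_eq_zero.1 h.symm)
          rw [hE', ← h, mul_zero]
      rw [inner_add_right, inner_add_right, inner_mul_self, inner_mul_self, hA t ht', hA' t ht']
      have h1 := (le_abs_self _).trans (abs_real_inner_le_norm (p t) (e t))
      have h2 := (neg_abs_le _).trans' (neg_le_neg (abs_real_inner_le_norm (m t) (e t)))
      have h3 := he t ht'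
      have h4 := hs t ht'
      rw [hE'] at h1 h3 ⊢
      set B := ‖m t‖
      set τ := T t
      have h5 : τ * B * ‖e t‖ ≤ τ * B * (κ t * (τ * B + B)) :=
        mul_le_mul_of_nonneg_left h3 (by positivity)
      have h6 : τ ^ 2 * (B * ‖e t‖) ≤ τ ^ 2 * (B * (κ t * (τ * B + B))) :=
        mul_le_mul_of_nonneg_left (mul_le_mul_of_nonneg_left h3 hb.le) (by positivity)
      have h7 : τ ^ 2 * (-(B * ‖e t‖)) ≤ τ ^ 2 * inner ℝ (m t) (e t) :=
        mul_le_mul_of_nonneg_left h2 (by positivity)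
      have h8 : τ * B ^ 2 * (-2 * η t * τ + (1 + τ) ^ 2 * κ t) < τ * B ^ 2 * T' t :=
        mul_lt_mul_of_pos_left h4 (by positivity)
      nlinarith)
  intro t ht
  have := key ht
  have h1 := hT0 t ht
  refine (pow_le_pow_iff_left₀ (norm_nonneg _) (by positivity) two_ne_zero).1 ?_
  rw [mul_pow]; exact this

lemma nz (z : ℂ) (hz : z ≠ 0) (h1 : J z = 0) (h2 : H z = 0) : False := by
  have hc : ContinuousAt (fun s : ℝ => J ((s : ℂ) * z)) 0 := by
    have : Continuous J := continuous_iff_continuousAt.2 fun w => (J_deriv w).continuousAt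
    fun_prop
  have hev := hc.eventually_ne (y := 0) (by simp [J_zero])
  obtain ⟨ε, hε, hε'⟩ := Metric.eventually_nhds_iff.1 hev
  set δ := min (ε / 2) 1 with hδ
  have hδ0 : 0 < δ := by positivity
  have hδ1 : δ ≤ 1 := min_le_right _ _
  have hδ2 : δ < ε := (min_le_left _ _).trans_lt (by linarith)
  have hne := hε' (y := δ) (by simpa [abs_of_pos hδ0] using hδ2)
  have hd : ∀ t ∈ Icc (0 : ℝ) (1 - δ), HasDerivAt
      (fun t : ℝ => (J ((1 - t : ℂ) * z), H ((1 - t : ℂ) * z)))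
      (H ((1 - t : ℂ) * z) * (-z),
        (-J ((1 - t : ℂ) * z) - H ((1 - t : ℂ) * z) / ((1 - t : ℂ) * z)) * (-z)) t := by
    intro t ht
    have hl : HasDerivAt (fun w : ℂ => (1 - w) * z) (-z) t := by
      simpa using ((hasDerivAt_id (t : ℂ)).const_sub 1).mul_const z
    have hne : (1 - t : ℂ) * z ≠ 0 := by
      refine mul_ne_zero ?_ hz
      have : (1 - t : ℝ) ≠ 0 := by linarith [ht.2]
      exact_mod_cast this
    have k1 := ((J_deriv _).comp (t : ℂ) hl).comp_ofReal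
    have k2 := (HasDerivAt.comp (t : ℂ) (h₂ := H) (H_deriv _ hne) hl).comp_ofReal
    exact k1.prodMk k2
  have := eq_zero_of_abs_deriv_le_mul_abs_self_of_eq_zero_right (K := ‖z‖ + 1 / δ)
    (fun t ht => (hd t ht).continuousAt.continuousWithinAt)
    (fun t ht => (hd t (Ico_subset_Icc_self ht)).hasDerivWithinAt)
    (by simp [h1, h2])
    (fun t ht => by
      set j := J ((1 - t : ℂ) * z)
      set k := H ((1 - t : ℂ) * z)
      have hj : ‖j‖ ≤ ‖(j, k)‖ := norm_fst_le (j, k)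
      have hk : ‖k‖ ≤ ‖(j, k)‖ := norm_snd_le (j, k)
      have hz0 : 0 < ‖z‖ := norm_pos_iff.2 hz
      have ht1 : δ ≤ 1 - t := by linarith [ht.2]
      have hN : 0 ≤ ‖(j, k)‖ := norm_nonneg _
      have hδi : 0 < 1 / δ := by positivity
      rw [Prod.norm_def]
      refine max_le ?_ ?_
      · simp only [norm_mul, norm_neg]; nlinarith
      · have e : (-j - k / ((1 - t : ℂ) * z)) * (-z) = j * z + k / ((1 - t : ℝ) : ℂ) := by
          have : (1 - t : ℂ) ≠ 0 := by
            have : (1 - t : ℝ) ≠ 0 := by linarith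
            exact_mod_cast this
          push_cast; field_simp; ring
        simp only []
        rw [e]
        refine (norm_add_le _ _).trans ?_
        rw [norm_mul, norm_div, Complex.norm_real, Real.norm_eq_abs, abs_of_pos (by linarith)]
        have : ‖k‖ / (1 - t) ≤ 1 / δ * ‖(j, k)‖ := by
          calc ‖k‖ / (1 - t) ≤ ‖(j, k)‖ / δ := by gcongr
            _ = _ := by ring
        nlinarith)
    (1 - δ) ⟨by linarith, le_rfl⟩
  apply hne
  have h3 := congrArg Prod.fst this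
  simpa using h3

noncomputable def P (z : ℂ) : ℂ := H z + J z / (2 * z) + I * J z
noncomputable def M (z : ℂ) : ℂ := H z + J z / (2 * z) - I * J z

lemma P_deriv (z : ℂ) (hz : z ≠ 0) :
    HasDerivAt P ((I - 1 / (2 * z)) * P z + (-J z / (4 * z ^ 2))) z := by
  have h1 := (J_deriv z).div ((hasDerivAt_id z).const_mul 2) (by simpa using hz)
  refine (((H_deriv z hz).add h1).add ((J_deriv z).const_mul I)).congr_deriv ?_
  simp only [P, id]; field_simp
  linear_combination (-16 * z ^ 2 * J z) * I_sq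

lemma M_deriv (z : ℂ) (hz : z ≠ 0) :
    HasDerivAt M ((-I - 1 / (2 * z)) * M z + (-J z / (4 * z ^ 2))) z := by
  have h1 := (J_deriv z).div ((hasDerivAt_id z).const_mul 2) (by simpa using hz)
  refine (((H_deriv z hz).add h1).sub ((J_deriv z).const_mul I)).congr_deriv ?_
  simp only [M, id]; field_simp
  linear_combination (-16 * z ^ 2 * J z) * I_sq

lemma J_le (z : ℂ) : ‖J z‖ ≤ (‖P z‖ + ‖M z‖) / 2 := by
  have : P z - M z = 2 * I * J z := by rw [P, M]; ring
  have h := norm_sub_le (P z) (M z)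
  rw [this] at h
  simp only [norm_mul, Complex.norm_ofNat, norm_I, mul_one] at h
  linarith

lemma PM_nz (z : ℂ) (hz : z ≠ 0) (h1 : P z = 0) (h2 : M z = 0) : False := by
  have hJ : J z = 0 := by
    have := J_le z
    rw [h1, h2] at this
    simpa using this
  refine nz z hz hJ ?_
  simpa [P, hJ] using h1

/-- fencing along a line -/
lemma fence_line (z0 d : ℂ) (hd : ‖d‖ = 1) (T T' κ : ℝ → ℝ) (a b : ℝ)
    (hz : ∀ t ∈ Icc a b, z0 + t * d ≠ 0)
    (hT : ∀ t ∈ Icc a b, HasDerivAt T (T' t) t)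
    (hT0 : ∀ t ∈ Icc a b, 0 < T t)
    (hκ : ∀ t ∈ Icc a b, 1 / (8 * ‖z0 + t * d‖ ^ 2) ≤ κ t)
    (hs : ∀ t ∈ Icc a b, -2 * d.im * T t + (1 + T t) ^ 2 * κ t < T' t)
    (h0 : ‖P (z0 + a * d)‖ ≤ T a * ‖M (z0 + a * d)‖) :
    ∀ t ∈ Icc a b, ‖P (z0 + t * d)‖ ≤ T t * ‖M (z0 + t * d)‖ := by
  have hl : ∀ t : ℝ, HasDerivAt (fun w : ℂ => z0 + w * d) d t := fun t => by
    simpa using ((hasDerivAt_id (t : ℂ)).mul_const d).const_add z0
  refine fence (fun t => P (z0 + t * d)) (fun t => M (z0 + t * d))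
    (fun t => d * (I - 1 / (2 * (z0 + t * d)))) (fun t => d * (-I - 1 / (2 * (z0 + t * d))))
    (fun t => d * (-J (z0 + t * d) / (4 * (z0 + t * d) ^ 2))) T T' (fun _ => d.im)
    (fun t => (-(d * (1 / (2 * (z0 + t * d))))).re) κ a b ?_ ?_ hT hT0 ?_ ?_ ?_
    (fun t ht => PM_nz _ (hz t ht)) hs h0
  · intro t ht
    refine (((P_deriv _ (hz t ht)).comp (t : ℂ) (hl t)).comp_ofReal).congr_deriv ?_
    ring
  · intro t ht
    refine (((M_deriv _ (hz t ht)).comp (t : ℂ) (hl t)).comp_ofReal).congr_deriv ?_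
    ring
  · intro t _
    rw [mul_sub, sub_re, neg_re, mul_I_re]; ring
  · intro t _
    rw [mul_sub, sub_re, neg_re, mul_neg, neg_re, mul_I_re]; ring
  · intro t ht
    have h1 := J_le (z0 + t * d)
    have h2 := hκ t ht
    have h3 : 0 < ‖z0 + t * d‖ := norm_pos_iff.2 (hz t ht)
    simp only [norm_mul, hd, one_mul, norm_div, norm_neg, norm_pow, Complex.norm_ofNat]
    calc ‖J (z0 + t * d)‖ / (4 * ‖z0 + t * d‖ ^ 2)
        ≤ (‖P (z0 + t * d)‖ + ‖M (z0 + t * d)‖) / 2 / (4 * ‖z0 + t * d‖ ^ 2) := by gcongr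
      _ = 1 / (8 * ‖z0 + t * d‖ ^ 2) * (‖P (z0 + t * d)‖ + ‖M (z0 + t * d)‖) := by
          field_simp; ring
      _ ≤ _ := by gcongr

lemma J_real (x : ℝ) : J x = ((J x).re : ℂ) := by
  have := J_conj x
  rw [conj_ofReal] at this
  exact (conj_eq_iff_re.1 this.symm).symm

lemma H_real (x : ℝ) : H x = ((H x).re : ℂ) := by
  have := H_conj x
  rw [conj_ofReal] at this
  exact (conj_eq_iff_re.1 this.symm).symm

lemma sonin (x : ℝ) (hx : 2 ≤ x) :
    x * (((H x).re + (J x).re / (2 * x)) ^ 2 + (J x).re ^ 2) ≤ 0.65 := by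
  let S : ℝ → ℝ := fun x =>
    x * (((H x).re + (J x).re / (2 * x)) ^ 2 + (1 + 1 / (4 * x ^ 2)) * (J x).re ^ 2)
  have hd : ∀ y : ℝ, 0 < y → HasDerivAt S (-(J y).re ^ 2 / (2 * y ^ 2)) y := by
    intro y hy
    have hy' : (y : ℂ) ≠ 0 := by exact_mod_cast hy.ne'
    have h1 := (J_deriv (y : ℂ)).real_of_complex
    have h2 := (H_deriv (y : ℂ) hy').real_of_complex
    have e : (-J y - H y / y).re = -(J y).re - (H y).re / y := by
      rw [sub_re, neg_re, div_ofReal_re]
    rw [e] at h2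
    have h3 := h1.div ((hasDerivAt_id y).const_mul 2) (by simpa using hy.ne')
    have h4 := (((hasDerivAt_const y (1 : ℝ)).div ((hasDerivAt_pow 2 y).const_mul 4)
      (by positivity)).const_add 1)
    have h5 := (hasDerivAt_id y).mul (((h2.add h3).pow 2).add (h4.mul (h1.pow 2)))
    refine h5.congr_deriv ?_
    simp only [id, Pi.add_apply, Pi.div_apply, Pi.pow_apply, Pi.mul_apply, Nat.cast_ofNat,
      Nat.add_one_sub_one, pow_one]
    field_simp; ring
  have ha : AntitoneOn S (Ici 2) := by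
    refine antitoneOn_of_deriv_nonpos (convex_Ici _)
      (fun y hy => (hd y (by linarith [mem_Ici.1 hy])).continuousAt.continuousWithinAt)
      (fun y hy => (hd y (by
        rw [interior_Ici] at hy; linarith [mem_Ioi.1 hy])).differentiableAt.differentiableWithinAt)
      fun y hy => ?_
    rw [interior_Ici] at hy
    have hy0 : 0 < y := by linarith [mem_Ioi.1 hy]
    rw [(hd y hy0).deriv, neg_div, neg_nonpos]; positivity
  have h1 : S x ≤ S 2 := ha (mem_Ici.2 le_rfl) (mem_Ici.2 hx) hx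
  have h2 : S 2 ≤ 0.65 := by
    have a1 := abs_le.1 J_two
    have a2 := abs_le.1 H_two
    simp only [S, ofReal_ofNat]
    set j := (J 2).re
    set k := (H 2).re
    have b1 : j ^ 2 ≤ 0.0502 := by nlinarith [a1.1, a1.2]
    have b2 : (k + j / (2 * 2)) ^ 2 ≤ 0.2713 := by nlinarith [a1.1, a1.2, a2.1, a2.2]
    norm_num at b1 b2 ⊢; linarith
  refine le_trans ?_ (h1.trans h2)
  simp only [S]
  have : 0 ≤ 1 / (4 * x ^ 2) * (J x).re ^ 2 := by positivity
  nlinarith

lemma real_PM (x : ℝ) (hx : 2 ≤ x) : ‖P x‖ = ‖M x‖ ∧ x * ‖M x‖ ^ 2 ≤ 0.65 := by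
  have e1 : P x = (((H x).re + (J x).re / (2 * x) : ℝ) : ℂ) + ((J x).re : ℂ) * I := by
    rw [P]; push_cast; rw [← J_real, ← H_real]; ring
  have e2 : M x = (((H x).re + (J x).re / (2 * x) : ℝ) : ℂ) + ((-(J x).re : ℝ) : ℂ) * I := by
    rw [M]; push_cast; rw [← J_real, ← H_real]; ring
  constructor
  · rw [e1, e2, Complex.norm_add_mul_I, Complex.norm_add_mul_I]; congr 1; ring
  · rw [e2, Complex.sq_norm, Complex.normSq_add_mul_I, neg_sq]; exact sonin x hx

end Pool.Agent.H51.BesB
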