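import Pool.Agent.H51.BesB

set_option autoImplicit false

namespace Pool.Agent.H51.BesC

open Complex Set Pool.Agent.H51.BesA Pool.Agent.H51.BesB

lemma vert (x y : ℝ) (hx : 8 ≤ x ^ 2) (hx0 : 0 < x) (hy0 : 0 ≤ y) :
    ‖P (x + y * I)‖ ≤ (Real.exp (-2 * y) + 0.275 / x ^ 2) * ‖M (x + y * I)‖ ∧
    ‖(x + y * I : ℂ)‖ * ‖M (x + y * I)‖ ^ 2 ≤ 0.65 * Real.exp ((2 + 0.51 / x ^ 2) * y) := by
  have hx2 : 2 ≤ x := by nlinarith
  have hzn : ∀ t : ℝ, x ^ 2 ≤ ‖(x + t * I : ℂ)‖ ^ 2 := fun t => by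
    rw [Complex.sq_norm, Complex.normSq_add_mul_I]; nlinarith [sq_nonneg t]
  have hz : ∀ t : ℝ, (x + t * I : ℂ) ≠ 0 := fun t h => by
    have := hzn t; rw [h] at this; simp at this; nlinarith
  set δ : ℝ := 0.275 / x ^ 2 with hδ
  have hδ0 : 0 < δ := by positivity
  have hδ1 : δ ≤ 0.035 := by
    rw [hδ, div_le_iff₀ (by positivity)]; linarith
  have hexp : ∀ t : ℝ, 0 ≤ t → Real.exp (-2 * t) ≤ 1 := fun t ht =>
    Real.exp_le_one_iff.2 (by linarith)
  obtain ⟨r1, r2⟩ := real_PM x hx2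
  have hf := fence_line x I norm_I (fun t => Real.exp (-2 * t) + δ)
    (fun t => Real.exp (-2 * t) * (-2)) (fun _ => 1 / (8 * x ^ 2)) 0 y (fun t _ => hz t)
    (fun t _ => by
      simpa using (((hasDerivAt_id t).const_mul (-2)).exp).add_const δ)
    (fun t _ => by positivity)
    (fun t _ => by
      apply one_div_le_one_div_of_le (by positivity); linarith [hzn t])
    (fun t ht => by
      have h1 := hexp t ht.1
      have h2 := Real.exp_pos (-2 * t)
      have e : 1 / (8 * x ^ 2) = δ / 2.2 := by rw [hδ]; field_simp; norm_num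
      rw [e, I_im]
      have : (1 + (Real.exp (-2 * t) + δ)) ^ 2 < 4.4 := by nlinarith
      have : (1 + (Real.exp (-2 * t) + δ)) ^ 2 * (δ / 2.2) < 4.4 * (δ / 2.2) :=
        mul_lt_mul_of_pos_right this (by positivity)
      norm_num at this ⊢; linarith)
    (by simp only [ofReal_zero, zero_mul, add_zero, mul_zero, Real.exp_zero]
        rw [r1]; nlinarith [norm_nonneg (M x)])
  refine ⟨hf y ⟨hy0, le_rfl⟩, ?_⟩
  have hl : ∀ t : ℝ, HasDerivAt (fun w : ℂ => (x : ℂ) + w * I) I t := fun t => by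
    simpa using ((hasDerivAt_id (t : ℂ)).mul_const I).const_add (x : ℂ)
  have hU : ∀ z : ℂ, z ≠ 0 →
      HasDerivAt (fun z => z * M z ^ 2) (-2 * I * (z * M z ^ 2) - M z * J z / (2 * z)) z := by
    intro z hz
    refine ((hasDerivAt_id z).mul ((M_deriv z hz).pow 2)).congr_deriv ?_
    simp only [id, Pi.pow_apply, Nat.cast_ofNat, Nat.add_one_sub_one, pow_one]
    field_simp; ring
  have hd : ∀ t : ℝ, HasDerivAt (fun t : ℝ => ((x : ℂ) + t * I) * M (x + t * I) ^ 2)
      ((-2 * I * ((x + t * I) * M (x + t * I) ^ 2)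
        - M (x + t * I) * J (x + t * I) / (2 * (x + t * I))) * I) t := fun t =>
    (HasDerivAt.comp (t : ℂ) (h₂ := fun z => z * M z ^ 2) (hU _ (hz t)) (hl t)).comp_ofReal
  have hg := norm_le_gronwallBound_of_norm_deriv_right_le (δ := 0.65) (K := 2 + 0.51 / x ^ 2)
    (ε := 0) (a := 0) (b := y)
    (fun t _ => (hd t).continuousAt.continuousWithinAt) (fun t _ => (hd t).hasDerivWithinAt)
    (by
      simp only [ofReal_zero, zero_mul, add_zero, norm_mul, norm_pow, Complex.norm_real,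
        Real.norm_eq_abs, abs_of_pos hx0]
      exact r2)
    (fun t ht => by
      have h1 := hf t (Ico_subset_Icc_self ht)
      have h2 := J_le (x + t * I)
      have h3 := hexp t ht.1
      have h4 := hzn t
      have h5 : 0 < ‖(x + t * I : ℂ)‖ := norm_pos_iff.2 (hz t)
      set z : ℂ := x + t * I
      rw [norm_mul, norm_I, mul_one, add_zero]
      refine (norm_sub_le _ _).trans ?_
      simp only [norm_mul, norm_div, norm_neg, norm_I, Complex.norm_ofNat, norm_pow, mul_one]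
      set b := ‖M z‖
      have hb : 0 ≤ b := norm_nonneg _
      have h6 : ‖J z‖ ≤ 1.02 * b := by nlinarith
      have h7 : b * ‖J z‖ / (2 * ‖z‖) ≤ 0.51 / x ^ 2 * (‖z‖ * b ^ 2) := by
        calc b * ‖J z‖ / (2 * ‖z‖) ≤ b * (1.02 * b) / (2 * ‖z‖) := by gcongr
          _ = 0.51 / ‖z‖ ^ 2 * (‖z‖ * b ^ 2) := by field_simp; ring
          _ ≤ _ := by gcongr
      linarith)
    y ⟨hy0, le_rfl⟩
  rw [gronwallBound_ε0, sub_zero, norm_mul, norm_pow] at hg
  exact hg

lemma start (x y : ℝ) (hy0 : 0 ≤ y) (hyx : y ≤ x) (h4 : 4 < ‖(x + y * I : ℂ)‖)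
    (hJ : J (x + y * I) = 1) :
    2.75 ≤ 2 * y ∧ ‖P (x + y * I)‖ ≤ 0.38 / ‖(x + y * I : ℂ)‖ * ‖M (x + y * I)‖ := by
  have hr2 : ‖(x + y * I : ℂ)‖ ^ 2 = x ^ 2 + y ^ 2 := by
    rw [Complex.sq_norm, Complex.normSq_add_mul_I]
  set r := ‖(x + y * I : ℂ)‖ with hr
  have hx8 : 8 ≤ x ^ 2 := by nlinarith
  have hx0 : 0 < x := by
    rcases (hy0.trans hyx).lt_or_eq with h | h
    · exact h
    · rw [← h] at hx8; norm_num at hx8
  obtain ⟨h1, h2⟩ := vert x y hx8 hx0 hy0
  have h3 := J_le (x + y * I)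
  rw [hJ, norm_one] at h3
  rw [← hr] at h2
  set a := ‖P (x + y * I)‖
  set b := ‖M (x + y * I)‖
  have hb : 0 ≤ b := norm_nonneg _
  set E := Real.exp (-2 * y) with hE
  have hE0 : 0 < E := Real.exp_pos _
  have hE1 : E ≤ 1 := Real.exp_le_one_iff.2 (by linarith)
  set δ : ℝ := 0.275 / x ^ 2 with hδ
  have hδ0 : 0 < δ := by positivity
  have hδ1 : δ ≤ 0.0344 := by
    rw [hδ, div_le_iff₀ (by positivity)]; linarith
  have hδ2 : r * δ ≤ 0.1375 := by
    rw [hδ, ← mul_div_assoc, div_le_iff₀ (by positivity)]; nlinarith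
  have hx28 : 2.828 ≤ x := by nlinarith
  have hu : 0.51 / x ^ 2 * y ≤ 0.181 := by
    rw [div_mul_eq_mul_div, div_le_iff₀ (by positivity)]; nlinarith
  have hu2 : Real.exp (0.51 / x ^ 2 * y) ≤ 1.23 := by
    have k1 := Real.add_one_le_exp (-(0.51 / x ^ 2 * y))
    have k2 : Real.exp (0.51 / x ^ 2 * y) * Real.exp (-(0.51 / x ^ 2 * y)) = 1 := by
      rw [← Real.exp_add]; simp
    have k3 := Real.exp_pos (0.51 / x ^ 2 * y)
    nlinarith
  have h5 : E * Real.exp ((2 + 0.51 / x ^ 2) * y) = Real.exp (0.51 / x ^ 2 * y) := by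
    rw [hE, ← Real.exp_add]; congr 1; ring
  have h6 : E * (r * b ^ 2) ≤ 0.8 := by
    have := mul_le_mul_of_nonneg_left h2 hE0.le
    nlinarith
  have h7 : 2 ≤ (1 + E + δ) * b := by nlinarith
  have h8 : 4 ≤ (1 + E + δ) ^ 2 * b ^ 2 := by
    rw [← mul_pow]; nlinarith
  have h9 : 4 * (E * r) ≤ 0.8 * (1 + E + δ) ^ 2 := by
    have k1 : (E * r) * 4 ≤ (E * r) * ((1 + E + δ) ^ 2 * b ^ 2) :=
      mul_le_mul_of_nonneg_left h8 (by positivity)
    have k2 : (1 + E + δ) ^ 2 * (E * (r * b ^ 2)) ≤ (1 + E + δ) ^ 2 * 0.8 :=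
      mul_le_mul_of_nonneg_left h6 (by positivity)
    nlinarith
  have h10 : 16 * E ≤ 0.8 * (1.0344 + E) ^ 2 := by
    have : (1 + E + δ) ^ 2 ≤ (1.0344 + E) ^ 2 := by nlinarith
    nlinarith
  have h11 : E ≤ 0.06 := by
    by_contra hc
    push Not at hc
    nlinarith
  have h12 : E * r ≤ 0.2396 := by
    have : (1 + E + δ) ^ 2 ≤ 1.0944 ^ 2 := by nlinarith
    nlinarith
  constructor
  · by_contra hc
    push Not at hc
    have k1 : Real.exp (-2.75) < E := Real.exp_lt_exp.2 (by linarith)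
    have k2 : Real.exp (-2.75) ^ 4 * Real.exp 1 ^ 11 = 1 := by
      rw [← Real.exp_nat_mul, ← Real.exp_nat_mul, ← Real.exp_add]; norm_num
    have k3 : Real.exp 1 ^ 11 ≤ 2.7182818286 ^ 11 :=
      pow_le_pow_left₀ (Real.exp_pos 1).le Real.exp_one_lt_d9.le 11
    have k4 : Real.exp (-2.75) ^ 4 ≤ 0.06 ^ 4 :=
      pow_le_pow_left₀ (Real.exp_pos _).le (by linarith) 4
    have k5 : Real.exp (-2.75) ^ 4 * Real.exp 1 ^ 11 ≤ 0.06 ^ 4 * 2.7182818286 ^ 11 :=
      mul_le_mul k4 k3 (by positivity) (by positivity)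
    rw [k2] at k5; norm_num at k5
  · refine h1.trans (mul_le_mul_of_nonneg_right ?_ hb)
    rw [le_div_iff₀ (by linarith)]; nlinarith

lemma inner_eq (u p m j h : ℂ) (r : ℝ) (hr : r ≠ 0) (hu : u ≠ 0)
    (hp : p = h + j / (2 * (r * u)) + I * j) (hm : m = h + j / (2 * (r * u)) - I * j) :
    2 * inner ℝ j (h * u) = (u.im * (‖m‖ ^ 2 - ‖p‖ ^ 2)
      - 2 * u.re * ((starRingEnd ℂ) p * m).im) / 2 - ‖j‖ ^ 2 / r := by
  have hr' : (r : ℂ) ≠ 0 := by exact_mod_cast hr
  obtain ⟨g, hg⟩ : ∃ g, g = h + j / (2 * (r * u)) := ⟨_, rfl⟩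
  have e : h * u = g * u - ((1 / (2 * r) : ℝ) : ℂ) * j := by
    rw [hg]; push_cast; field_simp; ring
  rw [← hg] at hp hm
  rw [e, inner_sub_right, inner_mul_self, hp, hm, Complex.inner, Complex.sq_norm, Complex.sq_norm,
    Complex.sq_norm, ofReal_re]
  simp only [Complex.normSq_apply, add_re, add_im, sub_re, sub_im, mul_re, mul_im, I_re, I_im,
    conj_re, conj_im, map_add, map_mul, conj_I, neg_re, neg_im]
  field_simp; ring

lemma ray (u : ℂ) (hu : ‖u‖ = 1) (h0 : 0 ≤ u.im) (h1 : u.im ≤ u.re) (s t : ℝ) (hs : 0 < s)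
    (hst : s < t) (hJ : J (s * u) = 1) (hJ' : J (t * u) = 1) : False := by
  have hu0 : u ≠ 0 := by rintro rfl; simp at hu
  have hn : ∀ r : ℝ, 0 < r → ‖(r : ℂ) * u‖ = r := fun r hr => by
    rw [norm_mul, hu, mul_one, Complex.norm_real, Real.norm_eq_abs, abs_of_pos hr]
  have hz : ∀ r : ℝ, 0 < r → (r : ℂ) * u ≠ 0 := fun r hr =>
    mul_ne_zero (by exact_mod_cast hr.ne') hu0
  have hs4 : 4 < s := by
    by_contra hc
    push Not at hc
    exact J_ne_one _ (hz s hs) (by rwa [hn s hs]) hJ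
  have e : (s : ℂ) * u = ((s * u.re : ℝ) : ℂ) + ((s * u.im : ℝ) : ℂ) * I := by
    conv_lhs => rw [← re_add_im u]
    push_cast; ring
  obtain ⟨k1, k2⟩ := start (s * u.re) (s * u.im) (by positivity)
    (mul_le_mul_of_nonneg_left h1 hs.le) (by rw [← e, hn s hs]; exact hs4) (by rw [← e]; exact hJ)
  rw [← e, hn s hs] at k2
  have hpos : ∀ r ∈ Icc s t, 0 < r := fun r hr => hs.trans_le hr.1
  have hy : ∀ r ∈ Icc s t, 2.75 ≤ 2 * (r * u.im) := fun r hr => by
    have := mul_le_mul_of_nonneg_right hr.1 h0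
    linarith
  have hT : ∀ r ∈ Icc s t, 0.38 / r ≤ 0.095 := fun r hr => by
    rw [div_le_iff₀ (hpos r hr)]; linarith [hr.1]
  have hf := fence_line 0 u hu (fun r => 0.38 / r) (fun r => -0.38 / r ^ 2)
    (fun r => 1 / (8 * r ^ 2)) s t (fun r hr => by simpa using hz r (hpos r hr))
    (fun r hr => by
      refine ((hasDerivAt_const r (0.38 : ℝ)).div (hasDerivAt_id r) (hpos r hr).ne').congr_deriv ?_
      simp)
    (fun r hr => by have := hpos r hr; positivity)
    (fun r hr => by rw [zero_add, hn r (hpos r hr)])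
    (fun r hr => by
      have a1 := hpos r hr
      have a2 := hy r hr
      have a3 := hT r hr
      have a4 : 0 < 0.38 / r := by positivity
      have a5 : (1 + 0.38 / r) ^ 2 ≤ 1.2 := by nlinarith
      have a6 : -2 * u.im * (0.38 / r) = -(0.38 * (2 * (r * u.im))) / r ^ 2 := by
        field_simp
      rw [a6, show (1 + 0.38 / r) ^ 2 * (1 / (8 * r ^ 2)) = ((1 + 0.38 / r) ^ 2 / 8) / r ^ 2 by
        field_simp, ← add_div]
      apply div_lt_div_of_pos_right _ (by positivity)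
      nlinarith)
    (by simpa using k2)
  have hd : ∀ r : ℝ, HasDerivAt (fun r : ℝ => ‖J (r * u)‖ ^ 2)
      (2 * inner ℝ (J (r * u)) (H (r * u) * u)) r := fun r => by
    have hl : HasDerivAt (fun w : ℂ => w * u) u r := by
      simpa using (hasDerivAt_id (r : ℂ)).mul_const u
    exact (HasDerivAt.comp (r : ℂ) (h₂ := J) (J_deriv _) hl).comp_ofReal.norm_sq
  have hm : StrictMonoOn (fun r : ℝ => ‖J (r * u)‖ ^ 2) (Icc s t) := by
    refine strictMonoOn_of_deriv_pos (convex_Icc _ _)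
      (fun r _ => (hd r).continuousAt.continuousWithinAt) fun r hr => ?_
    have hr' : r ∈ Icc s t := interior_subset hr
    have a1 := hpos r hr'
    have a2 := hy r hr'
    have a3 := hT r hr'
    have a4 := hf r hr'
    simp only [zero_add] at a4
    rw [(hd r).deriv, inner_eq u (P (r * u)) (M (r * u)) _ _ r a1.ne' hu0 rfl rfl]
    have a5 := J_le (r * u)
    have a6 : |((starRingEnd ℂ) (P (r * u)) * M (r * u)).im| ≤ ‖P (r * u)‖ * ‖M (r * u)‖ := by
      refine (abs_im_le_norm _).trans ?_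
      rw [norm_mul, RCLike.norm_conj]
    have hb : 0 < ‖M (r * u)‖ := by
      rcases (norm_nonneg (M (r * u))).lt_or_eq with h | h
      · exact h
      · exfalso
        refine PM_nz _ (hz r a1) (norm_eq_zero.1 ?_) (norm_eq_zero.1 h.symm)
        rw [← h, mul_zero] at a4
        exact le_antisymm a4 (norm_nonneg _)
    have hre : u.re ≤ 1 := hu ▸ (le_abs_self _).trans (abs_re_le_norm u)
    have hre0 : 0 ≤ u.re := h0.trans h1
    set a := ‖P (r * u)‖
    set b := ‖M (r * u)‖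
    set w := ((starRingEnd ℂ) (P (r * u)) * M (r * u)).im
    set j := ‖J (r * u)‖
    have ha : 0 ≤ a := norm_nonneg _
    have hj : 0 ≤ j := norm_nonneg _
    have b1 : u.re * w ≤ a * b := by
      have := (le_abs_self w).trans a6
      have h2 : 0 ≤ a * b := by positivity
      nlinarith
    have b2 : a ≤ 0.095 * b := a4.trans (mul_le_mul_of_nonneg_right a3 hb.le)
    have b3 : r * a ≤ 0.38 * b := by
      have := mul_le_mul_of_nonneg_left a4 a1.le
      rwa [← mul_assoc, mul_div_cancel₀ _ a1.ne'] at this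
    have b4 : j ^ 2 ≤ (1.095 * b / 2) ^ 2 := pow_le_pow_left₀ hj (by linarith) 2
    have b5 : a ^ 2 ≤ (0.095 * b) ^ 2 := pow_le_pow_left₀ ha b2 2
    have b6 : 1.375 * (b ^ 2 - a ^ 2) ≤ (r * u.im) * (b ^ 2 - a ^ 2) :=
      mul_le_mul_of_nonneg_right (by linarith) (by nlinarith)
    have b7 : r * (u.re * w) ≤ 0.38 * b ^ 2 := by
      have k1 := mul_le_mul_of_nonneg_left b1 a1.le
      have k2 := mul_le_mul_of_nonneg_right b3 hb.le
      nlinarith
    have b8 : 0 < b ^ 2 := by positivity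
    rw [show (u.im * (b ^ 2 - a ^ 2) - 2 * u.re * w) / 2 - j ^ 2 / r
      = ((r * u.im * (b ^ 2 - a ^ 2) - 2 * (r * (u.re * w))) / 2 - j ^ 2) / r by field_simp]
    apply div_pos _ a1
    nlinarith
  have := hm ⟨le_rfl, hst.le⟩ ⟨hst.le, le_rfl⟩ hst
  simp only [hJ, hJ'] at this
  exact lt_irrefl _ this

lemma steep (u : ℂ) (hu : ‖u‖ = 1) (h0 : (u ^ 2).re ≤ 0) (s : ℝ) (hs : 0 < s)
    (hJ : J (s * u) = 1) : False := by
  have hu0 : u ≠ 0 := by rintro rfl; simp at hu
  have hl : ∀ r : ℝ, HasDerivAt (fun w : ℂ => w * u) u r := fun r => by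
    simpa using (hasDerivAt_id (r : ℂ)).mul_const u
  have hj : ∀ r : ℝ, HasDerivAt (fun r : ℝ => J (r * u)) (H (r * u) * u) r := fun r =>
    (HasDerivAt.comp (r : ℂ) (h₂ := J) (J_deriv _) (hl r)).comp_ofReal
  have hD : ∀ r : ℝ, HasDerivAt (fun r : ℝ => (r * u) * H (r * u)) (-(r * u) * J (r * u) * u) r :=
    fun r => (HasDerivAt.comp (r : ℂ) (h₂ := fun z => z * H z) (D_deriv _) (hl r)).comp_ofReal
  have hQ : ∀ r : ℝ, HasDerivAt (fun r : ℝ => inner ℝ (J (r * u)) ((r * u) * H (r * u)))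
      (r * (‖H (r * u)‖ ^ 2 - (u ^ 2).re * ‖J (r * u)‖ ^ 2)) r := fun r => by
    refine ((hj r).inner ℝ (hD r)).congr_deriv ?_
    rw [show -((r : ℂ) * u) * J (r * u) * u = (-r * u ^ 2) * J (r * u) by ring,
      show (r : ℂ) * u * H (r * u) = r * (H (r * u) * u) by ring, inner_mul_self, inner_mul_self,
      norm_mul, hu]
    simp only [neg_mul, neg_re, re_ofReal_mul, ofReal_re]; ring
  have hc : ContinuousAt (fun r : ℝ => ps c1 (((r : ℂ) * u) ^ 2 / 4)) 0 := by
    have := F1_cont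
    fun_prop
  have hev := hc.eventually_ne (y := 0) (by simp [F1_zero])
  obtain ⟨ε, hε, hε'⟩ := Metric.eventually_nhds_iff.1 hev
  have hQ1 : MonotoneOn (fun r : ℝ => inner ℝ (J (r * u)) ((r * u) * H (r * u))) (Ici 0) := by
    refine monotoneOn_of_deriv_nonneg (convex_Ici _)
      (fun r _ => (hQ r).continuousAt.continuousWithinAt)
      (fun r _ => (hQ r).differentiableAt.differentiableWithinAt) fun r hr => ?_
    have hr' : 0 ≤ r := interior_subset hr
    rw [(hQ r).deriv]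
    have := mul_nonneg (neg_nonneg.2 h0) (sq_nonneg ‖J (r * u)‖)
    exact mul_nonneg hr' (by nlinarith [sq_nonneg ‖H (r * u)‖])
  have hQ2 : StrictMonoOn (fun r : ℝ => inner ℝ (J (r * u)) ((r * u) * H (r * u)))
      (Icc 0 (ε / 2)) := by
    refine strictMonoOn_of_deriv_pos (convex_Icc _ _)
      (fun r _ => (hQ r).continuousAt.continuousWithinAt) fun r hr => ?_
    rw [interior_Icc] at hr
    rw [(hQ r).deriv]
    have h1 := hε' (y := r) (by
      simp only [dist_zero_right, Real.norm_eq_abs, abs_of_pos hr.1]; linarith [hr.2])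
    have h2 : H (r * u) ≠ 0 := by
      rw [H]
      refine mul_ne_zero (neg_ne_zero.2 (div_ne_zero (mul_ne_zero ?_ hu0) two_ne_zero)) h1
      exact_mod_cast hr.1.ne'
    have h3 : 0 < ‖H (r * u)‖ ^ 2 := by positivity
    have := mul_nonneg (neg_nonneg.2 h0) (sq_nonneg ‖J (r * u)‖)
    exact mul_pos hr.1 (by nlinarith)
  have hQ3 : ∀ r : ℝ, 0 < r → 0 < inner ℝ (J (r * u)) ((r * u) * H (r * u)) := by
    intro r hr
    have a1 : 0 < min r (ε / 2) := by positivity
    have a2 := hQ2 ⟨le_rfl, by linarith⟩ ⟨a1.le, min_le_right _ _⟩ a1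
    have a3 := hQ1 (mem_Ici.2 a1.le) (mem_Ici.2 hr.le) (min_le_left _ _)
    simp only [ofReal_zero, zero_mul, inner_zero_right] at a2
    exact a2.trans_le a3
  have hm : StrictMonoOn (fun r : ℝ => ‖J (r * u)‖ ^ 2) (Ici 0) := by
    refine strictMonoOn_of_deriv_pos (convex_Ici _)
      (fun r _ => (hj r).norm_sq.continuousAt.continuousWithinAt) fun r hr => ?_
    rw [interior_Ici] at hr
    have hr' : 0 < r := hr
    rw [(hj r).norm_sq.deriv]
    have h1 := hQ3 r hr'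
    rw [show (r : ℂ) * u * H (r * u) = r • (H (r * u) * u) by simp; ring, inner_smul_right] at h1
    linarith [(pos_iff_pos_of_mul_pos h1).1 hr']
  have := hm (mem_Ici.2 le_rfl) (mem_Ici.2 hs.le) hs
  simp [hJ, J_zero] at this

lemma main_lt (u : ℂ) (hu : ‖u‖ = 1) (s t : ℝ) (hs : 0 < s) (hst : s < t)
    (hJ : J (s * u) = 1) (hJ' : J (t * u) = 1) : False := by
  by_cases h0 : (u ^ 2).re ≤ 0
  · exact steep u hu h0 s hs hJ
  have h1 : u.im ^ 2 < u.re ^ 2 := by
    simp only [sq, mul_re] at h0 ⊢; linarith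
  have hneg : ∀ (v : ℂ) (r : ℝ), J (r * v) = 1 → J (r * (-v)) = 1 := fun v r h => by
    rw [mul_neg, J_neg, h]
  have hconj : ∀ (v : ℂ) (r : ℝ), J (r * v) = 1 → J (r * (starRingEnd ℂ) v) = 1 := fun v r h => by
    have := J_conj (r * v)
    rw [h, map_mul, conj_ofReal, map_one] at this
    exact this
  have h2 := sq_lt_sq.1 h1
  rcases le_total 0 u.re with a | a <;> rcases le_total 0 u.im with b | b
  · rw [abs_of_nonneg a, abs_of_nonneg b] at h2
    exact ray u hu b h2.le s t hs hst hJ hJ'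
  · rw [abs_of_nonneg a, abs_of_nonpos b] at h2
    exact ray ((starRingEnd ℂ) u) (by simpa using hu) (by simpa using b) (by simpa using h2.le)
      s t hs hst (hconj _ _ hJ) (hconj _ _ hJ')
  · rw [abs_of_nonpos a, abs_of_nonneg b] at h2
    exact ray (-(starRingEnd ℂ) u) (by simpa using hu) (by simpa using b) (by simpa using h2.le)
      s t hs hst (hneg _ _ (hconj _ _ hJ)) (hneg _ _ (hconj _ _ hJ'))
  · rw [abs_of_nonpos a, abs_of_nonpos b] at h2
    exact ray (-u) (by simpa using hu) (by simpa using b) (by simpa using h2.le)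
      s t hs hst (hneg _ _ hJ) (hneg _ _ hJ')

theorem main (u : ℂ) (hu : ‖u‖ = 1) (s t : ℝ) (hs : 0 < s) (ht : 0 < t)
    (hJ : J (s * u) = 1) (hJ' : J (t * u) = 1) : s = t := by
  rcases lt_trichotomy s t with h | h | h
  · exact (main_lt u hu s t hs h hJ hJ').elim
  · exact h
  · exact (main_lt u hu t s ht h hJ' hJ).elim

end Pool.Agent.H51.BesC
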