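import Mathlib

namespace Pool.Agent.H51.Beurling

theorem exists_theta : ∃ θ : ℝ, θ ^ 3 + θ ^ 2 - 3 * θ - 4 = 0 ∧ 1.8311 < θ ∧ θ < 1.8312 := by
  have := intermediate_value_Ioo (a := (1.8311 : ℝ)) (b := 1.8312) (by norm_num)
    (f := fun x => x ^ 3 + x ^ 2 - 3 * x - 4) (by fun_prop)
  obtain ⟨θ, hθ, h⟩ := this (show (0 : ℝ) ∈ Set.Ioo _ _ by constructor <;> norm_num)
  exact ⟨θ, h, hθ.1, hθ.2⟩

/-- The complex conjugate root. -/
noncomputable def om (θ η : ℝ) : ℂ := ⟨(-1 - θ) / 2, η⟩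

/-- The two embeddings of `x + y θ + z θ ^ 2`. -/
noncomputable def E (θ η : ℝ) (x y z : ℤ) : ℝ × ℂ :=
  (x + y * θ + z * θ ^ 2, x + y * om θ η + z * om θ η ^ 2)

/-- The primes from 7 on. -/
noncomputable def q (i : ℕ) : ℕ := Nat.nth Nat.Prime (i + 3)

theorem q_prime (i : ℕ) : (q i).Prime := Nat.prime_nth_prime _

theorem q_mono : StrictMono q := fun _ _ h =>
  Nat.nth_strictMono Nat.infinite_setOf_prime (by omega)

theorem q_ge (i : ℕ) : 7 ≤ q i := by
  have h0 : q 0 = 7 := by simp [q, Nat.nth_prime_three_eq_seven]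
  have := q_mono.monotone (Nat.zero_le i)
  omega

/-- The generators. -/
noncomputable def g (θ η : ℝ) : ℕ → ℝ × ℂ
  | 0 => E θ η 1 1 0
  | 1 => E θ η (-1) 1 1
  | 2 => E θ η 0 1 1
  | 3 => E θ η 3 2 0
  | (i + 4) => E θ η (q i) 0 0 * E θ η 1 1 0 ^ (2 * q i)

/-- The norms of the generators. -/
noncomputable def nn : ℕ → ℕ
  | 0 => 1
  | 1 => 2 ^ 2
  | 2 => 2 ^ 2
  | 3 => 5 ^ 1
  | (i + 4) => q i ^ 3

/-- The norm. -/
noncomputable def ν : ℝ × ℂ →* ℝ :=
  MonoidHom.fst ℝ ℂ * (Complex.normSq.toMonoidHom.comp (MonoidHom.snd ℝ ℂ))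

theorem ν_apply (w : ℝ × ℂ) : ν w = w.1 * Complex.normSq w.2 := rfl

theorem prod_ind {M : Type} [CommMonoid M] (P : M → Prop) (h1 : P 1)
    (hm : ∀ a b, P a → P b → P (a * b)) (f : ℕ → M) (k : ℕ →₀ ℕ) (h : ∀ i, k i ≠ 0 → P (f i)) :
    P (k.prod fun i e => f i ^ e) := by
  have hp : ∀ a, P a → ∀ e : ℕ, P (a ^ e) := by
    intro a ha e
    induction e with
    | zero => simpa using h1
    | succ e ih => rw [pow_succ]; exact hm _ _ ih ha
  exact Finset.prod_induction _ P hm h1 fun i hi => hp _ (h i (Finsupp.mem_support_iff.mp hi)) _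

theorem E_one (θ η : ℝ) : E θ η 1 0 0 = 1 := by
  simp [E, Prod.ext_iff]

theorem E_sub (θ η : ℝ) (x y z x' y' z' : ℤ) :
    E θ η x y z - E θ η x' y' z' = E θ η (x - x') (y - y') (z - z') := by
  simp only [E, Prod.mk_sub_mk, Prod.mk.injEq]
  push_cast
  constructor <;> ring

theorem fact_prod (p : ℕ) (k : ℕ →₀ ℕ) :
    (k.prod fun i e => nn i ^ e).factorization p = k.sum fun i e => e * (nn i).factorization p := by
  have h0 : ∀ i, nn i ≠ 0 := by
    intro i
    match i with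
    | 0 => simp [nn]
    | 1 => simp [nn]
    | 2 => simp [nn]
    | 3 => simp [nn]
    | (i + 4) => exact pow_ne_zero _ (q_prime i).ne_zero
  unfold Finsupp.prod Finsupp.sum
  rw [Nat.factorization_prod fun i _ => pow_ne_zero _ (h0 i)]
  simp [Finsupp.finset_sum_apply]

theorem nn_fact (p i : ℕ) : (nn i).factorization p =
    if i = 0 then 0 else if i = 1 ∨ i = 2 then (if p = 2 then 2 else 0)
    else if i = 3 then (if p = 5 then 1 else 0) else if p = q (i - 4) then 3 else 0 := by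
  match i with
  | 0 => simp [nn]
  | 1 => simp only [nn]; rw [Nat.prime_two.factorization_pow]; simp [Finsupp.single_apply, eq_comm]
  | 2 => simp only [nn]; rw [Nat.prime_two.factorization_pow]; simp [Finsupp.single_apply, eq_comm]
  | 3 => simp only [nn]; rw [Nat.prime_five.factorization_pow]; simp [Finsupp.single_apply, eq_comm]
  | (i + 4) =>
    simp only [nn]; rw [(q_prime i).factorization_pow]; simp [Finsupp.single_apply, eq_comm]

theorem sum_single (k : ℕ →₀ ℕ) (c : ℕ → ℕ) (j : ℕ) (h : ∀ i, i ≠ j → c i = 0) :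
    (k.sum fun i e => e * c i) = k j * c j := by
  rw [Finsupp.sum_eq_single j]
  · intro i _ hi; simp [h i hi]
  · simp

theorem norm_eq {k l : ℕ →₀ ℕ} (h : (k.prod fun i e => nn i ^ e) = l.prod fun i e => nn i ^ e)
    (h2 : k 2 = l 2) (i : ℕ) (hi : i ≠ 0) : k i = l i := by
  have key : ∀ p, (k.sum fun i e => e * (nn i).factorization p) =
      l.sum fun i e => e * (nn i).factorization p := by
    intro p; rw [← fact_prod, ← fact_prod, h]
  match i with
  | 1 =>
    have h3 : ∀ m : ℕ →₀ ℕ, (m.sum fun i e => e * (nn i).factorization 2) = m 1 * 2 + m 2 * 2 := by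
      intro m
      have h4 : ∀ i, (nn i).factorization 2 = (if i = 1 then 2 else 0) + (if i = 2 then 2 else 0) := by
        intro i
        have := q_ge (i - 4)
        rw [nn_fact]
        split_ifs <;> omega
      simp only [h4, mul_add]
      rw [Finsupp.sum, Finset.sum_add_distrib]
      have h5 := sum_single m (fun i => if i = 1 then 2 else 0) 1 (by intro i hi; simp [hi])
      have h6 := sum_single m (fun i => if i = 2 then 2 else 0) 2 (by intro i hi; simp [hi])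
      rw [Finsupp.sum] at h5 h6
      rw [h5, h6]; simp
    have := key 2
    rw [h3, h3] at this
    omega
  | 2 => exact h2
  | 3 =>
    have h3 : ∀ i, i ≠ 3 → (nn i).factorization 5 = 0 := by
      intro i hi
      have := q_ge (i - 4)
      rw [nn_fact]
      split_ifs <;> omega
    have := key 5
    rw [sum_single k _ 3 h3, sum_single l _ 3 h3, nn_fact] at this
    simpa using this
  | (j + 4) =>
    have h3 : ∀ i, i ≠ j + 4 → (nn i).factorization (q j) = 0 := by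
      intro i hi
      have := q_ge j
      rw [nn_fact]
      split_ifs with a b c d e f
      any_goals omega
      have := q_mono.injective f
      omega
    have := key (q j)
    rw [sum_single k _ _ h3, sum_single l _ _ h3, nn_fact] at this
    simp at this
    exact this

section
variable {θ η : ℝ} (hθ : θ ^ 3 + θ ^ 2 - 3 * θ - 4 = 0) (h1 : 1.8311 < θ) (h2 : θ < 1.8312)
  (hη : η ^ 2 = (3 * θ ^ 2 + 2 * θ - 13) / 4)

include hθ hη in
theorem om_eq : om θ η ^ 3 + om θ η ^ 2 - 3 * om θ η - 4 = 0 := by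
  apply Complex.ext
  · simp [om, pow_succ]
    linear_combination (3 * θ / 2 + 1 / 2) * hη + hθ
  · simp [om, pow_succ]
    linear_combination (-η) * hη

include hη in
theorem normSq_E (x y z : ℤ) : Complex.normSq (E θ η x y z).2 =
    (x - (1 + θ) / 2 * y + (7 - θ ^ 2) / 2 * z) ^ 2 +
      (3 * θ ^ 2 + 2 * θ - 13) / 4 * (y - (1 + θ) * z) ^ 2 := by
  have hre : (E θ η x y z).2.re = x - (1 + θ) / 2 * y + (7 - θ ^ 2) / 2 * z := by
    simp [E, om, pow_succ]
    linear_combination (-z : ℝ) * hη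
  have him : (E θ η x y z).2.im = η * (y - (1 + θ) * z) := by
    simp [E, om, pow_succ]
    ring
  rw [Complex.normSq_apply, hre, him, ← hη]
  ring

include hθ hη in
theorem E_mul (x y z x' y' z' : ℤ) : E θ η x y z * E θ η x' y' z' =
    E θ η (x * x' + 4 * (y * z' + z * y') - 4 * z * z')
      (x * y' + y * x' + 3 * (y * z' + z * y') + z * z')
      (x * z' + y * y' + z * x' - (y * z' + z * y') + 4 * z * z') := by
  have := om_eq hθ hη
  simp only [E, Prod.mk_mul_mk, Prod.mk.injEq]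
  push_cast
  constructor
  · linear_combination (y * z' + z * y' + z * z' * (θ - 1)) * hθ
  · linear_combination (y * z' + z * y' + z * z' * (om θ η - 1)) * this

include h1 h2 hη in
theorem small0 (x y z : ℤ) (hz : 0 ≤ z) (hr : |(E θ η x y z).1| < 1)
    (hs : Complex.normSq (E θ η x y z).2 ≤ 4) :
    (x = 0 ∧ y = 0 ∧ z = 0) ∨ (x = -3 ∧ y = 0 ∧ z = 1) := by
  rw [normSq_E hη] at hs
  simp only [E] at hr
  obtain ⟨hr1, hr2⟩ := abs_lt.mp hr
  have t1 : (3.3529 : ℝ) < θ ^ 2 := by nlinarith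
  have t2 : θ ^ 2 < 3.3533 := by nlinarith
  have e1 : (0.18 : ℝ) ≤ (3 * θ ^ 2 + 2 * θ - 13) / 4 := by linarith
  set A : ℝ := x - (1 + θ) / 2 * y + (7 - θ ^ 2) / 2 * z with hA
  set B : ℝ := y - (1 + θ) * z with hB
  have hB2 : 0.18 * B ^ 2 ≤ (3 * θ ^ 2 + 2 * θ - 13) / 4 * B ^ 2 :=
    mul_le_mul_of_nonneg_right e1 (sq_nonneg _)
  have hA1 : -2 ≤ A := by nlinarith [sq_nonneg B]
  have hA2 : A ≤ 2 := by nlinarith [sq_nonneg B]
  have hB1 : -4.72 ≤ B := by nlinarith [sq_nonneg A]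
  have hz1 : z ≤ 1 := by
    by_contra h
    have hz2 : (2 : ℝ) ≤ z := by exact_mod_cast (by omega : 2 ≤ z)
    have hy : 2.83 * z - 4.72 ≤ (y : ℝ) := by nlinarith
    have hy0 : (0 : ℝ) ≤ y := by linarith
    nlinarith
  have hz' : z = 0 ∨ z = 1 := by omega
  rcases hz' with rfl | rfl
  · left
    simp only [Int.cast_zero, mul_zero, zero_mul, add_zero] at *
    have hy1 : y < 1 := by
      by_contra h
      have : (1 : ℝ) ≤ y := by exact_mod_cast (by omega : 1 ≤ y)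
      nlinarith
    have hy2 : -1 < y := by
      by_contra h
      have : (y : ℝ) ≤ -1 := by exact_mod_cast (by omega : y ≤ -1)
      nlinarith
    have hy : y = 0 := by omega
    subst hy
    simp only [Int.cast_zero, zero_mul, add_zero] at hr1 hr2
    have a1 : -1 < x := by exact_mod_cast hr1
    have a2 : x < 1 := by exact_mod_cast hr2
    constructor
    · omega
    · simp
  · right
    simp only [Int.cast_one, mul_one, one_mul] at *
    have hy1 : y < 1 := by
      by_contra h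
      have : (1 : ℝ) ≤ y := by exact_mod_cast (by omega : 1 ≤ y)
      nlinarith
    have hy2 : -2 < y := by
      by_contra h
      have : (y : ℝ) ≤ -2 := by exact_mod_cast (by omega : y ≤ -2)
      nlinarith
    have hy : y = 0 ∨ y = -1 := by omega
    rcases hy with rfl | rfl
    · simp only [Int.cast_zero, zero_mul, add_zero, mul_zero, sub_zero] at *
      have a1 : (-4 : ℝ) < x := by linarith
      have a2 : (x : ℝ) < -2 := by linarith
      have a3 : -4 < x := by exact_mod_cast a1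
      have a4 : x < -2 := by exact_mod_cast a2
      constructor
      · omega
      · simp
    · exfalso
      simp only [Int.cast_neg, Int.cast_one] at *
      have a1 : (-3 : ℝ) < x := by linarith
      have a2 : (x : ℝ) < -1 := by linarith
      have a3 : -3 < x := by exact_mod_cast a1
      have a4 : x < -1 := by exact_mod_cast a2
      have a5 : x = -2 := by omega
      subst a5
      have b1 : 1.238 ≤ A := by rw [hA]; push_cast; linarith
      have b2 : B ≤ -3.83 := by linarith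
      nlinarith

include h1 h2 hη in
theorem small (x y z : ℤ) (hr : |(E θ η x y z).1| < 1) (hs : ‖(E θ η x y z).2‖ ≤ 2) :
    (x = 0 ∧ y = 0 ∧ z = 0) ∨ (Odd (y + z) ∧ 1.6 < ‖(E θ η x y z).2‖) := by
  have hs' : Complex.normSq (E θ η x y z).2 ≤ 4 := by
    rw [Complex.normSq_eq_norm_sq]; nlinarith [norm_nonneg (E θ η x y z).2]
  have t1 : (3.3529 : ℝ) < θ ^ 2 := by nlinarith
  have t2 : θ ^ 2 < 3.3533 := by nlinarith
  have big : 1.6 < ‖(E θ η (-3) 0 1).2‖ := by
    have h := normSq_E hη (-3) 0 1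
    rw [Complex.normSq_eq_norm_sq] at h
    push_cast at h
    have b1 : (1.17 : ℝ) ^ 2 ≤ (-3 - (1 + θ) / 2 * 0 + (7 - θ ^ 2) / 2 * 1) ^ 2 := by nlinarith
    have b2 : (2.83 : ℝ) ^ 2 ≤ (0 - (1 + θ) * 1) ^ 2 := by nlinarith
    have b3 : (0.18 : ℝ) * 2.83 ^ 2 ≤ (3 * θ ^ 2 + 2 * θ - 13) / 4 * (0 - (1 + θ) * 1) ^ 2 :=
      mul_le_mul (by linarith) b2 (by norm_num) (by linarith)
    nlinarith [norm_nonneg (E θ η (-3) 0 1).2]
  have hneg : E θ η (-x) (-y) (-z) = -E θ η x y z := by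
    simp only [E, Prod.neg_mk, Prod.mk.injEq]
    push_cast
    constructor <;> ring
  rcases le_total 0 z with hz | hz
  · rcases small0 h1 h2 hη x y z hz hr hs' with h | ⟨rfl, rfl, rfl⟩
    · exact Or.inl h
    · exact Or.inr ⟨by decide, big⟩
  · rcases small0 h1 h2 hη (-x) (-y) (-z) (by omega) (by rw [hneg]; simpa using hr)
      (by rw [hneg]; simpa using hs') with h | ⟨ha, hb, hc⟩
    · left; omega
    · right
      rw [ha, hb, hc] at hneg
      refine ⟨⟨-1, by omega⟩, ?_⟩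
      rw [hneg] at big
      simpa using big

include h1 h2 hη in
theorem E_inj {x y z x' y' z' : ℤ} (h : E θ η x y z = E θ η x' y' z') : x = x' := by
  have h0 : E θ η (x - x') (y - y') (z - z') = 0 := by rw [← E_sub, h, sub_self]
  rcases small h1 h2 hη (x - x') (y - y') (z - z') (by simp [h0]) (by simp [h0]) with h | ⟨-, h⟩
  · omega
  · rw [h0] at h; norm_num at h

include hθ hη in
theorem ν_g (i : ℕ) : ν (g θ η i) = nn i := by
  have h0 : ν (E θ η 1 1 0) = 1 := by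
    rw [ν_apply, normSq_E hη]; simp only [E]; push_cast
    linear_combination hθ
  match i with
  | 0 => simpa [g, nn] using h0
  | 1 =>
    simp only [g, nn]; rw [ν_apply, normSq_E hη]; simp only [E]; push_cast
    linear_combination (θ ^ 3 + θ ^ 2 - 3 * θ + 2) * hθ
  | 2 =>
    simp only [g, nn]; rw [ν_apply, normSq_E hη]; simp only [E]; push_cast
    linear_combination (θ ^ 3 + θ ^ 2 - 3 * θ + 1) * hθ
  | 3 =>
    simp only [g, nn]; rw [ν_apply, normSq_E hη]; simp only [E]; push_cast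
    linear_combination 8 * hθ
  | (i + 4) =>
    simp only [g, nn]; rw [map_mul, map_pow, h0, ν_apply, normSq_E hη]; simp only [E]; push_cast
    ring

include h1 h2 in
theorem g_fst : 2 < (g θ η 0).1 ∧ (g θ η 3).1 < 6.9 ∧ StrictMono fun i => (g θ η i).1 := by
  have t1 : (3.3529 : ℝ) < θ ^ 2 := by nlinarith
  have t2 : θ ^ 2 < 3.3533 := by nlinarith
  have hq : ∀ i, (g θ η (i + 4)).1 = q i * (1 + θ) ^ (2 * q i) := by
    intro i; simp [g, E]
  refine ⟨by simp [g, E]; linarith, by simp [g, E]; linarith, strictMono_nat_of_lt_succ fun i => ?_⟩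
  match i with
  | 0 => simp [g, E]; linarith
  | 1 => simp [g, E]
  | 2 => simp [g, E]; linarith
  | 3 =>
    show (g θ η 3).1 < (g θ η (0 + 4)).1
    rw [hq]
    have a1 : (7 : ℝ) ≤ q 0 := by exact_mod_cast q_ge 0
    have a2 : (1 : ℝ) ≤ (1 + θ) ^ (2 * q 0) := one_le_pow₀ (by linarith)
    simp [g, E]
    nlinarith
  | (i + 4) =>
    show (g θ η (i + 4)).1 < (g θ η (i + 1 + 4)).1
    rw [hq, hq]
    have a0 : q i < q (i + 1) := q_mono (by omega)
    have a1 : (q i : ℝ) < q (i + 1) := by exact_mod_cast a0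
    have a2 : (1 + θ) ^ (2 * q i) ≤ (1 + θ) ^ (2 * q (i + 1)) :=
      pow_le_pow_right₀ (by linarith) (by omega)
    exact mul_lt_mul a1 a2 (by positivity) (by positivity)

include hθ h1 h2 hη in
theorem g_small (i : ℕ) (hi : i = 0 ∨ 4 ≤ i) : ‖(g θ η i).2‖ ≤ 0.6 := by
  have t1 : (3.3529 : ℝ) < θ ^ 2 := by nlinarith
  have t2 : θ ^ 2 < 3.3533 := by nlinarith
  have h0 : ‖(E θ η 1 1 0).2‖ ^ 2 ≤ 0.36 := by
    rw [← Complex.normSq_eq_norm_sq, normSq_E hη]; push_cast; nlinarith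
  rcases hi with rfl | hi
  · show ‖(E θ η 1 1 0).2‖ ≤ 0.6
    nlinarith [norm_nonneg (E θ η 1 1 0).2]
  · obtain ⟨j, rfl⟩ : ∃ j, i = j + 4 := ⟨i - 4, by omega⟩
    have a1 : ‖(g θ η (j + 4)).2‖ = q j * (‖(E θ η 1 1 0).2‖ ^ 2) ^ q j := by
      simp only [g, Prod.snd_mul, Prod.pow_snd, norm_mul, norm_pow, pow_mul]
      congr 1
      simp [E]
    have a2 : (q j : ℝ) ≤ 2 ^ q j := by exact_mod_cast Nat.lt_two_pow_self.le
    have a3 : (‖(E θ η 1 1 0).2‖ ^ 2) ^ q j ≤ 0.36 ^ q j := pow_le_pow_left₀ (by positivity) h0 _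
    have a4 : (0.72 : ℝ) ^ q j ≤ 0.72 ^ 2 :=
      pow_le_pow_of_le_one (by norm_num) (by norm_num) (by have := q_ge j; omega)
    rw [a1]
    calc _ ≤ (2 : ℝ) ^ q j * 0.36 ^ q j := mul_le_mul a2 a3 (by positivity) (by positivity)
      _ = 0.72 ^ q j := by rw [← mul_pow]; norm_num
      _ ≤ _ := by linarith

include hθ h1 h2 hη in
theorem g_le_one (i : ℕ) : ‖(g θ η i).2‖ ≤ 1 := by
  have t1 : (3.3529 : ℝ) < θ ^ 2 := by nlinarith
  by_cases hi : i = 0 ∨ 4 ≤ i
  · linarith [g_small hθ h1 h2 hη i hi]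
  have key : (nn i : ℝ) ≤ (g θ η i).1 ∧ 0 < (g θ η i).1 := by
    have : i = 1 ∨ i = 2 ∨ i = 3 := by omega
    rcases this with rfl | rfl | rfl <;> simp [g, E, nn] <;> constructor <;> linarith
  have h := ν_g hθ hη i
  rw [ν_apply, Complex.normSq_eq_norm_sq] at h
  by_contra hc
  push Not at hc
  have : 1 < ‖(g θ η i).2‖ ^ 2 := by nlinarith
  nlinarith [key.1, key.2]

include hθ hη in
theorem in0 (k : ℕ →₀ ℕ) : ∃ x y z, (k.prod fun i e => g θ η i ^ e) = E θ η x y z := by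
  have hm : ∀ a b : ℝ × ℂ, (∃ x y z, a = E θ η x y z) → (∃ x y z, b = E θ η x y z) →
      ∃ x y z, a * b = E θ η x y z := by
    rintro _ _ ⟨x, y, z, rfl⟩ ⟨x', y', z', rfl⟩
    exact ⟨_, _, _, E_mul hθ hη _ _ _ _ _ _⟩
  refine prod_ind (fun w => ∃ x y z, w = E θ η x y z) ⟨_, _, _, (E_one θ η).symm⟩ hm _ k
    fun i _ => ?_
  match i with
  | 0 => exact ⟨_, _, _, rfl⟩
  | 1 => exact ⟨_, _, _, rfl⟩
  | 2 => exact ⟨_, _, _, rfl⟩
  | 3 => exact ⟨_, _, _, rfl⟩
  | (i + 4) =>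
    refine hm _ _ ⟨_, _, _, rfl⟩ ?_
    induction 2 * q i with
    | zero => exact ⟨_, _, _, (E_one θ η).symm⟩
    | succ e ih => rw [pow_succ]; exact hm _ _ ih ⟨_, _, _, rfl⟩

include hθ hη in
theorem in1 (k : ℕ →₀ ℕ) (hk : ∀ i, k i ≠ 0 → ¬ (i = 0 ∨ 4 ≤ i)) :
    ∃ x y z, Even (y + z) ∧ (k.prod fun i e => g θ η i ^ e) = E θ η x y z := by
  refine prod_ind (fun w => ∃ x y z, Even (y + z) ∧ w = E θ η x y z)
    ⟨_, _, _, by decide, (E_one θ η).symm⟩ ?_ _ k fun i hi => ?_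
  · rintro _ _ ⟨x, y, z, ⟨a, ha⟩, rfl⟩ ⟨x', y', z', ⟨a', ha'⟩, rfl⟩
    refine ⟨_, _, _, ?_, E_mul hθ hη _ _ _ _ _ _⟩
    obtain rfl : y = a + a - z := by omega
    obtain rfl : y' = a' + a' - z' := by omega
    exact ⟨x * a' + x' * a + ((a + a - z) * z' + z * (a' + a' - z')) + 3 * z * z' + 2 * a * a'
      - a * z' - a' * z, by ring⟩
  · have : i = 1 ∨ i = 2 ∨ i = 3 := by have := hk i hi; omega
    rcases this with rfl | rfl | rfl
    · exact ⟨_, _, _, by decide, rfl⟩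
    · exact ⟨_, _, _, by decide, rfl⟩
    · exact ⟨_, _, _, by decide, rfl⟩

include hθ hη in
theorem in2 (k : ℕ →₀ ℕ) (hk : k 2 = 0) :
    ∃ x y z, Odd x ∧ (k.prod fun i e => g θ η i ^ e) = E θ η x y z := by
  have hm : ∀ a b : ℝ × ℂ, (∃ x y z, Odd x ∧ a = E θ η x y z) →
      (∃ x y z, Odd x ∧ b = E θ η x y z) → ∃ x y z, Odd x ∧ a * b = E θ η x y z := by
    rintro _ _ ⟨x, y, z, ⟨a, ha⟩, rfl⟩ ⟨x', y', z', ⟨a', ha'⟩, rfl⟩
    refine ⟨_, _, _, ?_, E_mul hθ hη _ _ _ _ _ _⟩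
    subst ha ha'
    exact ⟨2 * a * a' + a + a' + 2 * (y * z' + z * y') - 2 * z * z', by ring⟩
  refine prod_ind (fun w => ∃ x y z, Odd x ∧ w = E θ η x y z)
    ⟨_, _, _, by decide, (E_one θ η).symm⟩ hm _ k fun i hi => ?_
  match i with
  | 0 => exact ⟨_, _, _, by decide, rfl⟩
  | 1 => exact ⟨_, _, _, by decide, rfl⟩
  | 2 => exact absurd hk hi
  | 3 => exact ⟨_, _, _, by decide, rfl⟩
  | (i + 4) =>
    refine hm _ _ ⟨_, _, _, ?_, rfl⟩ ?_
    · have := (q_prime i).odd_of_ne_two (by have := q_ge i; omega)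
      exact_mod_cast this
    · induction 2 * q i with
      | zero => exact ⟨_, _, _, by decide, (E_one θ η).symm⟩
      | succ e ih => rw [pow_succ]; exact hm _ _ ih ⟨_, _, _, by decide, rfl⟩

include hθ h1 h2 hη in
theorem two_le {k l : ℕ →₀ ℕ}
    (h : (k.prod fun i e => g θ η i ^ e) = l.prod fun i e => g θ η i ^ e) : l 2 ≤ k 2 := by
  by_contra hlt
  push Not at hlt
  obtain ⟨t, ht⟩ : ∃ t, l 2 = k 2 + 1 + t := ⟨l 2 - k 2 - 1, by omega⟩
  rw [← Finsupp.mul_prod_erase' k 2 _ (by simp), ← Finsupp.mul_prod_erase' l 2 _ (by simp), ht,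
    add_assoc, pow_add, mul_assoc] at h
  have hu : IsUnit (g θ η 2 ^ k 2) := by
    refine IsUnit.pow _ ?_
    have h3 := ν_g hθ hη 2
    rw [ν_apply] at h3
    have h4 : (g θ η 2).1 * Complex.normSq (g θ η 2).2 ≠ 0 := by rw [h3]; simp [nn]
    rw [Prod.isUnit_iff]
    refine ⟨(left_ne_zero_of_mul h4).isUnit, IsUnit.mk0 _ ?_⟩
    simpa using right_ne_zero_of_mul h4
  have h5 := hu.mul_left_cancel h
  obtain ⟨x, y, z, hx, hk⟩ := in2 hθ hη (k.erase 2) (by simp)
  obtain ⟨x', y', z', hl⟩ := in0 hθ hη (l.erase 2 + Finsupp.single 2 t)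
  rw [Finsupp.prod_add_index' (by simp) (by intros; rw [pow_add]),
    Finsupp.prod_single_index (by simp)] at hl
  rw [hk, pow_add, pow_one, mul_assoc, mul_comm (_ ^ t), hl] at h5
  simp only [g] at h5
  rw [E_mul hθ hη] at h5
  have h6 := E_inj h1 h2 hη h5
  obtain ⟨a, rfl⟩ := hx
  omega

include hθ h1 h2 hη in
theorem indep {k l : ℕ →₀ ℕ}
    (h : (k.prod fun i e => g θ η i ^ e) = l.prod fun i e => g θ η i ^ e) : k = l := by
  have e2 : k 2 = l 2 := le_antisymm (two_le hθ h1 h2 hη h.symm) (two_le hθ h1 h2 hη h)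
  have hν : ∀ m : ℕ →₀ ℕ, ν (m.prod fun i e => g θ η i ^ e) =
      ((m.prod fun i e => nn i ^ e : ℕ) : ℝ) := by
    intro m
    rw [map_finsuppProd]
    simp only [map_pow, ν_g hθ hη, Finsupp.prod]
    push_cast; rfl
  have h3 : (k.prod fun i e => nn i ^ e) = l.prod fun i e => nn i ^ e := by
    have := congrArg ν h
    rw [hν, hν] at this
    exact_mod_cast this
  have h4 := norm_eq h3 e2
  have h5 : k.erase 0 = l.erase 0 := by
    ext i
    by_cases hi : i = 0
    · simp [hi]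
    · simp [Finsupp.erase_ne hi, h4 i hi]
  rw [← Finsupp.mul_prod_erase' k 0 _ (by simp), ← Finsupp.mul_prod_erase' l 0 _ (by simp),
    h5] at h
  have h6 := congrArg Prod.fst h
  obtain ⟨g0, -, gm⟩ := g_fst (η := η) h1 h2
  have h7 : 0 < ((l.erase 0).prod fun i e => g θ η i ^ e).1 :=
    prod_ind (fun w : ℝ × ℂ => 0 < w.1) (by simp) (fun a b ha hb => mul_pos ha hb) _ _
      fun i _ => lt_of_lt_of_le (by linarith) (gm.monotone (Nat.zero_le i))
  simp only [Prod.fst_mul, Prod.pow_fst] at h6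
  have h8 := pow_right_injective₀ (by linarith) (by linarith) (mul_right_cancel₀ h7.ne' h6)
  ext i
  by_cases hi : i = 0
  · rw [hi]; exact h8
  · exact h4 i hi

include hθ h1 h2 hη in
theorem sep {k l : ℕ →₀ ℕ} (hkl : k ≠ l) :
    1 ≤ |(k.prod fun i e => g θ η i ^ e).1 - (l.prod fun i e => g θ η i ^ e).1| := by
  have le1 : ∀ m : ℕ →₀ ℕ, ‖(m.prod fun i e => g θ η i ^ e).2‖ ≤ 1 := fun m =>
    prod_ind (fun w : ℝ × ℂ => ‖w.2‖ ≤ 1) (by simp) (fun a b ha hb => by
      simp only [Prod.snd_mul, norm_mul]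
      exact mul_le_one₀ ha (norm_nonneg _) hb) _ _ fun i _ => g_le_one hθ h1 h2 hη i
  have le2 : ∀ (m : ℕ →₀ ℕ) (i : ℕ), m i ≠ 0 → (i = 0 ∨ 4 ≤ i) →
      ‖(m.prod fun i e => g θ η i ^ e).2‖ ≤ 0.6 := by
    intro m i hi hi2
    obtain ⟨t, ht⟩ := Nat.exists_eq_succ_of_ne_zero hi
    rw [← Finsupp.mul_prod_erase' m i _ (by simp), ht, pow_succ]
    simp only [Prod.snd_mul, norm_mul, Prod.pow_snd, norm_pow]
    have a1 := g_small hθ h1 h2 hη i hi2
    have a2 : ‖(g θ η i).2‖ ^ t ≤ 1 := pow_le_one₀ (norm_nonneg _) (by linarith)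
    have a3 := mul_le_mul (mul_le_mul a2 a1 (norm_nonneg _) zero_le_one) (le1 (m.erase i))
      (norm_nonneg _) (by norm_num)
    linarith
  by_contra hc
  push Not at hc
  have key : ∀ x y z x' y' z', (k.prod fun i e => g θ η i ^ e) = E θ η x y z →
      (l.prod fun i e => g θ η i ^ e) = E θ η x' y' z' → Odd (y - y' + (z - z')) ∧
      1.6 < ‖(k.prod fun i e => g θ η i ^ e).2‖ + ‖(l.prod fun i e => g θ η i ^ e).2‖ := by
    intro x y z x' y' z' hk hl
    have hd := E_sub θ η x y z x' y' z'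
    rw [← hk, ← hl] at hd
    have hn := norm_sub_le (k.prod fun i e => g θ η i ^ e).2 (l.prod fun i e => g θ η i ^ e).2
    rcases small h1 h2 hη (x - x') (y - y') (z - z') (by rw [← hd]; exact hc)
      (by rw [← hd]; have := le1 k; have := le1 l; simp only [Prod.snd_sub]; linarith)
      with ⟨a, b, c⟩ | ⟨a, b⟩
    · exfalso
      apply hkl
      apply indep hθ h1 h2 hη
      rw [hk, hl, show x = x' by omega, show y = y' by omega, show z = z' by omega]
    · rw [← hd] at b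
      exact ⟨a, lt_of_lt_of_le b hn⟩
  obtain ⟨x, y, z, hk⟩ := in0 hθ hη k
  obtain ⟨x', y', z', hl⟩ := in0 hθ hη l
  have k1 := (key _ _ _ _ _ _ hk hl).2
  obtain ⟨x, y, z, ⟨a, ha⟩, hk⟩ := in1 hθ hη k fun i hi hi2 => by
    have := le2 k i hi hi2; have := le1 l; linarith
  obtain ⟨x', y', z', ⟨a', ha'⟩, hl⟩ := in1 hθ hη l fun i hi hi2 => by
    have := le2 l i hi hi2; have := le1 k; linarith
  obtain ⟨b, hb⟩ := (key _ _ _ _ _ _ hk hl).1
  omega

end

theorem main : ∃ a : ℕ → ℝ, StrictMono a ∧ 1 < a 0 ∧ (∀ k l : ℕ →₀ ℕ, k ≠ l →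
    1 ≤ |k.prod (fun i e => a i ^ e) - l.prod (fun i e => a i ^ e)|) ∧ a 3 < 6.9 := by
  obtain ⟨θ, hθ, h1, h2⟩ := exists_theta
  have hη : √((3 * θ ^ 2 + 2 * θ - 13) / 4) ^ 2 = (3 * θ ^ 2 + 2 * θ - 13) / 4 :=
    Real.sq_sqrt (by nlinarith)
  set η := √((3 * θ ^ 2 + 2 * θ - 13) / 4)
  obtain ⟨g0, g3, gm⟩ := g_fst (η := η) h1 h2
  refine ⟨fun i => (g θ η i).1, gm, by linarith, fun k l hkl => ?_, g3⟩
  have : ∀ m : ℕ →₀ ℕ, (m.prod fun i e => (g θ η i).1 ^ e) = (m.prod fun i e => g θ η i ^ e).1 := by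
    intro m
    simp [Finsupp.prod, Prod.fst_prod]
  rw [this, this]
  exact sep hθ h1 h2 hη hkl

end Pool.Agent.H51.Beurling
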