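import Mathlib

namespace Pool.Agent.H51.Cube

/-- the maximal number of hypercube edges spanned by `n` points -/
def E : ℕ → ℕ
  | 0 => 0
  | 1 => 0
  | (n + 2) => E ((n + 2) / 2) + E ((n + 3) / 2) + (n + 2) / 2
decreasing_by all_goals omega

theorem E_zero : E 0 = 0 := by rw [E]
theorem E_one : E 1 = 0 := by rw [E]

theorem E_rec (n : ℕ) : E n = E (n / 2) + E ((n + 1) / 2) + n / 2 := by
  match n with
  | 0 => simp [E_zero]
  | 1 => simp [E_zero, E_one]
  | (n + 2) => rw [E]

theorem E_even (m : ℕ) : E (2 * m) = 2 * E m + m := by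
  rw [E_rec]
  have h1 : 2 * m / 2 = m := by omega
  have h2 : (2 * m + 1) / 2 = m := by omega
  rw [h1, h2]; ring

theorem E_odd (m : ℕ) : E (2 * m + 1) = E m + E (m + 1) + m := by
  rw [E_rec]
  have h1 : (2 * m + 1) / 2 = m := by omega
  have h2 : (2 * m + 1 + 1) / 2 = m + 1 := by omega
  rw [h1, h2]

theorem E_key : ∀ (s a b : ℕ), a + b = s → E a + E b + min a b ≤ E (a + b) := by
  intro s
  induction s using Nat.strong_induction_on with
  | _ s ih =>
    intro a b hs
    rcases Nat.eq_zero_or_pos b with hb | hb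
    · subst hb; simp [E_zero]
    rcases Nat.eq_zero_or_pos a with ha | ha
    · subst ha; simp [E_zero]
    obtain ⟨a', rfl | rfl⟩ := Nat.even_or_odd' a
    · obtain ⟨b', rfl | rfl⟩ := Nat.even_or_odd' b
      · have h1 := ih (a' + b') (by omega) a' b' rfl
        have e : 2 * a' + 2 * b' = 2 * (a' + b') := by ring
        rw [e, E_even, E_even, E_even]
        omega
      · have h1 := ih (a' + b') (by omega) a' b' rfl
        have h2 := ih (a' + (b' + 1)) (by omega) a' (b' + 1) rfl
        have e : 2 * a' + (2 * b' + 1) = 2 * (a' + b') + 1 := by ring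
        rw [e, E_even, E_odd, E_odd]
        rw [← add_assoc] at h2
        omega
    · obtain ⟨b', rfl | rfl⟩ := Nat.even_or_odd' b
      · have h1 := ih (a' + b') (by omega) a' b' rfl
        have h2 := ih (a' + 1 + b') (by omega) (a' + 1) b' rfl
        have e : 2 * a' + 1 + 2 * b' = 2 * (a' + b') + 1 := by ring
        have e2 : a' + 1 + b' = a' + b' + 1 := by ring
        rw [e, E_even, E_odd, E_odd]
        rw [e2] at h2
        omega
      · have h1 := ih (a' + (b' + 1)) (by omega) a' (b' + 1) rfl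
        have h2 := ih (a' + 1 + b') (by omega) (a' + 1) b' rfl
        have e : 2 * a' + 1 + (2 * b' + 1) = 2 * (a' + b' + 1) := by ring
        have e2 : a' + 1 + b' = a' + b' + 1 := by ring
        rw [e, E_even, E_odd, E_odd]
        rw [e2] at h2
        rw [← add_assoc] at h1
        omega

theorem E_add (a b : ℕ) : E a + E b + min a b ≤ E (a + b) := E_key _ a b rfl

theorem E_pow (d : ℕ) : 2 * E (2 ^ d) = d * 2 ^ d := by
  induction d with
  | zero => simp [E_one]
  | succ d ih =>
    rw [pow_succ', E_even]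
    nlinarith [ih]

theorem E_compl (d : ℕ) : ∀ a p : ℕ, a + p = 2 ^ d → E a + d * p = E (2 ^ d) + E p := by
  induction d with
  | zero =>
    intro a p h
    have : (a = 0 ∧ p = 1) ∨ (a = 1 ∧ p = 0) := by simp at h; omega
    rcases this with ⟨rfl, rfl⟩ | ⟨rfl, rfl⟩ <;> simp [E_zero, E_one]
  | succ d ih =>
    intro a p h
    rw [pow_succ'] at h ⊢
    obtain ⟨a', rfl | rfl⟩ := Nat.even_or_odd' a
    · obtain ⟨p', rfl | rfl⟩ := Nat.even_or_odd' p
      · have h1 := ih a' p' (by omega)
        rw [E_even, E_even, E_even]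
        have : a' + p' = 2 ^ d := by omega
        nlinarith
      · omega
    · obtain ⟨p', rfl | rfl⟩ := Nat.even_or_odd' p
      · omega
      · have h1 := ih a' (p' + 1) (by omega)
        have h2 := ih (a' + 1) p' (by omega)
        rw [E_odd, E_odd, E_even]
        have : a' + p' + 1 = 2 ^ d := by omega
        nlinarith

/-- edge boundary of an initial segment -/
def T (m p : ℕ) : ℤ := (m : ℤ) * p - 2 * (E p : ℤ)

theorem T_succ (m p : ℕ) : T (m + 1) p = T m p + p := by
  unfold T; push_cast; ring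

theorem T_symm (m a p : ℕ) (h : a + p = 2 ^ m) : T m a = T m p := by
  have h1 := E_compl m a p h
  have h2 := E_compl m p a (by omega)
  unfold T
  zify at h1 h2
  linarith

theorem T_nonneg (m : ℕ) : ∀ p, p ≤ 2 ^ m → 0 ≤ T m p := by
  induction m with
  | zero =>
    intro p hp
    have : p = 0 ∨ p = 1 := by simp at hp; omega
    rcases this with rfl | rfl <;> simp [T, E_zero, E_one]
  | succ m ih =>
    intro p hp
    rw [pow_succ'] at hp
    by_cases h : p ≤ 2 ^ m
    · rw [T_succ]; have := ih p h; positivity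
    · rw [T_symm (m + 1) p (2 * 2 ^ m - p) (by rw [pow_succ']; omega), T_succ]
      have := ih (2 * 2 ^ m - p) (by omega); positivity

theorem T_min (m a p : ℕ) (h : a + p = 2 ^ m) (hp : p ≤ a) : (p : ℤ) ≤ T m p := by
  match m with
  | 0 =>
    have : p = 0 := by simp at h; omega
    subst this; simp [T, E_zero]
  | m + 1 =>
    rw [T_succ]
    rw [pow_succ'] at h
    have := T_nonneg m p (by omega)
    linarith

theorem T_gap (j : ℕ) : ∀ m p : ℕ, 2 ^ m ≤ 2 ^ (j + 1) * p →
    2 ^ (j + 1) * p + 2 ^ m ≤ 2 ^ (j + 1) * 2 ^ m →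
    ((j + 1 : ℕ) : ℤ) * 2 ^ m ≤ 2 ^ (j + 1) * T m p := by
  induction j with
  | zero =>
    intro m p h1 h2
    simp only [zero_add, pow_one] at h1 h2 ⊢
    have h3 : p + p = 2 ^ m := by omega
    have h4 := T_min m p p h3 le_rfl
    have h5 : (p : ℤ) + p = 2 ^ m := by exact_mod_cast h3
    push_cast
    linarith
  | succ j ih =>
    have main : ∀ m p : ℕ, 2 * p ≤ 2 ^ m → 2 ^ m ≤ 2 ^ (j + 1 + 1) * p →
        ((j + 1 + 1 : ℕ) : ℤ) * 2 ^ m ≤ 2 ^ (j + 1 + 1) * T m p := by
      intro m p hp h1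
      match m with
      | 0 =>
        have : p = 0 := by simp at hp; omega
        subst this; simp at h1
      | m + 1 =>
        rw [T_succ]
        rw [pow_succ' 2 m] at hp h1
        rw [pow_succ' 2 (j + 1)] at h1
        have h1' : 2 ^ m ≤ 2 ^ (j + 1) * p := by nlinarith
        have h1z : (2 : ℤ) ^ m ≤ 2 ^ (j + 1) * p := by exact_mod_cast h1'
        by_cases h2 : 2 ^ (j + 1) * p + 2 ^ m ≤ 2 ^ (j + 1) * 2 ^ m
        · have h3 := ih m p h1' h2
          rw [pow_succ' (2 : ℤ) m, pow_succ' (2 : ℤ) (j + 1)]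
          push_cast at h3 ⊢
          nlinarith
        · have hq : (2 ^ m - p) + p = 2 ^ m := by omega
          have hK : 2 ≤ 2 ^ (j + 1) := by
            calc 2 = 2 ^ 1 := by norm_num
              _ ≤ 2 ^ (j + 1) := Nat.pow_le_pow_right (by norm_num) (by omega)
          have hqp : 2 ^ m - p ≤ p := by
            by_contra hc
            apply h2
            have h6 : p + 1 ≤ 2 ^ m - p := by omega
            have h7 : 2 * p ≤ 2 ^ m := by omega
            obtain ⟨K, hKe⟩ : ∃ K, 2 ^ (j + 1) = K := ⟨_, rfl⟩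
            obtain ⟨M, hMe⟩ : ∃ M, 2 ^ m = M := ⟨_, rfl⟩
            rw [hKe] at hK ⊢
            rw [hMe] at h7 ⊢
            nlinarith
          have h4 := T_min m p (2 ^ m - p) (by omega) hqp
          rw [T_symm m (2 ^ m - p) p hq] at h4
          have h5 : ((2 ^ m - p : ℕ) : ℤ) + p = 2 ^ m := by exact_mod_cast hq
          have h6 : j + 1 + 1 ≤ 2 ^ (j + 1) := Nat.lt_two_pow_self
          have h6z : ((j + 1 + 1 : ℕ) : ℤ) ≤ 2 ^ (j + 1) := by exact_mod_cast h6
          have h7 : (2 : ℤ) ^ m ≤ T m p + p := by linarith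
          rw [pow_succ' (2 : ℤ) m, pow_succ' (2 : ℤ) (j + 1)]
          have h8 : (0 : ℤ) < 2 ^ m := by positivity
          have h9 : (0 : ℤ) < 2 ^ (j + 1) := by positivity
          nlinarith
    intro m p h1 h2
    by_cases hp : 2 * p ≤ 2 ^ m
    · exact main m p hp h1
    · have hK : 0 < 2 ^ (j + 1 + 1) := by positivity
      have hpm : p ≤ 2 ^ m := by
        by_contra hc
        have : 2 ^ (j + 1 + 1) * 2 ^ m < 2 ^ (j + 1 + 1) * p :=
          Nat.mul_lt_mul_of_pos_left (by omega) hK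
        have h0 : 0 < 2 ^ m := by positivity
        omega
      have hq : p + (2 ^ m - p) = 2 ^ m := by omega
      rw [T_symm m p (2 ^ m - p) hq]
      apply main m (2 ^ m - p) (by omega)
      have : 2 ^ (j + 1 + 1) * p + 2 ^ (j + 1 + 1) * (2 ^ m - p) = 2 ^ (j + 1 + 1) * 2 ^ m := by
        rw [← mul_add, hq]
      omega

/-- The gap lemma: a nearly optimal set admits no splitting of intermediate size. -/
theorem gap (j d e a p : ℕ) (hj : 1 ≤ j) (hap : a + p = 2 ^ d) (he : e ≤ E a + E p + p)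
    (hH : 2 ^ j * (d * 2 ^ d) < j * 2 ^ d + 2 ^ j * (2 * e)) :
    2 ^ (j + 1) * p < 2 ^ d ∨ 2 ^ j * 2 ^ d < 2 ^ (j + 1) * p + 2 ^ d := by
  by_contra hc
  push Not at hc
  obtain ⟨h1, h2⟩ := hc
  obtain ⟨j, rfl⟩ : ∃ k, j = k + 1 := ⟨j - 1, by omega⟩
  match d with
  | 0 =>
    simp only [pow_zero, mul_one] at h1 h2 hap
    have hp : p = 1 := by
      rcases Nat.eq_zero_or_pos p with h | h
      · subst h; simp at h1
      · omega
    subst hp
    rw [pow_succ' 2 (j + 1)] at h2
    omega
  | m + 1 =>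
    have hc := E_compl (m + 1) a p hap
    have hp := E_pow (m + 1)
    rw [pow_succ' 2 m] at h1 h2
    rw [pow_succ' 2 (j + 1)] at h1 h2
    have g := T_gap j m p (by nlinarith) (by nlinarith)
    unfold T at g
    have hM : (2 : ℕ) ^ (m + 1) = 2 * 2 ^ m := pow_succ' 2 m
    obtain ⟨EN, hEN⟩ : ∃ x, E (2 ^ (m + 1)) = x := ⟨_, rfl⟩
    rw [hEN] at hc hp
    rw [hM] at hp hH
    zify at hc hp hH he
    push_cast at g
    have hK : (0 : ℤ) < 2 ^ (j + 1) := by positivity
    have h3 : ((m : ℤ) + 1) * (2 * 2 ^ m) - 2 * e ≥ 2 * ((m : ℤ) * p - 2 * (E p : ℤ)) := by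
      nlinarith
    nlinarith [mul_le_mul_of_nonneg_left h3 hK.le]

end Pool.Agent.H51.Cube
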