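import Mathlib
import Pool.Agent.H51.CubeA

namespace Pool.Agent.H51.Cube
open Finset

variable {α : Type*} [DecidableEq α]

/-- upper endpoints of the edges of direction `k` inside `A` -/
def W (k : α) (A : Finset (Finset α)) : Finset (Finset α) :=
  A.filter (fun x => k ∈ x ∧ x.erase k ∈ A)

/-- number of points of `A` whose `k`-th coordinate is one -/
def cnt (k : α) (A : Finset (Finset α)) : ℕ := (A.filter (fun x => k ∈ x)).card

theorem mem_W {k : α} {A : Finset (Finset α)} {x : Finset α} :
    x ∈ W k A ↔ x ∈ A ∧ k ∈ x ∧ x.erase k ∈ A := by simp [W]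

theorem W_le_cnt (k : α) (A : Finset (Finset α)) : (W k A).card ≤ cnt k A := by
  apply card_le_card
  intro x hx
  rw [mem_W] at hx
  simp [hx.1, hx.2.1]

theorem W_le_co (k : α) (A : Finset (Finset α)) :
    (W k A).card ≤ (A.filter (fun x => k ∉ x)).card := by
  apply card_le_card_of_injOn (fun x => x.erase k)
  · intro x hx
    have hx' := mem_W.1 (mem_coe.1 hx)
    simp [hx'.2.2]
  · intro x hx y hy hxy
    have hx' := mem_W.1 (mem_coe.1 hx)
    have hy' := mem_W.1 (mem_coe.1 hy)
    have : insert k (x.erase k) = insert k (y.erase k) := by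
      simp only at hxy; rw [hxy]
    rwa [insert_erase hx'.2.1, insert_erase hy'.2.1] at this

theorem cnt_add_co (k : α) (A : Finset (Finset α)) :
    cnt k A + (A.filter (fun x => k ∉ x)).card = A.card := by
  unfold cnt
  exact card_filter_add_card_filter_not (s := A) (fun x => k ∈ x)

theorem W_split {i k : α} (h : k ≠ i) (A : Finset (Finset α)) :
    (W k A).card = (W k (A.filter (fun x => i ∉ x))).card + (W k (A.filter (fun x => i ∈ x))).card := by
  have h1 : W k (A.filter (fun x => i ∉ x)) = (W k A).filter (fun x => i ∉ x) := by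
    ext x
    simp only [mem_W, mem_filter, mem_erase]
    tauto
  have h2 : W k (A.filter (fun x => i ∈ x)) = (W k A).filter (fun x => i ∈ x) := by
    ext x
    simp only [mem_W, mem_filter, mem_erase]
    have := h.symm
    tauto
  rw [h1, h2, add_comm]
  exact (card_filter_add_card_filter_not (s := W k A) (fun x => i ∈ x)).symm

theorem W_self0 (i : α) (A : Finset (Finset α)) : W i (A.filter (fun x => i ∉ x)) = ∅ := by
  ext x
  simp only [mem_W, mem_filter, notMem_empty]
  tauto

theorem W_self1 (i : α) (A : Finset (Finset α)) : W i (A.filter (fun x => i ∈ x)) = ∅ := by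
  ext x
  simp only [mem_W, mem_filter, notMem_empty, mem_erase]
  tauto

variable [Fintype α]

/-- number of edges inside `A` -/
def ed (A : Finset (Finset α)) : ℕ := ∑ k, (W k A).card

theorem ed_split (i : α) (A : Finset (Finset α)) :
    ed A = ed (A.filter (fun x => i ∉ x)) + ed (A.filter (fun x => i ∈ x)) + (W i A).card := by
  unfold ed
  rw [← sum_erase_add _ _ (mem_univ i), ← sum_erase_add _ _ (mem_univ i),
    ← sum_erase_add _ (fun k => (W k (A.filter (fun x => i ∈ x))).card) (mem_univ i),
    W_self0, W_self1, card_empty, add_zero, add_zero, ← sum_add_distrib]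
  congr 1
  apply sum_congr rfl
  intro k hk
  exact W_split (ne_of_mem_erase hk) A

theorem ed_le_E : ∀ (s : ℕ) (A : Finset (Finset α)), A.card = s → ed A ≤ E s := by
  intro s
  induction s using Nat.strong_induction_on with
  | _ s ih =>
    intro A hA
    by_cases h : ∃ i, 0 < cnt i A ∧ 0 < (A.filter (fun x => i ∉ x)).card
    · obtain ⟨i, h1, h2⟩ := h
      have h3 := cnt_add_co i A
      have h4 := ih _ (by omega) (A.filter (fun x => i ∉ x)) rfl
      have h5 := ih (cnt i A) (by omega) (A.filter (fun x => i ∈ x)) rfl
      have h6 := E_add (cnt i A) (A.filter (fun x => i ∉ x)).card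
      have h7 := W_le_cnt i A
      have h8 := W_le_co i A
      rw [ed_split i A]
      rw [h3, hA] at h6
      omega
    · push Not at h
      have : ed A = 0 := by
        unfold ed
        apply sum_eq_zero
        intro k _
        have h7 := W_le_cnt k A
        have h8 := W_le_co k A
        have := h k
        omega
      omega

theorem ed_le (A : Finset (Finset α)) : ed A ≤ E A.card := ed_le_E _ A rfl

theorem ed_le_split (i : α) (A : Finset (Finset α)) :
    ed A ≤ E (A.filter (fun x => i ∉ x)).card + E (cnt i A) + (W i A).card := by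
  rw [ed_split i A]
  have h1 := ed_le (A.filter (fun x => i ∉ x))
  have h2 := ed_le (A.filter (fun x => i ∈ x))
  unfold cnt
  omega

open Down in
theorem cnt_down_ne {i k : α} (h : k ≠ i) (A : Finset (Finset α)) :
    cnt k (compression i A) = cnt k A := by
  unfold cnt
  have : (compression i A).filter (fun x => k ∈ x) = compression i (A.filter (fun x => k ∈ x)) := by
    ext x
    simp only [mem_filter, mem_compression, mem_erase, mem_insert]
    tauto
  rw [this, card_compression]

open Down in
theorem cnt_down_self (i : α) (A : Finset (Finset α)) :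
    cnt i (compression i A) = (W i A).card := by
  unfold cnt
  congr 1
  ext x
  simp only [mem_filter, mem_compression, mem_W]
  constructor
  · rintro ⟨h | h, hi⟩
    · exact ⟨h.1, hi, h.2⟩
    · rw [insert_eq_of_mem hi] at h
      exact absurd h.2 h.1
  · rintro ⟨h1, h2, h3⟩
    exact ⟨Or.inl ⟨h1, h3⟩, h2⟩

open Down in
theorem ed_down (i : α) (A : Finset (Finset α)) : ed A ≤ ed (compression i A) := by
  unfold ed
  apply sum_le_sum
  intro k _
  by_cases h : k = i
  · subst h
    apply card_le_card
    intro x hx
    rw [mem_W] at hx ⊢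
    exact ⟨mem_compression.2 (Or.inl ⟨hx.1, hx.2.2⟩), hx.2.1, erase_mem_compression hx.1⟩
  · rw [← card_compression i (W k A)]
    apply card_le_card
    intro x hx
    rw [mem_compression] at hx
    rw [mem_W]
    rcases hx with ⟨h1, h2⟩ | ⟨h1, h2⟩
    · rw [mem_W] at h1 h2
      refine ⟨mem_compression.2 (Or.inl ⟨h1.1, h2.1⟩), h1.2.1,
        mem_compression.2 (Or.inl ⟨h1.2.2, ?_⟩)⟩
      rw [erase_right_comm]
      exact h2.2.2
    · have hi : i ∉ x := by
        intro hi
        rw [insert_eq_of_mem hi] at h2
        exact h1 h2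
      rw [mem_W] at h2
      have h3 := erase_mem_compression (a := i) h2.1
      have h4 := erase_mem_compression (a := i) h2.2.2
      rw [erase_insert hi] at h3
      rw [erase_right_comm, erase_insert hi] at h4
      refine ⟨h3, ?_, h4⟩
      rcases mem_insert.1 h2.2.1 with h5 | h5
      · exact absurd h5 h
      · exact h5

/-- nearly optimal sets whose directions in `B` are balanced -/
def Good (d : ℕ) (B : Finset α) (A : Finset (Finset α)) : Prop :=
  A.card = 2 ^ d ∧ 2 ^ 2 * (d * 2 ^ d) < 2 * 2 ^ d + 2 ^ 2 * (2 * ed A) ∧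
    ∀ b ∈ B, 3 * 2 ^ d < 8 * cnt b A ∧ 8 * cnt b A < 5 * 2 ^ d

theorem gap_cnt {d : ℕ} {A : Finset (Finset α)} (hA : A.card = 2 ^ d)
    (hH : 2 ^ 2 * (d * 2 ^ d) < 2 * 2 ^ d + 2 ^ 2 * (2 * ed A)) (i : α) :
    8 * cnt i A < 2 ^ d ∨ 3 * 2 ^ d < 8 * cnt i A := by
  have h1 := ed_le_split i A
  have h2 := W_le_cnt i A
  have h3 := cnt_add_co i A
  have := gap 2 d (ed A) (A.filter (fun x => i ∉ x)).card (cnt i A) (by norm_num) (by omega)
    (by omega) hH
  omega

open Down in
theorem good_down {d : ℕ} {B : Finset α} {A : Finset (Finset α)} (h : Good d B A) (i : α) :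
    Good d B (compression i A) := by
  obtain ⟨h1, h2, h3⟩ := h
  have hc : (compression i A).card = 2 ^ d := by rw [card_compression, h1]
  have he := ed_down i A
  have hH : 2 ^ 2 * (d * 2 ^ d) < 2 * 2 ^ d + 2 ^ 2 * (2 * ed (compression i A)) := by omega
  refine ⟨hc, hH, ?_⟩
  intro b hb
  by_cases hbi : b = i
  · subst hbi
    have g := gap_cnt hc hH b
    rw [cnt_down_self] at g ⊢
    have k1 := ed_le_split b A
    have k2 := W_le_cnt b A
    have k3 := cnt_add_co b A
    have k4 := E_add (cnt b A) (A.filter (fun x => b ∉ x)).card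
    have k5 := E_pow d
    rw [k3, h1] at k4
    have k6 := h3 b hb
    omega
  · rw [cnt_down_ne hbi]
    exact h3 b hb

/-- down-sets -/
def Dn (A : Finset (Finset α)) : Prop := ∀ x ∈ A, ∀ k, x.erase k ∈ A

open Down in
theorem exists_down {d : ℕ} {B : Finset α} : ∀ (s : ℕ) (A : Finset (Finset α)), Good d B A →
    ∑ k, cnt k A = s → ∃ A', Good d B A' ∧ Dn A' := by
  intro s
  induction s using Nat.strong_induction_on with
  | _ s ih =>
    intro A hA hs
    by_cases h : Dn A
    · exact ⟨A, hA, h⟩
    · unfold Dn at h
      push Not at h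
      obtain ⟨x, hx, i, hi⟩ := h
      refine ih _ ?_ (compression i A) (good_down hA i) rfl
      rw [← hs]
      apply sum_lt_sum
      · intro k _
        by_cases hk : k = i
        · subst hk; rw [cnt_down_self]; exact W_le_cnt _ _
        · rw [cnt_down_ne hk]
      · refine ⟨i, mem_univ _, ?_⟩
        rw [cnt_down_self]
        apply card_lt_card
        refine ⟨?_, ?_⟩
        · intro y hy
          rw [mem_W] at hy
          simp [hy.1, hy.2.1]
        · intro hsub
          have hix : i ∈ x := by
            by_contra hc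
            rw [erase_eq_of_notMem hc] at hi
            exact hi hx
          have := hsub (mem_filter.2 ⟨hx, hix⟩)
          exact hi (mem_W.1 this).2.2

end Pool.Agent.H51.Cube
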