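import Mathlib
import Pool.Agent.H51.CubeB

namespace Pool.Agent.H51.Cube
open Finset

variable {α : Type*} [DecidableEq α]

theorem Dn.subset {A : Finset (Finset α)} (h : Dn A) :
    ∀ (s : ℕ) (x y : Finset α), (x \ y).card = s → x ∈ A → y ⊆ x → y ∈ A := by
  intro s
  induction s with
  | zero =>
    intro x y hs hx hy
    have : x ⊆ y := sdiff_eq_empty_iff_subset.1 (card_eq_zero.1 hs)
    rwa [← Subset.antisymm this hy]
  | succ s ih =>
    intro x y hs hx hy
    obtain ⟨k, hk⟩ : (x \ y).Nonempty := card_pos.1 (by omega)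
    rw [mem_sdiff] at hk
    refine ih (x.erase k) y ?_ (h x hx k) ?_
    · have : x.erase k \ y = (x \ y).erase k := by
        ext z; simp only [mem_sdiff, mem_erase]; tauto
      rw [this, card_erase_of_mem (mem_sdiff.2 hk)]
      omega
    · intro z hz
      exact mem_erase.2 ⟨fun e => hk.2 (e ▸ hz), hy hz⟩

theorem Dn.W_eq {A : Finset (Finset α)} (h : Dn A) (k : α) : (W k A).card = cnt k A := by
  unfold cnt
  congr 1
  ext x
  simp only [mem_W, mem_filter]
  exact ⟨fun hx => ⟨hx.1, hx.2.1⟩, fun hx => ⟨hx.1, hx.2, h x hx.1 k⟩⟩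

theorem Dn.half {A : Finset (Finset α)} (h : Dn A) (k : α) : 2 * cnt k A ≤ A.card := by
  have h1 := W_le_co k A
  have h2 := cnt_add_co k A
  rw [h.W_eq] at h1
  omega

/-- the points to be moved -/
def Mv (j : α) (U : Finset α) (A : Finset (Finset α)) : Finset (Finset α) :=
  A.filter (fun y => j ∈ y ∧ Disjoint y U ∧ y.erase j ∪ U ∉ A)

/-- the compression replacing `j` by `U` -/
def Cp (j : α) (U : Finset α) (A : Finset (Finset α)) : Finset (Finset α) :=
  (A \ Mv j U A) ∪ (Mv j U A).image (fun y => y.erase j ∪ U)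

/-- closedness under replacing `j` by `U` -/
def Cl (j : α) (U : Finset α) (A : Finset (Finset α)) : Prop :=
  ∀ y ∈ A, j ∈ y → Disjoint y U → y.erase j ∪ U ∈ A

theorem mem_Mv {j : α} {U : Finset α} {A : Finset (Finset α)} {y : Finset α} :
    y ∈ Mv j U A ↔ y ∈ A ∧ j ∈ y ∧ Disjoint y U ∧ y.erase j ∪ U ∉ A := by simp [Mv]

theorem Mv_inj (j : α) (U : Finset α) (A : Finset (Finset α)) :
    Set.InjOn (fun y : Finset α => y.erase j ∪ U) (Mv j U A : Set (Finset α)) := by
  intro x hx y hy hxy
  have hx' := mem_Mv.1 (mem_coe.1 hx)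
  have hy' := mem_Mv.1 (mem_coe.1 hy)
  simp only at hxy
  ext z
  have hz := Finset.ext_iff.1 hxy z
  simp only [mem_union, mem_erase] at hz
  have h1 : z ∈ x → z ∉ U := fun h => disjoint_left.1 hx'.2.2.1 h
  have h2 : z ∈ y → z ∉ U := fun h => disjoint_left.1 hy'.2.2.1 h
  by_cases hzj : z = j
  · subst hzj; exact ⟨fun _ => hy'.2.1, fun _ => hx'.2.1⟩
  · tauto

theorem filter_Cp (j : α) (U : Finset α) (A : Finset (Finset α)) (q : Finset α → Prop)
    [DecidablePred q] :
    ((Cp j U A).filter q).card =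
      ((A \ Mv j U A).filter q).card + ((Mv j U A).filter (fun y => q (y.erase j ∪ U))).card := by
  unfold Cp
  rw [filter_union, card_union_of_disjoint, filter_image, card_image_of_injOn]
  · exact (Mv_inj j U A).mono (coe_subset.2 (filter_subset _ _))
  · rw [disjoint_left]
    intro x hx hx'
    rw [mem_filter, mem_sdiff] at hx
    rw [mem_filter, mem_image] at hx'
    obtain ⟨⟨y, hy, rfl⟩, _⟩ := hx'
    exact (mem_Mv.1 hy).2.2.2 hx.1.1

theorem filter_A (j : α) (U : Finset α) (A : Finset (Finset α)) (q : Finset α → Prop)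
    [DecidablePred q] :
    (A.filter q).card = ((A \ Mv j U A).filter q).card + ((Mv j U A).filter q).card := by
  rw [← card_union_of_disjoint, ← filter_union, sdiff_union_of_subset]
  · exact filter_subset _ _
  · exact disjoint_filter_filter sdiff_disjoint

theorem card_Cp (j : α) (U : Finset α) (A : Finset (Finset α)) : (Cp j U A).card = A.card := by
  have h1 := filter_Cp j U A (fun _ => True)
  have h2 := filter_A j U A (fun _ => True)
  simp only [filter_true] at h1 h2
  omega

theorem cnt_Cp_ne {j k : α} (h : k ≠ j) (U : Finset α) (A : Finset (Finset α)) :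
    cnt k A ≤ cnt k (Cp j U A) := by
  unfold cnt
  rw [filter_Cp, filter_A j U A]
  apply Nat.add_le_add_left
  apply card_le_card
  intro y hy
  rw [mem_filter] at hy ⊢
  exact ⟨hy.1, mem_union_left _ (mem_erase.2 ⟨h, hy.2⟩)⟩

theorem cnt_Cp_U {j u : α} {U : Finset α} (hu : u ∈ U) (A : Finset (Finset α)) :
    cnt u (Cp j U A) = cnt u A + (Mv j U A).card := by
  unfold cnt
  rw [filter_Cp, filter_A j U A]
  have h1 : (Mv j U A).filter (fun y => u ∈ y) = ∅ := by
    apply filter_eq_empty_iff.2
    intro y hy hc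
    exact disjoint_left.1 (mem_Mv.1 hy).2.2.1 hc hu
  have h2 : (Mv j U A).filter (fun y => u ∈ y.erase j ∪ U) = Mv j U A := by
    apply filter_true_of_mem
    intro y _
    exact mem_union_right _ hu
  rw [h1, h2]; simp

theorem cnt_Cp_self {j : α} {U : Finset α} (hj : j ∉ U) (A : Finset (Finset α)) :
    cnt j (Cp j U A) + (Mv j U A).card = cnt j A := by
  unfold cnt
  rw [filter_Cp, filter_A j U A]
  have h1 : (Mv j U A).filter (fun y => j ∈ y) = Mv j U A := by
    apply filter_true_of_mem
    intro y hy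
    exact (mem_Mv.1 hy).2.1
  have h2 : (Mv j U A).filter (fun y => j ∈ y.erase j ∪ U) = ∅ := by
    apply filter_eq_empty_iff.2
    intro y _ hc
    simp [hj] at hc
  rw [h1, h2]; simp

theorem mem_Cp_of {j : α} {U : Finset α} {A : Finset (Finset α)} {y : Finset α} (hy : y ∈ A)
    (hj : j ∈ y) (hd : Disjoint y U) (hjU : j ∉ U) : y.erase j ∪ U ∈ Cp j U A := by
  unfold Cp
  by_cases h : y.erase j ∪ U ∈ A
  · apply mem_union_left
    refine mem_sdiff.2 ⟨h, fun hc => ?_⟩
    have := (mem_Mv.1 hc).2.1
    simp [hjU] at this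
  · apply mem_union_right
    exact mem_image.2 ⟨y, mem_Mv.2 ⟨hy, hj, hd, h⟩, rfl⟩

theorem Dn_Cp {j : α} {U : Finset α} {A : Finset (Finset α)} (hA : Dn A) (hjU : j ∉ U)
    (hcl : ∀ u ∈ U, Cl j (U.erase u) A) : Dn (Cp j U A) := by
  intro x hx v
  have hx' := hx
  unfold Cp at hx'
  rcases mem_union.1 hx' with h | h
  · obtain ⟨h1, h2⟩ := mem_sdiff.1 h
    unfold Cp
    apply mem_union_left
    refine mem_sdiff.2 ⟨hA x h1 v, fun hc => ?_⟩
    obtain ⟨_, c2, c3, c4⟩ := mem_Mv.1 hc
    have hjx : j ∈ x := mem_of_mem_erase c2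
    have hjv : j ≠ v := ne_of_mem_erase c2
    by_cases hv : v ∈ U ∧ v ∈ x
    · apply c4
      have hd : Disjoint x (U.erase v) := by
        rw [disjoint_left]
        intro z hz hz'
        exact disjoint_left.1 c3 (mem_erase.2 ⟨ne_of_mem_erase hz', hz⟩) (mem_of_mem_erase hz')
      have := hcl v hv.1 x h1 hjx hd
      convert this using 1
      ext z
      simp only [mem_union, mem_erase]
      by_cases hz : z = v
      · subst hz
        have := hjv.symm
        tauto
      · tauto
    · have hd : Disjoint x U := by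
        rw [disjoint_left]
        intro z hz hz'
        by_cases hzv : z = v
        · subst hzv; exact hv ⟨hz', hz⟩
        · exact disjoint_left.1 c3 (mem_erase.2 ⟨hzv, hz⟩) hz'
      have h3 : x.erase j ∪ U ∈ A := by
        by_contra hc'
        exact h2 (mem_Mv.2 ⟨h1, hjx, hd, hc'⟩)
      apply c4
      refine hA.subset _ _ _ rfl h3 ?_
      intro z
      simp only [mem_union, mem_erase]
      tauto
  · obtain ⟨y, hy, rfl⟩ := mem_image.1 h
    obtain ⟨c1, c2, c3, _⟩ := mem_Mv.1 hy
    by_cases hv : v ∈ U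
    · have hd : Disjoint y (U.erase v) := c3.mono_right (erase_subset _ _)
      have h3 := hcl v hv y c1 c2 hd
      have e : (y.erase j ∪ U).erase v = y.erase j ∪ U.erase v := by
        ext z
        simp only [mem_union, mem_erase]
        have : z ∈ y → z ∉ U := fun h => disjoint_left.1 c3 h
        by_cases hz : z = v
        · subst hz; tauto
        · tauto
      rw [e]
      unfold Cp
      apply mem_union_left
      refine mem_sdiff.2 ⟨h3, fun hc => ?_⟩
      have := (mem_Mv.1 hc).2.1
      simp [hjU] at this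
    · by_cases hvj : v = j
      · subst hvj
        rw [erase_eq_of_notMem (by simp [hjU])]
        exact hx
      · have e : (y.erase j ∪ U).erase v = (y.erase v).erase j ∪ U := by
          ext z
          simp only [mem_union, mem_erase]
          by_cases hz : z = v
          · subst hz; tauto
          · tauto
        rw [e]
        exact mem_Cp_of (hA y c1 v) (mem_erase.2 ⟨Ne.symm hvj, c2⟩)
          (c3.mono_left (erase_subset _ _)) hjU

variable [Fintype α]

theorem Dn.ed_eq {A : Finset (Finset α)} (h : Dn A) : ed A = ∑ k, cnt k A := by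
  unfold ed
  exact sum_congr rfl (fun k _ => h.W_eq k)

theorem ed_Cp {j u : α} {U : Finset α} {A : Finset (Finset α)} (hA : Dn A)
    (hA' : Dn (Cp j U A)) (hjU : j ∉ U) (hu : u ∈ U) : ed A ≤ ed (Cp j U A) := by
  rw [hA.ed_eq, hA'.ed_eq]
  have huj : u ≠ j := fun e => hjU (e ▸ hu)
  have hu' : u ∈ (univ : Finset α).erase j := mem_erase.2 ⟨huj, mem_univ _⟩
  rw [← sum_erase_add _ _ (mem_univ j), ← sum_erase_add _ _ hu',
    ← sum_erase_add _ (fun k => cnt k (Cp j U A)) (mem_univ j),
    ← sum_erase_add _ (fun k => cnt k (Cp j U A)) hu']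
  have h1 : ∑ k ∈ (univ.erase j).erase u, cnt k A ≤ ∑ k ∈ (univ.erase j).erase u, cnt k (Cp j U A) := by
    apply sum_le_sum
    intro k hk
    exact cnt_Cp_ne (ne_of_mem_erase (mem_of_mem_erase hk)) U A
  have h2 := cnt_Cp_U (j := j) hu A
  have h3 := cnt_Cp_self hjU A
  omega

theorem good_Cp {d : ℕ} {B : Finset α} {j u : α} {U : Finset α} {A : Finset (Finset α)}
    (h : Good d B A) (hA : Dn A) (hA' : Dn (Cp j U A)) (hjU : j ∉ U) (hu : u ∈ U) (huB : u ∈ B) :
    Good d B (Cp j U A) := by
  obtain ⟨h1, h2, h3⟩ := h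
  have hc : (Cp j U A).card = 2 ^ d := by rw [card_Cp, h1]
  have he := ed_Cp hA hA' hjU hu
  have hH : 2 ^ 2 * (d * 2 ^ d) < 2 * 2 ^ d + 2 ^ 2 * (2 * ed (Cp j U A)) := by omega
  refine ⟨hc, hH, ?_⟩
  intro b hb
  have k0 := hA'.half b
  have hpos : 0 < 2 ^ d := by positivity
  refine ⟨?_, by omega⟩
  by_cases hbj : b = j
  · subst hbj
    have g := gap_cnt hc hH b
    have k1 := hA'.half u
    have k2 := cnt_Cp_U (j := b) hu A
    have k3 := cnt_Cp_self hjU A
    have k4 := h3 u huB
    have k5 := h3 b hb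
    omega
  · have k1 := cnt_Cp_ne hbj U A
    have k2 := h3 b hb
    omega

theorem no_good {d : ℕ} {B : Finset α} {j : α} (hj : j ∈ B) (hB : d + 1 ≤ B.card) :
    ∀ (s : ℕ) (A : Finset (Finset α)), Good d B A → Dn A → cnt j A = s → False := by
  intro s
  induction s using Nat.strong_induction_on with
  | _ s ih =>
    intro A hG hD hs
    have hcl : ∀ (t : ℕ) (U : Finset α), U.card = t → U ⊆ B.erase j → Cl j U A := by
      intro t
      induction t with
      | zero =>
        intro U hU _ y hy _ _
        rw [card_eq_zero.1 hU, union_empty]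
        exact hD y hy j
      | succ t iht =>
        intro U hU hUB
        by_contra hc
        have hjU : j ∉ U := fun h => notMem_erase j B (hUB h)
        have hD' : Dn (Cp j U A) := by
          apply Dn_Cp hD hjU
          intro u hu
          apply iht _ (by rw [card_erase_of_mem hu]; omega) ((erase_subset _ _).trans hUB)
        obtain ⟨u, hu⟩ : U.Nonempty := card_pos.1 (by omega)
        have hG' := good_Cp hG hD hD' hjU hu (mem_of_mem_erase (hUB hu))
        refine ih _ ?_ _ hG' hD' rfl
        have k3 := cnt_Cp_self hjU A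
        have : 0 < (Mv j U A).card := by
          unfold Cl at hc
          push Not at hc
          obtain ⟨y, c1, c2, c3, c4⟩ := hc
          exact card_pos.2 ⟨y, mem_Mv.2 ⟨c1, c2, c3, c4⟩⟩
        omega
    obtain ⟨h1, _, h3⟩ := hG
    have k := (h3 j hj).1
    obtain ⟨y, hy⟩ : (A.filter (fun x => j ∈ x)).Nonempty := by
      apply card_pos.1
      unfold cnt at k
      omega
    rw [mem_filter] at hy
    have hj1 : ({j} : Finset α) ∈ A := hD.subset _ _ _ rfl hy.1 (singleton_subset_iff.2 hy.2)
    have hBj : B.erase j ∈ A := by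
      have := hcl _ (B.erase j) rfl (Subset.refl _) {j} hj1 (mem_singleton_self j) (by simp)
      simpa using this
    have hsub : insert {j} (B.erase j).powerset ⊆ A := by
      intro z hz
      rcases mem_insert.1 hz with rfl | hz
      · exact hj1
      · exact hD.subset _ _ _ rfl hBj (mem_powerset.1 hz)
    have hcard := card_le_card hsub
    rw [card_insert_of_notMem (by simp), card_powerset, card_erase_of_mem hj, h1] at hcard
    have : 2 ^ d ≤ 2 ^ (B.card - 1) := Nat.pow_le_pow_right (by norm_num) (by omega)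
    omega

theorem good_card {d : ℕ} {B : Finset α} {A : Finset (Finset α)} (h : Good d B A) :
    B.card ≤ d := by
  by_contra hc
  obtain ⟨j, hj⟩ : B.Nonempty := card_pos.1 (by omega)
  obtain ⟨A', h1, h2⟩ := exists_down _ A h rfl
  exact no_good hj (by omega) _ A' h1 h2 rfl

end Pool.Agent.H51.Cube
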