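import Mathlib
import Pool.Agent.H51.CubeC

namespace Pool.Agent.H51.Cube
open Finset
open scoped symmDiff

variable {α : Type*} [DecidableEq α] [Fintype α]

theorem ed_le_core (i : α) (a : Finset α) (K : Finset (Finset α)) :
    ed K ≤ ed (K.filter (fun x => (i ∈ x ↔ i ∈ a))) +
      E (K.filter (fun x => ¬ (i ∈ x ↔ i ∈ a))).card +
      (K.filter (fun x => ¬ (i ∈ x ↔ i ∈ a))).card := by
  have h0 := ed_split i K
  have h1 := ed_le (K.filter (fun x => i ∉ x))
  have h2 := ed_le (K.filter (fun x => i ∈ x))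
  have h3 := W_le_cnt i K
  have h4 := W_le_co i K
  unfold cnt at h3
  by_cases hi : i ∈ a
  · simp only [hi, iff_true]
    omega
  · simp only [hi, iff_false, not_not]
    omega

theorem core_inv {j d : ℕ} (hj : 2 ≤ j) {A : Finset (Finset α)} (hA : A.card = 2 ^ d)
    (hH : 2 ^ j * (d * 2 ^ d) < j * 2 ^ d + 2 ^ j * (2 * ed A)) (a : Finset α) (S : Finset α)
    (hS : ∀ i ∈ S, 2 ^ (j + 1) * (A.filter (fun x => ¬ (i ∈ x ↔ i ∈ a))).card < 2 ^ d) :
    ∃ p, (A.filter (fun x => ∀ i ∈ S, (i ∈ x ↔ i ∈ a))).card + p = 2 ^ d ∧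
      ed A ≤ ed (A.filter (fun x => ∀ i ∈ S, (i ∈ x ↔ i ∈ a))) + E p + p ∧
      2 ^ (j + 1) * p < 2 ^ d := by
  induction S using Finset.induction_on with
  | empty =>
    refine ⟨0, ?_, ?_, ?_⟩
    · simp [hA]
    · simp
    · simp
  | insert i S hi ih =>
    obtain ⟨p, h1, h2, h3⟩ := ih (fun k hk => hS k (mem_insert_of_mem hk))
    set K := A.filter (fun x => ∀ i ∈ S, (i ∈ x ↔ i ∈ a)) with hK
    have e : A.filter (fun x => ∀ k ∈ insert i S, (k ∈ x ↔ k ∈ a)) =
        K.filter (fun x => (i ∈ x ↔ i ∈ a)) := by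
      ext x
      simp only [hK, mem_filter, forall_mem_insert]
      tauto
    rw [e]
    have h4 := ed_le_core i a K
    have h5 := card_filter_add_card_filter_not (s := K) (fun x => (i ∈ x ↔ i ∈ a))
    have h6 : (K.filter (fun x => ¬ (i ∈ x ↔ i ∈ a))).card ≤
        (A.filter (fun x => ¬ (i ∈ x ↔ i ∈ a))).card :=
      card_le_card (filter_subset_filter _ (filter_subset _ _))
    have h7 := hS i (mem_insert_self _ _)
    set q := (K.filter (fun x => ¬ (i ∈ x ↔ i ∈ a))).card
    have h8 := E_add p q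
    have h9 := ed_le (K.filter (fun x => (i ∈ x ↔ i ∈ a)))
    refine ⟨p + q, by omega, by omega, ?_⟩
    have g := gap j d (ed A) (K.filter (fun x => (i ∈ x ↔ i ∈ a))).card (p + q) (by omega)
      (by omega) (by omega) hH
    rcases g with g | g
    · exact g
    · exfalso
      have h10 : 2 ^ (j + 1) * q < 2 ^ d := lt_of_le_of_lt (Nat.mul_le_mul_left _ h6) h7
      have h11 : 4 ≤ 2 ^ j := by
        calc 4 = 2 ^ 2 := by norm_num
          _ ≤ 2 ^ j := Nat.pow_le_pow_right (by norm_num) hj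
      have h12 : 4 * 2 ^ d ≤ 2 ^ j * 2 ^ d := Nat.mul_le_mul_right _ h11
      rw [mul_add] at g
      omega

theorem card_cube_le (S a : Finset α) :
    ((univ : Finset (Finset α)).filter (fun x => ∀ i ∈ S, (i ∈ x ↔ i ∈ a))).card ≤ 2 ^ Sᶜ.card := by
  rw [← card_powerset]
  apply card_le_card_of_injOn (fun x => x \ S)
  · intro x _
    simp only [coe_powerset, Set.mem_preimage, Set.mem_powerset_iff, coe_subset]
    intro z hz
    exact mem_compl.2 (mem_sdiff.1 hz).2
  · intro x hx y hy hxy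
    have hx' := (mem_filter.1 (mem_coe.1 hx)).2
    have hy' := (mem_filter.1 (mem_coe.1 hy)).2
    simp only at hxy
    ext z
    have hz := Finset.ext_iff.1 hxy z
    simp only [mem_sdiff] at hz
    have h1 := hx' z
    have h2 := hy' z
    tauto

theorem stability {j d : ℕ} (hj : 2 ≤ j) {A : Finset (Finset α)} (hA : A.card = 2 ^ d)
    (hH : 2 ^ j * (d * 2 ^ d) < j * 2 ^ d + 2 ^ j * (2 * ed A)) :
    ∃ S a : Finset α, 2 ^ j *
      (A ∆ ((univ : Finset (Finset α)).filter (fun x => ∀ i ∈ S, (i ∈ x ↔ i ∈ a)))).card < 2 ^ d := by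
  set a : Finset α := univ.filter (fun i => 2 ^ d < 2 * cnt i A) with ha
  set S : Finset α := univ.filter
    (fun i => 2 ^ (j + 1) * (A.filter (fun x => ¬ (i ∈ x ↔ i ∈ a))).card < 2 ^ d) with hS
  refine ⟨S, a, ?_⟩
  obtain ⟨p, h1, _, h3⟩ := core_inv hj hA hH a S (fun i hi => (mem_filter.1 hi).2)
  have h11 : 4 ≤ 2 ^ j := by
    calc 4 = 2 ^ 2 := by norm_num
      _ ≤ 2 ^ j := Nat.pow_le_pow_right (by norm_num) hj
  have hG : Good d Sᶜ A := by
    refine ⟨hA, ?_, ?_⟩
    · have k1 := ed_le A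
      have k2 := E_pow d
      rw [hA] at k1
      obtain ⟨D, hD⟩ : ∃ D, d * 2 ^ d = 2 * ed A + D := ⟨d * 2 ^ d - 2 * ed A, by omega⟩
      rw [hD] at hH ⊢
      have k3 : 2 * j ≤ 2 ^ j := by
        obtain ⟨i, rfl⟩ : ∃ i, j = i + 1 := ⟨j - 1, by omega⟩
        rw [pow_succ']
        exact Nat.mul_le_mul_left _ Nat.lt_two_pow_self
      have k4 : 2 ^ j * D < j * 2 ^ d := by rw [mul_add] at hH; omega
      have k5 : j * (2 * D) < j * 2 ^ d := by nlinarith
      have k6 : 2 * D < 2 ^ d := lt_of_mul_lt_mul_left k5 (Nat.zero_le _)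
      omega
    · intro b hb
      have k1 : ¬ (2 ^ (j + 1) * (A.filter (fun x => ¬ (b ∈ x ↔ b ∈ a))).card < 2 ^ d) := by
        intro hc
        exact (mem_compl.1 hb) (mem_filter.2 ⟨mem_univ _, hc⟩)
      have k2 := ed_le_core b a A
      have k3 := ed_le (A.filter (fun x => (b ∈ x ↔ b ∈ a)))
      have k4 := card_filter_add_card_filter_not (s := A) (fun x => (b ∈ x ↔ b ∈ a))
      have g := gap j d (ed A) (A.filter (fun x => (b ∈ x ↔ b ∈ a))).card
        (A.filter (fun x => ¬ (b ∈ x ↔ b ∈ a))).card (by omega) (by omega) (by omega) hH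
      have k5 := g.resolve_left k1
      have k6 : 3 * 2 ^ d < 8 * (A.filter (fun x => ¬ (b ∈ x ↔ b ∈ a))).card := by
        by_contra hc
        rw [pow_succ'] at k5
        nlinarith
      have k7 := cnt_add_co b A
      by_cases hba : b ∈ a
      · have k8 := (mem_filter.1 hba).2
        simp only [hba, iff_true] at k6
        omega
      · have k8 : ¬ (2 ^ d < 2 * cnt b A) := fun hc => hba (mem_filter.2 ⟨mem_univ _, hc⟩)
        simp only [hba, iff_false, not_not] at k6
        unfold cnt at k7 k8 ⊢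
        omega
  have hB := good_card hG
  have hC := card_cube_le S a
  have hC2 : 2 ^ Sᶜ.card ≤ 2 ^ d := Nat.pow_le_pow_right (by norm_num) hB
  set C := (univ : Finset (Finset α)).filter (fun x => ∀ i ∈ S, (i ∈ x ↔ i ∈ a)) with hCdef
  have e1 : A ∩ C = A.filter (fun x => ∀ i ∈ S, (i ∈ x ↔ i ∈ a)) := by
    ext x; simp [hCdef]
  have e2 : (A ∆ C).card ≤ (A \ C).card + (C \ A).card := by
    rw [symmDiff_def]; exact card_union_le _ _
  have e3 := card_sdiff_add_card_inter A C
  have e4 := card_sdiff_add_card_inter C A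
  rw [inter_comm] at e4
  rw [e1] at e3 e4
  have e5 : (A ∆ C).card ≤ 2 * p := by omega
  calc 2 ^ j * (A ∆ C).card ≤ 2 ^ j * (2 * p) := Nat.mul_le_mul_left _ e5
    _ = 2 ^ (j + 1) * p := by ring
    _ < 2 ^ d := h3

theorem stability' {j d : ℕ} (hj : 1 ≤ j) {A : Finset (Finset α)} (hA : A.card = 2 ^ d)
    (hH : 2 ^ j * (d * 2 ^ d) < j * 2 ^ d + 2 ^ j * (2 * ed A)) :
    ∃ S a : Finset α, 2 ^ j *
      (A ∆ ((univ : Finset (Finset α)).filter (fun x => ∀ i ∈ S, (i ∈ x ↔ i ∈ a)))).card < 2 ^ d := by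
  by_cases h : j = 1
  · subst h
    obtain ⟨S, a, h⟩ := stability (j := 2) le_rfl hA (by omega)
    exact ⟨S, a, by omega⟩
  · exact stability (by omega) hA hH

theorem inner_card (k : α) (A : Finset (Finset α)) :
    (A.filter (fun x => x ∆ {k} ∈ A)).card = 2 * (W k A).card := by
  have e1 : ∀ x : Finset α, k ∈ x → x ∆ {k} = x.erase k := by
    intro x hx; ext z
    simp only [mem_symmDiff, mem_singleton, mem_erase]
    by_cases hz : z = k
    · subst hz; tauto
    · tauto
  have e2 : ∀ x : Finset α, k ∉ x → x ∆ {k} = insert k x := by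
    intro x hx; ext z
    simp only [mem_symmDiff, mem_singleton, mem_insert]
    by_cases hz : z = k
    · subst hz; tauto
    · tauto
  have h := card_filter_add_card_filter_not (s := A.filter (fun x => x ∆ {k} ∈ A)) (fun x => k ∈ x)
  have h1 : (A.filter (fun x => x ∆ {k} ∈ A)).filter (fun x => k ∈ x) = W k A := by
    ext x
    simp only [mem_filter, mem_W]
    constructor
    · rintro ⟨⟨a1, a2⟩, a3⟩
      exact ⟨a1, a3, e1 x a3 ▸ a2⟩
    · rintro ⟨a1, a2, a3⟩
      exact ⟨⟨a1, (e1 x a2).symm ▸ a3⟩, a2⟩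
  have h2 : ((A.filter (fun x => x ∆ {k} ∈ A)).filter (fun x => ¬ k ∈ x)).card = (W k A).card := by
    apply card_bij (fun x _ => insert k x)
    · intro x hx
      simp only [mem_filter] at hx
      rw [mem_W, erase_insert hx.2]
      exact ⟨e2 x hx.2 ▸ hx.1.2, mem_insert_self _ _, hx.1.1⟩
    · intro x hx y hy hxy
      simp only [mem_filter] at hx hy
      rw [← erase_insert hx.2, hxy, erase_insert hy.2]
    · intro y hy
      rw [mem_W] at hy
      refine ⟨y.erase k, ?_, insert_erase hy.2.1⟩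
      simp only [mem_filter]
      refine ⟨⟨hy.2.2, ?_⟩, notMem_erase _ _⟩
      rw [e2 _ (notMem_erase _ _), insert_erase hy.2.1]
      exact hy.1
  rw [h1, h2] at h
  omega

theorem bdry_eq (A : Finset (Finset α)) :
    ((A ×ˢ Aᶜ).filter (fun p => (p.1 ∆ p.2).card = 1)).card + 2 * ed A
      = Fintype.card α * A.card := by
  have h1 : ((A ×ˢ Aᶜ).filter (fun p => (p.1 ∆ p.2).card = 1)).card =
      ∑ k : α, (A.filter (fun x => ¬ x ∆ {k} ∈ A)).card := by
    rw [← card_sigma]
    symm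
    apply card_bij (fun q _ => (q.2, q.2 ∆ {q.1}))
    · intro q hq
      simp only [mem_sigma, mem_filter] at hq
      simp only [mem_filter, mem_product, mem_compl]
      refine ⟨⟨hq.2.1, hq.2.2⟩, ?_⟩
      rw [symmDiff_symmDiff_cancel_left]
      simp
    · rintro ⟨k, x⟩ _ ⟨l, y⟩ _ h
      simp only [Prod.mk.injEq] at h
      obtain ⟨rfl, h⟩ := h
      have h' := symmDiff_right_injective x h
      rw [singleton_inj.1 h']
    · rintro ⟨x, y⟩ h
      simp only [mem_filter, mem_product, mem_compl] at h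
      obtain ⟨k, hk⟩ := card_eq_one.1 h.2
      have e : x ∆ {k} = y := by rw [← hk, symmDiff_symmDiff_cancel_left]
      refine ⟨⟨k, x⟩, ?_, ?_⟩
      · simp only [mem_sigma, mem_filter, mem_univ, true_and]
        rw [e]; exact h.1
      · simp [e]
  rw [h1]
  unfold ed
  rw [mul_sum, ← sum_add_distrib]
  have : ∀ k : α, (A.filter (fun x => ¬ x ∆ {k} ∈ A)).card + 2 * (W k A).card = A.card := by
    intro k
    rw [← inner_card, add_comm]
    exact card_filter_add_card_filter_not (s := A) (fun x => x ∆ {k} ∈ A)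
  simp [this]

/-- the extremal example -/
def Ex (o : α) : Finset (Finset α) := insert {o} ((univ.erase o).powerset.erase (univ.erase o))

theorem mem_Ex {o : α} {x : Finset α} : x ∈ Ex o ↔ x = {o} ∨ (o ∉ x ∧ x ≠ univ.erase o) := by
  unfold Ex
  simp only [mem_insert, mem_erase, mem_powerset]
  have : x ⊆ univ.erase o ↔ o ∉ x := by
    rw [subset_erase]; simp
  rw [this]; tauto

theorem card_Ex {j : ℕ} (hc : Fintype.card α = j + 2) (o : α) : (Ex o).card = 2 ^ (j + 1) := by
  unfold Ex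
  rw [card_insert_of_notMem (by simp [subset_erase]), card_erase_of_mem (by simp), card_powerset,
    card_erase_of_mem (mem_univ _), card_univ, hc]
  have : 0 < 2 ^ (j + 1) := by positivity
  simp only [Nat.add_one_sub_one]
  omega

theorem ed_Ex {j : ℕ} (hc : Fintype.card α = j + 2) (o : α) :
    (j + 1) * 2 ^ j ≤ ed (Ex o) + j := by
  have ht : (univ.erase o).card = j + 1 := by
    rw [card_erase_of_mem (mem_univ _), card_univ, hc]; rfl
  have h0 : 1 ≤ (W o (Ex o)).card := by
    apply card_pos.2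
    refine ⟨{o}, mem_W.2 ⟨mem_Ex.2 (Or.inl rfl), mem_singleton_self _, mem_Ex.2 (Or.inr ⟨by simp, ?_⟩)⟩⟩
    intro h
    rw [← h] at ht
    simp at ht
  have h1 : ∀ k ∈ univ.erase o, 2 ^ j - 1 ≤ (W k (Ex o)).card := by
    intro k hk
    have hko : k ≠ o := ne_of_mem_erase hk
    have hc2 : (((univ.erase o).erase k).powerset.erase ((univ.erase o).erase k)).card
        = 2 ^ j - 1 := by
      rw [card_erase_of_mem (by simp), card_powerset, card_erase_of_mem hk, ht]; rfl
    rw [← hc2]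
    apply card_le_card_of_injOn (fun x => insert k x)
    · intro x hx
      have hx' := mem_coe.1 hx
      rw [mem_erase, mem_powerset, subset_erase, subset_erase] at hx'
      obtain ⟨a1, ⟨_, a2⟩, a3⟩ := hx'
      apply mem_coe.2
      rw [mem_W]
      simp only
      rw [erase_insert a3]
      refine ⟨mem_Ex.2 (Or.inr ⟨?_, ?_⟩), mem_insert_self _ _, mem_Ex.2 (Or.inr ⟨a2, ?_⟩)⟩
      · simp [hko.symm, a2]
      · intro h
        apply a1
        rw [← h, erase_insert a3]
      · intro h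
        apply a3
        rw [h]; exact hk
    · intro x hx y hy hxy
      have hx' := mem_coe.1 hx
      have hy' := mem_coe.1 hy
      rw [mem_erase, mem_powerset, subset_erase] at hx' hy'
      simp only at hxy
      rw [← erase_insert hx'.2.2, hxy, erase_insert hy'.2.2]
  unfold ed
  rw [← sum_erase_add _ _ (mem_univ o)]
  have h2 := card_nsmul_le_sum _ _ _ h1
  rw [ht, smul_eq_mul] at h2
  have h3 : 0 < 2 ^ j := by positivity
  obtain ⟨M, hM⟩ : ∃ M, 2 ^ j = M + 1 := ⟨2 ^ j - 1, by omega⟩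
  rw [hM] at h2 ⊢
  simp only [Nat.add_one_sub_one] at h2
  nlinarith

theorem far_Ex {o u v : α} (hou : o ≠ u) (hov : o ≠ v) (huv : u ≠ v) (S a : Finset α) :
    2 ≤ (Ex o ∆ ((univ : Finset (Finset α)).filter (fun x => ∀ i ∈ S, (i ∈ x ↔ i ∈ a)))).card := by
  by_contra hc
  obtain ⟨w, hw⟩ := card_le_one_iff_subset_singleton.1 (Nat.lt_succ_iff.1 (not_le.1 hc))
  have key : ∀ x, x ≠ w → (x ∈ Ex o ↔ ∀ i ∈ S, (i ∈ x ↔ i ∈ a)) := by
    intro x hx
    have : x ∉ Ex o ∆ ((univ : Finset (Finset α)).filter (fun x => ∀ i ∈ S, (i ∈ x ↔ i ∈ a))) :=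
      fun h => hx (mem_singleton.1 (hw h))
    simp only [mem_symmDiff, mem_filter, mem_univ, true_and] at this
    constructor
    · intro h; by_contra h'; exact this (Or.inl ⟨h, h'⟩)
    · intro h; by_contra h'; exact this (Or.inr ⟨h, h'⟩)
  have quad : ∀ x y z t : Finset α, x ∈ Ex o → y ∈ Ex o → z ∈ Ex o → t ∉ Ex o →
      (∀ i, i ∈ x → i ∈ y → i ∈ z → i ∈ t) → (∀ i, i ∉ x → i ∉ y → i ∉ z → i ∉ t) →
      x = w ∨ y = w ∨ z = w ∨ t = w := by
    intro x y z t hx hy hz ht h1 h2
    by_contra hn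
    push Not at hn
    apply ht
    rw [key t hn.2.2.2]
    intro i hi
    have a1 := (key x hn.1).1 hx i hi
    have a2 := (key y hn.2.1).1 hy i hi
    have a3 := (key z hn.2.2.1).1 hz i hi
    by_cases hia : i ∈ a
    · exact ⟨fun _ => hia, fun _ => h1 i (a1.2 hia) (a2.2 hia) (a3.2 hia)⟩
    · exact ⟨fun h => absurd h (h2 i (fun e => hia (a1.1 e)) (fun e => hia (a2.1 e))
        (fun e => hia (a3.1 e))), fun h => absurd h hia⟩
  have hu : u ∈ univ.erase o := mem_erase.2 ⟨hou.symm, mem_univ _⟩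
  have hv : v ∈ univ.erase o := mem_erase.2 ⟨hov.symm, mem_univ _⟩
  have inA : ∀ x : Finset α, o ∉ x → (u ∉ x ∨ v ∉ x) → x ∈ Ex o := by
    intro x h1 h2
    refine mem_Ex.2 (Or.inr ⟨h1, ?_⟩)
    rintro rfl
    tauto
  have outA : ∀ x : Finset α, o ∈ x → (u ∈ x ∨ v ∈ x) → x ∉ Ex o := by
    intro x h1 h2 h3
    rcases mem_Ex.1 h3 with rfl | h
    · simp only [mem_singleton] at h2
      rcases h2 with h | h
      · exact hou h.symm
      · exact hov h.symm
    · exact h.1 h1
  have m0 : ({o} : Finset α) ∈ Ex o := mem_Ex.2 (Or.inl rfl)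
  have me : (∅ : Finset α) ∈ Ex o := inA _ (by simp) (by simp)
  have mu : ({u} : Finset α) ∈ Ex o := inA _ (by simp [hou]) (by simp [huv.symm])
  have mv : ({v} : Finset α) ∈ Ex o := inA _ (by simp [hov]) (by simp [huv])
  have q1 := quad ∅ {o} {u} {o, u} me m0 mu (outA _ (by simp) (by simp)) (by simp)
    (by intro i _ h1 h2; simp only [mem_insert, mem_singleton] at *; tauto)
  have q3 := quad ∅ {o} {v} {o, v} me m0 mv (outA _ (by simp) (by simp)) (by simp)
    (by intro i _ h1 h2; simp only [mem_insert, mem_singleton] at *; tauto)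
  have q4 := quad {o} {u} {v} {o, u, v} m0 mu mv (outA _ (by simp) (by simp))
    (by intro i h1 _ _; simp only [mem_insert, mem_singleton] at *; tauto)
    (by intro i h0 h1 h2; simp only [mem_insert, mem_singleton] at *; tauto)
  have q2 := quad ((univ.erase o).erase u) ((univ.erase o).erase v)
    (((univ.erase o).erase u).erase v) (univ.erase o)
    (inA _ (by simp) (by simp)) (inA _ (by simp) (by simp)) (inA _ (by simp) (by simp))
    (by rw [mem_Ex]; rintro (h | h)
        · rw [h, mem_singleton] at hu; exact hou hu.symm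
        · exact h.2 rfl)
    (by intro i h1 _ _; exact mem_of_mem_erase h1)
    (by intro i h0 h1 _ h3
        simp only [mem_erase, mem_univ, and_true] at *
        apply huv
        by_contra hne
        have e1 : i = u := by tauto
        have e2 : i = v := by tauto
        exact hne (e1 ▸ e2))
  have f1 : v ∉ w := by
    rcases q1 with rfl | rfl | rfl | rfl <;> simp [hov.symm, huv.symm]
  have f3 : u ∉ w := by
    rcases q3 with rfl | rfl | rfl | rfl <;> simp [hou.symm, huv]
  have f2 : o ∉ w := by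
    rcases q2 with rfl | rfl | rfl | rfl <;> simp
  rcases q4 with rfl | rfl | rfl | rfl
  · simp at f2
  · simp at f3
  · simp at f1
  · simp at f2

end Pool.Agent.H51.Cube
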