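import Mathlib

set_option autoImplicit false

namespace Pool.Agent.H51.Dean

abbrev V := Fin 31

lemma mem_E {c : List V} (h : c.Nodup) {x y : V} :
    (x, y) ∈ c.zip (c.rotate 1) ↔ x ∈ c ∧ y = c.formPerm x := by
  simp only [List.mem_iff_getElem, List.getElem_zip, List.getElem_rotate, Prod.mk.injEq]
  constructor
  · rintro ⟨i, hi, rfl, rfl⟩
    have : i < c.length := by simpa using hi
    exact ⟨⟨i, this, rfl⟩, (List.formPerm_apply_getElem c h i this).symm⟩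
  · rintro ⟨⟨i, hi, rfl⟩, rfl⟩
    exact ⟨i, by simpa using hi, rfl, (List.formPerm_apply_getElem c h i hi).symm⟩

def adjN (x y : ℕ) : Bool :=
  if x = 0 then y % 5 = 2 || y % 5 = 3 || y % 10 = 1
  else if x % 5 = 1 then y = x + 1 || y = x + 2 || (x % 10 = 1 && y = x + 5) || (x % 10 = 6 && y = 0)
  else if x % 5 = 2 || x % 5 = 3 then y = 5 * (x / 5) + 4 || y = 5 * (x / 5) + 5
  else y = 0 || y = 5 * ((x - 1) / 5) + 1

def A : Finset (V × V) := Finset.univ.filter fun e => adjN e.1 e.2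

def w (g : Fin 6) (k : Fin 5) : V := ⟨5 * g + 1 + k, by omega⟩

def q (g : Fin 6) : V := if g.1 % 2 = 0 then ⟨(5 * g + 6) % 31, Nat.mod_lt _ (by omega)⟩ else 0

lemma gadget {C : Type} (χ : V → V → C)
    (h1 : ∀ x y z : V, adjN x y → adjN x z → χ x y = χ x z → y = z)
    (h2 : ∀ x y z : V, adjN x z → adjN y z → χ x z = χ y z → x = y)
    (h3 : ∀ x y : V, adjN x y → ∃ z : V, adjN y z ∧ χ y z = χ x y) (g : Fin 6) :
    ∃ i j : Fin 5, adjN (w g 0) (w g i) ∧ adjN (w g i) (w g j) ∧ adjN (w g j) (w g 0) ∧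
      χ (w g i) (w g j) = χ (w g 0) (w g i) ∧ χ (w g j) (w g 0) = χ (w g 0) (w g i) := by
  obtain ⟨s0, s1, s2, s3, s4⟩ : (∀ z : V, adjN (w g 0) z → z = w g 1 ∨ z = w g 2 ∨ z = q g) ∧
      (∀ z : V, adjN (w g 1) z → z = w g 3 ∨ z = w g 4) ∧
      (∀ z : V, adjN (w g 2) z → z = w g 3 ∨ z = w g 4) ∧
      (∀ z : V, adjN (w g 3) z → z = 0 ∨ z = w g 0) ∧
      (∀ z : V, adjN (w g 4) z → z = 0 ∨ z = w g 0) := by revert g; decide +kernel
  obtain ⟨a1, a2, a3, a4, a5, a6, a7, a8, a9, a10, d1, d2, d3, d4⟩ : adjN (w g 0) (w g 1) ∧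
      adjN (w g 0) (w g 2) ∧ adjN (w g 1) (w g 3) ∧ adjN (w g 1) (w g 4) ∧ adjN (w g 2) (w g 3) ∧
      adjN (w g 2) (w g 4) ∧ adjN (w g 3) (w g 0) ∧ adjN (w g 4) (w g 0) ∧
      adjN (w g 3) (0 : V) ∧ adjN (w g 4) (0 : V) ∧ w g 1 ≠ w g 2 ∧ w g 3 ≠ w g 4 ∧ w g 0 ≠ 0 ∧ True := by
    revert g; decide +kernel
  have n1 := mt (h1 _ _ _ a1 a2) d1
  have n2 := mt (h1 _ _ _ a3 a4) d2
  have n3 := mt (h1 _ _ _ a5 a6) d2
  have n4 := mt (h1 _ _ _ a7 a9) d3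
  have n5 := mt (h1 _ _ _ a8 a10) d3
  have n6 := mt (h2 _ _ _ a3 a5) d1
  have n7 := mt (h2 _ _ _ a4 a6) d1
  have n8 := mt (h2 _ _ _ a7 a8) d2
  have t : ∀ {x y : V} {p : V → Prop}, adjN x y → (∀ z : V, adjN y z → p z) →
      ∃ z, p z ∧ χ y z = χ x y := fun h hp => (h3 _ _ h).imp fun z hz => ⟨hp z hz.1, hz.2⟩
  have t1 := t a1 s1
  have t2 := t a2 s2
  have t3 := t a3 s3
  have t4 := t a4 s4
  have t5 := t a5 s3
  have t6 := t a6 s4
  have t7 := t a7 s0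
  have t8 := t a8 s0
  simp only [or_and_right, exists_or, exists_eq_left] at t1 t2 t3 t4 t5 t6 t7 t8
  by_contra hn
  have m1 := fun h => hn ⟨1, 3, a1, a3, a7, h⟩
  have m2 := fun h => hn ⟨1, 4, a1, a4, a8, h⟩
  have m3 := fun h => hn ⟨2, 3, a2, a5, a7, h⟩
  have m4 := fun h => hn ⟨2, 4, a2, a6, a8, h⟩
  clear hn t h1 h2 h3 s0 s1 s2 s3 s4 a1 a2 a3 a4 a5 a6 a7 a8 a9 a10 d1 d2 d3 d4
  grind

theorem main (L : List (List V))
    (hc : ∀ c ∈ L, c.Nodup ∧ 2 ≤ c.length ∧ ∀ e ∈ c.zip (c.rotate 1), e ∈ A)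
    (he : ∀ e ∈ A, ∃ c ∈ L, e ∈ c.zip (c.rotate 1))
    (hp : L.Pairwise fun c d => ∀ e ∈ c.zip (c.rotate 1), e ∉ d.zip (d.rotate 1)) :
    21 ≤ L.length := by
  have hA : ∀ x y : V, (x, y) ∈ A ↔ adjN x y := by simp [A]
  have : ∀ x y : V, ∃ c, adjN x y → c ∈ L ∧ x ∈ c ∧ y = c.formPerm x := fun x y => by
    by_cases h : adjN x y
    · obtain ⟨c, h1, h2⟩ := he _ ((hA x y).2 h)
      exact ⟨c, fun _ => ⟨h1, (mem_E (hc c h1).1).1 h2⟩⟩
    · exact ⟨[], fun h' => absurd h' h⟩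
  choose χ hχ using this
  have hu : ∀ c ∈ L, ∀ x ∈ c, adjN x (c.formPerm x) ∧ χ x (c.formPerm x) = c := fun c h x hx => by
    have e := (mem_E (hc c h).1).2 ⟨hx, rfl⟩
    have a := (hA _ _).1 ((hc c h).2.2 _ e)
    refine ⟨a, by_contra fun hn => ?_⟩
    haveI : Std.Symm fun c d : List V => ∀ e ∈ c.zip (c.rotate 1), e ∉ d.zip (d.rotate 1) :=
      ⟨fun c d h e h1 h2 => h e h2 h1⟩
    have := hp.forall (hχ _ _ a).1 h hn
    exact this _ ((mem_E (hc _ (hχ _ _ a).1).1).2 (hχ _ _ a).2) e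
  have h1 : ∀ x y z : V, adjN x y → adjN x z → χ x y = χ x z → y = z := fun x y z a b e => by
    rw [(hχ _ _ b).2.2, ← e, ← (hχ _ _ a).2.2]
  have h2 : ∀ x y z : V, adjN x z → adjN y z → χ x z = χ y z → x = y := fun x y z a b e =>
    (χ x z).formPerm.injective (by rw [← (hχ _ _ a).2.2, e, ← (hχ _ _ b).2.2])
  have h3 : ∀ x y : V, adjN x y → ∃ z : V, adjN y z ∧ χ y z = χ x y := fun x y a =>
    ⟨_, hu _ (hχ _ _ a).1 y (by
      have := List.formPerm_apply_mem_of_mem (hχ _ _ a).2.1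
      rwa [← (hχ _ _ a).2.2] at this)⟩
  have h4 : ∀ g, ∃ i, adjN (w g 0) (w g i) ∧ ∀ p ∈ χ (w g 0) (w g i), ∃ k, p = w g k := fun g => by
    obtain ⟨i, j, a, b, c, e1, e2⟩ := gadget χ h1 h2 h3 g
    refine ⟨i, a, fun p hp => ?_⟩
    have f1 := (hχ _ _ a).2.2
    have f2 := (hχ _ _ b).2.2
    have f3 := (hχ _ _ c).2.2
    rw [e1] at f2
    rw [e2] at f3
    obtain ⟨n, rfl⟩ := (hc _ (hχ _ _ a).1).1.isCycleOn_formPerm.exists_pow_eq'
      (List.finite_toSet _) (hχ _ _ a).2.1 hp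
    clear hp
    suffices ∀ n, ∃ k, (k = 0 ∨ k = i ∨ k = j) ∧ ((χ (w g 0) (w g i)).formPerm ^ n) (w g 0) = w g k from
      (this n).imp fun _ h => h.2
    intro n
    induction' n with n ih
    · exact ⟨0, Or.inl rfl, rfl⟩
    · obtain ⟨k, hk, e⟩ := ih
      rw [pow_succ', Equiv.Perm.mul_apply, e]
      rcases hk with rfl | rfl | rfl
      exacts [⟨i, by simp, f1.symm⟩, ⟨j, by simp, f2.symm⟩, ⟨0, by simp, f3.symm⟩]
  choose i hi hw using h4
  let S : Finset V := Finset.univ.filter fun y : V => adjN (0 : V) y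
  have c1 : (S.image (χ 0)).card = 15 := by
    rw [Finset.card_image_of_injOn fun x hx y hy e => h1 0 x y (by simpa [S] using hx)
      (by simpa [S] using hy) e]
    decide +kernel
  have c2 : (Finset.univ.image fun g => χ (w g 0) (w g (i g))).card = 6 := by
    rw [Finset.card_image_of_injective _ fun g h e => ?_, Finset.card_fin]
    obtain ⟨k, hk⟩ := hw h _ (e ▸ (hχ _ _ (hi g)).2.1)
    exact (by decide +kernel : ∀ g h k, w g 0 = w h k → g = h) g h k hk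
  have d : Disjoint (S.image (χ 0)) (Finset.univ.image fun g => χ (w g 0) (w g (i g))) := by
    simp only [Finset.disjoint_left, Finset.mem_image]
    rintro _ ⟨y, hy, rfl⟩ ⟨g, -, e⟩
    obtain ⟨k, hk⟩ := hw g 0 (e ▸ (hχ 0 y (by simpa [S] using hy)).2.1)
    exact (by decide +kernel : ∀ g k, 0 ≠ w g k) g k hk
  refine le_trans ?_ (List.toFinset_card_le L)
  rw [show 21 = 15 + 6 from rfl, ← c1, ← c2, ← Finset.card_union_of_disjoint d]
  refine Finset.card_le_card fun c hc => List.mem_toFinset.2 ?_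
  simp only [Finset.mem_union, Finset.mem_image] at hc
  rcases hc with ⟨y, hy, rfl⟩ | ⟨g, -, rfl⟩
  · exact (hχ 0 y (by simpa [S] using hy)).1
  · exact (hχ _ _ (hi g)).1

lemma ori : ∀ u v : V, (u, v) ∈ A → (v, u) ∉ A := by
  simp only [A, Finset.mem_filter, Finset.mem_univ, true_and]
  decide +kernel

lemma eul : ∀ v : V, (A.filter fun e => e.1 = v).card = (A.filter fun e => e.2 = v).card := by
  decide +kernel

end Pool.Agent.H51.Dean
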