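import Pool.Agent.H51.DistMinorDefs

namespace Pool.Agent.H51.DistMinor
open Pool.Agent.H51.DistMinorDefs Matrix

theorem le_posEig {V : Type} [Fintype V] [DecidableEq V] (A : Matrix V V ℝ) (hA : A.IsHermitian)
    {k : ℕ} (W : Matrix V (Fin k) ℝ)
    (h : ∀ c : Fin k → ℝ, c ≠ 0 → 0 < (W *ᵥ c) ⬝ᵥ (A *ᵥ (W *ᵥ c))) : k ≤ posEig A := by
  classical
  by_contra hlt
  push Not at hlt
  have hcard : posEig A = Fintype.card {j // 0 < hA.eigenvalues j} := by
    unfold posEig
    rw [hA.roots_charpoly_eq_eigenvalues, Multiset.countP_map, Fintype.card_subtype]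
    rfl
  set U : Matrix V V ℝ := hA.eigenvectorUnitary.1 with hU
  let B : (Fin k → ℝ) →ₗ[ℝ] ({j // 0 < hA.eigenvalues j} → ℝ) :=
    (LinearMap.funLeft ℝ ℝ Subtype.val).comp (Matrix.toLin' (Uᵀ * W))
  have hk := LinearMap.ker_ne_bot_of_finrank_lt (f := B) (by simpa [← hcard] using hlt)
  obtain ⟨c, hc, hc0⟩ := Submodule.exists_mem_ne_zero_of_ne_bot hk
  have h1 := h c hc0
  have h2 : A = U * diagonal hA.eigenvalues * Uᵀ := by
    have := hA.spectral_theorem
    simpa [hU, Matrix.star_eq_conjTranspose] using this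
  have h3 : (W *ᵥ c) ⬝ᵥ (A *ᵥ (W *ᵥ c)) =
      ∑ j, hA.eigenvalues j * ((Uᵀ *ᵥ (W *ᵥ c)) j) ^ 2 := by
    conv_lhs => rw [h2]
    rw [← mulVec_mulVec, ← mulVec_mulVec, dotProduct_mulVec, ← mulVec_transpose]
    simp only [dotProduct, mulVec_diagonal]
    exact Finset.sum_congr rfl fun j _ => by ring
  rw [h3] at h1
  refine absurd h1 (not_lt.mpr (Finset.sum_nonpos fun j _ => ?_))
  by_cases hj : 0 < hA.eigenvalues j
  · have : (Uᵀ *ᵥ (W *ᵥ c)) j = 0 := by
      have := congrFun (LinearMap.mem_ker.mp hc) ⟨j, hj⟩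
      simpa [B, ← mulVec_mulVec] using this
    simp [this]
  · exact mul_nonpos_of_nonpos_of_nonneg (not_lt.mp hj) (sq_nonneg _)

/-- The complement of the 7-cycle. -/
def G : SimpleGraph (Fin 7) where
  Adj a b := a ≠ b ∧ a ≠ b + 1 ∧ b ≠ a + 1
  symm := ⟨by intro a b; revert a b; decide⟩
  loopless := ⟨by decide⟩

instance : DecidableRel G.Adj := fun a b =>
  inferInstanceAs (Decidable (a ≠ b ∧ a ≠ b + 1 ∧ b ≠ a + 1))

theorem common : ∀ a b : Fin 7, ∃ c, G.Adj a c ∧ G.Adj c b := by decide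

theorem conn : G.Connected := by
  refine ⟨fun a b => ?_⟩
  obtain ⟨c, h1, h2⟩ := common a b
  exact h1.reachable.trans h2.reachable

theorem wdist_G (a b : Fin 7) :
    wdist G (fun _ => 1) a b = if a = b then 0 else if G.Adj a b then 1 else 2 := by
  have hs : ∀ p : G.Walk a b, (p.edges.map fun _ => (1 : ℝ)).sum = p.length := by
    intro p; simp
  refine IsLeast.csInf_eq ⟨?_, ?_⟩
  · split_ifs with h1 h2
    · subst h1; exact ⟨.nil, by simp, by simp⟩
    · exact ⟨h2.toWalk, by simp [h1], by simp⟩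
    · obtain ⟨c, h3, h4⟩ := common a b
      exact ⟨.cons h3 h4.toWalk, by simp [h1, h3.ne, h4.ne], by simp; norm_num⟩
  · rintro x ⟨p, -, rfl⟩
    rw [hs]
    split_ifs with h1 h2
    · positivity
    · have : p.length ≠ 0 := fun h => h1 (SimpleGraph.Walk.eq_of_length_eq_zero h)
      exact_mod_cast Nat.one_le_iff_ne_zero.mpr this
    · have a0 : p.length ≠ 0 := fun h => h1 (SimpleGraph.Walk.eq_of_length_eq_zero h)
      have a1 : p.length ≠ 1 := fun h => h2 (SimpleGraph.Walk.adj_of_length_eq_one h)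
      exact_mod_cast (by omega : 2 ≤ p.length)

theorem three_le : 3 ≤ posEig (wdist G fun _ => 1) := by
  have hD : wdist G (fun _ => 1) = !![0,2,1,1,1,1,2; 2,0,2,1,1,1,1; 1,2,0,2,1,1,1; 1,1,2,0,2,1,1;
      1,1,1,2,0,2,1; 1,1,1,1,2,0,2; 2,1,1,1,1,2,0] := by
    ext a b
    rw [wdist_G]
    fin_cases a <;> fin_cases b <;> simp [G] <;> decide
  rw [hD]
  refine le_posEig _ ?_ !![1,2,0; 1,1,2; 1,0,2; 1,-2,1; 1,-2,-1; 1,0,-2; 1,1,-2] fun c hc => ?_
  · ext a b
    fin_cases a <;> fin_cases b <;> simp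
  · have : c 0 ≠ 0 ∨ c 1 ≠ 0 ∨ c 2 ≠ 0 := by
      by_contra h
      push Not at h
      exact hc (funext fun i => by fin_cases i <;> simp [h.1, h.2.1, h.2.2])
    simp [dotProduct, mulVec, Fin.sum_univ_succ]
    rcases this with h | h | h <;> nlinarith [sq_pos_of_ne_zero h, sq_nonneg (c 0),
      sq_nonneg (c 1), sq_nonneg (c 2)]

theorem no_minor : ¬ IsMinor (K233 2) G := by
  rintro ⟨B, h1, h2, -⟩
  choose f hf using fun w => (h1 w).nonempty.elim fun x => (⟨x.1, x.2⟩ : ∃ x, x ∈ B w)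
  have : Function.Injective f := by
    intro w w' h
    by_contra hne
    exact Set.disjoint_left.mp (h2 w w' hne) (hf w) (h ▸ hf w')
  have := Fintype.card_le_of_injective f this
  revert this
  simp [Fin.sum_univ_succ]

end Pool.Agent.H51.DistMinor
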