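import Mathlib

/-! Weighted distance matrices, positive eigenvalues and graph minors. -/

namespace Pool.Agent.H51.DistMinorDefs

/-- The weighted distance matrix: the `(u, v)` entry is the least total weight of a `u`-`v` path. -/
noncomputable def wdist {V : Type} (G : SimpleGraph V) (φ : Sym2 V → ℝ) : Matrix V V ℝ :=
  fun u v => sInf {x : ℝ | ∃ p : G.Walk u v, p.IsPath ∧ x = (p.edges.map φ).sum}

/-- The number of positive eigenvalues of a real matrix, counted with multiplicity (positive real
roots of the characteristic polynomial). -/
noncomputable def posEig {V : Type} [Fintype V] [DecidableEq V] (A : Matrix V V ℝ) : ℕ :=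
  A.charpoly.roots.countP fun x => 0 < x

/-- `H` is a minor of `G`: there are pairwise disjoint connected branch sets of `G`, one for each
vertex of `H`, with an edge of `G` between the branch sets of any two adjacent vertices of `H`. -/
def IsMinor {W V : Type} (H : SimpleGraph W) (G : SimpleGraph V) : Prop :=
  ∃ B : W → Set V, (∀ w, (G.induce (B w)).Connected) ∧ (∀ w w', w ≠ w' → Disjoint (B w) (B w')) ∧
    ∀ w w', H.Adj w w' → ∃ a ∈ B w, ∃ b ∈ B w', G.Adj a b

/-- The complete multipartite graph with one part of size 2 and `n` parts of size 3. -/
def K233 (n : ℕ) : SimpleGraph (Σ i : Fin (n + 1), Fin (if i = 0 then 2 else 3)) :=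
  SimpleGraph.completeMultipartiteGraph fun i : Fin (n + 1) => Fin (if i = 0 then 2 else 3)

end Pool.Agent.H51.DistMinorDefs
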