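import Mathlib

set_option autoImplicit false

namespace Pool.Agent.H51.EngelA

/-- A bi-invariant archimedean total preorder on a group. -/
structure Pre {S : Type*} [Group S] (r : S → S → Prop) : Prop where
  tot : ∀ a b, r a b ∨ r b a
  tr : ∀ a b c, r a b → r b c → r a c
  l : ∀ s a b, r a b → r (s * a) (s * b)
  rt : ∀ s a b, r a b → r (a * s) (b * s)
  arch : ∀ c d, ¬ r c 1 → ∃ n : ℕ, r d (c ^ n)

variable {S : Type*} [Group S] {r : S → S → Prop}

theorem Pre.refl (h : Pre r) (a : S) : r a a := by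
  rcases h.tot a a with h | h <;> exact h

theorem Pre.mul (h : Pre r) {a b c d : S} (h1 : r a b) (h2 : r c d) : r (a * c) (b * d) :=
  h.tr _ _ _ (h.rt c _ _ h1) (h.l b _ _ h2)

theorem Pre.inv (h : Pre r) {a b : S} (h1 : r a b) : r b⁻¹ a⁻¹ := by
  have := h.rt a⁻¹ _ _ (h.l b⁻¹ _ _ h1)
  simpa [mul_assoc] using this

theorem Pre.one_pow (h : Pre r) {c : S} (hc : r 1 c) (n : ℕ) : r 1 (c ^ n) := by
  induction n with
  | zero => simpa using h.refl 1
  | succ n ih => simpa [pow_succ] using h.mul ih hc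

theorem Pre.pow_mono (h : Pre r) {c : S} (hc : r 1 c) {n m : ℕ} (hnm : n ≤ m) :
    r (c ^ n) (c ^ m) := by
  obtain ⟨k, rfl⟩ := Nat.exists_eq_add_of_le hnm
  simpa [pow_add] using h.l (c ^ n) _ _ (h.one_pow hc k)

/-- The sign trichotomy of a sequence. -/
def Tri (r : S → S → Prop) (u : ℕ → S) : Prop :=
  (∀ k, r (u k) 1 ∧ r 1 (u k)) ∨ (∃ c, ¬ r c 1 ∧ ∃ K, ∀ k, K ≤ k → r c (u k)) ∨
    (∃ c, ¬ r c 1 ∧ ∃ K, ∀ k, K ≤ k → r (u k) c⁻¹)

theorem Pre.step (h : Pre r) {u w : ℕ → S} (hu : ∀ k, u (k + 1) = u k * w k) (hw : Tri r w) :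
    Tri r u := by
  rcases hw with hw | ⟨c, hc, K, hK⟩ | ⟨c, hc, K, hK⟩
  · have hk : ∀ k, r (u k) (u 0) ∧ r (u 0) (u k) := by
      intro k
      induction k with
      | zero => exact ⟨h.refl _, h.refl _⟩
      | succ k ih =>
        rw [hu]
        exact ⟨by simpa using h.mul ih.1 (hw k).1, by simpa using h.mul ih.2 (hw k).2⟩
    by_cases h1 : r (u 0) 1
    · by_cases h2 : r 1 (u 0)
      · exact Or.inl fun k => ⟨h.tr _ _ _ (hk k).1 h1, h.tr _ _ _ h2 (hk k).2⟩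
      · refine Or.inr (Or.inr ⟨(u 0)⁻¹, fun h3 => h2 ?_, 0, fun k _ => by simpa using (hk k).1⟩)
        simpa using h.inv h3
    · exact Or.inr (Or.inl ⟨u 0, h1, 0, fun k _ => (hk k).2⟩)
  · have hc1 : r 1 c := (h.tot 1 c).resolve_right hc
    have hm : ∀ m, r (u K * c ^ m) (u (K + m)) := by
      intro m
      induction m with
      | zero => simpa using h.refl _
      | succ m ih =>
        rw [← add_assoc, hu, pow_succ, ← mul_assoc]
        exact h.mul ih (hK _ (by omega))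
    obtain ⟨n, hn⟩ := h.arch c ((u K)⁻¹ * c) hc
    refine Or.inr (Or.inl ⟨c, hc, K + n, fun k hk => ?_⟩)
    obtain ⟨m, rfl⟩ := Nat.exists_eq_add_of_le (show K ≤ k by omega)
    have h1 := h.l (u K) _ _ (h.tr _ _ _ hn (h.pow_mono hc1 (show n ≤ m by omega)))
    rw [mul_inv_cancel_left] at h1
    exact h.tr _ _ _ h1 (hm m)
  · have hc1 : r 1 c := (h.tot 1 c).resolve_right hc
    have hm : ∀ m, r (u (K + m)) (u K * (c ^ m)⁻¹) := by
      intro m
      induction m with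
      | zero => simpa using h.refl _
      | succ m ih =>
        rw [← add_assoc, hu, pow_succ', mul_inv_rev, ← mul_assoc]
        exact h.mul ih (hK _ (by omega))
    obtain ⟨n, hn⟩ := h.arch c (c * u K) hc
    refine Or.inr (Or.inr ⟨c, hc, K + n, fun k hk => ?_⟩)
    obtain ⟨m, rfl⟩ := Nat.exists_eq_add_of_le (show K ≤ k by omega)
    have h1 := h.l c⁻¹ _ _ (h.rt (c ^ m)⁻¹ _ _
      (h.tr _ _ _ hn (h.pow_mono hc1 (show n ≤ m by omega))))
    have e1 : c⁻¹ * (c * u K * (c ^ m)⁻¹) = u K * (c ^ m)⁻¹ := by group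
    have e2 : c⁻¹ * (c ^ m * (c ^ m)⁻¹) = c⁻¹ := by group
    rw [e1, e2] at h1
    exact h.tr _ _ _ (hm m) h1

theorem Pre.seq (h : Pre r) (e : ℕ → ℕ → S) (he : ∀ j k, e j (k + 1) = e j k * e (j + 1) k)
    (N : ℕ) (hN : ∀ k, e N k = 1)
    (h0 : ∀ k, (r (e 0 k) 1 ∧ r 1 (e 0 k)) ∨ (r (e 0 (k + 1)) 1 ∧ r 1 (e 0 (k + 1)))) (k : ℕ) :
    r (e 0 k) 1 := by
  have key : ∀ i j, i + j = N → Tri r (e j) := by
    intro i
    induction i with
    | zero =>
      intro j hj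
      obtain rfl : j = N := by omega
      exact Or.inl fun k => by rw [hN]; exact ⟨h.refl _, h.refl _⟩
    | succ i ih => exact fun j hj => h.step (he j) (ih (j + 1) (by omega))
  rcases key N 0 rfl with hw | ⟨c, hc, K, hK⟩ | ⟨c, hc, K, hK⟩
  · exact (hw k).1
  · exfalso
    rcases h0 K with h1 | h1
    · exact hc (h.tr _ _ _ (hK K le_rfl) h1.1)
    · exact hc (h.tr _ _ _ (hK (K + 1) (by omega)) h1.1)
  · exfalso
    rcases h0 K with h1 | h1
    · exact hc (by simpa using h.inv (h.tr _ _ _ h1.2 (hK K le_rfl)))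
    · exact hc (by simpa using h.inv (h.tr _ _ _ h1.2 (hK (K + 1) (by omega))))

end Pool.Agent.H51.EngelA
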