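import Mathlib
import Pool.Agent.H51.EngelA

set_option autoImplicit false

namespace Pool.Agent.H51.EngelB

open Pool.Agent.H51.EngelA

/-- An Engel group acting on a complete chain, closed under pointwise max and min. -/
structure Setup (G X : Type*) [Group G] [LinearOrder X] [MulAction G X] : Prop where
  mono : ∀ (g : G) (x y : X), x ≤ y → g • x ≤ g • y
  sup : ∀ g h : G, ∃ k : G, ∀ x : X, k • x = max (g • x) (h • x)
  inf : ∀ g h : G, ∃ k : G, ∀ x : X, k • x = min (g • x) (h • x)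
  lub : ∀ s : Set X, ∃ b, IsLUB s b
  glb : ∀ s : Set X, ∃ b, IsGLB s b
  engel : ∀ x y : G, ∃ n : ℕ, (fun z : G => z⁻¹ * y⁻¹ * z * y)^[n] x = 1

variable {G X : Type*} [Group G] [LinearOrder X] [MulAction G X]

theorem Setup.le_iff (H : Setup G X) (g : G) {x y : X} : g • x ≤ g • y ↔ x ≤ y :=
  ⟨fun h => by simpa using H.mono g⁻¹ _ _ h, H.mono g x y⟩

theorem Setup.lt_iff (H : Setup G X) (g : G) {x y : X} : g • x < g • y ↔ x < y := by
  rw [← not_le, ← not_le, H.le_iff]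

theorem inv_fix {g : G} {x : X} (h : g • x = x) : g⁻¹ • x = x := by
  rw [inv_smul_eq_iff, h]

theorem Setup.inv_le (H : Setup G X) {g : G} {x y : X} : g⁻¹ • x ≤ y ↔ x ≤ g • y := by
  rw [← H.le_iff g, smul_inv_smul]

theorem Setup.le_inv (H : Setup G X) {g : G} {x y : X} : x ≤ g⁻¹ • y ↔ g • x ≤ y := by
  rw [← H.le_iff g, smul_inv_smul]

theorem Setup.inv_lt (H : Setup G X) {g : G} {x y : X} : g⁻¹ • x < y ↔ x < g • y := by
  rw [← H.lt_iff g, smul_inv_smul]

theorem Setup.lt_inv (H : Setup G X) {g : G} {x y : X} : x < g⁻¹ • y ↔ g • x < y := by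
  rw [← H.lt_iff g, smul_inv_smul]

/-- `f` is pointwise at least the identity. -/
def Pos (X : Type*) [LinearOrder X] [MulAction G X] (f : G) : Prop := ∀ x : X, x ≤ f • x

/-- `(p, q)` is an orbital interval of `f`. -/
def Orb (f : G) (p q : X) : Prop :=
  f • p = p ∧ f • q = q ∧ ∀ x, p < x → x < q → x < f • x

theorem Setup.fix_lub (H : Setup G X) {f : G} {s : Set X} {b : X} (hb : IsLUB s b)
    (h1 : ∀ y ∈ s, ∃ y' ∈ s, y ≤ f • y') (h2 : ∀ y ∈ s, ∃ y' ∈ s, f • y ≤ y') : f • b = b := by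
  apply le_antisymm
  · rw [← H.le_inv]
    apply hb.2
    intro y hy
    obtain ⟨y', hy', h⟩ := h2 y hy
    rw [H.le_inv]
    exact h.trans (hb.1 hy')
  · apply hb.2
    intro y hy
    obtain ⟨y', hy', h⟩ := h1 y hy
    exact h.trans (H.mono f _ _ (hb.1 hy'))

theorem Setup.fix_glb (H : Setup G X) {f : G} {s : Set X} {b : X} (hb : IsGLB s b)
    (h1 : ∀ y ∈ s, f • y = y) : f • b = b := by
  apply le_antisymm
  · apply hb.2
    intro y hy
    rw [← h1 y hy]
    exact H.mono f _ _ (hb.1 hy)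
  · rw [← H.inv_le]
    apply hb.2
    intro y hy
    rw [H.inv_le, h1 y hy]
    exact hb.1 hy

theorem Setup.exists_orb (H : Setup G X) {f : G} (hf : Pos X f) {x : X} (hx : f • x ≠ x) :
    ∃ p q : X, p < x ∧ x < q ∧ Orb f p q := by
  obtain ⟨p, hp⟩ := H.lub {y | y ≤ x ∧ f • y = y}
  obtain ⟨q, hq⟩ := H.glb {y | x ≤ y ∧ f • y = y}
  have fp : f • p = p := H.fix_lub hp (fun y hy => ⟨y, hy, hy.2.ge⟩) (fun y hy => ⟨y, hy, hy.2.le⟩)
  have fq : f • q = q := H.fix_glb hq fun y hy => hy.2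
  have hpx : p ≤ x := hp.2 fun y hy => hy.1
  have hxq : x ≤ q := hq.2 fun y hy => hy.1
  refine ⟨p, q, lt_of_le_of_ne hpx ?_, lt_of_le_of_ne hxq ?_, fp, fq, fun y h1 h2 => ?_⟩
  · rintro rfl; exact hx fp
  · rintro rfl; exact hx fq
  · refine lt_of_le_of_ne (hf y) fun h => ?_
    rcases le_total y x with h3 | h3
    · exact absurd (hp.1 ⟨h3, h.symm⟩) (not_le.2 h1)
    · exact absurd (hq.1 ⟨h3, h.symm⟩) (not_le.2 h2)

theorem Setup.lemR (H : Setup G X) {f k : G} {p q : X} (hf : Pos X f) (ho : Orb f p q)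
    (h1 : p ≤ k • p) (h2 : k • p < q) (h3 : q < k • q) : False := by
  obtain ⟨n, hn⟩ := H.engel k⁻¹ f
  have key : ∀ n : ℕ, ∀ d : G, (p ≤ d⁻¹ • p ∧ d⁻¹ • p < q ∧ q < d⁻¹ • q) →
      (fun z : G => z⁻¹ * f⁻¹ * z * f)^[n] d ≠ 1 := by
    intro n
    induction n with
    | zero =>
      rintro d ⟨-, -, h⟩ hd
      simp only [Function.iterate_zero, id] at hd
      subst hd
      simp at h
    | succ n ih =>
      rintro d ⟨a1, a2, a3⟩
      rw [Function.iterate_succ_apply]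
      apply ih
      have e : (d⁻¹ * f⁻¹ * d * f)⁻¹ = f⁻¹ * (d⁻¹ * (f * d)) := by group
      simp only [e, mul_smul]
      have b1 : d • p ≤ p := H.le_inv.1 a1
      have b2 : p < d • q := H.inv_lt.1 a2
      have b3 : d • q < q := H.lt_inv.1 a3
      refine ⟨?_, ?_, ?_⟩
      · rw [H.le_inv, ho.1, H.le_inv]
        exact hf _
      · rw [H.inv_lt, ho.2.1, H.inv_lt]
        calc f • d • p ≤ f • p := H.mono f _ _ b1
          _ = p := ho.1
          _ < _ := b2
      · rw [H.lt_inv, ho.2.1, H.lt_inv]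
        exact ho.2.2 _ b2 b3
  exact key n k⁻¹ (by simpa using ⟨h1, h2, h3⟩) hn

theorem Setup.lemL (H : Setup G X) {f k : G} {p q : X} (hf : Pos X f) (ho : Orb f p q)
    (h1 : k • p < p) (h2 : p < k • q) (h3 : k • q ≤ q) : False := by
  obtain ⟨n, hn⟩ := H.engel k⁻¹ f⁻¹
  have key : ∀ n : ℕ, ∀ d : G, (d⁻¹ • p < p ∧ p < d⁻¹ • q ∧ d⁻¹ • q ≤ q) →
      (fun z : G => z⁻¹ * f⁻¹⁻¹ * z * f⁻¹)^[n] d ≠ 1 := by
    intro n
    induction n with
    | zero =>
      rintro d ⟨h, -, -⟩ hd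
      simp only [Function.iterate_zero, id] at hd
      subst hd
      simp at h
    | succ n ih =>
      rintro d ⟨a1, a2, a3⟩
      rw [Function.iterate_succ_apply]
      apply ih
      have e : (d⁻¹ * f⁻¹⁻¹ * d * f⁻¹)⁻¹ = f * (d⁻¹ * (f⁻¹ * d)) := by group
      simp only [e, mul_smul]
      have b1 : p < d • p := H.inv_lt.1 a1
      have b2 : d • p < q := H.lt_inv.1 a2
      have b3 : q ≤ d • q := H.inv_le.1 a3
      refine ⟨?_, ?_, ?_⟩
      · rw [← H.lt_inv, inv_fix ho.1, H.inv_lt, H.inv_lt]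
        exact ho.2.2 _ b1 b2
      · rw [← H.inv_lt, inv_fix ho.1, H.lt_inv, H.lt_inv]
        calc f • d • p < f • q := (H.lt_iff f).2 b2
          _ = q := ho.2.1
          _ ≤ _ := b3
      · rw [← H.le_inv, inv_fix ho.2.1, H.inv_le, H.inv_le]
        exact hf _
  exact key n k⁻¹ (by simpa using ⟨h1, h2, h3⟩) hn

theorem Setup.block_aux (H : Setup G X) {f h : G} {p q x : X} (hf : Pos X f) (ho : Orb f p q)
    (a1 : p < x) (a2 : x < q) (a3 : p < h • x) (a4 : h • x < q) : h • q ≤ q ∧ p ≤ h • p := by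
  constructor
  · obtain ⟨k, hk⟩ := H.sup h 1
    by_contra hc
    rw [not_le] at hc
    refine H.lemR hf ho (k := k) ?_ ?_ ?_
    · rw [hk]; simp
    · rw [hk, one_smul, max_lt_iff]
      exact ⟨((H.lt_iff h).2 a1).trans a4, a1.trans a2⟩
    · rw [hk]; exact lt_max_of_lt_left hc
  · obtain ⟨k, hk⟩ := H.inf h 1
    by_contra hc
    rw [not_le] at hc
    refine H.lemL hf ho (k := k) ?_ ?_ ?_
    · rw [hk]; exact min_lt_of_left_lt hc
    · rw [hk, one_smul, lt_min_iff]
      exact ⟨a3.trans ((H.lt_iff h).2 a2), a1.trans a2⟩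
    · rw [hk]; simp

theorem Setup.block (H : Setup G X) {f h : G} {p q x : X} (hf : Pos X f) (ho : Orb f p q)
    (a1 : p < x) (a2 : x < q) (a3 : p < h • x) (a4 : h • x < q) : h • p = p ∧ h • q = q := by
  obtain ⟨b1, b2⟩ := H.block_aux hf ho a1 a2 a3 a4
  obtain ⟨c1, c2⟩ := H.block_aux (h := h⁻¹) hf ho a3 a4 (by simpa) (by simpa)
  exact ⟨le_antisymm (H.le_inv.1 c2) b2, le_antisymm b1 (H.inv_le.1 c1)⟩

/-- common fixed points -/
theorem Setup.cf (H : Setup G X) {c d : G} {p q x y : X} (hd : Pos X d)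
    (dp : d • p = p) (dq : d • q = q) (x1 : p < x) (x2 : x < q) (cx : c • x = x)
    (y1 : p < y) (y2 : y < q) (dy : d • y = y) :
    ∃ z, p < z ∧ z < q ∧ c • z = z ∧ d • z = z := by
  by_cases hx : d • x = x
  · exact ⟨x, x1, x2, cx, hx⟩
  obtain ⟨p', q', b1, b2, ho⟩ := H.exists_orb hd hx
  obtain ⟨c1, c2⟩ := H.block (h := c) hd ho b1 b2 (by rwa [cx]) (by rwa [cx])
  rcases le_total y x with h | h
  · refine ⟨p', ?_, b1.trans x2, c1, ho.1⟩
    by_contra hc
    exact absurd (ho.2.2 y (lt_of_le_of_lt (not_lt.1 hc) y1) (lt_of_le_of_lt h b2)) (by simp [dy])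
  · refine ⟨q', x1.trans b2, ?_, c2, ho.2.1⟩
    by_contra hc
    exact absurd (ho.2.2 y (lt_of_lt_of_le b1 h) (lt_of_lt_of_le y2 (not_lt.1 hc))) (by simp [dy])

/-- orbital intervals through a common point are nested -/
theorem Setup.nest (H : Setup G X) {f g : G} {p q p' q' x : X} (hf : Pos X f) (hg : Pos X g)
    (ho : Orb f p q) (ho' : Orb g p' q') (a1 : p < x) (a2 : x < q) (b1 : p' < x) (b2 : x < q') :
    (p ≤ p' ∧ q' ≤ q) ∨ (p' ≤ p ∧ q ≤ q') := by
  have aux : ∀ {f g : G} {p q p' q' : X}, Pos X f → Pos X g → Orb f p q → Orb g p' q' → p < x →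
      x < q → p' < x → x < q' → g • x < q → p ≤ p' ∧ q' ≤ q := by
    intro f g p q p' q' hf hg ho ho' a1 a2 b1 b2 h
    obtain ⟨c1, c2⟩ := H.block hf ho a1 a2 (a1.trans_le (hg x)) h
    constructor
    · by_contra hc
      exact absurd (ho'.2.2 p (not_le.1 hc) (a1.trans b2)) (by simp [c1])
    · by_contra hc
      exact absurd (ho'.2.2 q (b1.trans a2) (not_le.1 hc)) (by simp [c2])
  by_cases h : g • x < q
  · exact Or.inl (aux hf hg ho ho' a1 a2 b1 b2 h)
  · refine Or.inr (aux hg hf ho' ho b1 b2 a1 a2 ?_)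
    calc f • x < f • q := (H.lt_iff f).2 a2
      _ = q := ho.2.1
      _ ≤ g • x := not_lt.1 h
      _ < g • q' := (H.lt_iff g).2 b2
      _ = q' := ho'.2.1

/-- The stabiliser of two points. -/
def St (G : Type*) [Group G] [MulAction G X] (p q : X) : Subgroup G :=
  MulAction.stabilizer G p ⊓ MulAction.stabilizer G q

omit [LinearOrder X] in
theorem mem_St {p q : X} {g : G} : g ∈ St G p q ↔ g • p = p ∧ g • q = q := Iff.rfl

/-- The preorder on the stabiliser. -/
def Rel (p q : X) (c d : St G p q) : Prop := ∃ x, p < x ∧ x < q ∧ (c : G) • x ≤ (d : G) • x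

theorem Setup.mem_int (H : Setup G X) {p q x : X} (s : St G p q) (h1 : p < x) (h2 : x < q) :
    p < (s : G) • x ∧ (s : G) • x < q := by
  obtain ⟨a, b⟩ := mem_St.1 s.2
  constructor
  · exact lt_of_eq_of_lt a.symm ((H.lt_iff _).2 h1)
  · exact lt_of_lt_of_eq ((H.lt_iff _).2 h2) b

theorem Setup.pre (H : Setup G X) {p q w : X} (h1 : p < w) (h2 : w < q) :
    Pre (Rel (G := G) p q) where
  tot a b := by
    rcases le_total ((a : G) • w) ((b : G) • w) with h | h
    · exact Or.inl ⟨w, h1, h2, h⟩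
    · exact Or.inr ⟨w, h1, h2, h⟩
  tr a b c := by
    rintro ⟨x, x1, x2, hx⟩ ⟨y, y1, y2, hy⟩
    obtain ⟨u, hu⟩ := H.sup ((b : G)⁻¹ * a) 1
    obtain ⟨v, hv⟩ := H.sup ((c : G)⁻¹ * b) 1
    obtain ⟨s1, s2⟩ := mem_St.1 (c⁻¹ * b).2
    simp only [Subgroup.coe_mul, Subgroup.coe_inv] at s1 s2
    obtain ⟨z, z1, z2, z3, z4⟩ := H.cf (c := u) (d := v) (p := p) (q := q) (x := x) (y := y)
      (fun t => by rw [hv]; simp) (by rw [hv, s1]; simp) (by rw [hv, s2]; simp) x1 x2
      (by rw [hu, one_smul, max_eq_right_iff, mul_smul, H.inv_le]; exact hx) y1 y2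
      (by rw [hv, one_smul, max_eq_right_iff, mul_smul, H.inv_le]; exact hy)
    rw [hu, one_smul, max_eq_right_iff, mul_smul, H.inv_le] at z3
    rw [hv, one_smul, max_eq_right_iff, mul_smul, H.inv_le] at z4
    exact ⟨z, z1, z2, z3.trans z4⟩
  l s a b := by
    rintro ⟨x, x1, x2, hx⟩
    refine ⟨x, x1, x2, ?_⟩
    simp only [Subgroup.coe_mul, mul_smul]
    exact H.mono _ _ _ hx
  rt s a b := by
    rintro ⟨x, x1, x2, hx⟩
    obtain ⟨b1, b2⟩ := H.mem_int s⁻¹ x1 x2
    refine ⟨_, b1, b2, ?_⟩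
    simpa [mul_smul] using hx
  arch c d hc := by
    have up : ∀ x, p < x → x < q → x < (c : G) • x := by
      intro x x1 x2
      by_contra h
      exact hc ⟨x, x1, x2, by simpa using h⟩
    by_contra hn
    have hlt : ∀ n : ℕ, (c : G) ^ n • w < (d : G) • w := by
      intro n
      by_contra h
      exact hn ⟨n, w, h1, h2, by simpa using h⟩
    have hin : ∀ n : ℕ, p < (c : G) ^ n • w ∧ (c : G) ^ n • w < q := fun n => by
      simpa using H.mem_int (c ^ n) h1 h2
    obtain ⟨b, hb⟩ := H.lub (Set.range fun n : ℕ => (c : G) ^ n • w)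
    have fb : (c : G) • b = b := by
      refine H.fix_lub hb ?_ ?_
      · rintro _ ⟨n, rfl⟩
        exact ⟨_, ⟨n, rfl⟩, (up _ (hin n).1 (hin n).2).le⟩
      · rintro _ ⟨n, rfl⟩
        exact ⟨_, ⟨n + 1, rfl⟩, by simp [pow_succ', mul_smul]⟩
    have b1 : p < b := lt_of_lt_of_le (hin 0).1 (hb.1 ⟨0, rfl⟩)
    have b2 : b < q := lt_of_le_of_lt (hb.2 (by rintro _ ⟨n, rfl⟩; exact (hlt n).le))
      (H.mem_int d h1 h2).2
    exact absurd (up b b1 b2) (by simp [fb])

theorem Setup.max_orb (H : Setup G X) (a : ℕ → G) (ha : ∀ i, Pos X (a i)) {w : X}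
    (hw : a 0 • w ≠ w) (m : ℕ) :
    ∃ p q i0, p < w ∧ w < q ∧ Orb (a i0) p q ∧ ∀ i < m, a i • w < q := by
  induction m with
  | zero =>
    obtain ⟨p, q, h1, h2, ho⟩ := H.exists_orb (ha 0) hw
    exact ⟨p, q, 0, h1, h2, ho, fun i hi => absurd hi (by omega)⟩
  | succ m ih =>
    obtain ⟨p, q, i0, h1, h2, ho, hm⟩ := ih
    by_cases h : a m • w = w
    · refine ⟨p, q, i0, h1, h2, ho, fun i hi => ?_⟩
      rcases Nat.lt_succ_iff_lt_or_eq.1 hi with hi | rfl
      · exact hm i hi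
      · rwa [h]
    · obtain ⟨p', q', b1, b2, ho'⟩ := H.exists_orb (ha m) h
      have hq : a m • w < q' := lt_of_lt_of_eq ((H.lt_iff _).2 b2) ho'.2.1
      rcases H.nest (ha i0) (ha m) ho ho' h1 h2 b1 b2 with ⟨-, c⟩ | ⟨-, c⟩
      · refine ⟨p, q, i0, h1, h2, ho, fun i hi => ?_⟩
        rcases Nat.lt_succ_iff_lt_or_eq.1 hi with hi | rfl
        · exact hm i hi
        · exact hq.trans_le c
      · refine ⟨p', q', m, b1, b2, ho', fun i hi => ?_⟩
        rcases Nat.lt_succ_iff_lt_or_eq.1 hi with hi | rfl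
        · exact (hm i hi).trans_le c
        · exact hq

theorem Setup.main (H : Setup G X) (c k : G) (hc : Pos X c)
    (hd : ∀ z : X, c • z = z ∨ (k * c * k⁻¹) • z = z) (w : X) : c • w = w := by
  by_contra hw
  obtain ⟨N, hN⟩ := H.engel c k⁻¹
  set F : G → G := fun z : G => z⁻¹ * k⁻¹⁻¹ * z * k⁻¹ with hF
  let e : ℕ → ℕ → G := fun j i => k ^ i * F^[j] c * (k ^ i)⁻¹
  have he : ∀ j i, e j (i + 1) = e j i * e (j + 1) i := by
    intro j i
    simp only [e, Function.iterate_succ_apply', hF]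
    group
  have he' : ∀ j i, e (j + 1) i = (e j i)⁻¹ * e j (i + 1) := by
    intro j i
    rw [he]; group
  have hNj : ∀ j i, N ≤ j → e j i = 1 := by
    intro j i hj
    obtain ⟨m, rfl⟩ := Nat.exists_eq_add_of_le hj
    have : F^[N + m] c = 1 := by
      rw [add_comm, Function.iterate_add_apply, hN]
      apply Function.iterate_fixed
      simp [hF]
    simp [e, this]
  have hpos : ∀ i, Pos X (e 0 i) := by
    intro i x
    simp only [e, Function.iterate_zero, id, mul_smul]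
    rw [← H.inv_le]
    exact hc _
  have hdis : ∀ i (z : X), e 0 i • z = z ∨ e 0 (i + 1) • z = z := by
    intro i z
    rcases hd ((k ^ i)⁻¹ • z) with h | h
    · left
      simp only [e, Function.iterate_zero, id, mul_smul]
      rw [h, smul_inv_smul]
    · right
      have : e 0 (i + 1) = k ^ i * (k * c * k⁻¹) * (k ^ i)⁻¹ := by
        simp only [e, Function.iterate_zero, id]; group
      rw [this, mul_smul, mul_smul, h, smul_inv_smul]
  obtain ⟨p, q, i0, h1, h2, ho, hm⟩ := H.max_orb (e 0) hpos (w := w) (by simpa [e] using hw) N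
  have m0 : ∀ j i, i + j < N → e j i ∈ St G p q := by
    intro j
    induction j with
    | zero =>
      intro i hi
      exact mem_St.2 (H.block (hpos i0) ho h1 h2 (h1.trans_le (hpos i w)) (hm i hi))
    | succ j ih =>
      intro i hi
      rw [he']
      exact Subgroup.mul_mem _ (Subgroup.inv_mem _ (ih i (by omega))) (ih (i + 1) (by omega))
  have m1 : ∀ i j, e j i ∈ St G p q := by
    intro i
    induction i with
    | zero =>
      intro j
      by_cases hj : j < N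
      · exact m0 j 0 (by omega)
      · rw [hNj j 0 (by omega)]; exact Subgroup.one_mem _
    | succ i ih =>
      intro j
      rw [he]
      exact Subgroup.mul_mem _ (ih j) (ih (j + 1))
  have key := (H.pre h1 h2).seq (fun j i => ⟨e j i, m1 i j⟩)
    (fun j i => Subtype.ext (he j i)) N (fun i => Subtype.ext (hNj N i le_rfl))
    (fun i => by
      rcases hdis i w with h | h
      · exact Or.inl ⟨⟨w, h1, h2, by simp [h]⟩, ⟨w, h1, h2, by simp [h]⟩⟩
      · exact Or.inr ⟨⟨w, h1, h2, by simp [h]⟩, ⟨w, h1, h2, by simp [h]⟩⟩) i0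
  obtain ⟨x, x1, x2, hx⟩ := key
  exact absurd (ho.2.2 x x1 x2) (by simpa using hx)

end Pool.Agent.H51.EngelB
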