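import Mathlib
import Pool.Agent.H51.EngelB

set_option autoImplicit false

namespace Pool.Agent.H51.EngelC

open Pool.Agent.H51.EngelB

variable {G : Type} [Group G] [Lattice G] [MulLeftMono G] [MulRightMono G]

theorem distrib (x y z : G) : x ⊓ (y ⊔ z) ≤ x ⊓ y ⊔ x ⊓ z := by
  have key : ∀ t w : G, t ≤ w → (x * w⁻¹ ⊓ 1) * t ≤ x ⊓ t := by
    intro t w h
    rw [inf_mul, one_mul]
    apply inf_le_inf_right
    rw [mul_assoc]
    have : w⁻¹ * t ≤ 1 := by rw [inv_mul_le_iff_le_mul, mul_one]; exact h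
    simpa using mul_le_mul_right this x
  have e : x ⊓ (y ⊔ z) = (x * (y ⊔ z)⁻¹ ⊓ 1) * (y ⊔ z) := by
    rw [inf_mul, one_mul, inv_mul_cancel_right]
  rw [e]
  conv_lhs => rw [mul_sup]
  exact sup_le_sup (key y _ le_sup_left) (key z _ le_sup_right)

/-- A prime lattice ideal, as a set. -/
structure PrimeId (I : Set G) : Prop where
  lower : ∀ x y, x ≤ y → y ∈ I → x ∈ I
  sup : ∀ x y, x ∈ I → y ∈ I → x ⊔ y ∈ I
  prime : ∀ x y, x ⊓ y ∈ I → x ∈ I ∨ y ∈ I

theorem exists_prime {a : G} (ha : ¬ a ≤ 1) : ∃ I : Set G, PrimeId I ∧ (1 : G) ∈ I ∧ a ∉ I := by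
  letI : DistribLattice G := DistribLattice.ofInfSupLe distrib
  obtain ⟨J, hJ, h1, h2⟩ := DistribLattice.prime_ideal_of_disjoint_filter_ideal
    (F := Order.PFilter.principal a) (I := Order.Ideal.principal (1 : G)) (by
      rw [Set.disjoint_left]
      intro x hx hx'
      exact ha (le_trans (Order.PFilter.mem_principal.1 hx) (Order.Ideal.mem_principal.1 hx')))
  refine ⟨J, ⟨fun x y h hy => J.lower h hy, fun x y hx hy => Order.Ideal.sup_mem hx hy,
    fun x y h => hJ.mem_or_mem h⟩, h1 (Order.Ideal.mem_principal.2 le_rfl), fun h => ?_⟩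
  exact Set.disjoint_left.1 h2 (Order.PFilter.mem_principal.2 le_rfl) h

/-- The left-invariant preorder attached to `I`. -/
def Le (I : Set G) (x y : G) : Prop := ∀ z, z * y ∈ I → z * x ∈ I

omit [Lattice G] [MulLeftMono G] [MulRightMono G] in
theorem Le.mul {I : Set G} {x y : G} (g : G) (h : Le I x y) : Le I (g * x) (g * y) := by
  intro z hz
  rw [← mul_assoc] at hz ⊢
  exact h _ hz

omit [Lattice G] [MulLeftMono G] [MulRightMono G] in
theorem Le.trans {I : Set G} {x y z : G} (h : Le I x y) (h' : Le I y z) : Le I x z :=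
  fun t ht => h t (h' t ht)

omit [MulRightMono G] in
theorem PrimeId.of_le {I : Set G} (hI : PrimeId I) {x y : G} (h : x ≤ y) : Le I x y :=
  fun z hz => hI.lower _ _ (mul_le_mul_right h z) hz

theorem PrimeId.disj {I : Set G} (hI : PrimeId I) {a b : G} (hab : a ⊓ b = 1) :
    Le I a 1 ∨ Le I b 1 := by
  by_contra hc
  simp only [Le, not_or, not_forall, mul_one] at hc
  obtain ⟨⟨u, hu, hu'⟩, ⟨w, hw, hw'⟩⟩ := hc
  have ht := hI.sup u w hu hw
  have : (u ⊔ w) * a ⊓ (u ⊔ w) * b ∈ I := by rw [← mul_inf, hab, mul_one]; exact ht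
  rcases hI.prime _ _ this with h | h
  · exact hu' (hI.lower _ _ (mul_le_mul_left le_sup_left a) h)
  · exact hw' (hI.lower _ _ (mul_le_mul_left le_sup_right b) h)

theorem PrimeId.total {I : Set G} (hI : PrimeId I) (x y : G) : Le I x y ∨ Le I y x := by
  rcases hI.disj (oneLePart_inf_leOnePart_eq_one (y⁻¹ * x)) with h | h
  · left
    have := ((hI.of_le (le_oneLePart (y⁻¹ * x))).trans h).mul y
    simpa using this
  · right
    have := ((hI.of_le (inv_le_leOnePart (y⁻¹ * x))).trans h).mul x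
    simpa using this

/-- Cuts of the preorder. -/
def Cut (I : Set G) : Type := {D : Set G // ∀ x y, Le I x y → y ∈ D → x ∈ D}

/-- The order of cuts. -/
@[reducible] noncomputable def cutOrder {I : Set G} (hI : PrimeId I) : LinearOrder (Cut I) where
  le D E := D.1 ⊆ E.1
  le_refl D := subset_rfl
  le_trans D E F h h' := h.trans h'
  le_antisymm D E h h' := Subtype.ext (h.antisymm h')
  le_total D E := by
    by_contra hc
    simp only [not_or, Set.not_subset] at hc
    obtain ⟨⟨x, hx, hx'⟩, ⟨y, hy, hy'⟩⟩ := hc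
    rcases hI.total x y with h | h
    · exact hx' (E.2 _ _ h hy)
    · exact hy' (D.2 _ _ h hx)
  toDecidableLE := Classical.decRel _

instance cutAct (I : Set G) : MulAction G (Cut I) where
  smul g D := ⟨{x | g⁻¹ * x ∈ D.1}, fun _ _ h hy => D.2 _ _ (h.mul g⁻¹) hy⟩
  one_smul D := Subtype.ext (by ext x; change (1 : G)⁻¹ * x ∈ D.1 ↔ _; simp)
  mul_smul g h D := Subtype.ext (by
    ext x
    change (g * h)⁻¹ * x ∈ D.1 ↔ h⁻¹ * (g⁻¹ * x) ∈ D.1
    rw [mul_inv_rev, mul_assoc])

omit [Lattice G] [MulLeftMono G] [MulRightMono G] in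
theorem mem_smul {I : Set G} (g : G) (D : Cut I) (x : G) : x ∈ (g • D).1 ↔ g⁻¹ * x ∈ D.1 :=
  Iff.rfl

theorem mem_sup {I : Set G} (hI : PrimeId I) (D : Cut I) (g h x : G) :
    (g ⊔ h) * x ∈ D.1 ↔ g * x ∈ D.1 ∧ h * x ∈ D.1 := by
  constructor
  · intro H
    exact ⟨D.2 _ _ (hI.of_le (mul_le_mul_left le_sup_left x)) H,
      D.2 _ _ (hI.of_le (mul_le_mul_left le_sup_right x)) H⟩
  · rintro ⟨h1, h2⟩
    rcases hI.total (g * x) (h * x) with H | H
    · refine D.2 _ _ (fun z hz => ?_) h2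
      rw [sup_mul, mul_sup]
      exact hI.sup _ _ (H z hz) hz
    · refine D.2 _ _ (fun z hz => ?_) h1
      rw [sup_mul, mul_sup]
      exact hI.sup _ _ hz (H z hz)

theorem mem_inf {I : Set G} (hI : PrimeId I) (D : Cut I) (g h x : G) :
    (g ⊓ h) * x ∈ D.1 ↔ g * x ∈ D.1 ∨ h * x ∈ D.1 := by
  constructor
  · intro H
    rcases hI.total (g * x) (h * x) with H' | H'
    · refine Or.inl (D.2 _ _ (fun z hz => ?_) H)
      rw [inf_mul, mul_inf] at hz
      rcases hI.prime _ _ hz with h1 | h1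
      · exact h1
      · exact H' z h1
    · refine Or.inr (D.2 _ _ (fun z hz => ?_) H)
      rw [inf_mul, mul_inf] at hz
      rcases hI.prime _ _ hz with h1 | h1
      · exact H' z h1
      · exact h1
  · rintro (h1 | h1)
    · exact D.2 _ _ (hI.of_le (mul_le_mul_left inf_le_left x)) h1
    · exact D.2 _ _ (hI.of_le (mul_le_mul_left inf_le_right x)) h1

theorem sup_smul {I : Set G} (hI : PrimeId I) (g h : G) (D : Cut I) :
    letI := cutOrder hI
    (g ⊔ h) • D = max (g • D) (h • D) := by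
  letI := cutOrder hI
  apply le_antisymm
  · intro x hx
    rw [mem_smul, inv_sup, mem_inf hI] at hx
    rcases hx with hx | hx
    · exact (le_max_left (g • D) (h • D) : (g • D).1 ⊆ _) hx
    · exact (le_max_right (g • D) (h • D) : (h • D).1 ⊆ _) hx
  · apply max_le
    · intro x hx
      rw [mem_smul, inv_sup, mem_inf hI]
      exact Or.inl hx
    · intro x hx
      rw [mem_smul, inv_sup, mem_inf hI]
      exact Or.inr hx

theorem inf_smul {I : Set G} (hI : PrimeId I) (g h : G) (D : Cut I) :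
    letI := cutOrder hI
    (g ⊓ h) • D = min (g • D) (h • D) := by
  letI := cutOrder hI
  apply le_antisymm
  · apply le_min
    · intro x hx
      rw [mem_smul, inv_inf, mem_sup hI] at hx
      exact hx.1
    · intro x hx
      rw [mem_smul, inv_inf, mem_sup hI] at hx
      exact hx.2
  · intro x hx
    rw [mem_smul, inv_inf, mem_sup hI]
    exact ⟨(min_le_left (g • D) (h • D) : _ ⊆ (g • D).1) hx,
      (min_le_right (g • D) (h • D) : _ ⊆ (h • D).1) hx⟩

theorem setup {I : Set G} (hI : PrimeId I)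
    (hE : ∀ x y : G, ∃ n : ℕ, (fun z : G => z⁻¹ * y⁻¹ * z * y)^[n] x = 1) :
    letI := cutOrder hI
    Setup G (Cut I) := by
  letI := cutOrder hI
  refine ⟨fun g D E h x hx => h hx, fun g h => ⟨g ⊔ h, sup_smul hI g h⟩,
    fun g h => ⟨g ⊓ h, inf_smul hI g h⟩, fun s => ?_, fun s => ?_, hE⟩
  · refine ⟨⟨{x | ∃ D ∈ s, x ∈ D.1}, ?_⟩, ?_, ?_⟩
    · rintro x y h ⟨D, hD, hy⟩
      exact ⟨D, hD, D.2 _ _ h hy⟩
    · intro D hD x hx
      exact ⟨D, hD, hx⟩
    · rintro E hE x ⟨D, hD, hx⟩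
      exact hE hD hx
  · refine ⟨⟨{x | ∀ D ∈ s, x ∈ D.1}, ?_⟩, ?_, ?_⟩
    · intro x y h hy D hD
      exact D.2 _ _ h (hy D hD)
    · intro D hD x hx
      exact hx D hD
    · intro E hE x hx D hD
      exact hE hD hx

/-- The principal cut. -/
def pr (I : Set G) (s : G) : Cut I := ⟨{x | Le I x s}, fun _ _ h hy => h.trans hy⟩

omit [Lattice G] [MulLeftMono G] [MulRightMono G] in
theorem smul_pr (I : Set G) (g s : G) : g • pr I s = pr I (g * s) := by
  apply Subtype.ext
  ext x
  change Le I (g⁻¹ * x) s ↔ Le I x (g * s)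
  exact ⟨fun h => by simpa using Le.mul g h, fun h => by simpa using Le.mul g⁻¹ h⟩

theorem comp {I : Set G} (hI : PrimeId I)
    (hE : ∀ x y : G, ∃ n : ℕ, (fun z : G => z⁻¹ * y⁻¹ * z * y)^[n] x = 1) (u : G) :
    letI := cutOrder hI
    (∀ D : Cut I, u • D ≤ D) ∨ (∀ D : Cut I, D ≤ u • D) := by
  letI := cutOrder hI
  have H := setup hI hE
  by_contra hc
  simp only [not_or, not_forall] at hc
  obtain ⟨⟨D, hD⟩, ⟨E, hE'⟩⟩ := hc
  obtain ⟨t, ht, ht'⟩ := Set.not_subset.1 hD
  obtain ⟨r, hr, hr'⟩ := Set.not_subset.1 hE'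
  rw [mem_smul] at ht hr'
  set s := u⁻¹ * t with hs
  have h1 : pr I s < u • pr I s := by
    rw [← not_le, smul_pr]
    intro h
    have : Le I t s := h (show Le I t (u * s) by rw [hs, mul_inv_cancel_left]; exact fun _ h => h)
    exact ht' (D.2 _ _ this ht)
  have h2 : pr I r < u⁻¹ • pr I r := by
    rw [← not_le, smul_pr]
    intro h
    have : Le I (u⁻¹ * r) r := h (show Le I (u⁻¹ * r) (u⁻¹ * r) from fun _ h => h)
    exact hr' (E.2 _ _ this hr)
  set k := r * s⁻¹ with hk
  have hks : k • pr I s = pr I r := by rw [smul_pr, hk, inv_mul_cancel_right]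
  have hc : ∀ z : Cut I, ((u ⊔ 1) ⊓ (k⁻¹ * (u⁻¹ ⊔ 1) * k)) • z =
      min (max (u • z) z) (k⁻¹ • max (u⁻¹ • k • z) (k • z)) := by
    intro z
    rw [inf_smul hI, sup_smul hI, one_smul, mul_smul, mul_smul, sup_smul hI, one_smul]
  have := H.main ((u ⊔ 1) ⊓ (k⁻¹ * (u⁻¹ ⊔ 1) * k)) k (fun z => by
      rw [hc, le_min_iff, H.le_inv]
      exact ⟨le_max_right _ _, le_max_right _ _⟩) (fun z => by
      rcases le_total (u • z) z with h | h
      · left
        rw [hc, max_eq_right h, min_eq_left_iff, H.le_inv]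
        exact le_max_right _ _
      · right
        rw [mul_smul, mul_smul, hc, smul_inv_smul, max_eq_right (H.inv_le.2 h), min_eq_right,
          smul_inv_smul]
        exact le_max_right _ _) (pr I s)
  rw [hc, hks, max_eq_left h1.le, max_eq_left h2.le] at this
  have h3 : pr I s < k⁻¹ • u⁻¹ • pr I r := by rw [H.lt_inv, hks]; exact h2
  exact absurd (lt_min h1 h3) (by rw [this]; exact lt_irrefl _)

theorem main (hE : ∀ x y : G, ∃ n : ℕ, (fun z : G => z⁻¹ * y⁻¹ * z * y)^[n] x = 1) (g : G)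
    (hg : g ≠ 1) : ∃ (H : Type) (_ : Group H) (_ : LinearOrder H) (_ : MulLeftMono H)
      (_ : MulRightMono H) (f : G →* H),
      (∀ a b : G, f (a ⊔ b) = f a ⊔ f b) ∧ (∀ a b : G, f (a ⊓ b) = f a ⊓ f b) ∧ f g ≠ 1 := by
  have : ∃ a : G, ¬ a ≤ 1 ∧ (a = g ∨ a = g⁻¹) := by
    by_cases h : g ≤ 1
    · exact ⟨g⁻¹, fun h' => hg (le_antisymm h (by simpa using h')), Or.inr rfl⟩
    · exact ⟨g, h, Or.inl rfl⟩
  obtain ⟨a, ha, hag⟩ := this
  obtain ⟨I, hI, h1, haI⟩ := exists_prime ha
  letI := cutOrder hI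
  have H := setup hI hE
  let φ := MulAction.toPermHom G (Cut I)
  let f := φ.rangeRestrict
  have hf : ∀ (x : G) (D : Cut I), (f x : Equiv.Perm (Cut I)) D = x • D := fun _ _ => rfl
  have hs : Function.Surjective f := φ.rangeRestrict_surjective
  letI ord : LinearOrder φ.range :=
    { le := fun σ τ => ∀ D, (σ : Equiv.Perm (Cut I)) D ≤ (τ : Equiv.Perm (Cut I)) D
      le_refl := fun _ _ => le_rfl
      le_trans := fun _ _ _ h h' D => (h D).trans (h' D)
      le_antisymm := fun _ _ h h' => Subtype.ext (Equiv.ext fun D => le_antisymm (h D) (h' D))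
      le_total := by
        intro σ τ
        obtain ⟨x, rfl⟩ := hs σ
        obtain ⟨y, rfl⟩ := hs τ
        rcases comp hI hE (y⁻¹ * x) with h | h
        · left
          intro D
          have := h D
          rwa [mul_smul, H.inv_le] at this
        · right
          intro D
          have := h D
          rwa [mul_smul, H.le_inv] at this
      toDecidableLE := Classical.decRel _ }
  have hle : ∀ x y : G, f x ≤ f y ↔ ∀ D : Cut I, x • D ≤ y • D := fun _ _ => Iff.rfl
  have hext : ∀ x y : G, (∀ D : Cut I, x • D = y • D) → f x = f y := fun x y h =>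
    le_antisymm (fun D => (h D).le) (fun D => (h D).ge)
  refine ⟨φ.range, inferInstance, ord, ⟨?_⟩, ⟨?_⟩, f, ?_, ?_, ?_⟩
  · intro σ τ ρ h
    obtain ⟨x, rfl⟩ := hs σ
    intro D
    exact H.mono x _ _ (h D)
  · intro σ τ ρ h D
    exact h _
  · intro x y
    rcases le_total (f x) (f y) with h | h
    · rw [sup_eq_right.2 h]
      exact hext _ _ fun D => by rw [sup_smul hI, max_eq_right ((hle _ _).1 h D)]
    · rw [sup_eq_left.2 h]
      exact hext _ _ fun D => by rw [sup_smul hI, max_eq_left ((hle _ _).1 h D)]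
  · intro x y
    rcases le_total (f x) (f y) with h | h
    · rw [inf_eq_left.2 h]
      exact hext _ _ fun D => by rw [inf_smul hI, min_eq_left ((hle _ _).1 h D)]
    · rw [inf_eq_right.2 h]
      exact hext _ _ fun D => by rw [inf_smul hI, min_eq_right ((hle _ _).1 h D)]
  · intro h
    have h' : f a = 1 := by
      rcases hag with rfl | rfl
      · exact h
      · rw [map_inv, h, inv_one]
    have h2 : a • pr I 1 = pr I 1 := by rw [← hf, h']; rfl
    rw [smul_pr, mul_one] at h2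
    have h3 : a ∈ (pr I a).1 := fun _ h => h
    rw [h2] at h3
    exact haI (by simpa using h3 1 (by simpa using h1))

end Pool.Agent.H51.EngelC
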