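import Pool.Agent.H51.EqTDefs

namespace Pool.Agent.H51.EqT

open Finset

variable {V : Type} [Fintype V] [DecidableEq V] {n : ℕ}

def cross (S : Finset V) (x : V → Fin n → Bool) : List (Step V n) → List Bool
  | [] => []
  | s :: l => if (s.src ∈ S ↔ s.dst ∈ S) then cross S x l
      else s.bit (x s.src) (view x l s.src) :: cross S x l

def cnt (S : Finset V) : List (Step V n) → ℕ
  | [] => 0
  | s :: l => (if (s.src ∈ S ↔ s.dst ∈ S) then 0 else 1) + cnt S l

omit [Fintype V] in
lemma cross_length (S : Finset V) (x : V → Fin n → Bool) (l : List (Step V n)) :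
    (cross S x l).length = cnt S l := by
  induction l with
  | nil => rfl
  | cons s l ih =>
    simp only [cross, cnt]
    split_ifs
    · simpa using ih
    · simp [ih, add_comm]

omit [Fintype V] in
lemma hybrid (S : Finset V) (y y' : Fin n → Bool) (l : List (Step V n))
    (h : cross S (fun _ => y) l = cross S (fun _ => y') l) (v : V) :
    view (fun u => if u ∈ S then y else y') l v =
      if v ∈ S then view (fun _ => y) l v else view (fun _ => y') l v := by
  induction l generalizing v with
  | nil => simp [view]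
  | cons s l ih =>
    simp only [cross] at h
    by_cases hs : (s.src ∈ S ↔ s.dst ∈ S)
    · rw [if_pos hs, if_pos hs] at h
      simp only [view, ih h]
      by_cases hv : v = s.dst
      · subst hv
        by_cases h1 : s.dst ∈ S
        · simp [h1, hs.2 h1]
        · have h2 : s.src ∉ S := fun h' => h1 (hs.1 h')
          simp [h1, h2]
      · simp [hv]
    · rw [if_neg hs, if_neg hs] at h
      obtain ⟨h1, h2⟩ := List.cons.inj h
      simp only [view, ih h2]
      by_cases hv : v = s.dst
      · subst hv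
        by_cases h3 : s.dst ∈ S
        · have h4 : s.src ∉ S := fun h' => hs ⟨fun _ => h3, fun _ => h'⟩
          simp [h3, h4, h1]
        · have h4 : s.src ∈ S := by
            by_contra h'
            exact hs ⟨fun h => absurd h h', fun h => absurd h h3⟩
          simp [h3, h4, h1]
      · simp [hv]

lemma cut_bound {G : SimpleGraph V} {l : List (Step V n)} (hl : Solves G l) (S : Finset V)
    (h0 : S ≠ ∅) (h1 : S ≠ univ) : n ≤ cnt S l := by
  obtain ⟨-, acc, hacc⟩ := hl
  obtain ⟨a, ha⟩ := nonempty_iff_ne_empty.2 h0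
  obtain ⟨b, hb⟩ : ∃ b, b ∉ S := by
    by_contra h
    push Not at h
    exact h1 (eq_univ_of_forall h)
  let F : (Fin n → Bool) → List.Vector Bool (cnt S l) :=
    fun y => ⟨cross S (fun _ => y) l, cross_length _ _ _⟩
  have hF : Function.Injective F := by
    intro y y' h
    have h2 : cross S (fun _ => y) l = cross S (fun _ => y') l := congrArg Subtype.val h
    have h3 := (hacc (fun u => if u ∈ S then y else y')).1 (fun v => by
      rw [hybrid S y y' l h2 v]
      split_ifs
      · exact (hacc (fun _ => y)).2 (fun _ _ => rfl) v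
      · exact (hacc (fun _ => y')).2 (fun _ _ => rfl) v) a b
    simpa [ha, hb] using h3
  have := Fintype.card_le_of_injective F hF
  simp only [Fintype.card_fun, Fintype.card_bool, Fintype.card_fin, card_vector] at this
  exact (Nat.pow_le_pow_iff_right (by norm_num)).1 this

lemma packing_len {G : SimpleGraph V} {g : Finset V → ℝ} (hg : IsPacking G g)
    (l : List (Step V n)) (hl : ∀ s ∈ l, G.Adj s.src s.dst) :
    ∑ S, g S * cnt S l ≤ l.length := by
  induction l with
  | nil => simp [cnt]
  | cons s l ih =>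
    have h1 := ih (fun t ht => hl t (List.mem_cons_of_mem _ ht))
    have h2 := hg.2.2.2 _ _ (hl s List.mem_cons_self)
    rw [sum_filter] at h2
    simp only [cnt, Nat.cast_add, mul_add, sum_add_distrib, List.length_cons, Nat.cast_one]
    have : ∑ S, g S * (((if (s.src ∈ S ↔ s.dst ∈ S) then 0 else 1 : ℕ)) : ℝ) =
        ∑ S, if ¬(s.src ∈ S ↔ s.dst ∈ S) then g S else 0 := by
      refine sum_congr rfl fun S _ => ?_
      split_ifs <;> simp
    linarith

lemma packing_le {G : SimpleGraph V} {g : Finset V → ℝ} (hg : IsPacking G g)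
    {l : List (Step V n)} (hl : Solves G l) : (∑ S, g S) * n ≤ l.length := by
  refine le_trans ?_ (packing_len hg l hl.1)
  rw [sum_mul]
  refine sum_le_sum fun S _ => ?_
  by_cases h0 : S = ∅
  · simp [h0, hg.2.1]
  by_cases h1 : S = univ
  · simp [h1, hg.2.2.1]
  have : (n : ℝ) ≤ cnt S l := by exact_mod_cast cut_bound hl S h0 h1
  exact mul_le_mul_of_nonneg_left this (hg.1 S).1

lemma packing_zero (G : SimpleGraph V) : IsPacking G (fun _ => 0) := by
  simp [IsPacking]

lemma fc_le {G : SimpleGraph V} (hn : 0 < n) (h : ∃ l : List (Step V n), Solves G l) :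
    fc G ≤ (cost G n : ℝ) / n := by
  obtain ⟨l, hl⟩ := h
  obtain ⟨l', hl', he⟩ : cost G n ∈ {c | ∃ l : List (Step V n), Solves G l ∧ l.length = c} :=
    Nat.sInf_mem ⟨_, l, hl, rfl⟩
  refine csSup_le ⟨_, _, packing_zero G, rfl⟩ ?_
  rintro _ ⟨g, hg, rfl⟩
  rw [le_div_iff₀ (by exact_mod_cast hn), ← he]
  exact packing_le hg hl'

omit [Fintype V] in
lemma view_na (l : List (V × V × ((Fin n → Bool) → Bool))) (x : V → Fin n → Bool) (v : V) :
    view x (l.map fun p => ⟨p.1, p.2.1, fun y _ => p.2.2 y⟩) v =
      view (fun _ => x v) (l.map fun p => ⟨p.1, p.2.1, fun y _ => p.2.2 y⟩) v ↔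
    ∀ p ∈ l, p.2.1 = v → p.2.2 (x p.1) = p.2.2 (x v) := by
  induction l with
  | nil => simp [view]
  | cons p l ih =>
    simp only [List.map_cons, view, List.forall_mem_cons]
    by_cases hv : v = p.2.1
    · rw [if_pos hv, if_pos hv, List.cons.injEq, ih]
      simp [hv]
    · rw [if_neg hv, if_neg hv, ih]
      simp [Ne.symm hv]

lemma labels {G : SimpleGraph V} {C Λ : Type} [Fintype C] [Fintype Λ] (u w : C → V)
    (hadj : ∀ c, G.Adj (u c) (w c)) (L : ℕ) (hL : Fintype.card Λ ≤ 2 ^ L)
    (φ : C → (Fin n → Bool) → Λ)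
    (h : ∀ x : V → Fin n → Bool, (∀ c, φ c (x (u c)) = φ c (x (w c))) → ∀ a b, x a = x b) :
    ∃ l : List (Step V n), Solves G l ∧ l.length = Fintype.card C * L := by
  classical
  obtain ⟨e⟩ : Nonempty (Λ ↪ (Fin L → Bool)) :=
    Function.Embedding.nonempty_of_card_le (by simpa using hL)
  let l : List (V × V × ((Fin n → Bool) → Bool)) :=
    (univ : Finset (C × Fin L)).toList.map fun p => (u p.1, w p.1, fun y => e (φ p.1 y) p.2)
  refine ⟨l.map fun p => ⟨p.1, p.2.1, fun y _ => p.2.2 y⟩, ⟨?_, fun v y t =>
    decide (t = view (fun _ => y) (l.map fun p => ⟨p.1, p.2.1, fun y _ => p.2.2 y⟩) v), ?_⟩, ?_⟩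
  · intro s hs
    simp only [l, List.mem_map] at hs
    obtain ⟨_, ⟨p, -, rfl⟩, rfl⟩ := hs
    exact hadj _
  · intro x
    simp only [decide_eq_true_eq, view_na]
    constructor
    · intro H
      apply h
      intro c
      apply e.injective
      funext j
      exact H (w c) (u c, w c, fun y => e (φ c y) j)
        (List.mem_map.2 ⟨(c, j), by simp, rfl⟩) rfl
    · intro H v p _ _
      rw [H p.1 v]
  · simp [l]

end Pool.Agent.H51.EqT
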