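import Pool.Agent.H51.EqTA

namespace Pool.Agent.H51.EqT

open Finset Filter

variable {V : Type} [Fintype V] [DecidableEq V] {n : ℕ}

def Rigid {C : Type} (u w : C → V) (r : ℕ) (a : C → Fin r → ℤ) : Prop :=
  ∀ (D : ℕ) (x : V → Fin r → Fin D → ℤ),
    (∀ p q i i', ∑ j, x p i j * x p i' j = ∑ j, x q i j * x q i' j) →
    (∀ c j, ∑ i, a c i * x (u c) i j = ∑ i, a c i * x (w c) i j) → ∀ p q, x p = x q

lemma block {G : SimpleGraph V} {C : Type} [Fintype C] (u w : C → V)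
    (hadj : ∀ c, G.Adj (u c) (w c)) {r : ℕ} {a : C → Fin r → ℤ} (hR : Rigid u w r a)
    (A : ℕ) (hA : ∀ c, ∑ i, |a c i| ≤ A) (t D : ℕ)
    (h : (D * 4 ^ t + 1) ^ (r * r) * 2 ^ n ≤ 2 ^ (t * D * r)) :
    ∃ l : List (Step V n), Solves G l ∧ l.length = Fintype.card C * ((t + A) * D) := by
  classical
  have hb : ∀ (x : Fin r → Fin D → Fin (2 ^ t)) i i',
      ∑ j, (x i j).val * (x i' j).val < D * 4 ^ t + 1 := by
    intro x i i'
    have : ∀ j, (x i j).val * (x i' j).val ≤ 4 ^ t := by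
      intro j
      calc (x i j).val * (x i' j).val ≤ 2 ^ t * 2 ^ t :=
            Nat.mul_le_mul (x i j).2.le (x i' j).2.le
        _ = 4 ^ t := by rw [← mul_pow]; rfl
    have := sum_le_sum fun j (_ : j ∈ univ) => this j
    simp only [sum_const, card_univ, Fintype.card_fin, smul_eq_mul] at this
    omega
  let Γ : (Fin r → Fin D → Fin (2 ^ t)) → (Fin r → Fin r → Fin (D * 4 ^ t + 1)) :=
    fun x i i' => ⟨_, hb x i i'⟩
  obtain ⟨y, hy⟩ := Fintype.exists_le_card_fiber_of_mul_le_card Γ (n := 2 ^ n) (by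
    simp only [Fintype.card_fun, Fintype.card_fin, ← pow_mul]
    exact h)
  obtain ⟨ι⟩ : Nonempty ((Fin n → Bool) ↪ {x // Γ x = y}) :=
    Function.Embedding.nonempty_of_card_le (by simpa [Fintype.card_subtype] using hy)
  refine labels (Λ := Fin D → ZMod (2 ^ (t + A))) u w hadj ((t + A) * D)
    (by simp [← pow_mul]) (fun c z j => ((∑ i, a c i * (((ι z).1 i j).val : ℤ) : ℤ) : ZMod _)) ?_
  intro x hx p q
  have := hR D (fun v i j => (((ι (x v)).1 i j).val : ℤ)) (by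
    intro p q i i'
    have h1 : Γ (ι (x p)).1 = Γ (ι (x q)).1 := (ι (x p)).2.trans (ι (x q)).2.symm
    have h2 := congrArg Fin.val (congrFun (congrFun h1 i) i')
    simp only [Γ] at h2
    exact_mod_cast h2) (by
    intro c j
    have h1 := congrFun (hx c) j
    rw [ZMod.intCast_eq_intCast_iff_dvd_sub] at h1
    symm
    rw [← sub_eq_zero]
    apply Int.eq_zero_of_abs_lt_dvd h1
    rw [← sum_sub_distrib]
    refine (abs_sum_le_sum_abs _ _).trans_lt ?_
    have h2 : ∀ i, |a c i * (((ι (x (w c))).1 i j).val : ℤ) - a c i * (((ι (x (u c))).1 i j).val : ℤ)|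
        ≤ |a c i| * 2 ^ t := by
      intro i
      rw [← mul_sub, abs_mul]
      refine mul_le_mul_of_nonneg_left ?_ (abs_nonneg _)
      have h3 : ((((ι (x (w c))).1 i j).val : ℕ) : ℤ) < 2 ^ t := by
        exact_mod_cast ((ι (x (w c))).1 i j).2
      have h4 : ((((ι (x (u c))).1 i j).val : ℕ) : ℤ) < 2 ^ t := by
        exact_mod_cast ((ι (x (u c))).1 i j).2
      rw [abs_le]
      constructor <;> omega
    refine (sum_le_sum fun i _ => h2 i).trans_lt ?_
    rw [← sum_mul]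
    have h5 : (A : ℤ) < 2 ^ A := by exact_mod_cast Nat.lt_two_pow_self
    have h6 := hA c
    push_cast
    rw [pow_add, mul_comm ((2 : ℤ) ^ t)]
    have h7 : (0 : ℤ) < 2 ^ t := by positivity
    nlinarith) p q
  apply ι.injective
  apply Subtype.ext
  funext i j
  apply Fin.ext
  exact_mod_cast congrFun (congrFun this i) j

lemma ev_poly (K m : ℕ) : ∀ᶠ D : ℕ in atTop, (D * K + 1) ^ m ≤ 2 ^ D := by
  have h := (tendsto_pow_const_div_const_pow_of_one_lt m (show (1 : ℝ) < 2 by norm_num)).const_mul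
    (((K : ℝ) + 1) ^ m)
  rw [mul_zero] at h
  filter_upwards [h.eventually (gt_mem_nhds (show (0 : ℝ) < 1 by norm_num)),
    eventually_ge_atTop 1] with D h1 h2
  rw [← mul_div_assoc, div_lt_one (by positivity), ← mul_pow] at h1
  have h3 : (1 : ℝ) ≤ D := by exact_mod_cast h2
  have h4 : ((D : ℝ) * K + 1) ^ m ≤ ((K + 1) * D) ^ m := by
    gcongr
    nlinarith
  have h5 : ((D : ℝ) * K + 1) ^ m ≤ 2 ^ D := h4.trans h1.le
  exact_mod_cast h5

lemma upper {G : SimpleGraph V} {C : Type} [Fintype C] (u w : C → V)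
    (hadj : ∀ c, G.Adj (u c) (w c)) {r : ℕ} (hr : 0 < r) {a : C → Fin r → ℤ} (hR : Rigid u w r a)
    (ε : ℝ) (hε : 0 < ε) : ∀ᶠ n : ℕ in atTop, ∃ l : List (Step V n), Solves G l ∧
      (l.length : ℝ) ≤ (Fintype.card C / r + ε) * n := by
  obtain ⟨A, hA⟩ : ∃ A : ℕ, ∀ c, ∑ i, |a c i| ≤ A := by
    refine ⟨(∑ c, ∑ i, |a c i|).toNat, fun c => le_trans ?_ (Int.self_le_toNat _)⟩
    exact single_le_sum (f := fun c => ∑ i, |a c i|)
      (fun c _ => sum_nonneg fun i _ => abs_nonneg _) (mem_univ c)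
  set m : ℝ := (Fintype.card C : ℝ) with hm
  have hm0 : 0 ≤ m := by positivity
  obtain ⟨s, hs⟩ := exists_nat_gt (2 * m * (1 + A) / ε)
  have hs0 : (0 : ℝ) < s := lt_of_le_of_lt (by positivity) hs
  have hs1 : 0 < s := by exact_mod_cast hs0
  have hrs : 0 < r * s := Nat.mul_pos hr hs1
  have hT : Tendsto (fun n : ℕ => n / (r * s) + 1) atTop atTop :=
    tendsto_atTop_mono (fun n => Nat.le_succ _) (Nat.tendsto_div_const_atTop hrs.ne')
  filter_upwards [hT.eventually (ev_poly (4 ^ (s + 1)) (r * r)),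
    tendsto_natCast_atTop_atTop.eventually_ge_atTop (2 * m * (s + 1 + A) / ε)] with n h1 h2
  set D := n / (r * s) + 1 with hD
  have h3 : n ≤ r * s * D := (Nat.lt_mul_div_succ n hrs).le
  obtain ⟨l, hl, hlen⟩ := block (n := n) u w hadj hR A hA (s + 1) D (by
    calc (D * 4 ^ (s + 1) + 1) ^ (r * r) * 2 ^ n ≤ 2 ^ D * 2 ^ n := by gcongr
      _ = 2 ^ (D + n) := (pow_add _ _ _).symm
      _ ≤ _ := Nat.pow_le_pow_right (by norm_num) (by nlinarith))
  refine ⟨l, hl, ?_⟩
  rw [hlen]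
  have hr0 : (1 : ℝ) ≤ r := by exact_mod_cast hr
  have h4 : (D : ℝ) ≤ n / (r * s) + 1 := by
    rw [hD]; push_cast
    have := @Nat.cast_div_le ℝ _ _ _ n (r * s)
    push_cast at this
    linarith
  push_cast
  rw [← hm]
  have hn0 : (0 : ℝ) ≤ n := by positivity
  rw [div_lt_iff₀ hε] at hs
  rw [div_le_iff₀ hε] at h2
  have h5 : m * (1 + A) * (n / (r * s)) ≤ ε / 2 * n := by
    have h6 : (n : ℝ) / (r * s) ≤ n / s := by
      gcongr
      nlinarith
    have h7 : m * (1 + A) ≤ ε / 2 * s := by linarith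
    calc m * (1 + A) * (n / (r * s)) ≤ ε / 2 * s * (n / s) := by gcongr
      _ = ε / 2 * n := by field_simp
  have h8 : m * s * (n / (r * s)) = m / r * n := by field_simp
  calc m * ((s + 1 + A) * D) ≤ m * ((s + 1 + A) * (n / (r * s) + 1)) := by gcongr
    _ = m * s * (n / (r * s)) + m * (1 + A) * (n / (r * s)) + m * (s + 1 + A) := by ring
    _ ≤ _ := by rw [h8]; linarith

end Pool.Agent.H51.EqT
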