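import Pool.Agent.H51.EqTB

namespace Pool.Agent.H51.EqT

open Finset Matrix

variable {V : Type} [Fintype V] [DecidableEq V] {C : Type} [Fintype C] [DecidableEq C]

def inc (u w : C → V) (c : C) (v : V) : Prop := u c = v ∨ w c = v

def Supp (u w : C → V) (Ω : Matrix C C ℤ) : Prop :=
  (∀ c c', Ω c c' = Ω c' c) ∧ ∀ c c', Ω c c' ≠ 0 → ∃ v, inc u w c v ∧ inc u w c' v

def MM (X : Finset C) (γ : C → C) (Ω : Matrix C C ℤ) : Matrix C C ℤ :=
  fun c c' => if c ∈ X then (if c' = γ c then 1 else 0) else Ω c c'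

def M0 (X : Finset C) (Ω : Matrix C C ℤ) : Matrix C C ℤ :=
  fun c c' => if c ∈ X then 0 else Ω c c'

omit [Fintype C] in
lemma MM_add (X : Finset C) (γ : C → C) (Ω Ψ : Matrix C C ℤ) (t : ℤ) :
    MM X γ (Ω + t • Ψ) = MM X γ Ω + t • M0 X Ψ := by
  ext c c'
  simp only [MM, M0, Matrix.add_apply, Matrix.smul_apply, smul_eq_mul]
  split_ifs <;> simp

lemma MM_mulVec (X : Finset C) (γ : C → C) (Ω : Matrix C C ℤ) (h : C → ℤ) (c : C) :
    (MM X γ Ω *ᵥ h) c = if c ∈ X then h (γ c) else ∑ c', Ω c c' * h c' := by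
  simp only [mulVec, dotProduct, MM]
  split_ifs <;> simp

lemma hall (u w : C → V) {r : ℕ}
    (hc : ∀ S : Finset V, S ≠ ∅ → S ≠ univ → r ≤ #{c | ¬(u c ∈ S ↔ w c ∈ S)})
    (X : Finset C) (hX : X.card = r) (v : V) :
    ∃ π : Equiv.Perm C, (∀ c ∈ X, inc u w (π c) v) ∧
      ∀ c ∉ X, ∃ v', inc u w c v' ∧ inc u w (π c) v' := by
  classical
  have := (Fintype.all_card_le_filter_rel_iff_exists_injective
    (fun c c' : C => (c ∈ X → inc u w c' v) ∧ (c ∉ X → ∃ v', inc u w c v' ∧ inc u w c' v'))).1 ?_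
  · obtain ⟨f, hf, h⟩ := this
    exact ⟨Equiv.ofBijective f (Finite.injective_iff_bijective.1 hf), fun c hc => (h c).1 hc,
      fun c hc => (h c).2 hc⟩
  intro A
  by_cases h0 : ∀ c ∈ A, c ∉ X
  · apply card_le_card
    intro c hc
    simp only [mem_filter, mem_univ, true_and]
    exact ⟨c, hc, fun h => absurd h (h0 c hc), fun _ => ⟨u c, Or.inl rfl, Or.inl rfl⟩⟩
  push Not at h0
  obtain ⟨x, hxA, hxX⟩ := h0
  let U : Finset V := univ.filter fun p => p = v ∨ ∃ c ∈ A, c ∉ X ∧ inc u w c p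
  have hN : ∀ c', (u c' ∈ U ∨ w c' ∈ U) → ∃ c ∈ A,
      (c ∈ X → inc u w c' v) ∧ (c ∉ X → ∃ v', inc u w c v' ∧ inc u w c' v') := by
    intro c' h
    obtain ⟨p, hp, hp'⟩ : ∃ p ∈ U, inc u w c' p := by
      rcases h with h | h
      · exact ⟨_, h, Or.inl rfl⟩
      · exact ⟨_, h, Or.inr rfl⟩
    simp only [U, mem_filter, mem_univ, true_and] at hp
    rcases hp with rfl | ⟨c, hcA, hcX, hcp⟩
    · exact ⟨x, hxA, fun _ => hp', fun h => absurd hxX h⟩
    · exact ⟨c, hcA, fun h => absurd h hcX, fun _ => ⟨p, hcp, hp'⟩⟩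
  by_cases hU : U = univ
  · apply card_le_card
    intro c _
    simp only [mem_filter, mem_univ, true_and]
    exact hN c (Or.inl (hU ▸ mem_univ _))
  have h1 := hc U (ne_empty_of_mem (a := v) (by simp [U])) hU
  have h2 : Disjoint (A \ X) (univ.filter fun c => ¬(u c ∈ U ↔ w c ∈ U)) := by
    rw [disjoint_left]
    intro c hc1 hc2
    rw [mem_sdiff] at hc1
    simp only [mem_filter, mem_univ, true_and] at hc2
    apply hc2
    have a1 : u c ∈ U := by
      simp only [U, mem_filter, mem_univ, true_and]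
      exact Or.inr ⟨c, hc1.1, hc1.2, Or.inl rfl⟩
    have a2 : w c ∈ U := by
      simp only [U, mem_filter, mem_univ, true_and]
      exact Or.inr ⟨c, hc1.1, hc1.2, Or.inr rfl⟩
    exact ⟨fun _ => a2, fun _ => a1⟩
  have h3 : A.card ≤ (A \ X).card + X.card := by
    have := le_card_sdiff X A
    omega
  refine h3.trans (le_trans ?_ (card_le_card (s := (A \ X) ∪
    univ.filter fun c => ¬(u c ∈ U ↔ w c ∈ U)) ?_))
  · rw [card_union_of_disjoint h2]; omega
  · intro c hc'
    simp only [mem_filter, mem_univ, true_and]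
    apply hN
    rcases mem_union.1 hc' with h | h
    · rw [mem_sdiff] at h
      left
      simp only [U, mem_filter, mem_univ, true_and]
      exact Or.inr ⟨c, h.1, h.2, Or.inl rfl⟩
    · simp only [mem_filter, mem_univ, true_and] at h
      tauto

omit [Fintype V] [DecidableEq V] in
lemma kernel (u w : C → V) (X : Finset C) (π : Equiv.Perm C)
    (hπ : ∀ c ∉ X, ∃ v', inc u w c v' ∧ inc u w (π c) v') :
    ∃ Ω, Supp u w Ω ∧ (MM X π Ω).det ≠ 0 := by
  refine ⟨fun c c' => (if c ∉ X ∧ c' = π c then 1 else 0) + (if c' ∉ X ∧ c = π c' then 1 else 0) +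
    (if c = c' then 3 else 0), ⟨fun c c' => ?_, fun c c' h => ?_⟩, fun hdet => ?_⟩
  · simp only [eq_comm (a := c) (b := c')]; ring
  · by_cases h1 : c ∉ X ∧ c' = π c
    · obtain ⟨h1, rfl⟩ := h1; exact hπ c h1
    by_cases h2 : c' ∉ X ∧ c = π c'
    · obtain ⟨h2, rfl⟩ := h2
      obtain ⟨v, h3, h4⟩ := hπ c' h2
      exact ⟨v, h4, h3⟩
    by_cases h3 : c = c'
    · subst h3; exact ⟨u c, Or.inl rfl, Or.inl rfl⟩
    simp [h1, h2, h3] at h
  obtain ⟨h, hne, hh⟩ := Matrix.exists_mulVec_eq_zero_iff.2 hdet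
  have r1 : ∀ c ∈ X, h (π c) = 0 := by
    intro c hc
    have := congrFun hh c
    rwa [MM_mulVec, if_pos hc] at this
  have r2 : ∀ c ∉ X, h (π c) + (if π.symm c ∈ X then 0 else h (π.symm c)) + 3 * h c = 0 := by
    intro c hc
    have := congrFun hh c
    rw [MM_mulVec, if_neg hc] at this
    simp only [add_mul, sum_add_distrib, ite_mul, one_mul, zero_mul, hc, not_false_eq_true,
      true_and, sum_ite_eq', sum_ite_eq, mem_univ, if_true, Pi.zero_apply] at this
    have e : ∑ c', (if c' ∉ X ∧ c = π c' then h c' else 0) =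
        if π.symm c ∈ X then 0 else h (π.symm c) := by
      rw [sum_eq_single (π.symm c)]
      · simp
      · intro b _ hb
        rw [if_neg]
        rintro ⟨-, rfl⟩
        simp at hb
      · simp
    rw [e] at this
    exact this
  have step : ∀ k : ℕ, ∀ x ∈ X, h ((π ^ k) (π x)) = 0 ∧
      (π.symm ((π ^ k) (π x)) ∈ X ∨ h (π.symm ((π ^ k) (π x))) = 0) := by
    intro k x hx
    induction k with
    | zero => simpa [hx] using r1 x hx
    | succ k ih =>
      rw [pow_succ', Equiv.Perm.mul_apply, Equiv.symm_apply_apply]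
      refine ⟨?_, Or.inr ih.1⟩
      by_cases hc : (π ^ k) (π x) ∈ X
      · exact r1 _ hc
      · have := r2 _ hc
        rcases ih.2 with h' | h'
        · rw [if_pos h', ih.1] at this; simpa using this
        · rw [h', ih.1] at this; simpa using this
  have r3 : ∀ x ∈ X, h x = 0 := by
    intro x hx
    have h1 := (step (orderOf π) x hx).1
    have h2 := (step (orderOf π - 1) x hx).1
    rw [← Equiv.Perm.mul_apply, ← pow_succ, Nat.sub_add_cancel (orderOf_pos π),
      pow_orderOf_eq_one] at h2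
    exact h2
  apply hne
  funext c0
  haveI : Nonempty C := ⟨c0⟩
  obtain ⟨c, hc⟩ := Finite.exists_max (fun c => |h c|)
  have : |h c| ≤ 0 := by
    by_cases hx : c ∈ X
    · simp [r3 c hx]
    · have h1 := r2 c hx
      have h2 := hc (π c)
      have h3 : |if π.symm c ∈ X then 0 else h (π.symm c)| ≤ |h c| := by
        split_ifs
        · simp
        · exact hc _
      have h4 : |3 * h c| ≤ |h (π c)| + |if π.symm c ∈ X then 0 else h (π.symm c)| := by
        rw [show 3 * h c = -(h (π c) + (if π.symm c ∈ X then 0 else h (π.symm c))) by linarith,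
          abs_neg]
        exact abs_add_le _ _
      rw [abs_mul] at h4
      norm_num at h4
      linarith
  exact abs_nonpos_iff.1 ((hc c0).trans this)

lemma avoid {ι : Type} (W : Finset ι) (A : ι → Matrix C C ℤ) (B : Matrix C C ℤ)
    (h : ∀ i ∈ W, ∃ t : ℤ, (A i + t • B).det ≠ 0) (N : ℤ) :
    ∃ t, N ≤ t ∧ ∀ i ∈ W, (A i + t • B).det ≠ 0 := by
  let p : ι → Polynomial ℤ := fun i =>
    ((A i).map Polynomial.C + (Polynomial.X : Polynomial ℤ) • B.map Polynomial.C).det
  have hp : ∀ i t, (p i).eval t = (A i + t • B).det := by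
    intro i t
    have := RingHom.map_det (Polynomial.evalRingHom t)
      ((A i).map Polynomial.C + (Polynomial.X : Polynomial ℤ) • B.map Polynomial.C)
    rw [Polynomial.coe_evalRingHom] at this
    rw [this]
    congr 1
    ext c c'
    simp only [RingHom.mapMatrix_apply, Matrix.map_apply, Matrix.add_apply, Matrix.smul_apply,
      smul_eq_mul, Polynomial.coe_evalRingHom, Polynomial.eval_add, Polynomial.eval_mul,
      Polynomial.eval_C, Polynomial.eval_X]
  have hne : ∏ i ∈ W, p i ≠ 0 := by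
    rw [prod_ne_zero_iff]
    intro i hi h0
    obtain ⟨t, ht⟩ := h i hi
    rw [← hp, h0] at ht
    simp at ht
  obtain ⟨t, ht, ht'⟩ := (Set.Ici_infinite N).exists_notMem_finset (∏ i ∈ W, p i).roots.toFinset
  refine ⟨t, ht, fun i hi h0 => ht' ?_⟩
  rw [Multiset.mem_toFinset, Polynomial.mem_roots hne, Polynomial.IsRoot, Polynomial.eval_prod]
  exact prod_eq_zero hi ((hp i t).trans h0)

omit [Fintype V] [DecidableEq V] [Fintype C] [DecidableEq C] in
lemma Supp.add_smul {u w : C → V} {Ω Ψ : Matrix C C ℤ} (h1 : Supp u w Ω) (h2 : Supp u w Ψ)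
    (s t : ℤ) : Supp u w (s • Ω + t • Ψ) := by
  refine ⟨fun c c' => by simp [h1.1 c c', h2.1 c c'], fun c c' h => ?_⟩
  by_cases a : Ω c c' = 0
  · by_cases b : Ψ c c' = 0
    · simp [a, b] at h
    · exact h2.2 _ _ b
  · exact h1.2 _ _ a

omit [Fintype V] [DecidableEq V] [Fintype C] in
lemma supp_one (u w : C → V) : Supp u w (1 : Matrix C C ℤ) := by
  refine ⟨fun c c' => by simp [Matrix.one_apply, eq_comm], fun c c' h => ?_⟩
  by_cases e : c = c'
  · subst e; exact ⟨u c, Or.inl rfl, Or.inl rfl⟩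
  · simp [e] at h

omit [Fintype V] [DecidableEq V] in
lemma generic (u w : C → V) (X : Finset C) {ι : Type} [Fintype ι] (γ : ι → C → C)
    (h : ∀ i, ∃ Ω, Supp u w Ω ∧ (MM X (γ i) Ω).det ≠ 0) :
    ∃ Ω, Supp u w Ω ∧ (∀ i, (MM X (γ i) Ω).det ≠ 0) ∧ ∀ f : C → ℤ, f ⬝ᵥ f ≤ f ⬝ᵥ Ω *ᵥ f := by
  classical
  have hA : ∀ W : Finset ι, ∃ Ψ, Supp u w Ψ ∧ ∀ i ∈ W, (MM X (γ i) Ψ).det ≠ 0 := by
    intro W
    induction W using Finset.induction_on with
    | empty => exact ⟨1, supp_one u w, by simp⟩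
    | insert i W _ ih =>
      obtain ⟨Ψ, h1, h2⟩ := ih
      obtain ⟨Ω, h3, h4⟩ := h i
      obtain ⟨t, -, ht⟩ := avoid (insert i W) (fun j => MM X (γ j) Ψ) (M0 X (Ω - Ψ)) (by
        intro j hj
        rcases mem_insert.1 hj with rfl | hj
        · exact ⟨1, by rw [← MM_add]; simpa using h4⟩
        · exact ⟨0, by simpa using h2 j hj⟩) 0
      refine ⟨Ψ + t • (Ω - Ψ), ?_, fun j hj => by rw [MM_add]; exact ht j hj⟩
      have := h1.add_smul h3 (1 - t) t
      rwa [show (1 - t) • Ψ + t • Ω = Ψ + t • (Ω - Ψ) by module] at this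
  obtain ⟨Ψ, h1, h2⟩ := hA univ
  obtain ⟨t, ht, ht'⟩ := avoid univ (fun j => MM X (γ j) Ψ) (M0 X 1)
    (fun j hj => ⟨0, by simpa using h2 j hj⟩) (∑ c, ∑ c', |Ψ c c'| + 1)
  refine ⟨Ψ + t • 1, by simpa using h1.add_smul (supp_one u w) 1 t,
    fun j => by rw [MM_add]; exact ht' j (mem_univ _), fun f => ?_⟩
  have hsq : ∀ c, f c * f c ≤ f ⬝ᵥ f := fun c =>
    single_le_sum (f := fun c => f c * f c) (fun c _ => mul_self_nonneg _) (mem_univ c)
  have h0 : 0 ≤ f ⬝ᵥ f := sum_nonneg fun c _ => mul_self_nonneg _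
  have h3 : -((∑ c, ∑ c', |Ψ c c'|) * (f ⬝ᵥ f)) ≤ f ⬝ᵥ Ψ *ᵥ f := by
    simp only [sum_mul, ← sum_neg_distrib]
    conv_rhs => simp only [dotProduct, mulVec, mul_sum]
    refine sum_le_sum fun c _ => sum_le_sum fun c' _ => ?_
    have a1 : |f c * f c'| ≤ f ⬝ᵥ f := by
      have := hsq c
      have := hsq c'
      rw [abs_le]
      constructor <;> nlinarith [sq_nonneg (f c + f c'), sq_nonneg (f c - f c')]
    have a2 : |f c * (Ψ c c' * f c')| ≤ |Ψ c c'| * (f ⬝ᵥ f) := by
      rw [show f c * (Ψ c c' * f c') = Ψ c c' * (f c * f c') by ring, abs_mul]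
      exact mul_le_mul_of_nonneg_left a1 (abs_nonneg _)
    exact (abs_le.1 a2).1
  rw [add_mulVec, dotProduct_add, smul_mulVec, one_mulVec, dotProduct_smul, smul_eq_mul]
  nlinarith

omit [DecidableEq V] in
lemma rigid_of (u w : C → V) {r : ℕ} (s : V) (X : Finset C) (hX : X.card = r)
    (hs : ∀ c ∈ X, inc u w c s) (π : V → Equiv.Perm C) (hπ : ∀ v, ∀ c ∈ X, inc u w (π v c) v)
    (Ω : Matrix C C ℤ) (hΩ : Supp u w Ω) (h0 : (MM X id Ω).det ≠ 0)
    (h1 : ∀ v, (MM X (π v) Ω).det ≠ 0) (hpos : ∀ f : C → ℤ, f ⬝ᵥ f ≤ f ⬝ᵥ Ω *ᵥ f) :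
    ∃ a : C → Fin r → ℤ, Rigid u w r a := by
  let β : Fin r → C := fun i => ((X.equivFinOfCardEq hX).symm i).1
  have hβ : ∀ i, β i ∈ X := fun i => ((X.equivFinOfCardEq hX).symm i).2
  have hβi : Function.Injective β :=
    Subtype.val_injective.comp (X.equivFinOfCardEq hX).symm.injective
  let a : C → Fin r → ℤ := fun c i => (MM X id Ω).adjugate c (β i)
  have ha : ∀ c i, (if c ∈ X then a c i else ∑ c', Ω c c' * a c' i) =
      if c = β i then (MM X id Ω).det else 0 := by
    intro c i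
    have e1 := congrFun (congrFun (mul_adjugate (MM X id Ω)) c) (β i)
    have e2 := MM_mulVec X id Ω (fun c' => a c' i) c
    simp only [Matrix.smul_apply, Matrix.one_apply, smul_eq_mul, mul_ite, mul_one, mul_zero] at e1
    rw [← e1]
    exact e2.symm
  have harm : ∀ (z : Fin r → ℤ), ∀ c ∉ X, ∑ c', Ω c c' * ∑ i, a c' i * z i = 0 := by
    intro z c hc
    simp only [mul_sum]
    rw [sum_comm]
    refine sum_eq_zero fun i _ => ?_
    have := ha c i
    rw [if_neg hc, if_neg (fun h : c = β i => hc (h ▸ hβ i))] at this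
    simp only [← mul_assoc]
    rw [← sum_mul, this, zero_mul]
  refine ⟨a, fun D x hG hC => ?_⟩
  let y : Fin D → C → ℤ := fun j c => ∑ i, a c i * x (u c) i j
  let z : Fin D → C → ℤ := fun j c => ∑ i, a c i * x s i j
  have hy : ∀ j c v, inc u w c v → y j c = ∑ i, a c i * x v i j := by
    rintro j c v (rfl | rfl)
    · rfl
    · exact hC c j
  have gram : ∀ v c c', ∑ j, (∑ i, a c i * x v i j) * (∑ i, a c' i * x v i j) =
      ∑ i, ∑ i', a c i * a c' i' * ∑ j, x v i j * x v i' j := by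
    intro v c c'
    simp only [sum_mul_sum]
    simp only [mul_sum]
    rw [sum_comm]
    refine sum_congr rfl fun i _ => ?_
    rw [sum_comm]
    refine sum_congr rfl fun i' _ => sum_congr rfl fun j _ => by ring
  have quad : ∀ f : Fin D → C → ℤ, ∑ j, f j ⬝ᵥ Ω *ᵥ f j = ∑ c, ∑ c', Ω c c' * ∑ j, f j c * f j c' := by
    intro f
    simp only [dotProduct, mulVec, mul_sum]
    rw [sum_comm]
    refine sum_congr rfl fun c _ => ?_
    rw [sum_comm]
    refine sum_congr rfl fun c' _ => sum_congr rfl fun j _ => by ring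
  have E1 : ∑ j, y j ⬝ᵥ Ω *ᵥ y j = ∑ j, z j ⬝ᵥ Ω *ᵥ z j := by
    rw [quad, quad]
    refine sum_congr rfl fun c _ => sum_congr rfl fun c' _ => ?_
    by_cases h : Ω c c' = 0
    · simp [h]
    obtain ⟨v, h2, h3⟩ := hΩ.2 c c' h
    congr 1
    simp only [hy _ c v h2, hy _ c' v h3, z, gram, hG v s]
  have E2 : ∀ j, y j ⬝ᵥ Ω *ᵥ y j = z j ⬝ᵥ Ω *ᵥ z j + (y j - z j) ⬝ᵥ Ω *ᵥ (y j - z j) := by
    intro j
    have b1 : (y j - z j) ⬝ᵥ Ω *ᵥ z j = 0 := by
      refine sum_eq_zero fun c _ => ?_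
      by_cases hc : c ∈ X
      · have : (y j - z j) c = 0 := by
          rw [Pi.sub_apply, hy j c s (hs c hc)]; exact sub_self _
        rw [this, zero_mul]
      · have : (Ω *ᵥ z j) c = 0 := harm (fun i => x s i j) c hc
        rw [this, mul_zero]
    have b2 : z j ⬝ᵥ Ω *ᵥ (y j - z j) = (y j - z j) ⬝ᵥ Ω *ᵥ z j := by
      simp only [dotProduct, mulVec, mul_sum]
      rw [sum_comm]
      refine sum_congr rfl fun c _ => sum_congr rfl fun c' _ => ?_
      rw [hΩ.1 c' c]; ring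
    have b3 : y j = z j + (y j - z j) := by abel
    conv_lhs => rw [b3, mulVec_add, dotProduct_add, add_dotProduct, add_dotProduct, b2, b1]
    ring
  have E3 : ∑ j, (y j - z j) ⬝ᵥ (y j - z j) ≤ 0 := by
    have := sum_le_sum fun j (_ : j ∈ univ) => hpos (y j - z j)
    simp only [E2, sum_add_distrib] at E1
    linarith
  have E4 : ∀ j c, y j c = z j c := by
    intro j c
    have n1 : ∀ j, 0 ≤ (y j - z j) ⬝ᵥ (y j - z j) := fun j =>
      sum_nonneg fun c _ => mul_self_nonneg _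
    have n2 := (single_le_sum (fun j _ => n1 j) (mem_univ j)).trans E3
    have n3 := dotProduct_self_eq_zero.1 (le_antisymm n2 (n1 j))
    exact sub_eq_zero.1 (congrFun n3 c)
  have key : ∀ v, x v = x s := by
    intro v
    funext i j
    have k1 : (fun c => ∑ i, a c i * (x v i j - x s i j)) = 0 := by
      apply eq_zero_of_mulVec_eq_zero (h1 v)
      funext c
      rw [MM_mulVec]
      split_ifs with hc
      · have := E4 j (π v c)
        rw [hy j _ v (hπ v c hc)] at this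
        simp only [mul_sub, sum_sub_distrib]
        exact sub_eq_zero.2 this
      · exact harm _ c hc
    have k2 := congrFun k1 (β i)
    have k3 : ∀ i', a (β i) i' = if i = i' then (MM X id Ω).det else 0 := by
      intro i'
      have := ha (β i) i'
      rw [if_pos (hβ i)] at this
      simpa [hβi.eq_iff] using this
    simp only [k3, ite_mul, zero_mul, sum_ite_eq, mem_univ, if_true, Pi.zero_apply] at k2
    exact sub_eq_zero.1 ((mul_eq_zero.1 k2).resolve_left h0)
  intro p q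
  rw [key p, key q]

lemma rigid [Nontrivial V] (u w : C → V) {r : ℕ}
    (hc : ∀ S : Finset V, S ≠ ∅ → S ≠ univ → r ≤ #{c | ¬(u c ∈ S ↔ w c ∈ S)}) :
    ∃ a : C → Fin r → ℤ, Rigid u w r a := by
  obtain ⟨s, s', hss⟩ := exists_pair_ne V
  obtain ⟨X, hX1, hX⟩ := exists_subset_card_eq (hc {s} (by simp) (fun h => by
    have : s' ∈ ({s} : Finset V) := h ▸ mem_univ _
    exact hss (mem_singleton.1 this).symm))
  have hs : ∀ c ∈ X, inc u w c s := by
    intro c hc'
    have := hX1 hc'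
    simp only [mem_filter, mem_univ, true_and, mem_singleton] at this
    unfold inc
    tauto
  choose π h1 h2 using hall u w hc X hX
  obtain ⟨Ω, h3, h4, h5⟩ := generic u w X (ι := Option V) (fun o => o.elim id fun v => π v) (by
    rintro (_ | v)
    · refine ⟨1, supp_one u w, ?_⟩
      have : MM X id (1 : Matrix C C ℤ) = 1 := by
        ext c c'
        simp [MM, Matrix.one_apply, eq_comm]
      simp [this]
    · exact kernel u w X (π v) (h2 v))
  exact rigid_of u w s X hX hs π h1 Ω h3 (h4 none) (fun v => h4 (some v)) h5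

end Pool.Agent.H51.EqT
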