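import Pool.Agent.H51.EqTC

namespace Pool.Agent.H51.EqT

open Finset Filter Topology

variable {V : Type} [Fintype V] [DecidableEq V]

lemma fc_bdd (G : SimpleGraph V) : BddAbove {t | ∃ g, IsPacking G g ∧ ∑ S, g S = t} := by
  refine ⟨∑ _S : Finset V, (1 : ℝ), ?_⟩
  rintro _ ⟨g, hg, rfl⟩
  exact sum_le_sum fun S _ => (hg.1 S).2

lemma le_fc {G : SimpleGraph V} {g : Finset V → ℝ} (hg : IsPacking G g) : ∑ S, g S ≤ fc G :=
  le_csSup (fc_bdd G) ⟨g, hg, rfl⟩

lemma fc_nonneg (G : SimpleGraph V) : 0 ≤ fc G := by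
  simpa using le_fc (packing_zero G)

omit [DecidableEq V] in
lemma exists_cross {G : SimpleGraph V} (hG : G.Connected) (S : Finset V) (h0 : S ≠ ∅)
    (h1 : S ≠ univ) : ∃ a b, G.Adj a b ∧ ¬(a ∈ S ↔ b ∈ S) := by
  obtain ⟨a, ha⟩ := nonempty_iff_ne_empty.2 h0
  obtain ⟨b, hb⟩ : ∃ b, b ∉ S := by
    by_contra h
    push Not at h
    exact h1 (eq_univ_of_forall h)
  obtain ⟨p⟩ := hG a b
  by_contra h
  push Not at h
  apply hb
  clear hb
  induction p with
  | nil => exact ha
  | cons hadj _ ih => exact ih ((h _ _ hadj).1 ha)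

lemma dual {G : SimpleGraph V} [DecidableRel G.Adj] (hG : G.Connected) (F : ℝ) (hF : fc G < F) :
    ∃ w : {p : V × V // G.Adj p.1 p.2} → ℝ, (∀ e, 0 ≤ w e) ∧ ∑ e, w e ≤ F ∧
      ∀ S : Finset V, S ≠ ∅ → S ≠ univ → 1 ≤ ∑ e with ¬(e.1.1 ∈ S ↔ e.1.2 ∈ S), w e := by
  have hF0 : 0 < F := lt_of_le_of_lt (fc_nonneg G) hF
  let A : Set ({p : V × V // G.Adj p.1 p.2} → ℝ) := {z | ∃ p : Finset V → ℝ, (∀ S, 0 ≤ p S) ∧
    p ∅ = 0 ∧ p univ = 0 ∧ ∑ S, p S = 1 ∧ ∀ e, z e = ∑ S with ¬(e.1.1 ∈ S ↔ e.1.2 ∈ S), p S}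
  let B : Set ({p : V × V // G.Adj p.1 p.2} → ℝ) := Set.pi Set.univ fun _ => Set.Iio (1 / F)
  have hA : Convex ℝ A := by
    rintro z ⟨p, p1, p2, p3, p4, p5⟩ z' ⟨q, q1, q2, q3, q4, q5⟩ a b ha hb hab
    refine ⟨fun S => a * p S + b * q S, fun S => by have := p1 S; have := q1 S; positivity,
      by simp [p2, q2], by simp [p3, q3], ?_, fun e => ?_⟩
    · rw [sum_add_distrib, ← mul_sum, ← mul_sum, p4, q4]; linarith
    · rw [sum_add_distrib, ← mul_sum, ← mul_sum, ← p5, ← q5]; rfl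
  have hB : Convex ℝ B := convex_pi fun _ _ => convex_Iio _
  have hBo : IsOpen B := isOpen_set_pi Set.finite_univ fun _ _ => isOpen_Iio
  have hd : Disjoint B A := by
    rw [Set.disjoint_left]
    rintro z hz ⟨p, p1, p2, p3, p4, p5⟩
    have h1 : ∀ a b, G.Adj a b → ∑ S with ¬(a ∈ S ↔ b ∈ S), F * p S ≤ 1 := by
      intro a b hab
      have : z ⟨(a, b), hab⟩ < 1 / F := hz _ (Set.mem_univ _)
      rw [p5, lt_div_iff₀ hF0] at this
      rw [← mul_sum]; linarith
    have hg : IsPacking G (fun S => F * p S) := by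
      refine ⟨fun S => ⟨mul_nonneg hF0.le (p1 S), ?_⟩, by simp [p2], by simp [p3], h1⟩
      by_cases h0 : S = ∅
      · simp [h0, p2]
      by_cases h2 : S = univ
      · simp [h2, p3]
      obtain ⟨a, b, hab, hc⟩ := exists_cross hG S h0 h2
      exact le_trans (single_le_sum (f := fun S => F * p S)
        (fun S _ => mul_nonneg hF0.le (p1 S)) (by simpa using hc)) (h1 a b hab)
    have := le_fc hg
    rw [← mul_sum, p4] at this
    linarith
  obtain ⟨f, u, h1, h2⟩ := geometric_hahn_banach_open hB hBo hA hd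
  let y : {p : V × V // G.Adj p.1 p.2} → ℝ := fun e => f (fun j => if e = j then 1 else 0)
  have hf : ∀ z, f z = ∑ e, z e * y e := fun z => LinearMap.pi_apply_eq_sum_univ f.toLinearMap z
  have hF1 : 0 < 1 / F := by positivity
  have hu : 0 < u := by
    have := h1 0 (fun e _ => hF1)
    simpa using this
  have hy : ∀ e, 0 ≤ y e := by
    intro e
    by_contra hn
    push Not at hn
    have := h1 (fun j => if j = e then u / y e else 0) (fun j _ => by
      have : u / y e < 0 := div_neg_of_pos_of_neg hu hn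
      simp only [Set.mem_Iio]
      split_ifs <;> linarith)
    rw [hf] at this
    simp only [ite_mul, zero_mul, sum_ite_eq', mem_univ, if_true] at this
    rw [div_mul_cancel₀ _ hn.ne] at this
    exact lt_irrefl _ this
  refine ⟨fun e => y e / u, fun e => div_nonneg (hy e) hu.le, ?_, fun S h0 h3 => ?_⟩
  · rw [← sum_div, div_le_iff₀ hu]
    by_contra hn
    push Not at hn
    have h4 : 0 < ∑ e, y e := lt_trans (by positivity) hn
    have := h1 (fun _ => u / ∑ e, y e) (fun j _ => by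
      simp only [Set.mem_Iio]
      rw [div_lt_div_iff₀ h4 hF0]; linarith)
    rw [hf, ← mul_sum, div_mul_cancel₀ _ h4.ne'] at this
    exact lt_irrefl _ this
  · have := h2 (fun e => if ¬(e.1.1 ∈ S ↔ e.1.2 ∈ S) then 1 else 0)
      ⟨fun T => if T = S then 1 else 0, fun T => by dsimp only; split_ifs <;> norm_num, by simp [Ne.symm h0],
        by simp [Ne.symm h3], by simp, fun e => by simp⟩
    rw [hf] at this
    rw [← sum_div, le_div_iff₀ hu, one_mul, sum_filter]
    simpa using this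

lemma upper' [Nontrivial V] {G : SimpleGraph V} (hG : G.Connected) (ε : ℝ) (hε : 0 < ε) :
    ∀ᶠ n : ℕ in atTop, ∃ l : List (Step V n), Solves G l ∧ (l.length : ℝ) ≤ (fc G + ε) * n := by
  classical
  obtain ⟨w, w1, w2, w3⟩ := dual hG (fc G + ε / 3) (by linarith)
  obtain ⟨r, hr⟩ := exists_nat_gt (3 * (Fintype.card {p : V × V // G.Adj p.1 p.2} : ℝ) / ε)
  have hr0 : (0 : ℝ) < r := lt_of_le_of_lt (by positivity) hr
  let μ : {p : V × V // G.Adj p.1 p.2} → ℕ := fun e => ⌈r * w e⌉₊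
  let C := Σ e, Fin (μ e)
  obtain ⟨a, ha⟩ := rigid (V := V) (C := C) (fun c => c.1.1.1) (fun c => c.1.1.2) (r := r) (by
    intro S h0 h1
    have h2 := w3 S h0 h1
    rw [card_eq_sum_ones, sum_filter, Fintype.sum_sigma]
    have : (r : ℝ) ≤ ∑ e, ((∑ _c : Fin (μ e),
        if ¬(e.1.1 ∈ S ↔ e.1.2 ∈ S) then 1 else 0 : ℕ) : ℝ) := by
      rw [sum_filter] at h2
      calc (r : ℝ) ≤ r * ∑ e, if ¬(e.1.1 ∈ S ↔ e.1.2 ∈ S) then w e else 0 := by nlinarith
        _ ≤ _ := by
          rw [mul_sum]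
          refine sum_le_sum fun e _ => ?_
          split_ifs
          · simp
          · simpa using Nat.le_ceil _
    exact_mod_cast this)
  filter_upwards [upper (G := G) _ _ (fun c : C => c.1.2) (by exact_mod_cast hr0) ha (ε / 3)
    (by positivity)] with n ⟨l, hl, hlen⟩
  refine ⟨l, hl, hlen.trans ?_⟩
  have h1 : (Fintype.card C : ℝ) ≤ r * (fc G + ε / 3) +
      Fintype.card {p : V × V // G.Adj p.1 p.2} := by
    have h2 : ∀ e, (μ e : ℝ) ≤ r * w e + 1 := fun e =>
      (Nat.ceil_lt_add_one (mul_nonneg hr0.le (w1 e))).le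
    have h3 := sum_le_sum fun e (_ : e ∈ univ) => h2 e
    rw [sum_add_distrib, ← mul_sum] at h3
    simp only [sum_const, card_univ, nsmul_eq_mul, mul_one] at h3
    have h4 : (Fintype.card C : ℝ) = ∑ e, (μ e : ℝ) := by simp [C]
    rw [h4]
    nlinarith
  have h2 : (Fintype.card C : ℝ) / r ≤ fc G + 2 * ε / 3 := by
    rw [div_le_iff₀ hr0]
    rw [div_lt_iff₀ hε] at hr
    nlinarith
  exact mul_le_mul_of_nonneg_right (by linarith) (Nat.cast_nonneg n)

theorem tendsto_fc [Nontrivial V] {G : SimpleGraph V} (hG : G.Connected) :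
    Tendsto (fun n : ℕ => (cost G n : ℝ) / n) atTop (𝓝 (fc G)) := by
  rw [tendsto_order]
  constructor
  · intro a ha
    filter_upwards [upper' hG 1 one_pos, eventually_gt_atTop 0] with n ⟨l, hl, _⟩ hn
    exact lt_of_lt_of_le ha (fc_le hn ⟨l, hl⟩)
  · intro a ha
    filter_upwards [upper' hG ((a - fc G) / 2) (by linarith), eventually_gt_atTop 0]
      with n ⟨l, hl, hlen⟩ hn
    have h1 : cost G n ≤ l.length := Nat.sInf_le ⟨l, hl, rfl⟩
    have h2 : (cost G n : ℝ) ≤ l.length := by exact_mod_cast h1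
    have hn0 : (0 : ℝ) < n := by exact_mod_cast hn
    rw [div_lt_iff₀ hn0]
    nlinarith

lemma half_le_fc [Nontrivial V] (G : SimpleGraph V) : (Fintype.card V : ℝ) / 2 ≤ fc G := by
  have e : ∀ S : Finset V, (if S.card = 1 then (1 / 2 : ℝ) else 0) =
      ∑ v, if S = {v} then 1 / 2 else 0 := by
    intro S
    split_ifs with h
    · obtain ⟨v, rfl⟩ := card_eq_one.1 h
      simp
    · symm
      refine sum_eq_zero fun v _ => if_neg ?_
      rintro rfl
      simp at h
  have hg : IsPacking G (fun S => if S.card = 1 then 1 / 2 else 0) := by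
    refine ⟨fun S => by dsimp only; split_ifs <;> norm_num, by simp, ?_, fun a b _ => ?_⟩
    · have := Fintype.one_lt_card (α := V)
      simp only [card_univ]
      rw [if_neg this.ne']
    · simp only [e]
      rw [sum_comm]
      have : ∀ v : V, ∑ S : Finset V with ¬(a ∈ S ↔ b ∈ S), (if S = {v} then (1 / 2 : ℝ) else 0) ≤
          (if v = a then 1 / 2 else 0) + (if v = b then 1 / 2 else 0) := by
        intro v
        rw [sum_ite_eq']
        simp only [mem_filter, mem_univ, true_and, mem_singleton, eq_comm (a := v)]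
        by_cases h1 : a = v <;> by_cases h2 : b = v <;> simp [h1, h2]
      refine (sum_le_sum fun v _ => this v).trans ?_
      rw [sum_add_distrib]
      norm_num
  have := le_fc hg
  simp only [e] at this
  rw [sum_comm] at this
  simpa [div_eq_mul_inv] using this

lemma fc_le_cert {G : SimpleGraph V} {C : Type} [Fintype C] (u w : C → V)
    (hadj : ∀ c, G.Adj (u c) (w c)) {r : ℕ} (hr : 0 < r)
    (hc : ∀ S : Finset V, S ≠ ∅ → S ≠ univ → r ≤ #{c | ¬(u c ∈ S ↔ w c ∈ S)}) :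
    fc G ≤ Fintype.card C / r := by
  refine csSup_le ⟨_, _, packing_zero G, rfl⟩ ?_
  rintro _ ⟨g, hg, rfl⟩
  rw [le_div_iff₀ (by exact_mod_cast hr), sum_mul]
  calc ∑ S, g S * r ≤ ∑ S, ∑ c, if ¬(u c ∈ S ↔ w c ∈ S) then g S else 0 := by
        refine sum_le_sum fun S _ => ?_
        rw [← sum_filter, sum_const, nsmul_eq_mul, mul_comm]
        by_cases h0 : S = ∅
        · simp [h0, hg.2.1]
        by_cases h1 : S = univ
        · simp [h1, hg.2.2.1]
        have : (r : ℝ) ≤ #{c | ¬(u c ∈ S ↔ w c ∈ S)} := by exact_mod_cast hc S h0 h1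
        exact mul_le_mul_of_nonneg_right this (hg.1 S).1
    _ = ∑ c, ∑ S with ¬(u c ∈ S ↔ w c ∈ S), g S := by
        rw [sum_comm]; simp only [sum_filter]
    _ ≤ ∑ _c : C, (1 : ℝ) := sum_le_sum fun c _ => hg.2.2.2 _ _ (hadj c)
    _ = _ := by simp

end Pool.Agent.H51.EqT
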