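import Mathlib

namespace Pool.Agent.H51.EqT

open Finset

/-- One step of a protocol: player `src` sends one bit to player `dst`; the bit depends on the
input of `src` and on the bits that `src` has received so far. -/
structure Step (V : Type) (n : ℕ) where
  src : V
  dst : V
  bit : (Fin n → Bool) → List Bool → Bool

variable {V : Type} [Fintype V] [DecidableEq V] {n : ℕ}

/-- The bits received by each player on the input `x`, newest first. A protocol is the list of
its steps, the last step first. -/
def view (x : V → Fin n → Bool) : List (Step V n) → V → List Bool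
  | [], _ => []
  | s :: l, v =>
    if v = s.dst then s.bit (x s.src) (view x l s.src) :: view x l v else view x l v

/-- The protocol sends bits only along edges of `G`, and at its end all players accept, each
looking at its input and the bits it received, exactly when all inputs are equal. -/
def Solves (G : SimpleGraph V) (l : List (Step V n)) : Prop :=
  (∀ s ∈ l, G.Adj s.src s.dst) ∧ ∃ acc : V → (Fin n → Bool) → List Bool → Bool,
    ∀ x, (∀ v, acc v (x v) (view x l v) = true) ↔ ∀ u v, x u = x v

/-- `f(n, G)`: the least number of bits sent by a protocol testing equality of `n`-bit inputs. -/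
noncomputable def cost (G : SimpleGraph V) (n : ℕ) : ℕ :=
  sInf {c | ∃ l : List (Step V n), Solves G l ∧ l.length = c}

/-- Fractional packing of cuts; the cut `(S, V \ S)` is named by `S`. -/
def IsPacking (G : SimpleGraph V) (g : Finset V → ℝ) : Prop :=
  (∀ S, 0 ≤ g S ∧ g S ≤ 1) ∧ g ∅ = 0 ∧ g univ = 0 ∧
    ∀ a b, G.Adj a b → ∑ S with ¬(a ∈ S ↔ b ∈ S), g S ≤ 1

/-- The fractional cut packing number `fc(G)`. -/
noncomputable def fc (G : SimpleGraph V) : ℝ := sSup {t | ∃ g, IsPacking G g ∧ ∑ S, g S = t}

end Pool.Agent.H51.EqT
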