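import Pool.Agent.H51.EqTD

namespace Pool.Agent.H51.EqT

open Finset Filter Topology

def eT : List (Fin 9 × Fin 9) :=
  [(0,1),(0,2),(1,2),(6,7),(6,8),(7,8),(0,3),(3,6),(1,4),(4,7),(2,5),(5,8)]

def adjT (a b : Fin 9) : Bool := (a, b) ∈ eT || (b, a) ∈ eT

def GT : SimpleGraph (Fin 9) where
  Adj a b := adjT a b = true
  symm := ⟨by decide⟩
  loopless := ⟨by decide⟩

instance : DecidableRel GT.Adj := fun a b => inferInstanceAs (Decidable (adjT a b = true))

lemma GT_conn : GT.Connected := by decide +kernel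

def uT : Fin 18 → Fin 9 := ![0,0,1,6,6,7,0,3,1,4,2,5,0,3,1,4,2,5]
def wT : Fin 18 → Fin 9 := ![1,2,2,7,8,8,3,6,4,7,5,8,3,6,4,7,5,8]

lemma fc_GT : fc GT = 9 / 2 := by
  apply le_antisymm
  · have := fc_le_cert (G := GT) uT wT (by decide) (r := 4) (by norm_num) (by decide +kernel)
    norm_num at this
    exact this
  · simpa using half_le_fc GT

def extT : ℕ → List (Fin 9) → Fin 9 → Bool
  | 0, _, v => adjT v 0
  | k + 1, l, v => (List.finRange 9).any fun x => adjT v x && !(decide (x ∈ l)) && extT k (x :: l) x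

lemma extT_of (k : ℕ) : ∀ (l : List (Fin 9)) (f : ℕ → Fin 9),
    (∀ i < k, adjT (f i) (f (i + 1))) → adjT (f k) 0 → (∀ i, 1 ≤ i → i ≤ k → f i ∉ l) →
    (∀ i j, 1 ≤ i → i < j → j ≤ k → f j ≠ f i) → extT k l (f 0) = true := by
  induction k with
  | zero => exact fun l f _ h _ _ => h
  | succ k ih =>
    intro l f h1 h2 h3 h4
    simp only [extT, List.any_eq_true, Bool.and_eq_true, Bool.not_eq_true', decide_eq_false_iff_not]
    refine ⟨f 1, List.mem_finRange _, ⟨h1 0 (by omega), h3 1 le_rfl (by omega)⟩,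
      ih (f 1 :: l) (fun i => f (i + 1)) (fun i hi => h1 (i + 1) (by omega)) h2 ?_ ?_⟩
    · intro i hi hk
      rw [List.mem_cons, not_or]
      exact ⟨h4 1 (i + 1) le_rfl (by omega) (by omega), h3 (i + 1) (by omega) (by omega)⟩
    · exact fun i j a b c => h4 (i + 1) (j + 1) (by omega) (by omega) (by omega)

lemma GT_not_ham : ¬ GT.IsHamiltonian := by
  intro h
  obtain ⟨p, hp⟩ := h.exists_isHamiltonianCycle 0
  have hl : p.length = 9 := by simpa using hp.length_eq
  have hinj := hp.isCycle.getVert_injOn'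
  have ha : ∀ i, i < 9 → adjT (p.getVert i) (p.getVert (i + 1)) := fun i hi =>
    p.adj_getVert_succ (by omega)
  have hne : ∀ i j, i < j → j ≤ 8 → p.getVert j ≠ p.getVert i := by
    intro i j hij hj h
    have := hinj (show j ≤ p.length - 1 by omega) (show i ≤ p.length - 1 by omega) h
    omega
  have h0 : p.getVert 0 = 0 := p.getVert_zero
  have h9 : p.getVert 9 = 0 := p.getVert_of_length_le hl.le
  have h8 := ha 8 (by norm_num)
  rw [h9] at h8
  have := extT_of 8 [0] p.getVert (fun i hi => ha i (by omega)) h8 (fun i h1 h2 => by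
    have := hne 0 i h1 h2
    rw [h0] at this
    simpa using this) (fun i j _ b c => hne i j b c)
  rw [h0] at this
  revert this
  decide +kernel

/-- `c₂(G)`: the least number of edges, with multiplicities `m a b ≤ 2`, of a spanning
sub-multigraph of `G` in which every cut has at least two edges. -/
noncomputable def c2 {V : Type} [Fintype V] [DecidableEq V] (G : SimpleGraph V) : ℕ :=
  sInf {t | ∃ m : V → V → ℕ, (∀ a b, m a b = m b a) ∧ (∀ a b, m a b ≤ 2) ∧
    (∀ a b, ¬G.Adj a b → m a b = 0) ∧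
    (∀ S : Finset V, S ≠ ∅ → S ≠ univ → 2 ≤ ∑ a ∈ S, ∑ b ∈ Sᶜ, m a b) ∧
    ∑ a, ∑ b, m a b = 2 * t}

lemma sumT (m : Fin 9 → Fin 9 → ℕ) (h : ∀ a b, ¬GT.Adj a b → m a b = 0) (S T : Finset (Fin 9))
    (L : Finset (Fin 9 × Fin 9)) (hL : (S ×ˢ T).filter (fun p => GT.Adj p.1 p.2) = L) :
    ∑ a ∈ S, ∑ b ∈ T, m a b = ∑ p ∈ L, m p.1 p.2 := by
  rw [← hL, ← sum_product', sum_filter]
  refine sum_congr rfl fun p _ => ?_
  split_ifs with h'
  · rfl
  · exact h _ _ h'

lemma c2_GT : 10 ≤ c2 GT := by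
  apply le_csInf
  · exact ⟨12, fun a b => if adjT a b then 1 else 0, by decide, by decide, by decide,
      by decide +kernel, by decide +kernel⟩
  rintro t ⟨m, h1, -, h3, h4, h5⟩
  have c0 := h4 {0} (by decide) (by decide)
  rw [sumT m h3 _ _ {(0,1),(0,2),(0,3)} (by decide +kernel)] at c0
  have c1 := h4 {1} (by decide) (by decide)
  rw [sumT m h3 _ _ {(1,0),(1,2),(1,4)} (by decide +kernel)] at c1
  have c2 := h4 {2} (by decide) (by decide)
  rw [sumT m h3 _ _ {(2,0),(2,1),(2,5)} (by decide +kernel)] at c2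
  have c3 := h4 {3} (by decide) (by decide)
  rw [sumT m h3 _ _ {(3,0),(3,6)} (by decide +kernel)] at c3
  have c4 := h4 {4} (by decide) (by decide)
  rw [sumT m h3 _ _ {(4,1),(4,7)} (by decide +kernel)] at c4
  have c5 := h4 {5} (by decide) (by decide)
  rw [sumT m h3 _ _ {(5,2),(5,8)} (by decide +kernel)] at c5
  have c6 := h4 {6} (by decide) (by decide)
  rw [sumT m h3 _ _ {(6,7),(6,8),(6,3)} (by decide +kernel)] at c6
  have c7 := h4 {7} (by decide) (by decide)
  rw [sumT m h3 _ _ {(7,6),(7,8),(7,4)} (by decide +kernel)] at c7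
  have c8 := h4 {8} (by decide) (by decide)
  rw [sumT m h3 _ _ {(8,6),(8,7),(8,5)} (by decide +kernel)] at c8
  have d0 := h4 {0, 3} (by decide) (by decide)
  rw [sumT m h3 _ _ {(0,1),(0,2),(3,6)} (by decide +kernel)] at d0
  have d1 := h4 {1, 4} (by decide) (by decide)
  rw [sumT m h3 _ _ {(1,0),(1,2),(4,7)} (by decide +kernel)] at d1
  have d2 := h4 {2, 5} (by decide) (by decide)
  rw [sumT m h3 _ _ {(2,0),(2,1),(5,8)} (by decide +kernel)] at d2
  have d3 := h4 {6, 3} (by decide) (by decide)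
  rw [sumT m h3 _ _ {(6,7),(6,8),(3,0)} (by decide +kernel)] at d3
  have d4 := h4 {7, 4} (by decide) (by decide)
  rw [sumT m h3 _ _ {(7,6),(7,8),(4,1)} (by decide +kernel)] at d4
  have d5 := h4 {8, 5} (by decide) (by decide)
  rw [sumT m h3 _ _ {(8,6),(8,7),(5,2)} (by decide +kernel)] at d5
  rw [sumT m h3 _ _ {(0,1),(0,2),(0,3),(1,0),(1,2),(1,4),(2,0),(2,1),(2,5),(3,0),(3,6),(4,1),(4,7),
    (5,2),(5,8),(6,7),(6,8),(6,3),(7,6),(7,8),(7,4),(8,6),(8,7),(8,5)} (by decide +kernel)] at h5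
  simp only [mem_insert, mem_singleton, Prod.mk.injEq, Fin.reduceEq, and_false, false_and, or_self,
    not_false_eq_true, sum_insert, sum_singleton, and_self, true_and]
    at c0 c1 c2 c3 c4 c5 c6 c7 c8 d0 d1 d2 d3 d4 d5 h5
  have := h1 0 1
  have := h1 0 2
  have := h1 1 2
  have := h1 6 7
  have := h1 6 8
  have := h1 7 8
  have := h1 0 3
  have := h1 3 6
  have := h1 1 4
  have := h1 4 7
  have := h1 2 5
  have := h1 5 8
  omega

end Pool.Agent.H51.EqT
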