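import Mathlib

set_option autoImplicit false

namespace Pool.Agent.H51.ExactFact

variable {G : Type} [Group G]

def Ex (A B : Set G) : Prop :=
  ∀ a ∈ A, ∀ a' ∈ A, ∀ b ∈ B, ∀ b' ∈ B, a * b = a' * b' → a = a' ∧ b = b'

def Good (G : Type) [Group G] : Prop :=
  ∃ A B : Set G, A.Infinite ∧ B.Infinite ∧ Ex A B ∧ ∀ g, ∃ a ∈ A, ∃ b ∈ B, a * b = g

theorem chain (P : Finset G × Finset G → Prop) (C : ℕ → Finset G × Finset G → Prop)
    (hP : ∀ p, P p → Ex (p.1 : Set G) p.2) (p0 : Finset G × Finset G) (h0 : P p0)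
    (step : ∀ p, P p → ∀ n, ∃ q, P q ∧ p.1 ⊂ q.1 ∧ p.2 ⊂ q.2 ∧ C n q) :
    ∃ A B : Set G, A.Infinite ∧ B.Infinite ∧ Ex A B ∧
      (∀ n, ∃ q, (q.1 : Set G) ⊆ A ∧ (q.2 : Set G) ⊆ B ∧ C n q) ∧
      ∀ a ∈ A, ∀ a' ∈ A, ∀ b ∈ B, ∀ b' ∈ B, ∃ q, P q ∧ (q.1 : Set G) ⊆ A ∧ (q.2 : Set G) ⊆ B ∧
        a ∈ q.1 ∧ a' ∈ q.1 ∧ b ∈ q.2 ∧ b' ∈ q.2 := by
  choose f h1 h2 h3 h4 using step
  let s : ℕ → {p // P p} := fun n => Nat.rec ⟨p0, h0⟩ (fun n p => ⟨f p.1 p.2 n, h1 _ _ _⟩) n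
  have m1 : StrictMono fun n => (s n).1.1 := strictMono_nat_of_lt_succ fun n => h2 _ (s n).2 n
  have m2 : StrictMono fun n => (s n).1.2 := strictMono_nat_of_lt_succ fun n => h3 _ (s n).2 n
  have inf : ∀ t : ℕ → Finset G, StrictMono t → (⋃ n, (t n : Set G)).Infinite := by
    intro t ht hf
    have h5 : StrictMono fun n => (t n).card := fun a b h => Finset.card_lt_card (ht h)
    have h6 := h5.le_apply (x := hf.toFinset.card + 1)
    have h7 : (t (hf.toFinset.card + 1)).card ≤ hf.toFinset.card :=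
      Finset.card_le_card fun x hx => hf.mem_toFinset.2 (Set.mem_iUnion.2 ⟨_, hx⟩)
    omega
  have key : ∀ a ∈ ⋃ n, ((s n).1.1 : Set G), ∀ a' ∈ ⋃ n, ((s n).1.1 : Set G),
      ∀ b ∈ ⋃ n, ((s n).1.2 : Set G), ∀ b' ∈ ⋃ n, ((s n).1.2 : Set G),
      ∃ n, a ∈ (s n).1.1 ∧ a' ∈ (s n).1.1 ∧ b ∈ (s n).1.2 ∧ b' ∈ (s n).1.2 := by
    simp only [Set.mem_iUnion]
    rintro a ⟨i, hi⟩ a' ⟨j, hj⟩ b ⟨k, hk⟩ b' ⟨l, hl⟩
    exact ⟨i + j + k + l, m1.monotone (by omega) hi, m1.monotone (by omega) hj,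
      m2.monotone (by omega) hk, m2.monotone (by omega) hl⟩
  refine ⟨_, _, inf _ m1, inf _ m2, fun a ha a' ha' b hb b' hb' => ?_, fun n => ?_,
    fun a ha a' ha' b hb b' hb' => ?_⟩
  · obtain ⟨n, e1, e2, e3, e4⟩ := key a ha a' ha' b hb b' hb'
    exact hP _ (s n).2 a e1 a' e2 b e3 b' e4
  · exact ⟨(s (n + 1)).1, Set.subset_iUnion (fun n => ((s n).1.1 : Set G)) (n + 1),
      Set.subset_iUnion (fun n => ((s n).1.2 : Set G)) (n + 1), h4 _ (s n).2 n⟩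
  · obtain ⟨n, e⟩ := key a ha a' ha' b hb b' hb'
    exact ⟨(s n).1, (s n).2, Set.subset_iUnion (fun n => ((s n).1.1 : Set G)) _,
      Set.subset_iUnion (fun n => ((s n).1.2 : Set G)) _, e⟩

theorem greedy [Countable G] [Infinite G] (h : ∀ d : G, d ≠ 1 → {y : G | y * y = d}.Finite) :
    Good G := by
  classical
  obtain ⟨e, he⟩ := exists_surjective_nat G
  have ext : ∀ p : Finset G × Finset G, Ex (p.1 : Set G) p.2 → ∀ g,
      (∀ a ∈ p.1, ∀ b ∈ p.2, a * b ≠ g) → ∃ x, x ∉ p.1 ∧ x⁻¹ * g ∉ p.2 ∧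
        Ex (insert x p.1 : Finset G) ((insert (x⁻¹ * g) p.2 : Finset G) : Set G) := by
    rintro ⟨A, B⟩ hp g hg
    have f1 : (⋃ a ∈ A, ⋃ b ∈ B, {x : G | x * b = a * (x⁻¹ * g)}).Finite := by
      refine A.finite_toSet.biUnion fun a ha => B.finite_toSet.biUnion fun b hb => ?_
      refine ((h (a * (b * g⁻¹)) ?_).preimage (mul_left_injective (b * g⁻¹)).injOn).subset ?_
      · rw [← mul_assoc, Ne, mul_inv_eq_one]; exact hg a ha b hb
      · intro x hx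
        simp only [Set.mem_setOf_eq, Set.mem_preimage] at hx ⊢
        calc x * (b * g⁻¹) * (x * (b * g⁻¹)) = x * b * g⁻¹ * x * (b * g⁻¹) := by group
          _ = _ := by rw [hx]; group
    have f2 : (⋃ a ∈ A, ⋃ b ∈ B, ⋃ b' ∈ B, {a * b * b'⁻¹}).Finite :=
      A.finite_toSet.biUnion fun a _ => B.finite_toSet.biUnion fun b _ =>
        B.finite_toSet.biUnion fun b' _ => Set.finite_singleton _
    have f3 : (⋃ a ∈ A, ⋃ a' ∈ A, ⋃ b ∈ B, {g * (a * b)⁻¹ * a'}).Finite :=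
      A.finite_toSet.biUnion fun a _ => A.finite_toSet.biUnion fun a' _ =>
        B.finite_toSet.biUnion fun b' _ => Set.finite_singleton _
    have f4 : (⋃ b ∈ B, {g * b⁻¹}).Finite :=
      B.finite_toSet.biUnion fun b' _ => Set.finite_singleton _
    obtain ⟨x, hx⟩ := ((((f1.union f2).union f3).union f4).union A.finite_toSet).exists_notMem
    simp only [Set.mem_union, Set.mem_iUnion, Set.mem_setOf_eq, Set.mem_singleton_iff, not_or,
      not_exists, Finset.mem_coe] at hx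
    obtain ⟨⟨⟨⟨x1, x2⟩, x3⟩, x4⟩, x5⟩ := hx
    refine ⟨x, x5, fun hb => x4 _ hb (by group), ?_⟩
    have y2 : ∀ a ∈ A, ∀ b ∈ B, ∀ b' ∈ B, a * b ≠ x * b' := fun a ha b hb b' hb' e =>
      x2 a ha b hb b' hb' (by rw [e]; group)
    have y3 : ∀ a ∈ A, ∀ a' ∈ A, ∀ b ∈ B, a * b ≠ a' * (x⁻¹ * g) := fun a ha a' ha' b hb e =>
      x3 a ha a' ha' b hb (by rw [e]; group)
    have y4 : ∀ a ∈ A, ∀ b ∈ B, a * b ≠ x * (x⁻¹ * g) := fun a ha b hb e =>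
      hg a ha b hb (by rw [e]; group)
    simp only [Ex, Finset.coe_insert, Set.mem_insert_iff, Finset.mem_coe]
    rintro a (rfl | ha) a' (rfl | ha') b (rfl | hb) b' (rfl | hb') e <;>
    first
      | exact ⟨rfl, mul_left_cancel e⟩
      | exact ⟨mul_right_cancel e, rfl⟩
      | exact hp a ha a' ha' b hb b' hb' e
      | exact absurd e (x1 _ ‹_› _ ‹_›)
      | exact absurd e.symm (x1 _ ‹_› _ ‹_›)
      | exact absurd e (y4 _ ‹_› _ ‹_›)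
      | exact absurd e.symm (y4 _ ‹_› _ ‹_›)
      | exact absurd e (y2 _ ha _ hb _ hb')
      | exact absurd e.symm (y2 _ ha' _ hb' _ hb)
      | exact absurd e (y3 _ ha _ ha' _ hb)
      | exact absurd e.symm (y3 _ ha' _ ha _ hb')
  obtain ⟨A, B, h1, h2, h3, h4, -⟩ := chain (fun p => Ex (p.1 : Set G) p.2)
    (fun n q => ∃ a ∈ q.1, ∃ b ∈ q.2, a * b = e n) (fun _ h => h) (∅, ∅) (by simp [Ex])
    (fun p hp n => by
      by_cases hn : ∃ a ∈ p.1, ∃ b ∈ p.2, a * b = e n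
      · obtain ⟨g, hg⟩ := Infinite.exists_notMem_finset (Finset.image₂ (· * ·) p.1 p.2)
        obtain ⟨x, x1, x2, x3⟩ := ext p hp g fun a ha b hb e =>
          hg (Finset.mem_image₂.2 ⟨a, ha, b, hb, e⟩)
        obtain ⟨a, ha, b, hb, hab⟩ := hn
        exact ⟨(_, _), x3, Finset.ssubset_insert x1, Finset.ssubset_insert x2, a,
          Finset.mem_insert_of_mem ha, b, Finset.mem_insert_of_mem hb, hab⟩
      · push Not at hn
        obtain ⟨x, x1, x2, x3⟩ := ext p hp _ hn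
        exact ⟨(_, _), x3, Finset.ssubset_insert x1, Finset.ssubset_insert x2, x,
          Finset.mem_insert_self _ _, _, Finset.mem_insert_self _ _, by group⟩)
  refine ⟨A, B, h1, h2, h3, fun g => ?_⟩
  obtain ⟨n, rfl⟩ := he g
  obtain ⟨q, q1, q2, a, ha, b, hb, hab⟩ := h4 n
  exact ⟨a, q1 ha, b, q2 hb, hab⟩

theorem ext_right (H K : Subgroup G) (hHK : H ≤ K) (A B : Set G) (h : Ex A B)
    (hH : ∀ g, g ∈ H ↔ ∃ a ∈ A, ∃ b ∈ B, a * b = g) :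
    ∃ B' : Set G, B ⊆ B' ∧ Ex A B' ∧ ∀ g, g ∈ K ↔ ∃ a ∈ A, ∃ b ∈ B', a * b = g := by
  obtain ⟨T, hT, h1⟩ := H.exists_isComplement_right 1
  refine ⟨{x | ∃ b ∈ B, ∃ t ∈ T, t ∈ K ∧ b * t = x}, fun b hb => ⟨b, hb, 1, h1, K.one_mem, mul_one _⟩,
    ?_, fun g => ⟨fun hg => ?_, ?_⟩⟩
  · rintro a ha a' ha' _ ⟨b, hb, t, ht, -, rfl⟩ _ ⟨b', hb', t', ht', -, rfl⟩ e
    have := hT.1 (a₁ := (⟨a * b, (hH _).2 ⟨a, ha, b, hb, rfl⟩⟩, ⟨t, ht⟩))
      (a₂ := (⟨a' * b', (hH _).2 ⟨a', ha', b', hb', rfl⟩⟩, ⟨t', ht'⟩)) (by simpa [mul_assoc] using e)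
    simp only [Prod.mk.injEq, Subtype.mk.injEq] at this
    obtain ⟨e1, e2⟩ := h a ha a' ha' b hb b' hb' this.1
    exact ⟨e1, by rw [e2, this.2]⟩
  · obtain ⟨⟨⟨x, hx⟩, ⟨t, ht⟩⟩, rfl⟩ := hT.2 g
    obtain ⟨a, ha, b, hb, rfl⟩ := (hH x).1 hx
    exact ⟨a, ha, b * t, ⟨b, hb, t, ht, (K.mul_mem_cancel_left (hHK hx)).1 hg, rfl⟩,
      (mul_assoc _ _ _).symm⟩
  · rintro ⟨a, ha, _, ⟨b, hb, t, -, ht, rfl⟩, rfl⟩
    rw [← mul_assoc]
    exact mul_mem (hHK ((hH _).2 ⟨a, ha, b, hb, rfl⟩)) ht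

theorem ext_left (H K : Subgroup G) (hHK : H ≤ K) (A B : Set G) (h : Ex A B)
    (hH : ∀ g, g ∈ H ↔ ∃ a ∈ A, ∃ b ∈ B, a * b = g) :
    ∃ A' : Set G, A ⊆ A' ∧ Ex A' B ∧ ∀ g, g ∈ K ↔ ∃ a ∈ A', ∃ b ∈ B, a * b = g := by
  obtain ⟨T, hT, h1⟩ := H.exists_isComplement_left 1
  refine ⟨{x | ∃ a ∈ A, ∃ t ∈ T, t ∈ K ∧ t * a = x}, fun b hb => ⟨b, hb, 1, h1, K.one_mem, one_mul _⟩,
    ?_, fun g => ⟨fun hg => ?_, ?_⟩⟩
  · rintro _ ⟨a, ha, t, ht, -, rfl⟩ _ ⟨a', ha', t', ht', -, rfl⟩ b hb b' hb' e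
    have := hT.1 (a₁ := (⟨t, ht⟩, ⟨a * b, (hH _).2 ⟨a, ha, b, hb, rfl⟩⟩))
      (a₂ := (⟨t', ht'⟩, ⟨a' * b', (hH _).2 ⟨a', ha', b', hb', rfl⟩⟩)) (by simpa [mul_assoc] using e)
    simp only [Prod.mk.injEq, Subtype.mk.injEq] at this
    obtain ⟨e1, e2⟩ := h a ha a' ha' b hb b' hb' this.2
    exact ⟨by rw [e1, this.1], e2⟩
  · obtain ⟨⟨⟨t, ht⟩, ⟨x, hx⟩⟩, rfl⟩ := hT.2 g
    obtain ⟨a, ha, b, hb, rfl⟩ := (hH x).1 hx
    exact ⟨t * a, ⟨a, ha, t, ht, (K.mul_mem_cancel_right (hHK hx)).1 hg, rfl⟩, b, hb,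
      mul_assoc _ _ _⟩
  · rintro ⟨_, ⟨a, ha, t, -, ht, rfl⟩, b, hb, rfl⟩
    rw [mul_assoc]
    exact mul_mem ht (hHK ((hH _).2 ⟨a, ha, b, hb, rfl⟩))

theorem up (H : Subgroup G) (A B : Set G) (hA : A.Infinite) (hB : B.Infinite) (h : Ex A B)
    (hH : ∀ g, g ∈ H ↔ ∃ a ∈ A, ∃ b ∈ B, a * b = g) : Good G := by
  obtain ⟨B', h1, h2, h3⟩ := ext_right H ⊤ le_top A B h hH
  exact ⟨A, B', hA, hB.mono h1, h2, fun g => (h3 g).1 trivial⟩

theorem up_sub (H : Subgroup G) (h : Good H) : Good G := by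
  obtain ⟨A, B, h1, h2, h3, h4⟩ := h
  refine up H (Subtype.val '' A) (Subtype.val '' B) (h1.image Subtype.val_injective.injOn)
    (h2.image Subtype.val_injective.injOn) ?_ fun g => ⟨fun hg => ?_, ?_⟩
  · rintro _ ⟨a, ha, rfl⟩ _ ⟨a', ha', rfl⟩ _ ⟨b, hb, rfl⟩ _ ⟨b', hb', rfl⟩ e
    obtain ⟨rfl, rfl⟩ := h3 a ha a' ha' b hb b' hb' (Subtype.ext e)
    exact ⟨rfl, rfl⟩
  · obtain ⟨a, ha, b, hb, e⟩ := h4 ⟨g, hg⟩
    exact ⟨a, ⟨a, ha, rfl⟩, b, ⟨b, hb, rfl⟩, congrArg Subtype.val e⟩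
  · rintro ⟨_, ⟨a, -, rfl⟩, _, ⟨b, -, rfl⟩, rfl⟩
    exact (a * b).2

theorem up_quot {Q : Type} [Group Q] (π : G →* Q) (hπ : Function.Surjective π) (h : Good Q) :
    Good G := by
  obtain ⟨A, B, h1, h2, h3, h4⟩ := h
  obtain ⟨s, hs⟩ := hπ.hasRightInverse
  refine ⟨s '' A, π ⁻¹' B, h1.image hs.injective.injOn, h2.preimage (by simp [hπ.range_eq]), ?_,
    fun g => ?_⟩
  · rintro _ ⟨a, ha, rfl⟩ _ ⟨a', ha', rfl⟩ b hb b' hb' e
    have := congrArg π e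
    rw [map_mul, map_mul, hs, hs] at this
    obtain ⟨rfl, -⟩ := h3 a ha a' ha' _ hb _ hb' this
    exact ⟨rfl, mul_left_cancel e⟩
  · obtain ⟨a, ha, b, hb, e⟩ := h4 (π g)
    refine ⟨s a, ⟨a, ha, rfl⟩, (s a)⁻¹ * g, ?_, by group⟩
    show π _ ∈ B
    rw [map_mul, map_inv, hs, ← e]; simpa using hb

theorem bad_elt [Countable G] [Infinite G] (h : ¬ Good G) :
    ∃ d : G, d ≠ 1 ∧ IsOfFinOrder d ∧ {y : G | y * d = d * y}.Infinite := by
  by_contra hc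
  push Not at hc
  apply h
  by_cases h1 : ∃ d : G, ¬ IsOfFinOrder d
  · obtain ⟨d, hd⟩ := h1
    haveI : Infinite (Subgroup.zpowers d) := (infinite_zpowers.2 hd).to_subtype
    refine up_sub (Subgroup.zpowers d) (greedy fun c _ => Set.Subsingleton.finite ?_)
    rintro ⟨_, m, rfl⟩ hm ⟨_, n, rfl⟩ hn
    have := congrArg Subtype.val (hm.trans hn.symm)
    simp only [Subgroup.coe_mul, ← zpow_add] at this
    have := injective_zpow_iff_not_isOfFinOrder.2 hd this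
    rw [show m = n by omega]
  · push Not at h1
    refine greedy fun d hd => (hc d hd (h1 d)).subset ?_
    rintro y rfl
    exact (mul_assoc _ _ _).symm

theorem grow [Countable G] (h : ¬ Good G) (F : Subgroup G) (hF : (F : Set G).Finite)
    (hN : (Subgroup.normalizer (F : Set G) : Set G).Infinite) :
    ∃ F' : Subgroup G, F < F' ∧ (F' : Set G).Finite ∧
      (Subgroup.normalizer (F' : Set G) : Set G).Infinite := by
  set N := Subgroup.normalizer (F : Set G) with hNd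
  haveI : Infinite N := hN.to_subtype
  haveI : Finite F := hF.to_subtype
  haveI : Finite (F.subgroupOf N) :=
    Finite.of_injective _ (Subgroup.subgroupOfEquivOfLe Subgroup.le_normalizer).injective
  let π := QuotientGroup.mk' (F.subgroupOf N)
  have hπ : Function.Surjective π := QuotientGroup.mk'_surjective _
  have hfib : ∀ S : Set (N ⧸ F.subgroupOf N), S.Finite → (π ⁻¹' S).Finite := fun S hS =>
    hS.preimage' fun q _ => by
      have := QuotientGroup.preimageMkEquivSubgroupProdSet (F.subgroupOf N) {q}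
      exact Set.finite_coe_iff.1 (Finite.of_equiv _ this.symm)
  haveI : Infinite (N ⧸ F.subgroupOf N) := by
    by_contra hc
    rw [not_infinite_iff_finite] at hc
    exact Set.infinite_univ (hfib _ Set.finite_univ)
  haveI : Countable (N ⧸ F.subgroupOf N) := hπ.countable
  obtain ⟨d, h1, h2, h3⟩ := bad_elt (G := N ⧸ F.subgroupOf N)
    fun hg => h (up_sub N (up_quot π hπ hg))
  refine ⟨((Subgroup.zpowers d).comap π).map N.subtype, lt_of_le_of_ne ?_ ?_, ?_, ?_⟩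
  · intro x hx
    refine ⟨⟨x, Subgroup.le_normalizer hx⟩, ?_, rfl⟩
    show π _ ∈ Subgroup.zpowers d
    rw [show π ⟨x, Subgroup.le_normalizer hx⟩ = 1 from (QuotientGroup.eq_one_iff _).2 hx]
    exact one_mem _
  · intro e
    obtain ⟨y, rfl⟩ := hπ d
    apply h1
    refine (QuotientGroup.eq_one_iff _).2 ?_
    show (y : G) ∈ F
    rw [e]
    exact ⟨y, Subgroup.mem_zpowers _, rfl⟩
  · exact (hfib _ (finite_zpowers.2 h2)).image _
  · refine ((h3.preimage (f := π) (by simp [hπ.range_eq])).image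
      (f := Subtype.val) Subtype.val_injective.injOn).mono ?_
    rintro _ ⟨y, hy, rfl⟩
    have hc : Commute (π y) d := hy
    have key : ∀ z : N, Commute (π z) d → ∀ x ∈ ((Subgroup.zpowers d).comap π).map N.subtype,
        (z : G) * x * (z : G)⁻¹ ∈ ((Subgroup.zpowers d).comap π).map N.subtype := by
      rintro z hz _ ⟨x, ⟨n, hn⟩, rfl⟩
      refine ⟨z * x * z⁻¹, ⟨n, ?_⟩, rfl⟩
      simp only at hn
      simp only [map_mul, map_inv, ← hn, (hz.zpow_right n).eq, mul_inv_cancel_right]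
    refine Subgroup.mem_normalizer_iff.2 fun x => ⟨key y hc x, fun hx => ?_⟩
    have := key y⁻¹ (by rw [map_inv]; exact hc.inv_left) _ hx
    simpa [mul_assoc] using this

theorem good [Countable G] [Infinite G] : Good G := by
  classical
  by_contra h
  obtain ⟨A, B, h1, h2, h3, -, h5⟩ := chain (G := G)
    (fun p => Ex (p.1 : Set G) p.2 ∧ ∃ F : Subgroup G, (F : Set G).Finite ∧
      (Subgroup.normalizer (F : Set G) : Set G).Infinite ∧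
      ∀ g, g ∈ F ↔ ∃ a ∈ (p.1 : Set G), ∃ b ∈ (p.2 : Set G), a * b = g)
    (fun _ _ => True) (fun _ h => h.1) ({1}, {1})
    ⟨by simp [Ex], ⊥, by simp, by
      rw [Subgroup.normalizer_eq_top]; exact Set.infinite_univ, by simp [eq_comm]⟩
    (by
      rintro ⟨A, B⟩ ⟨hp, F, hF, hN, hAB⟩ -
      obtain ⟨F1, l1, f1, n1⟩ := grow h F hF hN
      obtain ⟨F2, l2, f2, n2⟩ := grow h F1 f1 n1
      obtain ⟨B', b1, b2, b3⟩ := ext_right F F1 l1.le _ _ hp hAB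
      obtain ⟨A', a1, a2, a3⟩ := ext_left F1 F2 l2.le _ _ b2 b3
      obtain ⟨a, ha, b, hb, -⟩ := (hAB 1).1 F.one_mem
      have fA : A'.Finite := (f2.preimage (mul_left_injective b).injOn).subset fun x hx =>
        (a3 _).2 ⟨x, hx, b, b1 hb, rfl⟩
      have fB : B'.Finite := (f1.preimage (mul_right_injective a).injOn).subset fun x hx =>
        (b3 _).2 ⟨a, ha, x, hx, rfl⟩
      lift A' to Finset G using fA
      lift B' to Finset G using fB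
      refine ⟨(A', B'), ⟨a2, F2, f2, n2, a3⟩, lt_of_le_of_ne (Finset.coe_subset.1 a1) ?_,
        lt_of_le_of_ne (Finset.coe_subset.1 b1) ?_, trivial⟩
      · rintro (rfl : A = A')
        exact l2.ne (Subgroup.ext fun g => (b3 g).trans (a3 g).symm)
      · rintro (rfl : B = B')
        exact l1.ne (Subgroup.ext fun g => (hAB g).trans (b3 g).symm))
  obtain ⟨a0, ha0⟩ := h1.nonempty
  obtain ⟨b0, hb0⟩ := h2.nonempty
  let H : Subgroup G :=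
    { carrier := {g | ∃ a ∈ A, ∃ b ∈ B, a * b = g}
      mul_mem' := by
        rintro _ _ ⟨a, ha, b, hb, rfl⟩ ⟨a', ha', b', hb', rfl⟩
        obtain ⟨q, ⟨-, F, -, -, hF⟩, q1, q2, e1, e2, e3, e4⟩ := h5 a ha a' ha' b hb b' hb'
        obtain ⟨x, hx, y, hy, e⟩ := (hF _).1
          (mul_mem ((hF _).2 ⟨a, e1, b, e3, rfl⟩) ((hF _).2 ⟨a', e2, b', e4, rfl⟩))
        exact ⟨x, q1 hx, y, q2 hy, e⟩
      one_mem' := by
        obtain ⟨q, ⟨-, F, -, -, hF⟩, q1, q2, -⟩ := h5 a0 ha0 a0 ha0 b0 hb0 b0 hb0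
        obtain ⟨x, hx, y, hy, e⟩ := (hF _).1 F.one_mem
        exact ⟨x, q1 hx, y, q2 hy, e⟩
      inv_mem' := by
        rintro _ ⟨a, ha, b, hb, rfl⟩
        obtain ⟨q, ⟨-, F, -, -, hF⟩, q1, q2, e1, -, e3, -⟩ := h5 a ha a ha b hb b hb
        obtain ⟨x, hx, y, hy, e⟩ := (hF _).1 (inv_mem ((hF _).2 ⟨a, e1, b, e3, rfl⟩))
        exact ⟨x, q1 hx, y, q2 hy, e⟩ }
  exact h (up H A B h1 h2 h3 fun _ => Iff.rfl)

end Pool.Agent.H51.ExactFact
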