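import Mathlib
import Pool.Agent.H51.FiveT0

set_option autoImplicit false

namespace Pool.Agent.H51.FiveA

open Pool.Agent.H51.FiveBase Pool.Agent.H51.FiveT0 Finset

def T (n : ℕ) : ℕ := if n % 2 = 0 then n / 2 else (5 * n + 1) / 2

open Classical in
noncomputable def S (X a : ℕ) : Finset ℕ := (Icc 1 X).filter fun n => ∃ k, T^[k] n = a

def NP (a : ℕ) : Prop := ∀ k, 0 < k → T^[k] a ≠ a

lemma NP_child {a c : ℕ} (h : T c = a) (ha : NP a) : NP c := by
  intro k hk e
  refine ha k hk ?_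
  rw [← h, ← Function.iterate_succ_apply, Function.iterate_succ_apply', e]

lemma S_sub {X a c : ℕ} (h : T c = a) (ha : NP a) : S X c ⊆ (S X a).erase a := by
  intro n hn
  simp only [S, mem_filter, mem_erase] at hn ⊢
  obtain ⟨h1, k, hk⟩ := hn
  have h2 : T^[k + 1] n = a := by rw [Function.iterate_succ_apply', hk, h]
  refine ⟨fun e => ha (k + 1) (by omega) (by rw [e] at h2; exact h2), h1, k + 1, h2⟩

lemma S_disj {X a c d : ℕ} (h : T c = a) (h' : T d = a) (hcd : c ≠ d) (ha : NP a) :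
    Disjoint (S X c) (S X d) := by
  rw [disjoint_left]
  intro n hn hn'
  simp only [S, mem_filter] at hn hn'
  obtain ⟨-, k, hk⟩ := hn
  obtain ⟨-, l, hl⟩ := hn'
  have h2 : T^[k + 1] n = a := by rw [Function.iterate_succ_apply', hk, h]
  have h3 : T^[l + 1] n = a := by rw [Function.iterate_succ_apply', hl, h']
  rcases lt_trichotomy k l with h4 | h4 | h4
  · refine ha (l - k) (by omega) ?_
    conv_lhs => rw [← h2, ← Function.iterate_add_apply]
    rw [show l - k + (k + 1) = l + 1 by omega, h3]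
  · subst h4; exact hcd (hk.symm.trans hl)
  · refine ha (k - l) (by omega) ?_
    conv_lhs => rw [← h3, ← Function.iterate_add_apply]
    rw [show k - l + (l + 1) = k + 1 by omega, h2]

lemma self_mem {X a : ℕ} (h1 : 1 ≤ a) (h2 : a ≤ X) : a ∈ S X a := by
  simp only [S, mem_filter, mem_Icc]
  exact ⟨⟨h1, h2⟩, 0, rfl⟩

lemma cA : (7422 / 10000 : ℝ) * (2 : ℝ) ^ (43 / 100 : ℝ) ≤ 1 := by
  have h1 : ((7422 / 10000 : ℝ) * (2 : ℝ) ^ (43 / 100 : ℝ)) ^ 100 ≤ 1 ^ 100 := by
    rw [mul_pow, ← Real.rpow_natCast ((2 : ℝ) ^ (43 / 100 : ℝ)), ← Real.rpow_mul (by norm_num)]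
    rw [show (43 / 100 : ℝ) * ((100 : ℕ) : ℝ) = ((43 : ℕ) : ℝ) by norm_num, Real.rpow_natCast]
    norm_num
  exact le_of_pow_le_pow_left₀ (by norm_num) (by norm_num) h1

lemma cB : (14828 / 10000 : ℝ) ≤ (5 / 2 : ℝ) ^ (43 / 100 : ℝ) := by
  have h1 : (14828 / 10000 : ℝ) ^ 100 ≤ ((5 / 2 : ℝ) ^ (43 / 100 : ℝ)) ^ 100 := by
    rw [← Real.rpow_natCast ((5 / 2 : ℝ) ^ (43 / 100 : ℝ)), ← Real.rpow_mul (by norm_num)]
    rw [show (43 / 100 : ℝ) * ((100 : ℕ) : ℝ) = ((43 : ℕ) : ℝ) by norm_num, Real.rpow_natCast]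
    norm_num
  exact le_of_pow_le_pow_left₀ (by norm_num) (by positivity) h1

lemma main (X : ℕ) : ∀ N a : ℕ, (S X a).card ≤ N → 1 ≤ a → a ≤ X → NP a →
    (w (a % 78125) : ℝ) * ((X : ℝ) / a) ^ (43 / 100 : ℝ) ≤ 131072 * (S X a).card := by
  intro N
  induction N with
  | zero =>
    intro a h h1 h2 _
    have := card_pos.2 ⟨a, self_mem h1 h2⟩
    omega
  | succ N ih =>
    intro a h h1 h2 ha
    have hpos := card_pos.2 ⟨a, self_mem h1 h2⟩
    have ha0 : (0 : ℝ) < a := by exact_mod_cast h1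
    have hX0 : (0 : ℝ) ≤ X := Nat.cast_nonneg X
    have hu : (0 : ℝ) ≤ ((X : ℝ) / a) ^ (43 / 100 : ℝ) := by positivity
    by_cases hb : X < 2 * a
    · have h3 : ((X : ℝ) / a) ^ (43 / 100 : ℝ) ≤ 2 := by
        have h4 : (X : ℝ) / a ≤ 2 := by
          rw [div_le_iff₀ ha0]; exact_mod_cast hb.le
        calc _ ≤ (2 : ℝ) ^ (43 / 100 : ℝ) := Real.rpow_le_rpow (by positivity) h4 (by norm_num)
          _ ≤ (2 : ℝ) ^ (1 : ℝ) := Real.rpow_le_rpow_of_exponent_le (by norm_num) (by norm_num)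
          _ = 2 := by simp
      have h5 : (w (a % 78125) : ℝ) ≤ 65536 := by exact_mod_cast (w_lt _).le
      have h6 : (1 : ℝ) ≤ (S X a).card := by exact_mod_cast hpos
      nlinarith
    · have t2 : T (2 * a) = a := by simp only [T]; rw [if_pos (by omega)]; omega
      have s2 := card_le_card (S_sub (X := X) t2 ha)
      rw [card_erase_of_mem (self_mem h1 h2)] at s2
      have i2 := ih (2 * a) (by omega) (by omega) (by omega) (NP_child t2 ha)
      have e2 : 2 * a % 78125 = 2 * (a % 78125) % 78125 := by omega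
      have r2 : (7422 / 10000 : ℝ) * ((X : ℝ) / a) ^ (43 / 100 : ℝ) ≤
          ((X : ℝ) / ((2 * a : ℕ) : ℝ)) ^ (43 / 100 : ℝ) := by
        have : (X : ℝ) / a = 2 * ((X : ℝ) / ((2 * a : ℕ) : ℝ)) := by
          push_cast; field_simp
        rw [this, Real.mul_rpow (by norm_num) (by positivity), ← mul_assoc]
        exact mul_le_of_le_one_left (by positivity) cA
      obtain ⟨c1, c2⟩ := chkL_spec w _ _ _ ok (a % 78125) (Nat.mod_lt _ (by norm_num))
      rw [← e2] at c1 c2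
      have w2 : (0 : ℝ) ≤ w (2 * a % 78125) := Nat.cast_nonneg _
      by_cases h3 : a % 5 = 3
      · set c := (2 * a - 1) / 5 with hc
        have tc : T c = a := by simp only [T]; rw [if_neg (by omega)]; omega
        have hcd : 2 * a ≠ c := by omega
        have s3 : (S X (2 * a)).card + (S X c).card ≤ (S X a).card - 1 := by
          rw [← card_union_of_disjoint (S_disj t2 tc hcd ha), ← card_erase_of_mem (self_mem h1 h2)]
          exact card_le_card (union_subset (S_sub t2 ha) (S_sub tc ha))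
        have ic := ih c (by omega) (by omega) (by omega) (NP_child tc ha)
        have c3 := c2 (by omega) (c % 78125) (Nat.mod_lt _ (by norm_num)) (by omega)
        have hc0 : (0 : ℝ) < c := by exact_mod_cast (show 0 < c by omega)
        have rc : (14828 / 10000 : ℝ) * ((X : ℝ) / a) ^ (43 / 100 : ℝ) ≤
            ((X : ℝ) / c) ^ (43 / 100 : ℝ) := by
          have h7 : 5 / 2 * ((X : ℝ) / a) ≤ (X : ℝ) / c := by
            have h8 : (5 : ℝ) * c ≤ 2 * a := by exact_mod_cast (show 5 * c ≤ 2 * a by omega)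
            rw [show 5 / 2 * ((X : ℝ) / a) = X / (2 * a / 5) by field_simp]
            exact div_le_div_of_nonneg_left hX0 hc0 (by linarith)
          calc _ ≤ (5 / 2 : ℝ) ^ (43 / 100 : ℝ) * ((X : ℝ) / a) ^ (43 / 100 : ℝ) :=
                mul_le_mul_of_nonneg_right cB hu
            _ = (5 / 2 * ((X : ℝ) / a)) ^ (43 / 100 : ℝ) :=
                (Real.mul_rpow (by norm_num) (by positivity)).symm
            _ ≤ _ := Real.rpow_le_rpow (by positivity) h7 (by norm_num)
        have wc : (0 : ℝ) ≤ w (c % 78125) := Nat.cast_nonneg _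
        have c4 : (10000 : ℝ) * w (a % 78125) ≤ 7422 * w (2 * a % 78125) + 14828 * w (c % 78125) := by
          exact_mod_cast c3
        have s4 : ((S X (2 * a)).card : ℝ) + (S X c).card ≤ (S X a).card := by
          exact_mod_cast (show (S X (2 * a)).card + (S X c).card ≤ (S X a).card by omega)
        have m1 := mul_le_mul_of_nonneg_right c4 hu
        have m2 := mul_le_mul_of_nonneg_left r2 w2
        have m3 := mul_le_mul_of_nonneg_left rc wc
        nlinarith
      · have c3 := c1 (by omega)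
        have c4 : (10000 : ℝ) * w (a % 78125) ≤ 7422 * w (2 * a % 78125) := by exact_mod_cast c3
        have s4 : ((S X (2 * a)).card : ℝ) ≤ (S X a).card := by
          exact_mod_cast (show (S X (2 * a)).card ≤ (S X a).card by omega)
        have m1 := mul_le_mul_of_nonneg_right c4 hu
        have m2 := mul_le_mul_of_nonneg_left r2 w2
        nlinarith

lemma NP16 : NP 16 := by
  have h : ∀ k, T^[k + 1] 16 = 8 ∨ T^[k + 1] 16 = 4 ∨ T^[k + 1] 16 = 2 ∨ T^[k + 1] 16 = 1 ∨
      T^[k + 1] 16 = 3 := by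
    intro k
    induction k with
    | zero => left; decide
    | succ k ih =>
      rw [Function.iterate_succ_apply' T (k + 1)]
      rcases ih with h | h | h | h | h <;> rw [h] <;> decide
  intro k hk e
  obtain ⟨j, rfl⟩ : ∃ j, k = j + 1 := ⟨k - 1, by omega⟩
  have := h j
  omega

lemma w16' : 1 ≤ w (16 % 78125) := w16

def TZ (n : ℤ) : ℤ := if n % 2 = 0 then n / 2 else (5 * n + 1) / 2

lemma TZ_cast (n : ℕ) : TZ n = T n := by
  simp only [TZ, T]
  split_ifs <;> omega

lemma TZ_iter (k n : ℕ) : TZ^[k] n = (T^[k] n : ℕ) := by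
  induction k with
  | zero => rfl
  | succ k ih => rw [Function.iterate_succ_apply', Function.iterate_succ_apply', ih, TZ_cast]

theorem bound (x : ℝ) (hx : 1 ≤ x) (A : Set ℤ) (hA : A ⊆ {n | 1 ≤ n ∧ (n : ℝ) ≤ x})
    (hB : ∀ n : ℤ, 1 ≤ n → (n : ℝ) ≤ x → (∃ k, TZ^[k] n = 1) → n ∈ A) :
    (1 / 4194304 : ℝ) * x ^ (43 / 100 : ℝ) ≤ A.ncard := by
  have hfin : A.Finite := (Set.finite_Icc (1 : ℤ) ⌊x⌋).subset fun n hn =>
    ⟨(hA hn).1, Int.le_floor.2 (hA hn).2⟩
  have hx0 : 0 ≤ x := by linarith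
  have h32 : (32 : ℝ) ^ (43 / 100 : ℝ) ≤ 32 := by
    calc _ ≤ (32 : ℝ) ^ (1 : ℝ) := Real.rpow_le_rpow_of_exponent_le (by norm_num) (by norm_num)
      _ = 32 := by simp
  by_cases h16 : x < 16
  · have h1 : (1 : ℝ) ≤ A.ncard := by
      have : 0 < A.ncard := (Set.ncard_pos hfin).2 ⟨1, hB 1 le_rfl (by simpa using hx) ⟨0, rfl⟩⟩
      exact_mod_cast this
    have h2 : x ^ (43 / 100 : ℝ) ≤ (32 : ℝ) ^ (43 / 100 : ℝ) :=
      Real.rpow_le_rpow hx0 (by linarith) (by norm_num)
    linarith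
  · set X := ⌊x⌋₊ with hX
    have hX16 : 16 ≤ X := Nat.le_floor (by push_cast; linarith)
    have hXx : (X : ℝ) ≤ x := Nat.floor_le hx0
    have hxX : x < X + 1 := Nat.lt_floor_add_one x
    have hX16' : (16 : ℝ) ≤ X := by exact_mod_cast hX16
    have m := main X _ 16 le_rfl (by omega) hX16 NP16
    have h3 : (S X 16).card ≤ A.ncard := by
      rw [← card_image_of_injective (S X 16) (Nat.cast_injective (R := ℤ)), ← Set.ncard_coe_finset]
      refine Set.ncard_le_ncard (fun n hn => ?_) hfin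
      simp only [coe_image, Set.mem_image, mem_coe, S, mem_filter, mem_Icc] at hn
      obtain ⟨m, ⟨⟨h1, h2⟩, k, hk⟩, rfl⟩ := hn
      refine hB _ (by exact_mod_cast h1) ?_ ⟨4 + k, ?_⟩
      · have : (m : ℝ) ≤ X := by exact_mod_cast h2
        push_cast; linarith
      · rw [TZ_iter, Function.iterate_add_apply, hk]; decide
    have h4 : ((S X 16).card : ℝ) ≤ A.ncard := by exact_mod_cast h3
    have h5 : (1 : ℝ) ≤ w (16 % 78125) := by exact_mod_cast w16'
    have h6 : x ^ (43 / 100 : ℝ) ≤ 32 * ((X : ℝ) / ((16 : ℕ) : ℝ)) ^ (43 / 100 : ℝ) := by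
      calc _ ≤ (32 * ((X : ℝ) / ((16 : ℕ) : ℝ))) ^ (43 / 100 : ℝ) :=
            Real.rpow_le_rpow hx0 (by push_cast; linarith) (by norm_num)
        _ = (32 : ℝ) ^ (43 / 100 : ℝ) * ((X : ℝ) / ((16 : ℕ) : ℝ)) ^ (43 / 100 : ℝ) :=
            Real.mul_rpow (by norm_num) (by positivity)
        _ ≤ _ := mul_le_mul_of_nonneg_right h32 (by positivity)
    have h7 : (0 : ℝ) ≤ ((X : ℝ) / ((16 : ℕ) : ℝ)) ^ (43 / 100 : ℝ) := by positivity
    nlinarith

end Pool.Agent.H51.FiveA
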