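import Mathlib

set_option autoImplicit false

namespace Pool.Agent.H51.FiveBase

def allR (f : ℕ → Bool) : ℕ → ℕ → Bool
  | 0, lo => f lo
  | d + 1, lo => allR f d lo && allR f d (lo + 2 ^ d)

lemma allR_spec (f : ℕ → Bool) : ∀ d lo, allR f d lo = true → ∀ m, lo ≤ m → m < lo + 2 ^ d →
    f m = true := by
  intro d
  induction d with
  | zero =>
    intro lo h m h1 h2
    have : m = lo := by omega
    subst this; exact h
  | succ d ih =>
    intro lo h m h1 h2
    simp only [allR, Bool.and_eq_true] at h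
    rw [pow_succ] at h2
    by_cases h3 : m < lo + 2 ^ d
    · exact ih lo h.1 m h1 h3
    · exact ih _ h.2 m (by omega) (by omega)

lemma all20 (f : ℕ → Bool) (h0 : allR f 12 0 = true) (h1 : allR f 12 4096 = true) (h2 : allR f 12 8192 = true) (h3 : allR f 12 12288 = true) (h4 : allR f 12 16384 = true) (h5 : allR f 12 20480 = true) (h6 : allR f 12 24576 = true) (h7 : allR f 12 28672 = true) (h8 : allR f 12 32768 = true) (h9 : allR f 12 36864 = true) (h10 : allR f 12 40960 = true) (h11 : allR f 12 45056 = true) (h12 : allR f 12 49152 = true) (h13 : allR f 12 53248 = true) (h14 : allR f 12 57344 = true) (h15 : allR f 12 61440 = true) (h16 : allR f 12 65536 = true) (h17 : allR f 12 69632 = true) (h18 : allR f 12 73728 = true) (h19 : allR f 12 77824 = true)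
    (m : ℕ) (hm : m < 78125) : f m = true := by
  by_cases c0 : m < 4096
  · exact allR_spec f 12 _ h0 m (by omega) (by omega)
  by_cases c1 : m < 8192
  · exact allR_spec f 12 _ h1 m (by omega) (by omega)
  by_cases c2 : m < 12288
  · exact allR_spec f 12 _ h2 m (by omega) (by omega)
  by_cases c3 : m < 16384
  · exact allR_spec f 12 _ h3 m (by omega) (by omega)
  by_cases c4 : m < 20480
  · exact allR_spec f 12 _ h4 m (by omega) (by omega)
  by_cases c5 : m < 24576
  · exact allR_spec f 12 _ h5 m (by omega) (by omega)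
  by_cases c6 : m < 28672
  · exact allR_spec f 12 _ h6 m (by omega) (by omega)
  by_cases c7 : m < 32768
  · exact allR_spec f 12 _ h7 m (by omega) (by omega)
  by_cases c8 : m < 36864
  · exact allR_spec f 12 _ h8 m (by omega) (by omega)
  by_cases c9 : m < 40960
  · exact allR_spec f 12 _ h9 m (by omega) (by omega)
  by_cases c10 : m < 45056
  · exact allR_spec f 12 _ h10 m (by omega) (by omega)
  by_cases c11 : m < 49152
  · exact allR_spec f 12 _ h11 m (by omega) (by omega)
  by_cases c12 : m < 53248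
  · exact allR_spec f 12 _ h12 m (by omega) (by omega)
  by_cases c13 : m < 57344
  · exact allR_spec f 12 _ h13 m (by omega) (by omega)
  by_cases c14 : m < 61440
  · exact allR_spec f 12 _ h14 m (by omega) (by omega)
  by_cases c15 : m < 65536
  · exact allR_spec f 12 _ h15 m (by omega) (by omega)
  by_cases c16 : m < 69632
  · exact allR_spec f 12 _ h16 m (by omega) (by omega)
  by_cases c17 : m < 73728
  · exact allR_spec f 12 _ h17 m (by omega) (by omega)
  by_cases c18 : m < 77824
  · exact allR_spec f 12 _ h18 m (by omega) (by omega)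
  exact allR_spec f 12 _ h19 m (by omega) (by omega)

def five (g : ℕ → Bool) (c : ℕ) : Bool :=
  g c && g (c + 15625) && g (c + 31250) && g (c + 46875) && g (c + 62500)

def chkL (w : ℕ → ℕ) (D a b m : ℕ) : Bool :=
  Nat.ble 78125 m || cond (m % 5 == 3)
    (five (fun c => Nat.ble (D * w m) (a * w (2 * m % 78125) + b * w c)) ((2 * m - 1) / 5 % 15625))
    (Nat.ble (D * w m) (a * w (2 * m % 78125)))

def chkU (w : ℕ → ℕ) (D a b m : ℕ) : Bool :=
  Nat.ble 78125 m || cond (m % 5 == 3)
    (five (fun c => Nat.ble (a * w (2 * m % 78125) + b * w c) (D * w m)) ((2 * m - 1) / 5 % 15625))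
    (Nat.ble (a * w (2 * m % 78125)) (D * w m))

lemma five_spec (g : ℕ → Bool) (c : ℕ) (h : five g c = true) (x : ℕ) (hx : x < 78125)
    (hc : x % 15625 = c) : g x = true := by
  simp only [five, Bool.and_eq_true] at h
  obtain ⟨⟨⟨⟨h0, h1⟩, h2⟩, h3⟩, h4⟩ := h
  have : x = c ∨ x = c + 15625 ∨ x = c + 31250 ∨ x = c + 46875 ∨ x = c + 62500 := by omega
  rcases this with h | h | h | h | h
  · rw [h]; exact h0
  · rw [h]; exact h1
  · rw [h]; exact h2
  · rw [h]; exact h3
  · rw [h]; exact h4

lemma chkL_spec (w : ℕ → ℕ) (D a b : ℕ) (h : ∀ m < 78125, chkL w D a b m = true) (m : ℕ)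
    (hm : m < 78125) :
    (m % 5 ≠ 3 → D * w m ≤ a * w (2 * m % 78125)) ∧
    (m % 5 = 3 → ∀ x < 78125, x % 15625 = (2 * m - 1) / 5 % 15625 →
      D * w m ≤ a * w (2 * m % 78125) + b * w x) := by
  have h1 := h m hm
  have h2 : Nat.ble 78125 m = false := by
    rw [Bool.eq_false_iff]; intro h'; have := Nat.le_of_ble_eq_true h'; omega
  simp only [chkL, h2, Bool.false_or] at h1
  refine ⟨fun h3 => ?_, fun h3 x hx hc => ?_⟩
  · rw [show (m % 5 == 3) = false by simpa using h3, cond_false] at h1
    exact Nat.le_of_ble_eq_true h1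
  · rw [show (m % 5 == 3) = true by simpa using h3, cond_true] at h1
    exact Nat.le_of_ble_eq_true (five_spec _ _ h1 x hx hc)

lemma chkU_spec (w : ℕ → ℕ) (D a b : ℕ) (h : ∀ m < 78125, chkU w D a b m = true) (m : ℕ)
    (hm : m < 78125) :
    (m % 5 ≠ 3 → a * w (2 * m % 78125) ≤ D * w m) ∧
    (m % 5 = 3 → ∀ x < 78125, x % 15625 = (2 * m - 1) / 5 % 15625 →
      a * w (2 * m % 78125) + b * w x ≤ D * w m) := by
  have h1 := h m hm
  have h2 : Nat.ble 78125 m = false := by
    rw [Bool.eq_false_iff]; intro h'; have := Nat.le_of_ble_eq_true h'; omega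
  simp only [chkU, h2, Bool.false_or] at h1
  refine ⟨fun h3 => ?_, fun h3 x hx hc => ?_⟩
  · rw [show (m % 5 == 3) = false by simpa using h3, cond_false] at h1
    exact Nat.le_of_ble_eq_true h1
  · rw [show (m % 5 == 3) = true by simpa using h3, cond_true] at h1
    exact Nat.le_of_ble_eq_true (five_spec _ _ h1 x hx hc)

end Pool.Agent.H51.FiveBase
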