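import Mathlib
import Pool.Agent.H51.FiveBase

set_option autoImplicit false

namespace Pool.Agent.H51.FiveB

open Pool.Agent.H51.FiveBase Filter

def TZ (n : ℤ) : ℤ := if n % 2 = 0 then n / 2 else (5 * n + 1) / 2

def P (k : ℕ) (a : ℤ) : Set ℤ := {n | TZ^[k] n = a}

lemma P_succ (k : ℕ) (a : ℤ) (h : a % 5 ≠ 3) : P (k + 1) a = P k (2 * a) := by
  ext n
  simp only [P, Set.mem_setOf_eq, Function.iterate_succ_apply']
  generalize TZ^[k] n = y
  simp only [TZ]
  split_ifs <;> omega

lemma P_succ' (k : ℕ) (a : ℤ) (h : a % 5 = 3) :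
    P (k + 1) a = P k (2 * a) ∪ P k ((2 * a - 1) / 5) := by
  ext n
  simp only [P, Set.mem_setOf_eq, Function.iterate_succ_apply', Set.mem_union]
  generalize TZ^[k] n = y
  simp only [TZ]
  split_ifs <;> omega

lemma P_fin (k : ℕ) : ∀ a, (P k a).Finite := by
  induction k with
  | zero => intro a; simp [P]
  | succ k ih =>
    intro a
    by_cases h : a % 5 = 3
    · rw [P_succ' k a h]; exact (ih _).union (ih _)
    · rw [P_succ k a h]; exact ih _

lemma card_zero (a : ℤ) : (P 0 a).ncard = 1 := by simp [P]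

lemma card_succ' (k : ℕ) (a : ℤ) (h : a % 5 = 3) :
    (P (k + 1) a).ncard = (P k (2 * a)).ncard + (P k ((2 * a - 1) / 5)).ncard := by
  rw [P_succ' k a h]
  refine Set.ncard_union_eq ?_ (P_fin _ _) (P_fin _ _)
  rw [Set.disjoint_left]
  intro n h1 h2
  simp only [P, Set.mem_setOf_eq] at h1 h2
  omega

lemma card_pos (k : ℕ) : ∀ a, 1 ≤ (P k a).ncard := by
  induction k with
  | zero => intro a; rw [card_zero]
  | succ k ih =>
    intro a
    by_cases h : a % 5 = 3
    · rw [card_succ' k a h]; have := ih (2 * a); omega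
    · rw [P_succ k a h]; exact ih _

lemma card_le (k : ℕ) : ∀ a, (P k a).ncard ≤ 2 ^ k := by
  induction k with
  | zero => intro a; rw [card_zero]; rfl
  | succ k ih =>
    intro a
    rw [pow_succ]
    by_cases h : a % 5 = 3
    · rw [card_succ' k a h]; have := ih (2 * a); have := ih ((2 * a - 1) / 5); omega
    · rw [P_succ k a h]; have := ih (2 * a); omega

def r (a : ℤ) : ℕ := (a % 78125).toNat

lemma r_lt (a : ℤ) : r a < 78125 := by simp only [r]; omega
lemma r_cast (a : ℤ) : (r a : ℤ) = a % 78125 := Int.toNat_of_nonneg (by omega)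
lemma r_two (a : ℤ) : r (2 * a) = 2 * r a % 78125 := by
  have h1 := r_cast a
  have h2 := r_cast (2 * a)
  generalize r (2 * a) = x at *
  generalize r a = y at *
  omega
lemma r_five (a : ℤ) : (r a % 5 : ℕ) = a % 5 := by simp only [r]; omega
lemma r_child (a : ℤ) (h : a % 5 = 3) : r ((2 * a - 1) / 5) % 15625 = (2 * r a - 1) / 5 % 15625 := by
  have h1 := r_cast a
  have h2 := r_cast ((2 * a - 1) / 5)
  generalize r ((2 * a - 1) / 5) = x at *
  generalize r a = y at *
  omega

lemma lower (w : ℕ → ℕ) (D : ℕ) (hw : ∀ m, w m < 65536) (h : ∀ m < 78125, chkL w D 1000 1000 m = true)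
    (k : ℕ) : ∀ a, w (r a) * D ^ k ≤ 65536 * (1000 ^ k * (P k a).ncard) := by
  induction k with
  | zero => intro a; rw [card_zero, pow_zero, pow_zero]; have := hw (r a); omega
  | succ k ih =>
    intro a
    obtain ⟨c1, c2⟩ := chkL_spec w _ _ _ h (r a) (r_lt a)
    rw [← r_two] at c1 c2
    have h5 := r_five a
    have i2 := ih (2 * a)
    by_cases h3 : a % 5 = 3
    · have c3 := Nat.mul_le_mul_right (D ^ k) (c2 (by omega) _ (r_lt _) (r_child a h3))
      have ic := ih ((2 * a - 1) / 5)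
      rw [card_succ' k a h3, pow_succ, pow_succ]
      nlinarith
    · have c3 := Nat.mul_le_mul_right (D ^ k) (c1 (by omega))
      rw [P_succ k a h3, pow_succ, pow_succ]
      nlinarith

lemma upper (w : ℕ → ℕ) (D : ℕ) (hw : ∀ m < 78125, 1 ≤ w m)
    (h : ∀ m < 78125, chkU w D 1000 1000 m = true)
    (k : ℕ) : ∀ a, 1000 ^ k * (P k a).ncard ≤ w (r a) * D ^ k := by
  induction k with
  | zero => intro a; rw [card_zero, pow_zero, pow_zero]; have := hw (r a) (r_lt a); omega
  | succ k ih =>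
    intro a
    obtain ⟨c1, c2⟩ := chkU_spec w _ _ _ h (r a) (r_lt a)
    rw [← r_two] at c1 c2
    have h5 := r_five a
    have i2 := ih (2 * a)
    by_cases h3 : a % 5 = 3
    · have c3 := Nat.mul_le_mul_right (D ^ k) (c2 (by omega) _ (r_lt _) (r_child a h3))
      have ic := ih ((2 * a - 1) / 5)
      rw [card_succ' k a h3, pow_succ, pow_succ]
      nlinarith
    · have c3 := Nat.mul_le_mul_right (D ^ k) (c1 (by omega))
      rw [P_succ k a h3, pow_succ, pow_succ]
      nlinarith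

noncomputable def u (a : ℤ) (k : ℕ) : ℝ := Real.log (((P k a).ncard : ℕ) : ℝ) / (k : ℝ)

lemma u_nonneg (a : ℤ) (k : ℕ) : 0 ≤ u a k :=
  div_nonneg (Real.log_nonneg (by exact_mod_cast card_pos k a)) (Nat.cast_nonneg k)

lemma u_le (a : ℤ) (k : ℕ) : u a k ≤ Real.log 2 := by
  rcases Nat.eq_zero_or_pos k with rfl | hk
  · simp only [u, Nat.cast_zero, div_zero]; exact Real.log_nonneg (by norm_num)
  · have h0 : (0 : ℝ) < k := by exact_mod_cast hk
    rw [u, div_le_iff₀ h0, mul_comm, ← Real.log_pow]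
    refine Real.log_le_log (by exact_mod_cast card_pos k a) ?_
    exact_mod_cast card_le k a

lemma bdd (a : ℤ) : IsBoundedUnder (· ≤ ·) atTop (u a) :=
  isBoundedUnder_of ⟨Real.log 2, fun k => u_le a k⟩

lemma cobdd (a : ℤ) : IsCoboundedUnder (· ≤ ·) atTop (u a) :=
  isCoboundedUnder_le_of_le atTop (x := 0) fun k => u_nonneg a k

lemma tend (L C : ℝ) : Tendsto (fun k : ℕ => L + C / (k : ℝ)) atTop (nhds L) := by
  simpa using (tendsto_const_div_atTop_nhds_zero_nat C).const_add L

lemma limsup_lower (a : ℤ) (lam C : ℝ) (hl : 0 < lam) (hC : 0 < C)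
    (h : ∀ k : ℕ, lam ^ k ≤ C * ((P k a).ncard : ℝ)) : Real.log lam ≤ limsup (u a) atTop := by
  have t := tend (Real.log lam) (-Real.log C)
  rw [← t.limsup_eq]
  refine limsup_le_limsup ?_ t.isCoboundedUnder_le (bdd a)
  filter_upwards [eventually_gt_atTop 0] with k hk
  have h0 : (0 : ℝ) < k := by exact_mod_cast hk
  have h1 : (0 : ℝ) < ((P k a).ncard : ℝ) := by exact_mod_cast card_pos k a
  have h2 := Real.log_le_log (pow_pos hl k) (h k)
  rw [Real.log_pow, Real.log_mul hC.ne' h1.ne'] at h2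
  rw [u, le_div_iff₀ h0, add_mul, div_mul_cancel₀ _ h0.ne']
  linarith

lemma limsup_upper (a : ℤ) (mu C : ℝ) (hl : 0 < mu) (hC : 0 < C)
    (h : ∀ k : ℕ, ((P k a).ncard : ℝ) ≤ C * mu ^ k) : limsup (u a) atTop ≤ Real.log mu := by
  have t := tend (Real.log mu) (Real.log C)
  rw [← t.limsup_eq]
  refine limsup_le_limsup ?_ (cobdd a) t.isBoundedUnder_le
  filter_upwards [eventually_gt_atTop 0] with k hk
  have h0 : (0 : ℝ) < k := by exact_mod_cast hk
  have h1 : (0 : ℝ) < ((P k a).ncard : ℝ) := by exact_mod_cast card_pos k a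
  have h2 := Real.log_le_log h1 (h k)
  rw [Real.log_mul hC.ne' (pow_pos hl k).ne', Real.log_pow] at h2
  rw [u, div_le_iff₀ h0, add_mul, div_mul_cancel₀ _ h0.ne']
  linarith

end Pool.Agent.H51.FiveB
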