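import Pool.Agent.H51.AuerD

set_option autoImplicit false

namespace Pool.Agent.H51.GongC

open Filter Topology Pool.Agent.H51.AuerC

noncomputable def XS : Submodule ℝ (ℝ × E) where
  carrier := {p | HasSum (fun n : ℕ => (-1) ^ n * (n : ℝ) * p.2 n) p.1}
  add_mem' := fun {a b} ha hb => by
    have := HasSum.add ha hb
    simp only [Set.mem_setOf_eq, Prod.snd_add, Prod.fst_add, ContinuousMap.add_apply, mul_add]
    exact this
  zero_mem' := by simpa using hasSum_zero
  smul_mem' := fun c a ha => by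
    have := HasSum.mul_left c ha
    simp only [Set.mem_setOf_eq, Prod.smul_snd, Prod.smul_fst, ContinuousMap.smul_apply,
      smul_eq_mul]
    have e : (fun n : ℕ => (-1) ^ n * (n : ℝ) * (c * a.2 n)) =
        fun n : ℕ => c * ((-1) ^ n * (n : ℝ) * a.2 n) := by
      funext n; ring
    rw [e]; exact this

def C : Set XS := {x | ‖x.1.2‖ ≤ x.1.2 (0 : ℕ)}

noncomputable def f1 : XS →L[ℝ] ℝ := (ContinuousLinearMap.fst ℝ ℝ E).comp XS.subtypeL
noncomputable def f2 : XS →L[ℝ] ℝ :=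
  (δ ((0 : ℕ) : OnePoint ℕ)).comp ((ContinuousLinearMap.snd ℝ ℝ E).comp XS.subtypeL)

lemma norm_le {x : XS} (hx : x ∈ C) : ‖x‖ ≤ max |f1 x| |f2 x| := by
  have : ‖x‖ = max ‖x.1.1‖ ‖x.1.2‖ := rfl
  rw [this]
  exact max_le_max le_rfl (le_trans hx (le_abs_self _))

lemma norm_eq (x : XS) : ‖x‖ = max |x.1.1| ‖x.1.2‖ := rfl

lemma chi_sum (m : ℕ) : HasSum (fun n : ℕ => (-1) ^ n * (n : ℝ) * chi m n) ((-1) ^ m * (m : ℝ)) := by
  have := hasSum_ite_eq m ((-1) ^ m * (m : ℝ))
  convert this using 2 with n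
  rw [chi_coe]
  split_ifs with h
  · rw [h, mul_one]
  · rw [mul_zero]

noncomputable def u (m : ℕ) : XS := ⟨((-1) ^ (m + 1) * ((m + 1 : ℕ) : ℝ), chi 0 + chi (m + 1)), by
  have := (chi_sum 0).add (chi_sum (m + 1))
  simp only [Nat.cast_zero, mul_zero, zero_add] at this
  change HasSum _ _
  simp only [ContinuousMap.add_apply, mul_add]
  exact this⟩

lemma u_norm (m : ℕ) : ‖(u m).1.2‖ ≤ 1 := by
  change ‖chi 0 + chi (m + 1)‖ ≤ 1
  rw [ContinuousMap.norm_le _ zero_le_one]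
  intro p
  induction p using OnePoint.rec with
  | infty => simp [AuerD.chi_inf]
  | coe n =>
    rw [ContinuousMap.add_apply, chi_coe, chi_coe]
    split_ifs <;> first | omega | simp

lemma u_mem (m : ℕ) : u m ∈ C := by
  refine (u_norm m).trans (le_of_eq ?_)
  change _ = (chi 0 + chi (m + 1)) ((0 : ℕ) : OnePoint ℕ)
  rw [ContinuousMap.add_apply, chi_coe, chi_coe]; simp

lemma u_fst (m : ℕ) : (u m).1.1 = (-1) ^ (m + 1) * ((m : ℝ) + 1) := by
  change (-1) ^ (m + 1) * ((m + 1 : ℕ) : ℝ) = _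
  push_cast; ring

lemma u_ne (m : ℕ) : u m ≠ 0 := by
  intro h
  have := u_fst m
  rw [h] at this
  have h2 : ((-1 : ℝ) ^ (m + 1) * ((m : ℝ) + 1)) ≠ 0 := by positivity
  exact h2 this.symm

lemma no_base (B : Set XS) (hc : Convex ℝ B) (h0 : (0 : XS) ∉ closure B)
    (h1 : ∀ m, ∃ t : ℝ, 0 < t ∧ t • u m ∈ B) (M : ℝ) (hM : ∀ x ∈ B, ‖x‖ ≤ M) : False := by
  apply h0
  rw [Metric.mem_closure_iff]
  intro ε hε
  obtain ⟨k, hk⟩ := exists_nat_gt (M / ε)
  obtain ⟨s, hs, hsB⟩ := h1 (2 * k)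
  obtain ⟨t, ht, htB⟩ := h1 (2 * k + 1)
  have e1 : (u (2 * k)).1.1 = -(2 * (k : ℝ) + 1) := by
    rw [u_fst, pow_succ, pow_mul]; push_cast; ring
  have e2 : (u (2 * k + 1)).1.1 = 2 * (k : ℝ) + 2 := by
    rw [u_fst, pow_succ, pow_succ, pow_mul]; push_cast; ring
  have hk0 : (0 : ℝ) ≤ k := Nat.cast_nonneg k
  set a := s * (2 * (k : ℝ) + 1) with ha
  set b := t * (2 * (k : ℝ) + 2) with hb
  have ha0 : 0 < a := by positivity
  have hb0 : 0 < b := by positivity
  have haM : a ≤ M := by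
    refine le_trans ?_ (hM _ hsB)
    rw [norm_eq]
    refine le_max_of_le_left ?_
    change _ ≤ |s * (u (2 * k)).1.1|
    rw [e1, mul_neg, abs_neg]; exact le_abs_self _
  have hbM : b ≤ M := by
    refine le_trans ?_ (hM _ htB)
    rw [norm_eq]
    refine le_max_of_le_left ?_
    change _ ≤ |t * (u (2 * k + 1)).1.1|
    rw [e2]; exact le_abs_self _
  rw [div_lt_iff₀ hε] at hk
  have hs' : s < ε := by
    by_contra h; push Not at h; nlinarith
  have ht' : t < ε := by
    by_contra h; push Not at h; nlinarith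
  refine ⟨_, hc hsB htB (a := b / (a + b)) (b := a / (a + b)) (by positivity) (by positivity)
    (by field_simp; ring), ?_⟩
  rw [dist_comm, dist_zero_right]
  refine lt_of_eq_of_lt (norm_eq _) ?_
  rw [max_lt_iff]
  constructor
  · change |b / (a + b) * (s * (u (2 * k)).1.1) + a / (a + b) * (t * (u (2 * k + 1)).1.1)| < ε
    rw [e1, e2, mul_neg s, ← ha, ← hb]
    have : b / (a + b) * -a + a / (a + b) * b = 0 := by ring
    rw [this, abs_zero]; exact hε
  · change ‖(b / (a + b)) • (s • (u (2 * k)).1.2) + (a / (a + b)) • (t • (u (2 * k + 1)).1.2)‖ < ε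
    refine (norm_add_le _ _).trans_lt ?_
    rw [norm_smul, norm_smul, norm_smul, norm_smul, Real.norm_of_nonneg (by positivity),
      Real.norm_of_nonneg hs.le, Real.norm_of_nonneg (by positivity), Real.norm_of_nonneg ht.le]
    have c1 : s * ‖(u (2 * k)).1.2‖ < ε := by
      have := u_norm (2 * k); nlinarith
    have c2 : t * ‖(u (2 * k + 1)).1.2‖ < ε := by
      have := u_norm (2 * k + 1); nlinarith
    have c3 : b / (a + b) + a / (a + b) = 1 := by field_simp; ring
    have c4 : 0 < b / (a + b) := by positivity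
    have c5 : 0 < a / (a + b) := by positivity
    nlinarith [mul_lt_mul_of_pos_left c1 c4, mul_lt_mul_of_pos_left c2 c5]

end Pool.Agent.H51.GongC
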