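import Mathlib

set_option autoImplicit false
open MvPowerSeries Complex Finset

namespace Pool.Agent.H51.HNSeries

abbrev R := MvPowerSeries (Fin 4) ℂ

noncomputable def xi : R := X 0 - I • X 1
noncomputable def x : R := X 0 + I • X 1
noncomputable def et : R := X 2 - I • X 3
noncomputable def y : R := X 2 + I • X 3
noncomputable def w : R := (1 - y)⁻¹

noncomputable def M (a b c d : ℕ) : R := xi ^ a * et ^ b * x ^ c * w ^ d

theorem D_M (D : Derivation ℂ R R) (p q r s : ℂ) (h1 : D xi = p • 1) (h2 : D x = q • 1)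
    (h3 : D et = r • 1) (h4 : D w = s • w ^ 2) (a b c d : ℕ) :
    D (M a b c d) = (p * a) • M (a - 1) b c d + (r * b) • M a (b - 1) c d +
      (q * c) • M a b (c - 1) d + (s * d) • M a b c (d + 1) := by
  simp only [M, Derivation.leibniz, Derivation.leibniz_pow, h1, h2, h3, h4, Algebra.smul_def,
    map_mul, map_natCast, smul_eq_mul, eq_natCast, Algebra.algebraMap_self, RingHom.id_apply]
  rcases d with _ | d
  · simp; ring
  · simp only [Nat.add_sub_cancel]; push_cast; ring

def p : Fin 4 → ℂ := ![1, -I, 0, 0]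
def q : Fin 4 → ℂ := ![1, I, 0, 0]
def r : Fin 4 → ℂ := ![0, 0, 1, -I]
def s : Fin 4 → ℂ := ![0, 0, 1, I]

theorem Dxi (i : Fin 4) : pderiv ℂ i xi = p i • (1 : R) := by
  fin_cases i <;> simp [xi, p, pderiv_X]
theorem Dx (i : Fin 4) : pderiv ℂ i x = q i • (1 : R) := by
  fin_cases i <;> simp [x, q, pderiv_X]
theorem Det (i : Fin 4) : pderiv ℂ i et = r i • (1 : R) := by
  fin_cases i <;> simp [et, r, pderiv_X]
theorem Dw (i : Fin 4) : pderiv ℂ i w = s i • w ^ 2 := by
  rw [w, pderiv_inv']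
  fin_cases i <;> simp [y, s, pderiv_X]

theorem DM (i : Fin 4) (a b c d : ℕ) :
    pderiv ℂ i (M a b c d) = (p i * a) • M (a - 1) b c d + (r i * b) • M a (b - 1) c d +
      (q i * c) • M a b (c - 1) d + (s i * d) • M a b c (d + 1) :=
  D_M _ _ _ _ _ (Dxi i) (Dx i) (Det i) (Dw i) a b c d

noncomputable def lap : R →ₗ[ℂ] R :=
  ∑ i, (pderiv ℂ i : Derivation ℂ R R).toLinearMap ∘ₗ (pderiv ℂ i : Derivation ℂ R R).toLinearMap

theorem lap_apply (f : R) : lap f = ∑ i, pderiv ℂ i (pderiv ℂ i f) := by simp [lap]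

theorem lap_M (a b c d : ℕ) : lap (M a b c d) =
    (4 * a * c : ℂ) • M (a - 1) b (c - 1) d + (4 * b * d : ℂ) • M a (b - 1) c (d + 1) := by
  simp only [lap_apply, DM, map_add, Derivation.map_smul, Fin.sum_univ_four, p, q, r, s]
  simp only [Matrix.cons_val_zero, Matrix.cons_val_one, Matrix.cons_val]
  match_scalars <;> first | ring1 | (ring_nf; simp only [I_sq]; ring1)

open Nat in
noncomputable def N (c E a b : ℕ) : R :=
  ((E + a)! / (a ! * (c + a)! * b !) : ℂ) • M a b (c + a) (E + 1 + a)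

noncomputable def L (c E : ℕ) : ℕ → ℕ → R
  | 0, _ => 0
  | a + 1, b => N c (E + 1) a b

noncomputable def L' (c E : ℕ) : ℕ → ℕ → R
  | _, 0 => 0
  | a, b + 1 => N c (E + 1) a b

theorem lap_N (c E a b : ℕ) : lap (N c E a b) = (4 : ℂ) • (L c E a b + L' c E a b) := by
  rw [N, map_smul, lap_M, smul_add, smul_add]
  congr 1
  · rcases a with _ | a
    · simp [L]
    · simp only [L, N, smul_smul, Nat.add_sub_cancel]
      rw [show c + (a + 1) - 1 = c + a by omega, show E + 1 + (a + 1) = E + 1 + 1 + a by omega,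
        show E + (a + 1) = E + 1 + a by omega, show c + (a + 1) = c + a + 1 by omega]
      congr 1
      simp only [Nat.factorial_succ]
      have := Nat.cast_add_one_ne_zero (R := ℂ) a
      have := Nat.cast_add_one_ne_zero (R := ℂ) (c + a)
      push_cast at *
      field_simp
  · rcases b with _ | b
    · simp [L']
    · simp only [L', N, smul_smul, Nat.add_sub_cancel]
      rw [show E + 1 + a + 1 = E + 1 + 1 + a by omega, show E + 1 + a = E + a + 1 by omega]
      congr 1
      simp only [Nat.factorial_succ]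
      have := Nat.cast_add_one_ne_zero (R := ℂ) b
      push_cast at *
      field_simp

noncomputable def S (c E n : ℕ) (t : ℂ) : R :=
  ∑ m ∈ antidiagonal n, ((-2 / 3 : ℂ) ^ m.1 * (t + m.1)) • N c E m.1 m.2

theorem lap_S (c E n : ℕ) (t : ℂ) :
    lap (S c E (n + 1) t) = (4 / 3 : ℂ) • S c (E + 1) n (t - 2) := by
  simp only [S, map_sum, map_smul, lap_N, smul_add, sum_add_distrib]
  rw [Nat.sum_antidiagonal_succ, Nat.sum_antidiagonal_succ']
  simp only [L, L', smul_zero, zero_add, smul_sum, ← sum_add_distrib]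
  refine sum_congr rfl fun m _ => ?_
  push_cast
  match_scalars
  ring

theorem lap_iter (c m : ℕ) : ∀ (E : ℕ) (t : ℂ),
    (lap ^ m) (S c E (m + 1) t) = (4 / 3 : ℂ) ^ m • S c (E + m) 1 (t - 2 * m) := by
  induction m with
  | zero => simp
  | succ m ih =>
    intro E t
    rw [pow_succ, Module.End.mul_apply, lap_S, map_smul, ih, smul_smul, ← pow_succ',
      show E + 1 + m = E + (m + 1) by omega]
    push_cast
    ring_nf

noncomputable def P : R := (-2 : ℂ) • M 1 0 3 3 + (3 : ℂ) • M 0 1 2 2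

theorem P_pow (m : ℕ) : P ^ (m + 1) =
    (((m + 1).factorial : ℂ) * 3 ^ (m + 1)) • S (2 * m + 2) (2 * m + 1) (m + 1) (2 * m + 2) := by
  rw [P, (Commute.all _ _).add_pow', S, smul_sum]
  refine sum_congr rfl fun ⟨a, b⟩ h => ?_
  rw [HasAntidiagonal.mem_antidiagonal] at h
  simp only at h ⊢
  have e : M 1 0 3 3 ^ a * M 0 1 2 2 ^ b = M a b (2 * m + 2 + a) (2 * m + 1 + 1 + a) := by
    rw [show 2 * m + 2 + a = 3 * a + 2 * b by omega]
    simp only [M]; ring
  rw [smul_pow, smul_pow, smul_mul_smul_comm, e, N, ← h, ← Nat.cast_smul_eq_nsmul ℂ,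
    Nat.cast_add_choose, show 2 * m + 2 + a = 2 * m + 1 + a + 1 by omega, Nat.factorial_succ]
  simp only [smul_smul]
  congr 1
  have h1 : ((2 * m + 1 + a + 1 : ℕ) : ℂ) ≠ 0 := Nat.cast_ne_zero.2 (by omega)
  have h2 : (((2 * m + 1 + a).factorial : ℕ) : ℂ) ≠ 0 := Nat.cast_ne_zero.2 (Nat.factorial_ne_zero _)
  have h3 : ((a.factorial : ℕ) : ℂ) ≠ 0 := Nat.cast_ne_zero.2 (Nat.factorial_ne_zero _)
  have h4 : ((b.factorial : ℕ) : ℂ) ≠ 0 := Nat.cast_ne_zero.2 (Nat.factorial_ne_zero _)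
  rw [div_pow, pow_add, Nat.cast_mul]
  field_simp
  push_cast
  ring

theorem cy : constantCoeff (1 - y) ≠ 0 := by simp [y]

theorem w_mul : w * (1 - y) = 1 := MvPowerSeries.inv_mul_cancel _ cy

theorem w_ne : w ≠ 0 := left_ne_zero_of_mul_eq_one w_mul

theorem x_ne : x ≠ 0 := fun h => by
  have := Dx 0
  rw [h, map_zero] at this
  simp [q] at this

theorem S_ne (c E : ℕ) : S c E 1 2 ≠ 0 := by
  intro h
  have e1 : M 0 1 (c + 0) (E + 1 + 0) = x ^ c * w ^ (E + 1) * M 0 1 0 0 := by simp only [M]; ring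
  have e2 : M 1 0 (c + 1) (E + 1 + 1) = x ^ c * w ^ (E + 1) * M 1 0 1 1 := by simp only [M]; ring
  rw [S, Nat.sum_antidiagonal_succ] at h
  simp only [Nat.antidiagonal_zero, sum_singleton, N, zero_add, e1, e2, smul_smul] at h
  rw [← mul_smul_comm, ← mul_smul_comm, ← mul_add] at h
  have h2 := (mul_eq_zero.1 h).resolve_left (mul_ne_zero (pow_ne_zero _ x_ne) (pow_ne_zero _ w_ne))
  have h3 := congrArg (fun f => constantCoeff (pderiv ℂ 2 f)) h2
  simp only [map_add, Derivation.map_smul, DM, p, q, r, s] at h3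
  simp [M, xi, Nat.factorial_ne_zero] at h3

theorem not_van (m : ℕ) : (lap ^ m) (P ^ (m + 1)) ≠ 0 := by
  rw [P_pow, map_smul, lap_iter, show (2 * m + 2 - 2 * m : ℂ) = 2 by ring]
  refine smul_ne_zero (mul_ne_zero (Nat.cast_ne_zero.2 (Nat.factorial_ne_zero _)) (by simp))
    (smul_ne_zero (by simp) (S_ne _ _))

theorem hess : IsNilpotent (Matrix.of fun i j : Fin 4 => pderiv ℂ i (pderiv ℂ j P)) := by
  set H := Matrix.of fun i j : Fin 4 => pderiv ℂ i (pderiv ℂ j P) with hH
  have hι : (algebraMap ℂ R I) ^ 2 = -1 := by rw [← map_pow, I_sq]; simp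
  have key : ∀ i, (H * H) i 1 = algebraMap ℂ R I * (H * H) i 0 ∧
      (H * H) i 3 = algebraMap ℂ R I * (H * H) i 2 ∧
      (H * H) 1 i = algebraMap ℂ R I * (H * H) 0 i ∧
      (H * H) 3 i = algebraMap ℂ R I * (H * H) 2 i := by
    intro i
    simp only [hH, Matrix.mul_apply, Fin.sum_univ_four, Matrix.of_apply, P, map_add,
      Derivation.map_smul, DM, p, q, r, s]
    fin_cases i <;>
    simp [M, Algebra.smul_def, map_ofNat] <;>
    generalize algebraMap ℂ R I = j at * <;>
    refine ⟨?_, ?_, ?_, ?_⟩ <;> grind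
  refine ⟨4, ?_⟩
  rw [show H ^ 4 = (H * H) * (H * H) by noncomm_ring]
  ext1 i j
  rw [Matrix.mul_apply, Fin.sum_univ_four, (key i).1, (key i).2.1, (key j).2.2.1, (key j).2.2.2,
    Matrix.zero_apply]
  linear_combination ((H * H) i 0 * (H * H) 0 j + (H * H) i 2 * (H * H) 2 j) * hι

theorem order_P : 3 ≤ P.order := by
  have e : P = x ^ 2 * et * ((3 : ℂ) • w ^ 2) + x ^ 3 * ((-2 : ℂ) • (xi * w ^ 3)) := by
    simp only [P, M, Algebra.smul_def]; ring
  have hx : constantCoeff x = 0 := by simp [x]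
  have he : constantCoeff et = 0 := by simp [et]
  rw [e]
  refine le_trans (le_min ?_ ?_) min_order_le_add
  · refine le_trans (le_trans ?_ le_order_mul) (le_trans le_self_add le_order_mul)
    exact add_le_add (le_order_pow_of_constantCoeff_eq_zero 2 hx)
      (one_le_order_iff_constCoeff_eq_zero.2 he)
  · exact le_trans (le_order_pow_of_constantCoeff_eq_zero 3 hx) (le_trans le_self_add le_order_mul)

theorem not_poly (Q : MvPolynomial (Fin 4) ℂ) : (Q : R) ≠ P := by
  intro h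
  let φ : MvPolynomial (Fin 4) ℂ →+* R := MvPolynomial.coeToMvPowerSeries.ringHom
  have hφ : ∀ f, φ f = (f : R) := fun _ => rfl
  let u : Fin 4 → Fin 4 → ℂ → MvPolynomial (Fin 4) ℂ := fun i j c =>
    MvPolynomial.X i + MvPolynomial.C c * MvPolynomial.X j
  have hu : ∀ i j c, φ (u i j c) = X i + c • X j := fun i j c => by
    simp only [u, map_add, map_mul]
    rw [hφ, hφ, hφ, MvPolynomial.coe_X, MvPolynomial.coe_X, MvPolynomial.coe_C, smul_eq_C_mul]
  have e : Q * (1 - u 2 3 I) ^ 3 =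
      u 0 1 I ^ 2 * (3 * u 2 3 (-I) * (1 - u 2 3 I) - 2 * u 0 1 (-I) * u 0 1 I) := by
    apply MvPolynomial.coe_injective
    show φ _ = φ _
    simp only [map_mul, map_pow, map_sub, map_one, hu, map_ofNat, neg_smul, ← sub_eq_add_neg]
    rw [hφ, h]
    show P * (1 - y) ^ 3 = x ^ 2 * (3 * et * (1 - y) - 2 * xi * x)
    have := w_mul
    simp only [P, M, Algebra.smul_def, map_neg, map_ofNat]
    generalize 1 - y = v at *
    grind
  have := congrArg (MvPolynomial.eval ![1, 0, 1, 0]) e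
  simp [u] at this

end Pool.Agent.H51.HNSeries
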