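import Mathlib

set_option autoImplicit false

namespace Pool.Agent.H51.HeredRad

theorem proj_of {R P F : Type} [Ring R] [AddCommGroup P] [Module R P] [AddCommGroup F] [Module R F]
    [Module.Projective R F] (s : F →ₗ[R] P) (hs : Function.Surjective s) (p : F →ₗ[R] F)
    (h1 : ∀ f, s (p f) = s f) (h2 : ∀ f, s f = 0 → p f = 0) : Module.Projective R P := by
  refine Module.Projective.of_split
    (((LinearMap.ker s).liftQ p h2) ∘ₗ (s.quotKerEquivOfSurjective hs).symm.toLinearMap) s ?_
  ext x
  obtain ⟨f, rfl⟩ := hs x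
  simp [h1]

theorem proj_idem {R : Type} [Ring R] (I : Submodule R R) (u : R) (hu : u ∈ I) (huu : u * u = u)
    (J : Submodule R R) (hJ : J ≤ I) (hIJ : ∀ x ∈ I, x * (1 - u) ∈ J) [Module.Projective R J] :
    Module.Projective R I := by
  refine Module.Projective.of_split (M := R × J)
    (LinearMap.prod (LinearMap.toSpanSingleton R R u ∘ₗ I.subtype)
      (LinearMap.codRestrict J (LinearMap.toSpanSingleton R R (1 - u) ∘ₗ I.subtype)
        fun x => hIJ x x.2))
    (LinearMap.coprod (LinearMap.toSpanSingleton R I ⟨u, hu⟩) (Submodule.inclusion hJ)) ?_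
  ext x
  simp [mul_assoc, huu, mul_sub]

abbrev V := ℕ →₀ ℚ

noncomputable def b (j : ℕ) : V := Finsupp.single j 1

theorem ext_b {S T : Module.End ℚ V} (h : ∀ j, S (b j) = T (b j)) : S = T := by
  refine Finsupp.lhom_ext' fun j => LinearMap.ext_ring ?_
  exact h j

def Low (j : ℕ) (v : V) : Prop := ∀ i, j < i → v i = 0

theorem low_b (j : ℕ) : Low j (b j) := fun i hi => by simp [b, Finsupp.single_apply, hi.ne]

noncomputable def RR : Subring (Module.End ℚ V) where
  carrier := {T | (∀ j v, Low j v → Low j (T v)) ∧ ∃ (c : ℚ) (n : ℕ), ∀ j, n ≤ j → T (b j) = c • b j}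
  mul_mem' := by
    rintro S T ⟨h1, c, n, h2⟩ ⟨h3, d, m, h4⟩
    refine ⟨fun j v hv => h1 j _ (h3 j v hv), d * c, max n m, fun j hj => ?_⟩
    rw [Module.End.mul_apply, h4 j (le_of_max_le_right hj), map_smul, h2 j (le_of_max_le_left hj),
      smul_smul]
  one_mem' := ⟨fun _ _ h => h, 1, 0, by simp⟩
  add_mem' := by
    rintro S T ⟨h1, c, n, h2⟩ ⟨h3, d, m, h4⟩
    refine ⟨fun j v hv i hi => by simp [h1 j v hv i hi, h3 j v hv i hi], c + d, max n m,
      fun j hj => ?_⟩
    rw [LinearMap.add_apply, h4 j (le_of_max_le_right hj), h2 j (le_of_max_le_left hj), add_smul]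
  zero_mem' := ⟨fun _ _ _ _ _ => rfl, 0, 0, by simp⟩
  neg_mem' := by
    rintro S ⟨h1, c, n, h2⟩
    exact ⟨fun j v hv i hi => by simp [h1 j v hv i hi], -c, n, fun j hj => by simp [h2 j hj]⟩

noncomputable def E (k : ℕ) (v : V) (hv : Low k v) : RR :=
  ⟨(Finsupp.lapply k : V →ₗ[ℚ] ℚ).smulRight v, fun j w hw i hi => by
    by_cases h : j < k
    · simp [hw k h]
    · simp [hv i (by omega)], 0, k + 1, fun j hj => by
    simp [b, Finsupp.single_apply, show j ≠ k by omega]⟩

theorem E_apply (k : ℕ) (v : V) (hv : Low k v) (w : V) : (E k v hv).1 w = w k • v := rfl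

theorem b_apply (j i : ℕ) : b j i = if j = i then 1 else 0 := by simp [b, Finsupp.single_apply]

theorem col (I : Submodule RR RR) (n : ℕ) : ∃ (x ε : RR), x ∈ I ∧ ε * x = x ∧
    (∀ j, n < j → x.1 (b j) = 0) ∧ (∀ r : RR, r.1 (x.1 (b n)) = 0 → r * ε = 0) ∧
    ∀ T ∈ I, (∀ j, n < j → T.1 (b j) = 0) → ∃ r : RR, r.1 (x.1 (b n)) = T.1 (b n) := by
  classical
  let A : ℕ → Prop := fun k => ∃ T ∈ I, (∀ j, n < j → T.1 (b j) = 0) ∧ T.1 (b n) k ≠ 0
  by_cases h : ∃ k, A k
  · obtain ⟨k0, hk0⟩ := h
    have hle : ∀ k, A k → k ≤ n := fun k ⟨T, _, _, h3⟩ => by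
      by_contra hc
      exact h3 (T.2.1 n _ (low_b n) k (by omega))
    set k := Nat.findGreatest A n with hk
    obtain ⟨T, h1, h2, h3⟩ : A k := Nat.findGreatest_spec (hle k0 hk0) hk0
    have hlow : Low k ((T.1 (b n) k)⁻¹ • b k) := fun i hi => by simp [low_b k i hi]
    have hx : (E k _ hlow * T).1 (b n) = b k := by
      show (E k _ hlow).1 (T.1 (b n)) = _
      rw [E_apply, smul_smul, mul_inv_cancel₀ h3, one_smul]
    refine ⟨E k _ hlow * T, E k _ (low_b k), I.smul_mem _ h1, ?_, ?_, ?_, ?_⟩
    · rw [← mul_assoc]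
      congr 1
      refine Subtype.ext (LinearMap.ext fun w => ?_)
      show (E k _ (low_b k)).1 ((E k _ hlow).1 w) = _
      simp [E_apply, b_apply, smul_smul]
    · intro j hj
      show (E k _ hlow).1 (T.1 (b j)) = _
      rw [h2 j hj, map_zero]
    · intro r hr
      rw [hx] at hr
      refine Subtype.ext (LinearMap.ext fun w => ?_)
      show r.1 ((E k _ (low_b k)).1 w) = 0
      rw [E_apply, map_smul, hr, smul_zero]
    · intro S hS hS2
      have : Low k (S.1 (b n)) := fun i hi => by
        by_contra hc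
        have hA : A i := ⟨S, hS, hS2, hc⟩
        exact absurd (Nat.le_findGreatest (hle i hA) hA) (by omega)
      refine ⟨E k _ this, ?_⟩
      rw [hx, E_apply, b_apply, if_pos rfl, one_smul]
  · refine ⟨0, 0, I.zero_mem, by simp, fun _ _ => rfl, fun _ _ => by simp, fun T h1 h2 => ⟨0, ?_⟩⟩
    ext k
    by_contra hc
    exact h ⟨k, T, h1, h2, fun e => hc e.symm⟩

theorem fin_proj (I : Submodule RR RR) (hI : ∀ T ∈ I, ∃ n, ∀ j, n ≤ j → T.1 (b j) = 0) :
    Module.Projective RR I := by
  classical
  choose x ε hx h1 h2 h3 h4 using col I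
  let s : (ℕ →₀ RR) →ₗ[RR] I := Finsupp.linearCombination RR fun n => ⟨x n, hx n⟩
  let p : (ℕ →₀ RR) →ₗ[RR] (ℕ →₀ RR) :=
    Finsupp.linearCombination RR fun n => Finsupp.single n (ε n)
  have hp : ∀ f n, p f n = f n * ε n := fun f n => by
    induction f using Finsupp.induction_linear with
    | zero => simp
    | add f g hf hg => simp [hf, hg, add_mul]
    | single a c => by_cases h : a = n <;> simp [p, h]
  refine proj_of s ?_ p ?_ ?_
  · have : ∀ n, ∀ T : I, (∀ j, n ≤ j → T.1.1 (b j) = 0) → T ∈ LinearMap.range s := by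
      intro n
      induction n with
      | zero =>
        intro T hT
        have : T = 0 := Subtype.ext (Subtype.ext (ext_b fun j => hT j (Nat.zero_le j)))
        rw [this]; exact zero_mem _
      | succ n ih =>
        intro T hT
        obtain ⟨r, hr⟩ := h4 n T T.2 hT
        have e : T = (T - r • ⟨x n, hx n⟩) + s (Finsupp.single n r) := by simp [s]
        rw [e]
        refine add_mem (ih _ fun j hj => ?_) ⟨_, rfl⟩
        show T.1.1 (b j) - r.1 ((x n).1 (b j)) = 0
        rcases hj.eq_or_lt with rfl | hj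
        · rw [hr, sub_self]
        · rw [hT j hj, h2 n j hj, map_zero, sub_self]
    intro T
    obtain ⟨n, hn⟩ := hI T T.2
    exact this n T hn
  · intro f
    induction f using Finsupp.induction_linear with
    | zero => simp
    | add f g hf hg => simp [hf, hg]
    | single a c =>
      apply Subtype.ext
      simp only [p, s, Finsupp.linearCombination_single, map_smul, Submodule.coe_smul, smul_eq_mul,
        h1]
  · intro f hf
    by_contra hne
    have hs : (p f).support.Nonempty := Finsupp.support_nonempty_iff.2 hne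
    set n := (p f).support.max' hs with hn
    have hn1 : f n * ε n ≠ 0 := by
      rw [← hp]; exact Finsupp.mem_support_iff.1 (Finset.max'_mem _ hs)
    apply hn1
    apply h3
    have e : ((s f).1 : RR).1 (b n) = 0 := by rw [hf]; rfl
    simp only [s, Finsupp.linearCombination_apply, Finsupp.sum, AddSubmonoidClass.coe_finset_sum,
      LinearMap.sum_apply] at e
    rw [Finset.sum_eq_single n] at e
    · exact e
    · intro m _ hm
      show (f m).1 ((x m).1 (b n)) = 0
      rcases lt_or_gt_of_ne hm with h | h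
      · rw [h2 m n h, map_zero]
      · have : f m * ε m = 0 := by
          rw [← hp]
          by_contra hc
          exact absurd (Finset.le_max' _ m (Finsupp.mem_support_iff.2 hc)) (by omega)
        show (f m * x m).1 (b n) = 0
        rw [← h1 m, ← mul_assoc, this, zero_mul]; rfl
    · intro h
      rw [Finsupp.notMem_support_iff.1 h, zero_smul]; rfl

noncomputable def e (n : ℕ) : RR := ∑ i ∈ Finset.range n, E i _ (low_b i)

theorem e_apply (n : ℕ) (w : V) (k : ℕ) : (e n).1 w k = if k < n then w k else 0 := by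
  simp only [e, AddSubmonoidClass.coe_finset_sum, LinearMap.sum_apply, E_apply,
    Finsupp.finset_sum_apply, Finsupp.smul_apply, b_apply, smul_eq_mul, mul_ite, mul_one, mul_zero,
    Finset.sum_ite_eq', Finset.mem_range]

noncomputable def sc (c : ℚ) : RR :=
  ⟨c • 1, fun j v hv i hi => by simp [hv i hi], c, 0, by simp⟩

theorem hered (I : Submodule RR RR) : Module.Projective RR I := by
  by_cases hI : ∀ T ∈ I, ∃ n, ∀ j, n ≤ j → T.1 (b j) = 0
  · exact fin_proj I hI
  push Not at hI
  obtain ⟨T, hT, hT2⟩ := hI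
  obtain ⟨c, n, hc⟩ := T.2.2
  have hc0 : c ≠ 0 := by
    rintro rfl
    obtain ⟨j, hj, h⟩ := hT2 n
    exact h (by rw [hc j hj, zero_smul])
  have hu : sc c⁻¹ * (1 - e n) * T = 1 - e n := by
    refine Subtype.ext (ext_b fun j => ?_)
    ext k
    show c⁻¹ * ((T.1 (b j)) k - (e n).1 (T.1 (b j)) k) = b j k - (e n).1 (b j) k
    rw [e_apply, e_apply]
    split_ifs with h
    · simp
    · by_cases hj : n ≤ j
      · rw [hc j hj]; simp [hc0]
      · rw [T.2.1 j _ (low_b j) k (by omega), low_b j k (by omega)]; simp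
  have hee : e n * e n = e n := by
    refine Subtype.ext (LinearMap.ext fun w => ?_)
    ext k
    show (e n).1 ((e n).1 w) k = (e n).1 w k
    simp only [e_apply]
    split_ifs <;> rfl
  let J : Submodule RR RR := I ⊓ LinearMap.range (LinearMap.toSpanSingleton RR RR (e n))
  haveI : Module.Projective RR J := fin_proj J (by
    rintro _ ⟨-, S, rfl⟩
    refine ⟨n, fun j hj => ?_⟩
    show S.1 ((e n).1 (b j)) = 0
    have : (e n).1 (b j) = 0 := by
      ext k
      rw [e_apply, b_apply]
      split_ifs <;> first | rfl | omega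
    rw [this, map_zero])
  have hmem : 1 - e n ∈ I := hu ▸ I.smul_mem _ hT
  refine proj_idem I (1 - e n) hmem (by rw [mul_sub, sub_mul, sub_mul, hee]; simp) J inf_le_left
    fun x hx => ⟨?_, x, by simp⟩
  rw [mul_sub, mul_one]
  exact sub_mem hx (I.smul_mem _ hmem)

noncomputable def N (i : ℕ) : RR := E (i + 1) (b i) fun k hk => low_b i k (by omega)

theorem N_sq (i : ℕ) (r : RR) : N i * r * N i = 0 := by
  refine Subtype.ext (LinearMap.ext fun w => ?_)
  show (N i).1 (r.1 ((N i).1 w)) = 0
  simp only [N, E_apply, map_smul]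
  rw [r.2.1 i _ (low_b i) (i + 1) (by omega)]; simp

theorem N_prod (n : ℕ) : (((List.range n).map N).prod).1 (b n) = b 0 := by
  induction n with
  | zero => rfl
  | succ n ih =>
    rw [List.range_succ, List.map_append, List.prod_append]
    simp only [List.map_cons, List.map_nil, List.prod_cons, List.prod_nil, mul_one]
    show (((List.range n).map N).prod).1 ((N n).1 (b (n + 1))) = _
    rw [N, E_apply, b_apply, if_pos rfl, one_smul, ih]

theorem N_ne (n : ℕ) : ((List.range n).map N).prod ≠ 0 := fun h => by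
  have := N_prod n
  rw [h] at this
  have := congrArg (fun v : V => v 0) this
  simp [b] at this

end Pool.Agent.H51.HeredRad
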