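import Pool.Agent.H51.HopfDefs

namespace Pool.Agent.H51.Hopf
open Pool.Agent.H51.HopfDefs

/-- The function `u`. -/
noncomputable def u (p : ℝ × ℝ) : ℝ := p.1 * p.2 ^ 2 + 1 / 4000 * p.1 ^ 5
/-- The function `v`. -/
noncomputable def v (p : ℝ × ℝ) : ℝ :=
  p.1 * p.2 ^ 2 / 2 + p.1 ^ 3 * p.2 ^ 2 / 2 + 1 / 4000000 * p.1 ^ 5

theorem d_poly (a b c e f g : ℝ) :
    deriv (fun t : ℝ => a + b * t + c * t ^ 2 + e * t ^ 3 + f * t ^ 4 + g * t ^ 5) =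
      fun t => b + 2 * c * t + 3 * e * t ^ 2 + 4 * f * t ^ 3 + 5 * g * t ^ 4 + 0 * t ^ 5 := by
  funext t
  have : HasDerivAt (fun t : ℝ => a + b * t + c * t ^ 2 + e * t ^ 3 + f * t ^ 4 + g * t ^ 5)
      (0 + b * 1 + c * (2 * t) + e * (3 * t ^ 2) + f * (4 * t ^ 3) + g * (5 * t ^ 4)) t := by
    refine (((((hasDerivAt_const t a).add ((hasDerivAt_id t).const_mul b)).add
      (HasDerivAt.const_mul c ?_)).add (HasDerivAt.const_mul e ?_)).add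
      (HasDerivAt.const_mul f ?_)).add (HasDerivAt.const_mul g ?_)
    · simpa using hasDerivAt_pow 2 t
    · simpa using hasDerivAt_pow 3 t
    · simpa using hasDerivAt_pow 4 t
    · simpa using hasDerivAt_pow 5 t
  rw [this.deriv]; ring

theorem d2_poly (a b c e f g t : ℝ) :
    iteratedDeriv 2 (fun t : ℝ => a + b * t + c * t ^ 2 + e * t ^ 3 + f * t ^ 4 + g * t ^ 5) t =
      2 * c + 6 * e * t + 12 * f * t ^ 2 + 20 * g * t ^ 3 := by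
  rw [iteratedDeriv_succ, iteratedDeriv_one, d_poly, d_poly]; ring

theorem d5_poly (g : ℝ) : iteratedDeriv 5 (fun t : ℝ => g * t ^ 5) 0 = 120 * g := by
  have : (fun t : ℝ => g * t ^ 5) =
      fun t : ℝ => 0 + 0 * t + 0 * t ^ 2 + 0 * t ^ 3 + 0 * t ^ 4 + g * t ^ 5 := by
    funext t; ring
  rw [this, iteratedDeriv_succ', d_poly, iteratedDeriv_succ', d_poly, iteratedDeriv_succ', d_poly,
    d2_poly]
  ring

theorem dt_u (p : ℝ × ℝ) : dt u p = p.2 ^ 2 + 1 / 800 * p.1 ^ 4 := by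
  have : (fun t => u (t, p.2)) =
      fun t : ℝ => 0 + p.2 ^ 2 * t + 0 * t ^ 2 + 0 * t ^ 3 + 0 * t ^ 4 + 1 / 4000 * t ^ 5 := by
    funext t; simp only [u]; ring
  rw [dt, this, d_poly]; ring

theorem lap_u (t y : ℝ) : lap u (t, y) = 2 * t + 1 / 200 * t ^ 3 := by
  have h1 : (fun t => u (t, y)) =
      fun t : ℝ => 0 + y ^ 2 * t + 0 * t ^ 2 + 0 * t ^ 3 + 0 * t ^ 4 + 1 / 4000 * t ^ 5 := by
    funext t; simp only [u]; ring
  have h2 : (fun y => u (t, y)) = fun y : ℝ => 1 / 4000 * t ^ 5 + 0 * y + t * y ^ 2 + 0 * y ^ 3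
      + 0 * y ^ 4 + 0 * y ^ 5 := by
    funext t; simp only [u]; ring
  rw [lap, h1, h2, d2_poly, d2_poly]; ring

theorem lap_v (t y : ℝ) : lap v (t, y) = t + t ^ 3 + 3 * t * y ^ 2 + 1 / 200000 * t ^ 3 := by
  have h1 : (fun t => v (t, y)) = fun t : ℝ => 0 + y ^ 2 / 2 * t + 0 * t ^ 2 + y ^ 2 / 2 * t ^ 3
      + 0 * t ^ 4 + 1 / 4000000 * t ^ 5 := by
    funext t; simp only [v]; ring
  have h2 : (fun y => v (t, y)) = fun y : ℝ => 1 / 4000000 * t ^ 5 + 0 * y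
      + (t / 2 + t ^ 3 / 2) * y ^ 2 + 0 * y ^ 3 + 0 * y ^ 4 + 0 * y ^ 5 := by
    funext t; simp only [v]; ring
  rw [lap, h1, h2, d2_poly, d2_poly]; ring

theorem cmp (t s y : ℝ) (ht : 0 < t) (hts : t ≤ s) (hs : s < 1) (h : u (t, y) = v (s, y)) :
    lap u (t, y) ≤ lap v (s, y) := by
  rw [lap_u, lap_v]
  simp only [u, v] at h
  by_contra hc
  push Not at hc
  set Y := y ^ 2
  have hY : 0 ≤ Y := sq_nonneg y
  have hs0 : 0 < s := by linarith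
  have t3 : t ^ 3 ≤ t := by
    have : t ^ 2 ≤ 1 := by nlinarith
    nlinarith
  have s3 : 0 < s ^ 3 := by positivity
  have h1 : s ≤ 2.01 * t := by nlinarith [mul_nonneg hs0.le hY]
  have h2 : s ^ 5 ≤ (2.01 * t) ^ 5 := by gcongr
  have t5 : 0 < t ^ 5 := by positivity
  have h3 : Y * ((s + s ^ 3) / 2 - t) ≤ Y * (1 / 400 * t ^ 3 - 3 / 2 * t * Y) := by
    apply mul_le_mul_of_nonneg_left _ hY
    nlinarith [mul_le_mul_of_nonneg_right hts hY]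
  have h4 : Y * (1 / 400 * t ^ 3 - 3 / 2 * t * Y) ≤ 1 / 960000 * t ^ 5 := by
    nlinarith [mul_nonneg ht.le (sq_nonneg (Y - t ^ 2 / 1200))]
  nlinarith

theorem main : ContDiff ℝ (⊤ : ℕ∞) u ∧ ContDiff ℝ (⊤ : ℕ∞) v ∧ (∀ p ∈ Om, v p ≤ u p) ∧
    (∀ p ∈ Om, 0 < u p ∧ 0 < v p ∧ 0 < dt u p) ∧ (∀ y : ℝ, |y| < 1 → u (0, y) = 0) ∧
    (∀ t s y : ℝ, 0 < t → t ≤ s → s < 1 → |y| < 1 → u (t, y) = v (s, y) →
      lap u (t, y) ≤ lap v (s, y)) ∧ dt u (0, 0) = 0 ∧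
    (u (0, 0) = 0 ∧ ∃ k, iteratedDeriv k (fun t => u (t, 0)) 0 ≠ 0) ∧
    (v (0, 0) = 0 ∧ ∃ k, iteratedDeriv k (fun t => v (t, 0)) 0 ≠ 0) ∧
    ∃ p ∈ Om, v p < u p := by
  refine ⟨by unfold u; fun_prop, by unfold v; fun_prop, ?_, ?_, fun y _ => by simp [u],
    fun t s y a b c _ h => cmp t s y a b c h, by simp [dt_u], ⟨by simp [u], 5, ?_⟩,
    ⟨by simp [v], 5, ?_⟩, (1 / 2, 0), by norm_num [Om], by norm_num [u, v]⟩
  · rintro ⟨t, y⟩ ⟨-, h1, h2⟩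
    simp only [u, v] at *
    have : t ^ 2 ≤ 1 := by nlinarith
    have t5 : 0 < t ^ 5 := by positivity
    nlinarith [mul_nonneg (mul_nonneg h1.le (sq_nonneg y)) (sub_nonneg.mpr this)]
  · rintro ⟨t, y⟩ ⟨-, h1, h2⟩
    rw [dt_u]
    simp only [u, v] at *
    refine ⟨by positivity, by positivity, by positivity⟩
  · have : (fun t => u (t, 0)) = fun t : ℝ => 1 / 4000 * t ^ 5 := by funext t; simp [u]
    rw [this, d5_poly]; norm_num
  · have : (fun t => v (t, 0)) = fun t : ℝ => 1 / 4000000 * t ^ 5 := by funext t; simp [v]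
    rw [this, d5_poly]; norm_num

end Pool.Agent.H51.Hopf
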