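import Mathlib

/-! Partial derivatives in the plane, with coordinates `(t, y)`. -/

namespace Pool.Agent.H51.HopfDefs

/-- The open set `Ω = {(t, y) : |y| < 1, 0 < t < 1}` for `n = 2`. -/
def Om : Set (ℝ × ℝ) := {p | |p.2| < 1 ∧ 0 < p.1 ∧ p.1 < 1}

/-- The derivative `w_t`. -/
noncomputable def dt (w : ℝ × ℝ → ℝ) (p : ℝ × ℝ) : ℝ := deriv (fun t => w (t, p.2)) p.1

/-- The Laplacian `w_tt + w_yy`. -/
noncomputable def lap (w : ℝ × ℝ → ℝ) (p : ℝ × ℝ) : ℝ :=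
  iteratedDeriv 2 (fun t => w (t, p.2)) p.1 + iteratedDeriv 2 (fun y => w (p.1, y)) p.2

end Pool.Agent.H51.HopfDefs
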