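import Mathlib

set_option autoImplicit false
open Polynomial

namespace Pool.Agent.H51.HopfOver

abbrev M := ℤ[X]

noncomputable def D : Module.End ℤ M := (divX_hom : M →+ M).toIntLinearMap

@[simp] lemma D_coeff (p : M) (n : ℕ) : (D p).coeff n = p.coeff (n + 1) := by
  simp [D, coeff_divX]

noncomputable def N : Module.End ℤ M := (2 : ℤ) • D

@[simp] lemma N_coeff (p : M) (n : ℕ) : (N p).coeff n = 2 * p.coeff (n + 1) := by
  simp [N]

lemma Npow_coeff (c : ℤ) (k : ℕ) (p : M) (n : ℕ) :
    (((c • D) ^ k) p).coeff n = c ^ k * p.coeff (n + k) := by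
  induction k generalizing n with
  | zero => simp
  | succ k ih =>
    rw [pow_succ', Module.End.mul_apply]
    simp only [LinearMap.smul_apply, coeff_smul, D_coeff, ih, smul_eq_mul]
    rw [show n + 1 + k = n + (k + 1) by ring]; ring

lemma Npow_zero (p : M) : (((-2 : ℤ) • D) ^ (p.natDegree + 1)) p = 0 := by
  ext n
  rw [Npow_coeff, coeff_eq_zero_of_natDegree_lt (by omega)]; simp

lemma bij : Function.Bijective (1 + N : Module.End ℤ M) := by
  have h1 : (1 + N : Module.End ℤ M) = 1 - (-2 : ℤ) • D := by simp [N]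
  rw [h1]
  constructor
  · rw [injective_iff_map_eq_zero]
    intro p hp
    have := congrArg (fun T : Module.End ℤ M => T p)
      (geom_sum_mul_neg ((-2 : ℤ) • D) (p.natDegree + 1))
    simp only [Module.End.mul_apply, hp, map_zero] at this
    rw [LinearMap.sub_apply, Npow_zero] at this
    simpa using this.symm
  · intro p
    refine ⟨(∑ i ∈ Finset.range (p.natDegree + 1), ((-2 : ℤ) • D) ^ i) p, ?_⟩
    have := congrArg (fun T : Module.End ℤ M => T p)
      (mul_neg_geom_sum ((-2 : ℤ) • D) (p.natDegree + 1))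
    simp only [Module.End.mul_apply] at this
    rw [this, LinearMap.sub_apply, Npow_zero]; simp

noncomputable def T : (Module.End ℤ M)ˣ := ((Module.End.isUnit_iff _).2 bij).unit

lemma T_val : (T : Module.End ℤ M) = 1 + N := rfl

noncomputable def A (n : ℤ) : Module.End ℤ M := ((T ^ n : (Module.End ℤ M)ˣ) : Module.End ℤ M)

@[simp] lemma A_zero (p : M) : A 0 p = p := by simp [A]
lemma A_one (p : M) : A 1 p = p + N p := by simp [A, T_val]
lemma A_add (m n : ℤ) (p : M) : A (m + n) p = A m (A n p) := by simp [A, zpow_add]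

lemma A_D (n : ℤ) (p : M) : D (A n p) = A n (D p) := by
  have h : Commute D (T : Module.End ℤ M) := by
    rw [T_val, N]
    exact (Commute.one_right _).add_right ((Commute.refl D).smul_right _)
  have := (h.units_zpow_right n).eq
  exact congrArg (fun S : Module.End ℤ M => S p) this

lemma A_par (n : ℤ) (p : M) (k : ℕ) : (2 : ℤ) ∣ (A n p).coeff k - p.coeff k := by
  induction n using Int.induction_on generalizing p with
  | zero => simp
  | succ i ih =>
    rw [A_add, A_one]
    have := ih (p + N p)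
    simp only [coeff_add, N_coeff] at this
    omega
  | pred i ih =>
    have := ih p
    rw [show -(i : ℤ) = 1 + (-i - 1) by ring, A_add, A_one] at this
    simp only [coeff_add, N_coeff] at this
    omega

@[ext] structure G where
  a : M
  n : ℤ

noncomputable instance : Mul G := ⟨fun x y => ⟨x.a + A x.n y.a, x.n + y.n⟩⟩
noncomputable instance : One G := ⟨⟨0, 0⟩⟩
noncomputable instance : Inv G := ⟨fun x => ⟨- A (-x.n) x.a, -x.n⟩⟩

@[simp] lemma mul_a (x y : G) : (x * y).a = x.a + A x.n y.a := rfl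
@[simp] lemma mul_n (x y : G) : (x * y).n = x.n + y.n := rfl
@[simp] lemma one_a : (1 : G).a = 0 := rfl
@[simp] lemma one_n : (1 : G).n = 0 := rfl
@[simp] lemma inv_a (x : G) : (x⁻¹).a = - A (-x.n) x.a := rfl
@[simp] lemma inv_n (x : G) : (x⁻¹).n = -x.n := rfl

noncomputable instance : Group G := Group.ofLeftAxioms
  (fun a b c => by
    refine G.ext ?_ ?_
    · simp [add_assoc, A_add]
    · simp [add_assoc])
  (fun a => by refine G.ext ?_ ?_ <;> simp)
  (fun a => by refine G.ext ?_ ?_ <;> simp)

noncomputable def g : G →* G := MonoidHom.mk' (fun x => ⟨D x.a, x.n⟩) (fun x y => by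
  refine G.ext ?_ ?_ <;> simp [A_D])

lemma g_surj : Function.Surjective g := fun y => ⟨⟨X * y.a, y.n⟩, by
  refine G.ext ?_ rfl
  show D (X * y.a) = y.a
  ext n; simp⟩

lemma g_not_inj : ¬ Function.Injective g := by
  intro h
  have : g ⟨1, 0⟩ = g 1 := by
    refine G.ext ?_ rfl
    show D 1 = D 0
    ext n; simp [coeff_one]
  have := congrArg G.a (h this)
  simp at this

noncomputable def par : G →* Multiplicative (ZMod 2) :=
  MonoidHom.mk' (fun x => Multiplicative.ofAdd ((x.a.coeff 1 : ℤ) : ZMod 2)) (fun x y => by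
    rw [← ofAdd_add]
    congr 1
    simp only [mul_a, coeff_add, Int.cast_add]
    congr 1
    exact ((ZMod.intCast_eq_intCast_iff_dvd_sub _ _ 2).2 (A_par x.n y.a 1)).symm)

noncomputable def H : Subgroup G := par.ker

lemma mem_H (x : G) : x ∈ H ↔ (2 : ℤ) ∣ x.a.coeff 1 := by
  rw [H, MonoidHom.mem_ker]
  exact (ZMod.intCast_zmod_eq_zero_iff_dvd _ 2)

instance : H.FiniteIndex := by
  unfold H; infer_instance

def S : AddSubgroup M where
  carrier := {p | (2 : ℤ) ∣ p.coeff 1}
  add_mem' := fun {a b} ha hb => by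
    simp only [Set.mem_setOf_eq, coeff_add] at *; omega
  zero_mem' := by simp
  neg_mem' := fun {a} ha => by simpa using ha

lemma mem_S (p : M) : p ∈ S ↔ (2 : ℤ) ∣ p.coeff 1 := Iff.rfl

noncomputable def N' (a : S) : S := ⟨N a, by rw [mem_S]; simp⟩

noncomputable def e0 : S := ⟨1, by rw [mem_S]; simp [coeff_one]⟩

lemma core (ψ : S →+ S) (hc : ∀ a, (ψ (N' a) : M) = N (ψ a)) (hs : ∃ a, ψ a = e0)
    (a : S) (ha : ψ a = 0) : a = 0 := by
  have h0 : ψ e0 ≠ 0 := by
    intro h0
    obtain ⟨b, hb⟩ := hs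
    obtain ⟨c, hc1⟩ := b.2
    set q : M := D (D b) with hq
    set u : S := ⟨C c * X ^ 2, by rw [mem_S]; simp [coeff_X_pow]⟩ with hu
    set v : S := ⟨X ^ 2 * q, by rw [mem_S]; simp [coeff_X_pow_mul']⟩ with hv
    set w : S := ⟨X ^ 3 * q, by rw [mem_S]; simp [coeff_X_pow_mul']⟩ with hw
    have e1 : b = ((b : M).coeff 0) • e0 + N' u + v := by
      apply Subtype.ext
      ext n
      simp only [AddSubgroup.coe_add, AddSubgroup.coe_zsmul, e0, N', hu, hv, hq, coeff_add,
        coeff_smul, N_coeff, coeff_C_mul, coeff_X_pow, coeff_X_pow_mul', coeff_one, D_coeff]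
      rcases n with _ | _ | n
      · simp
      · simp [hc1]
      · simp
    have e2 : v + v = N' w := by
      apply Subtype.ext
      ext n
      simp only [AddSubgroup.coe_add, N', hw, hv, coeff_add, N_coeff, coeff_X_pow_mul']
      rcases n with _ | _ | n
      · simp
      · simp
      · simp; ring
    have e3 := congrArg (fun z : S => ((ψ z : S) : M).coeff 0) e2
    simp only [map_add, AddSubgroup.coe_add, coeff_add, hc, N_coeff] at e3
    have e4 := (ψ w).2
    rw [mem_S] at e4
    have e5 := congrArg (fun z : S => ((ψ z : S) : M).coeff 0) e1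
    simp only [map_add, map_zsmul, h0, smul_zero, zero_add, AddSubgroup.coe_add, coeff_add, hc,
      N_coeff, hb] at e5
    simp only [e0, coeff_one_zero, zero_add] at e5 e3
    omega
  have hit : ∀ k : ℕ, ψ (N'^[k] a) = 0 ∧ ((N'^[k] a : S) : M) = (N ^ k) a := by
    intro k
    induction k with
    | zero => simp [ha]
    | succ k ih =>
      rw [Function.iterate_succ_apply']
      refine ⟨Subtype.ext ?_, ?_⟩
      · rw [hc, ih.1]; simp
      · rw [pow_succ', Module.End.mul_apply, ← ih.2]; rfl
  obtain ⟨h1, h2⟩ := hit (a : M).natDegree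
  have h3 : N'^[(a : M).natDegree] a = (2 ^ (a : M).natDegree * (a : M).leadingCoeff) • e0 := by
    apply Subtype.ext
    rw [h2]
    ext n
    rw [N, Npow_coeff]
    simp only [AddSubgroup.coe_zsmul, e0, coeff_smul, coeff_one]
    rcases n with _ | n
    · rw [zero_add, if_pos rfl, smul_eq_mul, mul_one]; rfl
    · rw [coeff_eq_zero_of_natDegree_lt (by omega)]; simp
  rw [h3, map_zsmul] at h1
  have h4 := congrArg (fun z : S => (z : M)) h1
  simp only [AddSubgroup.coe_zsmul, ZeroMemClass.coe_zero, smul_eq_zero, mul_eq_zero] at h4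
  rcases h4 with (h4 | h4) | h4
  · exact absurd h4 (by positivity)
  · exact Subtype.ext (leadingCoeff_eq_zero.1 h4)
  · exact absurd (Subtype.ext h4) h0

noncomputable def emb (a : S) : H := ⟨⟨a, 0⟩, (mem_H _).2 a.2⟩
noncomputable def t : H := ⟨⟨0, 1⟩, (mem_H _).2 (by simp)⟩

lemma emb_add (a b : S) : emb (a + b) = emb a * emb b := by
  apply Subtype.ext; refine G.ext ?_ ?_ <;> simp [emb]

lemma emb_conj (a : S) : t * emb a = emb (a + N' a) * t := by
  apply Subtype.ext; refine G.ext ?_ ?_ <;> simp [emb, t, A_one, N']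

lemma nu_emb (f : H →* H) (a : S) : (f (emb a) : G).n = 0 := by
  have h1 : ∀ b : S, (f (emb (N' b)) : G).n = 0 := by
    intro b
    have := congrArg (fun z : H => (f z : G).n) (emb_conj b)
    simp only [emb_add, map_mul, Subgroup.coe_mul, mul_n] at this
    omega
  set w : S := ⟨C 2 * (X * (a : M)), by rw [mem_S, coeff_C_mul]; simp⟩ with hw
  have e : N' w = a + a + a + a := by
    apply Subtype.ext
    ext n
    simp only [N', hw, N_coeff, coeff_C_mul, coeff_X_mul, AddSubgroup.coe_add, coeff_add]; ring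
  have := h1 w
  rw [e] at this
  simp only [emb_add, map_mul, Subgroup.coe_mul, mul_n] at this
  omega

noncomputable def nu : H →* Multiplicative ℤ :=
  MonoidHom.mk' (fun x => Multiplicative.ofAdd (x : G).n) (fun _ _ => rfl)

lemma tpow_n (z : H) (k : ℤ) : ((z ^ k : H) : G).n = k * (z : G).n := by
  have := congrArg Multiplicative.toAdd (map_zpow nu z k)
  simpa [nu] using this

lemma eq_emb (z : H) (hz : (z : G).n = 0) : ∃ a, z = emb a :=
  ⟨⟨(z : G).a, (mem_H _).1 z.2⟩, Subtype.ext (G.ext rfl hz)⟩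

lemma nu_f (f : H →* H) (z : H) : (f z : G).n = (z : G).n * (f t : G).n := by
  obtain ⟨a, ha⟩ := eq_emb (z * t ^ (-(z : G).n)) (by
    rw [Subgroup.coe_mul, mul_n, tpow_n]; simp [t])
  have := nu_emb f a
  rw [← ha, map_mul, map_zpow, Subgroup.coe_mul, mul_n, tpow_n] at this
  linarith

lemma hopf1 (f : H →* H) (hs : Function.Surjective f) (hn : ∀ z, (f z : G).n = (z : G).n) :
    Function.Injective f := by
  let ψ : S →+ S := AddMonoidHom.mk'
    (fun a => ⟨(f (emb a) : G).a, (mem_H _).1 (f (emb a)).2⟩) (fun a b => by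
      apply Subtype.ext
      simp [emb_add, nu_emb])
  have hψ : ∀ a, (ψ a : M) = (f (emb a) : G).a := fun _ => rfl
  rw [injective_iff_map_eq_one]
  intro z hz
  obtain ⟨a, rfl⟩ := eq_emb z (by rw [← hn, hz]; rfl)
  have := core ψ (fun b => by
      have h1 := congrArg (fun z : H => (f z : G).a) (emb_conj b)
      have h2 : (f t : G).n = 1 := hn t
      simp only [emb_add, map_mul, Subgroup.coe_mul, mul_a, mul_n, nu_emb, h2, A_one, A_zero,
        add_zero] at h1
      rw [hψ, hψ]
      linear_combination -h1)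
    (by
      obtain ⟨y, hy⟩ := hs (emb e0)
      obtain ⟨b, rfl⟩ := eq_emb y (by rw [← hn, hy]; rfl)
      exact ⟨b, Subtype.ext (by rw [hψ, hy]; rfl)⟩) a (Subtype.ext (by rw [hψ, hz]; rfl))
  rw [this]; rfl

theorem hopf (f : H →* H) (hs : Function.Surjective f) : Function.Injective f := by
  obtain ⟨y, hy⟩ := hs t
  have h1 := nu_f f y
  rw [hy] at h1
  have h2 : (f t : G).n * (f t : G).n = 1 := by
    have h3 : (y : G).n * (f t : G).n = 1 := h1.symm
    rcases Int.eq_one_or_neg_one_of_mul_eq_one' h3 with h | h <;> simp [h.2]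
  have := hopf1 (f.comp f) (hs.comp hs) (fun z => by
    rw [MonoidHom.comp_apply, nu_f, nu_f f z, mul_assoc, h2, mul_one])
  exact Function.Injective.of_comp (f := f) (g := f) this

end Pool.Agent.H51.HopfOver
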