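import Mathlib

namespace Pool.Agent.H51.HypL1
open Filter Topology

/-- Directional derivative of the absolute value. -/
noncomputable def d (a b : ℝ) : ℝ := if a = 0 then |b| else Real.sign a * b

theorem abs_d (a b : ℝ) : |d a b| ≤ |b| := by
  unfold d
  split_ifs with h
  · simp
  · rcases lt_or_gt_of_ne h with h | h
    · simp [Real.sign_of_neg h]
    · simp [Real.sign_of_pos h]

theorem tendsto_d (a b : ℝ) :
    Tendsto (fun n : ℕ => ((n : ℝ) + 1) * (|a + (1 / ((n : ℝ) + 1)) * b| - |a|)) atTop
      (𝓝 (d a b)) := by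
  have h0 : Tendsto (fun n : ℕ => a + (1 / ((n : ℝ) + 1)) * b) atTop (𝓝 a) := by
    have := (tendsto_one_div_add_atTop_nhds_zero_nat (𝕜 := ℝ)).mul_const b |>.const_add a
    simpa using this
  refine tendsto_const_nhds.congr' ?_
  unfold d
  rcases lt_trichotomy a 0 with h | h | h
  · filter_upwards [h0.eventually (gt_mem_nhds h)] with n hn
    rw [if_neg h.ne, Real.sign_of_neg h, abs_of_neg hn, abs_of_neg h]
    field_simp; ring
  · subst h
    refine Eventually.of_forall fun n => ?_
    have : (0 : ℝ) < n + 1 := by positivity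
    simp only [if_true, zero_add, abs_zero, sub_zero, abs_mul, abs_of_pos (one_div_pos.mpr this)]
    field_simp
  · filter_upwards [h0.eventually (lt_mem_nhds h)] with n hn
    rw [if_neg h.ne', Real.sign_of_pos h, abs_of_pos hn, abs_of_pos h]
    field_simp; ring

theorem summable_comb {x w : ℕ → ℝ} (hx : Summable fun i => |x i|) (hw : Summable fun i => |w i|)
    (t : ℝ) : Summable fun i => |x i + t * w i| :=
  Summable.of_nonneg_of_le (fun _ => abs_nonneg _)
    (fun i => (abs_add_le _ _).trans (by rw [abs_mul])) (hx.add (hw.mul_left |t|))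

theorem summable_d {x w : ℕ → ℝ} (hw : Summable fun i => |w i|) :
    Summable fun i => d (x i) (w i) :=
  Summable.of_norm_bounded hw fun _ => abs_d _ _

theorem tendsto_D {x w : ℕ → ℝ} (hx : Summable fun i => |x i|) (hw : Summable fun i => |w i|) :
    Tendsto (fun n : ℕ => ((n : ℝ) + 1) * (∑' i, |x i + (1 / ((n : ℝ) + 1)) * w i| - ∑' i, |x i|))
      atTop (𝓝 (∑' i, d (x i) (w i))) := by
  have := tendsto_tsum_of_dominated_convergence (𝓕 := atTop)
    (f := fun (n : ℕ) i => ((n : ℝ) + 1) * (|x i + (1 / ((n : ℝ) + 1)) * w i| - |x i|)) hw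
    (fun i => tendsto_d (x i) (w i)) (Eventually.of_forall fun n i => by
      have hn : (0 : ℝ) < n + 1 := by positivity
      rw [Real.norm_eq_abs, abs_mul, abs_of_pos hn]
      have := abs_abs_sub_abs_le_abs_sub (x i + (1 / ((n : ℝ) + 1)) * w i) (x i)
      rw [add_sub_cancel_left, abs_mul, abs_of_pos (one_div_pos.mpr hn)] at this
      calc _ ≤ ((n : ℝ) + 1) * (1 / ((n : ℝ) + 1) * |w i|) := by gcongr
        _ = _ := by field_simp)
  refine this.congr fun n => ?_
  rw [tsum_mul_left, (summable_comb hx hw _).tsum_sub hx]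

theorem D_le {x w w' : ℕ → ℝ} (hx : Summable fun i => |x i|) (hw : Summable fun i => |w i|)
    (hw' : Summable fun i => |w' i|)
    (h : ∀ t : ℝ, ∑' i, |x i + t * w i| ≤ ∑' i, |x i + t * w' i|) :
    ∑' i, d (x i) (w i) ≤ ∑' i, d (x i) (w' i) := by
  refine le_of_tendsto_of_tendsto' (tendsto_D hx hw) (tendsto_D hx hw') fun n => ?_
  have := h (1 / ((n : ℝ) + 1))
  gcongr

/-- Birkhoff-James orthogonality passes to the zero set of `x`. -/
theorem orth {x v z : ℕ → ℝ} (hx : Summable fun i => |x i|) (hv : Summable fun i => |v i|)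
    (hz : Summable fun i => |z i|)
    (h : ∀ t s : ℝ, ∑' i, |x i + t * v i| ≤ ∑' i, |x i + t * (v i + s * z i)|)
    (h0 : ∀ i, x i = 0 → v i = 0 → z i = 0) :
    ∑' i, (if x i = 0 then Real.sign (v i) * z i else 0) = 0 := by
  have key : ∀ w : ℕ → ℝ, (Summable fun i => |w i|) →
      ∑' i, d (x i) (w i) + ∑' i, d (x i) (-w i) = 2 * ∑' i, |if x i = 0 then w i else 0| := by
    intro w hw
    rw [← (summable_d hw).tsum_add (summable_d (w := fun i => -w i) (by simpa using hw)),
      ← tsum_mul_left]
    congr 1
    funext i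
    unfold d
    split_ifs <;> simp [two_mul]
  have res : ∀ w : ℕ → ℝ, (Summable fun i => |w i|) →
      Summable fun i => |if x i = 0 then w i else 0| := fun w hw =>
    Summable.of_nonneg_of_le (fun _ => abs_nonneg _) (fun i => by split_ifs <;> simp) hw
  have h1 : ∀ s : ℝ, ∑' i, |if x i = 0 then v i else 0| ≤
      ∑' i, |if x i = 0 then v i + s * z i else 0| := by
    intro s
    have a1 := D_le hx hv (summable_comb hv hz s) (fun t => h t s)
    have a2 := D_le (w := fun i => -v i) (w' := fun i => -(v i + s * z i)) hx (by simpa using hv)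
      (by simpa only [abs_neg] using summable_comb hv hz s) (fun t => by
        have := h (-t) s
        simpa only [neg_mul, mul_neg] using this)
    have a3 := key v hv
    have a4 := key _ (summable_comb hv hz s)
    linarith
  have h2 : ∀ c : ℝ, 0 ≤ c * ∑' i, (if x i = 0 then Real.sign (v i) * z i else 0) := by
    intro c
    have hcz : Summable fun i => |c * z i| := by
      simpa only [abs_mul] using hz.mul_left |c|
    have a1 := D_le (x := fun i => if x i = 0 then v i else 0) (w := fun _ => 0)
      (w' := fun i => if x i = 0 then c * z i else 0) (res v hv) (by simpa using summable_zero)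
      (res _ hcz) (fun t => by
        have := h1 (t * c)
        simp only [mul_zero, add_zero]
        refine this.trans (le_of_eq ?_)
        congr 1
        funext i
        split_ifs <;> simp [mul_assoc])
    have a2 : ∀ a : ℝ, d a 0 = 0 := by intro a; simp [d]
    simp only [a2, tsum_zero] at a1
    rw [← tsum_mul_left]
    refine a1.trans (le_of_eq ?_)
    congr 1
    funext i
    unfold d
    by_cases hi : x i = 0
    · by_cases hi' : v i = 0
      · simp [hi, hi', h0 i hi hi']
      · simp only [hi, hi', if_true, if_false]; ring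
    · simp [hi]
  have a1 := h2 1
  have a2 := h2 (-1)
  linarith

end Pool.Agent.H51.HypL1
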