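import Pool.Agent.H51.HypL1a

namespace Pool.Agent.H51.HypL1
open Filter Topology

/-- The space of absolutely summable sequences. -/
abbrev L : Type := lp (fun _ : ℕ => ℝ) 1

theorem summ (x : L) : Summable fun i => |x i| := by
  simpa using (lp.memℓp x).summable (by simp)

theorem norm_eq (x : L) : ‖x‖ = ∑' i, |x i| := by
  simpa using lp.norm_eq_tsum_rpow (by simp) x

theorem norm_compl (x : L) (s : Finset ℕ) :
    ‖x - ∑ i ∈ s, lp.single 1 i (x i)‖ = ‖x‖ - ∑ i ∈ s, |x i| := by
  simpa using lp.norm_compl_sum_single (by simp) x s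

theorem norm_single (i : ℕ) (a : ℝ) : ‖(lp.single 1 i a : L)‖ = |a| :=
  lp.norm_single (E := fun _ : ℕ => ℝ) (by simp) i a

/-- The weights. -/
noncomputable def ph (n : ℕ) : ℝ := (n + 1) / (n + 10)
/-- The inverse weights. -/
noncomputable def ps (n : ℕ) : ℝ := (n + 10) / (n + 1)

theorem ph_pos (n : ℕ) : 0 < ph n := by unfold ph; positivity
theorem ps_pos (n : ℕ) : 0 < ps n := by unfold ps; positivity
theorem ph_ps (n : ℕ) : ph n * ps n = 1 := by unfold ph ps; field_simp
theorem ph_le (n : ℕ) : ph n ≤ 1 := by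
  unfold ph; rw [div_le_one (by positivity)]; linarith
theorem one_le_ps (n : ℕ) : 1 ≤ ps n := by
  unfold ps; rw [one_le_div (by positivity)]; linarith
theorem ph_mono : StrictMono ph := by
  intro a b h
  have : (a : ℝ) < b := by exact_mod_cast h
  unfold ph; rw [div_lt_div_iff₀ (by positivity) (by positivity)]; nlinarith
theorem ps_inj : Function.Injective ps := by
  intro a b h
  apply ph_mono.injective
  have h1 := ph_ps a
  rw [h, ← ph_ps b] at h1
  exact mul_right_cancel₀ (ps_pos b).ne' h1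

theorem summ_ph (x : L) : Summable fun i => ph i * x i :=
  Summable.of_norm_bounded (summ x) fun i => by
    rw [Real.norm_eq_abs, abs_mul, abs_of_pos (ph_pos i)]
    exact mul_le_of_le_one_left (abs_nonneg _) (ph_le i)

theorem tsum_ph_le (x : L) (κ : ℝ) (h : ∀ i, x i ≠ 0 → ph i ≤ κ) :
    |∑' i, ph i * x i| ≤ κ * ‖x‖ := by
  rw [norm_eq, ← tsum_mul_left, ← Real.norm_eq_abs]
  refine tsum_of_norm_bounded ((summ x).mul_left κ).hasSum fun i => ?_
  rw [Real.norm_eq_abs, abs_mul, abs_of_pos (ph_pos i)]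
  by_cases hi : x i = 0
  · simp [hi]
  · exact mul_le_mul_of_nonneg_right (h i hi) (abs_nonneg _)

/-- The functional. -/
noncomputable def φ : L →L[ℝ] ℝ :=
  LinearMap.mkContinuous
    { toFun := fun x => ∑' i, ph i * x i
      map_add' := fun x y => by
        rw [← (summ_ph x).tsum_add (summ_ph y)]
        simp [mul_add]
      map_smul' := fun c x => by
        simp only [RingHom.id_apply, smul_eq_mul, ← tsum_mul_left, lp.coeFn_smul, Pi.smul_apply]
        congr 1; funext i; ring } 1
    fun x => tsum_ph_le x 1 fun i _ => ph_le i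

theorem φ_le (x : L) (κ : ℝ) (h : ∀ i, x i ≠ 0 → ph i ≤ κ) : |φ x| ≤ κ * ‖x‖ := tsum_ph_le x κ h

theorem φ_single (i : ℕ) (a : ℝ) : φ (lp.single 1 i a) = ph i * a := by
  show ∑' j, ph j * (lp.single 1 i a : L) j = _
  rw [tsum_eq_single i]
  · simp
  · intro j hj; simp [hj]

/-- The hyperplane. -/
noncomputable def E : Submodule ℝ L := LinearMap.ker (φ : L →ₗ[ℝ] ℝ)

instance : CompleteSpace E := (ContinuousLinearMap.isClosed_ker φ).completeSpace_coe

/-- The extreme vectors. -/
noncomputable def y (a b : ℕ) : E := ⟨lp.single 1 a (ps a) - lp.single 1 b (ps b), by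
  show φ _ = 0
  rw [map_sub, φ_single, φ_single, ph_ps, ph_ps, sub_self]⟩

/-- Coordinates. -/
noncomputable def co (i : ℕ) : E →L[ℝ] ℝ := (lp.evalCLM ℝ (fun _ : ℕ => ℝ) 1 i).comp E.subtypeL

theorem co_apply (i : ℕ) (x : E) : co i x = (x : L) i := rfl

theorem co_y (i a b : ℕ) :
    co i (y a b) = (if i = a then ps a else 0) - (if i = b then ps b else 0) := by
  simp [co_apply, y, Pi.single_apply]

theorem co_le (i : ℕ) (x : E) : |co i x| ≤ ‖x‖ :=
  lp.norm_apply_le_norm (E := fun _ : ℕ => ℝ) (by simp) (x : L) i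

theorem co_ext {x w : E} (h : ∀ i, co i x = co i w) : x = w :=
  Subtype.ext (lp.ext (funext h))

theorem norm_co (x : E) : ‖x‖ = ∑' i, |co i x| := norm_eq x

theorem summ_co (x : E) : Summable fun i => |co i x| := summ x

section
variable (u : E →L[ℝ] E)

/-- The support of the range. -/
def S (k : ℕ) : Prop := ∃ v : E, u v = v ∧ co k v ≠ 0
/-- Proportional coordinates. -/
def Z (k i : ℕ) : Prop := ∀ w : E, u w = w → co k w = 0 → co i w = 0

theorem gen (k : ℕ) : ∃ x : E, u x = x ∧ ∀ i, co i x = 0 ↔ Z u k i := by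
  let V : Submodule ℝ E := LinearMap.ker ((u - ContinuousLinearMap.id ℝ E : E →L[ℝ] E) : E →ₗ[ℝ] E) ⊓
    LinearMap.ker ((co k : E →L[ℝ] ℝ) : E →ₗ[ℝ] ℝ)
  have hV : ∀ x, x ∈ V ↔ u x = x ∧ co k x = 0 := by
    intro x; simp [V, sub_eq_zero]
  have hc : IsClosed (V : Set E) :=
    (ContinuousLinearMap.isClosed_ker _).inter (ContinuousLinearMap.isClosed_ker _)
  haveI : CompleteSpace V := hc.completeSpace_coe
  have hd := dense_iInter_of_isOpen (X := V) (f := fun i : {i // ¬ Z u k i} =>
      (LinearMap.ker (((co i.1).comp V.subtypeL : V →L[ℝ] ℝ) : V →ₗ[ℝ] ℝ) : Set V)ᶜ)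
    (fun i => (ContinuousLinearMap.isClosed_ker _).isOpen_compl) (fun i => by
      rw [← interior_eq_empty_iff_dense_compl]
      by_contra h
      have := Submodule.eq_top_of_nonempty_interior' _ (Set.nonempty_iff_ne_empty.mpr h)
      apply i.2
      intro w hw hk
      have h1 : (⟨w, (hV w).mpr ⟨hw, hk⟩⟩ : V) ∈
        LinearMap.ker (((co i.1).comp V.subtypeL : V →L[ℝ] ℝ) : V →ₗ[ℝ] ℝ) := by
        rw [this]; trivial
      exact h1)
  obtain ⟨x, hx⟩ := hd.nonempty
  have hx1 := (hV x).mp x.2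
  refine ⟨x, hx1.1, fun i => ⟨fun h => ?_, fun h => h x hx1.1 hx1.2⟩⟩
  by_contra hi
  exact Set.mem_iInter.mp hx ⟨i, hi⟩ h

variable {u}

theorem ratio {k i : ℕ} (h : Z u k i) {v w : E} (hv : u v = v) (hk : co k v ≠ 0) (hw : u w = w) :
    co i w * co k v = co i v * co k w := by
  have := h (co k v • w - co k w • v) (by simp [hv, hw]) (by simp [mul_comm])
  simp only [map_sub, map_smul, smul_eq_mul] at this
  linarith

theorem Z_ne {k i : ℕ} (h : Z u k i) (hi : S u i) {v : E} (hv : u v = v) (hk : co k v ≠ 0) :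
    co i v ≠ 0 := by
  obtain ⟨w, hw, hi⟩ := hi
  intro h0
  have := ratio h hv hk hw
  rw [h0, zero_mul] at this
  exact mul_ne_zero hi hk this

theorem Z_symm {k i : ℕ} (h : Z u k i) (hi : S u i) : Z u i k := by
  intro w hw h0
  by_contra hk
  exact Z_ne h hi hw hk h0

theorem Z_trans {k i j : ℕ} (h : Z u k i) (h' : Z u i j) : Z u k j :=
  fun w hw h0 => h' w hw (h w hw h0)

theorem notS {i : ℕ} (hi : ¬ S u i) {w : E} (hw : u w = w) : co i w = 0 := by
  by_contra h; exact hi ⟨w, hw, h⟩

variable (huu : ∀ x, u (u x) = u x) (hn : ‖u‖ ≤ 1)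
include huu hn

open Classical in
theorem orthZ {k : ℕ} {v : E} (hv : u v = v) (hk : co k v ≠ 0) (w : E)
    (hw : ∀ i, ¬ S u i → co i w = 0) :
    ∑' i, (if Z u k i then Real.sign (co i v) * co i (w - u w) else 0) = 0 := by
  obtain ⟨x, hx, hxZ⟩ := gen u k
  have := orth (summ_co x) (summ_co v) (summ_co (w - u w)) (fun t s => by
    have h1 : u (x + t • (v + s • (w - u w))) = x + t • v := by simp [hx, hv, huu]
    have h2 := u.le_opNorm (x + t • (v + s • (w - u w)))
    have h3 := mul_le_of_le_one_left (norm_nonneg (x + t • (v + s • (w - u w)))) hn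
    have h4 := h2.trans h3
    rw [h1, norm_co, norm_co] at h4
    simpa only [map_add, map_smul, smul_eq_mul] using h4) (fun i hi hi' => by
      have hS : ¬ S u i := fun hS => Z_ne ((hxZ i).mp hi) hS hv hk hi'
      rw [map_sub, hw i hS, notS hS (huu w), sub_zero])
  simpa only [hxZ] using this

open Classical in
theorem KF {k a b : ℕ} {v : E} (hv : u v = v) (hk : co k v ≠ 0) (ha : S u a) (hb : S u b) :
    co k (u (y a b)) = 0 ↔ (if Z u k a then Real.sign (co a v) * ps a else 0) =
      (if Z u k b then Real.sign (co b v) * ps b else 0) := by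
  have h1 := orthZ huu hn hv hk (y a b) (fun i hi => by
    have h1 : i ≠ a := by rintro rfl; exact hi ha
    have h2 : i ≠ b := by rintro rfl; exact hi hb
    simp [co_y, h1, h2])
  have h2 : ∀ i, (if Z u k i then Real.sign (co i v) * co i (y a b - u (y a b)) else 0) =
      ((if i = a then (if Z u k a then Real.sign (co a v) * ps a else 0) else 0) -
        (if i = b then (if Z u k b then Real.sign (co b v) * ps b else 0) else 0)) -
        co k (u (y a b)) / co k v * (if Z u k i then |co i v| else 0) := by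
    intro i
    by_cases hi : Z u k i
    · have h3 := ratio hi hv hk (huu (y a b))
      have h4 : co i (u (y a b)) = co k (u (y a b)) / co k v * co i v := by
        field_simp; linarith
      have h5 : Real.sign (co i v) * co i v = |co i v| := by
        rcases lt_trichotomy (co i v) 0 with h | h | h
        · simp [Real.sign_of_neg h, abs_of_neg h]
        · simp [h]
        · simp [Real.sign_of_pos h, abs_of_pos h]
      rw [map_sub, co_y, h4, if_pos hi, if_pos hi, ← h5]
      by_cases hia : i = a <;> by_cases hib : i = b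
      · subst hia; subst hib; simp; ring
      · subst hia; simp [hib, hi]; ring
      · subst hib; simp [hia, hi]; ring
      · simp [hia, hib]; ring
    · by_cases hia : i = a <;> by_cases hib : i = b
      · subst hia; subst hib; simp [hi]
      · subst hia; simp [hib, hi]
      · subst hib; simp [hia, hi]
      · simp [hia, hib, hi]
  have hs : Summable fun i => if Z u k i then |co i v| else 0 :=
    Summable.of_nonneg_of_le (fun i => by split_ifs <;> simp) (fun i => by split_ifs <;> simp)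
      (summ_co v)
  have hpos : 0 < ∑' i, if Z u k i then |co i v| else 0 :=
    hs.tsum_pos (fun i => by split_ifs <;> simp) k (by
      have : Z u k k := fun _ _ h => h
      simpa [this] using hk)
  simp only [h2] at h1
  rw [((hasSum_ite_eq a _).sub (hasSum_ite_eq b _)).sub (hs.hasSum.mul_left _) |>.tsum_eq] at h1
  constructor
  · intro h; rw [h, zero_div, zero_mul] at h1; linarith
  · intro h
    rw [h, sub_self, zero_sub, neg_eq_zero, mul_eq_zero] at h1
    rcases h1 with h1 | h1
    · simpa [hk] using h1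
    · exact absurd h1 hpos.ne'

theorem KF0 {k a b : ℕ} (ha : S u a) (hb : S u b) (hka : ¬ Z u k a) (hkb : ¬ Z u k b) :
    co k (u (y a b)) = 0 := by
  by_cases hk : S u k
  · obtain ⟨v, hv, hk⟩ := hk
    rw [KF huu hn hv hk ha hb, if_neg hka, if_neg hkb]
  · exact notS hk (huu _)

theorem class0 (h0 : S u 0) {k i : ℕ} (hk : S u k) (hi : S u i) (hki : Z u k i) (hne : i ≠ k) :
    ∃ w : E, u w = w ∧ co 0 w ≠ 0 ∧ ∀ l, ¬ Z u 0 l → co l w = 0 := by
  have habs : ∀ (a : ℕ) (t : ℝ), t ≠ 0 → |Real.sign t * ps a| = ps a := by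
    intro a t ht
    rcases lt_or_gt_of_ne ht with h | h
    · simp [Real.sign_of_neg h, abs_of_pos (ps_pos a)]
    · simp [Real.sign_of_pos h, abs_of_pos (ps_pos a)]
  have hkk : ∀ k, Z u k k := fun _ _ _ h => h
  obtain ⟨v, hv, hkv⟩ := id hk
  have w1 : co k (u (y i k)) ≠ 0 := by
    rw [Ne, KF huu hn hv hkv hi hk, if_pos hki, if_pos (hkk k)]
    intro h
    have := congrArg abs h
    rw [habs _ _ hkv, habs _ _ (Z_ne hki hi hv hkv)] at this
    exact hne (ps_inj this)
  have w2 : ∀ l, ¬ Z u k l → co l (u (y i k)) = 0 := fun l hl =>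
    KF0 huu hn hi hk (fun h => hl (Z_trans hki (Z_symm h hi))) (fun h => hl (Z_symm h hk))
  by_cases hk0 : Z u k 0
  · exact ⟨u (y i k), huu _, Z_ne hk0 h0 (huu _) w1, fun l hl =>
      w2 l fun h => hl (Z_trans (Z_symm hk0 h0) h)⟩
  · obtain ⟨v0, hv0, h0v⟩ := id h0
    have hz : ¬ Z u 0 k := fun h => hk0 (Z_symm h hk)
    have w3 : co 0 (u (y 0 k)) ≠ 0 := by
      rw [Ne, KF huu hn hv0 h0v h0 hk, if_pos (hkk 0), if_neg hz]
      intro h
      have := congrArg abs h
      rw [habs _ _ h0v, abs_zero] at this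
      exact (ps_pos 0).ne' this
    have hF : u (co k (u (y i k)) • u (y 0 k) - co k (u (y 0 k)) • u (y i k)) =
        co k (u (y i k)) • u (y 0 k) - co k (u (y 0 k)) • u (y i k) := by simp [huu]
    refine ⟨_, hF, ?_, fun l hl => ?_⟩
    · simp [w2 0 hk0, w1, w3]
    · by_cases hkl : Z u k l
      · exact hkl _ hF (by simp [mul_comm])
      · simp [w2 l hkl, KF0 huu hn h0 hk (fun h => hl (Z_symm h h0)) (fun h => hkl (Z_symm h hk))]

variable (h1 : ‖u (y 0 1) - y 0 1‖ ≤ 1 / 10) (h2 : ‖u (y 0 2) - y 0 2‖ ≤ 1 / 10)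
include h1 h2

theorem S012 : S u 0 ∧ S u 1 ∧ S u 2 ∧ ¬ Z u 0 1 := by
  have a0 := abs_le.mp ((co_le 0 _).trans h1)
  have a1 := abs_le.mp ((co_le 1 _).trans h1)
  have b0 := abs_le.mp ((co_le 0 _).trans h2)
  have b1 := abs_le.mp ((co_le 1 _).trans h2)
  have b2 := abs_le.mp ((co_le 2 _).trans h2)
  simp only [map_sub, co_y, ps] at a0 a1 b0 b1 b2
  norm_num at a0 a1 b0 b1 b2
  refine ⟨⟨_, huu (y 0 1), by linarith⟩, ⟨_, huu (y 0 1), by linarith⟩,
    ⟨_, huu (y 0 2), by linarith⟩, fun h => ?_⟩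
  have := ratio h (huu (y 0 1)) (by linarith) (huu (y 0 2))
  nlinarith

theorem single_class {k i : ℕ} (hk : S u k) (hi : S u i) (hki : Z u k i) : i = k := by
  by_contra hne
  obtain ⟨s0, -, -, z01⟩ := S012 huu hn h1 h2
  obtain ⟨w, hw, hw0, hwl⟩ := class0 huu hn s0 hk hi hki hne
  set v := u (y 0 1)
  have a1 : ‖(((co 0 v / co 0 w) • w : E) : L) - lp.single 1 0 (ps 0)‖ ≤ ‖v - y 0 1‖ := by
    refine lp.norm_mono (by simp) (y := ((v - y 0 1 : E) : L)) fun l => ?_
    show |co l ((co 0 v / co 0 w) • w) - (lp.single 1 0 (ps 0) : L) l| ≤ |co l (v - y 0 1)|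
    by_cases hl : Z u 0 l
    · have b1 := ratio hl hw hw0 (huu (y 0 1))
      have b2 : l ≠ 1 := by rintro rfl; exact z01 hl
      have b3 : co l ((co 0 v / co 0 w) • w) = co l v := by
        rw [map_smul, smul_eq_mul]; field_simp; linarith
      rw [b3, map_sub, co_y]
      simp [b2, Pi.single_apply]
    · have b2 : l ≠ 0 := by rintro rfl; exact hl fun _ _ h => h
      simp [hwl l hl, b2]
  have a2 := φ_le ((((co 0 v / co 0 w) • w : E) : L) - lp.single 1 0 (ps 0)) 1 fun i _ => ph_le i
  have a3 : φ (((co 0 v / co 0 w) • w : E) : L) = 0 := ((co 0 v / co 0 w) • w : E).2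
  rw [map_sub, a3, φ_single, ph_ps, zero_sub, abs_neg, abs_one] at a2
  linarith

theorem fix_y {a b : ℕ} (ha : S u a) (hb : S u b) : u (y a b) = y a b := by
  classical
  have hw : ∀ i, ¬ S u i → co i (y a b) = 0 := fun i hi => by
    have h1 : i ≠ a := by rintro rfl; exact hi ha
    have h2 : i ≠ b := by rintro rfl; exact hi hb
    simp [co_y, h1, h2]
  refine co_ext fun k => ?_
  by_cases hk : S u k
  · obtain ⟨v, hv, hkv⟩ := id hk
    have := orthZ huu hn hv hkv (y a b) hw
    rw [tsum_eq_single k] at this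
    · rw [if_pos (show Z u k k from fun _ _ h => h), mul_eq_zero, Real.sign_eq_zero_iff, map_sub] at this
      rcases this with h | h
      · exact absurd h hkv
      · linarith
    · intro i hik
      split_ifs with hi
      · have : ¬ S u i := fun hS => hik (single_class huu hn h1 h2 hk hS hi)
        rw [notS this hv]; simp
      · rfl
  · rw [hw k hk, notS hk (huu _)]

theorem no_proj (hfin : FiniteDimensional ℝ (LinearMap.range (u : E →ₗ[ℝ] E))) : False := by
  obtain ⟨s0, s1, s2, -⟩ := S012 huu hn h1 h2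
  have hli : LinearIndependent ℝ fun a : {a // S u a ∧ a ≠ 0} =>
      (⟨y a.1 0, ⟨_, fix_y huu hn h1 h2 a.2.1 s0⟩⟩ : LinearMap.range (u : E →ₗ[ℝ] E)) := by
    rw [linearIndependent_iff']
    intro s g hg a ha
    have b1 := congrArg (fun x : LinearMap.range (u : E →ₗ[ℝ] E) => co a.1 x.1) hg
    simp only [Submodule.coe_sum, Submodule.coe_smul, map_sum, map_smul, co_y, smul_eq_mul,
      Submodule.coe_zero, map_zero] at b1
    rw [Finset.sum_eq_single a] at b1
    · simpa [a.2.2, (ps_pos _).ne'] using b1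
    · intro b _ hb
      have : a.1 ≠ b.1 := fun h => hb (Subtype.ext h.symm)
      simp [this, a.2.2]
    · intro h; exact absurd ha h
  have hfinS : {a | S u a ∧ a ≠ 0}.Finite := hli.finite
  obtain ⟨K0, hK0⟩ := hfinS.bddAbove
  set K := max K0 26 with hK
  have hSK : ∀ a, S u a → a ≤ K := by
    intro a ha
    by_cases h : a = 0
    · omega
    · exact (hK0 ⟨ha, h⟩).trans (le_max_left _ _)
  set q : L := (u (y (K + 1) 0) : L) + lp.single 1 0 (ps 0) with hq
  have hqφ : φ q = 1 := by
    have : φ (u (y (K + 1) 0) : L) = 0 := (u (y (K + 1) 0)).2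
    rw [hq, map_add, this, φ_single, ph_ps, zero_add]
  have hqi : ∀ i, S u i → ‖q‖ - 2 * |q i| ≤ ps (K + 1) := by
    intro i hi
    have b1 : y (K + 1) i = y (K + 1) 0 - y i 0 := by
      apply Subtype.ext; simp [y]
    have b2 : (u (y (K + 1) i) : L) = q - lp.single 1 i (ps i) := by
      rw [b1, map_sub, fix_y huu hn h1 h2 hi s0, hq]
      simp only [y, Submodule.coe_sub]
      abel
    have b3 : ‖u (y (K + 1) i)‖ ≤ ps (K + 1) + ps i := by
      refine ((u.le_opNorm _).trans (mul_le_of_le_one_left (norm_nonneg _) hn)).trans ?_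
      refine (norm_sub_le (lp.single 1 (K + 1) (ps (K + 1)) : L) _).trans ?_
      rw [norm_single, norm_single, abs_of_pos (ps_pos _), abs_of_pos (ps_pos _)]
    have b4 := norm_compl q {i}
    have b5 := norm_compl (q - lp.single 1 i (ps i)) {i}
    have b6 : q - lp.single 1 i (ps i) - ∑ j ∈ {i}, lp.single 1 j ((q - lp.single 1 i (ps i) : L) j)
        = q - ∑ j ∈ {i}, lp.single 1 j (q j) := by
      simp
    rw [b6, b4, ← b2] at b5
    have b7 : ‖(u (y (K + 1) i) : L)‖ ≤ ps (K + 1) + ps i := b3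
    rw [b2] at b5 b7
    simp only [Finset.sum_singleton, lp.coeFn_sub, Pi.sub_apply, lp.single_apply_self] at b5
    have b8 := abs_sub_abs_le_abs_sub (ps i) (q i)
    rw [abs_sub_comm, abs_of_pos (ps_pos i)] at b8
    linarith
  have c1 := norm_compl q {0, 1, 2}
  have c2 := φ_le (q - ∑ i ∈ {0, 1, 2}, lp.single 1 i (q i)) (ph K) fun i hi => by
    refine ph_mono.monotone (hSK i ?_)
    by_contra hS
    apply hi
    have e0 : i ≠ 0 := by rintro rfl; exact hS s0
    have e1 : i ≠ 1 := by rintro rfl; exact hS s1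
    have e2 : i ≠ 2 := by rintro rfl; exact hS s2
    have e3 : (u (y (K + 1) 0) : L) i = 0 := notS hS (huu _)
    simp [hq, e0, e1, e2, e3]
  rw [c1, map_sub, hqφ, map_sum] at c2
  simp only [φ_single] at c2
  rw [Finset.sum_insert (by simp), Finset.sum_pair (by simp), Finset.sum_insert (by simp),
    Finset.sum_pair (by simp)] at c2
  have d0 := hqi 0 s0
  have d1 := hqi 1 s1
  have d2 := hqi 2 s2
  have k1 : 3 / 4 ≤ ph K := by
    refine le_trans ?_ (ph_mono.monotone (le_max_right K0 26))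
    simp only [ph]
    norm_num
  have k2 : ph K * ps (K + 1) < 1 := by
    rw [← ph_ps (K + 1)]
    exact mul_lt_mul_of_pos_right (ph_mono (Nat.lt_succ_self K)) (ps_pos _)
  have f0 : ph 0 * q 0 ≤ 1 / 4 * |q 0| := by
    simp only [ph]; norm_num; linarith [le_abs_self (q 0), abs_nonneg (q 0)]
  have f1 : ph 1 * q 1 ≤ 1 / 4 * |q 1| := by
    simp only [ph]; norm_num; linarith [le_abs_self (q 1), abs_nonneg (q 1)]
  have f2 : ph 2 * q 2 ≤ 1 / 4 * |q 2| := by
    simp only [ph]; norm_num; linarith [le_abs_self (q 2), abs_nonneg (q 2)]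
  have g1 := (le_abs_self _).trans c2
  have g2 : ‖q‖ - (|q 0| + (|q 1| + |q 2|)) ≤ ps (K + 1) - (|q 0| + (|q 1| + |q 2|)) / 3 := by
    linarith
  have g3 := mul_le_mul_of_nonneg_left g2 (ph_pos K).le
  have g4 : 0 ≤ |q 0| + (|q 1| + |q 2|) := by positivity
  nlinarith

end

end Pool.Agent.H51.HypL1
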