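import Pool.Agent.H51.HypL1b

namespace Pool.Agent.H51.HypL1
open Filter Topology

/-- Enumeration skipping `K`. -/
def s (K j : ℕ) : ℕ := if j < K then j else j + 1

theorem s_ne (K j : ℕ) : s K j ≠ K := by unfold s; split_ifs <;> omega
theorem s_inj (K : ℕ) : Function.Injective (s K) := by
  intro a b; unfold s; split_ifs <;> omega
theorem s_range (K i : ℕ) (h : i ∉ Set.range (s K)) : i = K := by
  by_contra hne
  apply h
  by_cases hi : i < K
  · exact ⟨i, by simp [s, hi]⟩
  · exact ⟨i - 1, by unfold s; split_ifs <;> omega⟩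

/-- The basis. -/
noncomputable def f (K j : ℕ) : E := ph (s K j) • y (s K j) K

theorem co_f (K i j : ℕ) : co (s K i) (f K j) = if i = j then 1 else 0 := by
  rw [f, map_smul, co_y, if_neg (s_ne K i)]
  by_cases h : i = j
  · simp [h, ph_ps]
  · simp [h, (s_inj K).ne h]

theorem smul_f (K j : ℕ) (a : ℝ) : ((a • f K j : E) : L) =
    lp.single 1 (s K j) a - φ (lp.single 1 (s K j) a) • lp.single 1 K (ps K) := by
  rw [φ_single]
  simp only [f, y, smul_smul, Submodule.coe_smul, smul_sub, ← lp.single_smul, smul_eq_mul]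
  rw [mul_assoc, ph_ps, mul_one, mul_comm a]

/-- The partial sum projections. -/
noncomputable def P (K n : ℕ) : E →L[ℝ] E := ∑ j ∈ Finset.range n, (co (s K j)).smulRight (f K j)

theorem P_apply (K n : ℕ) (x : E) : P K n x = ∑ j ∈ Finset.range n, co (s K j) x • f K j := by
  simp [P, ContinuousLinearMap.sum_apply]

theorem P_sum (K n m : ℕ) (b : ℕ → ℝ) : P K n (∑ j ∈ Finset.range m, b j • f K j) =
    ∑ j ∈ Finset.range (min n m), b j • f K j := by
  rw [P_apply]
  simp only [map_sum, map_smul, co_f, smul_eq_mul, mul_ite, mul_one, mul_zero, Finset.sum_ite_eq,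
    ite_smul, zero_smul]
  rw [← Finset.sum_filter]
  congr 1
  ext j; simp

theorem P_norm (K n : ℕ) (x : E) : ‖P K n x‖ ≤ ps K * ‖x‖ := by
  set R : L := ∑ j ∈ Finset.range n, lp.single 1 (s K j) (co (s K j) x) with hR
  have h1 : (P K n x : L) = R - φ R • lp.single 1 K (ps K) := by
    rw [P_apply, Submodule.coe_sum, hR, map_sum, Finset.sum_smul, ← Finset.sum_sub_distrib]
    exact Finset.sum_congr rfl fun j _ => smul_f K j _
  have hK : K ∉ (Finset.range n).image (s K) := by
    simp only [Finset.mem_image, not_exists, not_and]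
    exact fun j _ => s_ne K j
  have h2 := norm_compl x (insert K ((Finset.range n).image (s K)))
  rw [Finset.sum_insert hK, Finset.sum_insert hK, Finset.sum_image (s_inj K).injOn,
    Finset.sum_image (s_inj K).injOn] at h2
  have h3 := φ_le ((x : L) - (lp.single 1 K ((x : L) K) + R)) 1 fun i _ => ph_le i
  have h4 : φ (x : L) = 0 := x.2
  have h2' : ‖(x : L) - (lp.single 1 K ((x : L) K) + R)‖ =
    ‖x‖ - (|(x : L) K| + ∑ j ∈ Finset.range n, |co (s K j) x|) := h2
  rw [map_sub, map_add, h4, φ_single, h2'] at h3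
  have h5 : ‖R‖ ≤ ∑ j ∈ Finset.range n, |co (s K j) x| :=
    (norm_sum_le _ _).trans (le_of_eq (Finset.sum_congr rfl fun j _ => norm_single _ _))
  have h6 : |φ R| ≤ ph K * |(x : L) K| + |0 - (ph K * (x : L) K + φ R)| := by
    have := abs_add_le (ph K * (x : L) K) (0 - (ph K * (x : L) K + φ R))
    rw [abs_mul, abs_of_pos (ph_pos K)] at this
    refine le_trans (le_of_eq ?_) this
    rw [← abs_neg]; congr 1; ring
  have h7 : ‖P K n x‖ ≤ ‖R‖ + |φ R| * ps K := by
    show ‖(P K n x : L)‖ ≤ _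
    rw [h1]
    refine (norm_sub_le _ _).trans (le_of_eq ?_)
    rw [norm_smul, norm_single, abs_of_pos (ps_pos K), Real.norm_eq_abs]
  have h8 := mul_le_mul_of_nonneg_right (h6.trans (add_le_add_right h3 _)) (ps_pos K).le
  have h9 := ph_ps K
  have h10 := one_le_ps K
  have h11 : 0 ≤ ∑ j ∈ Finset.range n, |co (s K j) x| := by positivity
  have h12 : (ph K * |(x : L) K|) * ps K = |(x : L) K| := by
    rw [mul_right_comm, h9, one_mul]
  nlinarith [abs_nonneg ((x : L) K)]

theorem P_tendsto (K : ℕ) (x : E) : Tendsto (fun n => P K n x) atTop (𝓝 x) := by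
  let T : L →L[ℝ] L := ContinuousLinearMap.id ℝ L - φ.smulRight (lp.single 1 K (ps K))
  have hT : ∀ w, T w = w - φ w • lp.single 1 K (ps K) := fun w => rfl
  have h1 := (lp.hasSum_single (E := fun _ : ℕ => ℝ) (by simp) (x : L)).mapL T
  have h4 : φ (x : L) = 0 := x.2
  rw [hT, h4, zero_smul, sub_zero, ← (s_inj K).hasSum_iff (fun i hi => by
    rw [s_range K i hi, hT, φ_single, ← lp.single_smul, smul_eq_mul, mul_right_comm, ph_ps,
      one_mul, sub_self])] at h1
  rw [tendsto_subtype_rng]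
  refine h1.tendsto_sum_nat.congr fun n => ?_
  rw [P_apply, Submodule.coe_sum]
  exact Finset.sum_congr rfl fun j _ => (smul_f K j _).symm

theorem P_comp (K n m : ℕ) : (P K n).comp (P K m) = P K (min n m) := by
  ext1 x
  rw [ContinuousLinearMap.comp_apply, P_apply K m, P_sum, P_apply]

theorem fin_range {u : E →L[ℝ] E} {n : ℕ} {g : ℕ → E} {c : E → ℕ → ℝ}
    (h : ∀ x, u x = ∑ j ∈ Finset.range n, c x j • g j) :
    FiniteDimensional ℝ (LinearMap.range (u : E →ₗ[ℝ] E)) := by
  haveI := FiniteDimensional.span_of_finite ℝ ((Finset.range n).finite_toSet.image g)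
  refine Submodule.finiteDimensional_of_le (S₂ := Submodule.span ℝ (g '' (Finset.range n))) ?_
  rintro _ ⟨x, rfl⟩
  show u x ∈ _
  rw [h]
  exact Submodule.sum_mem _ fun j hj => Submodule.smul_mem _ _
    (Submodule.subset_span ⟨j, hj, rfl⟩)

theorem P_fin (K n : ℕ) : FiniteDimensional ℝ (LinearMap.range (P K n : E →ₗ[ℝ] E)) :=
  fin_range (P_apply K n)

theorem P_opNorm (K n : ℕ) : ‖P K n‖ ≤ ps K :=
  ContinuousLinearMap.opNorm_le_bound _ (ps_pos K).le (P_norm K n)

theorem exists_ps (δ : ℝ) (hδ : 0 < δ) : ∃ K, ps K ≤ 1 + δ := by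
  obtain ⟨K, hK⟩ := exists_nat_gt (9 / δ)
  refine ⟨K, ?_⟩
  rw [div_lt_iff₀ hδ] at hK
  unfold ps
  rw [div_le_iff₀ (by positivity)]
  nlinarith

theorem no_seq (Q : ℕ → E →L[ℝ] E)
    (h1 : ∀ n, FiniteDimensional ℝ (LinearMap.range (Q n : E →ₗ[ℝ] E)))
    (h2 : ∀ n x, Q n (Q n x) = Q n x) (h3 : ∀ x : E, Tendsto (fun n => Q n x) atTop (𝓝 x))
    (h4 : ∀ n, ‖Q n‖ ≤ 1) : False := by
  obtain ⟨n, a, b⟩ := ((Metric.tendsto_nhds.mp (h3 (y 0 1)) (1 / 10) (by norm_num)).and
    (Metric.tendsto_nhds.mp (h3 (y 0 2)) (1 / 10) (by norm_num))).exists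
  rw [dist_eq_norm] at a b
  exact no_proj (h2 n) (h4 n) a.le b.le (h1 n)

instance : TopologicalSpace.SeparableSpace E := by
  rw [← TopologicalSpace.isSeparable_univ_iff]
  refine ((Set.countable_range (f 0)).isSeparable.span (R := ℝ)).closure.mono fun x _ => ?_
  refine mem_closure_of_tendsto (P_tendsto 0 x) (Eventually.of_forall fun n => ?_)
  rw [P_apply]
  exact Submodule.sum_mem _ fun j _ => Submodule.smul_mem _ _ (Submodule.subset_span ⟨j, rfl⟩)

theorem pap (δ : ℝ) (hδ : 0 < δ) (Q : Set E) (hQ : IsCompact Q) (ε : ℝ) (hε : 0 < ε) :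
    ∃ u : E →L[ℝ] E, FiniteDimensional ℝ (LinearMap.range (u : E →ₗ[ℝ] E)) ∧
      u.comp u = u ∧ ‖u‖ ≤ 1 + δ ∧ ∀ x ∈ Q, ‖u x - x‖ ≤ ε := by
  obtain ⟨K, hK⟩ := exists_ps δ hδ
  have hη : 0 < ε / (3 + δ) := by positivity
  obtain ⟨t, -, ht, hcov⟩ := hQ.finite_cover_balls hη
  have := (ht.eventually_all (l := atTop) (p := fun c n => dist (P K n c) c < ε / (3 + δ))).mpr
    fun c _ => Metric.tendsto_nhds.mp (P_tendsto K c) _ hη
  obtain ⟨n, hn⟩ := this.exists
  refine ⟨P K n, P_fin K n, by rw [P_comp, min_self], (P_opNorm K n).trans hK, fun x hx => ?_⟩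
  obtain ⟨c, hc, hxc⟩ := Set.mem_iUnion₂.mp (hcov hx)
  have a1 := hn c hc
  rw [Metric.mem_ball, dist_eq_norm] at hxc
  rw [dist_eq_norm] at a1
  have a2 : P K n x - x = P K n (x - c) + (P K n c - c) - (x - c) := by rw [map_sub]; abel
  have a3 : ‖P K n (x - c)‖ ≤ (1 + δ) * (ε / (3 + δ)) :=
    (P_norm K n _).trans (mul_le_mul hK hxc.le (norm_nonneg _) (by positivity))
  have a4 : (3 + δ) * (ε / (3 + δ)) = ε := by field_simp
  rw [a2]
  refine (norm_sub_le _ _).trans ((add_le_add_left (norm_add_le _ _) _).trans ?_)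
  linarith

theorem basis_f (K : ℕ) (x : E) : ∃! a : ℕ → ℝ,
    Tendsto (fun n : ℕ => ∑ i ∈ Finset.range n, a i • f K i) atTop (𝓝 x) := by
  refine ⟨fun j => co (s K j) x, by simpa only [P_apply] using P_tendsto K x, fun a ha => ?_⟩
  funext j
  have h1 := ((co (s K j)).continuous.tendsto x).comp ha
  refine tendsto_nhds_unique (tendsto_const_nhds.congr' ?_) h1
  filter_upwards [eventually_gt_atTop j] with n hn
  simp [co_f, hn]

theorem no_basis (e : ℕ → E) (he : ∀ x : E, ∃! a : ℕ → ℝ,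
    Tendsto (fun n : ℕ => ∑ i ∈ Finset.range n, a i • e i) atTop (𝓝 x))
    (h : ∀ (a : ℕ → ℝ) (m n : ℕ), m ≤ n →
      ‖∑ i ∈ Finset.range m, a i • e i‖ ≤ ‖∑ i ∈ Finset.range n, a i • e i‖) : False := by
  choose c hc hu using he
  have hadd : ∀ x w, c (x + w) = c x + c w := fun x w => (hu _ _ (by
    simpa only [Pi.add_apply, add_smul, Finset.sum_add_distrib] using (hc x).add (hc w))).symm
  have hsmul : ∀ (t : ℝ) x, c (t • x) = t • c x := fun t x => (hu _ _ (by
    simpa only [Pi.smul_apply, smul_eq_mul, mul_smul, ← Finset.smul_sum]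
      using (hc x).const_smul t)).symm
  have hb : ∀ m x, ‖∑ i ∈ Finset.range m, c x i • e i‖ ≤ 1 * ‖x‖ := fun m x => by
    rw [one_mul]
    exact ge_of_tendsto (hc x).norm ((eventually_ge_atTop m).mono fun n hn => h _ m n hn)
  let Q : ℕ → E →L[ℝ] E := fun m => LinearMap.mkContinuous
    { toFun := fun x => ∑ i ∈ Finset.range m, c x i • e i
      map_add' := fun x w => by simp [hadd, add_smul, Finset.sum_add_distrib]
      map_smul' := fun t x => by simp [hsmul, mul_smul, Finset.smul_sum] } 1 (hb m)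
  have hQ : ∀ m x, Q m x = ∑ i ∈ Finset.range m, c x i • e i := fun _ _ => rfl
  refine no_seq Q (fun m => fin_range (hQ m)) (fun m x => ?_) hc
    (fun m => LinearMap.mkContinuous_norm_le _ zero_le_one _)
  have : c (Q m x) = fun i => if i < m then c x i else 0 := (hu _ _ (by
    refine tendsto_const_nhds.congr' ?_
    filter_upwards [eventually_ge_atTop m] with n hn
    simp only [ite_smul, zero_smul]
    rw [← Finset.sum_filter, hQ]
    congr 1
    ext j; simp; omega)).symm
  rw [hQ m (Q m x), this, hQ]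
  exact Finset.sum_congr rfl fun i hi => by simp [Finset.mem_range.mp hi]

end Pool.Agent.H51.HypL1
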