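import Mathlib

set_option autoImplicit false

namespace Pool.Agent.H51.IdxA

open Filter Topology

variable {𝕜 : Type} [RCLike 𝕜] {E : Type} [NormedAddCommGroup E] [NormedSpace 𝕜 E]

structure Bio (e : ℕ → E) (f : ℕ → StrongDual 𝕜 E) (M : ℝ) : Prop where
  one_le : 1 ≤ M
  ne : ∀ j, ‖e j‖ ≤ 1
  nf : ∀ j x, ‖f j x‖ ≤ M * ‖x‖
  ort : ∀ i j, f i (e j) = if i = j then 1 else 0

noncomputable def vt (e : ℕ → E) (t : 𝕜) (j : ℕ) : E :=
  e j + t • e (j + 1) + (1 / 2 : 𝕜) • e (j + 2)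

def K (e : ℕ → E) (f : ℕ → StrongDual 𝕜 E) (M : ℝ) : Set (StrongDual 𝕜 E) :=
  {g | (∃ j, g = f j) ∨ ((∀ x, ‖g x‖ ≤ 2 * M * ‖x‖) ∧ (∀ j, ‖g (e j)‖ ≤ 2 / 3) ∧
    ∀ j, ∀ t : 𝕜, (t = 1 ∨ t = -1) → ‖g (vt e t j)‖ ≤ 1)}

def Bd (e : ℕ → E) (f : ℕ → StrongDual 𝕜 E) (M : ℝ) (x : E) (C : ℝ) : Prop :=
  ∀ g ∈ K e f M, ‖g x‖ ≤ C

lemma align (a b : 𝕜) : ∃ l : 𝕜, ‖l‖ = 1 ∧ ‖a + l * b‖ = ‖a‖ + ‖b‖ := by
  obtain ⟨c, hc, hca⟩ := RCLike.exists_norm_eq_mul_self a
  obtain ⟨d, hd, hdb⟩ := RCLike.exists_norm_eq_mul_self b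
  have hc0 : c ≠ 0 := by intro h; rw [h] at hc; simp at hc
  refine ⟨d / c, by rw [norm_div, hc, hd]; norm_num, ?_⟩
  have : ‖a + d / c * b‖ = ‖c * (a + d / c * b)‖ := by rw [norm_mul, hc, one_mul]
  rw [this]
  have e1 : c * (a + d / c * b) = ((‖a‖ + ‖b‖ : ℝ) : 𝕜) := by
    have : c * (a + d / c * b) = c * a + d * b := by field_simp
    rw [this, ← hca, ← hdb, RCLike.ofReal_add]
  rw [e1, RCLike.norm_ofReal, abs_of_nonneg (by positivity)]

variable {e : ℕ → E} {f : ℕ → StrongDual 𝕜 E} {M : ℝ}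

lemma norm_t {t : 𝕜} (ht : t = 1 ∨ t = -1) : ‖t‖ = 1 := by rcases ht with rfl | rfl <;> simp

lemma Bio.norm_vt (h : Bio e f M) {t : 𝕜} (ht : t = 1 ∨ t = -1) (j : ℕ) : ‖vt e t j‖ ≤ 5 / 2 := by
  unfold vt
  refine (norm_add_le _ _).trans ?_
  have := norm_add_le (e j) (t • e (j + 1))
  rw [norm_smul, norm_t ht] at this
  rw [norm_smul]
  have a1 := h.ne j; have a2 := h.ne (j + 1); have a3 := h.ne (j + 2)
  have : ‖(1 / 2 : 𝕜)‖ = 1 / 2 := by simp
  rw [this]; linarith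

lemma Bio.f_vt (h : Bio e f M) (t : 𝕜) (i j : ℕ) : f i (vt e t j) =
    if i = j then 1 else if i = j + 1 then t else if i = j + 2 then 1 / 2 else 0 := by
  unfold vt
  rw [map_add, map_add, map_smul, map_smul, h.ort, h.ort, h.ort]
  split_ifs <;> first | omega | simp

lemma K_bound (h : Bio e f M) {g : StrongDual 𝕜 E} (hg : g ∈ K e f M) (x : E) :
    ‖g x‖ ≤ 2 * M * ‖x‖ := by
  rcases hg with ⟨j, rfl⟩ | hg
  · have := h.nf j x; have := h.one_le; nlinarith [norm_nonneg x]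
  · exact hg.1 x

lemma Bio.lower (h : Bio e f M) (x : E) (C : ℝ) (hx : Bd e f M x C) : 2 / 5 * ‖x‖ ≤ C := by
  obtain ⟨g, hg1, hg2⟩ := exists_dual_vector'' 𝕜 x
  have hb : ∀ y, ‖((2 / 5 : 𝕜) • g) y‖ ≤ 2 / 5 * ‖y‖ := by
    intro y
    rw [ContinuousLinearMap.smul_apply, norm_smul]
    have : ‖(2 / 5 : 𝕜)‖ = 2 / 5 := by simp
    rw [this]
    have := g.le_opNorm y
    nlinarith [norm_nonneg y]
  have hm : (2 / 5 : 𝕜) • g ∈ K e f M := by
    refine Or.inr ⟨fun y => ?_, fun j => ?_, fun j t ht => ?_⟩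
    · have := hb y; have := h.one_le; nlinarith [norm_nonneg y]
    · have := hb (e j); have := h.ne j; linarith
    · have := hb (vt e t j); have := h.norm_vt ht j; linarith
  have := hx _ hm
  rw [ContinuousLinearMap.smul_apply, norm_smul, hg2] at this
  simpa using this

lemma Bio.facet (h : Bio e f M) (j : ℕ) (x : E) (hx : M * ‖x - e j‖ ≤ 1 / 10) :
    Bd e f M x ‖f j x‖ := by
  have h1 : 9 / 10 ≤ ‖f j x‖ := by
    have a1 := h.nf j (x - e j)
    rw [map_sub, h.ort, if_pos rfl] at a1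
    have a2 := norm_sub_norm_le (1 : 𝕜) (f j x)
    rw [norm_one, norm_sub_rev] at a2
    linarith
  intro g hg
  rcases hg with ⟨i, rfl⟩ | hg
  · by_cases hi : i = j
    · rw [hi]
    · have a1 := h.nf i (x - e j)
      rw [map_sub, h.ort, if_neg hi, sub_zero] at a1
      linarith
  · have a1 := hg.1 (x - e j)
    have a2 := hg.2.1 j
    have a3 : g x = g (x - e j) + g (e j) := by rw [map_sub]; ring
    rw [a3]
    refine (norm_add_le _ _).trans ?_
    nlinarith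

structure Con (e : ℕ → E) (f : ℕ → StrongDual 𝕜 E) (M ε : ℝ) (Q : E →ₗ[𝕜] E) : Prop where
  idem : ∀ x, Q (Q x) = Q x
  bd : ∀ x C, Bd e f M x C → Bd e f M (Q x) ((1 + ε) * C)

lemma facet_step (h : Bio e f M) {ε : ℝ} (hε : 0 ≤ ε) {Q : E →ₗ[𝕜] E} (hQ : Con e f M ε Q) (j : ℕ)
    (hj : M * ‖Q (e j) - e j‖ ≤ 1 / 20) (x : E) :
    ‖f j (Q x) - f j x‖ ≤ 120 * M ^ 2 * ε * ‖x‖ := by
  have hM := h.one_le
  set y := Q (e j) with hy
  have hQy : Q y = y := hQ.idem _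
  set a := f j y with ha
  have ha1 : ‖a - 1‖ ≤ 1 / 20 := by
    have a1 := h.nf j (y - e j)
    rw [map_sub, h.ort, if_pos rfl] at a1
    linarith
  have ha2 : 19 / 20 ≤ ‖a‖ := by
    have a2 := norm_sub_norm_le (1 : 𝕜) a
    rw [norm_one, norm_sub_rev] at a2
    linarith
  have ha3 : ‖a‖ ≤ 21 / 20 := by
    have a2 := norm_sub_norm_le a (1 : 𝕜)
    rw [norm_one] at a2
    linarith
  have hsm : ∀ z, f j z = 0 → M * ‖z‖ ≤ 1 / 20 → ‖f j (Q z)‖ ≤ 2 * ε := by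
    intro z hz1 hz2
    obtain ⟨l, hl1, hl2⟩ := align a (f j (Q z))
    have b1 := h.facet j (y + l • z) (by
      have : y + l • z - e j = (y - e j) + l • z := by abel
      rw [this]
      have := norm_add_le (y - e j) (l • z)
      rw [norm_smul, hl1, one_mul] at this
      nlinarith)
    have b2 := hQ.bd _ _ b1 (f j) (Or.inl ⟨j, rfl⟩)
    simp only [map_add, map_smul, hQy, hz1, smul_eq_mul, mul_zero, add_zero] at b2
    rw [← ha, hl2] at b2
    nlinarith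
  have hker : ∀ z, f j z = 0 → ‖f j (Q z)‖ ≤ 40 * M * ε * ‖z‖ := by
    intro z hz
    by_cases hz0 : z = 0
    · simp [hz0]
    have hn : 0 < ‖z‖ := norm_pos_iff.2 hz0
    set r : ℝ := 1 / (20 * M * ‖z‖) with hr
    have hr0 : 0 < r := by positivity
    have b1 := hsm ((r : 𝕜) • z) (by rw [map_smul, hz, smul_zero]) (by
      rw [norm_smul, RCLike.norm_ofReal, abs_of_pos hr0, hr]
      apply le_of_eq; field_simp)
    rw [map_smul, map_smul, norm_smul, RCLike.norm_ofReal, abs_of_pos hr0, hr, div_mul_eq_mul_div,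
      div_le_iff₀ (by positivity)] at b1
    nlinarith
  have ha0 : a ≠ 0 := by intro h0; rw [h0] at ha2; norm_num at ha2
  have c1 := hker (x - (f j x / a) • y) (by
    rw [map_sub, map_smul, ← ha, smul_eq_mul, div_mul_cancel₀ _ ha0, sub_self])
  rw [map_sub, map_smul, hQy, map_sub, map_smul, ← ha, smul_eq_mul, div_mul_cancel₀ _ ha0] at c1
  have c2 : ‖x - (f j x / a) • y‖ ≤ 3 * M * ‖x‖ := by
    refine (norm_sub_le _ _).trans ?_
    rw [norm_smul, norm_div]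
    have d1 := h.nf j x
    have d2 : ‖y‖ ≤ 21 / 20 := by
      have := norm_sub_norm_le y (e j)
      have := h.ne j
      nlinarith [norm_nonneg (y - e j)]
    have d3 : ‖f j x‖ / ‖a‖ ≤ 20 / 19 * (M * ‖x‖) := by
      rw [div_le_iff₀ (by linarith)]
      nlinarith [mul_nonneg (by linarith : (0 : ℝ) ≤ M) (norm_nonneg x)]
    have d4 : ‖f j x‖ / ‖a‖ * ‖y‖ ≤ 20 / 19 * (M * ‖x‖) * (21 / 20) :=
      mul_le_mul d3 d2 (norm_nonneg _) (by positivity)
    nlinarith [norm_nonneg x]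
  refine c1.trans ?_
  have : 0 ≤ 40 * M * ε := by positivity
  nlinarith [mul_le_mul_of_nonneg_left c2 this]

lemma Bio.bd_vt (h : Bio e f M) {t : 𝕜} (ht : t = 1 ∨ t = -1) (j : ℕ) : Bd e f M (vt e t j) 1 := by
  intro g hg
  rcases hg with ⟨i, rfl⟩ | hg
  · rw [h.f_vt]
    split_ifs
    · simp
    · rw [norm_t ht]
    · simp; norm_num
    · simp
  · exact hg.2.2 j t ht

lemma vertex_step (h : Bio e f M) {ε : ℝ} (hε : 0 ≤ ε) {Q : E →ₗ[𝕜] E} (hQ : Con e f M ε Q) (j : ℕ)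
    (hj : M * ‖Q (e j) - e j‖ ≤ 1 / 20) (hj1 : M * ‖Q (e (j + 1)) - e (j + 1)‖ ≤ 1 / 20)
    {t : 𝕜} (ht : t = 1 ∨ t = -1) :
    ‖Q (vt e t j) - vt e t j‖ ≤ 25000 * M ^ 3 * ε := by
  have hM := h.one_le
  set v := vt e t j with hv
  have hvn : ‖v‖ ≤ 5 / 2 := h.norm_vt ht j
  set F : StrongDual 𝕜 E := f j + t • f (j + 1) with hF
  have hFap : ∀ x, F x = f j x + t * f (j + 1) x := fun x => by simp [hF]
  have hFn : ∀ x, ‖F x‖ ≤ 2 * M * ‖x‖ := by
    intro x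
    rw [hFap]
    refine (norm_add_le _ _).trans ?_
    rw [norm_mul, norm_t ht]
    have := h.nf j x; have := h.nf (j + 1) x; linarith
  have hFv : F v = 2 := by
    rw [hFap, hv, h.f_vt, h.f_vt, if_pos rfl, if_neg (by omega), if_pos rfl]
    rcases ht with rfl | rfl <;> norm_num
  have hFe : ∀ i, ‖F (e i)‖ ≤ 1 := by
    intro i
    rw [hFap, h.ort, h.ort]
    split_ifs <;> first | omega | simp [norm_t ht]
  have hFo : ∀ i, ∀ u : 𝕜, (u = 1 ∨ u = -1) → vt e u i = v ∨ ‖F (vt e u i)‖ ≤ 3 / 2 := by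
    intro i u hu
    by_cases hi : i = j
    · subst hi
      by_cases hut : u = t
      · left; rw [hut]
      · right
        rw [hFap, h.f_vt, h.f_vt, if_pos rfl, if_neg (by omega), if_pos rfl]
        rcases ht with rfl | rfl <;> rcases hu with rfl | rfl <;>
          first | exact absurd rfl hut | norm_num
    · right
      rw [hFap]
      refine (norm_add_le _ _).trans ?_
      rw [norm_mul, norm_t ht, one_mul, h.f_vt, h.f_vt]
      have h12 : ‖(1 / 2 : 𝕜)‖ = 1 / 2 := by simp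
      split_ifs <;> first | omega | (simp only [norm_t hu, h12, norm_one, norm_zero]; norm_num)
  have hσ : ‖F (Q v) - 2‖ ≤ 600 * M ^ 2 * ε := by
    have a1 := facet_step h hε hQ j hj v
    have a2 := facet_step h hε hQ (j + 1) hj1 v
    have e1 : F (Q v) - 2 = (f j (Q v) - f j v) + t * (f (j + 1) (Q v) - f (j + 1) v) := by
      rw [← hFv, hFap, hFap]; ring
    rw [e1]
    refine (norm_add_le _ _).trans ?_
    rw [norm_mul, norm_t ht]
    have : 0 ≤ 120 * M ^ 2 * ε := by positivity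
    nlinarith [mul_le_mul_of_nonneg_left hvn this]
  have hz := hQ.bd _ _ (h.bd_vt ht j)
  rw [← hv, mul_one] at hz
  set z := Q v with hzz
  set w := z - (F z / 2) • v with hw
  have hFw : F w = 0 := by rw [hw, map_sub, map_smul, hFv, smul_eq_mul]; ring
  obtain ⟨g0, hg1, hg2⟩ := exists_dual_vector'' 𝕜 w
  set g : StrongDual 𝕜 E := g0 - (g0 v / 2) • F with hg
  have hgap : ∀ x, g x = g0 x - g0 v / 2 * F x := fun x => by simp [hg]
  have hg0 : ∀ x, ‖g0 x‖ ≤ ‖x‖ := fun x => by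
    have := g0.le_opNorm x; nlinarith [norm_nonneg x]
  have hgn : ∀ x, ‖g x‖ ≤ 4 * M * ‖x‖ := by
    intro x
    rw [hgap]
    refine (norm_sub_le _ _).trans ?_
    rw [norm_mul, norm_div]
    have h2 : ‖(2 : 𝕜)‖ = 2 := by simp
    rw [h2]
    have a1 := hg0 x; have a2 := (hg0 v).trans hvn; have a3 := hFn x
    have a4 : ‖g0 v‖ / 2 * ‖F x‖ ≤ 5 / 4 * (2 * M * ‖x‖) :=
      mul_le_mul (by linarith) a3 (norm_nonneg _) (by norm_num)
    nlinarith [norm_nonneg x]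
  have hgv : g v = 0 := by rw [hgap, hFv]; ring
  have hgz : g z = (‖w‖ : 𝕜) := by
    have : z = w + (F z / 2) • v := by rw [hw]; abel
    rw [this, map_add, map_smul, hgv, smul_zero, add_zero, hgap, hFw, mul_zero, sub_zero, hg2]
  set r : ℝ := 1 / (40 * M) with hr
  have hr0 : 0 < r := by positivity
  have hrM : r * M = 1 / 40 := by rw [hr]; field_simp
  obtain ⟨l, hl1, hl2⟩ := align (F z) ((r : 𝕜) * g z)
  set G : StrongDual 𝕜 E := (1 / 2 : 𝕜) • (F + (l * r) • g) with hG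
  have hGap : ∀ x, ‖G x‖ = 1 / 2 * ‖F x + l * (r * g x)‖ := by
    intro x
    have : G x = 1 / 2 * (F x + l * (r * g x)) := by simp [hG]; ring
    rw [this, norm_mul]; simp
  have hGle : ∀ x, ‖G x‖ ≤ 1 / 2 * (‖F x‖ + 1 / 10 * ‖x‖) := by
    intro x
    rw [hGap]
    have a1 := norm_add_le (F x) (l * (r * g x))
    rw [norm_mul, norm_mul, hl1, RCLike.norm_ofReal, abs_of_pos hr0] at a1
    have a2 := mul_le_mul_of_nonneg_left (hgn x) hr0.le
    have a3 : r * (4 * M * ‖x‖) = 1 / 10 * ‖x‖ := by linear_combination 4 * ‖x‖ * hrM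
    linarith
  have hGm : G ∈ K e f M := by
    refine Or.inr ⟨fun x => ?_, fun i => ?_, fun i u hu => ?_⟩
    · have := hGle x; have := hFn x; nlinarith [norm_nonneg x]
    · have := hGle (e i); have := hFe i; have := h.ne i; linarith
    · rcases hFo i u hu with h1 | h1
      · rw [h1, hGap, hgv, hFv]; simp
      · have := hGle (vt e u i); have := h.norm_vt hu i; linarith
  have b1 := hz G hGm
  rw [hGap, hl2, hgz, norm_mul, RCLike.norm_ofReal, RCLike.norm_ofReal, abs_of_pos hr0,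
    abs_norm] at b1
  have b2 : 2 - 600 * M ^ 2 * ε ≤ ‖F z‖ := by
    have a2 := norm_sub_norm_le (2 : 𝕜) (F z)
    have h2 : ‖(2 : 𝕜)‖ = 2 := by simp
    rw [h2, norm_sub_rev] at a2
    linarith
  have b3 : ‖w‖ ≤ 40 * M * (2 * ε + 600 * M ^ 2 * ε) := by
    have c1 : r * ‖w‖ ≤ 2 * ε + 600 * M ^ 2 * ε := by linarith
    have c2 : ‖w‖ = 40 * M * (r * ‖w‖) := by linear_combination (-40) * ‖w‖ * hrM
    rw [c2]
    exact mul_le_mul_of_nonneg_left c1 (by positivity)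
  have e2 : z - v = w + ((F z - 2) / 2) • v := by
    rw [hw, sub_div, sub_smul, div_self (two_ne_zero), one_smul]; abel
  rw [e2]
  refine (norm_add_le _ _).trans ?_
  rw [norm_smul, norm_div]
  have h2 : ‖(2 : 𝕜)‖ = 2 := by simp
  rw [h2]
  have b4 : ‖F z - 2‖ / 2 * ‖v‖ ≤ 600 * M ^ 2 * ε / 2 * (5 / 2) :=
    mul_le_mul (by linarith) hvn (norm_nonneg _) (by positivity)
  have m1 : M * ε ≤ M ^ 3 * ε := mul_le_mul_of_nonneg_right (by nlinarith) hε
  have m2 : M ^ 2 * ε ≤ M ^ 3 * ε := mul_le_mul_of_nonneg_right (by nlinarith) hε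
  have m3 : 0 ≤ M ^ 3 * ε := by positivity
  nlinarith

lemma all_close (h : Bio e f M) {Q : E →ₗ[𝕜] E} (hQ : Con e f M (1 / (2000000 * M ^ 4)) Q)
    (h0 : ∀ j, j < 3 → M * ‖Q (e j) - e j‖ ≤ 1 / 20) (j : ℕ) : M * ‖Q (e j) - e j‖ ≤ 1 / 20 := by
  have hM := h.one_le
  induction j using Nat.strong_induction_on with
  | _ j ih =>
    by_cases hj : j < 3
    · exact h0 j hj
    obtain ⟨i, rfl⟩ : ∃ i, j = i + 3 := ⟨j - 3, by omega⟩
    have hε : (0 : ℝ) ≤ 1 / (2000000 * M ^ 4) := by positivity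
    have a1 := vertex_step h hε hQ i (ih i (by omega)) (ih (i + 1) (by omega)) (Or.inl rfl)
    have a2 := vertex_step h hε hQ i (ih i (by omega)) (ih (i + 1) (by omega)) (Or.inr rfl)
    have a3 := vertex_step h hε hQ (i + 1) (ih (i + 1) (by omega)) (ih (i + 2) (by omega))
      (Or.inl rfl)
    have a4 := vertex_step h hε hQ (i + 1) (ih (i + 1) (by omega)) (ih (i + 2) (by omega))
      (Or.inr rfl)
    have e1 : e (i + 3) = vt e (1 : 𝕜) (i + 1) + vt e (-1 : 𝕜) (i + 1) -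
        (vt e (1 : 𝕜) i - vt e (-1 : 𝕜) i) := by
      unfold vt
      have : e (i + 3) = (1 / 2 : 𝕜) • e (i + 1 + 2) + (1 / 2 : 𝕜) • e (i + 1 + 2) := by
        rw [← add_smul]; norm_num
      conv_lhs => rw [this]
      simp only [one_smul, neg_smul]
      abel
    have e2 : Q (e (i + 3)) - e (i + 3) =
        (Q (vt e (1 : 𝕜) (i + 1)) - vt e (1 : 𝕜) (i + 1)) +
        (Q (vt e (-1 : 𝕜) (i + 1)) - vt e (-1 : 𝕜) (i + 1)) -
        ((Q (vt e (1 : 𝕜) i) - vt e (1 : 𝕜) i) - (Q (vt e (-1 : 𝕜) i) - vt e (-1 : 𝕜) i)) := by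
      rw [e1, map_sub, map_add, map_sub]; abel
    have e3 : ‖Q (e (i + 3)) - e (i + 3)‖ ≤ 4 * (25000 * M ^ 3 * (1 / (2000000 * M ^ 4))) := by
      rw [e2]
      refine (norm_sub_le _ _).trans ?_
      have := norm_add_le (Q (vt e (1 : 𝕜) (i + 1)) - vt e (1 : 𝕜) (i + 1))
        (Q (vt e (-1 : 𝕜) (i + 1)) - vt e (-1 : 𝕜) (i + 1))
      have := norm_sub_le (Q (vt e (1 : 𝕜) i) - vt e (1 : 𝕜) i)
        (Q (vt e (-1 : 𝕜) i) - vt e (-1 : 𝕜) i)
      linarith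
    have e4 : M * (4 * (25000 * M ^ 3 * (1 / (2000000 * M ^ 4)))) = 1 / 20 := by
      field_simp; norm_num
    rw [← e4]
    exact mul_le_mul_of_nonneg_left e3 (by linarith)

lemma no_fin (h : Bio e f M) {Q : E →ₗ[𝕜] E} (hf : FiniteDimensional 𝕜 (LinearMap.range Q))
    (h0 : ∀ j, M * ‖Q (e j) - e j‖ ≤ 1 / 20) : False := by
  have hM := h.one_le
  haveI := FiniteDimensional.proper_rclike 𝕜 (LinearMap.range Q)
  let x : ℕ → LinearMap.range Q := fun j => ⟨Q (e j), e j, rfl⟩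
  have hb : ∀ j, x j ∈ Metric.closedBall (0 : LinearMap.range Q) 2 := by
    intro j
    rw [mem_closedBall_zero_iff]
    change ‖Q (e j)‖ ≤ 2
    have := norm_sub_norm_le (Q (e j)) (e j)
    have := h.ne j
    have := h0 j
    nlinarith [norm_nonneg (Q (e j) - e j)]
  obtain ⟨a, _, φ, hφ, hlim⟩ := tendsto_subseq_of_bounded Metric.isBounded_closedBall hb
  have hc := Metric.cauchySeq_iff.1 hlim.cauchySeq (1 / (20 * M)) (by positivity)
  obtain ⟨N, hN⟩ := hc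
  have h1 := hN N le_rfl (N + 1) (by omega)
  rw [dist_eq_norm] at h1
  change ‖Q (e (φ N)) - Q (e (φ (N + 1)))‖ < _ at h1
  rw [lt_div_iff₀ (by positivity)] at h1
  have h2 := h.nf (φ N) (e (φ N) - e (φ (N + 1)))
  have h3 : φ N ≠ φ (N + 1) := (hφ (Nat.lt_succ_self N)).ne
  rw [map_sub, h.ort, h.ort, if_pos rfl, if_neg h3, sub_zero, norm_one] at h2
  have e1 : e (φ N) - e (φ (N + 1)) = (Q (e (φ N)) - Q (e (φ (N + 1)))) - (Q (e (φ N)) - e (φ N))
      + (Q (e (φ (N + 1))) - e (φ (N + 1))) := by abel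
  have h4 := norm_add_le ((Q (e (φ N)) - Q (e (φ (N + 1)))) - (Q (e (φ N)) - e (φ N)))
    (Q (e (φ (N + 1))) - e (φ (N + 1)))
  have h5 := norm_sub_le (Q (e (φ N)) - Q (e (φ (N + 1)))) (Q (e (φ N)) - e (φ N))
  rw [← e1] at h4
  have h6 := h0 (φ N)
  have h7 := h0 (φ (N + 1))
  have h8 := mul_le_mul_of_nonneg_left (h4.trans (add_le_add_left h5 _)) (by linarith : (0 : ℝ) ≤ M)
  nlinarith

noncomputable def T0 (h : Bio e f M) (x : E) : BoundedContinuousFunction (K e f M) 𝕜 :=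
  BoundedContinuousFunction.ofNormedAddCommGroup (fun g : K e f M => (g : StrongDual 𝕜 E) x)
    ((ContinuousLinearMap.apply 𝕜 𝕜 x).continuous.comp continuous_subtype_val) (2 * M * ‖x‖)
    (fun g => K_bound h g.2 x)

lemma T0_ap (h : Bio e f M) (x : E) (g : K e f M) : T0 h x g = (g : StrongDual 𝕜 E) x := rfl

noncomputable def T (h : Bio e f M) : E →ₗ[𝕜] BoundedContinuousFunction (K e f M) 𝕜 where
  toFun := T0 h
  map_add' := fun x y => by ext k; simp [T0_ap]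
  map_smul' := fun c x => by ext k; simp [T0_ap]

noncomputable def N (h : Bio e f M) : Seminorm 𝕜 E :=
  (normSeminorm 𝕜 (BoundedContinuousFunction (K e f M) 𝕜)).comp (T h)

lemma N_bd (h : Bio e f M) (x : E) : Bd e f M x (N h x) := fun g hg =>
  (T0 h x).norm_coe_le_norm ⟨g, hg⟩

lemma N_le (h : Bio e f M) (x : E) (C : ℝ) (hx : Bd e f M x C) : N h x ≤ C := by
  have hC : 0 ≤ C := (norm_nonneg _).trans (hx (f 0) (Or.inl ⟨0, rfl⟩))
  exact (BoundedContinuousFunction.norm_le hC).2 (fun g => hx g g.2)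

theorem main (h : Bio e f M) : ∃ N : Seminorm 𝕜 E,
    (∃ a C : ℝ, 0 < a ∧ a ≤ C ∧ ∀ x, a * ‖x‖ ≤ N x ∧ N x ≤ C * ‖x‖) ∧
    ∃ c : ℝ, 1 < c ∧ ∀ u : ℕ → E →ₗ[𝕜] E, (∀ n, FiniteDimensional 𝕜 (LinearMap.range (u n))) →
      (∀ n x, u n (u n x) = u n x) → (∀ x, Tendsto (fun n => u n x) atTop (𝓝 x)) →
      ∃ n x, c * N x < N (u n x) := by
  have hM := h.one_le
  refine ⟨N h, ⟨2 / 5, 2 * M, by norm_num, by linarith, fun x => ⟨h.lower x _ (N_bd h x),
    N_le h x _ (fun g hg => K_bound h hg x)⟩⟩, 1 + 1 / (2000000 * M ^ 4),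
    lt_add_of_pos_right _ (by positivity), fun u h1 h2 h3 => ?_⟩
  by_contra hc
  push Not at hc
  have hev : ∀ x, ∀ᶠ n in atTop, M * ‖u n x - x‖ ≤ 1 / 20 := by
    intro x
    have a1 := (tendsto_iff_norm_sub_tendsto_zero.1 (h3 x)).const_mul M
    rw [mul_zero] at a1
    exact a1.eventually (Iic_mem_nhds (show (0 : ℝ) < 1 / 20 by norm_num))
  obtain ⟨n, a0, a1, a2⟩ := ((hev (e 0)).and ((hev (e 1)).and (hev (e 2)))).exists
  have hQ : Con e f M (1 / (2000000 * M ^ 4)) (u n) := by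
    refine ⟨h2 n, fun x C hx g hg => ?_⟩
    refine (N_bd h _ g hg).trans ((hc n x).trans ?_)
    exact mul_le_mul_of_nonneg_left (N_le h x C hx) (by positivity)
  refine no_fin h (h1 n) (all_close h hQ (fun j hj => ?_))
  interval_cases j <;> assumption

end Pool.Agent.H51.IdxA
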