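import Pool.Agent.H51.IdxA

set_option autoImplicit false

namespace Pool.Agent.H51.IdxB

open Filter Topology Pool.Agent.H51.IdxA

variable {𝕜 : Type} [RCLike 𝕜] {E : Type} [NormedAddCommGroup E] [NormedSpace 𝕜 E]

lemma far (W F : Submodule 𝕜 E) (hW : ¬ FiniteDimensional 𝕜 W) [FiniteDimensional 𝕜 F] :
    ∃ w ∈ W, ‖w‖ ≤ 3 ∧ ∀ y ∈ F, 1 / 4 ≤ ‖w - y‖ := by
  obtain ⟨w, hw1, hw2⟩ := exists_seq_norm_le_one_le_norm_sub' (𝕜 := 𝕜) (E := W) (c := 2) (R := 3)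
    (by simp) (by simp; norm_num) hW
  by_contra hc
  push Not at hc
  choose y hy1 hy2 using fun k => hc (w k) (w k).2 (hw1 k)
  haveI := FiniteDimensional.proper_rclike 𝕜 F
  let x : ℕ → F := fun j => ⟨y j, hy1 j⟩
  have hb : ∀ j, x j ∈ Metric.closedBall (0 : F) 4 := by
    intro j
    rw [mem_closedBall_zero_iff]
    change ‖y j‖ ≤ 4
    have a1 := norm_sub_norm_le (y j) (w j : E)
    rw [norm_sub_rev] at a1
    have a2 : ‖(w j : E)‖ ≤ 3 := hw1 j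
    have := hy2 j
    linarith
  obtain ⟨a, _, φ, hφ, hlim⟩ := tendsto_subseq_of_bounded Metric.isBounded_closedBall hb
  obtain ⟨N, hN⟩ := Metric.cauchySeq_iff.1 hlim.cauchySeq (1 / 4) (by positivity)
  have h1 := hN N le_rfl (N + 1) (by omega)
  rw [dist_eq_norm] at h1
  change ‖y (φ N) - y (φ (N + 1))‖ < _ at h1
  have h3 : φ N ≠ φ (N + 1) := (hφ (Nat.lt_succ_self N)).ne
  have h2 : 1 ≤ ‖(w (φ N) : E) - w (φ (N + 1))‖ := hw2 h3
  have e1 : (w (φ N) : E) - w (φ (N + 1)) = ((w (φ N) : E) - y (φ N)) + (y (φ N) - y (φ (N + 1)))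
      - ((w (φ (N + 1)) : E) - y (φ (N + 1))) := by abel
  have h4 := norm_sub_le (((w (φ N) : E) - y (φ N)) + (y (φ N) - y (φ (N + 1))))
    ((w (φ (N + 1)) : E) - y (φ (N + 1)))
  have h5 := norm_add_le ((w (φ N) : E) - y (φ N)) (y (φ N) - y (φ (N + 1)))
  rw [← e1] at h4
  have := hy2 (φ N)
  have := hy2 (φ (N + 1))
  linarith

lemma step (hE : ¬ FiniteDimensional 𝕜 E) (s : Finset (E × StrongDual 𝕜 E)) :
    ∃ p : E × StrongDual 𝕜 E, (‖p.1‖ ≤ 1 ∧ (∀ x, ‖p.2 x‖ ≤ 12 * ‖x‖) ∧ p.2 p.1 = 1) ∧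
      ∀ q ∈ s, q.2 p.1 = 0 ∧ p.2 q.1 = 0 := by
  classical
  let φ : E →ₗ[𝕜] (s → 𝕜) := LinearMap.pi (fun q : s => ((q : E × StrongDual 𝕜 E).2 : E →ₗ[𝕜] 𝕜))
  have hW : ¬ FiniteDimensional 𝕜 (LinearMap.ker φ) := by
    intro h
    apply hE
    refine ⟨Submodule.fg_of_fg_map_of_fg_inf_ker φ (IsNoetherian.noetherian _) ?_⟩
    rw [top_inf_eq]
    exact Module.Finite.iff_fg.1 h
  let F : Submodule 𝕜 E := Submodule.span 𝕜 ((s.image Prod.fst : Finset E) : Set E)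
  obtain ⟨w, hw1, hw2, hw3⟩ := far (LinearMap.ker φ) F hW
  have hq : 1 / 4 ≤ ‖(Submodule.Quotient.mk w : E ⧸ F)‖ := by
    by_contra hc
    push Not at hc
    obtain ⟨m, hm1, hm2⟩ := Submodule.Quotient.norm_mk_lt (Submodule.Quotient.mk w : E ⧸ F)
      (sub_pos.2 hc)
    have := hw3 (w - m) ((Submodule.Quotient.eq F).1 hm1.symm)
    rw [sub_sub_cancel] at this
    linarith
  obtain ⟨g, hg1, hg2⟩ := exists_dual_vector'' 𝕜 (Submodule.Quotient.mk w : E ⧸ F)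
  set r := ‖(Submodule.Quotient.mk w : E ⧸ F)‖ with hr
  have hr0 : 0 < r := by linarith
  have hb : ∀ x : E, ‖((((3 / r : ℝ) : 𝕜)) • ((g : E ⧸ F →ₗ[𝕜] 𝕜).comp F.mkQ)) x‖ ≤ 12 * ‖x‖ := by
    intro x
    rw [LinearMap.smul_apply, norm_smul, RCLike.norm_ofReal, abs_of_pos (by positivity)]
    have a1 := g.le_opNorm (Submodule.Quotient.mk x)
    have a2 := Submodule.Quotient.norm_mk_le F x
    have a3 : 3 / r ≤ 12 := by rw [div_le_iff₀ hr0]; linarith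
    have a4 : ‖g (Submodule.Quotient.mk x)‖ ≤ ‖x‖ := by
      nlinarith [norm_nonneg (Submodule.Quotient.mk x : E ⧸ F), norm_nonneg g]
    exact mul_le_mul a3 a4 (norm_nonneg _) (by norm_num)
  refine ⟨((1 / 3 : 𝕜) • w, LinearMap.mkContinuous _ 12 hb), ⟨?_, hb, ?_⟩, fun q hq => ⟨?_, ?_⟩⟩
  · rw [norm_smul]
    have : ‖(1 / 3 : 𝕜)‖ = 1 / 3 := by simp
    rw [this]; linarith
  · simp only [LinearMap.mkContinuous_apply, map_smul, LinearMap.smul_apply, LinearMap.comp_apply,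
      Submodule.mkQ_apply, ContinuousLinearMap.coe_coe, hg2, smul_eq_mul]
    have : (r : 𝕜) ≠ 0 := by exact_mod_cast hr0.ne'
    push_cast
    field_simp
  · have := congrFun (LinearMap.mem_ker.1 hw1) ⟨q, hq⟩
    simp only [map_smul]
    have a : q.2 w = 0 := this
    rw [a, smul_zero]
  · have : (Submodule.Quotient.mk q.1 : E ⧸ F) = 0 := by
      rw [Submodule.Quotient.mk_eq_zero]
      apply Submodule.subset_span
      simp only [Finset.coe_image]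
      exact ⟨q, hq, rfl⟩
    simp only [LinearMap.mkContinuous_apply, LinearMap.smul_apply, LinearMap.comp_apply,
      Submodule.mkQ_apply, this, map_zero, smul_zero]

lemma ex_bio (hE : ¬ FiniteDimensional 𝕜 E) :
    ∃ (e : ℕ → E) (f : ℕ → StrongDual 𝕜 E), Bio e f 12 := by
  obtain ⟨p, hp1, hp2⟩ := exists_seq_of_forall_finset_exists
    (fun p : E × StrongDual 𝕜 E => ‖p.1‖ ≤ 1 ∧ (∀ x, ‖p.2 x‖ ≤ 12 * ‖x‖) ∧ p.2 p.1 = 1)
    (fun q p => q.2 p.1 = 0 ∧ p.2 q.1 = 0) (fun s _ => step hE s)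
  refine ⟨fun n => (p n).1, fun n => (p n).2, by norm_num, fun j => (hp1 j).1,
    fun j => (hp1 j).2.1, fun i j => ?_⟩
  rcases lt_trichotomy i j with h | h | h
  · rw [if_neg h.ne]; exact (hp2 i j h).1
  · rw [if_pos h, h]; exact (hp1 j).2.2
  · rw [if_neg h.ne']; exact (hp2 j i h).2

end Pool.Agent.H51.IdxB
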