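import Mathlib

set_option autoImplicit false

namespace Pool.Agent.H51.KoszulA

open Finset

abbrev Row := List (ℕ × ℤ)

def ev : Row → ℕ → ℤ
  | [], _ => 0
  | p :: l, t => (cond (Nat.beq p.1 t) p.2 0) + ev l t

def sc (c : ℤ) (l : Row) : Row := l.map fun p => (p.1, c * p.2)

def mulRow (l : Row) (T : ℕ → Row) : Row := l.flatMap fun p => sc p.2 (T p.1)

def isZ (l : Row) : Bool := l.all fun p => decide (ev l p.1 = 0)

def mk (rows : List Row) : ℕ → Row := fun j => rows.getD j []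

lemma ev_cons (p : ℕ × ℤ) (l : Row) (t : ℕ) :
    ev (p :: l) t = (if p.1 = t then p.2 else 0) + ev l t := by
  by_cases h : p.1 = t
  · have : Nat.beq p.1 t = true := Nat.beq_eq ▸ h
    simp [ev, this, h]
  · have : Nat.beq p.1 t = false := by
      cases hb : Nat.beq p.1 t
      · rfl
      · exact absurd (Nat.eq_of_beq_eq_true hb) h
    simp [ev, this, h]

lemma ev_append (l m : Row) (t : ℕ) : ev (l ++ m) t = ev l t + ev m t := by
  induction l with
  | nil => simp [ev]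
  | cons p l ih => rw [List.cons_append, ev_cons, ev_cons, ih, add_assoc]

lemma ev_sc (c : ℤ) (l : Row) (t : ℕ) : ev (sc c l) t = c * ev l t := by
  induction l with
  | nil => simp [ev, sc]
  | cons p l ih =>
    have : sc c (p :: l) = (p.1, c * p.2) :: sc c l := rfl
    rw [this, ev_cons, ev_cons, ih]
    split_ifs <;> ring

lemma ev_flatMap {α : Type} (l : List α) (F : α → Row) (t : ℕ) :
    ev (l.flatMap F) t = (l.map fun a => ev (F a) t).sum := by
  induction l with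
  | nil => simp [ev]
  | cons p l ih => rw [List.flatMap_cons, ev_append, ih]; simp

lemma ev_eq_zero_of_not_mem (l : Row) (t : ℕ) (h : ∀ p ∈ l, p.1 ≠ t) : ev l t = 0 := by
  induction l with
  | nil => rfl
  | cons p l ih =>
    rw [ev_cons, if_neg (h p (by simp)), ih (fun q hq => h q (by simp [hq]))]; simp

lemma ev_isZ {l : Row} (h : isZ l = true) (t : ℕ) : ev l t = 0 := by
  by_cases hm : ∃ p ∈ l, p.1 = t
  · obtain ⟨p, hp, rfl⟩ := hm
    have := List.all_eq_true.1 h p hp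
    simpa using this
  · exact ev_eq_zero_of_not_mem l t (fun p hp e => hm ⟨p, hp, e⟩)

lemma ev_mulRow (N : ℕ) (l : Row) (T : ℕ → Row) (t : ℕ) (h : ∀ p ∈ l, p.1 < N) :
    ev (mulRow l T) t = ∑ s ∈ range N, ev l s * ev (T s) t := by
  induction l with
  | nil => simp [mulRow, ev]
  | cons p l ih =>
    have e : mulRow (p :: l) T = sc p.2 (T p.1) ++ mulRow l T := by simp [mulRow]
    rw [e, ev_append, ev_sc, ih (fun q hq => h q (by simp [hq]))]
    simp only [ev_cons, add_mul, sum_add_distrib]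
    congr 1
    rw [sum_eq_single p.1]
    · simp
    · intro b _ hb; simp [Ne.symm hb]
    · intro hn; exact absurd (mem_range.2 (h p (by simp))) hn

variable {A : Type*} [Ring A]

def ap (S : ℕ → Row) (f : ℕ → A) : ℕ → A := fun t => ∑ j ∈ range 68, ev (S j) t • f j

def deg (j : ℕ) : ℕ :=
  if j < 1 then 0 else if j < 7 then 1 else if j < 22 then 2 else if j < 44 then 3
  else if j < 62 then 4 else 5

def Supp (i : ℕ) (f : ℕ → A) : Prop := ∀ j, ¬ (j < 68 ∧ deg j = i) → f j = 0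

/-- all entries are in range and shift the degree -/
def homOK (S : ℕ → Row) (a b : ℕ) : Bool :=
  (List.range 68).all fun j => (S j).all fun p => decide (p.1 < 68 ∧ deg p.1 + a = deg j + b)

def allZ (T : ℕ → Row) : Bool := (List.range 68).all fun j => isZ (T j)

lemma allZ_ev {T : ℕ → Row} (h : allZ T = true) {j : ℕ} (hj : j < 68) (t : ℕ) : ev (T j) t = 0 :=
  ev_isZ (List.all_eq_true.1 h j (List.mem_range.2 hj)) t

lemma homOK_mem {S : ℕ → Row} {a b : ℕ} (h : homOK S a b = true) {j : ℕ} (hj : j < 68)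
    {p : ℕ × ℤ} (hp : p ∈ S j) : p.1 < 68 ∧ deg p.1 + a = deg j + b := by
  have := List.all_eq_true.1 (List.all_eq_true.1 h j (List.mem_range.2 hj)) p hp
  simpa using this

lemma ap_ap {S : ℕ → Row} {a b : ℕ} (h : homOK S a b = true) (T : ℕ → Row) (f : ℕ → A) :
    ap T (ap S f) = ap (fun j => mulRow (S j) T) f := by
  funext t
  simp only [ap, smul_sum, smul_smul]
  rw [sum_comm]
  refine sum_congr rfl fun j hj => ?_
  rw [ev_mulRow 68 _ _ _ (fun p hp => (homOK_mem h (mem_range.1 hj) hp).1), sum_smul]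
  exact sum_congr rfl fun s _ => by rw [mul_comm]

lemma ap_congr {S T : ℕ → Row} (h : ∀ j < 68, ∀ t, ev (S j) t = ev (T j) t) (f : ℕ → A) :
    ap S f = ap T f := by
  funext t
  exact sum_congr rfl fun j hj => by rw [h j (mem_range.1 hj)]

lemma ap_sub (S : ℕ → Row) (f g : ℕ → A) : ap S (f - g) = ap S f - ap S g := by
  funext t; simp [ap, smul_sub, sum_sub_distrib]

lemma ap_add (S : ℕ → Row) (f g : ℕ → A) : ap S (f + g) = ap S f + ap S g := by
  funext t; simp [ap, smul_add, sum_add_distrib]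

lemma ap_zero (S : ℕ → Row) : ap S (0 : ℕ → A) = 0 := by
  funext t; simp [ap]

lemma ap_smul (S : ℕ → Row) (a : A) (f : ℕ → A) : ap S (a • f) = a • ap S f := by
  funext t
  simp only [ap, Pi.smul_apply, smul_eq_mul, mul_sum, mul_smul_comm]

lemma ap_map (S : ℕ → Row) (τ : A →+ A) (f : ℕ → A) :
    ap S (fun j => τ (f j)) = fun t => τ (ap S f t) := by
  funext t
  simp only [ap, map_sum, map_zsmul]

lemma supp_ap {S : ℕ → Row} {a b : ℕ} (h : homOK S a b = true) {i i' : ℕ} (hi : i' + a = i + b)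
    {f : ℕ → A} (hf : Supp i f) : Supp i' (ap S f) := by
  intro t ht
  refine sum_eq_zero fun j hj => ?_
  by_cases hd : deg j = i
  · rw [ev_eq_zero_of_not_mem, zero_smul]
    intro p hp e
    have := homOK_mem h (mem_range.1 hj) hp
    rw [e] at this
    exact ht ⟨this.1, by omega⟩
  · rw [hf j (fun c => hd c.2), smul_zero]

lemma ap_supp_zero {S : ℕ → Row} (h : homOK S 1 0 = true) {f : ℕ → A} (hf : Supp 0 f) :
    ap S f = 0 := by
  funext t
  refine sum_eq_zero fun j hj => ?_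
  by_cases hd : deg j = 0
  · rw [ev_eq_zero_of_not_mem, zero_smul]
    intro p hp e
    have := homOK_mem h (mem_range.1 hj) hp
    omega
  · rw [hf j (fun c => hd c.2), smul_zero]

def one : ℕ → Row := fun j => [(j, 1)]

lemma ap_one {i : ℕ} {f : ℕ → A} (hf : Supp i f) : ap one f = f := by
  funext t
  have e : ∀ j, ev (one j) t = if j = t then 1 else 0 := fun j => by
    rw [one, ev_cons]; simp [ev]
  simp only [ap, e]
  by_cases ht : t < 68
  · rw [sum_eq_single t]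
    · simp
    · intro b _ hb
      simp [hb]
    · intro hn; exact absurd (mem_range.2 ht) hn
  · rw [hf t (fun c => ht c.1)]
    refine sum_eq_zero fun j hj => ?_
    have := mem_range.1 hj
    rw [if_neg (by omega), zero_smul]

def two : ℕ → Row := fun j => if 2 ≤ deg j then [(j, 1)] else []

lemma ap_two {i : ℕ} {f : ℕ → A} (hf : Supp (i + 2) f) : ap two f = f := by
  conv_rhs => rw [← ap_one hf]
  funext t
  refine sum_congr rfl fun j _ => ?_
  by_cases h : 2 ≤ deg j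
  · simp [two, one, h]
  · rw [hf j (fun c => h (by omega))]; simp

variable (Rm : ℕ → ℕ → Row)

def S (O : List ℕ) (f : ℕ → A) : Prop := ∀ c ∈ O, ap (Rm c) f = 0

/-- certificate that `T` is a combination of the `Rm c`, `c ∈ O` -/
def impOK (O : List ℕ) (T : ℕ → Row) (Y : List (ℕ × (ℕ → Row))) : Bool :=
  (Y.all fun q => decide (q.1 ∈ O)) &&
    allZ (fun j => T j ++ sc (-1) (Y.flatMap fun q => mulRow (Rm q.1 j) q.2))

variable {Rm}

lemma imp (hR : ∀ c, homOK (Rm c) 1 0 = true) {O : List ℕ} {T : ℕ → Row}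
    {Y : List (ℕ × (ℕ → Row))} (h : impOK Rm O T Y = true) {f : ℕ → A} (hf : S Rm O f) :
    ap T f = 0 := by
  rw [impOK, Bool.and_eq_true] at h
  obtain ⟨h1, h2⟩ := h
  have h3 : ∀ q ∈ Y, q.1 ∈ O := fun q hq => by simpa using List.all_eq_true.1 h1 q hq
  have e : ap T f = ap (fun j => Y.flatMap fun q => mulRow (Rm q.1 j) q.2) f := by
    refine ap_congr (fun j hj t => ?_) f
    have := allZ_ev h2 hj t
    rw [ev_append, ev_sc] at this
    linarith
  rw [e]
  clear e h1 h2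
  induction Y with
  | nil => funext t; simp [ap, ev]
  | cons q Y ih =>
    have e2 : ap (fun j => (q :: Y).flatMap fun q => mulRow (Rm q.1 j) q.2) f
        = ap (fun j => mulRow (Rm q.1 j) q.2) f
          + ap (fun j => Y.flatMap fun q => mulRow (Rm q.1 j) q.2) f := by
      funext t; simp [ap, ev_append, add_smul, sum_add_distrib]
    rw [e2, ih (fun r hr => h3 r (by simp [hr])), ← ap_ap (hR q.1), hf _ (h3 q (by simp)),
      ap_zero, add_zero]

variable (Rm)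

def stepOK (O O' P : List ℕ) (φ : ℕ) (G : List Row) (H : List (ℕ × List (ℕ × Row)))
    (Y : List (ℕ × List Row)) : Bool :=
  decide (O'.Perm (φ :: O)) && homOK (mk G) 0 1 &&
  (P.all fun ψ => H.any fun h => decide (h.1 = ψ) &&
    impOK Rm O (fun j => mulRow (Rm φ j) (Rm ψ))
      (h.2.map fun q => (q.1, fun j => q.2.flatMap fun p => sc p.2 (Rm p.1 j)))) &&
  (O.all fun c => allZ fun j => mulRow (mk G j) (Rm c)) &&
  impOK Rm P (fun j => one j ++ sc (-1) (mulRow (mk G j) (Rm φ))) (Y.map fun q => (q.1, mk q.2))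

def baseOK (O : List ℕ) (Y : List (ℕ × List Row)) : Bool :=
  impOK Rm O two (Y.map fun q => (q.1, mk q.2))

structure Step (A : Type*) [Ring A] (O O' P : List ℕ) (φ : ℕ) : Prop where
  h1 : ∀ f : ℕ → A, S Rm O' f ↔ S Rm O f ∧ ap (Rm φ) f = 0
  h2 : ∀ f : ℕ → A, S Rm O f → S Rm P (ap (Rm φ) f)
  h3 : ∀ (g : ℕ → A) (i : ℕ), S Rm P g → Supp i g →
    ∃ f, S Rm O f ∧ Supp (i + 1) f ∧ ap (Rm φ) f = g

variable {Rm}

lemma step_of_ok (hR : ∀ c, homOK (Rm c) 1 0 = true) {O O' P : List ℕ} {φ : ℕ} {G : List Row}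
    {H : List (ℕ × List (ℕ × Row))} {Y : List (ℕ × List Row)}
    (h : stepOK Rm O O' P φ G H Y = true) : Step Rm A O O' P φ := by
  simp only [stepOK, Bool.and_eq_true, decide_eq_true_eq] at h
  obtain ⟨⟨⟨⟨hp, hG⟩, ha⟩, hb⟩, hc⟩ := h
  refine ⟨fun f => ?_, fun f hf ψ hψ => ?_, fun g i hg hs => ?_⟩
  · constructor
    · intro hf
      exact ⟨fun c hc => hf c (hp.mem_iff.2 (by simp [hc])), hf φ (hp.mem_iff.2 (by simp))⟩
    · rintro ⟨h1, h2⟩ c hc
      rcases List.mem_cons.1 (hp.mem_iff.1 hc) with rfl | h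
      · exact h2
      · exact h1 c h
  · obtain ⟨h, -, hh⟩ := List.any_eq_true.1 (List.all_eq_true.1 ha ψ hψ)
    rw [Bool.and_eq_true] at hh
    rw [ap_ap (hR φ)]
    exact imp hR hh.2 hf
  · refine ⟨ap (mk G) g, fun c hc' => ?_, supp_ap hG (by omega) hs, ?_⟩
    · rw [ap_ap hG]
      funext t
      refine sum_eq_zero fun j hj => ?_
      rw [allZ_ev (List.all_eq_true.1 hb c hc') (mem_range.1 hj), zero_smul]
    · have e := imp hR hc hg
      have e2 : ap (fun j => one j ++ sc (-1) (mulRow (mk G j) (Rm φ))) g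
          = ap one g - ap (fun j => mulRow (mk G j) (Rm φ)) g := by
        funext t; simp [ap, ev_append, ev_sc, sub_eq_add_neg, add_smul, sum_add_distrib]
      rw [e2, ap_one hs, sub_eq_zero] at e
      rw [ap_ap hG, ← e]

lemma base_of_ok (hR : ∀ c, homOK (Rm c) 1 0 = true) {O : List ℕ} {Y : List (ℕ × List Row)}
    (h : baseOK Rm O Y = true) {i : ℕ} {f : ℕ → A} (hf : S Rm O f) (hs : Supp (i + 2) f) :
    f = 0 := by
  rw [← ap_two hs]; exact imp hR h hf

variable (Lm : ℕ → ℕ → Row) (x : Fin 6 → A)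

def dd (f : ℕ → A) : ℕ → A := fun t => ∑ b : Fin 6, ap (Lm b) f t * x b

lemma dd_sub (f g : ℕ → A) : dd Lm x (f - g) = dd Lm x f - dd Lm x g := by
  funext t; simp [dd, ap_sub, sub_mul, sum_sub_distrib]

lemma dd_add (f g : ℕ → A) : dd Lm x (f + g) = dd Lm x f + dd Lm x g := by
  funext t; simp [dd, ap_add, add_mul, sum_add_distrib]

lemma dd_smul (a : A) (f : ℕ → A) : dd Lm x (a • f) = a • dd Lm x f := by
  funext t; simp [dd, ap_smul, mul_sum, mul_assoc]

lemma dd_zero : dd Lm x 0 = 0 := by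
  funext t; simp [dd, ap_zero]

lemma ap_dd (T : ℕ → Row) (f : ℕ → A) :
    ap T (dd Lm x f) = fun t => ∑ b : Fin 6, ap T (ap (Lm b) f) t * x b := by
  funext t
  simp only [ap, dd, smul_sum, sum_mul, smul_mul_assoc]
  rw [sum_comm]

variable (Rm)

structure Ctx (τ : ℕ → A →+ A) : Prop where
  hR : ∀ c, homOK (Rm c) 1 0 = true
  hL : ∀ c, homOK (Lm c) 1 0 = true
  comm : ∀ (c : ℕ) (f : ℕ → A), ap (Rm c) (dd Lm x f) = dd Lm x (ap (Rm c) f)
  sq : ∀ f : ℕ → A, dd Lm x (dd Lm x f) = 0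
  t0 : ∀ a, τ 0 a = 0
  ts : ∀ j a b, τ (j + 1) (a * x b) = τ j a * x b
  tt : ∀ j a, τ j (τ j a) = τ j a
  tf : ∀ a, ∃ j, ∀ j', j ≤ j' → τ j' a = a

def E (O : List ℕ) (i : ℕ) : Prop :=
  ∀ z : ℕ → A, S Rm O z → Supp i z → dd Lm x z = 0 →
    ∃ g, S Rm O g ∧ Supp (i + 1) g ∧ dd Lm x g = z

def E1 (τ : ℕ → A →+ A) (O : List ℕ) (j : ℕ) : Prop :=
  ∀ z : ℕ → A, S Rm O z → Supp 1 z → (∀ t, τ j (z t) = z t) → dd Lm x z = 0 →
    ∃ g, S Rm O g ∧ Supp 2 g ∧ dd Lm x g = z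

variable {Rm Lm x} {τ : ℕ → A →+ A}

lemma Ctx.supp_dd (C : Ctx Rm Lm x τ) {i : ℕ} {f : ℕ → A} (hf : Supp (i + 1) f) :
    Supp i (dd Lm x f) := by
  intro t ht
  refine sum_eq_zero fun b _ => ?_
  rw [supp_ap (C.hL b) (i := i + 1) (i' := i) (by omega) hf t ht, zero_mul]

lemma Ctx.S_dd (C : Ctx Rm Lm x τ) {O : List ℕ} {f : ℕ → A} (hf : S Rm O f) :
    S Rm O (dd Lm x f) := fun c hc => by rw [C.comm, hf c hc, dd_zero]

lemma S_sub {O : List ℕ} {f g : ℕ → A} (hf : S Rm O f) (hg : S Rm O g) : S Rm O (f - g) :=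
  fun c hc => by rw [ap_sub, hf c hc, hg c hc, sub_zero]

lemma S_add {O : List ℕ} {f g : ℕ → A} (hf : S Rm O f) (hg : S Rm O g) : S Rm O (f + g) :=
  fun c hc => by rw [ap_add, hf c hc, hg c hc, add_zero]

lemma Supp.sub {i : ℕ} {f g : ℕ → A} (hf : Supp i f) (hg : Supp i g) : Supp i (f - g) :=
  fun j hj => by simp [hf j hj, hg j hj]

lemma Supp.add {i : ℕ} {f g : ℕ → A} (hf : Supp i f) (hg : Supp i g) : Supp i (f + g) :=
  fun j hj => by simp [hf j hj, hg j hj]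

lemma Ctx.up (C : Ctx Rm Lm x τ) {O O' P : List ℕ} {φ : ℕ} (s : Step Rm A O O' P φ) {i : ℕ}
    (h1 : E Rm Lm x O' (i + 1)) (h2 : E Rm Lm x P i) : E Rm Lm x O (i + 1) := by
  intro z hz hs hd
  obtain ⟨u, hu1, hu2, hu3⟩ := h2 (ap (Rm φ) z) (s.h2 z hz)
    (supp_ap (C.hR φ) (i := i + 1) (by omega) hs) (by rw [← C.comm, hd, ap_zero])
  obtain ⟨f, hf1, hf2, hf3⟩ := s.h3 u _ hu1 hu2
  obtain ⟨g, hg1, hg2, hg3⟩ := h1 (z - dd Lm x f)
    ((s.h1 _).2 ⟨S_sub hz (C.S_dd hf1), by rw [ap_sub, C.comm, hf3, hu3, sub_self]⟩)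
    (hs.sub (C.supp_dd hf2)) (by rw [dd_sub, hd, C.sq, sub_self])
  exact ⟨g + f, S_add ((s.h1 _).1 hg1).1 hf1, hg2.add hf2, by rw [dd_add, hg3]; abel⟩

lemma Ctx.dd_tau (C : Ctx Rm Lm x τ) (j : ℕ) (f : ℕ → A) :
    dd Lm x (fun t => τ j (f t)) = fun t => τ (j + 1) (dd Lm x f t) := by
  funext t
  simp only [dd, ap_map, map_sum, C.ts]

lemma Ctx.down (C : Ctx Rm Lm x τ) {O O' P : List ℕ} {φ : ℕ} (s : Step Rm A O O' P φ) {j : ℕ}
    (h1 : E1 Rm Lm x τ O (j + 1)) (h2 : E1 Rm Lm x τ P j) : E1 Rm Lm x τ O' (j + 1) := by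
  intro z hz hs ht hd
  obtain ⟨w0, hw1, hw2, hw3⟩ := h1 z ((s.h1 _).1 hz).1 hs ht hd
  set w : ℕ → A := fun t => τ j (w0 t) with hw
  have a1 : S Rm O w := fun c hc => by
    rw [hw, ap_map, hw1 c hc]; funext t; simp
  have a2 : Supp 2 w := fun t h => by simp [hw, hw2 t h]
  have a3 : dd Lm x w = z := by
    rw [hw, C.dd_tau, hw3]; funext t; exact ht t
  obtain ⟨u, hu1, hu2, hu3⟩ := h2 (ap (Rm φ) w) (s.h2 w a1)
    (supp_ap (C.hR φ) (i := 2) (by omega) a2)
    (fun t => by rw [hw, ap_map]; exact C.tt _ _)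
    (by rw [← C.comm, a3, ((s.h1 _).1 hz).2])
  obtain ⟨f, hf1, hf2, hf3⟩ := s.h3 u _ hu1 hu2
  refine ⟨w - dd Lm x f, (s.h1 _).2 ⟨S_sub a1 (C.S_dd hf1), ?_⟩, a2.sub (C.supp_dd hf2), ?_⟩
  · rw [ap_sub, C.comm, hf3, hu3, sub_self]
  · rw [dd_sub, C.sq, a3, sub_zero]

lemma Ctx.E1_zero (C : Ctx Rm Lm x τ) (O : List ℕ) : E1 Rm Lm x τ O 0 := by
  intro z _ _ ht _
  refine ⟨0, fun c _ => ap_zero _, fun _ _ => rfl, ?_⟩
  rw [dd_zero]; funext t; rw [← ht t, C.t0]; rfl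

lemma Ctx.E_of_E1 (C : Ctx Rm Lm x τ) {O : List ℕ} (h : ∀ j, E1 Rm Lm x τ O j) :
    E Rm Lm x O 1 := by
  intro z hz hs hd
  choose J hJ using C.tf
  refine h ((range 68).sup fun t => J (z t)) z hz hs (fun t => ?_) hd
  by_cases ht : t < 68
  · exact hJ _ _ (le_sup (f := fun t => J (z t)) (mem_range.2 ht))
  · rw [hs t (fun c => ht c.1), map_zero]

lemma E1_of_E {O : List ℕ} (h : E Rm Lm x O 1) (j : ℕ) : E1 Rm Lm x τ O j :=
  fun z hz hs _ hd => h z hz hs hd

lemma Ctx.E_base (C : Ctx Rm Lm x τ) {O : List ℕ} {Y : List (ℕ × List Row)}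
    (h : baseOK Rm O Y = true) (i : ℕ) : E Rm Lm x O (i + 2) := by
  intro z hz hs _
  refine ⟨0, fun c _ => ap_zero _, fun _ _ => rfl, ?_⟩
  rw [dd_zero, base_of_ok C.hR h hz hs]

end Pool.Agent.H51.KoszulA
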