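import Pool.Agent.H51.KoszulA

set_option autoImplicit false

namespace Pool.Agent.H51.KoszulB

open Pool.Agent.H51.KoszulA Finset

def Ld : List (List Row) := [[[],[(0,1)],[],[],[],[],[],[(2,1)],[(3,1)],[],[(4,1)],[],[],[(5,1)],[],[],[],[(6,1)],[],[],[],[],[(9,1)],[(11,1)],[(14,1)],[],[],[],[(12,1)],[],[(15,1)],[(16,1)],[],[],[(18,1)],[(21,1)],[(20,1)],[(19,1)],[],[],[],[],[],[],[(25,1)],[(26,1)],[(27,1)],[(29,1)],[(32,1)],[(33,1)],[],[],[],[(38,1)],[(39,1)],[(40,1)],[(43,1)],[(41,1)],[(42,1)],[],[],[],[(50,1)],[(51,1)],[(52,1)],[(59,1)],[(60,1)],[(61,1)]],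
  [[],[],[(0,1)],[],[],[],[],[],[(3,1)],[],[],[],[],[],[],[],[],[(6,1)],[],[],[],[],[(9,1)],[(11,1)],[(14,1)],[],[],[],[],[],[],[],[],[],[(18,1)],[(21,1)],[(20,1)],[(19,1)],[],[],[],[],[],[],[(25,1)],[(26,1)],[(27,1)],[(29,1)],[(32,1)],[(33,1)],[],[],[],[(38,1)],[(39,1)],[(40,1)],[(43,1)],[(41,1)],[(42,1)],[],[],[],[(50,1)],[(51,1)],[(52,1)],[(59,1)],[(60,1)],[(61,1)]],
  [[],[],[],[(0,1)],[],[],[],[],[],[(1,1)],[],[(4,1)],[],[],[(5,1)],[],[],[],[],[],[],[],[],[],[],[(7,1)],[(10,1)],[(13,1)],[],[(12,1)],[],[],[(15,1)],[(16,1)],[],[],[],[],[],[],[],[],[],[],[],[],[],[],[],[],[(28,1)],[(30,1)],[(31,1)]],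
  [[],[],[],[],[(0,1)],[],[],[],[],[],[],[],[(2,1),(3,1)]],
  [[],[],[],[],[],[(0,1)],[],[],[],[],[],[],[],[],[],[(2,1)],[(1,1),(3,1),(4,1)]],
  [[],[],[],[],[],[],[(0,1)],[],[],[],[],[],[],[],[],[],[],[],[(1,1)],[(5,1)],[(4,1)],[(2,1),(3,1)],[],[],[],[],[],[],[],[],[],[],[],[],[],[],[],[],[(7,1)],[(10,1)],[(13,1)],[(15,1)],[(16,1)],[(12,1)],[],[],[],[],[],[],[],[],[],[],[],[],[],[],[],[(28,1)],[(30,1)],[(31,1)]]]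

def Rd : List (List Row) := [[[],[(0,1)],[],[],[],[],[],[],[],[(3,1)],[],[],[],[],[],[],[(5,1)],[],[(6,1)],[],[],[],[(8,1)],[],[],[],[],[],[],[],[],[(13,1)],[],[(14,1)],[(17,1)],[],[],[],[],[],[],[],[(19,1)],[],[],[],[],[],[],[(24,1)],[],[],[(27,1)],[],[],[],[],[],[(37,1)],[],[],[(40,1)],[],[],[(46,1)],[],[],[(55,1)]],
  [[],[],[(0,1)],[],[],[],[],[(1,1)],[],[],[],[],[(4,1)],[],[],[(5,1)],[],[],[],[],[],[(6,1)],[],[],[],[(9,1)],[],[],[(10,1)],[(11,1)],[(13,1)],[],[(14,1)],[],[],[(17,1)],[],[],[(18,1)],[],[],[(19,1)],[],[(20,1)],[(22,1)],[],[],[(23,1)],[(24,1)],[],[(26,1)],[(27,1)],[],[(34,1)],[],[],[(36,1)],[(37,1)],[],[(39,1)],[(40,1)],[],[(45,1)],[(46,1)],[],[(54,1)],[(55,1)]],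
  [[],[],[],[(0,1)],[],[],[],[],[(1,1),(2,1)],[],[],[],[(4,1)],[],[],[],[(5,1)],[],[],[],[],[(6,1)],[],[],[],[],[],[],[(10,1)],[(11,1)],[],[(13,1)],[],[(14,1)],[],[(17,1)],[],[],[],[],[],[],[(19,1)],[(20,1)],[],[],[],[(23,1)],[],[(24,1)],[(26,1)],[],[(27,1)],[],[],[],[(36,1)],[],[(37,1)],[(39,1)],[],[(40,1)],[(45,1)],[],[(46,1)],[(54,1)],[],[(55,1)]],
  [[],[],[],[],[(0,1)],[],[],[],[],[],[(1,1)],[(3,1)],[],[],[],[],[(5,1)],[],[],[],[(6,1)],[],[],[(8,1)],[],[],[(9,1)],[],[],[],[],[(13,1)],[],[(14,1)],[],[],[(17,1)],[],[],[(18,1)],[],[],[(19,1)],[],[],[(22,1)],[],[],[],[(24,1)],[],[],[(27,1)],[],[(34,1)],[],[],[],[(37,1)],[],[],[(40,1)],[],[],[(46,1)],[],[],[(55,1)]],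
  [[],[],[],[],[],[(0,1)],[],[],[],[],[],[],[],[(1,1)],[(3,1)],[],[],[],[],[(6,1)],[],[],[],[],[(8,1)],[],[],[(9,1)],[],[],[],[],[],[],[],[],[],[(17,1)],[],[],[(18,1)],[],[],[],[],[],[(22,1)],[],[],[],[],[],[],[],[],[(34,1)]],
  [[],[],[],[],[],[],[(0,1)],[],[],[],[],[],[],[],[],[],[],[(1,1),(2,1)]],
  [[],[(0,-1)],[(0,1)],[],[],[],[],[(1,1)],[],[(3,-1)],[],[],[(4,1)],[],[],[(5,1)],[(5,-1)],[],[(6,-1)],[],[],[(6,1)],[(8,-1)],[],[],[(9,1)],[],[],[(10,1)],[(11,1)],[(13,1)],[(13,-1)],[(14,1)],[(14,-1)],[(17,-1)],[(17,1)],[],[],[(18,1)],[],[],[(19,1)],[(19,-1)],[(20,1)],[(22,1)],[],[],[(23,1)],[(24,1)],[(24,-1)],[(26,1)],[(27,1)],[(27,-1)],[(34,1)],[],[],[(36,1)],[(37,1)],[(37,-1)],[(39,1)],[(40,1)],[(40,-1)],[(45,1)],[(46,1)],[(46,-1)],[(54,1)],[(55,1)],[(55,-1)]]]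

def Qd : List (List Row) := [[[],[],[],[],[],[],[],[(0,1)]],
  [[],[],[],[],[],[],[],[],[(0,1)],[],[],[],[],[],[],[],[],[],[],[],[],[],[(1,1)],[(4,1)],[(5,1)],[],[],[],[],[],[],[],[],[],[],[],[],[],[],[],[],[],[],[],[(7,1)],[(10,1)],[(13,1)],[(12,1)],[(15,1)],[(16,1)],[],[],[],[],[],[],[],[],[],[],[],[],[(28,1)],[(30,1)],[(31,1)]],
  [[],[],[],[],[],[],[],[],[],[(0,1)],[],[],[],[],[],[],[],[],[],[],[],[],[],[],[],[(2,1)],[(4,1)],[(5,1)],[],[],[],[],[],[],[],[],[],[],[],[],[],[],[],[],[],[],[],[],[],[],[(12,1)],[(15,1)],[(16,1)]],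
  [[],[],[],[],[],[],[],[],[],[],[(0,1)],[],[],[],[],[],[],[],[],[],[],[],[],[],[],[],[],[],[(2,1),(3,1)]],
  [[],[],[],[],[],[],[],[],[],[],[],[(0,1)],[],[],[],[],[],[],[],[],[],[],[],[],[],[],[],[],[],[(2,1),(3,1)]],
  [[],[],[],[],[],[],[],[],[],[],[],[],[(0,1)]],
  [[],[],[],[],[],[],[],[],[],[],[],[],[],[(0,1)],[],[],[],[],[],[],[],[],[],[],[],[],[],[],[],[],[(2,1)],[(1,1),(3,1),(4,1)]],
  [[],[],[],[],[],[],[],[],[],[],[],[],[],[],[(0,1)],[],[],[],[],[],[],[],[],[],[],[],[],[],[],[],[],[],[(2,1)],[(1,1),(3,1),(4,1)]],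
  [[],[],[],[],[],[],[],[],[],[],[],[],[],[],[],[(0,1)]],
  [[],[],[],[],[],[],[],[],[],[],[],[],[],[],[],[],[(0,1)]],
  [[],[],[],[],[],[],[],[],[],[],[],[],[],[],[],[],[],[(0,1)],[],[],[],[],[],[],[],[],[],[],[],[],[],[],[],[],[(1,1)],[(2,1),(3,1)],[(4,1)],[(5,1)],[],[],[],[],[],[],[],[],[],[],[],[],[],[],[],[(7,1)],[(10,1)],[(13,1)],[(12,1)],[(15,1)],[(16,1)],[],[],[],[],[],[],[(28,1)],[(30,1)],[(31,1)]],
  [[],[],[],[],[],[],[],[],[],[],[],[],[],[],[],[],[],[],[(0,1)],[],[],[],[],[],[],[],[],[],[],[],[],[],[],[],[],[],[],[],[(2,1)],[(4,1)],[(5,1)],[],[],[],[],[],[],[],[],[],[],[],[],[],[],[],[],[],[],[(12,1)],[(15,1)],[(16,1)]],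
  [[],[],[],[],[],[],[],[],[],[],[],[],[],[],[],[],[],[],[],[(0,1)],[],[],[],[],[],[],[],[],[],[],[],[],[],[],[],[],[],[],[],[],[],[(2,1)],[(1,1),(3,1),(4,1)]],
  [[],[],[],[],[],[],[],[],[],[],[],[],[],[],[],[],[],[],[],[],[(0,1)],[],[],[],[],[],[],[],[],[],[],[],[],[],[],[],[],[],[],[],[],[],[],[(2,1),(3,1)]],
  [[],[],[],[],[],[],[],[],[],[],[],[],[],[],[],[],[],[],[],[],[],[(0,1)]]]

def oV : List ℕ := []

def oA1 : List ℕ := [2]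

def oA2 : List ℕ := [1]

def oA3 : List ℕ := [3]

def oB1 : List ℕ := [6, 2]

def oB2 : List ℕ := [1, 2]

def oB3 : List ℕ := [1, 3]

def oB4 : List ℕ := [3, 4]

def oC1 : List ℕ := [6, 2, 5]

def oC2 : List ℕ := [1, 2, 3]

def oC3 : List ℕ := [1, 3, 4]

def oD1 : List ℕ := [6, 2, 3, 5]

def oD2 : List ℕ := [0, 1, 2, 3]

def oD3 : List ℕ := [0, 1, 3, 4]

def oE1 : List ℕ := [6, 2, 3, 4, 5]

def oE2 : List ℕ := [0, 1, 2, 3, 4]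

def oZ : List ℕ := [0, 1, 2, 3, 4, 5]

def YB1 : List (ℕ × List Row) := [(6,[[(1,-1)],[(7,1)],[],[(9,-1)],[(12,1)],[(15,1)],[(18,-1)],[],[(22,-1)],[(25,1)],[(28,1)],[(29,1)],[],[(30,1)],[(32,1)],[],[],[(34,-1)],[(38,1)],[(41,1)],[(43,1)],[],[(44,1)],[(47,1)],[(48,1)],[],[(50,1)],[(51,1)],[],[],[],[],[],[],[(53,1)],[],[(56,1)],[(57,1)],[],[(59,1)],[(60,1)],[],[],[],[],[(62,1)],[(63,1)],[],[],[],[],[],[],[],[(65,1)],[(66,1)]]),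
  (2,[[(3,1)],[(8,1)],[],[],[],[(15,1),(16,1)],[(18,1),(21,1)],[],[],[],[],[],[],[(30,1),(31,1)],[(32,1),(33,1)],[],[],[(34,1),(35,1)],[],[(41,1),(42,1)],[],[],[],[],[(48,1),(49,1)],[],[],[(51,1),(52,1)],[],[],[],[],[],[],[],[],[],[(57,1),(58,1)],[],[],[(60,1),(61,1)],[],[],[],[],[],[(63,1),(64,1)],[],[],[],[],[],[],[],[],[(66,1),(67,1)]])]

def GVA1 : List Row := [[(3,1)],[],[(8,1)],[],[(12,1)],[(16,1)],[(21,1)],[],[],[],[(28,1)],[(29,1)],[],[(31,1)],[(33,1)],[],[],[(35,1)],[],[(42,1)],[(43,1)],[],[],[(47,1)],[(49,1)],[],[(50,1)],[(52,1)],[],[],[],[],[],[],[],[],[(56,1)],[(58,1)],[],[(59,1)],[(61,1)],[],[],[],[],[(62,1)],[(64,1)],[],[],[],[],[],[],[],[(65,1)],[(67,1)]]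

def HVA1 : List (ℕ × List (ℕ × Row)) := [(6,[]),(2,[])]

def YB2 : List (ℕ × List Row) := [(1,[[(2,1)],[(7,1)],[],[],[(12,1)],[(15,1)],[(21,1)],[],[],[(25,1)],[(28,1)],[(29,1)],[],[(30,1)],[(32,1)],[],[],[(35,1)],[(38,1)],[(41,1)],[(43,1)],[],[(44,1)],[(47,1)],[(48,1)],[],[(50,1)],[(51,1)],[],[],[],[],[],[],[(53,1)],[],[(56,1)],[(57,1)],[],[(59,1)],[(60,1)],[],[],[],[],[(62,1)],[(63,1)],[],[],[],[],[],[],[],[(65,1)],[(66,1)]]),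
  (2,[[(3,1)],[(8,1)],[],[],[],[(16,1)],[],[],[],[],[],[],[],[(31,1)],[(33,1)],[],[],[],[],[(42,1)],[],[],[],[],[(49,1)],[],[],[(52,1)],[],[],[],[],[],[],[],[],[],[(58,1)],[],[],[(61,1)],[],[],[],[],[],[(64,1)],[],[],[],[],[],[],[],[],[(67,1)]])]

def GVA2 : List Row := [[(2,1)],[(7,1)],[],[],[(12,1)],[(15,1)],[(21,1)],[],[],[(25,1)],[(28,1)],[(29,1)],[],[(30,1)],[(32,1)],[],[],[(35,1)],[(38,1)],[(41,1)],[(43,1)],[],[(44,1)],[(47,1)],[(48,1)],[],[(50,1)],[(51,1)],[],[],[],[],[],[],[(53,1)],[],[(56,1)],[(57,1)],[],[(59,1)],[(60,1)],[],[],[],[],[(62,1)],[(63,1)],[],[],[],[],[],[],[],[(65,1)],[(66,1)]]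

def HVA2 : List (ℕ × List (ℕ × Row)) := [(1,[]),(2,[])]

def YB3 : List (ℕ × List Row) := [(1,[[(2,1)],[(7,1)],[],[],[(12,1)],[(15,1)],[(21,1)],[],[],[(25,1)],[(28,1)],[(29,1)],[],[(30,1)],[(32,1)],[],[],[(35,1)],[(38,1)],[(41,1)],[(43,1)],[],[(44,1)],[(47,1)],[(48,1)],[],[(50,1)],[(51,1)],[],[],[],[],[],[],[(53,1)],[],[(56,1)],[(57,1)],[],[(59,1)],[(60,1)],[],[],[],[],[(62,1)],[(63,1)],[],[],[],[],[],[],[],[(65,1)],[(66,1)]]),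
  (3,[[(4,1)],[(10,1)],[],[(11,1)],[],[(16,1)],[(20,1)],[],[(23,1)],[(26,1)],[],[],[],[(31,1)],[(33,1)],[],[],[(36,1)],[(39,1)],[(42,1)],[],[],[(45,1)],[],[(49,1)],[],[],[(52,1)],[],[],[],[],[],[],[(54,1)],[],[],[(58,1)],[],[],[(61,1)],[],[],[],[],[],[(64,1)],[],[],[],[],[],[],[],[],[(67,1)]])]

def GA1B1 : List Row := [[(1,-1)],[(7,1)],[],[(9,-1)],[],[(15,1)],[(18,-1)],[],[(22,-1)],[(25,1)],[],[],[],[(30,1)],[(32,1)],[],[],[(34,-1)],[(38,1)],[(41,1)],[],[],[(44,1)],[],[(48,1)],[],[],[(51,1)],[],[],[],[],[],[],[(53,1)],[],[],[(57,1)],[],[],[(60,1)],[],[],[],[],[],[(63,1)],[],[],[],[],[],[],[],[],[(66,1)]]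

def HA1B1 : List (ℕ × List (ℕ × Row)) := [(1,[]),(3,[(2,[(3,1)])])]

def YD1 : List (ℕ × List Row) := [(6,[[(1,-1)],[(7,1)],[],[(9,-1)],[(12,1)],[(15,1)],[(18,-1)],[],[(22,-1)],[(25,1)],[(28,1)],[(29,1)],[],[(30,1)],[(32,1)],[],[],[(34,-1)],[(38,1)],[(41,1)],[(43,1)],[],[(44,1)],[(47,1)],[(48,1)],[],[(50,1)],[(51,1)],[],[],[],[],[],[],[(53,1)],[],[(56,1)],[(57,1)],[],[(59,1)],[(60,1)],[],[],[],[],[(62,1)],[(63,1)],[],[],[],[],[],[],[],[(65,1)],[(66,1)]]),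
  (2,[[(3,1)],[(8,1)],[],[],[],[(15,1),(16,1)],[(18,1),(21,1)],[],[],[],[],[],[],[(30,1),(31,1)],[(32,1),(33,1)],[],[],[(34,1),(35,1)],[],[(41,1),(42,1)],[],[],[],[],[(48,1),(49,1)],[],[],[(51,1),(52,1)],[],[],[],[],[],[],[],[],[],[(57,1),(58,1)],[],[],[(60,1),(61,1)],[],[],[],[],[],[(63,1),(64,1)],[],[],[],[],[],[],[],[],[(66,1),(67,1)]]),
  (3,[[(4,1)],[(10,1)],[],[(11,1)],[],[],[(20,1)],[],[(23,1)],[(26,1)],[],[],[],[],[],[],[],[(36,1)],[(39,1)],[],[],[],[(45,1)],[],[],[],[],[],[],[],[],[],[],[],[(54,1)]]),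
  (5,[[(6,1)],[(17,1)]])]

def GA2B2 : List Row := [[(3,1)],[],[(8,1)],[],[],[(16,1)],[],[],[],[],[],[],[],[(31,1)],[(33,1)],[],[],[],[],[(42,1)],[],[],[],[],[(49,1)],[],[],[(52,1)],[],[],[],[],[],[],[],[],[],[(58,1)],[],[],[(61,1)],[],[],[],[],[],[(64,1)],[],[],[],[],[],[],[],[],[(67,1)]]

def HA2B2 : List (ℕ × List (ℕ × Row)) := [(6,[]),(2,[]),(3,[(1,[(3,1)])]),(5,[(1,[(5,1)])])]

def GA2B3 : List Row := [[(4,1)],[(10,1)],[],[(11,1)],[],[(16,1)],[(20,1)],[],[(23,1)],[(26,1)],[],[],[],[(31,1)],[(33,1)],[],[],[(36,1)],[(39,1)],[(42,1)],[],[],[(45,1)],[],[(49,1)],[],[],[(52,1)],[],[],[],[],[],[],[(54,1)],[],[],[(58,1)],[],[],[(61,1)],[],[],[],[],[],[(64,1)],[],[],[],[],[],[],[],[],[(67,1)]]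

def HA2B3 : List (ℕ × List (ℕ × Row)) := [(1,[]),(3,[])]

def YE1 : List (ℕ × List Row) := [(6,[[(1,-1)],[(7,1)],[],[(9,-1)],[(12,1)],[(15,1)],[(18,-1)],[],[(22,-1)],[(25,1)],[(28,1)],[(29,1)],[],[(30,1)],[(32,1)],[],[],[(34,-1)],[(38,1)],[(41,1)],[(43,1)],[],[(44,1)],[(47,1)],[(48,1)],[],[(50,1)],[(51,1)],[],[],[],[],[],[],[(53,1)],[],[(56,1)],[(57,1)],[],[(59,1)],[(60,1)],[],[],[],[],[(62,1)],[(63,1)],[],[],[],[],[],[],[],[(65,1)],[(66,1)]]),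
  (2,[[(3,1)],[(8,1)],[],[],[],[(15,1),(16,1)],[(18,1),(21,1)],[],[],[],[],[],[],[(30,1),(31,1)],[(32,1),(33,1)],[],[],[(34,1),(35,1)],[],[(41,1),(42,1)],[],[],[],[],[(48,1),(49,1)],[],[],[(51,1),(52,1)],[],[],[],[],[],[],[],[],[],[(57,1),(58,1)],[],[],[(60,1),(61,1)],[],[],[],[],[],[(63,1),(64,1)],[],[],[],[],[],[],[],[],[(66,1),(67,1)]]),
  (3,[[(4,1)],[(10,1)],[],[(11,1)],[],[],[(20,1)],[],[(23,1)],[(26,1)],[],[],[],[],[],[],[],[(36,1)],[(39,1)],[],[],[],[(45,1)],[],[],[],[],[],[],[],[],[],[],[],[(54,1)]]),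
  (4,[[(5,1)],[(13,1)],[],[(14,1)],[],[],[(19,1)],[],[(24,1)],[(27,1)],[],[],[],[],[],[],[],[(37,1)],[(40,1)],[],[],[],[(46,1)],[],[],[],[],[],[],[],[],[],[],[],[(55,1)]]),
  (5,[[(6,1)],[(17,1)]])]

def GB1C1 : List Row := [[(6,1)],[],[(17,1)]]

def HB1C1 : List (ℕ × List (ℕ × Row)) := [(6,[]),(2,[]),(3,[]),(4,[]),(5,[])]

def YC3 : List (ℕ × List Row) := [(1,[[(2,1)],[(7,1)],[],[],[(12,1)],[(15,1)],[(21,1)],[],[],[(25,1)],[(28,1)],[(29,1)],[],[(30,1)],[(32,1)],[],[],[(35,1)],[(38,1)],[(41,1)],[(43,1)],[],[(44,1)],[(47,1)],[(48,1)],[],[(50,1)],[(51,1)],[],[],[],[],[],[],[(53,1)],[],[(56,1)],[(57,1)],[],[(59,1)],[(60,1)],[],[],[],[],[(62,1)],[(63,1)],[],[],[],[],[],[],[],[(65,1)],[(66,1)]]),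
  (3,[[(4,1)],[(10,1)],[],[(11,1)],[],[(16,1)],[(20,1)],[],[(23,1)],[(26,1)],[],[],[],[(31,1)],[(33,1)],[],[],[(36,1)],[(39,1)],[(42,1)],[],[],[(45,1)],[],[(49,1)],[],[],[(52,1)],[],[],[],[],[],[],[(54,1)],[],[],[(58,1)],[],[],[(61,1)],[],[],[],[],[],[(64,1)],[],[],[],[],[],[],[],[],[(67,1)]]),
  (4,[[(5,1)],[(13,1)],[],[(14,1)],[],[],[(19,1)],[],[(24,1)],[(27,1)],[],[],[],[],[],[],[],[(37,1)],[(40,1)],[],[],[],[(46,1)],[],[],[],[],[],[],[],[],[],[],[],[(55,1)]])]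

def GB2C2 : List Row := [[(4,1)],[(10,1)],[],[(11,1)],[],[],[(20,1)],[],[(23,1)],[(26,1)],[],[],[],[],[],[],[],[(36,1)],[(39,1)],[],[],[],[(45,1)],[],[],[],[],[],[],[],[],[],[],[],[(54,1)]]

def HB2C2 : List (ℕ × List (ℕ × Row)) := [(1,[]),(3,[]),(4,[(2,[(4,1)])])]

def GB3C3 : List Row := [[(5,1)],[(13,1)],[],[(14,1)],[],[],[(19,1)],[],[(24,1)],[(27,1)],[],[],[],[],[],[],[],[(37,1)],[(40,1)],[],[],[],[(46,1)],[],[],[],[],[],[],[],[],[],[],[],[(55,1)]]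

def HB3C3 : List (ℕ × List (ℕ × Row)) := [(1,[]),(3,[]),(4,[])]

def GC1D1 : List Row := [[(4,1)],[(10,1)],[],[(11,1)],[],[],[(20,1)],[],[(23,1)],[(26,1)],[],[],[],[],[],[],[],[(36,1)],[(39,1)],[],[],[],[(45,1)],[],[],[],[],[],[],[],[],[],[],[],[(54,1)]]

def HC1D1 : List (ℕ × List (ℕ × Row)) := [(1,[]),(3,[]),(4,[(2,[(4,1)])])]

def YD3 : List (ℕ × List Row) := [(0,[[(1,1)],[],[],[(9,1)],[],[(16,1)],[(18,1)],[],[(22,1)],[],[],[],[],[(31,1)],[(33,1)],[],[],[(34,1)],[],[(42,1)],[],[],[],[],[(49,1)],[],[],[(52,1)],[],[],[],[],[],[],[],[],[],[(58,1)],[],[],[(61,1)],[],[],[],[],[],[(64,1)],[],[],[],[],[],[],[],[],[(67,1)]]),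
  (1,[[(2,1)],[(7,1)],[],[],[(12,1)],[(15,1)],[(21,1)],[],[],[(25,1)],[(28,1)],[(29,1)],[],[(30,1)],[(32,1)],[],[],[(35,1)],[(38,1)],[(41,1)],[(43,1)],[],[(44,1)],[(47,1)],[(48,1)],[],[(50,1)],[(51,1)],[],[],[],[],[],[],[(53,1)],[],[(56,1)],[(57,1)],[],[(59,1)],[(60,1)],[],[],[],[],[(62,1)],[(63,1)],[],[],[],[],[],[],[],[(65,1)],[(66,1)]]),
  (3,[[(4,1)],[(10,1)],[],[(11,1)],[],[],[(20,1)],[],[(23,1)],[(26,1)],[],[],[],[],[],[],[],[(36,1)],[(39,1)],[],[],[],[(45,1)],[],[],[],[],[],[],[],[],[],[],[],[(54,1)]]),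
  (4,[[(5,1)],[(13,1)],[],[(14,1)],[],[],[(19,1)],[],[(24,1)],[(27,1)],[],[],[],[],[],[],[],[(37,1)],[(40,1)],[],[],[],[(46,1)],[],[],[],[],[],[],[],[],[],[],[],[(55,1)]])]

def GC2D2 : List Row := [[(1,1)],[],[],[(9,1)],[],[],[(18,1)],[],[(22,1)],[],[],[],[],[],[],[],[],[(34,1)]]

def HC2D2 : List (ℕ × List (ℕ × Row)) := [(0,[]),(1,[]),(3,[]),(4,[(2,[(4,1)])])]

def GC3D3 : List Row := [[(1,1)],[],[],[(9,1)],[],[],[(18,1)],[],[(22,1)],[],[],[],[],[],[],[],[],[(34,1)]]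

def HC3D3 : List (ℕ × List (ℕ × Row)) := [(0,[]),(1,[]),(3,[]),(4,[(3,[(4,1)])])]

def GD1E1 : List Row := [[(5,1)],[(13,1)],[],[(14,1)],[],[],[(19,1)],[],[(24,1)],[(27,1)],[],[],[],[],[],[],[],[(37,1)],[(40,1)],[],[],[],[(46,1)],[],[],[],[],[],[],[],[],[],[],[],[(55,1)]]

def HD1E1 : List (ℕ × List (ℕ × Row)) := [(1,[]),(3,[]),(4,[])]

def GD2E2 : List Row := [[(5,1)],[(13,1)],[],[(14,1)],[],[],[(19,1)],[],[(24,1)],[(27,1)],[],[],[],[],[],[],[],[(37,1)],[(40,1)],[],[],[],[(46,1)],[],[],[],[],[],[],[],[],[],[],[],[(55,1)]]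

def HD2E2 : List (ℕ × List (ℕ × Row)) := [(1,[]),(3,[]),(4,[])]

def GD3E2 : List Row := [[(3,1)],[],[(8,1)]]

def HD3E2 : List (ℕ × List (ℕ × Row)) := [(6,[]),(2,[]),(3,[(1,[(3,1)])]),(4,[(0,[(4,1)])]),(5,[(1,[(5,1)])])]

def GE2Z : List Row := [[(6,1)],[],[(17,1)]]

def HE2Z : List (ℕ × List (ℕ × Row)) := [(6,[]),(2,[]),(3,[]),(4,[]),(5,[])]

def WE1 : List (ℕ × List Row) := [(6,[[],[(7,1)],[],[(9,-1)],[(12,1)],[(15,1)],[(18,-1)],[],[(22,-1)],[(25,1)],[(28,1)],[(29,1)],[],[(30,1)],[(32,1)],[],[],[(34,-1)],[(38,1)],[(41,1)],[(43,1)],[],[(44,1)],[(47,1)],[(48,1)],[],[(50,1)],[(51,1)],[],[],[],[],[],[],[(53,1)],[],[(56,1)],[(57,1)],[],[(59,1)],[(60,1)],[],[],[],[],[(62,1)],[(63,1)],[],[],[],[],[],[],[],[(65,1)],[(66,1)]]),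
  (2,[[],[(8,1)],[],[],[],[(15,1),(16,1)],[(18,1),(21,1)],[],[],[],[],[],[],[(30,1),(31,1)],[(32,1),(33,1)],[],[],[(34,1),(35,1)],[],[(41,1),(42,1)],[],[],[],[],[(48,1),(49,1)],[],[],[(51,1),(52,1)],[],[],[],[],[],[],[],[],[],[(57,1),(58,1)],[],[],[(60,1),(61,1)],[],[],[],[],[],[(63,1),(64,1)],[],[],[],[],[],[],[],[],[(66,1),(67,1)]]),
  (3,[[],[(10,1)],[],[(11,1)],[],[],[(20,1)],[],[(23,1)],[(26,1)],[],[],[],[],[],[],[],[(36,1)],[(39,1)],[],[],[],[(45,1)],[],[],[],[],[],[],[],[],[],[],[],[(54,1)]]),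
  (4,[[],[(13,1)],[],[(14,1)],[],[],[(19,1)],[],[(24,1)],[(27,1)],[],[],[],[],[],[],[],[(37,1)],[(40,1)],[],[],[],[(46,1)],[],[],[],[],[],[],[],[],[],[],[],[(55,1)]]),
  (5,[[],[(17,1)]])]

def WZ : List (ℕ × List Row) := [(0,[[],[],[],[(9,1)],[],[(16,1)],[(18,1)],[],[(22,1)],[],[],[],[],[(31,1)],[(33,1)],[],[],[(34,1)],[],[(42,1)],[],[],[],[],[(49,1)],[],[],[(52,1)],[],[],[],[],[],[],[],[],[],[(58,1)],[],[],[(61,1)],[],[],[],[],[],[(64,1)],[],[],[],[],[],[],[],[],[(67,1)]]),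
  (1,[[],[(7,1)],[],[],[(12,1)],[(15,1)],[(21,1)],[],[],[(25,1)],[(28,1)],[(29,1)],[],[(30,1)],[(32,1)],[],[],[(35,1)],[(38,1)],[(41,1)],[(43,1)],[],[(44,1)],[(47,1)],[(48,1)],[],[(50,1)],[(51,1)],[],[],[],[],[],[],[(53,1)],[],[(56,1)],[(57,1)],[],[(59,1)],[(60,1)],[],[],[],[],[(62,1)],[(63,1)],[],[],[],[],[],[],[],[(65,1)],[(66,1)]]),
  (2,[[],[(8,1)]]),
  (3,[[],[(10,1)],[],[(11,1)],[],[],[(20,1)],[],[(23,1)],[(26,1)],[],[],[],[],[],[],[],[(36,1)],[(39,1)],[],[],[],[(45,1)],[],[],[],[],[],[],[],[],[],[],[],[(54,1)]]),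
  (4,[[],[(13,1)],[],[(14,1)],[],[],[(19,1)],[],[(24,1)],[(27,1)],[],[],[],[],[],[],[],[(37,1)],[(40,1)],[],[],[],[(46,1)],[],[],[],[],[],[],[],[],[],[],[],[(55,1)]]),
  (5,[[],[(17,1)]])]

def Lm (a : ℕ) : ℕ → Row := mk (Ld.getD a [])
def Rm (a : ℕ) : ℕ → Row := mk (Rd.getD a [])
def Qm (a : ℕ) : ℕ → Row := mk (Qd.getD a [])
def cf (r a b : ℕ) : ℤ := ev (Lm a (7 + r)) (1 + b)

theorem cVA1 : stepOK Rm oV oA1 oB1 2 GVA1 HVA1 YB1 = true := by decide +kernel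
theorem cVA2 : stepOK Rm oV oA2 oB2 1 GVA2 HVA2 YB2 = true := by decide +kernel
theorem cA1B1 : stepOK Rm oA1 oB1 oB3 6 GA1B1 HA1B1 YB3 = true := by decide +kernel
theorem cA2B2 : stepOK Rm oA2 oB2 oD1 2 GA2B2 HA2B2 YD1 = true := by decide +kernel
theorem cA2B3 : stepOK Rm oA2 oB3 oB3 3 GA2B3 HA2B3 YB3 = true := by decide +kernel
theorem cB1C1 : stepOK Rm oB1 oC1 oE1 5 GB1C1 HB1C1 YE1 = true := by decide +kernel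
theorem cB2C2 : stepOK Rm oB2 oC2 oC3 3 GB2C2 HB2C2 YC3 = true := by decide +kernel
theorem cB3C3 : stepOK Rm oB3 oC3 oC3 4 GB3C3 HB3C3 YC3 = true := by decide +kernel
theorem cC1D1 : stepOK Rm oC1 oD1 oC3 3 GC1D1 HC1D1 YC3 = true := by decide +kernel
theorem cC2D2 : stepOK Rm oC2 oD2 oD3 0 GC2D2 HC2D2 YD3 = true := by decide +kernel
theorem cC3D3 : stepOK Rm oC3 oD3 oD3 0 GC3D3 HC3D3 YD3 = true := by decide +kernel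
theorem cD1E1 : stepOK Rm oD1 oE1 oC3 4 GD1E1 HD1E1 YC3 = true := by decide +kernel
theorem cD2E2 : stepOK Rm oD2 oE2 oC3 4 GD2E2 HD2E2 YC3 = true := by decide +kernel
theorem cD3E2 : stepOK Rm oD3 oE2 oE1 2 GD3E2 HD3E2 YE1 = true := by decide +kernel
theorem cE2Z : stepOK Rm oE2 oZ oE1 5 GE2Z HE2Z YE1 = true := by decide +kernel
theorem bE1 : baseOK Rm oE1 WE1 = true := by decide +kernel
theorem bZ : baseOK Rm oZ WZ = true := by decide +kernel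

theorem hL0 : ((List.range 6).all fun c => homOK (Lm c) 1 0) = true := by decide +kernel
theorem hR0 : ((List.range 7).all fun c => homOK (Rm c) 1 0) = true := by decide +kernel
theorem hC0 : ((List.range 7).all fun c => (List.range 6).all fun b =>
    allZ fun j => mulRow (Lm b j) (Rm c) ++ sc (-1) (mulRow (Rm c j) (Lm b))) = true := by
  decide +kernel
theorem hQ0 : ((List.range 6).all fun a => (List.range 6).all fun b =>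
    allZ fun j => mulRow (Lm a j) (Lm b) ++
      sc (-1) ((List.range 15).flatMap fun r => sc (cf r a b) (Qm r j))) = true := by
  decide +kernel

end Pool.Agent.H51.KoszulB
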