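import Pool.Agent.H51.KoszulDefs

set_option autoImplicit false

namespace Pool.Agent.H51.KoszulC

open Pool.Agent.H51.KoszulDefs Finset Polynomial CategoryTheory Matrix
open scoped ModuleCat.Algebra

universe u

variable {k : Type u} [Field k] {d : ℕ} {R : Submodule k (Fin d → Fin d → k)}

lemma ind (P : QA k d R → Prop) (h1 : P 1) (hs : ∀ (c : k) a, P a → P (c • a))
    (ha : ∀ a b, P a → P b → P (a + b)) (hm : ∀ a b, P a → P (a * gen k d R b)) (a : QA k d R) :
    P a := by
  obtain ⟨t, rfl⟩ := RingQuot.mkAlgHom_surjective k (Rel k d R) a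
  have : ∀ u, P u → P (u * RingQuot.mkAlgHom k (Rel k d R) t) := by
    induction t using FreeAlgebra.induction with
    | grade0 r =>
      intro u hu
      rw [AlgHom.commutes, ← Algebra.commutes, ← Algebra.smul_def]; exact hs _ _ hu
    | grade1 x => intro u hu; exact hm _ _ hu
    | mul a b iha ihb => intro u hu; rw [map_mul, ← mul_assoc]; exact ihb _ (iha _ hu)
    | add a b iha ihb => intro u hu; rw [map_add, mul_add]; exact ha _ _ (iha _ hu) (ihb _ hu)
  simpa using this 1 h1

lemma rel_zero {c : Fin d → Fin d → k} (hc : c ∈ R) :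
    ∑ a, ∑ b, c a b • (gen k d R a * gen k d R b) = 0 := by
  have := RingQuot.mkAlgHom_rel k (show Rel k d R (quad k d c) 0 from ⟨⟨c, hc, rfl⟩, rfl⟩)
  simpa [quad, gen] using this

lemma aug_gen (a : Fin d) : aug k d R (gen k d R a) = 0 := by
  simp [aug, gen]

noncomputable def phi : QA k d R →ₐ[k] (QA k d R)[X] :=
  RingQuot.liftAlgHom k ⟨FreeAlgebra.lift k (fun a => C (gen k d R a) * X), by
    rintro _ _ ⟨⟨c, hc, rfl⟩, rfl⟩
    have e : ∀ a b, C (gen k d R a) * X * (C (gen k d R b) * X)
        = C (gen k d R a * gen k d R b) * (X * X) := fun a b => by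
      rw [C_mul, mul_assoc, ← mul_assoc X, X_mul_C]; simp only [mul_assoc]
    simp only [quad, map_sum, map_smul, map_mul (FreeAlgebra.lift k _), FreeAlgebra.lift_ι_apply,
      map_zero, e]
    have h0 := rel_zero hc
    simp only [← smul_mul_assoc] at h0
    simp only [← smul_mul_assoc, ← sum_mul, smul_C, ← map_sum C, h0, zero_mul, map_zero]⟩

lemma phi_gen (a : Fin d) : phi (gen k d R a) = C (gen k d R a) * X := by
  simp [phi, gen]

noncomputable def tau (j : ℕ) : QA k d R →ₗ[k] QA k d R where
  toFun a := ∑ n ∈ range j, (phi a).coeff n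
  map_add' a b := by simp [sum_add_distrib]
  map_smul' c a := by simp [smul_sum]

lemma tau_zero (a : QA k d R) : tau 0 a = 0 := by simp [tau]

lemma tau_succ (j : ℕ) (a : QA k d R) (b : Fin d) :
    tau (j + 1) (a * gen k d R b) = tau j a * gen k d R b := by
  simp only [tau, LinearMap.coe_mk, AddHom.coe_mk, sum_range_succ', map_mul, phi_gen,
    ← mul_assoc, coeff_mul_X, coeff_mul_C, mul_coeff_zero, coeff_X_zero, mul_zero, add_zero,
    sum_mul]

lemma tau_one (j : ℕ) : tau (j + 1) (1 : QA k d R) = 1 := by
  simp [tau, sum_range_succ', coeff_one]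

lemma tau_tau (a : QA k d R) : ∀ j, tau j (tau j a) = tau j a := by
  induction a using ind with
  | h1 => rintro (_ | j); · simp [tau_zero]
          · rw [tau_one, tau_one]
  | hs c a h => intro j; rw [map_smul, map_smul, h]
  | ha a b h h' => intro j; rw [map_add, map_add, h, h']
  | hm a b h => rintro (_ | j); · simp [tau_zero]
                · rw [tau_succ, tau_succ, h]

lemma tau_fin (a : QA k d R) : ∃ j, ∀ j', j ≤ j' → tau j' a = a := by
  induction a using ind with
  | h1 => exact ⟨1, fun j hj => by obtain ⟨j, rfl⟩ := Nat.exists_eq_add_of_le' hj; exact tau_one j⟩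
  | hs c a h => obtain ⟨j, h⟩ := h; exact ⟨j, fun j' hj => by rw [map_smul, h j' hj]⟩
  | ha a b h h' =>
    obtain ⟨j, h⟩ := h; obtain ⟨i, h'⟩ := h'
    exact ⟨max j i, fun j' hj => by
      rw [map_add, h j' (le_trans (le_max_left _ _) hj), h' j' (le_trans (le_max_right _ _) hj)]⟩
  | hm a b h =>
    obtain ⟨j, h⟩ := h
    refine ⟨j + 1, fun j' hj => ?_⟩
    obtain ⟨i, rfl⟩ : ∃ i, j' = i + 1 := ⟨j' - 1, by omega⟩
    rw [tau_succ, h i (by omega)]

lemma ker_aug (a : QA k d R) :
    ∃ z : Fin d → QA k d R, a = algebraMap k _ (aug k d R a) + ∑ b, z b * gen k d R b := by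
  induction a using ind with
  | h1 => exact ⟨0, by simp⟩
  | hs c a h =>
    obtain ⟨z, h⟩ := h
    refine ⟨fun b => c • z b, ?_⟩
    conv_lhs => rw [h]
    simp [smul_sum, Algebra.smul_def, mul_sum, mul_add, mul_assoc]
  | ha a b h h' =>
    obtain ⟨z, h⟩ := h; obtain ⟨y, h'⟩ := h'
    refine ⟨z + y, ?_⟩
    conv_lhs => rw [h, h']
    simp only [map_add, Pi.add_apply, add_mul, sum_add_distrib]; abel
  | hm a b _ =>
    refine ⟨Pi.single b a, ?_⟩
    rw [map_mul, aug_gen, mul_zero, map_zero, zero_add, sum_eq_single b] <;> simp +contextual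

/-- exactness in homological degree one -/
lemma exact_one {W : Type u} [AddCommGroup W] [Module (QA k d R) W] [Module k W]
    [IsScalarTower k (QA k d R) W] (e : Fin d → W)
    (he : ∀ c ∈ R, ∑ a, ∑ b, c a b • (gen k d R a • e b) = 0)
    (z : Fin d → QA k d R) (hz : ∑ b, z b * gen k d R b = 0) : ∑ b, z b • e b = 0 := by
  let F : Fin d → Module.End k (W × k) := fun b =>
    { toFun := fun p => (gen k d R b • p.1 + p.2 • e b, 0)
      map_add' := fun p q => by
        ext
        · simp only [Prod.fst_add, Prod.snd_add, smul_add, add_smul]; abel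
        · simp
      map_smul' := fun c p => by
        ext
        · simp only [Prod.smul_fst, Prod.smul_snd, RingHom.id_apply, smul_add, smul_eq_mul,
            mul_smul, smul_comm c (gen k d R b)]
        · simp }
  have hF : ∀ b p, F b p = (gen k d R b • p.1 + p.2 • e b, 0) := fun _ _ => rfl
  let ρ : QA k d R →ₐ[k] Module.End k (W × k) :=
    RingQuot.liftAlgHom k ⟨FreeAlgebra.lift k F, by
      rintro _ _ ⟨⟨c, hc, rfl⟩, rfl⟩
      refine LinearMap.ext fun p => ?_
      simp only [quad, map_sum, map_smul, map_mul, FreeAlgebra.lift_ι_apply, map_zero,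
        LinearMap.sum_apply, LinearMap.smul_apply, Module.End.mul_apply, hF, LinearMap.zero_apply]
      ext
      · simp only [Prod.fst_sum, Prod.smul_fst, zero_smul, add_zero, smul_add, sum_add_distrib,
          Prod.fst_zero]
        have e1 : ∑ a, ∑ b, c a b • gen k d R a • gen k d R b • p.1
            = (∑ a, ∑ b, c a b • (gen k d R a * gen k d R b)) • p.1 := by
          simp only [sum_smul, smul_assoc, mul_smul]
        have e2 : ∑ a, ∑ b, c a b • gen k d R a • p.2 • e b
            = p.2 • ∑ a, ∑ b, c a b • gen k d R a • e b := by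
          simp only [smul_sum]
          refine sum_congr rfl fun a _ => sum_congr rfl fun b _ => ?_
          rw [← smul_comm p.2 (gen k d R a), smul_comm]
        rw [e1, e2, rel_zero hc, he c hc]; simp
      · simp [Prod.snd_sum]⟩
  have hρ : ∀ b, ρ (gen k d R b) = F b := fun b => by simp [ρ, gen]
  have h1 : ∀ (a : QA k d R) (q : W), ρ a (q, 0) = (a • q, 0) := by
    intro a
    induction a using ind with
    | h1 => intro q; simp
    | hs c a h => intro q; rw [map_smul, LinearMap.smul_apply, h]; simp
    | ha a b h h' => intro q; rw [map_add, LinearMap.add_apply, h, h']; simp [add_smul]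
    | hm a b h => intro q; rw [map_mul, Module.End.mul_apply, hρ, hF, h]; simp [mul_smul]
  have h2 := congrArg (fun a => (ρ a (0, 1)).1) hz
  simpa only [map_sum, map_mul, LinearMap.sum_apply, Module.End.mul_apply, hρ, hF, h1,
    Prod.fst_sum, smul_zero, zero_add, one_smul, map_zero, LinearMap.zero_apply,
    Prod.fst_zero] using h2

section ext

variable {I : ℕ → Type} [∀ i, Fintype (I i)] (M : ∀ i, Matrix (I (i + 1)) (I i) (QA k d R))
  (π : (I 0 → QA k d R) →ₗ[QA k d R] Triv k d R)

noncomputable def dm (i : ℕ) : ModuleCat.of (QA k d R) (I (i + 1) → QA k d R) ⟶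
    ModuleCat.of (QA k d R) (I i → QA k d R) :=
  ModuleCat.ofHom (M i).vecMulLinear

variable (hs : Function.Surjective π) (h0 : Function.Exact (fun f => f ᵥ* M 0) π)
  (hx : ∀ i, Function.Exact (fun f => f ᵥ* M (i + 1)) (fun f => f ᵥ* M i))

noncomputable def cx : ChainComplex (ModuleCat.{u} (QA k d R)) ℕ :=
  ChainComplex.of (fun i => ModuleCat.of (QA k d R) (I i → QA k d R)) (dm M) (fun i => by
    ext1
    refine LinearMap.ext fun f => ?_
    exact (hx i).apply_apply_eq_zero f)

lemma cx_d (i : ℕ) : (cx M hx).d (i + 1) i = dm M i :=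
  ChainComplex.of_d (fun i => ModuleCat.of (QA k d R) (I i → QA k d R)) (dm M) i

noncomputable def pp : (cx M hx).X 0 ⟶ triv k d R := ModuleCat.ofHom π

include h0 in
lemma d_pp : (cx M hx).d 1 0 ≫ pp M π hx = 0 := by
  rw [cx_d]
  ext1
  refine LinearMap.ext fun f => ?_
  exact h0.apply_apply_eq_zero f

set_option backward.isDefEq.respectTransparency false in
noncomputable def res : ProjectiveResolution (triv k d R) where
  complex := cx M hx
  projective i := by
    have : Module.Projective (QA k d R) (I i → QA k d R) := inferInstance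
    exact ModuleCat.projective_of_categoryTheory_projective (ModuleCat.of _ (I i → QA k d R))
  π := (ChainComplex.toSingle₀Equiv _ _).symm ⟨pp M π hx, d_pp M π h0 hx⟩
  quasiIso := ⟨fun n => by
    cases n with
    | zero =>
      rw [ChainComplex.quasiIsoAt₀_iff, ShortComplex.quasiIso_iff_of_zeros' _ rfl rfl rfl]
      refine (ShortComplex.exact_and_epi_g_iff_of_iso
        (S₂ := ShortComplex.mk (dm M 0) (ModuleCat.ofHom π) (by
          ext1; exact LinearMap.ext fun f => h0.apply_apply_eq_zero f)) ?_).2 ⟨?_, ?_⟩
      · exact ShortComplex.isoMk (Iso.refl _) (Iso.refl _) (Iso.refl _)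
          (by simp [cx_d]) (by simp [pp])
      · exact (ShortComplex.ShortExact.moduleCat_exact_iff_function_exact _).2 h0
      · exact (ModuleCat.epi_iff_surjective _).2 hs
    | succ m =>
      rw [quasiIsoAt_iff_exactAt' (hL := ChainComplex.exactAt_succ_single_obj ..),
          HomologicalComplex.exactAt_iff' _ (m + 2) (m + 1) m (by simp) (by simp)]
      refine (ShortComplex.ShortExact.moduleCat_exact_iff_function_exact _).2 ?_
      have e1 := cx_d M hx (m + 1)
      have e2 := cx_d M hx m
      change Function.Exact ((cx M hx).d (m + 1 + 1) (m + 1)) ((cx M hx).d (m + 1) m)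
      rw [e1, e2]
      exact hx m⟩

lemma triv_smul (a : QA k d R) (y : Triv k d R) :
    a • y = (show k from aug k d R a) * (show k from y) := rfl

lemma aug_lin {a : QA k d R} (h : a ∈ Submodule.span k (Set.range (gen k d R))) :
    aug k d R a = 0 := by
  induction h using Submodule.span_induction with
  | mem x h => obtain ⟨b, rfl⟩ := h; exact aug_gen b
  | zero => simp
  | add x y _ _ h h' => simp [h, h']
  | smul c x _ h => simp [h]

lemma dm_comp (hl : ∀ i p q, M i p q ∈ Submodule.span k (Set.range (gen k d R))) (i : ℕ)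
    (g : ModuleCat.of (QA k d R) (I i → QA k d R) ⟶ triv k d R) : dm M i ≫ g = 0 := by
  classical
  ext1
  refine LinearMap.ext fun f => ?_
  change g.hom (f ᵥ* M i) = 0
  have : f ᵥ* M i = ∑ q, (f ᵥ* M i) q • (Pi.single q 1 : I i → QA k d R) := by
    ext q; simp [Finset.sum_apply, Pi.single_apply]
  rw [this, map_sum]
  refine sum_eq_zero fun q _ => ?_
  rw [map_smul]
  have e : aug k d R ((f ᵥ* M i) q) = 0 := by
    simp [vecMul, dotProduct, aug_lin (hl i _ _)]
  change (show k from aug k d R _) * _ = 0
  rw [e, zero_mul]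

noncomputable def homEq (J : Type) [Fintype J] :
    (ModuleCat.of (QA k d R) (J → QA k d R) ⟶ triv k d R) ≃ₗ[k] (J → k) := by
  classical
  exact
  { toFun := fun g q => (show k from g.hom (Pi.single q 1))
    map_add' := fun g h => rfl
    map_smul' := fun c g => by
      funext q
      change (show k from aug k d R (algebraMap k _ c)) * _ = c * _
      rw [AlgHom.commutes]; rfl
    invFun := fun y => ModuleCat.ofHom
      (Fintype.linearCombination (QA k d R) (fun q => (show Triv k d R from y q)))
    left_inv := fun g => by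
      ext1
      refine (Pi.basisFun _ J).ext fun q => ?_
      simp
      rfl
    right_inv := fun y => by
      funext q
      change Fintype.linearCombination (QA k d R) (fun q => (show Triv k d R from y q))
        (Pi.single q 1) = _
      rw [Fintype.linearCombination_apply_single, one_smul] }

include π hs h0 hx in
lemma rank_ext (hl : ∀ i p q, M i p q ∈ Submodule.span k (Set.range (gen k d R))) (i : ℕ) :
    Module.rank k (ExtK k d R i) = Fintype.card (I i) := by
  have e1 := (res M π hs h0 hx).isoExt (R := k) i (triv k d R)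
  have hd : ∀ a b, ((cx M hx).linearYonedaObj k (triv k d R)).d a b = 0 := by
    intro a b
    by_cases h : a + 1 = b
    · subst h
      ext1
      refine LinearMap.ext fun g => ?_
      change (cx M hx).d (a + 1) a ≫ g = 0
      rw [cx_d]
      exact dm_comp M hl a g
    · exact HomologicalComplex.shape _ _ _ h
  have e2 : ((cx M hx).linearYonedaObj k (triv k d R)).homology i ≅
      ((cx M hx).linearYonedaObj k (triv k d R)).X i :=
    (ShortComplex.HomologyData.ofZeros (((cx M hx).linearYonedaObj k (triv k d R)).sc i)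
      (hd _ _) (hd _ _)).left.homologyIso
  have e3 : (ExtK k d R i) ≃ₗ[k] (I i → k) := (e1 ≪≫ e2).toLinearEquiv.trans (homEq (I i))
  rw [e3.rank_eq]
  simp

end ext

end Pool.Agent.H51.KoszulC
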