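import Pool.Agent.H51.KoszulB
import Pool.Agent.H51.KoszulC

set_option autoImplicit false

namespace Pool.Agent.H51.KoszulD

open Pool.Agent.H51.KoszulDefs Pool.Agent.H51.KoszulA Pool.Agent.H51.KoszulB
  Pool.Agent.H51.KoszulC Finset
open scoped Matrix

universe u

variable (k : Type u) [Field k]

def R0 : Submodule k (Fin 6 → Fin 6 → k) :=
  Submodule.span k {c | ∃ r < 15, c = fun a b : Fin 6 => ((cf r a b : ℤ) : k)}

abbrev A0 := QA k 6 (R0 k)

noncomputable abbrev x0 : Fin 6 → A0 k := gen k 6 (R0 k)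

lemma Rm_big {c : ℕ} (h : 7 ≤ c) : Rm c = fun _ => [] := by
  funext j
  have : Rd.length = 7 := rfl
  simp [Rm, KoszulA.mk, List.getD_eq_getElem?_getD, List.getElem?_eq_none (this ▸ h)]

lemma Lm_big {c : ℕ} (h : 6 ≤ c) : Lm c = fun _ => [] := by
  funext j
  have : Ld.length = 6 := rfl
  simp [Lm, KoszulA.mk, List.getD_eq_getElem?_getD, List.getElem?_eq_none (this ▸ h)]

lemma hR (c : ℕ) : homOK (Rm c) 1 0 = true := by
  by_cases h : c < 7
  · exact List.all_eq_true.1 hR0 c (List.mem_range.2 h)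
  · rw [Rm_big (by omega)]; simp [homOK]

lemma hL (c : ℕ) : homOK (Lm c) 1 0 = true := by
  by_cases h : c < 6
  · exact List.all_eq_true.1 hL0 c (List.mem_range.2 h)
  · rw [Lm_big (by omega)]; simp [homOK]

lemma rel0 {r : ℕ} (hr : r < 15) :
    ∑ a : Fin 6, ∑ b : Fin 6, ((cf r a b : ℤ) : A0 k) * (x0 k a * x0 k b) = 0 := by
  have := rel_zero (R := R0 k) (c := fun a b : Fin 6 => ((cf r a b : ℤ) : k))
    (Submodule.subset_span ⟨r, hr, rfl⟩)
  simpa only [Algebra.smul_def, map_intCast] using this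

lemma list_sum_range (n : ℕ) (F : ℕ → ℤ) : ((List.range n).map F).sum = ∑ r ∈ range n, F r := by
  induction n with
  | zero => simp
  | succ n ih => rw [List.range_succ, List.map_append, List.sum_append, ih, sum_range_succ]; simp

section gen

variable {A : Type u} [Ring A] (x : Fin 6 → A)

lemma comm_gen (c : ℕ) (f : ℕ → A) : ap (Rm c) (dd Lm x f) = dd Lm x (ap (Rm c) f) := by
  by_cases h : c < 7
  · rw [ap_dd]
    funext t
    refine sum_congr rfl fun b _ => ?_
    rw [ap_ap (hL b), ap_ap (hR c)]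
    refine congrArg (· * x b) (congrFun (ap_congr (fun j hj t => ?_) f) t)
    have := allZ_ev (List.all_eq_true.1 (List.all_eq_true.1 hC0 c (List.mem_range.2 h)) b
      (List.mem_range.2 b.2)) hj t
    rw [ev_append, ev_sc] at this
    linarith
  · have : ∀ g : ℕ → A, ap (Rm c) g = 0 := fun g => by
      rw [Rm_big (by omega)]; funext t; simp [ap, ev]
    rw [this, this, dd_zero]

lemma sq_gen (hrel : ∀ r < 15, ∑ a : Fin 6, ∑ b : Fin 6, ((cf r a b : ℤ) : A) * (x a * x b) = 0)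
    (f : ℕ → A) : dd Lm x (dd Lm x f) = 0 := by
  funext t
  have e : ∀ a b : Fin 6, ap (Lm b) (ap (Lm a) f) t
      = ∑ r ∈ range 15, cf r a b • ap (Qm r) f t := by
    intro a b
    rw [ap_ap (hL a)]
    simp only [ap, smul_sum, smul_smul]
    rw [sum_comm]
    refine sum_congr rfl fun j hj => ?_
    rw [← sum_smul]
    congr 1
    have := allZ_ev (List.all_eq_true.1 (List.all_eq_true.1 hQ0 a (List.mem_range.2 a.2)) b
      (List.mem_range.2 b.2)) (mem_range.1 hj) t
    rw [ev_append, ev_sc, ev_flatMap, list_sum_range] at this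
    simp only [ev_sc] at this
    linarith
  have e2 : dd Lm x (dd Lm x f) t
      = ∑ r ∈ range 15, ap (Qm r) f t * ∑ a : Fin 6, ∑ b : Fin 6, cf r a b • (x a * x b) := by
    conv_lhs => rw [dd]
    simp only [ap_dd, e, sum_mul, mul_sum, smul_mul_assoc, mul_smul_comm, mul_assoc]
    rw [sum_comm]
    conv_rhs => rw [sum_comm]
    refine sum_congr rfl fun a _ => ?_
    rw [sum_comm]
  rw [e2]
  exact sum_eq_zero fun r hr => by simp only [zsmul_eq_mul]; rw [hrel r (mem_range.1 hr), mul_zero]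

def Bd : Submodule A (ℕ → A) where
  carrier := {z | ∃ g, Supp 2 g ∧ dd Lm x g = z}
  add_mem' := by
    rintro _ _ ⟨g, hg, rfl⟩ ⟨h, hh, rfl⟩
    exact ⟨g + h, hg.add hh, dd_add _ _ _ _⟩
  zero_mem' := ⟨0, fun _ _ => rfl, dd_zero _ _⟩
  smul_mem' := by
    rintro a _ ⟨g, hg, rfl⟩
    exact ⟨a • g, fun j hj => by simp [hg j hj], dd_smul _ _ _ _⟩

lemma supp1_eq {z : ℕ → A} (hz : Supp 1 z) :
    z = ∑ b : Fin 6, z (1 + b) • (Pi.single (1 + (b : ℕ)) 1 : ℕ → A) := by
  funext t
  simp only [Finset.sum_apply, Pi.smul_apply, Pi.single_apply, smul_eq_mul, mul_ite, mul_one,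
    mul_zero]
  by_cases h : 1 ≤ t ∧ t < 7
  · rw [sum_eq_single (⟨t - 1, by omega⟩ : Fin 6)]
    · have : 1 + (t - 1) = t := by omega
      simp [this]
    · intro b _ hb
      rw [if_neg]
      intro e
      exact hb (Fin.ext (by simp; omega))
    · simp
  · rw [hz t (by unfold deg; rintro ⟨-, h2⟩; split_ifs at h2 <;> omega)]
    refine (sum_eq_zero fun b _ => if_neg ?_).symm
    have := b.2
    omega

lemma ap_single (S : ℕ → Row) {j : ℕ} (hj : j < 68) (t : ℕ) :
    ap S (Pi.single j (1 : A)) t = (ev (S j) t : A) := by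
  rw [ap, sum_eq_single j]
  · simp
  · intro b _ hb; simp [hb]
  · intro h; exact absurd (mem_range.2 hj) h

lemma L_zero : ∀ b < 6, ∀ j < 68, ev (Lm b j) 0 = if j = 1 + b then 1 else 0 := by decide +kernel

lemma dd_at_zero (z : ℕ → A) : dd Lm x z 0 = ∑ b : Fin 6, z (1 + b) * x b := by
  refine sum_congr rfl fun b _ => ?_
  congr 1
  have := b.2
  rw [ap, sum_eq_single (1 + (b : ℕ))]
  · rw [L_zero b b.2 _ (by omega)]; simp
  · intro j hj hb; rw [L_zero b b.2 _ (mem_range.1 hj), if_neg hb, zero_smul]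
  · intro h; exact absurd (mem_range.2 (by omega)) h

lemma EV1_gen [Algebra k A] {τ : ℕ → A →+ A} (C : Ctx Rm Lm x τ)
    (H : ∀ (W : Type u) [AddCommGroup W] [Module A W] [Module k W] [IsScalarTower k A W]
      (e : Fin 6 → W), (∀ c ∈ R0 k, ∑ a, ∑ b, c a b • (x a • e b) = 0) →
      ∀ z : Fin 6 → A, ∑ b, z b * x b = 0 → ∑ b, z b • e b = 0) : E Rm Lm x oV 1 := by
  intro z _ hs hd
  have h := H ((ℕ → A) ⧸ Bd x)
    (fun b => (Bd x).mkQ (Pi.single (1 + (b : ℕ)) 1)) ?_ (fun b => z (1 + b))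
    (by rw [← dd_at_zero, hd]; rfl)
  · simp only [← map_smul, ← map_sum] at h
    rw [← supp1_eq hs, Submodule.mkQ_apply, Submodule.Quotient.mk_eq_zero] at h
    obtain ⟨g, hg, e⟩ := h
    exact ⟨g, fun c hc => by simp [oV] at hc, hg, e⟩
  · intro c hc
    induction hc using Submodule.span_induction with
    | mem c h =>
      obtain ⟨r, hr, rfl⟩ := h
      have hs2 : Supp 2 (Pi.single (7 + r) (1 : A) : ℕ → A) := by
        intro j hj
        rw [Pi.single_apply, if_neg]
        rintro rfl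
        exact hj ⟨by omega, by unfold deg; split_ifs <;> omega⟩
      have hm : dd Lm x (Pi.single (7 + r) 1) ∈ Bd x := ⟨_, hs2, rfl⟩
      rw [supp1_eq (C.supp_dd hs2), ← Submodule.Quotient.mk_eq_zero,
        ← Submodule.mkQ_apply] at hm
      rw [← hm, map_sum, sum_comm]
      refine sum_congr rfl fun b _ => ?_
      rw [map_smul]
      simp only [dd, ap_single _ (show 7 + r < 68 by omega), sum_smul,
        Int.cast_smul_eq_zsmul, cf]
      refine Finset.sum_congr (s₁ := univ) rfl fun a _ => ?_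
      rw [mul_smul, Int.cast_smul_eq_zsmul]
    | zero => simp
    | add x y _ _ h h' => simp only [Pi.add_apply, add_smul, sum_add_distrib, h, h', add_zero]
    | smul c x _ h =>
      simp only [Pi.smul_apply, smul_eq_mul, mul_smul, ← smul_sum, h, smul_zero]

end gen

lemma ctx : Ctx Rm Lm (x0 k) (fun j => (tau j).toAddMonoidHom) where
  hR := hR
  hL := hL
  comm := comm_gen _
  sq := sq_gen _ (fun _ hr => rel0 k hr)
  t0 := tau_zero
  ts := tau_succ
  tt j a := tau_tau a j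
  tf := tau_fin

lemma EV1 : E Rm Lm (x0 k) oV 1 :=
  EV1_gen k (x0 k) (ctx k) (fun _ _ _ _ _ e he z hz => exact_one e he z hz)

lemma E1all (j : ℕ) : let F := fun O => E1 Rm Lm (x0 k) (fun j => (tau j).toAddMonoidHom) O j
    F oB1 ∧ F oB2 ∧ F oB3 ∧ F oC3 ∧ F oD1 ∧ F oD3 ∧ F oE1 := by
  have C := ctx k
  induction j with
  | zero => exact ⟨C.E1_zero _, C.E1_zero _, C.E1_zero _, C.E1_zero _, C.E1_zero _, C.E1_zero _,
      C.E1_zero _⟩
  | succ j ih =>
    obtain ⟨b1, b2, b3, c3, d1, d3, e1⟩ := ih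
    have V := E1_of_E (τ := fun j => (tau j).toAddMonoidHom) (EV1 k) (j + 1)
    have A1 := C.down (step_of_ok hR cVA1) V b1
    have A2 := C.down (step_of_ok hR cVA2) V b2
    have B1 := C.down (step_of_ok hR cA1B1) A1 b3
    have B2 := C.down (step_of_ok hR cA2B2) A2 d1
    have B3 := C.down (step_of_ok hR cA2B3) A2 b3
    have C1 := C.down (step_of_ok hR cB1C1) B1 e1
    have C3 := C.down (step_of_ok hR cB3C3) B3 c3
    have D1 := C.down (step_of_ok hR cC1D1) C1 c3
    have D3 := C.down (step_of_ok hR cC3D3) C3 d3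
    have E1' := C.down (step_of_ok hR cD1E1) D1 c3
    exact ⟨B1, B2, B3, C3, D1, D3, E1'⟩

lemma Eall (i : ℕ) : let F := fun O => E Rm Lm (x0 k) O (i + 1)
    F oV ∧ F oB2 ∧ F oC3 ∧ F oD1 ∧ F oD3 ∧ F oE1 := by
  have C := ctx k
  induction i with
  | zero =>
    exact ⟨EV1 k, C.E_of_E1 fun j => (E1all k j).2.1, C.E_of_E1 fun j => (E1all k j).2.2.2.1,
      C.E_of_E1 fun j => (E1all k j).2.2.2.2.1, C.E_of_E1 fun j => (E1all k j).2.2.2.2.2.1,
      C.E_of_E1 fun j => (E1all k j).2.2.2.2.2.2⟩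
  | succ i ih =>
    obtain ⟨-, b2, c3, d1, d3, e1⟩ := ih
    have Z := C.E_base bZ i
    have E1' := C.E_base bE1 i
    have E2 := C.up (step_of_ok hR cE2Z) Z e1
    have D3 := C.up (step_of_ok hR cD3E2) E2 e1
    have D2 := C.up (step_of_ok hR cD2E2) E2 c3
    have D1 := C.up (step_of_ok hR cD1E1) E1' c3
    have C3 := C.up (step_of_ok hR cC3D3) D3 d3
    have C2 := C.up (step_of_ok hR cC2D2) D2 d3
    have B2 := C.up (step_of_ok hR cB2C2) C2 c3
    have A2 := C.up (step_of_ok hR cA2B2) B2 d1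
    have V := C.up (step_of_ok hR cVA2) A2 b2
    exact ⟨V, B2, C3, D1, D3, E1'⟩

def Is (i : ℕ) : Finset ℕ := (range 68).filter fun j => deg j = i

lemma mem_Is {i j : ℕ} : j ∈ Is i ↔ j < 68 ∧ deg j = i := by simp [Is]

noncomputable def MM (i : ℕ) : Matrix (Is (i + 1)) (Is i) (A0 k) :=
  fun p q => ∑ b : Fin 6, ((ev (Lm b p) q : ℤ) : A0 k) * x0 k b

noncomputable def ex (i : ℕ) (f : Is i → A0 k) : ℕ → A0 k :=
  fun j => if h : j ∈ Is i then f ⟨j, h⟩ else 0

variable {k}

lemma ex_supp (i : ℕ) (f : Is i → A0 k) : Supp i (ex k i f) :=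
  fun _ hj => dif_neg (fun h => hj (mem_Is.1 h))

lemma ex_apply (i : ℕ) (f : Is i → A0 k) (q : Is i) : ex k i f q = f q := dif_pos q.2

lemma ex_res {i : ℕ} {g : ℕ → A0 k} (hg : Supp i g) : ex k i (fun q => g q) = g := by
  funext j
  by_cases h : j ∈ Is i
  · exact dif_pos h
  · rw [hg j (fun c => h (mem_Is.2 c))]; exact dif_neg h

lemma ex_inj {i : ℕ} {f g : Is i → A0 k} (h : ex k i f = ex k i g) : f = g := by
  funext q; rw [← ex_apply i f, ← ex_apply i g, h]

lemma ex_zero (i : ℕ) : ex k i 0 = 0 := by funext j; simp [ex]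

lemma ex_vecMul (i : ℕ) (f : Is (i + 1) → A0 k) :
    ex k i (f ᵥ* MM k i) = dd Lm (x0 k) (ex k (i + 1) f) := by
  rw [← ex_res ((ctx k).supp_dd (ex_supp (i + 1) f))]
  congr 1
  funext q
  simp only [Matrix.vecMul, dotProduct, MM, dd, ap, mul_sum, sum_mul, zsmul_eq_mul]
  rw [sum_comm]
  refine sum_congr rfl fun b _ => ?_
  have : ∑ j ∈ range 68, ((ev (Lm b j) q : ℤ) : A0 k) * ex k (i + 1) f j * x0 k b
      = ∑ j ∈ Is (i + 1), ((ev (Lm b j) q : ℤ) : A0 k) * ex k (i + 1) f j * x0 k b := by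
    symm
    refine sum_subset (filter_subset _ _) fun j _ hj => ?_
    rw [ex, dif_neg hj]; simp
  rw [this, ← sum_coe_sort (Is (i + 1))]
  exact sum_congr rfl fun p _ => by rw [ex_apply, ← mul_assoc, Int.cast_comm]

lemma exact_succ (i : ℕ) :
    Function.Exact (fun f => f ᵥ* MM k (i + 1)) (fun f => f ᵥ* MM k i) := by
  intro y
  constructor
  · intro h
    obtain ⟨g, -, hg, e⟩ := (Eall k i).1 (ex k (i + 1) y) (fun c hc => by simp [oV] at hc)
      (ex_supp _ _) (by rw [← ex_vecMul, show y ᵥ* MM k i = 0 from h, ex_zero])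
    refine ⟨fun q => g q, ex_inj ?_⟩
    rw [ex_vecMul, ex_res hg, e]
  · rintro ⟨g, rfl⟩
    refine ex_inj ?_
    rw [ex_vecMul, ex_vecMul, (ctx k).sq, ex_zero]

def p0 : Is 0 := ⟨0, by decide⟩

lemma eq_p0 (q : Is 0) : q = p0 := by
  have := mem_Is.1 q.2
  refine Subtype.ext ?_
  obtain ⟨-, h⟩ := this
  unfold deg at h
  change q.1 = 0
  split_ifs at h <;> omega

variable (k)

noncomputable def pi0 : (Is 0 → A0 k) →ₗ[A0 k] Triv k 6 (R0 k) where
  toFun f := (show k from aug k 6 (R0 k) (f p0))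
  map_add' f g := map_add (aug k 6 (R0 k)) _ _
  map_smul' a f := map_mul (aug k 6 (R0 k)) _ _

lemma pi0_surj : Function.Surjective (pi0 k) := fun y =>
  ⟨fun _ => algebraMap k _ (show k from y), (aug k 6 (R0 k)).commutes _⟩

lemma lin (i : ℕ) (p : Is (i + 1)) (q : Is i) :
    MM k i p q ∈ Submodule.span k (Set.range (gen k 6 (R0 k))) := by
  refine Submodule.sum_mem _ fun b _ => ?_
  rw [← map_intCast (algebraMap k (A0 k)), ← Algebra.smul_def]
  exact Submodule.smul_mem _ _ (Submodule.subset_span ⟨b, rfl⟩)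

lemma exact_zero : Function.Exact (fun f => f ᵥ* MM k 0) (pi0 k) := by
  intro y
  constructor
  · intro h
    obtain ⟨z, hz⟩ := ker_aug (y p0)
    have h' : aug k 6 (R0 k) (y p0) = 0 := h
    rw [h', map_zero, zero_add] at hz
    let g : ℕ → A0 k := ∑ b : Fin 6, z b • (Pi.single (1 + (b : ℕ)) 1 : ℕ → A0 k)
    have hg : ∀ b : Fin 6, g (1 + b) = z b := fun b => by
      simp only [g, Finset.sum_apply, Pi.smul_apply, Pi.single_apply]
      rw [sum_eq_single b]
      · simp
      · intro c _ hc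
        rw [if_neg, smul_zero]
        intro e; exact hc (Fin.ext (by omega))
      · simp
    have hs : Supp 1 g := fun j hj => by
      simp only [g, Finset.sum_apply, Pi.smul_apply, Pi.single_apply]
      refine sum_eq_zero fun b _ => ?_
      rw [if_neg, smul_zero]
      rintro rfl
      have := b.2
      exact hj ⟨by omega, by unfold deg; split_ifs <;> omega⟩
    refine ⟨fun q => g q, funext fun q => ?_⟩
    rw [eq_p0 q, hz]
    refine (ex_apply 0 _ p0).symm.trans ?_
    rw [ex_vecMul, ex_res hs]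
    change dd Lm (x0 k) g 0 = _
    rw [dd_at_zero]
    simp only [hg]
  · rintro ⟨g, rfl⟩
    change aug k 6 (R0 k) _ = 0
    simp [Matrix.vecMul, dotProduct, aug_lin (lin k 0 _ _)]

lemma card_Is (i : ℕ) : (Is i).card = [1, 6, 15, 22, 18, 6].getD i 0 := by
  by_cases h : i < 6
  · interval_cases i <;> decide +kernel
  · rw [List.getD_eq_getElem?_getD, List.getElem?_eq_none (by simp; omega)]
    refine card_eq_zero.2 (filter_eq_empty_iff.2 fun j _ => ?_)
    unfold deg
    split_ifs <;> omega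

theorem koszul : IsKoszul k 6 (R0 k) :=
  ⟨fun i => Is i, fun _ => inferInstance, MM k, pi0 k, lin k, pi0_surj k, exact_zero k, exact_succ⟩

theorem betti (i : ℕ) :
    Module.rank k (ExtK k 6 (R0 k) i) = (([1, 6, 15, 22, 18, 6].getD i 0 : ℕ) : Cardinal) := by
  rw [rank_ext (I := fun i => Is i) (MM k) (pi0 k) (pi0_surj k) (exact_zero k) exact_succ (lin k) i,
    Fintype.card_coe, card_Is]

end Pool.Agent.H51.KoszulD
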