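import Mathlib

set_option autoImplicit false

namespace Pool.Agent.H51.KoszulDefs

open CategoryTheory Matrix
open scoped ModuleCat.Algebra

universe u

variable (k : Type u) [Field k] (d : ℕ)

/-- The element `∑ c a b • X_a X_b` of `V ⊗ V ⊆ T(V)`, for `V = k^d`. -/
noncomputable def quad (c : Fin d → Fin d → k) : FreeAlgebra k (Fin d) :=
  ∑ a, ∑ b, c a b • (FreeAlgebra.ι k a * FreeAlgebra.ι k b)

variable (R : Submodule k (Fin d → Fin d → k))

/-- The relations `r = 0`, `r ∈ R`. -/
def Rel (s t : FreeAlgebra k (Fin d)) : Prop := (∃ c ∈ R, s = quad k d c) ∧ t = 0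

/-- The quadratic algebra `T(V)/(R)`. -/
abbrev QA : Type u := RingQuot (Rel k d R)

/-- The generators of `T(V)/(R)`; they span the degree one part. -/
noncomputable def gen (a : Fin d) : QA k d R :=
  RingQuot.mkAlgHom k (Rel k d R) (FreeAlgebra.ι k a)

/-- The augmentation, sending all generators to `0`. -/
noncomputable def aug : QA k d R →ₐ[k] k :=
  RingQuot.liftAlgHom k ⟨FreeAlgebra.lift k (fun _ => (0 : k)), by
    rintro _ _ ⟨⟨c, -, rfl⟩, rfl⟩
    simp [quad]⟩

/-- The trivial module `k`. -/
def Triv (_R : Submodule k (Fin d → Fin d → k)) : Type u := k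

instance : AddCommGroup (Triv k d R) := inferInstanceAs (AddCommGroup k)

noncomputable instance : Module (QA k d R) (Triv k d R) :=
  Module.compHom k (aug k d R).toRingHom

/-- Koszul: the trivial module has a free resolution (by finitely generated free modules) all of
whose differentials are matrices with entries in the degree one part. -/
def IsKoszul : Prop :=
  ∃ (I : ℕ → Type) (_ : ∀ i, Fintype (I i))
    (M : ∀ i, Matrix (I (i + 1)) (I i) (QA k d R))
    (π : (I 0 → QA k d R) →ₗ[QA k d R] Triv k d R),
    (∀ i p q, M i p q ∈ Submodule.span k (Set.range (gen k d R))) ∧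
    Function.Surjective π ∧
    Function.Exact (fun f => f ᵥ* M 0) π ∧
    ∀ i, Function.Exact (fun f => f ᵥ* M (i + 1)) (fun f => f ᵥ* M i)

/-- The trivial module as an object of the module category. -/
noncomputable def triv : ModuleCat.{u} (QA k d R) := ModuleCat.of _ (Triv k d R)

/-- `Ext^i_A(k,k)` as a `k`-vector space. -/
noncomputable def ExtK (i : ℕ) : ModuleCat.{u} k :=
  ((Ext k (ModuleCat.{u} (QA k d R)) i).obj (Opposite.op (triv k d R))).obj (triv k d R)

end Pool.Agent.H51.KoszulDefs
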