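import Mathlib

set_option autoImplicit false

namespace Pool.Agent.H51.LGrpLat

structure Pr {L : Type} [Lattice L] (X : Set L) : Prop where
  down : ∀ x y, x ≤ y → y ∈ X → x ∈ X
  sup : ∀ x ∈ X, ∀ y ∈ X, x ⊔ y ∈ X
  prime : ∀ x y, x ⊓ y ∈ X → x ∈ X ∨ y ∈ X

theorem Pr.map {L L' : Type} [Lattice L] [Lattice L'] (e : L' ≃o L) {X : Set L} (h : Pr X) :
    Pr (e ⁻¹' X) :=
  ⟨fun x y hxy hy => h.down _ _ (e.monotone hxy) hy,
    fun x hx y hy => by simpa [Set.mem_preimage, e.map_sup] using h.sup _ hx _ hy,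
    fun x y hxy => h.prime _ _ (by simpa [Set.mem_preimage, e.map_inf] using hxy)⟩

section
variable {G : Type} [CommGroup G] [Lattice G] [MulLeftMono G]

def S (X : Set G) : Set G := {g | 1 ≤ g ∧ ∀ x ∈ X, x * g ∈ X}

def T (X Y : Set G) : Set G := {g | 1 ≤ g ∧ ∃ s ∈ S X, ∃ t ∈ S Y, g ≤ s * t}

theorem S_one (X : Set G) : 1 ∈ S X := ⟨le_rfl, fun x hx => by rwa [mul_one]⟩

theorem S_mul {X : Set G} {a b : G} (ha : a ∈ S X) (hb : b ∈ S X) : a * b ∈ S X :=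
  ⟨one_le_mul ha.1 hb.1, fun x hx => by rw [← mul_assoc]; exact hb.2 _ (ha.2 _ hx)⟩

theorem T_mul {X Y : Set G} {a b : G} (ha : a ∈ T X Y) (hb : b ∈ T X Y) : a * b ∈ T X Y := by
  obtain ⟨h1, s, hs, t, ht, h2⟩ := ha
  obtain ⟨h3, s', hs', t', ht', h4⟩ := hb
  refine ⟨one_le_mul h1 h3, _, S_mul hs hs', _, S_mul ht ht', ?_⟩
  rw [mul_mul_mul_comm]
  exact mul_le_mul' h2 h4

theorem T_down {X Y : Set G} {a b : G} (h1 : 1 ≤ a) (h : a ≤ b) (hb : b ∈ T X Y) : a ∈ T X Y := by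
  obtain ⟨-, s, hs, t, ht, h2⟩ := hb
  exact ⟨h1, s, hs, t, ht, h.trans h2⟩

theorem S_l (X Y : Set G) : S X ⊆ T X Y := fun a ha =>
  ⟨ha.1, a, ha, 1, S_one Y, (mul_one a).ge⟩

theorem S_r (X Y : Set G) : S Y ⊆ T X Y := fun a ha =>
  ⟨ha.1, 1, S_one X, a, ha, (one_mul a).ge⟩

theorem T_sub {X Y Z W : Set G} (h1 : S X ⊆ T Z W) (h2 : S Y ⊆ T Z W) : T X Y ⊆ T Z W :=
  fun _ ⟨h, _, hs, _, ht, h3⟩ => T_down h h3 (T_mul (h1 hs) (h2 ht))

theorem S_prime {X : Set G} (hX : Pr X) (u v : G) : u / (u ⊓ v) ∈ S X ∨ v / (u ⊓ v) ∈ S X := by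
  by_contra h
  simp only [S, Set.mem_setOf_eq, one_le_div', inf_le_left, inf_le_right, true_and, not_or,
    not_forall] at h
  obtain ⟨⟨x, hx, h1⟩, y, hy, h2⟩ := h
  have := hX.prime ((x ⊔ y) * (u / (u ⊓ v))) ((x ⊔ y) * (v / (u ⊓ v))) (by
    rw [← mul_inf, div_eq_mul_inv, div_eq_mul_inv, ← inf_mul, mul_inv_cancel, mul_one]
    exact hX.sup _ hx _ hy)
  rcases this with h | h
  · exact h1 (hX.down _ _ (mul_le_mul_left le_sup_left _) h)
  · exact h2 (hX.down _ _ (mul_le_mul_left le_sup_right _) h)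

theorem root {X Y Z W V : Set G} (hX : Pr X) (h1 : S X ⊆ T Y Z) (h2 : S X ⊆ T W V) :
    T Y Z ⊆ T W V ∨ T W V ⊆ T Y Z := by
  by_contra h
  simp only [Set.not_subset, not_or] at h
  obtain ⟨⟨a, a1, a2⟩, b, b1, b2⟩ := h
  rcases S_prime hX a b with h | h
  · exact a2 (div_mul_cancel a (a ⊓ b) ▸ T_mul (h2 h) (T_down (le_inf a1.1 b1.1) inf_le_right b1))
  · exact b2 (div_mul_cancel b (a ⊓ b) ▸ T_mul (h1 h) (T_down (le_inf a1.1 b1.1) inf_le_left a1))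

theorem K {X Y : Set G} (hY : Pr Y) (h : X ⊆ Y) {u v g : G} (hu : u ∈ X) (hv : v ∉ Y)
    (hg : g ∈ T X Y) : ¬ v ≤ u * g := fun e => by
  obtain ⟨-, s, hs, t, ht, h2⟩ := hg
  refine hv (hY.down _ _ (e.trans (mul_le_mul_right h2 u)) ?_)
  rw [← mul_assoc]
  exact ht.2 _ (h (hs.2 _ hu))

theorem Q {X : Set G} (hX : Pr X) {u v : G} (hu : u ∈ X) (hv : v ∉ X) : ∃ s ∈ S X, u ≤ v * s := by
  rcases S_prime hX u v with h | h
  · refine ⟨_, h, ?_⟩
    calc u = (u ⊓ v) * (u / (u ⊓ v)) := (mul_div_cancel _ _).symm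
      _ ≤ _ := mul_le_mul_left inf_le_right _
  · refine absurd (hX.down _ _ ?_ (h.2 u hu)) hv
    calc v = (u ⊓ v) * (v / (u ⊓ v)) := (mul_div_cancel _ _).symm
      _ ≤ _ := mul_le_mul_left inf_le_left _

theorem P {X Y : Set G} (hX : Pr X) (h1 : ¬ X ⊆ Y) (h2 : ¬ Y ⊆ X) :
    ∃ m ∈ X, ∃ a ∈ S X, m * a ∉ Y := by
  obtain ⟨u, u1, u2⟩ := Set.not_subset.1 h1
  obtain ⟨v, -, v2⟩ := Set.not_subset.1 h2
  have hm : u ⊓ v ∈ X := hX.down _ _ inf_le_left u1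
  rcases S_prime hX u v with h | h
  · exact ⟨_, hm, _, h, by rwa [mul_div_cancel]⟩
  · exact absurd (by simpa using h.2 _ hm) v2

theorem no_N {A B C D : Set G} (hA : Pr A) (hB : Pr B) (hC : Pr C) (hD : Pr D)
    (h1 : ¬ A ⊆ B) (h2 : ¬ B ⊆ A) (h3 : ¬ B ⊆ C) (h4 : ¬ C ⊆ B) (h5 : ¬ C ⊆ D) (h6 : ¬ D ⊆ C)
    (ac : A ⊆ C) (ad : A ⊆ D) (bd : B ⊆ D) : False := by
  obtain ⟨m1, m1A, a1, a1S, e1⟩ := P hA h1 h2
  obtain ⟨m2, m2B, b2, b2S, e2⟩ := P hB h3 h4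
  obtain ⟨m3, m3C, c3, c3S, e3⟩ := P hC h5 h6
  obtain ⟨b, bS, l1⟩ := Q hB m2B e1
  obtain ⟨c, cS, l2⟩ := Q hC m3C e2
  have l3 : m2 * b2 ≤ m1 * (a1 * (b * b2)) := by
    rw [← mul_assoc, ← mul_assoc]; exact mul_le_mul_left l1 _
  have l4 : m3 * c3 ≤ m2 * (b2 * (c * c3)) := by
    rw [← mul_assoc, ← mul_assoc]; exact mul_le_mul_left l2 _
  have l5 : m3 * c3 ≤ m1 * (a1 * (b * b2) * (c * c3)) := by
    refine l4.trans ?_
    rw [← mul_assoc, ← mul_assoc m1]; exact mul_le_mul_left l3 _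
  have k1 : ¬ S B ⊆ T A C := fun h => K hC ac m1A e2 (T_mul (S_l _ _ a1S) (h (S_mul bS b2S))) l3
  have k2 : ¬ S C ⊆ T B D := fun h => K hD bd m2B e3 (T_mul (S_l _ _ b2S) (h (S_mul cS c3S))) l4
  have k3 : S B ⊆ T C D := (root hD (S_r B D) (S_r C D)).elim (fun h => (S_l _ _).trans h)
    fun h => absurd ((S_l _ _).trans h) k2
  have k4 : S C ⊆ T A B := (root hA (S_l A C) (S_l A B)).elim (fun h => (S_r _ _).trans h)
    fun h => absurd ((S_r _ _).trans h) k1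
  have k5 : S C ⊆ T A D := (root hA (S_l A C) (S_l A D)).elim (fun h => (S_r _ _).trans h)
    fun h => absurd (k3.trans (T_sub (S_r _ _) ((S_r _ _).trans h))) k1
  have k6 : S B ⊆ T A D := (root hD (S_r B D) (S_r A D)).elim (fun h => (S_l _ _).trans h)
    fun h => absurd (k4.trans (T_sub ((S_l _ _).trans h) (S_l _ _))) k2
  exact K hD ad m1A e3 (T_mul (T_mul (S_l _ _ a1S) (k6 (S_mul bS b2S))) (k5 (S_mul cS c3S))) l5

end

def osup (f g : ℚ ≃o ℚ) : ℚ ≃o ℚ :=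
  StrictMono.orderIsoOfRightInverse (fun x => max (f x) (g x))
    (fun _ _ h => max_lt_max (f.strictMono h) (g.strictMono h))
    (fun y => min (f.symm y) (g.symm y)) (fun y => by
      rcases le_total (f.symm y) (g.symm y) with h | h
      · simp only [min_eq_left h, f.apply_symm_apply]
        exact max_eq_left (g.le_symm_apply.1 h)
      · simp only [min_eq_right h, g.apply_symm_apply]
        exact max_eq_right (f.le_symm_apply.1 h))

def oinf (f g : ℚ ≃o ℚ) : ℚ ≃o ℚ :=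
  StrictMono.orderIsoOfRightInverse (fun x => min (f x) (g x))
    (fun _ _ h => min_lt_min (f.strictMono h) (g.strictMono h))
    (fun y => max (f.symm y) (g.symm y)) (fun y => by
      rcases le_total (f.symm y) (g.symm y) with h | h
      · simp only [max_eq_right h, g.apply_symm_apply]
        exact min_eq_right (f.symm_apply_le.1 h)
      · simp only [max_eq_left h, f.apply_symm_apply]
        exact min_eq_left (g.symm_apply_le.1 h))

def aff (a : ℕ) (b : ℚ) : ℚ ≃o ℚ :=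
  (OrderIso.mulLeft₀ ((a : ℚ) + 1) (by positivity)).trans (OrderIso.addRight b)

inductive Tm
  | gen : ℕ → ℚ → Tm
  | one : Tm
  | mul : Tm → Tm → Tm
  | inv : Tm → Tm
  | sup : Tm → Tm → Tm
  | inf : Tm → Tm → Tm
  deriving Countable

def ev : Tm → (ℚ ≃o ℚ)
  | .gen a b => aff a b
  | .one => 1
  | .mul s t => ev s * ev t
  | .inv s => (ev s)⁻¹
  | .sup s t => osup (ev s) (ev t)
  | .inf s t => oinf (ev s) (ev t)

def H0 : Subgroup (ℚ ≃o ℚ) where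
  carrier := Set.range ev
  mul_mem' := by rintro _ _ ⟨s, rfl⟩ ⟨t, rfl⟩; exact ⟨.mul s t, rfl⟩
  one_mem' := ⟨.one, rfl⟩
  inv_mem' := by rintro _ ⟨s, rfl⟩; exact ⟨.inv s, rfl⟩

def H : Type := H0

instance : Group H := inferInstanceAs (Group H0)
instance : Countable H := (Set.countable_range ev).to_subtype

def ap (f : H) (x : ℚ) : ℚ := f.1 x

instance : Lattice H where
  le f g := ∀ x, ap f x ≤ ap g x
  le_refl _ _ := le_rfl
  le_trans _ _ _ h1 h2 x := (h1 x).trans (h2 x)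
  le_antisymm _ _ h1 h2 := Subtype.ext (RelIso.ext fun x => (h1 x).antisymm (h2 x))
  sup f g := ⟨osup f.1 g.1, by
    obtain ⟨_, s, rfl⟩ := f; obtain ⟨_, t, rfl⟩ := g; exact ⟨.sup s t, rfl⟩⟩
  inf f g := ⟨oinf f.1 g.1, by
    obtain ⟨_, s, rfl⟩ := f; obtain ⟨_, t, rfl⟩ := g; exact ⟨.inf s t, rfl⟩⟩
  le_sup_left f g x := le_max_left (ap f x) (ap g x)
  le_sup_right f g x := le_max_right (ap f x) (ap g x)
  sup_le _ _ _ h1 h2 x := max_le (h1 x) (h2 x)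
  inf_le_left f g x := min_le_left (ap f x) (ap g x)
  inf_le_right f g x := min_le_right (ap f x) (ap g x)
  le_inf _ _ _ h1 h2 x := le_min (h1 x) (h2 x)

instance : MulLeftMono H := ⟨fun f _ _ h x => f.1.monotone (h x)⟩
instance : MulRightMono H := ⟨fun f _ _ h x => h (f.1 x)⟩

def Pm (c d : ℚ) : Set H := {f | ap f c ≤ d}

theorem Pm_pr (c d : ℚ) : Pr (Pm c d) :=
  ⟨fun _ _ h hy => (h c).trans hy, fun f hx g hy => show max (ap f c) (ap g c) ≤ d from max_le hx hy,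
    fun f g h => min_le_iff.1 (show min (ap f c) (ap g c) ≤ d from h)⟩

theorem Pm_sub {c d c' d' : ℚ} (h1 : c' ≤ c) (h2 : d ≤ d') : Pm c d ⊆ Pm c' d' :=
  fun f hf => ((f.1.monotone h1).trans hf).trans h2

theorem Pm_not {c d c' d' : ℚ} (a : ℕ) (b : ℚ) (h1 : (a + 1) * c + b ≤ d)
    (h2 : d' < (a + 1) * c' + b) : ¬ Pm c d ⊆ Pm c' d' := fun h =>
  absurd (h (a := ⟨aff a b, .gen a b, rfl⟩) h1) (not_le.2 h2)

theorem main (G : Type) [CommGroup G] [Lattice G] [MulLeftMono G] (e : H ≃o G) : False := by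
  have s : ∀ {X Y : Set H}, e.symm ⁻¹' X ⊆ e.symm ⁻¹' Y ↔ X ⊆ Y :=
    e.symm.surjective.preimage_subset_preimage_iff
  refine no_N ((Pm_pr 4 20).map e.symm) ((Pm_pr 2 10).map e.symm) ((Pm_pr 3 40).map e.symm)
    ((Pm_pr 1 30).map e.symm) ?_ ?_ ?_ ?_ ?_ ?_ ?_ ?_ ?_ <;> rw [s]
  · exact Pm_not 0 15 (by norm_num) (by norm_num)
  · exact Pm_not 99 (-190) (by norm_num) (by norm_num)
  · exact Pm_not 99 (-190) (by norm_num) (by norm_num)
  · exact Pm_not 0 15 (by norm_num) (by norm_num)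
  · exact Pm_not 0 35 (by norm_num) (by norm_num)
  · exact Pm_not 99 (-70) (by norm_num) (by norm_num)
  · exact Pm_sub (by norm_num) (by norm_num)
  · exact Pm_sub (by norm_num) (by norm_num)
  · exact Pm_sub (by norm_num) (by norm_num)

end Pool.Agent.H51.LGrpLat
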