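import Mathlib

set_option autoImplicit false

namespace Pool.Agent.H51.LSimpA

def osup {α : Type} [LinearOrder α] (f g : α ≃o α) : α ≃o α :=
  StrictMono.orderIsoOfRightInverse (fun x => max (f x) (g x))
    (fun _ _ h => max_lt_max (f.strictMono h) (g.strictMono h))
    (fun y => min (f.symm y) (g.symm y)) (fun y => by
      rcases le_total (f.symm y) (g.symm y) with h | h
      · simp only [min_eq_left h, f.apply_symm_apply]
        exact max_eq_left (g.le_symm_apply.1 h)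
      · simp only [min_eq_right h, g.apply_symm_apply]
        exact max_eq_right (f.le_symm_apply.1 h))

def oinf {α : Type} [LinearOrder α] (f g : α ≃o α) : α ≃o α :=
  StrictMono.orderIsoOfRightInverse (fun x => min (f x) (g x))
    (fun _ _ h => min_lt_min (f.strictMono h) (g.strictMono h))
    (fun y => max (f.symm y) (g.symm y)) (fun y => by
      rcases le_total (f.symm y) (g.symm y) with h | h
      · simp only [max_eq_right h, g.apply_symm_apply]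
        exact min_eq_right (f.symm_apply_le.1 h)
      · simp only [max_eq_left h, f.apply_symm_apply]
        exact min_eq_left (g.symm_apply_le.1 h))

def PL : Subgroup (ℚ ≃o ℚ) where
  carrier := {p | (∃ M, ∀ x, M ≤ x → p x = x) ∧ ∃ B : Set ℚ, B.Finite ∧
    ∀ a b, a < b → (∀ x ∈ B, x ≤ a ∨ b ≤ x) → ∃ α β : ℚ, ∀ x, a ≤ x → x ≤ b → p x = α * x + β}
  mul_mem' := by
    rintro p q ⟨⟨M, hM⟩, B, hB, h1⟩ ⟨⟨N, hN⟩, C, hC, h2⟩
    refine ⟨⟨max M N, fun x hx => ?_⟩, C ∪ q ⁻¹' B, hC.union (hB.preimage q.injective.injOn),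
      fun a b hab h => ?_⟩
    · show p (q x) = x
      rw [hN x (le_of_max_le_right hx), hM x (le_of_max_le_left hx)]
    · obtain ⟨α, β, e1⟩ := h2 a b hab fun x hx => h x (Or.inl hx)
      obtain ⟨γ, δ, e2⟩ := h1 (q a) (q b) (q.strictMono hab) fun x hx =>
        (h (q.symm x) (Or.inr (by simpa using hx))).imp q.symm_apply_le.1 q.le_symm_apply.1
      refine ⟨γ * α, γ * β + δ, fun x x1 x2 => ?_⟩
      show p (q x) = _
      rw [e2 _ (q.monotone x1) (q.monotone x2), e1 x x1 x2]; ring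
  one_mem' := ⟨⟨0, fun _ _ => rfl⟩, ∅, Set.finite_empty, fun _ _ _ _ => ⟨1, 0, by simp⟩⟩
  inv_mem' := by
    rintro p ⟨⟨M, hM⟩, B, hB, h1⟩
    refine ⟨⟨M, fun x hx => p.symm_apply_eq.2 (hM x hx).symm⟩, p '' B, hB.image _,
      fun a b hab h => ?_⟩
    have hab' := p.symm.strictMono hab
    obtain ⟨α, β, e⟩ := h1 (p.symm a) (p.symm b) hab' fun x hx =>
      (h (p x) ⟨x, hx, rfl⟩).imp p.le_symm_apply.2 p.symm_apply_le.2
    have e1 := e _ le_rfl hab'.le
    have e2 := e _ hab'.le le_rfl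
    rw [p.apply_symm_apply] at e1 e2
    have hα : α ≠ 0 := by rintro rfl; linarith
    refine ⟨α⁻¹, -β / α, fun x x1 x2 => ?_⟩
    have := e _ (p.symm.monotone x1) (p.symm.monotone x2)
    rw [p.apply_symm_apply] at this
    show p.symm x = _
    field_simp
    linarith

theorem PL_top (p : PL) (hp : p ≠ 1) : ∃ s l : ℚ, l < s ∧ (∀ m, s ≤ m → p.1 m = m) ∧
    ((∀ m, l ≤ m → m < s → m < p.1 m) ∨ ∀ m, l ≤ m → m < s → p.1 m < m) := by
  classical
  obtain ⟨p, ⟨M, hM⟩, B, hB, h1⟩ := p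
  obtain ⟨x0, hx0⟩ : ∃ x, p x ≠ x := by
    by_contra h
    push Not at h
    exact hp (Subtype.ext (RelIso.ext h))
  let B' : Finset ℚ := insert M (insert x0 hB.toFinset)
  obtain ⟨s, hs, hmin⟩ := (B'.filter fun b => ∀ m, b ≤ m → p m = m).exists_min_image id
    ⟨M, Finset.mem_filter.2 ⟨by simp [B'], hM⟩⟩
  have hs2 := (Finset.mem_filter.1 hs).2
  have hx : x0 < s := lt_of_not_ge fun h => hx0 (hs2 _ h)
  obtain ⟨l, hl, hmax⟩ := (B'.filter fun b => b < s).exists_max_image id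
    ⟨x0, Finset.mem_filter.2 ⟨by simp [B'], hx⟩⟩
  obtain ⟨hl1, hl2⟩ := Finset.mem_filter.1 hl
  obtain ⟨α, β, e⟩ := h1 l s hl2 fun x hx => (lt_or_ge x s).imp_left fun h =>
    hmax x (Finset.mem_filter.2 ⟨by simp [B', hx], h⟩)
  have e1 := e s hl2.le le_rfl
  rw [hs2 s le_rfl] at e1
  refine ⟨s, l, hl2, hs2, ?_⟩
  rcases lt_trichotomy α 1 with h | h | h
  · exact Or.inl fun m m1 m2 => by show m < p m; rw [e m m1 m2.le]; nlinarith
  · refine absurd (hmin l (Finset.mem_filter.2 ⟨hl1, fun m hm => ?_⟩)) (not_le.2 hl2)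
    rcases le_total m s with h' | h'
    · rw [e m hm h', h]; rw [h] at e1; linarith
    · exact hs2 m h'
  · exact Or.inr fun m m1 m2 => by show p m < m; rw [e m m1 m2.le]; nlinarith

theorem PL_up (l l' : ℚ) : ∃ p : PL, l' < p.1 l := by
  let M := 2 * l' - l + 1
  let q : ℚ ≃o ℚ := (OrderIso.addRight M).trans (OrderIso.mulLeft₀ (1 / 2) (by norm_num))
  have hq : ∀ x, osup 1 q x = max x (1 / 2 * (x + M)) := fun _ => rfl
  refine ⟨⟨osup 1 q, ⟨M, fun x hx => ?_⟩, {M}, Set.finite_singleton _, fun a b _ h => ?_⟩, ?_⟩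
  · rw [hq]; exact max_eq_left (by linarith)
  · rcases h M rfl with h | h
    · exact ⟨1, 0, fun x _ _ => by rw [hq, max_eq_left (by linarith)]; ring⟩
    · exact ⟨1 / 2, M / 2, fun x _ _ => by rw [hq, max_eq_right (by linarith)]; ring⟩
  · show l' < osup 1 q l
    rw [hq]; exact lt_max_of_lt_right (by simp only [M]; linarith)

@[ext] structure T where
  a : ℚ →₀ ℤ
  b : ℚ →₀ ℤ
  p : PL

noncomputable def sh (p : PL) (a : ℚ →₀ ℤ) : ℚ →₀ ℤ := Finsupp.equivMapDomain p.1.toEquiv a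

@[simp] theorem sh_apply (p : PL) (a : ℚ →₀ ℤ) (l : ℚ) : sh p a l = a (p⁻¹.1 l) := rfl

noncomputable instance : Mul T := ⟨fun s t => ⟨s.a + sh s.p t.a, s.b + sh s.p t.b, s.p * t.p⟩⟩
noncomputable instance : One T := ⟨⟨0, 0, 1⟩⟩
noncomputable instance : Inv T := ⟨fun s => ⟨-sh s.p⁻¹ s.a, -sh s.p⁻¹ s.b, s.p⁻¹⟩⟩

@[simp] theorem mul_a (s t : T) (l : ℚ) : (s * t).a l = s.a l + t.a (s.p⁻¹.1 l) := rfl
@[simp] theorem mul_b (s t : T) (l : ℚ) : (s * t).b l = s.b l + t.b (s.p⁻¹.1 l) := rfl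
@[simp] theorem mul_p (s t : T) : (s * t).p = s.p * t.p := rfl
@[simp] theorem one_a : (1 : T).a = 0 := rfl
@[simp] theorem one_b : (1 : T).b = 0 := rfl
@[simp] theorem one_p : (1 : T).p = 1 := rfl
@[simp] theorem inv_a (s : T) (l : ℚ) : (s⁻¹).a l = -s.a (s.p.1 l) := rfl
@[simp] theorem inv_b (s : T) (l : ℚ) : (s⁻¹).b l = -s.b (s.p.1 l) := rfl
@[simp] theorem inv_p (s : T) : (s⁻¹).p = s.p⁻¹ := rfl

@[simp] theorem P_mul (p q : PL) (l : ℚ) : (p * q).1 l = p.1 (q.1 l) := rfl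
@[simp] theorem P_one (l : ℚ) : (1 : PL).1 l = l := rfl
@[simp] theorem P_inv1 (p : PL) (l : ℚ) : p⁻¹.1 (p.1 l) = l := p.1.symm_apply_apply l
@[simp] theorem P_inv2 (p : PL) (l : ℚ) : p.1 (p⁻¹.1 l) = l := p.1.apply_symm_apply l

theorem T_ext {s t : T} (h1 : ∀ l, s.a l = t.a l) (h2 : ∀ l, s.b l = t.b l) (h3 : s.p = t.p) :
    s = t := T.ext (Finsupp.ext h1) (Finsupp.ext h2) h3

noncomputable instance : Group T := Group.ofLeftAxioms
  (fun _ _ _ => T_ext (fun l => add_assoc _ _ _) (fun l => add_assoc _ _ _) (mul_assoc _ _ _))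
  (fun _ => T_ext (fun l => zero_add _) (fun l => zero_add _) (one_mul _))
  (fun _ => T_ext (fun l => neg_add_cancel _) (fun l => neg_add_cancel _) (inv_mul_cancel _))

abbrev Om : Type := ℚ ×ₗ (ℤ ×ₗ ℤ)

def mk (l : ℚ) (i j : ℤ) : Om := toLex (l, toLex (i, j))

theorem mk_lt {l l' : ℚ} {i j i' j' : ℤ} :
    mk l i j < mk l' i' j' ↔ l < l' ∨ l = l' ∧ (i < i' ∨ i = i' ∧ j < j') := by
  simp [mk, Prod.Lex.toLex_lt_toLex]

theorem mk_le {l l' : ℚ} {i j i' j' : ℤ} :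
    mk l i j ≤ mk l' i' j' ↔ l < l' ∨ l = l' ∧ (i < i' ∨ i = i' ∧ j ≤ j') := by
  simp [mk, Prod.Lex.toLex_le_toLex]

def act (t : T) (w : Om) : Om :=
  mk (t.p.1 w.1) (w.2.1 + t.a (t.p.1 w.1)) (w.2.2 + t.b (t.p.1 w.1))

theorem act_mk (t : T) (l : ℚ) (i j : ℤ) :
    act t (mk l i j) = mk (t.p.1 l) (i + t.a (t.p.1 l)) (j + t.b (t.p.1 l)) := rfl

theorem Om_ind (w : Om) : ∃ l i j, w = mk l i j := ⟨w.1, w.2.1, w.2.2, rfl⟩

theorem act_mul (s t : T) (w : Om) : act (s * t) w = act s (act t w) := by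
  obtain ⟨l, i, j, rfl⟩ := Om_ind w
  simp only [act_mk, mul_a, mul_b, mul_p, P_mul, P_inv1]
  congr 1 <;> ring

theorem act_one (w : Om) : act 1 w = w := by
  obtain ⟨l, i, j, rfl⟩ := Om_ind w
  simp [act_mk]

theorem act_inv (t : T) (w : Om) : act t⁻¹ (act t w) = w := by
  rw [← act_mul, inv_mul_cancel, act_one]

theorem act_inv' (t : T) (w : Om) : act t (act t⁻¹ w) = w := by
  rw [← act_mul, mul_inv_cancel, act_one]

theorem act_mono (t : T) : StrictMono (act t) := by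
  intro v w h
  obtain ⟨l, i, j, rfl⟩ := Om_ind v
  obtain ⟨l', i', j', rfl⟩ := Om_ind w
  rw [act_mk, act_mk, mk_lt]
  rcases mk_lt.1 h with h | ⟨rfl, h⟩
  · exact Or.inl (t.p.1.strictMono h)
  · exact Or.inr ⟨rfl, by omega⟩

def Pos (t : T) : Prop := ∃ w, w < act t w ∧ ∀ v, w < v → v ≤ act t v

theorem Pos.mul {s t : T} (hs : Pos s) (ht : Pos t) : Pos (s * t) := by
  obtain ⟨v, v1, v2⟩ := hs
  obtain ⟨w, w1, w2⟩ := ht
  have hv : ∀ u, v ≤ u → u ≤ act s u := fun u h => h.eq_or_lt.elim (fun e => e ▸ v1.le) (v2 u)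
  have hw : ∀ u, w ≤ u → u ≤ act t u := fun u h => h.eq_or_lt.elim (fun e => e ▸ w1.le) (w2 u)
  refine ⟨max v w, ?_, fun u hu => ?_⟩
  · rw [act_mul]
    rcases le_total v w with h | h
    · rw [max_eq_right h]; exact w1.trans_le (hv _ (h.trans w1.le))
    · rw [max_eq_left h]; exact v1.trans_le ((act_mono s).monotone (hw _ h))
  · rw [act_mul]
    have := hw u (le_of_max_le_right hu.le)
    exact this.trans (hv _ ((le_of_max_le_left hu.le).trans this))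

theorem Pos.conj {t : T} (ht : Pos t) (s : T) : Pos (s * t * s⁻¹) := by
  obtain ⟨w, w1, w2⟩ := ht
  refine ⟨act s w, ?_, fun u hu => ?_⟩
  · rw [act_mul, act_mul, act_inv]; exact act_mono s w1
  · rw [act_mul, act_mul]
    conv_lhs => rw [← act_inv' s u]
    exact (act_mono s).monotone (w2 _ (by simpa [act_inv] using act_mono s⁻¹ hu))

theorem not_Pos_one : ¬ Pos 1 := fun ⟨w, h, _⟩ => by simp [act_one] at h

theorem Pos_inv {t : T} (w : Om) (h1 : act t w < w) (h2 : ∀ v, w < v → act t v ≤ v) : Pos t⁻¹ :=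
  ⟨w, by simpa [act_inv] using act_mono t⁻¹ h1,
    fun v hv => by simpa [act_inv] using (act_mono t⁻¹).monotone (h2 v hv)⟩

def Lv (l : ℚ) (y : T) : Prop :=
  (∀ m, l ≤ m → y.p.1 m = m) ∧ ∀ m, l < m → y.a m = 0 ∧ y.b m = 0

theorem Lv.inv_p {l : ℚ} {y : T} (h : Lv l y) (m : ℚ) (hm : l ≤ m) : y.p⁻¹.1 m = m := by
  conv_lhs => rw [← h.1 m hm, P_inv1]

theorem Lv.mul {l : ℚ} {y z : T} (hy : Lv l y) (hz : Lv l z) : Lv l (y * z) :=
  ⟨fun m hm => by simp [hy.1 m hm, hz.1 m hm],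
    fun m hm => by simp only [mul_a, mul_b, hy.2 m hm, hy.inv_p m hm.le, hz.2 m hm]; simp⟩

theorem Lv.inv {l : ℚ} {y : T} (hy : Lv l y) : Lv l y⁻¹ :=
  ⟨hy.inv_p, fun m hm => by simp [hy.2 m hm, hy.1 m hm.le]⟩

theorem Lv.pos {l : ℚ} {y : T} (hy : Lv l y) (h : 0 < y.a l ∨ y.a l = 0 ∧ 0 < y.b l) : Pos y := by
  refine ⟨mk l 0 0, by rw [act_mk, hy.1 l le_rfl, mk_lt]; exact Or.inr ⟨rfl, by omega⟩,
    fun v hv => ?_⟩
  obtain ⟨m, i, j, rfl⟩ := Om_ind v
  rcases mk_lt.1 hv with h' | ⟨rfl, -⟩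
  · simp [act_mk, hy.1 m h'.le, hy.2 m h']
  · rw [act_mk, hy.1 l le_rfl, mk_le]; exact Or.inr ⟨rfl, by omega⟩

theorem tot (t : T) : t = 1 ∨ Pos t ∨ Pos t⁻¹ := by
  classical
  have key : ∀ s, (∀ m, s ≤ m → t.p.1 m = m) → (∃ m, s ≤ m ∧ ¬ (t.a m = 0 ∧ t.b m = 0)) →
      Pos t ∨ Pos t⁻¹ := by
    rintro s hs ⟨m, m1, m2⟩
    obtain ⟨l, hl, hmax⟩ := (t.a.support ∪ t.b.support).exists_max_image id
      ⟨m, by simpa [← not_and_or] using m2⟩
    have hml : m ≤ l := hmax m (by simpa [← not_and_or] using m2)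
    have hL : Lv l t := ⟨fun k hk => hs k (m1.trans (hml.trans hk)), fun k hk => by
      by_contra h
      exact absurd (hmax k (by simpa [← not_and_or] using h)) (not_le.2 hk)⟩
    simp only [Finset.mem_union, Finsupp.mem_support_iff] at hl
    by_cases h : 0 < t.a l ∨ t.a l = 0 ∧ 0 < t.b l
    · exact Or.inl (hL.pos h)
    · exact Or.inr (hL.inv.pos (by simp only [inv_a, inv_b, hL.1 l le_rfl]; omega))
  by_cases hp : t.p = 1
  · by_cases h : ∃ m, ¬ (t.a m = 0 ∧ t.b m = 0)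
    · obtain ⟨m, hm⟩ := h
      exact Or.inr (key m (fun _ _ => by simp [hp]) ⟨m, le_rfl, hm⟩)
    · push Not at h
      exact Or.inl (T_ext (fun l => (h l).1) (fun l => (h l).2) hp)
  obtain ⟨s, l, h1, h2, h3⟩ := PL_top t.p hp
  by_cases h : ∃ m, s ≤ m ∧ ¬ (t.a m = 0 ∧ t.b m = 0)
  · exact Or.inr (key s h2 h)
  push Not at h
  have hl : ∀ {m i j}, mk l 0 0 < mk m i j → l ≤ m := fun hv =>
    (mk_lt.1 hv).elim le_of_lt fun e => e.1.le
  rcases h3 with h3 | h3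
  · refine Or.inr (Or.inl ⟨mk l 0 0, mk_lt.2 (Or.inl (h3 l le_rfl h1)), fun v hv => ?_⟩)
    obtain ⟨m, i, j, rfl⟩ := Om_ind v
    rcases lt_or_ge m s with h' | h'
    · exact mk_le.2 (Or.inl (h3 m (hl hv) h'))
    · simp [act_mk, h2 m h', h m h']
  · refine Or.inr (Or.inr (Pos_inv (mk l 0 0) (mk_lt.2 (Or.inl (h3 l le_rfl h1))) fun v hv => ?_))
    obtain ⟨m, i, j, rfl⟩ := Om_ind v
    rcases lt_or_ge m s with h' | h'
    · exact mk_le.2 (Or.inl (h3 m (hl hv) h'))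
    · simp [act_mk, h2 m h', h m h']

def lt' (s t : T) : Prop := Pos (t * s⁻¹)

instance : IsStrictTotalOrder T lt' where
  trichotomous s t h1 h2 := by
    rcases tot (t * s⁻¹) with h | h | h
    · exact (mul_inv_eq_one.1 h).symm
    · exact absurd h h1
    · exact absurd (by simpa [lt'] using h) h2
  irrefl s h := not_Pos_one (by simpa [lt'] using h)
  trans r s t h1 h2 := by simpa [lt', mul_assoc] using Pos.mul h2 h1

noncomputable instance : LinearOrder T := by classical exact linearOrderOfSTO lt'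

theorem lt_iff {s t : T} : s < t ↔ Pos (t * s⁻¹) := Iff.rfl

theorem one_lt {t : T} : 1 < t ↔ Pos t := by simp [lt_iff]

instance : MulLeftStrictMono T := ⟨fun r s t h => by
  have := (lt_iff.1 h).conj r
  rw [lt_iff]
  simpa [mul_assoc] using this⟩

instance : MulRightStrictMono T := ⟨fun r s t h => by
  show s * r < t * r
  rw [lt_iff] at *
  simpa [mul_assoc] using h⟩

instance : MulLeftMono T := mulLeftMono_of_mulLeftStrictMono T
instance : MulRightMono T := mulRightMono_of_mulRightStrictMono T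

theorem Lv.fix {l : ℚ} {y : T} (h : Lv l y) {m : ℚ} (hm : l < m) (i j : ℤ) :
    act y (mk m i j) = mk m i j := by
  simp [act_mk, h.1 m hm.le, h.2 m hm]

theorem Lv_of_fix {l : ℚ} {y : T} (h : ∀ m, l < m → act y (mk m 0 0) = mk m 0 0) : Lv l y := by
  have h1 : ∀ m, l < m → y.p.1 m = m ∧ y.a m = 0 ∧ y.b m = 0 := fun m hm => by
    have := h m hm
    rw [act_mk] at this
    simp only [mk, toLex_inj, Prod.mk.injEq, zero_add] at this
    obtain ⟨e1, e2, e3⟩ := this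
    rw [e1] at e2 e3
    exact ⟨e1, e2, e3⟩
  refine ⟨fun m hm => hm.eq_or_lt.elim ?_ fun h => (h1 m h).1, fun m hm => (h1 m hm).2⟩
  rintro rfl
  rcases lt_trichotomy l (y.p.1 l) with h | h | h
  · exact y.p.1.injective (h1 _ h).1
  · exact h.symm
  · have h2 : l < y.p⁻¹.1 l := by simpa using y.p⁻¹.1.strictMono h
    have := (h1 _ h2).1
    rw [P_inv2] at this
    exact absurd this h2.ne

theorem Lv.conv1 {l : ℚ} {y z : T} (hz : Lv l z) (h1 : 1 ≤ y) (h2 : y ≤ z) : Lv l y := by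
  rcases h1.eq_or_lt with rfl | h1
  · exact Lv_of_fix fun _ _ => act_one _
  rcases h2.eq_or_lt with rfl | h2
  · exact hz
  obtain ⟨w, w1, w2⟩ := one_lt.1 h1
  refine Lv_of_fix fun m hm => by_contra fun hne => ?_
  have hU : ∀ v, mk m 0 0 ≤ v → act z v = v := fun v hv => by
    obtain ⟨k, i, j, rfl⟩ := Om_ind v
    exact hz.fix ((mk_le.1 hv).elim hm.trans fun e => e.1 ▸ hm) i j
  obtain ⟨u, u1, u2, u3⟩ : ∃ u, mk m 0 0 ≤ u ∧ u < act y u ∧ ∀ v, u < v → v ≤ act y v := by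
    rcases le_or_gt (mk m 0 0) w with h | h
    · exact ⟨w, h, w1, w2⟩
    · exact ⟨_, le_rfl, lt_of_le_of_ne (w2 _ h) (Ne.symm hne), fun v hv => w2 v (h.trans hv)⟩
  have := Pos_inv (t := z * y⁻¹) (act y u) (by rw [act_mul, act_inv, hU u u1]; exact u2)
    fun v hv => by
      have h3 : u < act y⁻¹ v := by simpa [act_inv] using act_mono y⁻¹ hv
      rw [act_mul, hU _ (u1.trans h3.le)]
      simpa [act_inv'] using u3 _ h3
  exact not_Pos_one (by simpa using (lt_iff.1 h2).mul this)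

theorem Lv.conv {l : ℚ} {x y z : T} (hx : Lv l x) (hz : Lv l z) (h1 : x ≤ y) (h2 : y ≤ z) :
    Lv l y := by
  have := (hz.mul hx.inv).conv1 (y := y * x⁻¹) (le_mul_inv_iff_mul_le.2 (by simpa using h1))
    (mul_le_mul_left h2 _)
  simpa using this.mul hx

theorem Lv.a_le {l : ℚ} {x y : T} (hx : Lv l x) (hy : Lv l y) (h : x ≤ y) : x.a l ≤ y.a l := by
  by_contra hc
  refine absurd h (not_le.2 (lt_iff.2 ((hx.mul hy.inv).pos (Or.inl ?_))))
  simp only [mul_a, inv_a, hx.inv_p l le_rfl, hy.1 l le_rfl]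
  omega

theorem exists_Lv (s : T) : ∃ l, Lv l s := by
  classical
  obtain ⟨M, hM⟩ := s.p.2.1
  obtain ⟨b, hb⟩ := (s.a.support ∪ s.b.support).bddAbove
  refine ⟨max M b, fun m hm => hM m (le_of_max_le_left hm), fun m hm => by_contra fun h => ?_⟩
  exact absurd (hb (show m ∈ _ by simpa [← not_and_or] using h))
    (not_le.2 (lt_of_le_of_lt (le_max_right _ _) hm))

theorem osimple {t : T} (ht : 1 < t) (s : T) : ∃ w, s ≤ w * t * w⁻¹ := by
  obtain ⟨l, hl⟩ := exists_Lv s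
  obtain ⟨w, w1, w2⟩ := one_lt.1 ht
  obtain ⟨m, i, j, rfl⟩ := Om_ind w
  obtain ⟨p, hp⟩ := PL_up m l
  let r : T := ⟨0, 0, p⟩
  have hU : ∀ v, act r (mk m i j) ≤ v → act s⁻¹ v = v := fun v hv => by
    obtain ⟨k, i', j', rfl⟩ := Om_ind v
    exact hl.inv.fix ((mk_le.1 hv).elim hp.trans fun e => e.1 ▸ hp) _ _
  refine ⟨r, le_of_lt ⟨act r (mk m i j), ?_, fun u hu => ?_⟩⟩
  · rw [act_mul, hU _ le_rfl, act_mul, act_mul, act_inv]; exact act_mono r w1
  · rw [act_mul, hU _ hu.le, act_mul, act_mul]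
    conv_lhs => rw [← act_inv' r u]
    exact (act_mono r).monotone (w2 _ (by simpa [act_inv] using act_mono r⁻¹ hu))

end Pool.Agent.H51.LSimpA
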