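import Pool.Agent.H51.LSimpA

set_option autoImplicit false

namespace Pool.Agent.H51.LSimpB
open Pool.Agent.H51.LSimpA

noncomputable def ia (a : ℚ →₀ ℤ) : T := ⟨a, 0, 1⟩
noncomputable def ib (b : ℚ →₀ ℤ) : T := ⟨0, b, 1⟩

def x (t : T) (l : ℚ) : ZMod 2 := (t.a l : ZMod 2)

theorem x_mul (s t : T) (l : ℚ) : x (s * t) l = x s l + x t (s.p⁻¹.1 l) := by
  simp only [x, mul_a, Int.cast_add]

theorem x_ib (b : ℚ →₀ ℤ) (t : T) : x (ib b * t) = x t := by
  funext l; simp [x_mul, ib, x]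

theorem x_ia (a : ℚ →₀ ℤ) (t : T) (l : ℚ) : x (ia a * t) l = a l + x t l := by
  simp [x_mul, ia, x]

theorem ib_add (a b : ℚ →₀ ℤ) : ib (a + b) = ib a * ib b :=
  T_ext (fun _ => rfl) (fun _ => rfl) (mul_one _).symm

theorem ia_add (a b : ℚ →₀ ℤ) : ia (a + b) = ia a * ia b :=
  T_ext (fun _ => rfl) (fun _ => rfl) (mul_one _).symm

theorem conj_ib (c : T) (b : ℚ →₀ ℤ) : c * ib b = ib (sh c.p b) * c :=
  T_ext (fun _ => by simp [ib]) (fun _ => by simp [ib, add_comm]) (by simp [ib])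

theorem conj_ia (c : T) (b : ℚ →₀ ℤ) : c * ia b = ia (sh c.p b) * c :=
  T_ext (fun _ => by simp [ia, add_comm]) (fun _ => by simp [ia]) (by simp [ia])

theorem sh_single (p : PL) (l : ℚ) (k : ℤ) :
    sh p (Finsupp.single l k) = Finsupp.single (p.1 l) k := Finsupp.equivMapDomain_single _ _ _

def Dep (F : Set ℚ) (g : T → T) : Prop :=
  ∀ t t', (∀ l ∈ F, x t l = x t' l) → g t * t⁻¹ = g t' * t'⁻¹

theorem Dep.fin {F : Set ℚ} (hF : F.Finite) {g : T → T} (h : Dep F g) :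
    (Set.range fun t => g t * t⁻¹).Finite := by
  haveI := hF.to_subtype
  let r : T → F → ZMod 2 := fun t l => x t l
  refine ((Set.toFinite (Set.range r)).image
    fun y => g (Function.invFun r y) * (Function.invFun r y)⁻¹).subset ?_
  rintro _ ⟨t, rfl⟩
  exact ⟨r t, ⟨t, rfl⟩, h _ _ fun l hl => congrFun (Function.invFun_eq ⟨t, rfl⟩ : r _ = r t) ⟨l, hl⟩⟩

def G0 : Subgroup (T ≃o T) where
  carrier := {g | ∃ F : Set ℚ, F.Finite ∧ Dep F g}
  one_mem' := ⟨∅, Set.finite_empty, fun t t' _ => by simp⟩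
  mul_mem' := by
    rintro g h ⟨F, hF, h1⟩ ⟨E, hE, h2⟩
    refine ⟨E ∪ ⋃ y ∈ Set.range fun t => h t * t⁻¹, y.p⁻¹.1 '' F,
      hE.union ((h2.fin hE).biUnion fun _ _ => hF.image _), fun t t' H => ?_⟩
    have e1 := h2 t t' fun l hl => H l (Or.inl hl)
    have e2 := h1 (h t) (h t') fun l hl => by
      rw [← inv_mul_cancel_right (h t) t, ← inv_mul_cancel_right (h t') t', ← e1, x_mul _ t,
        x_mul _ t', H _ (Or.inr (Set.mem_biUnion ⟨t, rfl⟩ ⟨l, hl, rfl⟩))]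
    show g (h t) * t⁻¹ = g (h t') * t'⁻¹
    rw [← inv_mul_cancel_right (g (h t)) (h t), mul_assoc, e1, e2]; group
  inv_mem' := by
    rintro g ⟨F, hF, h1⟩
    refine ⟨⋃ y ∈ Set.range fun t => g t * t⁻¹, y.p.1 '' F,
      (h1.fin hF).biUnion fun _ _ => hF.image _, fun s s' H => ?_⟩
    obtain ⟨t, rfl⟩ := g.surjective s
    have e1 := h1 t ((g t * t⁻¹)⁻¹ * s') fun l hl => by
      conv_lhs => rw [show t = (g t * t⁻¹)⁻¹ * g t by group]
      rw [x_mul, x_mul, inv_p, inv_inv, H _ (Set.mem_biUnion ⟨t, rfl⟩ ⟨l, hl, rfl⟩)]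
    have e2 : g ((g t * t⁻¹)⁻¹ * s') = s' := by
      rw [← inv_mul_cancel_right (g (_ * s')) ((g t * t⁻¹)⁻¹ * s'), ← e1]; group
    show g.symm (g t) * (g t)⁻¹ = g.symm s' * s'⁻¹
    rw [g.symm_apply_apply, (g.symm_apply_eq).2 e2.symm]; group

def G : Type := G0

noncomputable instance : Group G := inferInstanceAs (Group G0)

noncomputable def ap (g : G) (t : T) : T := g.1 t

theorem ap_mul (g h : G) (t : T) : ap (g * h) t = ap g (ap h t) := rfl
theorem ap_inv (g : G) (t : T) : ap g⁻¹ (ap g t) = t := g.1.symm_apply_apply t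
theorem ap_inv' (g : G) (t : T) : ap g (ap g⁻¹ t) = t := g.1.apply_symm_apply t
theorem ap_mono (g : G) : StrictMono (ap g) := g.1.strictMono
theorem G_ext {g h : G} (e : ∀ t, ap g t = ap h t) : g = h := Subtype.ext (RelIso.ext e)

noncomputable instance : Lattice G where
  le f g := ∀ t, ap f t ≤ ap g t
  le_refl _ _ := le_rfl
  le_trans _ _ _ h1 h2 x := (h1 x).trans (h2 x)
  le_antisymm _ _ h1 h2 := G_ext fun x => (h1 x).antisymm (h2 x)
  sup f g := ⟨osup f.1 g.1, by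
    obtain ⟨f, F, hF, h1⟩ := f
    obtain ⟨g, E, hE, h2⟩ := g
    refine ⟨F ∪ E, hF.union hE, fun t t' H => ?_⟩
    show max (f t) (g t) * _ = max (f t') (g t') * _
    rw [max_mul, max_mul, h1 t t' fun l hl => H l (Or.inl hl), h2 t t' fun l hl => H l (Or.inr hl)]⟩
  inf f g := ⟨oinf f.1 g.1, by
    obtain ⟨f, F, hF, h1⟩ := f
    obtain ⟨g, E, hE, h2⟩ := g
    refine ⟨F ∪ E, hF.union hE, fun t t' H => ?_⟩
    show min (f t) (g t) * _ = min (f t') (g t') * _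
    rw [min_mul, min_mul, h1 t t' fun l hl => H l (Or.inl hl), h2 t t' fun l hl => H l (Or.inr hl)]⟩
  le_sup_left f g x := le_max_left (ap f x) (ap g x)
  le_sup_right f g x := le_max_right (ap f x) (ap g x)
  sup_le _ _ _ h1 h2 x := max_le (h1 x) (h2 x)
  inf_le_left f g x := min_le_left (ap f x) (ap g x)
  inf_le_right f g x := min_le_right (ap f x) (ap g x)
  le_inf _ _ _ h1 h2 x := le_min (h1 x) (h2 x)

instance : MulLeftMono G := ⟨fun f _ _ h t => (ap_mono f).monotone (h t)⟩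
instance : MulRightMono G := ⟨fun f _ _ h t => h (ap f t)⟩

noncomputable def lam (s : T) : G := ⟨OrderIso.mulLeft s, ∅, Set.finite_empty, fun t t' _ => by simp⟩

theorem ap_lam (s t : T) : ap (lam s) t = s * t := rfl
theorem ap_lam_inv (s t : T) : ap (lam s)⁻¹ t = s⁻¹ * t := rfl

noncomputable def co (g : G) (t : T) : T := ap g t * t⁻¹

theorem ap_eq (g : G) (t : T) : ap g t = co g t * t := by simp [co]

theorem co_eq (g : G) {t t' : T} (h : x t = x t') : co g t = co g t' := by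
  obtain ⟨F, -, hF⟩ := g.2
  exact hF t t' fun l _ => congrFun h l

theorem simple (H : Subgroup G) (hN : H.Normal)
    (hc : ∀ a b g : G, a ∈ H → b ∈ H → a ≤ g → g ≤ b → g ∈ H)
    (hl : ∀ a b : G, a ∈ H → b ∈ H → a ⊔ b ∈ H ∧ a ⊓ b ∈ H) : H = ⊥ ∨ H = ⊤ := by
  classical
  refine or_iff_not_imp_left.2 fun hb => ?_
  obtain ⟨g, hg, t0, ht0⟩ : ∃ g ∈ H, ∃ t, t < ap g t := by
    obtain ⟨⟨g, hg⟩, hne⟩ := Subgroup.ne_bot_iff_exists_ne_one.1 hb
    obtain ⟨t, ht⟩ : ∃ t, ap g t ≠ t := by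
      by_contra h
      push Not at h
      exact hne (Subtype.ext (G_ext h))
    rcases lt_or_gt_of_ne ht with h | h
    · exact ⟨g⁻¹, inv_mem hg, t, by simpa [ap_inv] using ap_mono g⁻¹ h⟩
    · exact ⟨g, hg, t, h⟩
  obtain ⟨F, hF, hD⟩ := g.2
  haveI := hF.to_subtype
  let r : T → F → ZMod 2 := fun t l => x t l
  let s : (F → ZMod 2) → T := fun y => ia ((Function.invFun r y).a - t0.a)
  have h0 : 1 < co g t0 := by simpa [co, lt_mul_inv_iff_mul_lt] using ht0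
  obtain ⟨y0, y1, y2⟩ : ∃ y0 : T, 1 < y0 ∧ ∀ y, y0 ≤ s y * co g t0 * (s y)⁻¹ := by
    obtain ⟨y, hy⟩ := Finite.exists_min fun y => s y * co g t0 * (s y)⁻¹
    exact ⟨_, by simpa [lt_mul_inv_iff_mul_lt] using h0, hy⟩
  obtain ⟨k, k1, k2⟩ : ∃ k ∈ H, ∀ y, lam (s y) * g * (lam (s y))⁻¹ ≤ k := by
    have : ∀ S : Finset (F → ZMod 2), ∃ k ∈ H, ∀ y ∈ S, lam (s y) * g * (lam (s y))⁻¹ ≤ k := by
      intro S
      induction S using Finset.induction_on with
      | empty => exact ⟨1, H.one_mem, by simp⟩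
      | insert a S _ ih =>
        obtain ⟨k, k1, k2⟩ := ih
        refine ⟨_, (hl _ _ (hN.conj_mem g hg (lam (s a))) k1).1, fun y hy => ?_⟩
        rcases Finset.mem_insert.1 hy with rfl | hy
        exacts [le_sup_left, (k2 y hy).trans le_sup_right]
    haveI hFin := Fintype.ofFinite (F → ZMod 2)
    obtain ⟨k, k1, k2⟩ := this Finset.univ
    exact ⟨k, k1, fun y => k2 y (Finset.mem_univ _)⟩
  have hy0 : lam y0 ∈ H := hc 1 k _ H.one_mem k1 (fun t => le_mul_of_one_le_left' y1.le) fun t => by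
    refine le_trans ?_ (k2 (r t) t)
    rw [ap_mul, ap_mul, ap_lam, ap_lam, ap_lam_inv, ap_eq g,
      show co g ((s (r t))⁻¹ * t) = co g t0 from hD _ _ fun l hl => ?_, ← mul_assoc, ← mul_assoc]
    · exact mul_le_mul_left (y2 _) _
    · have e : (((Function.invFun r (r t)).a l : ℤ) : ZMod 2) = (t.a l : ℤ) :=
        congrFun (Function.invFun_eq ⟨t, rfl⟩ : r _ = r t) ⟨l, hl⟩
      simp only [x, s, ia, mul_a, inv_a, inv_p, inv_one, P_one, Finsupp.sub_apply]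
      push_cast
      rw [e]; ring
  have hup : ∀ h : G, ∃ k ∈ H, h ≤ k := fun h => by
    obtain ⟨E, hE, hD'⟩ := h.2
    obtain ⟨b, hb⟩ := (hD'.fin hE).bddAbove
    obtain ⟨w, hw⟩ := osimple y1 b
    refine ⟨_, hN.conj_mem _ hy0 (lam w), fun t => ?_⟩
    rw [ap_mul, ap_mul, ap_lam, ap_lam, ap_lam_inv, ap_eq h, ← mul_assoc, ← mul_assoc]
    exact mul_le_mul_left ((hb ⟨t, rfl⟩).trans hw) _
  rw [eq_top_iff]
  intro h _
  obtain ⟨a, a1, a2⟩ := hup h
  obtain ⟨b, b1, b2⟩ := hup h⁻¹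
  exact hc b⁻¹ a h (inv_mem b1) a1 (inv_le_of_inv_le' b2) a2

def Mid (l : ℚ) (y : T) : Prop := Lv l y ∧ y.a l = 0

theorem Lv_ib (l : ℚ) (k : ℤ) : Lv l (ib (Finsupp.single l k)) :=
  ⟨fun _ _ => rfl, fun m hm => ⟨rfl, by simp [ib, hm.ne']⟩⟩

theorem Lv_ia (l : ℚ) (k : ℤ) : Lv l (ia (Finsupp.single l k)) :=
  ⟨fun _ _ => rfl, fun m hm => ⟨by simp [ia, hm.ne'], rfl⟩⟩

theorem Mid.lt {l : ℚ} {y z : T} (hy : Mid l y) (hz : Mid l z) (h : y.b l < z.b l) : y < z := by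
  refine lt_iff.2 ((hz.1.mul hy.1.inv).pos (Or.inr ?_))
  simp only [mul_a, mul_b, inv_a, inv_b, hz.1.inv_p l le_rfl, hy.1.1 l le_rfl, hy.2, hz.2]
  omega

theorem ap_ib (h : G) (b : ℚ →₀ ℤ) (t : T) : ap h (ib b * t) = ib (sh (co h t).p b) * ap h t := by
  rw [ap_eq, co_eq h (x_ib b t), ← mul_assoc, conj_ib, mul_assoc, ← ap_eq]

theorem mid_map (h : G) {l : ℚ} {y : T} (hy : Mid l y) (t : T) :
    Mid ((co h t).p.1 l) (ap h (y * t) * (ap h t)⁻¹) := by
  have h1 := (ap_mono h).monotone (mul_le_mul_left (Mid.lt ⟨Lv_ib l (y.b l - 1), rfl⟩ hy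
    (by simp [ib])).le t)
  have h2 := (ap_mono h).monotone (mul_le_mul_left (hy.lt ⟨Lv_ib l (y.b l + 1), rfl⟩
    (by simp [ib])).le t)
  rw [ap_ib, sh_single] at h1 h2
  rw [← le_mul_inv_iff_mul_le] at h1
  rw [← mul_inv_le_iff_le_mul] at h2
  have h3 := (Lv_ib _ _).conv (Lv_ib _ _) h1 h2
  exact ⟨h3, le_antisymm (h3.a_le (Lv_ib _ _) h2) ((Lv_ib _ _).a_le h3 h1)⟩

def Ag (l : ℚ) (t t' : T) : Prop := ∀ m, l ≤ m → x t m = x t' m

theorem Mid.ag {l : ℚ} {y : T} (hy : Mid l y) (t : T) : Ag l (y * t) t := fun m hm => by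
  rw [x_mul, hy.1.inv_p m hm, x, hm.eq_or_lt.elim (fun e => e ▸ hy.2) fun h => (hy.1.2 m h).1]
  simp

theorem co_p (h : G) {l : ℚ} {y : T} (hy : Lv l y) (t : T)
    (hz : Lv ((co h t).p.1 l) (ap h (y * t) * (ap h t)⁻¹)) :
    (co h (y * t)).p.1 l = (co h t).p.1 l := by
  have : co h (y * t) = ap h (y * t) * (ap h t)⁻¹ * co h t * y⁻¹ := by simp only [co]; group
  rw [this, mul_p, mul_p, P_mul, P_mul, inv_p, hy.inv_p l le_rfl, hz.1 _ le_rfl]

theorem keyK (h : G) {l : ℚ} {t t' : T} (H : Ag l t t') :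
    (co h t').p.1 l = (co h t).p.1 l ∧ Ag ((co h t).p.1 l) (ap h t') (ap h t) := by
  classical
  let y := ia ((t'.a - t.a).filter fun m => m < l)
  have hy : Mid l y := ⟨⟨fun _ _ => rfl, fun m hm => ⟨by simp [y, ia, hm.le], rfl⟩⟩, by simp [y, ia]⟩
  have hx : x (y * t) = x t' := funext fun m => by
    rw [x_ia]
    by_cases hm : m < l
    · simp [hm, x]
    · simp [hm, H m (not_lt.1 hm)]
  have hz := mid_map h hy t
  refine ⟨by rw [← co_eq h hx]; exact co_p h hy.1 t hz.1, fun m hm => ?_⟩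
  rw [← hz.ag (ap h t) m hm, inv_mul_cancel_right, ap_eq h t', ap_eq h (y * t), co_eq h hx,
    x_mul, x_mul, hx]

noncomputable def u (l : ℚ) : T := ia (Finsupp.single l 1)

theorem co_inv (h : G) (t : T) : co h⁻¹ (ap h t) = (co h t)⁻¹ := by simp [co, ap_inv]

theorem keyS (h : G) (l : ℚ) (t : T) : (co h (u l * t)).p.1 l = (co h t).p.1 l ∧
    Ag ((co h t).p.1 l) (ap h (u l * t)) (u ((co h t).p.1 l) * ap h t) := by
  set l' := (co h t).p.1 l with hl'
  set z := ap h (u l * t) * (ap h t)⁻¹ with hz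
  have hu : 1 < u l := one_lt.2 ((Lv_ia l 1).pos (Or.inl (by simp [ia])))
  have hx : x (ia (Finsupp.single l 2) * t) = x t := funext fun m => by
    rw [x_ia, Finsupp.single_apply]; split_ifs; exacts [zero_add _, by simp]
  have e2 : ap h (ia (Finsupp.single l 2) * t) = ia (Finsupp.single l' 2) * ap h t := by
    rw [ap_eq, co_eq h hx, ← mul_assoc, conj_ia, mul_assoc, ← ap_eq, sh_single]
  have euu : ia (Finsupp.single l 2) = u l * u l := by
    rw [u, ← ia_add, ← Finsupp.single_add]; rfl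
  have h1 : 1 ≤ z := le_mul_inv_iff_mul_le.2 (by
    rw [one_mul]; exact (ap_mono h).monotone (le_mul_of_one_le_left' hu.le))
  have h2 : z ≤ ia (Finsupp.single l' 2) := mul_inv_le_iff_le_mul.2 (by
    rw [← e2, euu, mul_assoc]; exact (ap_mono h).monotone (le_mul_of_one_le_left' hu.le))
  have h3 := (Lv_ia _ _).conv1 h1 h2
  have h4 : 0 ≤ z.a l' := Lv.a_le (x := 1) ⟨fun _ _ => rfl, fun _ _ => ⟨rfl, rfl⟩⟩ h3 h1
  have h5 : z.a l' ≤ 2 := by simpa [ia] using h3.a_le (Lv_ia _ _) h2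
  have h6 : z.a l' ≠ 0 := fun e => by
    have := (mid_map h⁻¹ ⟨h3, e⟩ (ap h t)).2
    rw [co_inv, inv_p, hl', P_inv1, hz, inv_mul_cancel_right, ap_inv, ap_inv,
      mul_inv_cancel_right] at this
    simp [u, ia] at this
  have h7 : z.a l' ≠ 2 := fun e => by
    have := (mid_map h⁻¹ (y := z * (ia (Finsupp.single l' 2))⁻¹) ⟨h3.mul (Lv_ia _ _).inv, by
      rw [mul_a, h3.inv_p _ le_rfl, e]; simp [ia]⟩ (ap h (ia (Finsupp.single l 2) * t))).2
    rw [co_inv, co_eq h hx, inv_p, hl', P_inv1, ap_inv, e2, mul_assoc, inv_mul_cancel_left, hz,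
      inv_mul_cancel_right, ap_inv, mul_inv_rev, mul_assoc, mul_inv_cancel_left] at this
    simp [u, ia] at this
  refine ⟨co_p h (Lv_ia l 1) t h3, ?_⟩
  have := Mid.ag (y := z * (u l')⁻¹) ⟨h3.mul (Lv_ia _ _).inv, by
    rw [mul_a, h3.inv_p _ le_rfl, show z.a l' = 1 by omega]; simp [u, ia]⟩ (u l' * ap h t)
  rwa [mul_assoc, inv_mul_cancel_left, hz, inv_mul_cancel_right] at this

def N : Subgroup G where
  carrier := {g | ∃ φ : T → ℚ →₀ ℤ, (∀ t, ap g t = ib (φ t) * t) ∧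
    (∀ l t t', Ag l t t' → φ t l = φ t' l) ∧ ∀ l t, φ (u l * t) l = -φ t l}
  one_mem' := ⟨0, fun t => (one_mul t).symm, fun _ _ _ _ => rfl, fun _ _ => rfl⟩
  mul_mem' := by
    rintro g h ⟨φ, a1, a2, a3⟩ ⟨ψ, b1, b2, b3⟩
    refine ⟨φ + ψ, fun t => ?_, fun l t t' H => by simp [a2 l t t' H, b2 l t t' H],
      fun l t => by simp [a3, b3, add_comm]⟩
    rw [ap_mul, b1, a1, Pi.add_apply, ib_add, mul_assoc]
    congr 2
    ext l
    exact a2 l _ _ fun m _ => by rw [x_ib]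
  inv_mem' := by
    rintro g ⟨φ, a1, a2, a3⟩
    refine ⟨-φ, fun t => (ap_mono g).injective ?_, fun l t t' H => by simp [a2 l t t' H],
      fun l t => by simp [a3]⟩
    rw [ap_inv', a1, ← mul_assoc, ← ib_add, show φ (ib ((-φ) t) * t) = φ t from
      Finsupp.ext fun l => a2 l _ _ fun m _ => by rw [x_ib], Pi.neg_apply, add_neg_cancel]
    exact (one_mul t).symm

theorem N_normal : N.Normal := ⟨by
  rintro g ⟨φ, a1, a2, a3⟩ h
  refine ⟨fun s => sh (co h⁻¹ s).p⁻¹ (φ (ap h⁻¹ s)), fun s => ?_, fun l s s' H => ?_,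
    fun l s => ?_⟩
  · rw [ap_mul, ap_mul, a1, ap_ib, ap_inv']
    show _ = ib (sh (co h⁻¹ s)⁻¹.p _) * s
    rw [← co_inv, inv_inv]
  · obtain ⟨k1, k2⟩ := keyK h⁻¹ H
    simp only [sh_apply, inv_inv, k1]
    exact (a2 _ _ _ k2).symm
  · obtain ⟨k1, k2⟩ := keyS h⁻¹ l s
    simp only [sh_apply, inv_inv, k1]
    rw [a2 _ _ _ k2, a3]⟩

theorem N_pos {g : G} (hg : g ∈ N) (h : 1 ≤ g) : g = 1 := by
  obtain ⟨φ, a1, a2, a3⟩ := hg
  have h1 : ∀ t, 1 ≤ ib (φ t) := fun t => by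
    have : t ≤ ap g t := h t
    rwa [a1, le_mul_iff_one_le_left'] at this
  have h2 : ∀ t l, (∀ m, l < m → φ t m = 0) → 0 ≤ φ t l := fun t l hl => by
    by_contra hc
    exact absurd (h1 t) (not_le.2 (Mid.lt (l := l) ⟨⟨fun _ _ => rfl, fun m hm => ⟨rfl, hl m hm⟩⟩, rfl⟩
      ⟨⟨fun _ _ => rfl, fun _ _ => ⟨rfl, rfl⟩⟩, rfl⟩ (not_le.1 hc)))
  refine G_ext fun t => ?_
  by_cases h0 : φ t = 0
  · rw [a1, h0]; exact one_mul t
  obtain ⟨l, hl, hmax⟩ := (φ t).support.exists_max_image id (Finsupp.support_nonempty_iff.2 h0)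
  have h3 : ∀ m, l < m → φ t m = 0 := fun m hm => by
    by_contra hc
    exact absurd (hmax m (Finsupp.mem_support_iff.2 hc)) (not_le.2 hm)
  have h4 := h2 (u l * t) l fun m hm => by
    rw [← h3 m hm]
    exact a2 _ _ _ fun k hk => by rw [u, x_ia]; simp [(hm.trans_le hk).ne']
  have h5 := h2 t l h3
  have h6 := Finsupp.mem_support_iff.1 hl
  rw [a3] at h4
  omega

def sg (e : ZMod 2) : ℤ := if e = 0 then 1 else -1

noncomputable def dl (k : ℤ) (t : T) : T := ib (Finsupp.single 0 (k * sg (x t 0))) * t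

theorem dl_mono (k : ℤ) : StrictMono (dl k) := fun t t' h => by
  by_cases e : x t 0 = x t' 0
  · rw [dl, dl, e]; exact mul_lt_mul_right h _
  · by_contra hc
    rw [not_lt, dl, dl, ← le_inv_mul_iff_mul_le, ← mul_assoc, ← mul_inv_le_iff_le_mul] at hc
    have h1 : 1 ≤ t' * t⁻¹ := le_mul_inv_iff_mul_le.2 (by simpa using h.le)
    have h2 := (Lv_ib 0 (k * sg (x t' 0))).inv.mul (Lv_ib 0 (k * sg (x t 0)))
    have h3 := (h2.conv1 h1 hc)
    have h4 : Mid 0 (t' * t⁻¹) := ⟨h3, le_antisymm (by simpa [ib] using h3.a_le h2 hc)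
      (Lv.a_le (x := 1) ⟨fun _ _ => rfl, fun _ _ => ⟨rfl, rfl⟩⟩ h3 h1)⟩
    exact e (by simpa using (h4.ag t 0 le_rfl).symm)

noncomputable def dd : G := ⟨StrictMono.orderIsoOfRightInverse (dl 1) (dl_mono 1) (dl (-1))
  (fun t => by
    rw [dl, dl, x_ib, ← mul_assoc, ← ib_add, ← Finsupp.single_add]
    simp only [one_mul, neg_mul, add_neg_cancel, Finsupp.single_zero]
    exact one_mul t), {0}, Set.finite_singleton _, fun t t' H => by
      show dl 1 t * _ = dl 1 t' * _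
      simp [dl, H 0 rfl]⟩

theorem dd_mem : dd ∈ N := ⟨fun t => Finsupp.single 0 (1 * sg (x t 0)), fun _ => rfl,
  fun l t t' H => by
    by_cases h : l = 0
    · simp only [H 0 h.le]
    · simp [h], fun l t => by
    by_cases h : l = 0
    · subst h
      simp only [u, x_ia, Finsupp.single_eq_same, one_mul]
      generalize x t 0 = e
      revert e; decide
    · simp [h]⟩

theorem dd_ne : dd ≠ 1 := fun h => by
  have : ap dd 1 = 1 := by rw [h]; rfl
  have := congrArg (fun t : T => t.b 0) this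
  change (dl 1 1).b 0 = 0 at this
  simp [dl, ib, x, sg] at this

theorem N_conv (a b g : G) (ha : a ∈ N) (hb : b ∈ N) (h1 : a ≤ g) (h2 : g ≤ b) : g ∈ N := by
  have := N_pos (mul_mem hb (inv_mem ha)) (le_mul_inv_iff_mul_le.2 (by simpa using h1.trans h2))
  rw [mul_inv_eq_one] at this
  rwa [le_antisymm h2 (this ▸ h1)]

theorem N_ne_top : N ≠ ⊤ := fun h => by
  have hu : 1 < u 0 := one_lt.2 ((Lv_ia 0 1).pos (Or.inl (by simp [ia])))
  have := N_pos (g := lam (u 0)) (h ▸ trivial) fun t => le_mul_of_one_le_left' hu.le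
  have : ap (lam (u 0)) 1 = 1 := by rw [this]; rfl
  exact hu.ne' (by simpa [ap_lam] using this)

end Pool.Agent.H51.LSimpB
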