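import Mathlib

set_option autoImplicit false

namespace Pool.Agent.H51.LampAnn

abbrev F := ZMod 2

@[ext] structure G where
  f : ℤ →₀ F
  m : ℤ
  i : F
  j : F

noncomputable def sh (m : ℤ) (f : ℤ →₀ F) : ℤ →₀ F := Finsupp.equivMapDomain (Equiv.addRight m) f

@[simp] lemma sh_apply (m : ℤ) (f : ℤ →₀ F) (x : ℤ) : sh m f x = f (x - m) := by
  simp [sh, sub_eq_add_neg]

noncomputable instance : Mul G := ⟨fun x y => ⟨x.f + sh x.m y.f, x.m + y.m, x.i + y.i, x.j + y.j⟩⟩
noncomputable instance : One G := ⟨⟨0, 0, 0, 0⟩⟩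
noncomputable instance : Inv G := ⟨fun x => ⟨sh (-x.m) (-x.f), -x.m, -x.i, -x.j⟩⟩

@[simp] lemma mul_f (x y : G) : (x * y).f = x.f + sh x.m y.f := rfl
@[simp] lemma mul_m (x y : G) : (x * y).m = x.m + y.m := rfl
@[simp] lemma mul_i (x y : G) : (x * y).i = x.i + y.i := rfl
@[simp] lemma mul_j (x y : G) : (x * y).j = x.j + y.j := rfl
@[simp] lemma one_f : (1 : G).f = 0 := rfl
@[simp] lemma one_m : (1 : G).m = 0 := rfl
@[simp] lemma one_i : (1 : G).i = 0 := rfl
@[simp] lemma one_j : (1 : G).j = 0 := rfl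
@[simp] lemma inv_f (x : G) : (x⁻¹).f = sh (-x.m) (-x.f) := rfl
@[simp] lemma inv_m (x : G) : (x⁻¹).m = -x.m := rfl
@[simp] lemma inv_i (x : G) : (x⁻¹).i = -x.i := rfl
@[simp] lemma inv_j (x : G) : (x⁻¹).j = -x.j := rfl

noncomputable instance : Group G := Group.ofLeftAxioms
  (fun a b c => by
    ext x
    · simp [add_assoc, sub_sub]
    · simp [add_assoc]
    · simp [add_assoc]
    · simp [add_assoc])
  (fun a => by ext x <;> simp)
  (fun a => by ext x <;> simp [CharTwo.add_self_eq_zero])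

abbrev R := MonoidAlgebra F G

noncomputable def e (f : ℤ →₀ F) (m : ℤ) (i j : F) : R := MonoidAlgebra.single ⟨f, m, i, j⟩ 1

noncomputable def d (n : ℤ) : ℤ →₀ F := Finsupp.single n 1

lemma d_apply (n x : ℤ) : d n x = if n = x then 1 else 0 := by
  simp [d, Finsupp.single_apply]

lemma sh_d (m n : ℤ) : sh m (d n) = d (n + m) := by
  ext x
  simp only [sh_apply, d_apply]
  congr 1
  apply propext
  omega

@[simp] lemma sh_zero (m : ℤ) : sh m 0 = 0 := by ext x; simp
@[simp] lemma sh_zero' (f : ℤ →₀ F) : sh 0 f = f := by ext x; simp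
lemma sh_add (m : ℤ) (f g : ℤ →₀ F) : sh m (f + g) = sh m f + sh m g := by ext x; simp

lemma e_mul (f g : ℤ →₀ F) (m n : ℤ) (i j i' j' : F) :
    e f m i j * e g n i' j' = e (f + sh m g) (m + n) (i + i') (j + j') := by
  simp only [e, MonoidAlgebra.single_mul_single, one_mul]
  rfl

noncomputable def al : R :=
  e (d 0) 0 1 0 + e (d 0) 0 0 0 + e 0 0 1 0 + e 0 1 0 1 + e 0 1 0 0 + e 0 0 0 1

noncomputable def L (P : G → F) : R →+ F where
  toFun x := x.coeff.sum fun g c => c * P g
  map_zero' := by simp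
  map_add' x y := by
    simp only [MonoidAlgebra.coeff_add]
    rw [Finsupp.sum_add_index'] <;> simp [add_mul]

lemma L_single (P : G → F) (g : G) (c : F) : L P (MonoidAlgebra.single g c) = c * P g := by
  simp [L]

lemma L_e (P : G → F) (f : ℤ →₀ F) (m : ℤ) (i j : F) : L P (e f m i j) = P ⟨f, m, i, j⟩ := by
  simp [e, L_single]

def Ph (k : ℤ) (x : G) : F := x.j * x.f (x.m - k)

noncomputable def B (k : ℤ) (f g : ℤ →₀ F) : F := f.sum fun i c => c * g (i + k)

lemma B_add (k : ℤ) (f g g' : ℤ →₀ F) : B k f (g + g') = B k f g + B k f g' := by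
  simp [B, mul_add, Finsupp.sum_add]

lemma B_d (k : ℤ) (f : ℤ →₀ F) (n : ℤ) : B k f (d n) = f (n - k) := by
  unfold B
  rw [Finsupp.sum_eq_single (n - k)]
  · simp [d_apply]
  · intro b _ hb
    rw [d_apply, if_neg (by omega), mul_zero]
  · simp

noncomputable def Ps (k : ℤ) (h x : G) : F :=
  x.i * x.j * B k h.f (sh h.m x.f) + x.i * (h.j * x.f x.m * (h * x).f (h.m + x.m - k))

lemma two_F : (2 : F) = 0 := rfl

lemma key (k : ℤ) (hk : k ≠ 0) (h : G) (c : F) (y : R) :
    L (Ph k) (MonoidAlgebra.single h c * y) = c * (L (Ph k) y + L (Ps k h) (y * al)) := by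
  induction y using MonoidAlgebra.induction_linear with
  | zero => simp
  | add a b ha hb => simp only [mul_add, add_mul, map_add, ha, hb]; ring
  | single x c' =>
    simp only [al, e, mul_add, MonoidAlgebra.single_mul_single, map_add, L_single, mul_one]
    obtain ⟨f, m, i, j⟩ := x
    obtain ⟨g, n, i', j'⟩ := h
    have h1 : d (0 + m) m = 1 := by simp [d_apply]
    have h2 : d (0 + m + n) (n + m - k) = 0 := by rw [d_apply, if_neg (by omega)]
    have h3 : n + m - k - n = m - k := by ring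
    have h4 : 0 + m + n - k = n + m - k := by ring
    simp only [Ph, Ps, mul_f, mul_m, mul_i, mul_j, sh_add, sh_d, B_add, B_d, sh_zero, add_zero,
      Finsupp.add_apply, sh_apply, h1, h2, h3, h4]
    generalize B k g (sh n f) = b
    generalize g (n + m - k) = u1
    generalize g (n + (m + 1) - k) + f (n + (m + 1) - k - n) = u2
    generalize f (m + 1) = u3
    generalize f m = u4
    generalize f (m - k) = u5
    clear h1 h2 h3 h4
    revert b u1 u2 u3 u4 u5 c c' i j j'
    decide +kernel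

lemma van (k : ℤ) (hk : k ≠ 0) (y : R) (hy : y * al = 0) (h0 : L (Ph k) y = 0) (z : R) :
    L (Ph k) (z * y) = 0 := by
  induction z using MonoidAlgebra.induction_linear with
  | zero => simp
  | add a b ha hb => simp only [add_mul, map_add, ha, hb, add_zero]
  | single x c => rw [key k hk, hy, h0]; simp

lemma Ls (k : ℤ) (y : R) : L (Ph k) (y * (e 0 0 1 0 + e 0 0 0 0)) = 0 := by
  induction y using MonoidAlgebra.induction_linear with
  | zero => simp
  | add a b ha hb => simp only [add_mul, map_add, ha, hb, add_zero]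
  | single x c =>
    simp only [e, mul_add, MonoidAlgebra.single_mul_single, map_add, L_single, mul_one]
    simp [Ph, CharTwo.add_self_eq_zero]

lemma large (y : R) : ∃ N : ℕ, ∀ k : ℕ, N ≤ k → L (Ph k) y = 0 := by
  induction y using MonoidAlgebra.induction_linear with
  | zero => exact ⟨0, fun _ _ => by simp⟩
  | add a b ha hb =>
    obtain ⟨N, hN⟩ := ha
    obtain ⟨M, hM⟩ := hb
    exact ⟨max N M, fun k hk => by
      rw [map_add, hN k (le_of_max_le_left hk), hM k (le_of_max_le_right hk), add_zero]⟩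
  | single x c =>
    obtain ⟨b, hb⟩ := x.f.support.bddBelow
    refine ⟨(x.m - b + 1).toNat, fun k hk => ?_⟩
    rw [L_single, Ph]
    have : x.f (x.m - k) = 0 := by
      by_contra h
      have := hb (Finsupp.mem_support_iff.2 h)
      omega
    simp [this]

lemma dd (n : ℤ) : d n + d n = 0 := by ext x; simp [CharTwo.add_self_eq_zero]

lemma F11 : (1 : F) + 1 = 0 := rfl

noncomputable def W : R := e 0 0 1 1 + e 0 0 1 0 + e 0 0 0 1 + e 0 0 0 0

lemma ua : (e 0 0 1 0 + e 0 0 0 0) * al = (e 0 1 0 0 - e 0 0 0 0) * W := by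
  simp only [al, W, add_mul, mul_add, sub_mul, e_mul, sh_zero, sh_zero', add_zero, zero_add, F11]
  rw [← one_smul F (e 0 1 1 1)]
  match_scalars <;> decide

lemma va : (e 0 0 0 1 + e 0 0 0 0) * al = (e (d 0) 0 0 0 + e 0 0 0 0) * W := by
  simp only [al, W, add_mul, mul_add, sub_mul, e_mul, sh_zero, sh_zero', add_zero, zero_add, F11]
  rw [← one_smul F (e (d 0) 0 1 1)]
  match_scalars <;> decide

lemma e_pow (k : ℕ) : e 0 1 0 0 ^ k = e 0 k 0 0 := by
  induction k with
  | zero => rfl
  | succ n ih => rw [pow_succ, ih, e_mul]; simp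

noncomputable def P (k : ℤ) : R := e 0 0 0 0 + e (d 0) 0 0 0 + e (d k) 0 0 0 + e (d 0 + d k) 0 0 0
noncomputable def Q (k : ℤ) : R := e 0 0 0 0 + e (d 0) k 0 0 + e (d 0 + d k) 0 0 0 + e (d k) k 0 0

lemma PQ (k : ℤ) : P k * (e 0 k 0 0 - e 0 0 0 0) + Q k * (e (d 0) 0 0 0 + e 0 0 0 0) = 0 := by
  have h1 : d 0 + d k + d 0 = d k := by rw [add_right_comm, dd, zero_add]
  simp only [P, Q, add_mul, mul_add, mul_sub, e_mul, sh_zero, sh_zero', sh_d, add_zero, zero_add,
    dd, h1]
  rw [← one_smul F (e 0 k 0 0)]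
  match_scalars <;> decide

theorem not_fg : ¬ ∃ s : Finset R,
    ((Submodule.span R (s : Set R) : Set R) = {x : R | x * al = 0}) := by
  rintro ⟨s, hs⟩
  choose N hN using large
  set k : ℕ := s.sup N + 1 with hk
  have hk0 : (k : ℤ) ≠ 0 := by omega
  have hall : ∀ y ∈ Submodule.span R (s : Set R), ∀ z : R, L (Ph k) (z * y) = 0 := by
    intro y hy
    induction hy using Submodule.span_induction with
    | mem x hx =>
      have h1 : x ∈ (Submodule.span R (s : Set R) : Set R) := Submodule.subset_span hx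
      rw [hs] at h1
      refine van k hk0 x h1 (hN x k ?_)
      have := Finset.le_sup (f := N) hx
      omega
    | zero => simp
    | add a b _ _ ha hb => intro z; rw [mul_add, map_add, ha, hb, add_zero]
    | smul a x _ hx => intro z; rw [smul_eq_mul, ← mul_assoc, hx]
  set T : R := e 0 1 0 0 with hT
  set b : R := P k * (∑ i ∈ Finset.range k, T ^ i) * (e 0 0 1 0 + e 0 0 0 0)
    + Q k * (e 0 0 0 1 + e 0 0 0 0) with hb
  have hba : b * al = 0 := by
    have h1 : e 0 0 0 0 = (1 : R) := rfl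
    have h2 : (∑ i ∈ Finset.range k, T ^ i) * (T - e 0 0 0 0) = e 0 k 0 0 - e 0 0 0 0 := by
      rw [h1, geom_sum_mul, e_pow]
    rw [hb, add_mul, mul_assoc _ _ al, mul_assoc _ _ al, ua, va, ← mul_assoc, ← mul_assoc,
      ← add_mul, mul_assoc (P k), h2, PQ, zero_mul]
  have hmem : b ∈ (Submodule.span R (s : Set R) : Set R) := by rw [hs]; exact hba
  have := hall b hmem 1
  rw [one_mul, hb, map_add, Ls, zero_add] at this
  simp only [Q, add_mul, mul_add, e_mul, map_add, L_e, Ph, sh_zero, add_zero, zero_add,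
    Finsupp.add_apply, d_apply] at this
  have a1 : ¬ ((0 : ℤ) = 0 - k) := by omega
  have a2 : ¬ ((k : ℤ) = 0 - k) := by omega
  have a3 : ¬ ((k : ℤ) = k - k) := by omega
  have a4 : ((0 : ℤ) = k - k) := by omega
  rw [if_neg a1, if_neg a2, if_neg a3, if_pos a4] at this
  simp at this

end Pool.Agent.H51.LampAnn
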