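import Mathlib

set_option autoImplicit false

namespace Pool.Agent.H51.LonA

def G (d x : ℝ) : Prop := ∃ m : ℤ, m + d ≤ x ∧ x ≤ m + 1 - d

lemma G.mono {d e x : ℝ} (h : G d x) (he : e ≤ d) : G e x := by
  obtain ⟨m, h1, h2⟩ := h
  exact ⟨m, by linarith, by linarith⟩

lemma G.add_int {d x y : ℝ} (h : G d x) (n : ℤ) (e : y = x + n) : G d y := by
  obtain ⟨m, h1, h2⟩ := h
  exact ⟨m + n, by push_cast; linarith, by push_cast; linarith⟩

lemma G.neg {d x y : ℝ} (h : G d x) (e : y = -x) : G d y := by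
  obtain ⟨m, h1, h2⟩ := h
  exact ⟨-m - 1, by push_cast; linarith, by push_cast; linarith⟩

lemma G.far {d x : ℝ} (h : G d x) (n : ℤ) : d ≤ |x - n| := by
  obtain ⟨m, h1, h2⟩ := h
  rcases le_or_gt n m with hn | hn
  · have : (n : ℝ) ≤ m := by exact_mod_cast hn
    exact le_abs.2 (Or.inl (by linarith))
  · have : (m : ℝ) + 1 ≤ n := by exact_mod_cast hn
    exact le_abs.2 (Or.inr (by linarith))

lemma G_of_far {d x : ℝ} (h : ∀ n : ℤ, d ≤ |x - n|) : G d x := by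
  have h1 := h ⌊x⌋
  have h2 := h (⌊x⌋ + 1)
  have h3 := Int.floor_le x
  have h4 := Int.lt_floor_add_one x
  rw [abs_of_nonneg (by linarith)] at h1
  push_cast at h2
  rw [abs_of_neg (by linarith)] at h2
  exact ⟨⌊x⌋, by linarith, by linarith⟩

lemma interval (d a : ℝ) (hd : d ≤ 1 / 2) (hd0 : 0 ≤ d) : ∃ x, a ≤ x ∧ x ≤ a + 2 * d ∧ G d x := by
  have h3 := Int.floor_le (a + d)
  have h4 := Int.lt_floor_add_one (a + d)
  by_cases h : (⌊a + d⌋ : ℝ) + d ≤ a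
  · exact ⟨a, le_rfl, by linarith, ⌊a + d⌋, h, by linarith⟩
  · exact ⟨⌊a + d⌋ + d, by linarith, by linarith, ⌊a + d⌋, le_rfl, by linarith⟩

lemma L2pos (p q : ℝ) (hp : 0 < p) (hq : 0 < q) : ∃ t, G (7 / 20) (p * t) ∧ G (1 / 4) (q * t) := by
  set r := q / p with hr
  have hr0 : 0 < r := by positivity
  suffices h : ∃ x, G (7 / 20) x ∧ G (1 / 4) (r * x) by
    obtain ⟨x, h1, h2⟩ := h
    refine ⟨x / p, ?_, ?_⟩
    · rwa [mul_div_cancel₀ _ hp.ne']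
    · convert h2 using 1; rw [hr]; ring
  by_cases h1 : r ≤ 5 / 7
  · obtain ⟨x, a1, a2, a3⟩ := interval (7 / 20) (1 / (4 * r)) (by norm_num) (by norm_num)
    have e : r * (1 / (4 * r)) = 1 / 4 := by field_simp
    exact ⟨x, a3, 0, by nlinarith, by nlinarith⟩
  by_cases h2 : r ≤ 5 / 3
  · exact ⟨7 / 20, ⟨0, by norm_num, by norm_num⟩, 0, by push_cast; linarith, by push_cast; linarith⟩
  · obtain ⟨y, a1, a2, a3⟩ := interval (1 / 4) (7 / 20 * r) (by norm_num) (by norm_num)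
    refine ⟨y / r, ⟨0, ?_, ?_⟩, by rwa [mul_div_cancel₀ _ hr0.ne']⟩
    · rw [le_div_iff₀ hr0]; push_cast; linarith
    · rw [div_le_iff₀ hr0]; push_cast; linarith

lemma G_abs {d p t : ℝ} (h : G d (|p| * t)) : G d (p * t) := by
  rcases abs_choice p with e | e
  · rwa [e] at h
  · exact h.neg (by rw [e]; ring)

lemma L2 (p q : ℝ) (hp : p ≠ 0) (hq : q ≠ 0) : ∃ t, G (7 / 20) (p * t) ∧ G (1 / 4) (q * t) := by
  obtain ⟨t, h1, h2⟩ := L2pos |p| |q| (abs_pos.2 hp) (abs_pos.2 hq)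
  exact ⟨t, G_abs h1, G_abs h2⟩

lemma L1 (p w : ℝ) (hw : w ≠ 0) :
    ∃ t, G (1 / 5) (w * t) ∧ ∃ m : ℤ, - (1 / 4) ≤ p * t - m ∧ p * t - m ≤ 1 / 4 := by
  set r := p / w with hr
  suffices h : ∃ x, G (1 / 5) x ∧ ∃ m : ℤ, - (1 / 4) ≤ |r| * x - m ∧ |r| * x - m ≤ 1 / 4 by
    obtain ⟨x, h1, m, h2, h3⟩ := h
    have e : p * (x / w) = r * x := by rw [hr]; ring
    refine ⟨x / w, by rwa [mul_div_cancel₀ _ hw], ?_⟩
    rw [e]
    rcases abs_choice r with e | e <;> rw [e] at h2 h3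
    · exact ⟨m, h2, h3⟩
    · exact ⟨-m, by push_cast; linarith, by push_cast; linarith⟩
  have h0 := abs_nonneg r
  generalize |r| = s at *
  by_cases h1 : s ≤ 1
  · exact ⟨1 / 5, ⟨0, by norm_num, by norm_num⟩, 0, by push_cast; linarith, by push_cast; linarith⟩
  · have hs : 0 < s := by linarith
    obtain ⟨y, a1, a2, m, a3, a4⟩ := interval (1 / 4) (s / 5 + 1 / 2) (by norm_num) (by norm_num)
    refine ⟨(y - 1 / 2) / s, ⟨0, ?_, ?_⟩, m, ?_, ?_⟩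
    · rw [le_div_iff₀ hs]; push_cast; linarith
    · rw [div_le_iff₀ hs]; push_cast; linarith
    · rw [mul_div_cancel₀ _ hs.ne']; linarith
    · rw [mul_div_cancel₀ _ hs.ne']; linarith

lemma half (x : ℝ) : G (1 / 4) x ∨ G (1 / 4) (x + 1 / 2) := by
  have h3 := Int.floor_le (x + 1 / 4)
  have h4 := Int.lt_floor_add_one (x + 1 / 4)
  by_cases h : (⌊x + 1 / 4⌋ : ℝ) + 1 / 4 ≤ x
  · exact Or.inl ⟨⌊x + 1 / 4⌋, h, by linarith⟩
  · exact Or.inr ⟨⌊x + 1 / 4⌋, by linarith, by linarith⟩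

lemma mult (θ : ℝ) (h : ∀ n : ℤ, θ ≠ n) : ∃ x : ℤ, G (1 / 4) (θ * x) := by
  have h1 := abs_sub_round θ
  have h2 : 0 < |θ - round θ| := abs_pos.2 (sub_ne_zero.2 (h _))
  set y := |θ - round θ| with hy
  have h3 := Int.le_ceil (1 / (4 * y))
  have h4 := Int.ceil_lt_add_one (1 / (4 * y))
  have e : y * (1 / (4 * y)) = 1 / 4 := by field_simp
  have h5 : G (1 / 4) (y * (⌈1 / (4 * y)⌉ : ℤ)) := ⟨0, by nlinarith, by nlinarith⟩
  exact ⟨⌈1 / (4 * y)⌉, (G_abs h5).add_int (round θ * ⌈1 / (4 * y)⌉) (by push_cast; ring)⟩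

lemma flip (u v w : ℤ) (t : ℝ) (hw : w % 2 = 1)
    (h1 : G (1 / 4) (u * t) ∧ G (1 / 4) (u * (t + 1 / 2)))
    (h2 : G (1 / 4) (v * t) ∧ G (1 / 4) (v * (t + 1 / 2))) :
    ∃ t : ℝ, G (1 / 4) (u * t) ∧ G (1 / 4) (v * t) ∧ G (1 / 4) (w * t) := by
  rcases half (w * t) with h | h
  · exact ⟨t, h1.1, h2.1, h⟩
  · obtain ⟨k, rfl⟩ : ∃ k, w = 2 * k + 1 := ⟨w / 2, by omega⟩
    exact ⟨t + 1 / 2, h1.2, h2.2, h.add_int k (by push_cast; ring)⟩

lemma one_odd (u v w : ℤ) (hu : u ≠ 0) (hv : v ≠ 0) (hu2 : u % 2 = 0) (hv2 : v % 2 = 0)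
    (hw : w % 2 = 1) : ∃ t : ℝ, G (1 / 4) (u * t) ∧ G (1 / 4) (v * t) ∧ G (1 / 4) (w * t) := by
  obtain ⟨t, h1, h2⟩ := L2 u v (by exact_mod_cast hu) (by exact_mod_cast hv)
  replace h1 := h1.mono (e := 1 / 4) (by norm_num)
  obtain ⟨a, rfl⟩ : ∃ k, u = 2 * k := ⟨u / 2, by omega⟩
  obtain ⟨b, rfl⟩ : ∃ k, v = 2 * k := ⟨v / 2, by omega⟩
  exact flip _ _ w t hw ⟨h1, h1.add_int a (by push_cast; ring)⟩
    ⟨h2, h2.add_int b (by push_cast; ring)⟩

lemma G_odd4 (x : ℤ) (hx : x % 2 = 1) : G (1 / 4) ((x : ℝ) / 4) := by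
  obtain ⟨k, h | h⟩ : ∃ k, x = 4 * k + 1 ∨ x = 4 * k + 3 := ⟨x / 4, by omega⟩ <;> rw [h] <;>
    exact ⟨k, by push_cast; linarith, by push_cast; linarith⟩

lemma nd (u v m : ℤ) (hu : u % 2 = 1) (hv : v % 2 = 1) (h : ¬ u ∣ m) :
    ∃ t : ℝ, G (1 / 4) (u * t) ∧ G (1 / 4) ((4 * m : ℤ) * t) ∧ G (1 / 4) (v * t) := by
  have hu0 : (u : ℝ) ≠ 0 := by
    have : u ≠ 0 := by omega
    exact_mod_cast this
  obtain ⟨x, hx⟩ := mult ((m : ℝ) / u) (fun n e => h ⟨n, by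
    rw [div_eq_iff hu0] at e
    have : (m : ℝ) = u * n := by rw [e]; ring
    exact_mod_cast this⟩)
  obtain ⟨y, hy, hy2⟩ : ∃ y : ℤ, y % 2 = 1 ∧ G (1 / 4) ((m : ℝ) / u * y) := by
    by_cases h2 : x % 2 = 1
    · exact ⟨x, h2, hx⟩
    · exact ⟨x + u, by omega, hx.add_int m (by push_cast; field_simp)⟩
  refine flip u (4 * m) v (y / (4 * u)) hv ⟨?_, ?_⟩ ⟨?_, ?_⟩
  · convert G_odd4 y hy using 1; field_simp
  · convert G_odd4 (y + 2 * u) (by omega) using 1; push_cast; field_simp; ring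
  · convert hy2 using 1; push_cast; field_simp
  · exact hy2.add_int (2 * m) (by push_cast; field_simp; ring)

lemma one_even (u v w : ℤ) (hu0 : 0 < u) (hv0 : 0 < v) (hw0 : 0 < w) (hu : u % 2 = 1)
    (hv : v % 2 = 1) (hw : w % 2 = 0) :
    ∃ t : ℝ, G (1 / 4) (u * t) ∧ G (1 / 4) (v * t) ∧ G (1 / 4) (w * t) := by
  by_cases h4 : w % 4 = 2
  · obtain ⟨k, rfl⟩ : ∃ k, w = 4 * k + 2 := ⟨w / 4, by omega⟩
    refine ⟨1 / 4, ?_, ?_, k, by push_cast; linarith, by push_cast; linarith⟩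
    · convert G_odd4 u hu using 1; ring
    · convert G_odd4 v hv using 1; ring
  obtain ⟨m, rfl⟩ : ∃ k, w = 4 * k := ⟨w / 4, by omega⟩
  by_cases h1 : u ∣ m
  · by_cases h2 : v ∣ m
    · have hm : (0 : ℝ) < m := by exact_mod_cast (by omega : 0 < m)
      have key : ∀ u : ℤ, 0 < u → u % 2 = 1 → u ∣ m → G (1 / 4) (u * (1 / 2 + 1 / (16 * (m : ℝ)))) := by
        intro u h0 hu h1
        have h3 : (u : ℝ) ≤ m := by exact_mod_cast Int.le_of_dvd (by omega) h1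
        have h4 : (0 : ℝ) < u := by exact_mod_cast h0
        have h5 : (u : ℝ) * (1 / (16 * m)) ≤ 1 / 4 := by
          rw [mul_one_div, div_le_iff₀ (by positivity)]; linarith
        have h6 : 0 ≤ (u : ℝ) * (1 / (16 * m)) := by positivity
        obtain ⟨k, hk⟩ : ∃ k, u = 2 * k + 1 := ⟨u / 2, by omega⟩
        have hk' : (u : ℝ) = 2 * k + 1 := by exact_mod_cast hk
        exact ⟨k, by linarith, by linarith⟩
      refine ⟨_, key u hu0 hu h1, key v hv0 hv h2, 2 * m, ?_, ?_⟩ <;> push_cast <;> field_simp <;>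
        linarith
    · obtain ⟨t, a, b, c⟩ := nd v u m hv hu h2
      exact ⟨t, c, a, b⟩
  · obtain ⟨t, a, b, c⟩ := nd u v m hu hv h1
    exact ⟨t, a, c, b⟩

lemma LR3 (n : ℕ) : ∀ u v w : ℤ, 0 < u → 0 < v → 0 < w → u ≤ n →
    ∃ t : ℝ, G (1 / 4) (u * t) ∧ G (1 / 4) (v * t) ∧ G (1 / 4) (w * t) := by
  induction n with
  | zero => intro u v w h _ _ h'; omega
  | succ n ih =>
    intro u v w hu hv hw hn
    rcases Int.emod_two_eq_zero_or_one u with a | a <;>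
      rcases Int.emod_two_eq_zero_or_one v with b | b <;>
      rcases Int.emod_two_eq_zero_or_one w with c | c
    · obtain ⟨a', rfl⟩ : ∃ k, u = 2 * k := ⟨u / 2, by omega⟩
      obtain ⟨b', rfl⟩ : ∃ k, v = 2 * k := ⟨v / 2, by omega⟩
      obtain ⟨c', rfl⟩ : ∃ k, w = 2 * k := ⟨w / 2, by omega⟩
      obtain ⟨t, h1, h2, h3⟩ := ih a' b' c' (by omega) (by omega) (by omega) (by omega)
      refine ⟨t / 2, ?_, ?_, ?_⟩
      · convert h1 using 1; push_cast; ring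
      · convert h2 using 1; push_cast; ring
      · convert h3 using 1; push_cast; ring
    · exact one_odd u v w hu.ne' hv.ne' a b c
    · obtain ⟨t, h1, h2, h3⟩ := one_odd u w v hu.ne' hw.ne' a c b
      exact ⟨t, h1, h3, h2⟩
    · obtain ⟨t, h1, h2, h3⟩ := one_even v w u hv hw hu b c a
      exact ⟨t, h3, h1, h2⟩
    · obtain ⟨t, h1, h2, h3⟩ := one_odd v w u hv.ne' hw.ne' b c a
      exact ⟨t, h3, h1, h2⟩
    · obtain ⟨t, h1, h2, h3⟩ := one_even u w v hu hw hv a c b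
      exact ⟨t, h1, h3, h2⟩
    · exact one_even u v w hu hv hw a b c
    · have key : ∀ u : ℤ, u % 2 = 1 → G (1 / 4) (u * (1 / 2 : ℝ)) := by
        intro u hu
        obtain ⟨k, rfl⟩ : ∃ k, u = 2 * k + 1 := ⟨u / 2, by omega⟩
        exact ⟨k, by push_cast; linarith, by push_cast; linarith⟩
      exact ⟨1 / 2, key u a, key v b, key w c⟩

lemma solve5 (u j : ℤ) (hu : u % 5 ≠ 0) : ∃ k M : ℤ, u * k = j + 5 * M := by
  have : u % 5 = 1 ∨ u % 5 = 2 ∨ u % 5 = 3 ∨ u % 5 = 4 := by omega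
  obtain ⟨q, hq⟩ : ∃ q, u = 5 * q + u % 5 := ⟨u / 5, by omega⟩
  rcases this with h | h | h | h <;> rw [h] at hq <;> subst hq
  · exact ⟨j, q * j, by ring⟩
  · exact ⟨3 * j, 3 * q * j + j, by ring⟩
  · exact ⟨2 * j, 2 * q * j + j, by ring⟩
  · exact ⟨4 * j, 4 * q * j + 3 * j, by ring⟩

lemma place (u : ℤ) (hu : u % 5 ≠ 0) (t a : ℝ) :
    ∃ k M : ℤ, a ≤ u * (t + k / 5) - M ∧ u * (t + k / 5) - M ≤ a + 1 / 5 := by
  obtain ⟨k, M, e⟩ := solve5 u ⌈5 * (a - u * t)⌉ hu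
  have e' : (u : ℝ) * k = ⌈5 * (a - u * t)⌉ + 5 * M := by exact_mod_cast e
  have h3 := Int.le_ceil (5 * (a - u * t))
  have h4 := Int.ceil_lt_add_one (5 * (a - u * t))
  exact ⟨k, M, by linarith, by linarith⟩

lemma keep {d : ℝ} {u : ℤ} (hu : u % 5 = 0) {t : ℝ} (h : G d (u * t)) (k : ℤ) :
    G d (u * (t + k / 5)) := by
  obtain ⟨a, rfl⟩ : ∃ a, u = 5 * a := ⟨u / 5, by omega⟩
  exact h.add_int (a * k) (by push_cast; ring)

lemma good5 (v k : ℤ) (t : ℝ) (h : (⌊5 * (v * t)⌋ + v * k) % 5 = 1 ∨ (⌊5 * (v * t)⌋ + v * k) % 5 = 2 ∨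
    (⌊5 * (v * t)⌋ + v * k) % 5 = 3) : G (1 / 5) (v * (t + k / 5)) := by
  have h3 := Int.floor_le (5 * (v * t))
  have h4 := Int.lt_floor_add_one (5 * (v * t))
  obtain ⟨q, c, e, c1, c2⟩ : ∃ q c : ℤ, ⌊5 * (v * t)⌋ + v * k = 5 * q + c ∧ 1 ≤ c ∧ c ≤ 3 :=
    ⟨(⌊5 * (v * t)⌋ + v * k) / 5, (⌊5 * (v * t)⌋ + v * k) % 5, by omega, by omega, by omega⟩
  have e' : (⌊5 * (v * t)⌋ : ℝ) + v * k = 5 * q + c := by exact_mod_cast e
  have c1' : (1 : ℝ) ≤ c := by exact_mod_cast c1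
  have c2' : (c : ℝ) ≤ 3 := by exact_mod_cast c2
  exact ⟨q, by linarith, by linarith⟩

lemma both5 (a b v w : ℤ) (hv : v % 5 ≠ 0) (hw : w % 5 ≠ 0) : ∃ k : ℤ,
    ((a + v * k) % 5 = 1 ∨ (a + v * k) % 5 = 2 ∨ (a + v * k) % 5 = 3) ∧
    ((b + w * k) % 5 = 1 ∨ (b + w * k) % 5 = 2 ∨ (b + w * k) % 5 = 3) := by
  have e : ∀ a v k : ℤ, (a + v * k) % 5 = (a % 5 + v % 5 * k) % 5 := by
    intro a v k
    exact ((Int.mod_modEq a 5).add ((Int.mod_modEq v 5).mul_right k)).symm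
  have key : ∀ a b v w : Fin 5, v.val ≠ 0 → w.val ≠ 0 → ∃ k : Fin 5,
      ((a.val + v.val * k.val) % 5 = 1 ∨ (a.val + v.val * k.val) % 5 = 2 ∨
        (a.val + v.val * k.val) % 5 = 3) ∧
      ((b.val + w.val * k.val) % 5 = 1 ∨ (b.val + w.val * k.val) % 5 = 2 ∨
        (b.val + w.val * k.val) % 5 = 3) := by decide
  obtain ⟨k, hk⟩ := key ⟨(a % 5).toNat, by omega⟩ ⟨(b % 5).toNat, by omega⟩
    ⟨(v % 5).toNat, by omega⟩ ⟨(w % 5).toNat, by omega⟩ (by simp only; omega) (by simp only; omega)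
  refine ⟨k.val, ?_⟩
  rw [e a, e b]
  have h5 : ∀ a : ℤ, ((a % 5).toNat : ℤ) = a % 5 := fun a => by omega
  rw [← h5 a, ← h5 b, ← h5 v, ← h5 w]
  exact_mod_cast hk

lemma caseE (u v w : ℤ) (hw0 : w ≠ 0) (hu : u % 5 ≠ 0) (hw : w % 5 = 0)
    (hv : (v - u) % 5 = 0 ∨ (v - 2 * u) % 5 = 0) :
    ∃ t : ℝ, G (7 / 20) (u * t) ∧ G (1 / 5) (v * t) ∧ G (1 / 5) (w * t) := by
  have hw0' : (w : ℝ) ≠ 0 := by exact_mod_cast hw0
  rcases hv with hv | hv
  · obtain ⟨c, rfl⟩ : ∃ c, v = u + 5 * c := ⟨(v - u) / 5, by omega⟩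
    obtain ⟨t, h1, m, h2, h3⟩ := L1 (5 * c) w hw0'
    by_cases hz : 0 ≤ 5 * c * t - m
    · obtain ⟨k, M, a1, a2⟩ := place u hu t (7 / 20)
      exact ⟨_, ⟨M, by linarith, by linarith⟩, ⟨M + m + c * k, by push_cast; linarith,
        by push_cast; linarith⟩, keep hw h1 k⟩
    · obtain ⟨k, M, a1, a2⟩ := place u hu t (9 / 20)
      exact ⟨_, ⟨M, by linarith, by linarith⟩, ⟨M + m + c * k, by push_cast; linarith,
        by push_cast; linarith⟩, keep hw h1 k⟩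
  · obtain ⟨c, rfl⟩ : ∃ c, v = 2 * u + 5 * c := ⟨(v - 2 * u) / 5, by omega⟩
    by_cases hc : c = 0
    · subst hc
      obtain ⟨t, h1, m, h2, h3⟩ := L1 (5 * u) w hw0'
      by_cases hz : 0 ≤ 5 * u * t - m
      · obtain ⟨k, M, e⟩ := solve5 u (3 - m) hu
        have e' : (u : ℝ) * k = 3 - m + 5 * M := by exact_mod_cast e
        exact ⟨_, ⟨M, by linarith, by linarith⟩, ⟨2 * M + 1, by push_cast; linarith,
          by push_cast; linarith⟩, keep hw h1 k⟩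
      · obtain ⟨k, M, e⟩ := solve5 u (2 - m) hu
        have e' : (u : ℝ) * k = 2 - m + 5 * M := by exact_mod_cast e
        exact ⟨_, ⟨M, by linarith, by linarith⟩, ⟨2 * M, by push_cast; linarith,
          by push_cast; linarith⟩, keep hw h1 k⟩
    · obtain ⟨t, ⟨m, h2, h3⟩, h1⟩ := L2 (5 * c) w (by
        have : (c : ℝ) ≠ 0 := by exact_mod_cast hc
        positivity) hw0'
      replace h1 := h1.mono (e := 1 / 5) (by norm_num)
      by_cases hz : 1 / 2 ≤ 5 * c * t - m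
      · obtain ⟨k, M, a1, a2⟩ := place u hu t (7 / 20)
        exact ⟨_, ⟨M, by linarith, by linarith⟩, ⟨2 * M + m + c * k + 1, by push_cast; linarith,
          by push_cast; linarith⟩, keep hw h1 k⟩
      · obtain ⟨k, M, a1, a2⟩ := place u hu t (9 / 20)
        exact ⟨_, ⟨M, by linarith, by linarith⟩, ⟨2 * M + m + c * k + 1, by push_cast; linarith,
          by push_cast; linarith⟩, keep hw h1 k⟩

lemma caseE' (u v w : ℤ) (hw0 : w ≠ 0) (hu : u % 5 ≠ 0) (hw : w % 5 = 0) (hv : v % 5 ≠ 0) :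
    ∃ t : ℝ, G (7 / 20) (u * t) ∧ G (1 / 5) (v * t) ∧ G (1 / 5) (w * t) := by
  by_cases h : (v - u) % 5 = 0 ∨ (v - 2 * u) % 5 = 0
  · exact caseE u v w hw0 hu hw h
  · obtain ⟨t, a, b, c⟩ := caseE u (-v) w hw0 hu hw (by
      have h1 : u % 5 = 1 ∨ u % 5 = 2 ∨ u % 5 = 3 ∨ u % 5 = 4 := by omega
      have h2 : v % 5 = 1 ∨ v % 5 = 2 ∨ v % 5 = 3 ∨ v % 5 = 4 := by omega
      rcases h1 with h1 | h1 | h1 | h1 <;> rcases h2 with h2 | h2 | h2 | h2 <;> omega)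
    exact ⟨t, a, b.neg (by push_cast; ring), c⟩

lemma caseC (u v w : ℤ) (hu0 : u ≠ 0) (hv0 : v ≠ 0) (hu : u % 5 = 0) (hv : v % 5 = 0)
    (hw : w % 5 ≠ 0) : ∃ t : ℝ, G (7 / 20) (u * t) ∧ G (1 / 5) (v * t) ∧ G (1 / 5) (w * t) := by
  obtain ⟨t, h1, h2⟩ := L2 u v (by exact_mod_cast hu0) (by exact_mod_cast hv0)
  obtain ⟨k, M, a1, a2⟩ := place w hw t (2 / 5)
  exact ⟨_, keep hu h1 k, keep hv (h2.mono (by norm_num)) k, M, by linarith, by linarith⟩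

lemma MX (n : ℕ) : ∀ u v w : ℤ, 0 < u → 0 < v → 0 < w → u ≤ n →
    ∃ t : ℝ, G (7 / 20) (u * t) ∧ G (1 / 5) (v * t) ∧ G (1 / 5) (w * t) := by
  induction n with
  | zero => intro u v w h _ _ h'; omega
  | succ n ih =>
    intro u v w hu hv hw hn
    by_cases a : u % 5 = 0 <;> by_cases b : v % 5 = 0 <;> by_cases c : w % 5 = 0
    · obtain ⟨a', rfl⟩ : ∃ k, u = 5 * k := ⟨u / 5, by omega⟩
      obtain ⟨b', rfl⟩ : ∃ k, v = 5 * k := ⟨v / 5, by omega⟩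
      obtain ⟨c', rfl⟩ : ∃ k, w = 5 * k := ⟨w / 5, by omega⟩
      obtain ⟨t, h1, h2, h3⟩ := ih a' b' c' (by omega) (by omega) (by omega) (by omega)
      refine ⟨t / 5, ?_, ?_, ?_⟩
      · convert h1 using 1; push_cast; ring
      · convert h2 using 1; push_cast; ring
      · convert h3 using 1; push_cast; ring
    · exact caseC u v w hu.ne' hv.ne' a b c
    · obtain ⟨t, h1, h2, h3⟩ := caseC u w v hu.ne' hw.ne' a c b
      exact ⟨t, h1, h3, h2⟩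
    · obtain ⟨t, h1, -⟩ := L2 u 1 (by exact_mod_cast hu.ne') one_ne_zero
      obtain ⟨k, h2, h3⟩ := both5 ⌊5 * (v * t)⌋ ⌊5 * (w * t)⌋ v w b c
      exact ⟨_, keep a h1 k, good5 v k t h2, good5 w k t h3⟩
    · obtain ⟨t, h1, h2⟩ := L2 v w (by exact_mod_cast hv.ne') (by exact_mod_cast hw.ne')
      obtain ⟨k, M, a1, a2⟩ := place u a t (2 / 5)
      exact ⟨_, ⟨M, by linarith, by linarith⟩, keep b (h1.mono (by norm_num)) k,
        keep c (h2.mono (by norm_num)) k⟩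
    · obtain ⟨t, h1, h2, h3⟩ := caseE' u w v hv.ne' a b c
      exact ⟨t, h1, h3, h2⟩
    · exact caseE' u v w hw.ne' a c b
    · obtain ⟨k, M, e⟩ := solve5 u 2 a
      have e' : (u : ℝ) * k = 2 + 5 * M := by exact_mod_cast e
      have hk : k % 5 ≠ 0 := fun h0 => by
        have : (u * k) % 5 = 0 := by rw [Int.mul_emod, h0]; simp
        omega
      have key : ∀ v : ℤ, v % 5 ≠ 0 → G (1 / 5) (v * ((k : ℝ) / 5)) := by
        intro v hv
        have h5 : (v * k) % 5 ≠ 0 := fun h0 => by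
          rcases (Int.prime_iff_natAbs_prime.2 (by norm_num) : Prime (5 : ℤ)).dvd_or_dvd
            (Int.dvd_of_emod_eq_zero h0) with h | h <;> omega
        obtain ⟨q, c, e, c1, c2⟩ : ∃ q c : ℤ, v * k = 5 * q + c ∧ 1 ≤ c ∧ c ≤ 4 :=
          ⟨v * k / 5, v * k % 5, by omega, by omega, by omega⟩
        have e' : (v : ℝ) * k = 5 * q + c := by exact_mod_cast e
        have c1' : (1 : ℝ) ≤ c := by exact_mod_cast c1
        have c2' : (c : ℝ) ≤ 4 := by exact_mod_cast c2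
        exact ⟨q, by linarith, by linarith⟩
      exact ⟨k / 5, ⟨M, by linarith, by linarith⟩, key v b, key w c⟩

lemma badcard (P s lo hi : ℕ) (hc : Nat.Coprime P s) (h : hi < P) :
    ((Finset.range P).filter (fun j => s * j % P ∉ Finset.Icc lo hi)).card ≤ P - (hi + 1 - lo) := by
  have hsub : Finset.Icc lo hi ⊆ Finset.range P := fun x hx => by
    simp only [Finset.mem_Icc, Finset.mem_range] at *; omega
  calc _ ≤ (Finset.range P \ Finset.Icc lo hi).card := by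
        apply Finset.card_le_card_of_injOn (fun j => s * j % P)
        · intro j hj
          simp only [Finset.coe_filter, Set.mem_setOf_eq, Finset.coe_sdiff, Set.mem_diff,
            Finset.mem_coe, Finset.mem_range] at hj ⊢
          exact ⟨Nat.mod_lt _ (by omega), hj.2⟩
        · intro i hi j hj e
          simp only [Finset.coe_filter, Set.mem_setOf_eq, Finset.mem_range] at hi hj
          exact Nat.ModEq.eq_of_lt_of_lt (Nat.ModEq.cancel_left_of_coprime hc e) hi.1 hj.1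
    _ = _ := by rw [Finset.card_sdiff_of_subset hsub, Finset.card_range, Nat.card_Icc]

lemma G_mod (d : ℝ) (P x : ℕ) (hP : 0 < P) (h1 : d * P ≤ (x % P : ℕ))
    (h2 : ((x % P : ℕ) : ℝ) ≤ (1 - d) * P) : G d ((x : ℝ) / P) := by
  have hP' : (0 : ℝ) < P := by exact_mod_cast hP
  have e : (x : ℝ) = P * (x / P : ℕ) + (x % P : ℕ) := by exact_mod_cast (Nat.div_add_mod x P).symm
  refine ⟨(x / P : ℕ), ?_, ?_⟩
  · rw [le_div_iff₀ hP', Int.cast_natCast]; linarith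
  · rw [div_le_iff₀ hP', Int.cast_natCast]; linarith

lemma small (u v w : ℕ) (hu : 0 < u) (hv : 0 < v) (hw : 0 < w) :
    ∃ t : ℝ, G (5 / 12) (u * t) ∧ G (1 / 100) (v * t) ∧ G (1 / 100) (w * t) := by
  obtain ⟨N, hN⟩ : ∃ N, N = u * v * w := ⟨_, rfl⟩
  have hN0 : 0 < N := by rw [hN]; positivity
  have hc : ∀ s, s ∣ N → Nat.Coprime (1200 * N + 1) s := by
    rintro s ⟨c, hc⟩
    rw [hc, show 1200 * (s * c) + 1 = 1 + s * (1200 * c) by ring, Nat.coprime_add_mul_left_left]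
    simp
  have b1 := badcard _ u (500 * N + 1) (700 * N) (hc u ⟨v * w, by rw [hN]; ring⟩) (by omega)
  have b2 := badcard _ v (12 * N + 1) (1188 * N) (hc v ⟨u * w, by rw [hN]; ring⟩) (by omega)
  have b3 := badcard _ w (12 * N + 1) (1188 * N) (hc w ⟨u * v, by rw [hN]; ring⟩) (by omega)
  set S1 := (Finset.range (1200 * N + 1)).filter
    (fun j => u * j % (1200 * N + 1) ∉ Finset.Icc (500 * N + 1) (700 * N)) with h1
  set S2 := (Finset.range (1200 * N + 1)).filter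
    (fun j => v * j % (1200 * N + 1) ∉ Finset.Icc (12 * N + 1) (1188 * N)) with h2
  set S3 := (Finset.range (1200 * N + 1)).filter
    (fun j => w * j % (1200 * N + 1) ∉ Finset.Icc (12 * N + 1) (1188 * N)) with h3
  have hlt : (S1 ∪ S2 ∪ S3).card < (Finset.range (1200 * N + 1)).card := by
    have a1 := Finset.card_union_le (S1 ∪ S2) S3
    have a2 := Finset.card_union_le S1 S2
    rw [Finset.card_range]; omega
  obtain ⟨j, hj, hj2⟩ := Finset.exists_mem_notMem_of_card_lt_card hlt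
  simp only [h1, h2, h3, Finset.mem_union, Finset.mem_filter, hj, true_and, not_or, not_not,
    Finset.mem_Icc] at hj2
  obtain ⟨⟨⟨c1, c2⟩, c3, c4⟩, c5, c6⟩ := hj2
  have c1' : (500 * N + 1 : ℝ) ≤ (u * j % (1200 * N + 1) : ℕ) := by exact_mod_cast c1
  have c2' : ((u * j % (1200 * N + 1) : ℕ) : ℝ) ≤ 700 * N := by exact_mod_cast c2
  have c3' : (12 * N + 1 : ℝ) ≤ (v * j % (1200 * N + 1) : ℕ) := by exact_mod_cast c3
  have c4' : ((v * j % (1200 * N + 1) : ℕ) : ℝ) ≤ 1188 * N := by exact_mod_cast c4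
  have c5' : (12 * N + 1 : ℝ) ≤ (w * j % (1200 * N + 1) : ℕ) := by exact_mod_cast c5
  have c6' : ((w * j % (1200 * N + 1) : ℕ) : ℝ) ≤ 1188 * N := by exact_mod_cast c6
  have eP : ((1200 * N + 1 : ℕ) : ℝ) = 1200 * N + 1 := by push_cast; ring
  refine ⟨j / (1200 * N + 1 : ℕ), ?_, ?_, ?_⟩
  · convert G_mod (5 / 12) (1200 * N + 1) (u * j) (by omega) (by rw [eP]; linarith)
      (by rw [eP]; linarith) using 1
    push_cast; ring
  · convert G_mod (1 / 100) (1200 * N + 1) (v * j) (by omega) (by rw [eP]; linarith)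
      (by rw [eP]; linarith) using 1
    push_cast; ring
  · convert G_mod (1 / 100) (1200 * N + 1) (w * j) (by omega) (by rw [eP]; linarith)
      (by rw [eP]; linarith) using 1
    push_cast; ring

end Pool.Agent.H51.LonA
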