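import Mathlib

set_option autoImplicit false

namespace Pool.Agent.H51.MirrorA

open Matrix Finset
open scoped Kronecker ComplexOrder

variable {d : ℕ}

/-- identity plus `2 N` placed on the span of the vectors `e_i ⊗ e_i` -/
def WN (N : Fin d → Fin d → ℝ) : Matrix (Fin d × Fin d) (Fin d × Fin d) ℂ := fun p q =>
  (if p = q then 1 else 0) + if p.1 = p.2 ∧ q.1 = q.2 then 2 * (N p.1 q.1 : ℂ) else 0

lemma WN_herm (N : Fin d → Fin d → ℝ) (hs : ∀ i j, N i j = N j i) : (WN N).IsHermitian := by
  ext p q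
  simp only [conjTranspose_apply, WN, star_add]
  congr 1
  · by_cases h : p = q
    · subst h; simp
    · rw [if_neg h, if_neg (Ne.symm h)]; simp
  · by_cases h : p.1 = p.2 ∧ q.1 = q.2
    · rw [if_pos h, if_pos h.symm, hs]; simp
    · rw [if_neg h, if_neg (fun h' => h h'.symm)]; simp

lemma WN_add (N : Fin d → Fin d → ℝ) :
    WN N + WN (fun i j => - N i j) = ((2 : ℝ) : ℂ) • (1 : Matrix _ _ ℂ) := by
  ext p q
  simp only [WN, Matrix.add_apply, Matrix.smul_apply, Matrix.one_apply, smul_eq_mul]
  split_ifs <;> push_cast <;> ring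

lemma WN_trace (N : Fin d → Fin d → ℝ) (σ : Matrix (Fin d × Fin d) (Fin d × Fin d) ℂ) :
    (WN N * σ).trace = σ.trace + 2 * ∑ i, ∑ j, (N i j : ℂ) * σ (j, j) (i, i) := by
  simp only [trace, diag_apply, mul_apply, WN, add_mul, sum_add_distrib]
  congr 1
  · simp
  · rw [Fintype.sum_prod_type, mul_sum]
    refine sum_congr rfl fun i _ => ?_
    rw [sum_eq_single i]
    · rw [Fintype.sum_prod_type, mul_sum]
      refine sum_congr rfl fun j _ => ?_
      rw [sum_eq_single j]
      · simp [mul_assoc]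
      · intro b _ hb; simp [hb.symm]
      · simp
    · intro b _ hb; simp [hb.symm]
    · simp

lemma psd_entry {α : Matrix (Fin d) (Fin d) ℂ} (h : α.PosSemidef) (i j : Fin d) :
    ‖α j i‖ ^ 2 ≤ (α i i).re * (α j j).re := by
  have h1 := (h.submatrix ![i, j]).det_nonneg
  rw [det_fin_two] at h1
  simp only [submatrix_apply, cons_val_zero, cons_val_one] at h1
  have h2 : α i j = star (α j i) := (h.1.apply i j).symm
  have hi : (α i i).im = 0 := ((Complex.nonneg_iff.1 (h.diag_nonneg (i := i))).2).symm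
  have hj : (α j j).im = 0 := ((Complex.nonneg_iff.1 (h.diag_nonneg (i := j))).2).symm
  have h3 := (Complex.nonneg_iff.1 h1).1
  rw [h2] at h3
  simp only [Complex.sub_re, Complex.mul_re, hi, hj, Complex.star_def, Complex.conj_re,
    Complex.conj_im] at h3
  rw [← Complex.normSq_eq_norm_sq, Complex.normSq_apply]
  linarith

/-- the bipartite pattern -/
def KK (e : Fin d → ℝ) (i j : Fin d) : ℝ := e i * (1 - e j) + (1 - e i) * e j

lemma KK_sum (e r : Fin d → ℝ) :
    ∑ i, ∑ j, KK e i j * (r i * r j) = 2 * (∑ i, e i * r i) * (∑ i, (1 - e i) * r i) := by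
  have h1 : (∑ i, e i * r i) * (∑ i, (1 - e i) * r i) = ∑ i, ∑ j, e i * (1 - e j) * (r i * r j) := by
    rw [sum_mul_sum]
    exact sum_congr rfl fun i _ => sum_congr rfl fun j _ => by ring
  have h2 : (∑ i, e i * r i) * (∑ i, (1 - e i) * r i) = ∑ i, ∑ j, (1 - e i) * e j * (r i * r j) := by
    rw [mul_comm, sum_mul_sum]
    exact sum_congr rfl fun i _ => sum_congr rfl fun j _ => by ring
  simp only [KK, add_mul, sum_add_distrib]
  rw [← h1, ← h2]; ring

lemma block_pos (N : Fin d → Fin d → ℝ) (e : Fin d → ℝ) (hN : ∀ i j, |N i j| = KK e i j)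
    {α β : Matrix (Fin d) (Fin d) ℂ} (hα : α.PosSemidef) (hβ : β.PosSemidef)
    (ta : α.trace = 1) (tb : β.trace = 1) : 0 ≤ (WN N * (α ⊗ₖ β)).trace.re := by
  rw [WN_trace, trace_kronecker, ta, tb]
  have ha : ∀ i, 0 ≤ (α i i).re := fun i => (Complex.nonneg_iff.1 (hα.diag_nonneg (i := i))).1
  have hb : ∀ i, 0 ≤ (β i i).re := fun i => (Complex.nonneg_iff.1 (hβ.diag_nonneg (i := i))).1
  set r : Fin d → ℝ := fun i => Real.sqrt ((α i i).re * (β i i).re) with hr
  have hr0 : ∀ i, 0 ≤ r i := fun i => Real.sqrt_nonneg _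
  have hr2 : ∀ i, r i ^ 2 = (α i i).re * (β i i).re := fun i =>
    Real.sq_sqrt (mul_nonneg (ha i) (hb i))
  have hsum : ∑ i, r i ≤ 1 := by
    have h1 : ∑ i, (α i i).re = 1 := by
      have := congrArg Complex.re ta
      simpa [trace, Complex.re_sum] using this
    have h2 : ∑ i, (β i i).re = 1 := by
      have := congrArg Complex.re tb
      simpa [trace, Complex.re_sum] using this
    calc ∑ i, r i ≤ ∑ i, ((α i i).re + (β i i).re) / 2 := by
          refine sum_le_sum fun i _ => ?_
          refine Real.sqrt_le_iff.2 ⟨by linarith [ha i, hb i], ?_⟩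
          nlinarith [sq_nonneg ((α i i).re - (β i i).re)]
      _ = 1 := by rw [← sum_div, sum_add_distrib, h1, h2]; norm_num
  have hterm : ∀ i j, -(KK e i j * (r i * r j)) ≤ ((N i j : ℂ) * (α ⊗ₖ β) (j, j) (i, i)).re := by
    intro i j
    have h1 : ‖α j i * β j i‖ ≤ r i * r j := by
      refine abs_le_of_sq_le_sq' ?_ (mul_nonneg (hr0 i) (hr0 j)) |>.2
      rw [norm_mul, mul_pow, mul_pow, hr2, hr2]
      calc _ ≤ ((α i i).re * (α j j).re) * ((β i i).re * (β j j).re) :=
            mul_le_mul (psd_entry hα i j) (psd_entry hβ i j) (sq_nonneg _)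
              (mul_nonneg (ha i) (ha j))
        _ = _ := by ring
    have h2 : ‖(N i j : ℂ) * (α ⊗ₖ β) (j, j) (i, i)‖ ≤ KK e i j * (r i * r j) := by
      rw [norm_mul, Complex.norm_real, Real.norm_eq_abs, kroneckerMap_apply, ← hN]
      exact mul_le_mul_of_nonneg_left h1 (abs_nonneg _)
    have h3 := Complex.abs_re_le_norm ((N i j : ℂ) * (α ⊗ₖ β) (j, j) (i, i))
    exact (abs_le.1 (h3.trans h2)).1
  have h4 : -(∑ i, ∑ j, KK e i j * (r i * r j)) ≤
      (∑ i, ∑ j, (N i j : ℂ) * (α ⊗ₖ β) (j, j) (i, i)).re := by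
    rw [Complex.re_sum, ← sum_neg_distrib]
    refine sum_le_sum fun i _ => ?_
    rw [Complex.re_sum, ← sum_neg_distrib]
    exact sum_le_sum fun j _ => hterm i j
  rw [KK_sum] at h4
  have h5 : (∑ i, e i * r i) + (∑ i, (1 - e i) * r i) = ∑ i, r i := by
    rw [← sum_add_distrib]; exact sum_congr rfl fun i _ => by ring
  have h6 : 0 ≤ ∑ i, r i := sum_nonneg fun i _ => hr0 i
  simp only [Complex.add_re, Complex.mul_re, Complex.one_re, Complex.one_im, Complex.re_ofNat,
    Complex.im_ofNat]
  nlinarith [sq_nonneg ((∑ i, e i * r i) - (∑ i, (1 - e i) * r i))]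

lemma phase (C : Fin d → Fin d → ℂ)
    (h : ∀ u : Fin d → ℂ, (∀ i, u i * star (u i) = 1) → ∑ a, ∑ b, C a b * (u a * star (u b)) = 0) :
    (∀ a b, a ≠ b → C a b = 0) ∧ ∑ a, C a a = 0 := by
  have A : ∀ u : Fin d → ℂ, (∀ i, u i * star (u i) = 1) → ∀ a,
      ∑ c ∈ univ.erase a, C a c * star (u c) = 0 := by
    intro u hu a
    have key : ∀ ω : ℂ, ω * star ω = 1 →
        C a a + ω * (∑ c ∈ univ.erase a, C a c * star (u c)) +
          star ω * (∑ c ∈ univ.erase a, C c a * u c) +
          ∑ p ∈ univ.erase a, ∑ q ∈ univ.erase a, C p q * (u p * star (u q)) = 0 := by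
      intro ω hω
      have h1 := h (Function.update u a ω) (fun i => by
        by_cases hi : i = a
        · subst hi; simpa using hω
        · simpa [Function.update_of_ne hi] using hu i)
      rw [← add_sum_erase _ _ (mem_univ a), ← add_sum_erase _ _ (mem_univ a)] at h1
      rw [← h1, Function.update_self, hω, mul_one, mul_sum, mul_sum, add_assoc, add_assoc,
        add_assoc, ← sum_add_distrib]
      congr 2
      · refine sum_congr rfl fun c hc => ?_
        rw [Function.update_of_ne (ne_of_mem_erase hc)]; ring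
      · refine sum_congr rfl fun p hp => ?_
        rw [← add_sum_erase _ _ (mem_univ a), Function.update_self,
          Function.update_of_ne (ne_of_mem_erase hp)]
        congr 1
        · ring
        · refine sum_congr rfl fun q hq => ?_
          rw [Function.update_of_ne (ne_of_mem_erase hq)]
    have k1 := key 1 (by simp)
    have k2 := key (-1) (by simp)
    have k3 := key Complex.I (by simp)
    simp only [star_one, star_neg, Complex.star_def, Complex.conj_I, map_one] at k1 k2 k3 ⊢
    have hI := Complex.I_mul_I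
    linear_combination (1 / 4 + Complex.I / 4) * k1 + (-1 / 4 + Complex.I / 4) * k2
      - (Complex.I / 2) * k3 +
      ((∑ c ∈ univ.erase a, C a c * (starRingEnd ℂ) (u c)) / 2 -
        (∑ c ∈ univ.erase a, C c a * u c) / 2) * hI
  have B : ∀ a b, a ≠ b → C a b = 0 := by
    intro a b hab
    have h1 := A (fun _ => 1) (by simp) a
    have h2 := A (Function.update (fun _ => 1) b (-1)) (fun i => by
      by_cases hi : i = b
      · subst hi; simp
      · simp [Function.update_of_ne hi]) a
    have hb : b ∈ univ.erase a := mem_erase.2 ⟨hab.symm, mem_univ b⟩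
    rw [← add_sum_erase _ _ hb] at h1 h2
    have h3 : ∑ c ∈ (univ.erase a).erase b,
        C a c * star (Function.update (fun _ => (1 : ℂ)) b (-1) c) =
        ∑ c ∈ (univ.erase a).erase b, C a c * star (1 : ℂ) :=
      sum_congr rfl fun c hc => by rw [Function.update_of_ne (ne_of_mem_erase hc)]
    rw [h3, Function.update_self] at h2
    simp only [star_one, star_neg] at h1 h2
    linear_combination (1 / 2) * h1 - (1 / 2) * h2
  refine ⟨B, ?_⟩
  have h1 := h (fun _ => 1) (by simp)
  rw [← h1]
  refine sum_congr rfl fun a _ => ?_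
  rw [sum_eq_single a]
  · simp
  · intro b _ hb; simp [B a b hb.symm]
  · simp

end Pool.Agent.H51.MirrorA
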