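import Mathlib
import Pool.Agent.H51.MirrorA

set_option autoImplicit false

namespace Pool.Agent.H51.MirrorB

open Matrix Finset Pool.Agent.H51.MirrorA
open scoped Kronecker ComplexOrder

variable {d : ℕ}

lemma kron_vec (x y : Fin d → ℂ) :
    vecMulVec x (star x) ⊗ₖ vecMulVec y (star y) =
      vecMulVec (fun p : Fin d × Fin d => x p.1 * y p.2) (star fun p => x p.1 * y p.2) := by
  ext p q
  simp only [kroneckerMap_apply, vecMulVec_apply, Pi.star_apply, star_mul']
  ring

lemma trace_vec {n : Type} [Fintype n] (P : Matrix n n ℂ) (v : n → ℂ) :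
    (P * vecMulVec v (star v)).trace = star v ⬝ᵥ P *ᵥ v := by
  simp only [trace, diag_apply, mul_apply, vecMulVec_apply, dotProduct, mulVec, mul_sum]
  exact sum_congr rfl fun i _ => sum_congr rfl fun j _ => by ring

/-- consequences of one admissible weight vector -/
lemma one_family (N : Fin d → Fin d → ℝ) (e : Fin d → ℝ)
    (P : Matrix (Fin d × Fin d) (Fin d × Fin d) ℂ) (hP : P.PosSemidef) (ε : ℝ) (hε : 0 < ε)
    (hW : ∀ α β : Matrix (Fin d) (Fin d) ℂ, α.PosSemidef → α.trace = 1 → β.PosSemidef →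
      β.trace = 1 → 0 ≤ ((WN N - (ε : ℂ) • P) * (α ⊗ₖ β)).trace.re)
    (w t : Fin d → ℝ) (hw : ∀ i, 0 ≤ w i) (h1 : ∑ i, e i * w i = 1 / 2)
    (h2 : ∑ i, (1 - e i) * w i = 1 / 2) (ht : ∀ i, t i * t i = 1)
    (hN : ∀ i j, w i ≠ 0 → w j ≠ 0 → N i j * (t i * t j) = - KK e i j) (p : Fin d × Fin d) :
    (∀ a b, a ≠ b → w a ≠ 0 → w b ≠ 0 → P p (a, b) = 0) ∧
      ∑ a, P p (a, a) * ((w a * t a : ℝ) : ℂ) = 0 := by
  set m : Fin d → ℝ := fun i => Real.sqrt (w i) with hm
  have hmm : ∀ i, m i * m i = w i := fun i => Real.mul_self_sqrt (hw i)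
  have hmc : ∀ i, (m i : ℂ) * (m i : ℂ) = (w i : ℂ) := fun i => by exact_mod_cast hmm i
  have htc : ∀ i, (t i : ℂ) * (t i : ℂ) = 1 := fun i => by exact_mod_cast ht i
  have hsw : ∑ i, w i = 1 := by
    have : ∑ i, w i = ∑ i, e i * w i + ∑ i, (1 - e i) * w i := by
      rw [← sum_add_distrib]; exact sum_congr rfl fun i _ => by ring
    rw [this, h1, h2]; norm_num
  have hswc : ∑ i, (w i : ℂ) = 1 := by exact_mod_cast hsw
  have main := phase (fun a b => P p (a, b) * ((m a : ℂ) * (m b : ℂ) * (t b : ℂ))) (fun u hu => by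
    set x : Fin d → ℂ := fun i => (m i : ℂ) * u i with hx
    set y : Fin d → ℂ := fun i => (m i : ℂ) * (t i : ℂ) * star (u i) with hy
    have tx : (vecMulVec x (star x)).trace = 1 := by
      rw [← hswc]
      refine sum_congr rfl fun i _ => ?_
      simp only [diag_apply, vecMulVec_apply, Pi.star_apply, hx, star_mul', Complex.star_def,
        Complex.conj_ofReal]
      have := hu i
      rw [Complex.star_def] at this
      linear_combination (m i : ℂ) * (m i : ℂ) * this + hmc i
    have ty : (vecMulVec y (star y)).trace = 1 := by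
      rw [← hswc]
      refine sum_congr rfl fun i _ => ?_
      simp only [diag_apply, vecMulVec_apply, Pi.star_apply, hy, star_mul', Complex.star_def,
        Complex.conj_ofReal, Complex.conj_conj]
      have := hu i
      rw [Complex.star_def] at this
      linear_combination (m i : ℂ) * (m i : ℂ) * (t i : ℂ) * (t i : ℂ) * this +
        (m i : ℂ) * (m i : ℂ) * htc i + hmc i
    have h3 := hW _ _ (posSemidef_vecMulVec_self_star x) tx (posSemidef_vecMulVec_self_star y) ty
    have h4 : (WN N * (vecMulVec x (star x) ⊗ₖ vecMulVec y (star y))).trace = 0 := by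
      rw [WN_trace, trace_kronecker, tx, ty]
      have h5 : ∀ i j, (N i j : ℂ) * (vecMulVec x (star x) ⊗ₖ vecMulVec y (star y)) (j, j) (i, i)
          = ((-(KK e i j * (w i * w j)) : ℝ) : ℂ) := by
        intro i j
        have h6 : N i j * (t i * t j) * (w i * w j) = -(KK e i j * (w i * w j)) := by
          by_cases hi : w i = 0
          · simp [hi]
          by_cases hj : w j = 0
          · simp [hj]
          rw [hN i j hi hj]; ring
        rw [← h6]
        simp only [kroneckerMap_apply, vecMulVec_apply, Pi.star_apply, hx, hy, star_mul',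
          Complex.star_def, Complex.conj_ofReal, Complex.conj_conj]
        have a1 := hu i
        have a2 := hu j
        rw [Complex.star_def] at a1 a2
        push_cast
        rw [← hmc i, ← hmc j]
        linear_combination (N i j : ℂ) * (t i * t j) * (m i * m i * (m j * m j)) *
          ((u j * (starRingEnd ℂ) (u j)) * a1 + a2)
      simp only [h5]
      rw [show (∑ i, ∑ j, ((-(KK e i j * (w i * w j)) : ℝ) : ℂ)) =
        ((-(∑ i, ∑ j, KK e i j * (w i * w j)) : ℝ) : ℂ) by push_cast; simp, KK_sum, h1, h2]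
      push_cast; norm_num
    rw [sub_mul, trace_sub, h4, smul_mul_assoc, trace_smul, kron_vec, trace_vec] at h3
    set v : Fin d × Fin d → ℂ := fun p => x p.1 * y p.2 with hv
    have h7 := hP.dotProduct_mulVec_nonneg v
    obtain ⟨h8, h9⟩ := Complex.nonneg_iff.1 h7
    simp only [zero_sub, Complex.neg_re, smul_eq_mul, Complex.mul_re, Complex.ofReal_re,
      Complex.ofReal_im, zero_mul, sub_zero] at h3
    have h10 : star v ⬝ᵥ P *ᵥ v = 0 := by
      apply Complex.ext
      · simp only [Complex.zero_re]; nlinarith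
      · simp only [Complex.zero_im]; exact h9.symm
    have h11 := congrFun ((hP.dotProduct_mulVec_zero_iff v).1 h10) p
    simp only [mulVec, dotProduct, Pi.zero_apply, Fintype.sum_prod_type, hv, hx, hy] at h11
    rw [← h11]
    exact sum_congr rfl fun a _ => sum_congr rfl fun b _ => by ring)
  refine ⟨fun a b hab ha hb => ?_, ?_⟩
  · have h := main.1 a b hab
    have ma : (m a : ℂ) ≠ 0 := fun h' => ha (by
      have := hmc a; rw [h', mul_zero] at this; exact_mod_cast this.symm)
    have mb : (m b : ℂ) ≠ 0 := fun h' => hb (by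
      have := hmc b; rw [h', mul_zero] at this; exact_mod_cast this.symm)
    have tb : (t b : ℂ) ≠ 0 := fun h' => by
      have := htc b; rw [h', mul_zero] at this; exact zero_ne_one this
    simpa [ma, mb, tb] using h
  · rw [← main.2]
    refine sum_congr rfl fun a _ => ?_
    push_cast
    rw [hmc a]

def ee (i : Fin d) : ℝ := if i.val < 2 then 1 else 0

def eta (i j : Fin d) : ℝ :=
  if (i.val = 0 ∧ j.val = 2) ∨ (i.val = 2 ∧ j.val = 0) then -1 else 1

def NN (s : ℝ) (i j : Fin d) : ℝ := s * (KK ee i j * eta i j)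

lemma NN_symm (s : ℝ) (i j : Fin d) : NN s i j = NN s j i := by
  simp only [NN, KK, eta]
  split_ifs <;> first | ring1 | (exfalso; omega)

lemma NN_abs (s : ℝ) (hs : s = 1 ∨ s = -1) (i j : Fin d) : |NN s i j| = KK ee i j := by
  simp only [NN, KK, eta, ee]
  rcases hs with rfl | rfl <;> split_ifs <;> simp

lemma NN_neg (s : ℝ) : (fun i j : Fin d => - NN s i j) = NN (-s) := by
  funext i j; simp [NN]

/-- weights on three indices -/
noncomputable def w3 (a b c : Fin d) (i : Fin d) : ℝ :=
  (if i = a then 1 / 4 else 0) + (if i = b then 1 / 4 else 0) + if i = c then 1 / 2 else 0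

lemma w3_sum (a b c : Fin d) (g : Fin d → ℝ) :
    ∑ i, g i * w3 a b c i = g a / 4 + g b / 4 + g c / 2 := by
  simp only [w3, mul_add, sum_add_distrib, mul_ite, mul_zero, sum_ite_eq', mem_univ, if_true]
  ring

lemma w3_sumc (a b c : Fin d) (g : Fin d → ℂ) (t : Fin d → ℝ) :
    ∑ i, g i * ((w3 a b c i * t i : ℝ) : ℂ) =
      g a * t a / 4 + g b * t b / 4 + g c * t c / 2 := by
  have : ∀ i, g i * ((w3 a b c i * t i : ℝ) : ℂ) = (if i = a then g i * t i / 4 else 0) +
      (if i = b then g i * t i / 4 else 0) + if i = c then g i * t i / 2 else 0 := by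
    intro i
    simp only [w3]
    split_ifs <;> push_cast <;> ring
  simp only [this, sum_add_distrib, sum_ite_eq', mem_univ, if_true]

lemma w3_nonneg (a b c i : Fin d) : 0 ≤ w3 a b c i := by
  simp only [w3]; split_ifs <;> norm_num

lemma w3_ne (a b c i : Fin d) : w3 a b c i ≠ 0 ↔ i = a ∨ i = b ∨ i = c := by
  simp only [w3]; split_ifs <;> simp_all <;> norm_num

lemma P_zero (hd : 4 ≤ d) (s : ℝ) (hs : s = 1 ∨ s = -1)
    (P : Matrix (Fin d × Fin d) (Fin d × Fin d) ℂ) (hP : P.PosSemidef) (ε : ℝ) (hε : 0 < ε)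
    (hW : ∀ α β : Matrix (Fin d) (Fin d) ℂ, α.PosSemidef → α.trace = 1 → β.PosSemidef →
      β.trace = 1 → 0 ≤ ((WN (NN s) - (ε : ℂ) • P) * (α ⊗ₖ β)).trace.re) : P = 0 := by
  have hss : s * s = 1 := by rcases hs with rfl | rfl <;> norm_num
  have fam : ∀ (σ : ℝ), (σ = 1 ∨ σ = -1) → ∀ a b c : Fin d,
      ((a.val < 2 ∧ b.val < 2 ∧ 2 ≤ c.val) ∨ (2 ≤ a.val ∧ 2 ≤ b.val ∧ c.val < 2)) →
      eta a c = σ → eta b c = σ → ∀ p,
      (∀ x y, x ≠ y → (x = a ∨ x = b ∨ x = c) → (y = a ∨ y = b ∨ y = c) → P p (x, y) = 0) ∧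
      P p (a, a) * ((if a.val < 2 then -(s * σ) else 1 : ℝ) : ℂ) / 4 +
      P p (b, b) * ((if b.val < 2 then -(s * σ) else 1 : ℝ) : ℂ) / 4 +
      P p (c, c) * ((if c.val < 2 then -(s * σ) else 1 : ℝ) : ℂ) / 2 = 0 := by
    intro σ hσ a b c habc ha hb p
    have hσσ : σ * σ = 1 := by rcases hσ with rfl | rfl <;> norm_num
    have ha' : eta c a = σ := by
      rw [← ha]; simp only [eta]; split_ifs <;> first | rfl | (exfalso; omega)
    have hb' : eta c b = σ := by
      rw [← hb]; simp only [eta]; split_ifs <;> first | rfl | (exfalso; omega)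
    have h := one_family (NN s) ee P hP ε hε hW (w3 a b c)
      (fun i => if i.val < 2 then -(s * σ) else 1) (w3_nonneg a b c)
      (by rw [w3_sum]; simp only [ee]; split_ifs <;> first | (exfalso; omega) | norm_num)
      (by rw [w3_sum]; simp only [ee]; split_ifs <;> first | (exfalso; omega) | norm_num)
      (fun i => by
        split_ifs
        · linear_combination σ * σ * hss + hσσ
        · norm_num)
      (fun i j hi hj => by
        rw [w3_ne] at hi hj
        by_cases h1 : i.val < 2 <;> by_cases h2 : j.val < 2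
        · simp [NN, KK, ee, h1, h2]
        · have h3 : eta i j = σ := by
            rcases hi with rfl | rfl | rfl <;> rcases hj with rfl | rfl | rfl <;>
              first | assumption | (exfalso; omega)
          simp only [NN, KK, ee, h1, h2, h3, if_true, if_false]
          linear_combination (-(σ * σ)) * hss - hσσ
        · have h3 : eta i j = σ := by
            rcases hi with rfl | rfl | rfl <;> rcases hj with rfl | rfl | rfl <;>
              first | assumption | (exfalso; omega)
          simp only [NN, KK, ee, h1, h2, h3, if_true, if_false]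
          linear_combination (-(σ * σ)) * hss - hσσ
        · simp [NN, KK, ee, h1, h2]) p
    refine ⟨fun x y hxy hx hy => h.1 x y hxy ((w3_ne _ _ _ _).2 hx) ((w3_ne _ _ _ _).2 hy), ?_⟩
    have h2 := h.2
    rwa [w3_sumc a b c (fun a => P p (a, a))] at h2
  have esig : ∀ a c : Fin d, eta a c = 1 ∨ eta a c = -1 := fun a c => by
    simp only [eta]; split_ifs <;> simp
  let i0 : Fin d := ⟨0, by omega⟩
  let i1 : Fin d := ⟨1, by omega⟩
  let i2 : Fin d := ⟨2, by omega⟩
  let i3 : Fin d := ⟨3, by omega⟩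
  have hsc : (s : ℂ) * (s : ℂ) = 1 := by exact_mod_cast hss
  ext p ⟨a, b⟩
  rw [Matrix.zero_apply]
  have pair : ∀ a c : Fin d, a.val < 2 → 2 ≤ c.val →
      P p (c, c) = (s : ℂ) * (eta a c : ℝ) * P p (a, a) := by
    intro a c ha hc
    have h := (fam (eta a c) (esig a c) a a c (Or.inl ⟨ha, ha, hc⟩) rfl rfl p).2
    rw [if_pos ha, if_neg (by omega)] at h
    push_cast at h
    linear_combination 2 * h
  have q03 := pair i0 i3 (by simp [i0]) (by simp [i3])
  have q13 := pair i1 i3 (by simp [i1]) (by simp [i3])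
  have q12 := pair i1 i2 (by simp [i1]) (by simp [i2])
  have q02 := pair i0 i2 (by simp [i0]) (by simp [i2])
  have e03 : eta i0 i3 = 1 := by simp [eta, i0, i3]
  have e1 : ∀ c, eta i1 c = 1 := fun c => by simp [eta, i1]
  have e02 : eta i0 i2 = -1 := by simp [eta, i0, i2]
  rw [e03] at q03
  rw [e1] at q13 q12
  rw [e02] at q02
  push_cast at q03 q13 q12 q02
  have z0 : P p (i0, i0) = 0 := by
    linear_combination (s : ℂ) / 2 * (q02 - q12 + q13 - q03) - P p (i0, i0) * hsc
  have z1 : P p (i1, i1) = 0 := by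
    linear_combination (s : ℂ) / 2 * (q02 - q12 - q13 + q03) - P p (i1, i1) * hsc
  by_cases hab : a = b
  · subst hab
    by_cases h1 : a.val < 2
    · have : a = i0 ∨ a = i1 := by
        simp only [Fin.ext_iff, i0, i1]; omega
      rcases this with rfl | rfl
      · exact z0
      · exact z1
    · rw [pair i1 a (by simp [i1]) (by omega), z1, mul_zero]
  · by_cases h1 : a.val < 2 <;> by_cases h2 : b.val < 2
    · refine (fam 1 (Or.inl rfl) a b i3 (Or.inl ⟨h1, h2, by simp [i3]⟩) ?_ ?_ p).1 a b hab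
        (by simp) (by simp) <;> simp [eta, i3]
    · exact (fam _ (esig a b) a a b (Or.inl ⟨h1, h1, by omega⟩) rfl rfl p).1 a b hab
        (by simp) (by simp)
    · exact (fam _ (esig b a) b b a (Or.inl ⟨h2, h2, by omega⟩) rfl rfl p).1 a b hab
        (by simp) (by simp)
    · refine (fam 1 (Or.inl rfl) a b i1 (Or.inr ⟨by omega, by omega, by simp [i1]⟩) ?_ ?_ p).1
        a b hab (by simp) (by simp) <;> simp [eta, i1]

lemma neg_state (hd : 4 ≤ d) (s : ℝ) (hs : s = 1 ∨ s = -1) :
    ∃ ρ : Matrix (Fin d × Fin d) (Fin d × Fin d) ℂ, ρ.PosSemidef ∧ ρ.trace = 1 ∧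
      (WN (NN s) * ρ).trace.re < 0 := by
  have hss : s * s = 1 := by rcases hs with rfl | rfl <;> norm_num
  let i1 : Fin d := ⟨1, by omega⟩
  let i3 : Fin d := ⟨3, by omega⟩
  have h13 : i1 ≠ i3 := by simp [i1, i3]
  let q : Fin d → ℝ := fun i => (if i = i1 then 3 / 5 else 0) + if i = i3 then -(4 / 5 * s) else 0
  have hq : ∀ g : Fin d → ℝ, ∑ i, g i * q i = g i1 * (3 / 5) - g i3 * (4 / 5 * s) := by
    intro g
    simp only [q, mul_add, sum_add_distrib, mul_ite, mul_zero, sum_ite_eq', mem_univ, if_true]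
    ring
  have q1 : q i1 = 3 / 5 := by simp [q, h13]
  have q3 : q i3 = -(4 / 5 * s) := by simp [q, h13.symm]
  let v : Fin d × Fin d → ℂ := fun p => if p.1 = p.2 then (q p.1 : ℂ) else 0
  have tr : (vecMulVec v (star v)).trace = 1 := by
    have h1 : ∑ i, q i * q i = 1 := by rw [hq, q1, q3]; linear_combination (16 / 25) * hss
    have h2 : ((∑ i, q i * q i : ℝ) : ℂ) = 1 := by rw [h1]; simp
    rw [← h2]
    simp only [trace, diag_apply, vecMulVec_apply, Pi.star_apply, Fintype.sum_prod_type, v]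
    push_cast
    refine sum_congr rfl fun i _ => ?_
    rw [sum_eq_single i]
    · simp
    · intro b _ hb; simp [hb.symm]
    · simp
  refine ⟨vecMulVec v (star v), posSemidef_vecMulVec_self_star v, tr, ?_⟩
  rw [WN_trace, tr]
  have h3 : ∑ i, ∑ j, (NN s i j : ℂ) * vecMulVec v (star v) (j, j) (i, i) =
      ((∑ i, (∑ j, NN s i j * q j) * q i : ℝ) : ℂ) := by
    push_cast
    refine sum_congr rfl fun i _ => ?_
    rw [sum_mul]
    refine sum_congr rfl fun j _ => ?_
    simp [vecMulVec_apply, v, mul_assoc]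
  rw [h3]
  simp only [hq]
  have a1 : NN s i1 i1 = 0 := by simp [NN, KK, ee, i1]
  have a2 : NN s i1 i3 = s := by simp [NN, KK, ee, eta, i1, i3]
  have a3 : NN s i3 i1 = s := by simp [NN, KK, ee, eta, i1, i3]
  have a4 : NN s i3 i3 = 0 := by simp [NN, KK, ee, i3]
  rw [a1, a2, a3, a4]
  simp only [Complex.add_re, Complex.mul_re, Complex.one_re, Complex.re_ofNat,
    Complex.im_ofNat, Complex.ofReal_re, Complex.ofReal_im]
  nlinarith

end Pool.Agent.H51.MirrorB
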