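import Pool.Agent.H51.RegBasic

namespace Pool.Agent.H51.NimSum
open Pool.Agent.H51.RegDefs Pool.Agent.H51.RegBasic

def tv (n : ℕ) : ℕ := padicValNat 2 (n + 1)
def ds (n : ℕ) : ℕ := (Nat.digits 2 n).sum
def a (n : ℕ) : ℕ := 2 ^ (2 * tv n)
def b (n : ℕ) : ℕ := 2 ^ ds n

theorem tv_even (n : ℕ) : tv (2 * n) = 0 := by
  unfold tv
  apply padicValNat.eq_zero_of_not_dvd
  omega

theorem tv_odd (n : ℕ) : tv (2 * n + 1) = tv n + 1 := by
  unfold tv
  haveI : Fact (Nat.Prime 2) := ⟨Nat.prime_two⟩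
  have : 2 * n + 1 + 1 = 2 * (n + 1) := by ring
  rw [this, padicValNat.mul (by norm_num) (by omega), padicValNat_self, add_comm]

theorem ds_even (n : ℕ) : ds (2 * n) = ds n := by
  unfold ds
  rcases Nat.eq_zero_or_pos n with rfl | hn
  · simp
  · have := Nat.digits_add 2 (by norm_num) 0 n (by norm_num) (Or.inr hn.ne')
    simp only [zero_add] at this
    rw [this]; simp

theorem ds_odd (n : ℕ) : ds (2 * n + 1) = ds n + 1 := by
  unfold ds
  have := Nat.digits_add 2 (by norm_num) 1 n (by norm_num) (Or.inl one_ne_zero)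
  rw [add_comm (2 * n) 1, this]; simp [add_comm]

theorem a_regular : IsRegular 2 (fun n => (a n : ℤ)) := by
  classical
  refine isRegular_of_closed (by norm_num) {fun n => (a n : ℤ), fun _ => 1} ?_ ?_
  · intro f hf r hr
    have h1 : (fun _ : ℕ => (1 : ℤ)) ∈ Submodule.span ℤ
        (({fun n => (a n : ℤ), fun _ => 1} : Finset (ℕ → ℤ)) : Set (ℕ → ℤ)) :=
      Submodule.subset_span (by simp)
    have h2 : (fun n : ℕ => (a n : ℤ)) ∈ Submodule.span ℤ
        (({fun n => (a n : ℤ), fun _ => 1} : Finset (ℕ → ℤ)) : Set (ℕ → ℤ)) :=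
      Submodule.subset_span (by simp)
    simp only [Finset.mem_insert, Finset.mem_singleton] at hf
    rcases hf with rfl | rfl
    · interval_cases r
      · convert h1 using 2
        simp [a, tv_even]
      · convert Submodule.smul_mem _ (4 : ℤ) h2 using 2
        simp [a, tv_odd, mul_add, pow_add]; ring
    · exact h1
  · exact Submodule.subset_span (by simp)

theorem b_regular : IsRegular 2 (fun n => (b n : ℤ)) := by
  classical
  refine isRegular_of_closed (by norm_num) {fun n => (b n : ℤ)} ?_ ?_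
  · intro f hf r hr
    have h2 : (fun n : ℕ => (b n : ℤ)) ∈ Submodule.span ℤ
        (({fun n => (b n : ℤ)} : Finset (ℕ → ℤ)) : Set (ℕ → ℤ)) :=
      Submodule.subset_span (by simp)
    simp only [Finset.mem_singleton] at hf
    subst hf
    interval_cases r
    · convert h2 using 2
      simp [b, ds_even]
    · convert Submodule.smul_mem _ (2 : ℤ) h2 using 2
      simp [b, ds_odd, pow_add]; ring
  · exact Submodule.subset_span (by simp)

theorem shift_one (e m : ℕ) : 2 ^ (e + 1) * m + (2 ^ (e + 1) - 1) = 2 * (2 ^ e * m + (2 ^ e - 1)) + 1 := by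
  have : 0 < 2 ^ e := by positivity
  have h2 : 2 ^ (e + 1) = 2 * 2 ^ e := by ring
  rw [h2]
  have : 2 * 2 ^ e * m = 2 * (2 ^ e * m) := by ring
  omega

theorem tv_shift (e m : ℕ) : tv (2 ^ e * m + (2 ^ e - 1)) = tv m + e := by
  induction e with
  | zero => simp
  | succ e ih => rw [shift_one, tv_odd, ih]; ring

theorem ds_shift (e m : ℕ) : ds (2 ^ e * m + (2 ^ e - 1)) = ds m + e := by
  induction e with
  | zero => simp
  | succ e ih => rw [shift_one, ds_odd, ih]; ring

theorem xor_two_pow_lt {i j : ℕ} (h : i < j) : 2 ^ j ^^^ 2 ^ i = 2 ^ j + 2 ^ i := by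
  have hlt : 2 ^ i < 2 ^ j := Nat.pow_lt_pow_right (by norm_num) h
  apply Nat.eq_of_testBit_eq
  intro t
  have h1 := Nat.two_pow_add_eq_or_of_lt hlt 1
  rw [mul_one] at h1
  rw [h1, Nat.testBit_xor, Nat.testBit_or, Nat.testBit_two_pow, Nat.testBit_two_pow]
  by_cases h2 : j = t <;> by_cases h3 : i = t <;> simp [h2, h3]
  omega

theorem xor_two_pow (i j : ℕ) :
    ((2 ^ i ^^^ 2 ^ j : ℕ) : ℤ) = 2 ^ i + 2 ^ j - if i = j then 2 ^ (i + 1) else 0 := by
  rcases lt_trichotomy i j with h | rfl | h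
  · rw [Nat.xor_comm, xor_two_pow_lt h, if_neg h.ne]; push_cast; ring
  · simp; ring
  · rw [xor_two_pow_lt h, if_neg h.ne']; push_cast; ring

theorem no_fg (M : Submodule ℤ (ℕ → ℤ))
    (hM : kernel 2 (fun n => ((a n ^^^ b n : ℕ) : ℤ)) ⊆ M) : ¬ M.FG := by
  classical
  intro hfg
  let G : Finset (ℕ → ℤ) := {fun n => (b n : ℤ), fun _ => 1}
  have hfg' : (M ⊔ Submodule.span ℤ (G : Set (ℕ → ℤ))).FG := hfg.sup ⟨G, rfl⟩
  refine not_fg_of_diag _ (fun e n => if e = ds n then (2 : ℤ) ^ (2 * e + 1) else 0)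
    (fun e => 2 ^ e - 1) ?_ ?_ ?_ hfg'
  · intro e
    have h1 : (fun _ : ℕ => (1 : ℤ)) ∈ M ⊔ Submodule.span ℤ (G : Set (ℕ → ℤ)) :=
      Submodule.mem_sup_right (Submodule.subset_span (by simp [G]))
    have h2 : (fun n : ℕ => (b n : ℤ)) ∈ M ⊔ Submodule.span ℤ (G : Set (ℕ → ℤ)) :=
      Submodule.mem_sup_right (Submodule.subset_span (by simp [G]))
    have h3 : (fun n : ℕ => ((a (2 ^ (e + 1) * n + (2 ^ e - 1)) ^^^
        b (2 ^ (e + 1) * n + (2 ^ e - 1)) : ℕ) : ℤ)) ∈ M ⊔ Submodule.span ℤ (G : Set (ℕ → ℤ)) := by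
      refine Submodule.mem_sup_left (hM ⟨e + 1, 2 ^ e - 1, ?_, rfl⟩)
      have : 0 < 2 ^ e := by positivity
      have h2 : 2 ^ (e + 1) = 2 * 2 ^ e := by ring
      omega
    have := Submodule.sub_mem _ (Submodule.add_mem _ (Submodule.smul_mem _ ((2 : ℤ) ^ (2 * e)) h1)
      (Submodule.smul_mem _ ((2 : ℤ) ^ e) h2)) h3
    convert this using 2
    rename_i n
    have hn : 2 ^ (e + 1) * n = 2 ^ e * (2 * n) := by ring
    simp only [Pi.sub_apply, Pi.add_apply, Pi.smul_apply, smul_eq_mul, a, b, hn, tv_shift, ds_shift,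
      tv_even, ds_even, zero_add, xor_two_pow]
    push_cast
    by_cases h : e = ds n
    · have h' : 2 * e = ds n + e := by omega
      rw [if_pos h, if_pos h', pow_add (2 : ℤ) (ds n) e]; ring
    · have h' : ¬ 2 * e = ds n + e := by omega
      rw [if_neg h, if_neg h', pow_add (2 : ℤ) (ds n) e]; ring
  · intro e
    have := ds_shift e 0
    simp only [mul_zero, zero_add] at this
    have h0 : ds 0 = 0 := by simp [ds]
    rw [h0, zero_add] at this
    simp [this]
  · intro e e' hne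
    have := ds_shift e 0
    simp only [mul_zero, zero_add] at this
    have h0 : ds 0 = 0 := by simp [ds]
    rw [h0, zero_add] at this
    simp [this, hne]

theorem not_regular : ¬ IsRegular 2 (fun n => ((a n ^^^ b n : ℕ) : ℤ)) :=
  no_fg _ Submodule.subset_span

theorem not_regular_array : ¬ IsTwoRegularArray (fun i j => ((a i ^^^ b j : ℕ) : ℤ)) := by
  rintro ⟨s, g, hg⟩
  refine no_fg (Submodule.span ℤ (Set.range fun i : Fin s => fun n => g i n n)) ?_
    (Submodule.fg_span (Set.finite_range _))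
  rintro f ⟨e, r, hr, rfl⟩
  obtain ⟨coef, hc⟩ := hg e r r hr hr
  have : (fun n => ((a (2 ^ e * n + r) ^^^ b (2 ^ e * n + r) : ℕ) : ℤ)) =
      ∑ i, coef i • (fun n => g i n n) := by
    funext n
    refine (hc n n).trans ?_
    simp [Finset.sum_apply]
  rw [SetLike.mem_coe, this]
  exact Submodule.sum_mem _ fun i _ => Submodule.smul_mem _ _ (Submodule.subset_span ⟨i, rfl⟩)

end Pool.Agent.H51.NimSum
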