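import Mathlib

set_option autoImplicit false

namespace Pool.Agent.H51.PackA

open Set

def Oct (X : Type*) [NormedAddCommGroup X] [NormedSpace ℝ X] : Prop :=
  ∀ F : Submodule ℝ X, FiniteDimensional ℝ F → ∀ δ : ℝ, 0 < δ → ∃ y : X, ‖y‖ ≤ 1 ∧
    ∀ f ∈ F, ∀ l : ℝ, (1 - δ) * ‖f‖ + |l| ≤ ‖f + l • y‖

lemma oct {D : Type*} [TopologicalSpace D] [CompactSpace D] [T2Space D] [Nonempty D]
    (hinf : ∀ U : Set D, IsOpen U → U.Nonempty → U.Infinite) : Oct C(D, ℝ) := by
  intro F hF δ hδ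
  have hc : IsCompact ((↑) '' (Metric.sphere (0 : F) 1) : Set C(D, ℝ)) :=
    (isCompact_sphere _ _).image continuous_subtype_val
  obtain ⟨T, hT1, hT2, hT3⟩ := hc.finite_cover_balls (e := δ / 2) (by positivity)
  have h1 : ∀ g : C(D, ℝ), ∃ τ : ℝ, (τ = 1 ∨ τ = -1) ∧
      (‖g‖ = 1 → {t | 1 - δ / 2 < τ * g t}.Infinite) := by
    intro g
    by_cases hg : ‖g‖ = 1
    · have : ∃ t, 1 - δ / 2 < |g t| := by
        by_contra h
        push Not at h
        rcases le_or_gt 0 (1 - δ / 2) with h2 | h2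
        · have := (ContinuousMap.norm_le g h2).2 h
          linarith
        · have := h (Classical.arbitrary D)
          linarith [abs_nonneg (g (Classical.arbitrary D))]
      obtain ⟨t, ht⟩ := this
      rcases le_or_gt 0 (g t) with h | h
      · refine ⟨1, Or.inl rfl, fun _ => hinf _ (isOpen_lt continuous_const (by fun_prop)) ⟨t, ?_⟩⟩
        rw [abs_of_nonneg h] at ht
        simpa using ht
      · refine ⟨-1, Or.inr rfl, fun _ => hinf _ (isOpen_lt continuous_const (by fun_prop)) ⟨t, ?_⟩⟩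
        rw [abs_of_neg h] at ht
        simpa using ht
    · exact ⟨1, Or.inl rfl, fun h => absurd h hg⟩
  choose τ hτ hW using h1
  have h2 : ∀ A : Set D, A.Finite → ∃ a : C(D, ℝ) → D, ∀ g, ‖g‖ = 1 →
      1 - δ / 2 < τ g * g (a g) ∧ a g ∉ A := by
    intro A hA
    have : ∀ g : C(D, ℝ), ∃ a : D, ‖g‖ = 1 → 1 - δ / 2 < τ g * g a ∧ a ∉ A := by
      intro g
      by_cases hg : ‖g‖ = 1
      · obtain ⟨a, ha⟩ := ((hW g hg).diff hA).nonempty
        exact ⟨a, fun _ => ha⟩
      · exact ⟨Classical.arbitrary D, fun h => absurd h hg⟩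
    choose a ha using this
    exact ⟨a, ha⟩
  obtain ⟨a, ha⟩ := h2 ∅ finite_empty
  set a0 := Classical.arbitrary D
  have hA : (insert a0 (a '' T)).Finite := (hT2.image a).insert a0
  obtain ⟨b, hb⟩ := h2 _ hA
  have hn : ∀ g ∈ T, ‖g‖ = 1 := by
    intro g hg
    obtain ⟨z, hz, rfl⟩ := hT1 hg
    simpa using hz
  obtain ⟨u, hu0, hu1, hu⟩ := exists_continuous_zero_one_of_isClosed hA.isClosed
    (hT2.image b).isClosed (by
      rw [Set.disjoint_right]
      rintro _ ⟨g, hg, rfl⟩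
      exact (hb g (hn g hg)).2)
  refine ⟨1 - (2 : ℝ) • u, ?_, fun f hf l => ?_⟩
  · rw [ContinuousMap.norm_le _ zero_le_one]
    intro t
    have := hu t
    simp only [ContinuousMap.sub_apply, ContinuousMap.one_apply, ContinuousMap.smul_apply,
      smul_eq_mul, Real.norm_eq_abs, abs_le]
    constructor <;> linarith [this.1, this.2]
  have key : ∀ (t : D) (σ : ℝ), (σ = 1 ∨ σ = -1) →
      σ * (f t + l * (1 - 2 * u t)) ≤ ‖f + l • (1 - (2 : ℝ) • u)‖ := by
    intro t σ hσ
    have := (f + l • (1 - (2 : ℝ) • u)).norm_coe_le_norm t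
    simp only [ContinuousMap.add_apply, ContinuousMap.sub_apply, ContinuousMap.one_apply,
      ContinuousMap.smul_apply, smul_eq_mul, Real.norm_eq_abs, abs_le] at this
    rcases hσ with rfl | rfl <;> linarith [this.1, this.2]
  by_cases hf0 : f = 0
  · have e : u a0 = 0 := hu0 (mem_insert _ _)
    have k1 := key a0 1 (Or.inl rfl)
    have k2 := key a0 (-1) (Or.inr rfl)
    subst hf0
    simp only [e, ContinuousMap.zero_apply] at k1 k2
    rw [norm_zero, mul_zero, zero_add, abs_le]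
    constructor <;> linarith
  have hp : 0 < ‖f‖ := norm_pos_iff.2 hf0
  have hm : ‖f‖⁻¹ • f ∈ ((↑) '' (Metric.sphere (0 : F) 1) : Set C(D, ℝ)) := by
    refine ⟨⟨‖f‖⁻¹ • f, F.smul_mem _ hf⟩, ?_, rfl⟩
    simp [norm_smul, hp.ne']
  obtain ⟨g, hg, hg2⟩ := mem_iUnion₂.1 (hT3 hm)
  have hv : ∀ t, 1 - δ / 2 < τ g * g t → (1 - δ) * ‖f‖ ≤ τ g * f t := by
    intro t ht
    have h3 := (‖f‖⁻¹ • f - g).norm_coe_le_norm t
    rw [Metric.mem_ball, dist_eq_norm] at hg2
    simp only [ContinuousMap.sub_apply, ContinuousMap.smul_apply, smul_eq_mul,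
      Real.norm_eq_abs, abs_le] at h3
    have e : f t = ‖f‖ * (‖f‖⁻¹ * f t) := by field_simp
    have h4 : 1 - δ ≤ τ g * (‖f‖⁻¹ * f t) := by
      rcases hτ g with h | h <;> rw [h] at ht ⊢ <;> linarith [h3.1, h3.2]
    rw [e]; nlinarith
  have k1 := key (a g) (τ g) (hτ g)
  have k2 := key (b g) (τ g) (hτ g)
  have e1 : u (a g) = 0 := hu0 (mem_insert_of_mem _ ⟨g, hg, rfl⟩)
  have e2 : u (b g) = 1 := hu1 ⟨g, hg, rfl⟩
  have v1 := hv _ (ha g (hn g hg)).1
  have v2 := hv _ (hb g (hn g hg)).1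
  rw [e1] at k1
  rw [e2] at k2
  rcases abs_cases l with h | h <;> rcases hτ g with h' | h' <;> rw [h'] at k1 k2 v1 v2 <;>
    linarith [h.1]

def Sep {X : Type*} [NormedAddCommGroup X] (P : AddSubgroup X) : Prop :=
  ∀ p ∈ P, p ≠ 0 → 2 ≤ ‖p‖

lemma step {X : Type*} [NormedAddCommGroup X] [NormedSpace ℝ X] (H : Oct X) {r : ℝ} (hr : 1 < r)
    (s : Set X) (hs : s.Finite) (hsep : Sep (AddSubgroup.closure s)) (d : X) :
    ∃ s' : Set X, (s'.Finite ∧ Sep (AddSubgroup.closure s')) ∧ s ⊆ s' ∧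
      ∃ p ∈ AddSubgroup.closure s', ‖d - p‖ ≤ r := by
  by_cases h : ∃ p ∈ AddSubgroup.closure s, ‖d - p‖ ≤ r
  · exact ⟨s, ⟨hs, hsep⟩, subset_rfl, h⟩
  push Not at h
  have hr0 : 0 < r := by linarith
  obtain ⟨y, hy, hy2⟩ := H (Submodule.span ℝ (insert d s))
    (FiniteDimensional.span_of_finite ℝ (hs.insert d)) (1 - 1 / r)
    (by rw [sub_pos, div_lt_one hr0]; exact hr)
  refine ⟨s ∪ {d + r • y}, ⟨hs.union (finite_singleton _), ?_⟩, subset_union_left, d + r • y,
    AddSubgroup.subset_closure (Or.inr rfl), ?_⟩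
  · intro p hp hp0
    rw [AddSubgroup.closure_union, AddSubgroup.mem_sup] at hp
    obtain ⟨q, hq, z, hz, rfl⟩ := hp
    obtain ⟨k, rfl⟩ := AddSubgroup.mem_closure_singleton.1 hz
    have hqF : q ∈ Submodule.span ℝ (insert d s) := by
      have : AddSubgroup.closure s ≤ (Submodule.span ℝ (insert d s)).toAddSubgroup :=
        (AddSubgroup.closure_le _).2 fun x hx => Submodule.subset_span (mem_insert_of_mem _ hx)
      exact this hq
    have := hy2 (q + (k : ℝ) • d) (Submodule.add_mem _ hqF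
      (Submodule.smul_mem _ _ (Submodule.subset_span (mem_insert _ _)))) (k * r)
    have e : q + (k : ℝ) • d + ((k : ℝ) * r) • y = q + k • (d + r • y) := by
      rw [← Int.cast_smul_eq_zsmul ℝ, smul_add, smul_smul, add_assoc]
    rw [e, sub_sub_cancel, abs_mul, abs_of_pos hr0] at this
    have hn : 0 ≤ 1 / r * ‖q + (k : ℝ) • d‖ := by positivity
    have h1 : ∀ z : X, r < ‖z‖ → 1 ≤ 1 / r * ‖z‖ := fun z hz => by
      rw [one_div, ← div_eq_inv_mul, le_div_iff₀ hr0]; linarith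
    rcases (by rcases abs_cases k with h | h <;> omega : k = 0 ∨ k = 1 ∨ k = -1 ∨ 2 ≤ |k|) with rfl | rfl | rfl | hk
    · simp only [zero_smul, add_zero] at hp0 ⊢
      exact hsep q hq hp0
    · have := h1 (q + ((1 : ℤ) : ℝ) • d) (by
        have := h (-q) (neg_mem hq)
        simpa [add_comm] using this)
      simp only [Int.cast_one, abs_one] at *
      linarith
    · have := h1 (q + ((-1 : ℤ) : ℝ) • d) (by
        have := h q hq
        rw [norm_sub_rev] at this
        simpa [sub_eq_add_neg] using this)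
      simp only [Int.cast_neg, Int.cast_one, abs_neg, abs_one] at *
      linarith
    · have : (2 : ℝ) ≤ |(k : ℝ)| := by exact_mod_cast hk
      nlinarith
  · rw [sub_add_cancel_left, norm_neg, norm_smul, Real.norm_of_nonneg hr0.le]
    nlinarith

lemma sepgrp {X : Type*} [NormedAddCommGroup X] [NormedSpace ℝ X]
    [TopologicalSpace.SeparableSpace X] (H : Oct X) {r : ℝ} (hr : 1 < r) :
    ∃ P : AddSubgroup X, Sep P ∧ ∀ x, ∃ p ∈ P, ‖x - p‖ ≤ r := by
  have hr' : 1 < (r + 1) / 2 := by linarith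
  choose nx h1 h2 h3 using step H hr'
  obtain ⟨d, hd⟩ := TopologicalSpace.exists_dense_seq X
  let S : ℕ → {s : Set X // s.Finite ∧ Sep (AddSubgroup.closure s)} := fun n =>
    Nat.rec ⟨∅, finite_empty, fun p hp h0 => absurd (by simpa using hp) h0⟩
      (fun n s => ⟨nx s.1 s.2.1 s.2.2 (d n), h1 _ _ _ _⟩) n
  have hm : Monotone fun n => AddSubgroup.closure (S n).1 :=
    monotone_nat_of_le_succ fun n => AddSubgroup.closure_mono (h2 _ (S n).2.1 (S n).2.2 (d n))
  refine ⟨⨆ n, AddSubgroup.closure (S n).1, fun p hp => ?_, fun x => ?_⟩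
  · obtain ⟨n, hn⟩ := (AddSubgroup.mem_iSup_of_directed hm.directed_le).1 hp
    exact (S n).2.2 p hn
  · obtain ⟨n, hn⟩ := hd.exists_dist_lt x (ε := (r - 1) / 2) (by linarith)
    obtain ⟨p, hp, hp2⟩ := h3 _ (S n).2.1 (S n).2.2 (d n)
    refine ⟨p, AddSubgroup.mem_iSup_of_mem (n + 1) hp, ?_⟩
    rw [dist_eq_norm] at hn
    have := norm_add_le (x - d n) (d n - p)
    rw [sub_add_sub_cancel] at this
    linarith

lemma cfloor {K : Type*} [TopologicalSpace K] {u : K → ℝ} (hu : Continuous u)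
    (h : ∀ x, ∀ k : ℤ, u x ≠ k) : Continuous fun x => (⌊u x⌋ : ℝ) := by
  rw [continuous_iff_continuousAt]
  intro x
  refine ContinuousAt.comp (g := fun t : ℝ => (⌊t⌋ : ℝ)) ?_ hu.continuousAt
  exact (continuousOn_floor ⌊u x⌋).continuousAt
    (Ico_mem_nhds (lt_of_le_of_ne (Int.floor_le _) (h x _).symm) (Int.lt_floor_add_one _))

lemma round2 {K : Type*} [TopologicalSpace K] [CompactSpace K] {V D : Set K} (hV : V.Countable)
    (hVD : univ = V ∪ D) (h : C(K, ℝ)) {r r' : ℝ} (hr : 1 < r) (hrr : r < r') (hr2 : r' < 2)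
    (hD : ∀ t ∈ D, |h t| ≤ r) :
    ∃ g : C(K, ℝ), (∀ t ∈ D, g t = 0) ∧ (∀ t, ∃ k : ℤ, g t = 2 * k) ∧ ‖h - g‖ ≤ r' := by
  have hB : ((fun z : K × ℤ => |h z.1| + 2 - 2 * z.2) '' (V ×ˢ univ)).Countable :=
    (hV.prod countable_univ).image _
  obtain ⟨s, hs, hs1, hs2⟩ := (hB.dense_compl ℝ).exists_between hrr
  have fl : ∀ w : ℝ, w ≤ r → ⌊(max w 0 + 2 - s) / 2⌋ = 0 := fun w hw => by
    rw [Int.floor_eq_zero_iff]
    have := le_max_right w 0
    have : max w 0 ≤ r := max_le hw (by linarith)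
    constructor <;> linarith
  have ni : ∀ (x : K) (w : ℝ), |w| = |h x| → ∀ k : ℤ, (max w 0 + 2 - s) / 2 ≠ k := by
    intro x w hw k hk
    rcases le_or_gt w r with h1 | h1
    · have h2 := fl w h1
      rw [hk, Int.floor_intCast] at h2
      have := le_max_right w 0
      rw [h2] at hk; simp only [Int.cast_zero] at hk; linarith
    · have hx : x ∈ V := by
        have : x ∈ V ∪ D := hVD ▸ mem_univ x
        refine this.resolve_right fun hx => ?_
        have := hD x hx
        linarith [le_abs_self w]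
      refine hs ⟨(x, k), ⟨hx, mem_univ _⟩, ?_⟩
      rw [max_eq_left (by linarith)] at hk
      simp only
      rw [← hw, abs_of_pos (by linarith)]; linarith
  have c1 := cfloor (u := fun x => (max (h x) 0 + 2 - s) / 2) (by fun_prop) fun x => ni x _ rfl
  have c2 := cfloor (u := fun x => (max (-h x) 0 + 2 - s) / 2) (by fun_prop)
    fun x => ni x _ (abs_neg _)
  refine ⟨⟨fun x => 2 * ((⌊(max (h x) 0 + 2 - s) / 2⌋ : ℝ) - (⌊(max (-h x) 0 + 2 - s) / 2⌋ : ℝ)),
    continuous_const.mul (c1.sub c2)⟩, fun t ht => ?_, fun t => ⟨_, by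
      simp only [ContinuousMap.coe_mk]; rw [Int.cast_sub]⟩, ?_⟩
  · have := abs_le.1 (hD t ht)
    simp only [ContinuousMap.coe_mk]
    rw [fl _ this.2, fl _ (by linarith)]; simp
  · rw [ContinuousMap.norm_le _ (by linarith)]
    intro t
    simp only [ContinuousMap.sub_apply, ContinuousMap.coe_mk, Real.norm_eq_abs, abs_le]
    rcases le_total 0 (h t) with h0 | h0
    · rw [fl (-h t) (by linarith), max_eq_left h0]
      have a := Int.floor_le ((h t + 2 - s) / 2)
      have b := Int.lt_floor_add_one ((h t + 2 - s) / 2)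
      simp only [Int.cast_zero]
      constructor <;> linarith
    · rw [fl (h t) (by linarith), max_eq_left (by linarith)]
      have a := Int.floor_le ((-h t + 2 - s) / 2)
      have b := Int.lt_floor_add_one ((-h t + 2 - s) / 2)
      simp only [Int.cast_zero]
      constructor <;> linarith

end Pool.Agent.H51.PackA
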