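import Mathlib

set_option autoImplicit false

namespace Pool.Agent.H51.PiA

open scoped InnerProductSpace
open Filter Topology

abbrev H : Type := lp (fun _ : ℕ => ℝ) 2

noncomputable def e (i : ℕ) : H := lp.single 2 i (1 : ℝ)

lemma e_apply (i l : ℕ) : (e i) l = if l = i then 1 else 0 := by
  unfold e
  by_cases h : l = i
  · subst h; simp
  · rw [lp.single_apply_ne _ _ _ h]; simp [h]

lemma inner_e_left (i : ℕ) (x : H) : ⟪e i, x⟫_ℝ = x i := by
  unfold e; rw [lp.inner_single_left]; simp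

lemma inner_e_right (i : ℕ) (x : H) : ⟪x, e i⟫_ℝ = x i := by
  rw [real_inner_comm, inner_e_left]

lemma norm_e (i : ℕ) : ‖e i‖ = 1 := by
  unfold e; rw [lp.norm_single (by norm_num)]; simp

lemma abs_le_norm (x : H) (i : ℕ) : |x i| ≤ ‖x‖ := by
  have := lp.norm_apply_le_norm (by norm_num) x i
  simpa using this

lemma cont_coord (i : ℕ) : Continuous fun x : H => x i := by
  have : (fun x : H => x i) = fun x : H => ⟪e i, x⟫_ℝ := by
    funext x; rw [inner_e_left]
  rw [this]; exact continuous_const.inner continuous_id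

lemma add_ap (x y : H) (i : ℕ) : (x + y) i = x i + y i := by simp
lemma sub_ap (x y : H) (i : ℕ) : (x - y) i = x i - y i := by simp
lemma smul_ap (c : ℝ) (x : H) (i : ℕ) : (c • x) i = c * x i := by simp

lemma sum_ap (s : Finset ℕ) (f : ℕ → H) (i : ℕ) : (∑ l ∈ s, f l) i = ∑ l ∈ s, f l i := by
  rw [← inner_e_left, inner_sum]; simp [inner_e_left]

lemma ext' {x y : H} (h : ∀ i, x i = y i) : x = y := lp.ext (funext h)

noncomputable def η (n : ℕ) : ℝ := 1 / ((n : ℝ) + 8)

lemma η_pos (n : ℕ) : 0 < η n := by unfold η; positivity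
lemma η_le (n : ℕ) : η n ≤ 1 / 8 := by
  unfold η
  apply one_div_le_one_div_of_le (by norm_num)
  have : (0 : ℝ) ≤ n := Nat.cast_nonneg n
  linarith

lemma η_tendsto : Tendsto η atTop (𝓝 0) := by
  have h : Tendsto (fun n : ℕ => (n : ℝ) + 8) atTop atTop :=
    tendsto_atTop_add_const_right _ _ tendsto_natCast_atTop_atTop
  have := h.inv_tendsto_atTop
  refine this.congr (fun n => ?_)
  simp [η]

noncomputable def cf (n : ℕ) (x : H) : ℝ := (x 0 - η n * x n) / (1 + η n ^ 2)

noncomputable def w (n : ℕ) : H := e 0 - η n • e n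

noncomputable def P (n : ℕ) : H →L[ℝ] H :=
  ∑ i ∈ Finset.Ioo 0 n, (innerSL ℝ (e i)).smulRight (e i) +
    ((1 / (1 + η n ^ 2)) • innerSL ℝ (w n)).smulRight (w n)

lemma inner_w (n : ℕ) (x : H) : ⟪w n, x⟫_ℝ = x 0 - η n * x n := by
  unfold w; rw [inner_sub_left, real_inner_smul_left, inner_e_left, inner_e_left]

lemma P_eq (n : ℕ) (x : H) :
    P n x = ∑ i ∈ Finset.Ioo 0 n, x i • e i + cf n x • w n := by
  unfold P cf
  simp only [ContinuousLinearMap.add_apply, ContinuousLinearMap.sum_apply,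
    ContinuousLinearMap.smulRight_apply, innerSL_apply_apply, inner_e_left,
    ContinuousLinearMap.smul_apply, inner_w, smul_eq_mul]
  congr 2; ring

lemma P_ap (n : ℕ) (hn : 0 < n) (x : H) (i : ℕ) :
    P n x i = if i = 0 then cf n x else if i < n then x i else
      if i = n then -(η n * cf n x) else 0 := by
  rw [P_eq, add_ap, sum_ap, smul_ap]
  unfold w
  rw [sub_ap, smul_ap, e_apply, e_apply]
  simp only [smul_ap, e_apply, mul_ite, mul_one, mul_zero]
  rw [Finset.sum_ite_eq]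
  simp only [Finset.mem_Ioo]
  by_cases h0 : i = 0
  · subst h0
    have : ¬ (0 = n) := by omega
    simp [this]
  · by_cases h1 : i < n
    · have : ¬ (i = n) := by omega
      have h2 : 0 < i := by omega
      simp [h0, h1, this, h2]
    · by_cases h2 : i = n
      · subst h2; simp [h0]; ring
      · simp [h0, h1, h2]

lemma one_add_pos (n : ℕ) : 0 < 1 + η n ^ 2 := by positivity

lemma cf_mul (n : ℕ) (x : H) : cf n x * (1 + η n ^ 2) = x 0 - η n * x n := by
  unfold cf; exact div_mul_cancel₀ _ (one_add_pos n).ne'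

lemma P_inner (n : ℕ) (x y : H) :
    ⟪P n x, y⟫_ℝ = ∑ i ∈ Finset.Ioo 0 n, x i * y i + cf n x * (y 0 - η n * y n) := by
  rw [P_eq, inner_add_left, sum_inner, real_inner_smul_left, inner_w]
  simp only [real_inner_smul_left, inner_e_left]

lemma P_symm (n : ℕ) (x y : H) : ⟪P n x, y⟫_ℝ = ⟪x, P n y⟫_ℝ := by
  rw [real_inner_comm (P n y) x, P_inner, P_inner, ← cf_mul, ← cf_mul]
  congr 1
  · exact Finset.sum_congr rfl (fun i _ => mul_comm _ _)
  · ring

lemma P_idem (n : ℕ) (hn : 0 < n) (x : H) : P n (P n x) = P n x := by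
  have hc : cf n (P n x) = cf n x := by
    have h1 := cf_mul n (P n x)
    rw [P_ap n hn, P_ap n hn] at h1
    have : ¬ (n = 0) := by omega
    simp only [if_true, this, if_false, lt_irrefl] at h1
    have h2 := one_add_pos n
    apply mul_right_cancel₀ h2.ne'
    rw [h1]; ring
  apply ext'; intro i
  rw [P_ap n hn (P n x), hc, P_ap n hn x]
  split_ifs <;> rfl

lemma P_norm_sq (n : ℕ) (hn : 0 < n) (x : H) : ‖P n x‖ ^ 2 = ⟪P n x, x⟫_ℝ := by
  rw [← real_inner_self_eq_norm_sq, P_symm, P_idem n hn, real_inner_comm]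

lemma P_norm_le (n : ℕ) (hn : 0 < n) (x : H) : ‖P n x‖ ≤ ‖x‖ := by
  have h1 := P_norm_sq n hn x
  have h2 := real_inner_le_norm (P n x) x
  by_contra h
  push Not at h
  have h3 := norm_nonneg x
  nlinarith

lemma P_small (n : ℕ) (hn : 0 < n) (k : H) (h0 : ∀ i, 0 < i → i < n → k i = 0)
    (h1 : |k 0 - η n * k n| ≤ 1) : ‖P n k‖ ≤ 1 := by
  have h2 := P_norm_sq n hn k
  rw [P_inner, Finset.sum_eq_zero (fun i hi => by
    rw [Finset.mem_Ioo] at hi; rw [h0 i hi.1 hi.2]; simp), zero_add] at h2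
  have h3 := cf_mul n k
  have h4 : (k 0 - η n * k n) ^ 2 ≤ 1 := by
    rw [← sq_abs]; nlinarith [abs_nonneg (k 0 - η n * k n)]
  have h5 : cf n k * (k 0 - η n * k n) ≤ 1 := by
    rw [← h3] at h4 ⊢
    nlinarith [sq_nonneg (cf n k), sq_nonneg (η n), sq_nonneg (cf n k * η n),
      sq_nonneg (cf n k * η n ^ 2)]
  by_contra h
  push Not at h
  nlinarith

lemma P_fin (n : ℕ) : FiniteDimensional ℝ (LinearMap.range (P n : H →ₗ[ℝ] H)) := by
  classical
  have hle : LinearMap.range (P n : H →ₗ[ℝ] H) ≤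
      Submodule.span ℝ ((Finset.image e (Finset.range (n + 1)) : Finset H) : Set H) := by
    rintro _ ⟨x, rfl⟩
    have he : ∀ i, i ≤ n → e i ∈
        Submodule.span ℝ ((Finset.image e (Finset.range (n + 1)) : Finset H) : Set H) := by
      intro i hi
      apply Submodule.subset_span
      simp only [Finset.coe_image, Finset.coe_range]
      exact ⟨i, by simp; omega, rfl⟩
    change P n x ∈ _
    rw [P_eq]
    refine Submodule.add_mem _ (Submodule.sum_mem _ (fun i hi => Submodule.smul_mem _ _ (he i ?_)))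
      (Submodule.smul_mem _ _ (Submodule.sub_mem _ (he 0 (by omega))
        (Submodule.smul_mem _ _ (he n le_rfl))))
    rw [Finset.mem_Ioo] at hi; omega
  exact Submodule.finiteDimensional_of_le hle

lemma P_tendsto (x : H) : Tendsto (fun n => P (n + 3) x) atTop (𝓝 x) := by
  have h1 : Tendsto (fun n => ∑ i ∈ Finset.range n, x i • e i) atTop (𝓝 x) := by
    have := (lp.hasSum_single (by norm_num) x).tendsto_sum_nat
    refine this.congr (fun n => Finset.sum_congr rfl (fun i _ => ?_))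
    apply ext'; intro l
    rw [smul_ap, e_apply]
    by_cases h : l = i
    · subst h; simp
    · rw [lp.single_apply_ne _ _ _ h]; simp [h]
  have h2 : Tendsto (fun n => cf n x • w n - x 0 • e 0) atTop (𝓝 0) := by
    rw [tendsto_zero_iff_norm_tendsto_zero]
    have h3 : Tendsto (fun n => η n * (4 * ‖x‖)) atTop (𝓝 0) := by
      simpa using η_tendsto.mul_const (4 * ‖x‖)
    refine squeeze_zero (fun _ => norm_nonneg _) (fun n => ?_) h3
    have e1 : cf n x • w n - x 0 • e 0 = (cf n x - x 0) • e 0 - (cf n x * η n) • e n := by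
      unfold w; rw [smul_sub, smul_smul, sub_smul]; abel
    rw [e1]
    refine (norm_sub_le _ _).trans ?_
    rw [norm_smul, norm_smul, norm_e, norm_e, mul_one, mul_one, Real.norm_eq_abs, Real.norm_eq_abs]
    have a0 := abs_le.1 (abs_le_norm x 0)
    have an := abs_le.1 (abs_le_norm x n)
    have hp := η_pos n
    have hl := η_le n
    have hc := cf_mul n x
    have hx := norm_nonneg x
    have hc2 : |cf n x| ≤ 2 * ‖x‖ := by
      have h5 : |cf n x| * (1 + η n ^ 2) ≤ 2 * ‖x‖ := by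
        rw [← abs_of_pos (one_add_pos n), ← abs_mul, hc, abs_le]
        constructor <;> nlinarith
      nlinarith [abs_nonneg (cf n x), sq_nonneg (η n), mul_nonneg (abs_nonneg (cf n x)) (sq_nonneg (η n))]
    have b := abs_le.1 hc2
    have e2 : cf n x - x 0 = -(η n * (x n + cf n x * η n)) := by linear_combination hc
    rw [e2, abs_neg, abs_mul, abs_mul, abs_of_pos hp]
    have : |x n + cf n x * η n| ≤ 2 * ‖x‖ := by
      rw [abs_le]; constructor <;> nlinarith
    nlinarith
  have h4 := (h1.add h2).comp (tendsto_add_atTop_nat 3)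
  rw [add_zero] at h4
  refine h4.congr (fun n => ?_)
  simp only [Function.comp]
  rw [P_eq]
  have : Finset.range (n + 3) = insert 0 (Finset.Ioo 0 (n + 3)) := by
    ext i; simp
  rw [this, Finset.sum_insert (by simp)]
  abel

/-! The norming set. -/

noncomputable def b (j : ℕ) : H := (4 : ℝ) • e j + e (j + 1)
noncomputable def d : H := (4 : ℝ) • e 1 - e 2

noncomputable def sg (j : ℕ) (k : H) : ℝ := k (j + 1) / η (j + 1)
noncomputable def s (j : ℕ) : ℝ := η (j + 1) / (1 + η (j + 1) ^ 2)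

structure KK (j : ℕ) (k : H) : Prop where
  big : k j = 4
  mid : ∀ i, 0 < i → i < j → k i = 0
  sg_le : sg j k ≤ s j
  z_le : k 0 ≤ 0
  tl_nn : ∀ l, j + 1 < l → 0 ≤ k l
  tl_le : ∀ l, j + 1 < l → k l ≤ sg j k * η l
  inv : ∀ N, -k 0 + ∑ l ∈ Finset.Ioc (j + 1) N, η l * k l ≤ sg j k

def K : Set H := {k | k = d ∨ (∃ j, 1 ≤ j ∧ k = b j) ∨ ∃ j, 2 ≤ j ∧ KK j k}

lemma b_ap (j i : ℕ) : b j i = if i = j then 4 else if i = j + 1 then 1 else 0 := by
  unfold b; rw [add_ap, smul_ap, e_apply, e_apply]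
  split_ifs <;> first | omega | norm_num

lemma d_ap (i : ℕ) : d i = if i = 1 then 4 else if i = 2 then -1 else 0 := by
  unfold d; rw [sub_ap, smul_ap, e_apply, e_apply]
  split_ifs <;> first | omega | norm_num

lemma inner_b (j : ℕ) (x : H) : ⟪x, b j⟫_ℝ = 4 * x j + x (j + 1) := by
  unfold b; rw [inner_add_right, real_inner_smul_right, inner_e_right, inner_e_right]

lemma inner_d (x : H) : ⟪x, d⟫_ℝ = 4 * x 1 - x 2 := by
  unfold d; rw [inner_sub_right, real_inner_smul_right, inner_e_right, inner_e_right]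

lemma norm_b (j : ℕ) : ‖b j‖ ^ 2 = 17 := by
  rw [← real_inner_self_eq_norm_sq, inner_b, b_ap, b_ap]; simp; norm_num

lemma norm_d : ‖d‖ ^ 2 = 17 := by
  rw [← real_inner_self_eq_norm_sq, inner_d, d_ap, d_ap]; simp; norm_num

lemma sg_mul (j : ℕ) (k : H) : k (j + 1) = η (j + 1) * sg j k := by
  unfold sg; field_simp [(η_pos (j + 1)).ne']

lemma s_mul (j : ℕ) : s j * (1 + η (j + 1) ^ 2) = η (j + 1) := by
  unfold s; exact div_mul_cancel₀ _ (one_add_pos _).ne'

lemma s_pos (j : ℕ) : 0 < s j := by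
  unfold s; exact div_pos (η_pos _) (one_add_pos _)

lemma s_le (j : ℕ) : s j ≤ 1 / 8 := by
  have h1 := s_mul j
  have h2 := η_le (j + 1)
  have h3 := s_pos j
  nlinarith [mul_nonneg h3.le (sq_nonneg (η (j + 1)))]

lemma KK.gam_le {j : ℕ} {k : H} (h : KK j k) : -k 0 ≤ sg j k := by
  have := h.inv 0
  simpa using this

lemma KK.sg_nn {j : ℕ} {k : H} (h : KK j k) : 0 ≤ sg j k := by
  have := h.gam_le; have := h.z_le; linarith

lemma KK.norm_sq {j : ℕ} (hj : 1 ≤ j) {k : H} (h : KK j k) :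
    ‖k‖ ^ 2 ≤ 16 + (η (j + 1) * sg j k) ^ 2 + k 0 ^ 2 + sg j k * (sg j k + k 0) := by
  have h1 := (lp.hasSum_inner (𝕜 := ℝ) k k).tendsto_sum_nat
  rw [real_inner_self_eq_norm_sq] at h1
  have h2 := h1.comp (tendsto_add_atTop_nat (j + 2))
  refine le_of_tendsto' h2 (fun N => ?_)
  simp only [Function.comp]
  have e1 : Finset.range (N + (j + 2)) =
      insert 0 (insert j (insert (j + 1)
        (Finset.Ioo 0 j ∪ Finset.Ioc (j + 1) (N + j + 1)))) := by
    ext i; simp; omega
  rw [e1, Finset.sum_insert (by simp; omega), Finset.sum_insert (by simp),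
    Finset.sum_insert (by simp), Finset.sum_union (by
      rw [Finset.disjoint_left]; intro a ha hb; simp at ha hb; omega)]
  have e2 : ∀ a : ℝ, ⟪a, a⟫_ℝ = a ^ 2 := fun a => by simp [sq]
  simp only [e2]
  rw [Finset.sum_eq_zero (s := Finset.Ioo 0 j) (fun i hi => by
    rw [Finset.mem_Ioo] at hi; rw [h.mid i hi.1 hi.2]; simp)]
  have e3 : ∑ l ∈ Finset.Ioc (j + 1) (N + j + 1), k l ^ 2 ≤
      sg j k * ∑ l ∈ Finset.Ioc (j + 1) (N + j + 1), η l * k l := by
    rw [Finset.mul_sum]
    refine Finset.sum_le_sum (fun l hl => ?_)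
    rw [Finset.mem_Ioc] at hl
    have a1 := h.tl_nn l hl.1
    have a2 := h.tl_le l hl.1
    nlinarith
  have e4 := h.inv (N + j + 1)
  have e5 := h.sg_nn
  rw [h.big, sg_mul j k]
  nlinarith

lemma KK.norm_sq_le {j : ℕ} (hj : 1 ≤ j) {k : H} (h : KK j k) :
    ‖k‖ ^ 2 ≤ 16 + k (j + 1) := by
  have h1 := h.norm_sq hj
  have h2 := h.gam_le
  have h3 := h.z_le
  have h4 := h.sg_nn
  have h5 := h.sg_le
  have h6 := s_mul j
  have h7 := one_add_pos (j + 1)
  rw [sg_mul j k]
  have h8 : sg j k * (1 + η (j + 1) ^ 2) ≤ η (j + 1) := by nlinarith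
  nlinarith [mul_nonneg h4 (sub_nonneg.2 h8), mul_nonneg (neg_nonneg.2 h3) (sub_nonneg.2 h2)]

lemma KK.next {j : ℕ} {k : H} (h : KK j k) : 0 ≤ k (j + 1) ∧ k (j + 1) ≤ 1 / 8 := by
  rw [sg_mul j k]
  have := h.sg_nn; have := h.sg_le; have := s_le j
  have := η_pos (j + 1); have := η_le (j + 1)
  constructor <;> nlinarith

lemma KK.zero {j : ℕ} {k : H} (h : KK j k) : |k 0| ≤ 1 / 8 := by
  have := h.gam_le; have := h.z_le; have := h.sg_le; have := s_le j
  rw [abs_le]; constructor <;> linarith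

lemma KK.small {j : ℕ} {k : H} (h : KK j k) (i : ℕ) (hi : i ≠ j) : |k i| ≤ 1 := by
  rcases Nat.eq_zero_or_pos i with h0 | h0
  · subst h0; have := h.zero; linarith
  rcases lt_or_gt_of_ne hi with h1 | h1
  · rw [h.mid i h0 h1]; simp
  rcases eq_or_lt_of_le (Nat.succ_le_of_lt h1) with h2 | h2
  · rw [← h2]; have := h.next; rw [abs_le]; constructor <;> linarith [this.1, this.2]
  · have a1 := h.tl_nn i h2
    have a2 := h.tl_le i h2
    have := h.sg_nn; have := h.sg_le; have := s_le j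
    have := η_pos i; have := η_le i
    rw [abs_le]; constructor <;> nlinarith

lemma K_norm {k : H} (hk : k ∈ K) : ‖k‖ ≤ 5 := by
  have : ‖k‖ ^ 2 ≤ 17 := by
    rcases hk with rfl | ⟨j, _, rfl⟩ | ⟨j, hj, h⟩
    · exact norm_d.le
    · exact (norm_b j).le
    · have := h.norm_sq_le (by omega); have := h.next; linarith [this.2]
  nlinarith [norm_nonneg k]

lemma K_zero {k : H} (hk : k ∈ K) : |k 0| ≤ 1 / 8 := by
  rcases hk with rfl | ⟨j, hj, rfl⟩ | ⟨j, hj, h⟩
  · rw [d_ap]; norm_num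
  · rw [b_ap, if_neg (by omega), if_neg (by omega)]; norm_num
  · exact h.zero

lemma K_cases {k : H} (hk : k ∈ K) (j : ℕ) (hj : 2 ≤ j) : k = b j ∨ KK j k ∨ |k j| ≤ 1 := by
  rcases hk with rfl | ⟨i, hi, rfl⟩ | ⟨i, hi, h⟩
  · right; right; rw [d_ap]; split_ifs <;> first | omega | norm_num
  · by_cases h : i = j
    · left; rw [h]
    · right; right; rw [b_ap]; split_ifs <;> first | omega | norm_num
  · by_cases h' : i = j
    · right; left; rw [← h']; exact h
    · right; right; exact h.small j (Ne.symm h')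

lemma K_one {k : H} (hk : k ∈ K) : k = d ∨ k = b 1 ∨ k 1 = 0 := by
  rcases hk with rfl | ⟨i, hi, rfl⟩ | ⟨i, hi, h⟩
  · left; rfl
  · by_cases h : i = 1
    · right; left; rw [h]
    · right; right; rw [b_ap]; split_ifs <;> first | omega | norm_num
  · right; right; exact h.mid 1 (by omega) (by omega)

lemma KK_closed (j : ℕ) : IsClosed {k : H | KK j k} := by
  have hs : Continuous fun k : H => sg j k := (cont_coord (j + 1)).div_const _
  have e1 : {k : H | KK j k} = {k : H | k j = 4} ∩ (⋂ i, ⋂ _ : 0 < i, ⋂ _ : i < j, {k : H | k i = 0})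
      ∩ {k : H | sg j k ≤ s j} ∩ {k : H | k 0 ≤ 0} ∩ (⋂ l, ⋂ _ : j + 1 < l, {k : H | 0 ≤ k l})
      ∩ (⋂ l, ⋂ _ : j + 1 < l, {k : H | k l ≤ sg j k * η l})
      ∩ (⋂ N, {k : H | -k 0 + ∑ l ∈ Finset.Ioc (j + 1) N, η l * k l ≤ sg j k}) := by
    ext k
    simp only [Set.mem_setOf_eq, Set.mem_inter_iff, Set.mem_iInter]
    constructor
    · intro h; exact ⟨⟨⟨⟨⟨⟨h.1, h.2⟩, h.3⟩, h.4⟩, h.5⟩, h.6⟩, h.7⟩
    · rintro ⟨⟨⟨⟨⟨⟨h1, h2⟩, h3⟩, h4⟩, h5⟩, h6⟩, h7⟩; exact ⟨h1, h2, h3, h4, h5, h6, h7⟩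
  rw [e1]
  refine ((((((isClosed_eq (cont_coord j) continuous_const).inter ?_).inter
    (isClosed_le hs continuous_const)).inter (isClosed_le (cont_coord 0) continuous_const)).inter
    ?_).inter ?_).inter ?_
  · exact isClosed_iInter fun i => isClosed_iInter fun _ => isClosed_iInter fun _ =>
      isClosed_eq (cont_coord i) continuous_const
  · exact isClosed_iInter fun i => isClosed_iInter fun _ =>
      isClosed_le continuous_const (cont_coord i)
  · exact isClosed_iInter fun i => isClosed_iInter fun _ =>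
      isClosed_le (cont_coord i) (hs.mul continuous_const)
  · exact isClosed_iInter fun N => isClosed_le ((cont_coord 0).neg.add
      (continuous_finset_sum _ fun l _ => continuous_const.mul (cont_coord l))) hs

end Pool.Agent.H51.PiA
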