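import Pool.Agent.H51.PiA

set_option autoImplicit false

namespace Pool.Agent.H51.PiB

open scoped InnerProductSpace
open Filter Topology Pool.Agent.H51.PiA

def Bd (x : H) (C : ℝ) : Prop := ‖x‖ ≤ C ∧ ∀ k ∈ K, |⟪k, x⟫_ℝ| ≤ C

lemma P_fix (n : ℕ) (hn : 0 < n) (k : H) (h0 : k 0 = 0) (h1 : ∀ i, n ≤ i → k i = 0) :
    P n k = k := by
  have hc : cf n k = 0 := by unfold cf; rw [h0, h1 n le_rfl]; simp
  apply ext'; intro i
  rw [P_ap n hn, hc]
  split_ifs with a1 a2 a3
  · rw [a1, h0]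
  · rfl
  · rw [h1 i (by omega)]; simp
  · rw [h1 i (by omega)]

/-- the image of an element with big coordinate `j` under `P (j+1)`. -/
lemma KK_succ (j : ℕ) (hj : 2 ≤ j) (k : H) (h1 : k j = 4) (h2 : ∀ i, 0 < i → i < j → k i = 0)
    (h3 : cf (j + 1) k ≤ 0) (h4 : -cf (j + 1) k ≤ s j) : KK j (P (j + 1) k) := by
  have hp : 0 < j + 1 := by omega
  have hs : sg j (P (j + 1) k) = -cf (j + 1) k := by
    unfold sg
    rw [P_ap _ hp, if_neg (by omega), if_neg (by omega), if_pos rfl]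
    field_simp [(η_pos (j + 1)).ne']
  have ht : ∀ l, j + 1 < l → P (j + 1) k l = 0 := by
    intro l hl
    rw [P_ap _ hp, if_neg (by omega), if_neg (by omega), if_neg (by omega)]
  have hz : P (j + 1) k 0 = cf (j + 1) k := by rw [P_ap _ hp, if_pos rfl]
  refine ⟨?_, ?_, ?_, ?_, ?_, ?_, ?_⟩
  · rw [P_ap _ hp, if_neg (by omega), if_pos (by omega), h1]
  · intro i a1 a2
    rw [P_ap _ hp, if_neg (by omega), if_pos (by omega), h2 i a1 a2]
  · rw [hs]; exact h4
  · rw [hz]; exact h3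
  · intro l hl; rw [ht l hl]
  · intro l hl; rw [ht l hl, hs]; have := η_pos l; nlinarith
  · intro N
    rw [Finset.sum_eq_zero (fun l hl => by
      rw [Finset.mem_Ioc] at hl; rw [ht l hl.1]; simp), hs, hz]
    simp

lemma KK_high (j n : ℕ) (hn : j + 1 < n) (k : H) (h : KK j k) (hj : 2 ≤ j) : KK j (P n k) := by
  have hp : 0 < n := by omega
  have hs : sg j (P n k) = sg j k := by
    unfold sg
    rw [P_ap _ hp, if_neg (by omega), if_pos (by omega)]
  have hz : P n k 0 = cf n k := by rw [P_ap _ hp, if_pos rfl]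
  have hc := cf_mul n k
  have hpos := one_add_pos n
  have hη := η_pos n
  have a1 := h.tl_nn n hn
  have a2 := h.z_le
  have hc0 : cf n k ≤ 0 := by
    by_contra hh
    push Not at hh
    nlinarith [mul_pos hh hpos, mul_nonneg hη.le a1]
  have hinv : -k 0 + (∑ l ∈ Finset.Ioc (j + 1) (n - 1), η l * k l + η n * k n) ≤ sg j k := by
    have := h.inv n
    obtain ⟨m, rfl⟩ : ∃ m, n = m + 1 := ⟨n - 1, by omega⟩
    rw [Finset.sum_Ioc_succ_top (by omega)] at this
    simpa using this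
  have hnn : 0 ≤ ∑ l ∈ Finset.Ioc (j + 1) (n - 1), η l * k l :=
    Finset.sum_nonneg (fun l hl => by
      rw [Finset.mem_Ioc] at hl; exact mul_nonneg (η_pos l).le (h.tl_nn l hl.1))
  have hc1 : -cf n k ≤ sg j k := by nlinarith [mul_nonneg (neg_nonneg.2 hc0) (sq_nonneg (η n))]
  have hnn' : ∀ l, j + 1 < l → 0 ≤ P n k l := by
    intro l hl
    rw [P_ap _ hp, if_neg (by omega)]
    split_ifs
    · exact h.tl_nn l hl
    · nlinarith
    · exact le_rfl
  refine ⟨?_, ?_, ?_, ?_, hnn', ?_, ?_⟩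
  · rw [P_ap _ hp, if_neg (by omega), if_pos (by omega), h.big]
  · intro i a1 a2
    rw [P_ap _ hp, if_neg (by omega), if_pos (by omega), h.mid i a1 a2]
  · rw [hs]; exact h.sg_le
  · rw [hz]; exact hc0
  · intro l hl
    rw [hs, P_ap _ hp, if_neg (by omega)]
    split_ifs with b1 b2
    · exact h.tl_le l hl
    · rw [b2]; nlinarith
    · exact mul_nonneg h.sg_nn (η_pos l).le
  · intro N
    rw [hs, hz]
    have e1 : ∑ l ∈ Finset.Ioc (j + 1) N, η l * P n k l ≤
        ∑ l ∈ Finset.Ioc (j + 1) n, η l * P n k l := by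
      have e2 : ∑ l ∈ Finset.Ioc (j + 1) N, η l * P n k l =
          ∑ l ∈ (Finset.Ioc (j + 1) N).filter (fun l => l ≤ n), η l * P n k l := by
        symm
        apply Finset.sum_filter_of_ne
        intro l _ hne
        by_contra hh
        apply hne
        have hl : j + 1 < l := by omega
        rw [P_ap _ hp, if_neg (by omega), if_neg (by omega), if_neg (by omega)]; simp
      rw [e2]
      apply Finset.sum_le_sum_of_subset_of_nonneg
      · intro l hl
        simp only [Finset.mem_filter, Finset.mem_Ioc] at hl ⊢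
        omega
      · intro l hl _
        rw [Finset.mem_Ioc] at hl
        exact mul_nonneg (η_pos l).le (hnn' l hl.1)
    have e3 : ∑ l ∈ Finset.Ioc (j + 1) n, η l * P n k l =
        ∑ l ∈ Finset.Ioc (j + 1) (n - 1), η l * k l + η n * -(η n * cf n k) := by
      obtain ⟨m, rfl⟩ : ∃ m, n = m + 1 := ⟨n - 1, by omega⟩
      rw [Finset.sum_Ioc_succ_top (by omega)]
      congr 1
      · simp only [Nat.add_sub_cancel]
        refine Finset.sum_congr rfl (fun l hl => ?_)
        rw [Finset.mem_Ioc] at hl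
        rw [P_ap _ hp, if_neg (by omega), if_pos (by omega)]
      · rw [P_ap _ hp, if_neg (by omega), if_neg (by omega), if_pos rfl]
    rw [e3] at e1
    nlinarith

lemma P_K (n : ℕ) (hn : 3 ≤ n) {k : H} (hk : k ∈ K) : P n k ∈ K ∨ ‖P n k‖ ≤ 1 := by
  have hp : 0 < n := by omega
  have hsm : (∀ i, 0 < i → i < n → k i = 0) → ‖P n k‖ ≤ 1 := by
    intro h0
    apply P_small n hp k h0
    have a1 := abs_le.1 (K_zero hk)
    have a2 := abs_le.1 ((abs_le_norm k n).trans (K_norm hk))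
    have := η_pos n; have := η_le n
    rw [abs_le]; constructor <;> nlinarith
  rcases hk with rfl | ⟨j, hj, rfl⟩ | ⟨j, hj, h⟩
  · left
    rw [P_fix n hp d (by rw [d_ap]; simp) (fun i hi => by
      rw [d_ap, if_neg (by omega), if_neg (by omega)])]
    left; rfl
  · rcases lt_trichotomy n (j + 1) with h1 | h1 | h1
    · right; apply hsm
      intro i _ hi
      rw [b_ap, if_neg (by omega), if_neg (by omega)]
    · left; right; right
      subst h1
      have hc : cf (j + 1) (b j) = -s j := by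
        unfold cf s
        rw [b_ap, b_ap, if_neg (by omega), if_neg (by omega), if_neg (by omega), if_pos rfl]
        ring
      refine ⟨j, by omega, KK_succ j (by omega) _ (by rw [b_ap]; simp) (fun i a1 a2 => by
        rw [b_ap, if_neg (by omega), if_neg (by omega)]) ?_ ?_⟩
      · rw [hc]; have := s_pos j; linarith
      · rw [hc]; simp
    · left
      rw [P_fix n hp (b j) (by rw [b_ap, if_neg (by omega), if_neg (by omega)]) (fun i hi => by
        rw [b_ap, if_neg (by omega), if_neg (by omega)])]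
      right; left; exact ⟨j, hj, rfl⟩
  · rcases lt_trichotomy n (j + 1) with h1 | h1 | h1
    · right; apply hsm
      intro i a1 hi
      exact h.mid i a1 (by omega)
    · left; right; right
      subst h1
      have hc := cf_mul (j + 1) k
      have hpos := one_add_pos (j + 1)
      have hη := η_pos (j + 1)
      have a1 := h.z_le
      have a2 := h.gam_le
      have a3 := h.sg_nn
      have a4 := h.sg_le
      rw [sg_mul j k] at hc
      refine ⟨j, hj, KK_succ j hj _ h.big h.mid ?_ ?_⟩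
      · by_contra hh
        push Not at hh
        nlinarith [mul_pos hh hpos, mul_nonneg (sq_nonneg (η (j + 1))) a3]
      · have : -cf (j + 1) k ≤ sg j k := by
          by_contra hh
          push Not at hh
          nlinarith [mul_pos (sub_pos.2 hh) hpos]
        linarith
    · left; right; right
      exact ⟨j, hj, KK_high j n h1 k h hj⟩

lemma P_Bd (n : ℕ) (hn : 3 ≤ n) (x : H) (C : ℝ) (h : Bd x C) : Bd (P n x) C := by
  refine ⟨(P_norm_le n (by omega) x).trans h.1, fun k hk => ?_⟩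
  rw [← P_symm]
  rcases P_K n hn hk with h1 | h1
  · exact h.2 _ h1
  · refine (abs_real_inner_le_norm _ _).trans ?_
    have := h.1
    have := norm_nonneg x
    nlinarith [norm_nonneg (P n k)]

/-! Norm one projections. -/

structure Good (Q : H →L[ℝ] H) : Prop where
  idem : ∀ x, Q (Q x) = Q x
  bd : ∀ x C, Bd x C → Bd (Q x) C
  fin : FiniteDimensional ℝ (LinearMap.range (Q : H →ₗ[ℝ] H))
  z : ‖Q (e 0) - e 0‖ ≤ 1 / 20
  hb : ‖Q (b 1) - b 1‖ ≤ 1 / 20
  hd : ‖Q d - d‖ ≤ 1 / 20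

lemma quad_zero (a c t0 : ℝ) (ht0 : 0 < t0) (hc : 0 ≤ c)
    (h : ∀ t, |t| ≤ t0 → 0 ≤ 2 * t * a + t ^ 2 * c) : a = 0 := by
  by_contra ha
  set μ := min (t0 / (|a| + 1)) (1 / (c + 1)) with hμ
  have hμ0 : 0 < μ := lt_min (by positivity) (by positivity)
  have h1 : μ * (|a| + 1) ≤ t0 := by
    have : μ ≤ t0 / (|a| + 1) := min_le_left _ _
    rwa [le_div_iff₀ (by positivity)] at this
  have h2 : μ * (c + 1) ≤ 1 := by
    have : μ ≤ 1 / (c + 1) := min_le_right _ _
    rwa [le_div_iff₀ (by positivity)] at this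
  have h3 := h (-(a * μ)) (by
    rw [abs_neg, abs_mul, abs_of_pos hμ0]; nlinarith)
  have h4 : 0 < a ^ 2 * μ := by positivity
  nlinarith [mul_le_mul_of_nonneg_left h2 h4.le]

lemma near_z (x : H) (hx : ‖x - e 0‖ ≤ 1 / 10) : Bd x ‖x‖ := by
  refine ⟨le_rfl, fun k hk => ?_⟩
  have h1 : 9 / 10 ≤ ‖x‖ := by
    have := norm_sub_norm_le (e 0) x
    rw [norm_e, norm_sub_rev] at this; linarith
  have h2 : ⟪k, x⟫_ℝ = k 0 + ⟪k, x - e 0⟫_ℝ := by
    rw [inner_sub_right, inner_e_right]; ring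
  have h3 := abs_real_inner_le_norm k (x - e 0)
  have h4 := K_norm hk
  have h5 := K_zero hk
  rw [h2]
  refine (abs_add_le _ _).trans ?_
  nlinarith [norm_nonneg k, norm_nonneg (x - e 0)]

lemma Good.orth0 {Q : H →L[ℝ] H} (hQ : Good Q) (g h : H) (hg : Q g = g) (hh : Q h = 0)
    (hz : ‖g - e 0‖ ≤ 3 / 40) : ⟪g, h⟫_ℝ = 0 := by
  apply quad_zero _ (‖h‖ ^ 2) (1 / (40 * (‖h‖ + 1))) (by positivity) (by positivity)
  intro t ht
  have h1 : ‖t • h‖ ≤ 1 / 40 := by
    rw [norm_smul, Real.norm_eq_abs]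
    rw [le_div_iff₀ (by positivity)] at ht
    nlinarith [abs_nonneg t, norm_nonneg h]
  have h2 : ‖(g + t • h) - e 0‖ ≤ 1 / 10 := by
    have : (g + t • h) - e 0 = (g - e 0) + t • h := by abel
    rw [this]
    refine (norm_add_le _ _).trans (by linarith)
  have h3 := (hQ.bd _ _ (near_z _ h2)).1
  rw [map_add, map_smul, hh, smul_zero, add_zero, hg] at h3
  have h4 : ‖g‖ ^ 2 ≤ ‖g + t • h‖ ^ 2 := by nlinarith [norm_nonneg g]
  rw [norm_add_sq_real, real_inner_smul_right, norm_smul, mul_pow, Real.norm_eq_abs, sq_abs] at h4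
  linarith

lemma Good.orth {Q : H →L[ℝ] H} (hQ : Good Q) (x h : H) (hh : Q h = 0) : ⟪Q x, h⟫_ℝ = 0 := by
  have h1 := hQ.orth0 (Q (e 0)) h (hQ.idem _) hh (by have := hQ.z; linarith)
  set τ : ℝ := 1 / (40 * (‖Q x‖ + 1)) with hτ
  have hτ0 : 0 < τ := by positivity
  have h2 := hQ.orth0 (Q (e 0) + τ • Q x) h (by rw [map_add, map_smul, hQ.idem, hQ.idem]) hh (by
    have : Q (e 0) + τ • Q x - e 0 = (Q (e 0) - e 0) + τ • Q x := by abel
    rw [this]
    refine (norm_add_le _ _).trans ?_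
    have a1 := hQ.z
    have a2 : ‖τ • Q x‖ ≤ 1 / 40 := by
      rw [norm_smul, Real.norm_eq_abs, abs_of_pos hτ0, hτ, div_mul_eq_mul_div,
        div_le_iff₀ (by positivity)]
      nlinarith [norm_nonneg (Q x)]
    linarith)
  rw [inner_add_left, h1, real_inner_smul_left, zero_add] at h2
  exact (mul_eq_zero.1 h2).resolve_left hτ0.ne'

lemma Good.symm {Q : H →L[ℝ] H} (hQ : Good Q) (x y : H) : ⟪Q x, y⟫_ℝ = ⟪x, Q y⟫_ℝ := by
  have h1 := hQ.orth x (y - Q y) (by rw [map_sub, hQ.idem, sub_self])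
  have h2 := hQ.orth y (x - Q x) (by rw [map_sub, hQ.idem, sub_self])
  rw [inner_sub_right] at h1 h2
  rw [real_inner_comm x (Q y), real_inner_comm (Q x) (Q y)] at h2
  linarith

lemma Good.nsq {Q : H →L[ℝ] H} (hQ : Good Q) (x : H) : ⟪x, Q x⟫_ℝ = ‖Q x‖ ^ 2 := by
  rw [← real_inner_self_eq_norm_sq, hQ.symm x (Q x), hQ.idem]

lemma Good.refl_norm {Q : H →L[ℝ] H} (hQ : Good Q) (x : H) :
    ‖(2 : ℝ) • Q x - x‖ = ‖x‖ := by
  have h : ‖(2 : ℝ) • Q x - x‖ ^ 2 = ‖x‖ ^ 2 := by
    rw [norm_sub_sq_real, norm_smul, real_inner_smul_left, real_inner_comm, hQ.nsq]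
    simp; ring
  exact (sq_eq_sq₀ (norm_nonneg _) (norm_nonneg _)).1 h

lemma Good.err {Q : H →L[ℝ] H} (hQ : Good Q) (x : H) :
    ‖Q x - x‖ ^ 2 = ‖x‖ ^ 2 - ‖Q x‖ ^ 2 := by
  rw [norm_sub_sq_real, real_inner_comm, hQ.nsq]; ring

lemma Good.refl_ap {Q : H →L[ℝ] H} (hQ : Good Q) (x : H) : Q ((2 : ℝ) • Q x - x) = Q x := by
  rw [map_sub, map_smul, hQ.idem, two_smul]; abel

lemma Good.vertex {Q : H →L[ℝ] H} (hQ : Good Q) (v : H) (hv : v ∈ K) (hn : ‖v‖ ^ 2 = 17)
    (he : ‖Q v - v‖ ≤ 1 / 20) (ho : ∀ k ∈ K, k = v ∨ |⟪k, v⟫_ℝ| ≤ 15) : Q v = v := by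
  have h1 := hQ.err v
  have h2 := hQ.nsq v
  set r := ‖Q v - v‖ with hr
  have hr0 : 0 ≤ r := norm_nonneg _
  have hb : Bd ((2 : ℝ) • Q v - v) (17 - 2 * r ^ 2) := by
    refine ⟨?_, fun k hk => ?_⟩
    · rw [hQ.refl_norm]; have := K_norm hv; nlinarith
    · rcases ho k hk with rfl | h3
      · rw [inner_sub_right, real_inner_smul_right, h2, real_inner_self_eq_norm_sq, abs_le]
        constructor <;> nlinarith
      · have e1 : (2 : ℝ) • Q v - v = v + (2 : ℝ) • (Q v - v) := by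
          rw [smul_sub, two_smul, two_smul]; abel
        rw [e1, inner_add_right, real_inner_smul_right]
        have h4 := abs_real_inner_le_norm k (Q v - v)
        have h5 := K_norm hk
        have h6 : |⟪k, Q v - v⟫_ℝ| ≤ 1 / 4 := by nlinarith [norm_nonneg k]
        have := abs_le.1 h6
        have := abs_le.1 h3
        rw [abs_le]; constructor <;> nlinarith
  have h7 := (hQ.bd _ _ hb).2 v hv
  rw [hQ.refl_ap, h2] at h7
  have h8 := le_abs_self (‖Q v‖ ^ 2)
  have h9 : r ^ 2 ≤ 0 := by linarith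
  have h10 : r = 0 := by nlinarith
  rw [hr, norm_eq_zero, sub_eq_zero] at h10
  exact h10

lemma b_mem (j : ℕ) (hj : 1 ≤ j) : b j ∈ K := Or.inr (Or.inl ⟨j, hj, rfl⟩)

lemma Good.e2 {Q : H →L[ℝ] H} (hQ : Good Q) : Q (e 2) = e 2 := by
  have h1 : Q (b 1) = b 1 := by
    apply hQ.vertex _ (b_mem 1 le_rfl) (norm_b 1) hQ.hb
    intro k hk
    rcases K_one hk with rfl | rfl | h
    · right; rw [inner_b, d_ap, d_ap]; norm_num
    · left; rfl
    · right; rw [inner_b, h]
      have := (abs_le_norm k (1 + 1)).trans (K_norm hk)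
      simp only [mul_zero, zero_add]; linarith
  have h2 : Q d = d := by
    apply hQ.vertex _ (Or.inl rfl) norm_d hQ.hd
    intro k hk
    rcases K_one hk with rfl | rfl | h
    · left; rfl
    · right; rw [inner_d, b_ap, b_ap]; norm_num
    · right; rw [inner_d, h]
      have := (abs_le_norm k 2).trans (K_norm hk)
      simp only [mul_zero, zero_sub, abs_neg]; linarith
  have h3 : e 2 = (1 / 2 : ℝ) • (b 1 - d) := by
    unfold b d
    have : (4 : ℝ) • e 1 + e (1 + 1) - ((4 : ℝ) • e 1 - e 2) = (2 : ℝ) • e 2 := by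
      rw [two_smul]; abel
    rw [this, smul_smul]; norm_num
  rw [h3, map_smul, map_sub, h1, h2]

end Pool.Agent.H51.PiB
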