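import Pool.Agent.H51.PiB

set_option autoImplicit false

namespace Pool.Agent.H51.PiC

open scoped InnerProductSpace
open Filter Topology Pool.Agent.H51.PiA Pool.Agent.H51.PiB

noncomputable def A (j : ℕ) : H := P (j + 1) (b j)
noncomputable def v (j : ℕ) : H := e (j + 1) + η (j + 1) • e 0

lemma cf_b (j : ℕ) (hj : 1 ≤ j) : cf (j + 1) (b j) = -s j := by
  unfold cf s
  rw [b_ap, b_ap, if_neg (by omega), if_neg (by omega), if_neg (by omega), if_pos rfl]
  ring

lemma A_ap (j : ℕ) (hj : 1 ≤ j) (i : ℕ) : A j i = if i = 0 then -s j else if i = j then 4 else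
    if i = j + 1 then η (j + 1) * s j else 0 := by
  unfold A
  rw [P_ap _ (by omega), cf_b j hj, b_ap]
  split_ifs <;> first | omega | ring

lemma A_KK (j : ℕ) (hj : 2 ≤ j) : KK j (A j) := by
  refine KK_succ j hj _ (by rw [b_ap]; simp) (fun i a1 a2 => by
        rw [b_ap, if_neg (by omega), if_neg (by omega)]) ?_ ?_
  · rw [cf_b j (by omega)]; have := s_pos j; linarith
  · rw [cf_b j (by omega)]; simp

lemma A_inner (j : ℕ) (hj : 1 ≤ j) (x : H) :
    ⟪A j, x⟫_ℝ = 4 * x j - s j * x 0 + η (j + 1) * s j * x (j + 1) := by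
  have : A j = (4 : ℝ) • e j - s j • e 0 + (η (j + 1) * s j) • e (j + 1) := by
    apply ext'; intro i
    rw [A_ap j hj, add_ap, sub_ap, smul_ap, smul_ap, smul_ap, e_apply, e_apply, e_apply]
    split_ifs <;> first | omega | ring
  rw [this, inner_add_left, inner_sub_left, real_inner_smul_left, real_inner_smul_left,
    real_inner_smul_left, inner_e_left, inner_e_left, inner_e_left]

lemma sphere {Q : H →L[ℝ] H} (hQ : Good Q) (j : ℕ) (hj : 2 ≤ j) (h1 : Q (e j) = e j)
    (h2 : Q (e (j + 1)) ≠ e (j + 1)) : KK j (Q (b j)) := by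
  set q := Q (e (j + 1)) with hq
  have hy : Q (b j) = (4 : ℝ) • e j + q := by
    unfold b; rw [map_add, map_smul, h1]
  have hqj : q j = 0 := by
    rw [← inner_e_left, hq, ← hQ.symm, h1, inner_e_left, e_apply, if_neg (by omega)]
  have hu : q (j + 1) = ‖q‖ ^ 2 := by rw [← inner_e_left, hq, hQ.nsq]
  have hu1 : ‖q‖ ^ 2 < 1 := by
    have a1 := hQ.err (e (j + 1))
    rw [norm_e, ← hq] at a1
    have a2 : 0 < ‖q - e (j + 1)‖ := norm_pos_iff.2 (sub_ne_zero.2 h2)
    nlinarith
  have hyn : ‖Q (b j)‖ ^ 2 = 16 + ‖q‖ ^ 2 := by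
    rw [← hQ.nsq, real_inner_comm, inner_b, hy, add_ap, add_ap, smul_ap, smul_ap, e_apply, e_apply,
      hqj, hu, if_pos rfl, if_neg (by omega)]
    ring
  have hr : ‖(2 : ℝ) • q - e (j + 1)‖ = 1 := by rw [hq, hQ.refl_norm, norm_e]
  have hx : (2 : ℝ) • Q (b j) - b j = (4 : ℝ) • e j + ((2 : ℝ) • q - e (j + 1)) := by
    rw [hy]; unfold b
    rw [smul_add, two_smul ℝ ((4 : ℝ) • e j)]; abel
  have hcl := (KK_closed j).closure_subset
  apply hcl
  rw [Metric.mem_closure_iff]
  intro ε hε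
  by_contra hcon
  push Not at hcon
  set δ := min (ε ^ 2) (1 - ‖q‖ ^ 2) with hδ
  have hδ0 : 0 < δ := lt_min (by positivity) (by linarith)
  have hδ1 : δ ≤ ε ^ 2 := min_le_left _ _
  have hδ2 : δ ≤ 1 - ‖q‖ ^ 2 := min_le_right _ _
  have hq0 := sq_nonneg ‖q‖
  have hb : Bd ((2 : ℝ) • Q (b j) - b j) (16 + ‖q‖ ^ 2 - δ) := by
    refine ⟨?_, fun k hk => ?_⟩
    · rw [hQ.refl_norm]; have := K_norm (b_mem j (by omega)); linarith
    · have a1 : ⟪k, (2 : ℝ) • Q (b j) - b j⟫_ℝ = 4 * k j + ⟪k, (2 : ℝ) • q - e (j + 1)⟫_ℝ := by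
        rw [hx, inner_add_right, real_inner_smul_right, inner_e_right]
      have a2 := abs_real_inner_le_norm k ((2 : ℝ) • q - e (j + 1))
      rw [hr, mul_one] at a2
      have a3 := abs_le.1 (a2.trans (K_norm hk))
      rcases K_cases hk j hj with rfl | h | h
      · rw [inner_sub_right, real_inner_smul_right, hQ.nsq, real_inner_self_eq_norm_sq, hyn,
          norm_b, abs_le]
        constructor <;> linarith
      · rw [abs_le]
        constructor
        · rw [a1, h.big]; linarith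
        · have c1 := hcon k h
          rw [dist_eq_norm, norm_sub_rev] at c1
          have c2 : ε ^ 2 ≤ ‖k - Q (b j)‖ ^ 2 := by nlinarith
          rw [norm_sub_sq_real, hyn] at c2
          have c3 := h.norm_sq_le (by omega)
          rw [inner_sub_right, real_inner_smul_right, inner_b, h.big]
          linarith
      · have := abs_le.1 h
        rw [a1, abs_le]; constructor <;> linarith
  have h7 := (hQ.bd _ _ hb).2 _ (b_mem j (by omega))
  rw [hQ.refl_ap, hQ.nsq, hyn] at h7
  have h8 := le_abs_self (16 + ‖q‖ ^ 2)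
  linarith

lemma test {Q : H →L[ℝ] H} (hQ : Good Q) (j : ℕ) (hj : 2 ≤ j) (h1 : Q (e j) = e j)
    (h0 : Q (e (j + 1)) 0 = 0) (hu : Q (e (j + 1)) (j + 1) ≤ 1 / 8) : False := by
  set x : H := e j - (1 / 4 : ℝ) • (η (j + 1) • e 0 + e (j + 1)) with hx
  have hη := η_pos (j + 1)
  have hη' := η_le (j + 1)
  have hb : Bd x 4 := by
    refine ⟨?_, fun k hk => ?_⟩
    · refine (norm_sub_le _ _).trans ?_
      rw [norm_e, norm_smul]
      have := norm_add_le (η (j + 1) • e 0) (e (j + 1))
      rw [norm_smul, norm_e, norm_e, Real.norm_eq_abs, abs_of_pos hη] at this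
      norm_num; linarith
    · have a1 : ⟪k, x⟫_ℝ = k j - 1 / 4 * (η (j + 1) * k 0 + k (j + 1)) := by
        rw [hx, inner_sub_right, real_inner_smul_right, inner_add_right, real_inner_smul_right,
          inner_e_right, inner_e_right, inner_e_right]
      have a2 := abs_le.1 (K_zero hk)
      have a3 := abs_le.1 ((abs_le_norm k (j + 1)).trans (K_norm hk))
      rw [a1, abs_le]
      rcases K_cases hk j hj with rfl | h | h
      · rw [b_ap, b_ap, b_ap, if_pos rfl, if_neg (by omega), if_neg (by omega), if_neg (by omega),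
          if_pos rfl]
        norm_num
      · rw [h.big]
        have c1 := h.gam_le
        have c2 := sg_mul j k
        constructor <;> nlinarith
      · have := abs_le.1 h
        constructor <;> nlinarith
  have h7 := (hQ.bd _ _ hb).2 _ (Or.inr (Or.inr ⟨j, hj, A_KK j hj⟩))
  have hz0 : Q (e 0) 0 = ‖Q (e 0)‖ ^ 2 := by rw [← inner_e_left, hQ.nsq]
  have hz1 : 1 / 2 ≤ ‖Q (e 0)‖ ^ 2 := by
    have a1 := hQ.err (e 0)
    have a2 := hQ.z
    rw [norm_e] at a1
    nlinarith [norm_nonneg (Q (e 0) - e 0)]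
  have hzj : Q (e 0) j = 0 := by
    rw [← inner_e_left, ← hQ.symm, h1, inner_e_left, e_apply, if_neg (by omega)]
  have hzj1 : Q (e 0) (j + 1) = 0 := by
    rw [← inner_e_left, ← hQ.symm, inner_e_right, h0]
  have hqj : Q (e (j + 1)) j = 0 := by
    rw [← inner_e_left, ← hQ.symm, h1, inner_e_left, e_apply, if_neg (by omega)]
  rw [A_inner j (by omega), hx, map_sub, map_smul, map_add, map_smul, h1] at h7
  simp only [sub_ap, add_ap, smul_ap, e_apply, hzj, hzj1, hqj, h0, hz0] at h7
  rw [if_pos trivial, if_neg (by omega), if_neg (by omega)] at h7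
  have h8 := (abs_le.1 h7).2
  have hs := s_pos j
  have h9 : 0 < η (j + 1) * s j := mul_pos hη hs
  nlinarith

lemma level {Q : H →L[ℝ] H} (hQ : Good Q) (j : ℕ) (hj : 2 ≤ j) (h1 : Q (e j) = e j)
    (h2 : Q (e (j + 1)) ≠ e (j + 1)) : Q (A j) = A j ∧ Q (v j) = 0 := by
  have h := sphere hQ j hj h1 h2
  have hy : Q (b j) = (4 : ℝ) • e j + Q (e (j + 1)) := by
    unfold b; rw [map_add, map_smul, h1]
  have hy0 : Q (b j) 0 = Q (e (j + 1)) 0 := by
    rw [hy, add_ap, smul_ap, e_apply, if_neg (by omega)]; ring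
  have hy1 : Q (b j) (j + 1) = Q (e (j + 1)) (j + 1) := by
    rw [hy, add_ap, smul_ap, e_apply, if_neg (by omega)]; ring
  have hne : Q (b j) 0 ≠ 0 := by
    intro h0
    exact test hQ j hj h1 (by rw [← hy0, h0]) (by rw [← hy1]; exact h.next.2)
  have hn : ‖Q (b j)‖ ^ 2 = 16 + η (j + 1) * sg j (Q (b j)) := by
    rw [← hQ.nsq, real_inner_comm, inner_b, h.big, sg_mul]; ring
  have a1 := h.norm_sq (by omega)
  have a2 := h.gam_le
  have a3 : Q (b j) 0 < 0 := lt_of_le_of_ne h.z_le hne
  have a4 := h.sg_le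
  have a5 := s_mul j
  have a6 := one_add_pos (j + 1)
  set σ := sg j (Q (b j)) with hσ
  set γ := Q (b j) 0 with hγ
  have hσ0 : 0 < σ := by linarith
  have b1 : 0 ≤ (1 + η (j + 1) ^ 2) * σ * (s j - σ) :=
    mul_nonneg (mul_nonneg a6.le hσ0.le) (by linarith)
  have b2 : 0 ≤ -γ * (σ + γ) := mul_nonneg (by linarith) (by linarith)
  have b3 : (1 + η (j + 1) ^ 2) * σ * (s j - σ) + -γ * (σ + γ) ≤ 0 := by
    have : (1 + η (j + 1) ^ 2) * σ * s j = η (j + 1) * σ := by linear_combination σ * a5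
    nlinarith
  have c1 : s j - σ = 0 := by
    have : (1 + η (j + 1) ^ 2) * σ * (s j - σ) = 0 := by linarith
    exact (mul_eq_zero.1 this).resolve_left (mul_pos a6 hσ0).ne'
  have c2 : σ + γ = 0 := by
    have : -γ * (σ + γ) = 0 := by linarith
    exact (mul_eq_zero.1 this).resolve_left (by linarith)
  have hA : Q (b j) = A j := by
    apply ext'; intro i
    rw [A_ap j (by omega)]
    split_ifs with d1 d2 d3
    · rw [d1]; linarith
    · rw [d2, h.big]
    · rw [d3, sg_mul, ← hσ]; congr 1; linarith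
    · rcases lt_or_gt_of_ne d2 with d4 | d4
      · exact h.mid i (by omega) d4
      · have d5 : j + 1 < i := by omega
        have e1 := h.inv i
        have e2 : η i * Q (b j) i ≤ ∑ l ∈ Finset.Ioc (j + 1) i, η l * Q (b j) l :=
          Finset.single_le_sum (f := fun l => η l * Q (b j) l) (fun l hl => by
            rw [Finset.mem_Ioc] at hl
            exact mul_nonneg (η_pos l).le (h.tl_nn l hl.1)) (by rw [Finset.mem_Ioc]; omega)
        have e3 := h.tl_nn i d5
        have e4 := η_pos i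
        have e5 : η i * Q (b j) i ≤ 0 := by linarith
        by_contra e6
        have := mul_pos e4 (lt_of_le_of_ne e3 (Ne.symm e6))
        linarith
  have hQA : Q (A j) = A j := by rw [← hA, hQ.idem]
  refine ⟨hQA, ?_⟩
  have hv : v j = (1 + η (j + 1) ^ 2) • (b j - A j) := by
    apply ext'; intro i
    unfold v
    rw [smul_ap, sub_ap, add_ap, smul_ap, A_ap j (by omega), b_ap, e_apply, e_apply]
    split_ifs <;> first | omega | linear_combination (-1 : ℝ) * a5 | ring1 |
      linear_combination η (j + 1) * a5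
  rw [hv, map_smul, map_sub, hA, hQA, sub_self, smul_zero]

def Lev (Q : H →L[ℝ] H) (j : ℕ) : Prop :=
  2 ≤ j ∧ (∀ i, 2 ≤ i → i ≤ j → Q (e i) = e i) ∧ Q (A j) = A j ∧ Q (v j) = 0

lemma e_orth : Orthonormal ℝ e := by
  rw [orthonormal_iff_ite]
  intro i j
  rw [inner_e_left, e_apply]

lemma ex_lev {Q : H →L[ℝ] H} (hQ : Good Q) : ∃ j, Lev Q j := by
  classical
  have hex : ∃ m, Q (e (m + 3)) ≠ e (m + 3) := by
    by_contra hc
    push Not at hc
    haveI := hQ.fin
    let f : ℕ → LinearMap.range (Q : H →ₗ[ℝ] H) := fun m => ⟨e (m + 3), e (m + 3), hc m⟩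
    have hli : LinearIndependent ℝ f := by
      apply LinearIndependent.of_comp (LinearMap.range (Q : H →ₗ[ℝ] H)).subtype
      exact e_orth.linearIndependent.comp (fun m => m + 3) (fun a b h => by simpa using h)
    haveI := hli.finite
    exact not_finite ℕ
  have hm := Nat.find_spec hex
  have hlt : ∀ i, 2 ≤ i → i ≤ Nat.find hex + 2 → Q (e i) = e i := by
    intro i a1 a2
    rcases eq_or_lt_of_le a1 with rfl | a3
    · exact hQ.e2
    · have := Nat.find_min hex (m := i - 3) (by omega)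
      push Not at this
      rwa [show i - 3 + 3 = i by omega] at this
  have := level hQ (Nat.find hex + 2) (by omega) (hlt _ (by omega) le_rfl) hm
  exact ⟨Nat.find hex + 2, by omega, hlt, this.1, this.2⟩

lemma inner_v (j : ℕ) (x : H) : ⟪x, v j⟫_ℝ = x (j + 1) + η (j + 1) * x 0 := by
  unfold v; rw [inner_add_right, real_inner_smul_right, inner_e_right, inner_e_right]

theorem no_chain (Q : ℕ → H →L[ℝ] H) (h1 : ∀ n x, Q n (Q n x) = Q n x)
    (h2 : ∀ n x C, Bd x C → Bd (Q n x) C)
    (h3 : ∀ n, FiniteDimensional ℝ (LinearMap.range (Q n : H →ₗ[ℝ] H)))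
    (h4 : ∀ x, Tendsto (fun n => Q n x) atTop (𝓝 x))
    (h5 : ∀ m n, m ≤ n → ∀ x, Q m x = x → Q n x = x) : False := by
  have hev : ∀ x, ∀ᶠ n in atTop, ‖Q n x - x‖ ≤ 1 / 20 := by
    intro x
    have := (tendsto_iff_norm_sub_tendsto_zero.1 (h4 x)).eventually
      (Iic_mem_nhds (show (0 : ℝ) < 1 / 20 by norm_num))
    exact this
  have hg : ∀ᶠ n in atTop, Good (Q n) := by
    filter_upwards [hev (e 0), hev (b 1), hev d] with n a1 a2 a3
    exact ⟨h1 n, h2 n, h3 n, a1, a2, a3⟩
  obtain ⟨n0, hn0⟩ := eventually_atTop.1 hg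
  obtain ⟨j, hj⟩ := ex_lev (hn0 n0 le_rfl)
  have hv0 : v j ≠ 0 := by
    intro h
    have := inner_v j (e (j + 1))
    rw [h, inner_zero_right, e_apply, e_apply, if_pos rfl, if_neg (by omega)] at this
    norm_num at this
  have hne : ∀ᶠ n in atTop, Q n (v j) ≠ 0 := (h4 (v j)).eventually_ne hv0
  obtain ⟨n1, hn1, hn2⟩ := (hne.and (eventually_ge_atTop n0)).exists
  have hG := hn0 n1 hn2
  obtain ⟨j', hj'⟩ := ex_lev hG
  have key : ∀ x, Q n0 x = x → x (j' + 1) + η (j' + 1) * x 0 = 0 := by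
    intro x hx
    rw [← inner_v, ← h5 n0 n1 hn2 x hx, hG.symm, hj'.2.2.2, inner_zero_right]
  rcases lt_trichotomy j' j with h | h | h
  · have := key _ (hj.2.1 (j' + 1) (by have := hj'.1; omega) h)
    rw [e_apply, e_apply, if_pos rfl, if_neg (by omega)] at this
    norm_num at this
  · exact hn1 (h ▸ hj'.2.2.2)
  · have := key _ hj.2.2.1
    have hj1 : 1 ≤ j := by have := hj.1; omega
    rw [A_ap j hj1, A_ap j hj1, if_neg (by omega), if_neg (by omega), if_neg (by omega),
      if_pos rfl] at this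
    have := mul_pos (η_pos (j' + 1)) (s_pos j)
    linarith

/-! The renormed space as a graph. -/

noncomputable def T0 (x : H) : BoundedContinuousFunction K ℝ :=
  BoundedContinuousFunction.ofNormedAddCommGroup (fun k : K => ⟪(k : H), x⟫_ℝ)
    (continuous_subtype_val.inner continuous_const) (5 * ‖x‖) (fun k => by
      rw [Real.norm_eq_abs]
      refine (abs_real_inner_le_norm _ _).trans ?_
      exact mul_le_mul_of_nonneg_right (K_norm k.2) (norm_nonneg _))

lemma T0_ap (x : H) (k : K) : T0 x k = ⟪(k : H), x⟫_ℝ := rfl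

noncomputable def T : H →L[ℝ] BoundedContinuousFunction K ℝ :=
  LinearMap.mkContinuous
    { toFun := T0
      map_add' := fun x y => by ext k; simp [T0_ap, inner_add_right]
      map_smul' := fun c x => by ext k; simp [T0_ap, inner_smul_right] } 5
    (fun x => (BoundedContinuousFunction.norm_le (by positivity)).2 (fun k => by
      change ‖⟪(k : H), x⟫_ℝ‖ ≤ _
      rw [Real.norm_eq_abs]
      refine (abs_real_inner_le_norm _ _).trans ?_
      exact mul_le_mul_of_nonneg_right (K_norm k.2) (norm_nonneg _)))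

lemma T_ap (x : H) (k : K) : T x k = ⟪(k : H), x⟫_ℝ := rfl

noncomputable def ES : Submodule ℝ (H × BoundedContinuousFunction K ℝ) :=
  LinearMap.ker ((T.comp (ContinuousLinearMap.fst ℝ H _) -
    ContinuousLinearMap.snd ℝ H (BoundedContinuousFunction K ℝ) :
      H × BoundedContinuousFunction K ℝ →L[ℝ] BoundedContinuousFunction K ℝ) :
      H × BoundedContinuousFunction K ℝ →ₗ[ℝ] BoundedContinuousFunction K ℝ)

lemma mem_ES (p : H × BoundedContinuousFunction K ℝ) : p ∈ ES ↔ T p.1 = p.2 := by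
  unfold ES; simp [sub_eq_zero]

lemma ES_closed : IsClosed (ES : Set (H × BoundedContinuousFunction K ℝ)) :=
  ContinuousLinearMap.isClosed_ker _

instance : CompleteSpace ES := ES_closed.completeSpace_coe

noncomputable def J : H →L[ℝ] ES :=
  ((ContinuousLinearMap.id ℝ H).prod T).codRestrict ES (fun x => (mem_ES _).2 rfl)

noncomputable def R : ES →L[ℝ] H := (ContinuousLinearMap.fst ℝ H _).comp ES.subtypeL

lemma RJ (x : H) : R (J x) = x := rfl

lemma JR (y : ES) : J (R y) = y := by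
  apply Subtype.ext
  apply Prod.ext
  · rfl
  · exact (mem_ES _).1 y.2

lemma norm_J (x : H) (C : ℝ) : ‖J x‖ ≤ C ↔ Bd x C := by
  have : ‖J x‖ = max ‖x‖ ‖T x‖ := rfl
  rw [this, max_le_iff]
  constructor
  · rintro ⟨h1, h2⟩
    refine ⟨h1, fun k hk => ?_⟩
    have := ((T x).norm_coe_le_norm ⟨k, hk⟩).trans h2
    rwa [T_ap, Real.norm_eq_abs] at this
  · rintro ⟨h1, h2⟩
    refine ⟨h1, (BoundedContinuousFunction.norm_le ((norm_nonneg _).trans h1)).2 fun k => ?_⟩
    rw [T_ap, Real.norm_eq_abs]; exact h2 _ k.2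

end Pool.Agent.H51.PiC
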