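import Mathlib

set_option autoImplicit false

namespace Pool.Agent.H51.PorcA

open MeasureTheory Set Filter Topology Sum

abbrev E := ℕ ⊕ ℚ → ℝ

def T : Set E := {z | z (inl 1) ∈ Icc (0 : ℝ) 1 ∧ (∀ k, z (inl k) = z (inl 1) ^ k) ∧
  ∀ s : ℚ, z (inr s) = 0 ∨ (z (inl 1) = s ∧ (z (inr s) = 1 ∨ z (inr s) = -1))}

def Z : Set E := {z | z ∈ T ∧ ∀ s : ℚ, z (inl 1) = s → z (inr s) ≠ 0}

lemma T_bd {z : E} (h : z ∈ T) (i : ℕ ⊕ ℚ) : |z i| ≤ 1 := by
  obtain ⟨h1, h2, h3⟩ := h
  rcases i with k | s
  · rw [h2, abs_pow]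
    exact pow_le_one₀ (abs_nonneg _) (abs_le.2 ⟨by linarith [h1.1], h1.2⟩)
  · rcases h3 s with h | ⟨_, h | h⟩ <;> simp [h]

lemma T_closed : IsClosed T := by
  have c : ∀ i, Continuous fun z : E => z i := fun i => continuous_apply i
  simp only [T, setOf_and, setOf_forall, setOf_or]
  exact (isClosed_Icc.preimage (c _)).inter ((isClosed_iInter fun k =>
    isClosed_eq (c _) ((c _).pow k)).inter (isClosed_iInter fun s =>
    (isClosed_eq (c _) continuous_const).union ((isClosed_eq (c _) continuous_const).inter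
      ((isClosed_eq (c _) continuous_const).union (isClosed_eq (c _) continuous_const)))))

lemma T_compact : IsCompact T :=
  (isCompact_univ_pi fun _ => isCompact_Icc (a := (-1 : ℝ)) (b := 1)).of_isClosed_subset T_closed
    fun _ hz i _ => abs_le.1 (T_bd hz i)

lemma Z_meas : MeasurableSet Z := by
  have c : ∀ i, Measurable fun z : E => z i := fun i => measurable_pi_apply i
  simp only [Z, setOf_and, imp_iff_not_or, setOf_or]
  refine T_closed.measurableSet.inter ?_
  rw [setOf_forall]
  refine MeasurableSet.iInter fun s => ?_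
  rw [setOf_or]
  exact (measurableSet_eq_fun (c _) measurable_const).compl.union
    (measurableSet_eq_fun (c _) measurable_const).compl

structure Rep (A : Set E) (ξ : Measure E) (x : E) : Prop where
  prob : IsProbabilityMeasure ξ
  ae : ∀ᵐ z ∂ξ, z ∈ A
  bary : ∀ i, ∫ z, z i ∂ξ = x i

lemma intg {ξ : Measure E} [IsFiniteMeasure ξ] (h : ∀ᵐ z ∂ξ, z ∈ T) (i : ℕ ⊕ ℚ) :
    Integrable (fun z => z i) ξ :=
  Integrable.of_bound (measurable_pi_apply i).aestronglyMeasurable 1 (h.mono fun _ hz => T_bd hz i)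

lemma Rep.toT {ξ : Measure E} {x : E} (h : Rep Z ξ x) : Rep T ξ x :=
  ⟨h.prob, h.ae.mono fun _ hz => hz.1, h.bary⟩

lemma Rep.comb {A : Set E} (hA : A ⊆ T) {ξ η : Measure E} {x y : E} (h1 : Rep A ξ x)
    (h2 : Rep A η y) {a b : ℝ} (ha : 0 ≤ a) (hb : 0 ≤ b) (hab : a + b = 1) :
    Rep A (ENNReal.ofReal a • ξ + ENNReal.ofReal b • η) (a • x + b • y) := by
  have := h1.prob
  have := h2.prob
  refine ⟨⟨?_⟩, ?_, fun i => ?_⟩
  · simp [← ENNReal.ofReal_add ha hb, hab]
  · rw [ae_add_measure_iff]
    exact ⟨Measure.ae_smul_measure h1.ae _, Measure.ae_smul_measure h2.ae _⟩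
  · rw [integral_add_measure ((intg (h1.ae.mono hA) i).smul_measure ENNReal.ofReal_ne_top)
      ((intg (h2.ae.mono hA) i).smul_measure ENNReal.ofReal_ne_top), integral_smul_measure,
      integral_smul_measure, h1.bary, h2.bary]
    simp [ha, hb]

lemma rep_dirac {A : Set E} (hA : MeasurableSet A) {z : E} (h : z ∈ A) : Rep A (Measure.dirac z) z :=
  ⟨inferInstance, (ae_dirac_iff hA).2 h, fun i => by simp⟩

open Classical in
noncomputable def sp (σ : ℝ) (z : E) : E := fun i =>
  match i with
  | inl k => z (inl k)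
  | inr s => if z (inl 1) = s ∧ z (inr s) = 0 then σ else z (inr s)

lemma sp_meas (σ : ℝ) : Measurable (sp σ) := by
  have c : ∀ i, Measurable fun z : E => z i := fun i => measurable_pi_apply i
  refine measurable_pi_lambda _ fun i => ?_
  rcases i with k | s
  · exact c _
  · exact Measurable.ite ((measurableSet_eq_fun (c _) measurable_const).inter
      (measurableSet_eq_fun (c _) measurable_const)) measurable_const (c _)

lemma sp_mem {σ : ℝ} (hσ : σ = 1 ∨ σ = -1) {z : E} (h : z ∈ T) : sp σ z ∈ Z := by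
  refine ⟨⟨h.1, h.2.1, fun s => ?_⟩, fun s hs => ?_⟩
  · simp only [sp]
    split_ifs with hh
    · exact Or.inr ⟨hh.1, hσ⟩
    · exact h.2.2 s
  · simp only [sp] at hs ⊢
    split_ifs with hh
    · rcases hσ with h | h <;> simp [h]
    · exact fun h0 => hh ⟨hs, h0⟩

lemma split {ξ : Measure E} {x : E} (h : Rep T ξ x) : ∃ η, Rep Z η x := by
  have := h.prob
  have r : ∀ σ : ℝ, σ = 1 ∨ σ = -1 → Rep Z (ξ.map (sp σ)) fun i => ∫ z, sp σ z i ∂ξ := fun σ hσ =>
    ⟨Measure.isProbabilityMeasure_map (sp_meas σ).aemeasurable,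
      (ae_map_iff (sp_meas σ).aemeasurable Z_meas).2 (h.ae.mono fun _ hz => sp_mem hσ hz),
      fun i => integral_map (sp_meas σ).aemeasurable (measurable_pi_apply i).aestronglyMeasurable⟩
  have g : ∀ σ : ℝ, σ = 1 ∨ σ = -1 → ∀ i, Integrable (fun z => sp σ z i) ξ := fun σ hσ i =>
    Integrable.of_bound ((measurable_pi_apply i).comp (sp_meas σ)).aestronglyMeasurable 1
      (h.ae.mono fun _ hz => T_bd (sp_mem hσ hz).1 i)
  have := Rep.comb (fun _ hz => hz.1) (r 1 (Or.inl rfl)) (r (-1) (Or.inr rfl)) (a := 1 / 2)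
    (b := 1 / 2) (by norm_num) (by norm_num) (by norm_num)
  refine ⟨_, this.prob, this.ae, fun i => (this.bary i).trans (Eq.symm ?_)⟩
  simp only [Pi.add_apply, Pi.smul_apply, smul_eq_mul]
  rw [← mul_add, ← integral_add (g 1 (Or.inl rfl) i) (g (-1) (Or.inr rfl) i), ← h.bary,
    ← integral_const_mul]
  congr 1
  funext z
  rcases i with k | s
  · simp only [sp]; ring
  · simp only [sp]
    split_ifs with hh
    · rw [hh.2]; ring
    · ring

lemma poly_eq {ξ : Measure E} {x : E} (h : Rep T ξ x) (p : Polynomial ℝ) :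
    Integrable (fun z : E => p.eval (z (inl 1))) ξ ∧
      ∫ z, p.eval (z (inl 1)) ∂ξ = p.sum fun k a => a * x (inl k) := by
  have := h.prob
  have e : (fun z : E => p.eval (z (inl 1))) =ᵐ[ξ]
      fun z => ∑ k ∈ p.support, p.coeff k * z (inl k) := by
    filter_upwards [h.ae] with z hz
    rw [Polynomial.eval_eq_sum, Polynomial.sum]
    exact Finset.sum_congr rfl fun k _ => by rw [hz.2.1 k]
  refine ⟨(integrable_finset_sum _ fun k _ => (intg h.ae _).const_mul _).congr e.symm, ?_⟩
  rw [integral_congr_ae e, integral_finset_sum _ fun k _ => (intg h.ae _).const_mul _]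
  exact Finset.sum_congr rfl fun k _ => by rw [integral_const_mul, h.bary]

lemma map_eq {ξ η : Measure E} {x : E} (h1 : Rep T ξ x) (h2 : Rep T η x) :
    ξ.map (fun z => z (inl 1)) = η.map fun z => z (inl 1) := by
  have := h1.prob
  have := h2.prob
  have c : Measurable fun z : E => z (inl 1) := measurable_pi_apply _
  refine ext_of_forall_integral_eq_of_IsFiniteMeasure fun f => ?_
  rw [integral_map c.aemeasurable f.continuous.aestronglyMeasurable,
    integral_map c.aemeasurable f.continuous.aestronglyMeasurable]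
  have key : ∀ {ν : Measure E}, Rep T ν x → ∀ (p : Polynomial ℝ) (ε : ℝ),
      (∀ y ∈ Icc (0 : ℝ) 1, |p.eval y - f y| < ε) →
      |(p.sum fun k a => a * x (inl k)) - ∫ z, f (z (inl 1)) ∂ν| ≤ ε := by
    intro ν h p ε hp
    have := h.prob
    have hf : Integrable (fun z : E => f (z (inl 1))) ν :=
      Integrable.of_bound (f.continuous.measurable.comp c).aestronglyMeasurable ‖f‖
        (Eventually.of_forall fun z => f.norm_coe_le_norm _)
    rw [← (poly_eq h p).2, ← integral_sub (poly_eq h p).1 hf]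
    have := norm_integral_le_of_norm_le_const (μ := ν) (C := ε)
      (f := fun z : E => p.eval (z (inl 1)) - f (z (inl 1)))
      (h.ae.mono fun z hz => (hp _ hz.1).le)
    simpa using this
  refine eq_of_forall_dist_le fun ε hε => ?_
  obtain ⟨p, hp⟩ := exists_polynomial_near_of_continuousOn 0 1 f f.continuous.continuousOn (ε / 2)
    (by positivity)
  have a := abs_le.1 (key h1 p _ hp)
  have b := abs_le.1 (key h2 p _ hp)
  rw [Real.dist_eq, abs_le]
  constructor <;> linarith [a.1, a.2, b.1, b.2]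

open Classical in
noncomputable def P (y c : ℝ) : E := fun i =>
  match i with
  | inl k => y ^ k
  | inr s => if y = s then c else 0

lemma P_cont : Continuous fun y => P y 0 := by
  refine continuous_pi fun i => ?_
  rcases i with k | s
  · exact continuous_pow k
  · simp only [P, ite_self]; exact continuous_const

def A (s : ℚ) (σ : ℝ) : Set E := {z | z (inl 1) = s ∧ z (inr s) = σ}

lemma A_meas (s : ℚ) (σ : ℝ) : MeasurableSet (A s σ) :=
  (measurableSet_eq_fun (measurable_pi_apply _) measurable_const).inter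
    (measurableSet_eq_fun (measurable_pi_apply _) measurable_const)

lemma A_eq {s : ℚ} {σ : ℝ} {z : E} (h : z ∈ T) (h' : z ∈ A s σ) : z = P s σ := by
  funext i
  rcases i with k | t
  · rw [h.2.1, h'.1]; rfl
  · simp only [P]
    split_ifs with hh
    · have : s = t := by exact_mod_cast hh
      rw [← this, h'.2]
    · exact (h.2.2 t).resolve_right fun h3 => hh (h'.1.symm.trans h3.1)

lemma mass {ξ : Measure E} {x : E} (h : Rep Z ξ x) (s : ℚ) :
    ξ.real (A s 1) - ξ.real (A s (-1)) = x (inr s) ∧
      ξ.real (A s 1) + ξ.real (A s (-1)) = (ξ.map fun z => z (inl 1)).real {(s : ℝ)} := by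
  have := h.prob
  have c : Measurable fun z : E => z (inl 1) := measurable_pi_apply _
  have i1 : ∀ σ, Integrable ((A s σ).indicator fun _ => (1 : ℝ)) ξ := fun σ =>
    (integrable_const _).indicator (A_meas s σ)
  have i2 : ∀ σ, ξ.real (A s σ) = ∫ z, (A s σ).indicator (fun _ => (1 : ℝ)) z ∂ξ := fun σ => by
    rw [integral_indicator (A_meas s σ)]; simp
  constructor
  · rw [i2, i2, ← integral_sub (i1 _) (i1 _), ← h.bary]
    refine integral_congr_ae (h.ae.mono fun z hz => ?_)
    rcases hz.1.2.2 s with h | ⟨h0, h | h⟩ <;> simp [A, indicator, *] <;> norm_num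
  · rw [map_measureReal_apply c (measurableSet_singleton _), ← measureReal_union _ (A_meas _ _)]
    · refine measureReal_congr (h.ae.mono fun z hz => propext ⟨?_, fun h0 => ?_⟩)
      · rintro (h | h) <;> exact h.1
      · rcases (hz.1.2.2 s).resolve_left (hz.2 s h0) with ⟨_, h | h⟩
        exacts [Or.inl ⟨h0, h⟩, Or.inr ⟨h0, h⟩]
    · rw [Set.disjoint_left]
      rintro z ⟨_, a⟩ ⟨_, b⟩
      rw [a] at b; norm_num at b

lemma uniq {ξ η : Measure E} {x : E} (h1 : Rep Z ξ x) (h2 : Rep Z η x) : ξ = η := by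
  have := h1.prob
  have := h2.prob
  have c : Measurable fun z : E => z (inl 1) := measurable_pi_apply _
  have hm := map_eq h1.toT h2.toT
  have hI : MeasurableSet {y : ℝ | Irrational y} := IsGδ.setOf_irrational.measurableSet
  let C : Option (Option (ℚ × Bool)) → Set E := fun o =>
    match o with
    | none => Zᶜ
    | some none => (fun z => z (inl 1)) ⁻¹' {y | Irrational y}
    | some (some p) => A p.1 (if p.2 then 1 else -1)
  refine (Measure.ext_iff_of_iUnion_eq_univ (s := C) ?_).2 ?_
  · rw [eq_univ_iff_forall]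
    intro z
    rw [mem_iUnion]
    by_cases hz : z ∈ Z
    · by_cases hi : Irrational (z (inl 1))
      · exact ⟨some none, hi⟩
      · obtain ⟨s, hs⟩ := not_not.1 hi
        rcases (hz.1.2.2 s).resolve_left (hz.2 s hs.symm) with ⟨h0, h | h⟩
        exacts [⟨some (some (s, true)), h0, h⟩, ⟨some (some (s, false)), h0, h⟩]
    · exact ⟨none, hz⟩
  rintro (_ | _ | ⟨s, b⟩)
  · exact (Measure.restrict_eq_zero.2 h1.ae).trans (Measure.restrict_eq_zero.2 h2.ae).symm
  · have key : ∀ {ν : Measure E}, Rep Z ν x → ν.restrict (C (some none)) =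
        (((ν.map fun z => z (inl 1)).restrict {y | Irrational y}).map fun y => P y 0) := by
      intro ν h
      rw [Measure.restrict_map c hI, Measure.map_map P_cont.measurable c]
      conv_lhs => rw [← Measure.map_id (μ := ν.restrict _)]
      refine Measure.map_congr ?_
      filter_upwards [ae_restrict_of_ae h.ae, ae_restrict_mem (c hI)] with z hz hi
      funext i
      rcases i with k | t
      · exact hz.1.2.1 k
      · simp only [P, Function.comp, ite_self, id]
        exact (hz.1.2.2 t).resolve_right fun h3 => hi ⟨t, h3.1.symm⟩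
    rw [key h1, key h2, hm]
  · have key : ∀ {ν : Measure E}, Rep Z ν x → ∀ σ, ν.restrict (A s σ) =
        ν (A s σ) • Measure.dirac (P s σ) := by
      intro ν h σ
      conv_lhs => rw [← Measure.map_id (μ := ν.restrict _)]
      rw [Measure.map_congr (g := fun _ => P s σ), Measure.map_const, Measure.restrict_apply_univ]
      filter_upwards [ae_restrict_of_ae h.ae, ae_restrict_mem (A_meas s σ)] with z hz hi
      exact A_eq hz.1 hi
    have m1 := mass h1 s
    have m2 := mass h2 s
    rw [hm] at m1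
    simp only [C]
    rw [key h1, key h2]
    congr 1
    rw [← measureReal_eq_measureReal_iff]
    cases b <;> simp only [if_true, Bool.false_eq_true, if_false] <;>
      linarith [m1.1, m1.2, m2.1, m2.2]

end Pool.Agent.H51.PorcA
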