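import Pool.Agent.H51.PorcA

set_option autoImplicit false

namespace Pool.Agent.H51.PorcB

open MeasureTheory Set Filter Topology Sum Pool.Agent.H51.PorcA ProbabilityTheory

def K : Set E := {x | ∃ ξ, Rep T ξ x}

lemma K_convex : Convex ℝ K := fun _ ⟨_, h1⟩ _ ⟨_, h2⟩ _ _ ha hb hab =>
  ⟨_, Rep.comb subset_rfl h1 h2 ha hb hab⟩

lemma T_sub : T ⊆ K := fun _ hz => ⟨_, rep_dirac T_closed.measurableSet hz⟩

lemma K_compact : IsCompact K := by
  haveI : CompactSpace T := isCompact_iff_compactSpace.1 T_compact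
  have me := MeasurableEmbedding.subtype_coe T_closed.measurableSet
  have hc : Continuous fun ν : ProbabilityMeasure T => (fun i => ∫ z : T, z.1 i ∂(ν : Measure T) : E) :=
    continuous_pi fun i => ProbabilityMeasure.continuous_integral_continuousMap
      (⟨fun z => z.1 i, (continuous_apply i).comp continuous_subtype_val⟩ : C(T, ℝ))
  convert isCompact_range hc
  ext x
  constructor
  · rintro ⟨ξ, h⟩
    have := h.prob
    have e : (ξ.comap ((↑) : T → E)).map (↑) = ξ := by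
      rw [map_comap_subtype_coe T_closed.measurableSet, Measure.restrict_eq_self_of_ae_mem h.ae]
    refine ⟨⟨ξ.comap (↑), ⟨?_⟩⟩, funext fun i => ?_⟩
    · rw [← preimage_univ (f := ((↑) : T → E)), ← me.map_apply, e, measure_univ]
    · rw [← h.bary]
      conv_rhs => rw [← e, me.integral_map]
      rfl
  · rintro ⟨ν, rfl⟩
    exact ⟨(ν : Measure T).map (↑), Measure.isProbabilityMeasure_map me.measurable.aemeasurable,
      me.ae_map_iff.2 (Eventually.of_forall fun z => z.2), fun i => me.integral_map _⟩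

lemma ext_eq : K.extremePoints ℝ = Z := by
  ext x
  constructor
  · rintro ⟨⟨ξ0, h0⟩, hx⟩
    obtain ⟨ξ, h⟩ := split h0
    have := h.prob
    have r : ∀ B : Set E, ξ B ≠ 0 → Rep Z ξ[|B] fun i => ∫ z, z i ∂ξ[|B] := fun B hB =>
      ⟨cond_isProbabilityMeasure hB, cond_absolutelyContinuous.ae_le h.ae, fun _ => rfl⟩
    haveI : IsZeroOneMeasure ξ := ⟨fun B hB => by
      by_contra hc
      push Not at hc
      have hc' : ξ Bᶜ ≠ 0 := fun h0 => hc.2 ((prob_compl_eq_zero_iff hB).1 h0)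
      have p1 : 0 < ξ.real B := ENNReal.toReal_pos hc.1 (measure_ne_top _ _)
      have p2 : 0 < ξ.real Bᶜ := ENNReal.toReal_pos hc' (measure_ne_top _ _)
      have p3 : ξ.real B + ξ.real Bᶜ = 1 := by rw [measureReal_add_measureReal_compl hB]; simp
      have cb := Rep.comb (fun _ hz => hz.1) (r B hc.1) (r Bᶜ hc') p1.le p2.le p3
      have e : ENNReal.ofReal (ξ.real B) • ξ[|B] + ENNReal.ofReal (ξ.real Bᶜ) • ξ[|Bᶜ] = ξ := by
        simp only [ofReal_measureReal (measure_ne_top ξ _), ProbabilityTheory.cond, smul_smul]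
        rw [ENNReal.mul_inv_cancel hc.1 (measure_ne_top _ _),
          ENNReal.mul_inv_cancel hc' (measure_ne_top _ _), one_smul, one_smul,
          Measure.restrict_add_restrict_compl hB]
      rw [e] at cb
      have e2 := hx ⟨_, (r B hc.1).toT⟩ ⟨_, (r Bᶜ hc').toT⟩
        ⟨_, _, p1, p2, p3, funext fun i => (cb.bary i).symm.trans (h.bary i)⟩
      have r1 := r B hc.1
      rw [e2] at r1
      have := cond_apply_self hc.1 (measure_ne_top ξ B)
      rw [uniq r1 h] at this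
      exact hc.2 this⟩
    obtain ⟨z, rfl⟩ := IsZeroOneMeasure.exists_eq_dirac (μ := ξ)
    have e : z = x := funext fun i => by simpa using h.bary i
    exact e ▸ (ae_dirac_iff Z_meas).1 h.ae
  · intro hx
    refine ⟨T_sub hx.1, ?_⟩
    rintro u ⟨_, hu0⟩ w ⟨_, hw0⟩ ⟨a, b, ha, hb, hab, e⟩
    obtain ⟨ξ, hu⟩ := split hu0
    obtain ⟨η, hw⟩ := split hw0
    have := hu.prob
    have cb := Rep.comb (fun _ hz => hz.1) hu hw ha.le hb.le hab
    rw [e] at cb
    have h1 : ∀ᵐ z ∂(ENNReal.ofReal a • ξ + ENNReal.ofReal b • η), z = x := by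
      rw [uniq cb (rep_dirac Z_meas hx)]
      exact (ae_dirac_iff (measurableSet_singleton x)).2 rfl
    rw [ae_add_measure_iff, Measure.ae_ennreal_smul_measure_iff (by simpa using ha)] at h1
    funext i
    rw [← hu.bary, integral_congr_ae (h1.1.mono fun z hz => congrFun hz i)]
    simp

lemma clm (l : E →L[ℝ] ℝ) : ∃ s : Finset (ℕ ⊕ ℚ), ∀ z : E,
    l z = ∑ i ∈ s, z i * l (Pi.single i 1) := by
  classical
  have h : l ⁻¹' Metric.ball 0 1 ∈ 𝓝 (0 : E) :=
    l.continuous.continuousAt.preimage_mem_nhds (by simpa using Metric.ball_mem_nhds (0 : ℝ) one_pos)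
  rw [nhds_pi, Filter.mem_pi] at h
  obtain ⟨I, hI, t, ht, h⟩ := h
  have k : ∀ z : E, (∀ i ∈ I, z i = 0) → l z = 0 := by
    intro z hz
    by_contra h0
    have := h (a := (l z)⁻¹ • z) fun i hi => by
      simpa [hz i hi] using mem_of_mem_nhds (ht i)
    simp [h0] at this
  refine ⟨hI.toFinset, fun z => ?_⟩
  have := k (z - ∑ i ∈ hI.toFinset, z i • Pi.single i 1) fun i hi => by
    simp [Finset.sum_apply, Pi.single_apply, hi]
  rw [map_sub, map_sum, sub_eq_zero] at this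
  simpa using this

lemma rep_iff {ξ : Measure E} [IsProbabilityMeasure ξ] (h : ∀ᵐ z ∂ξ, z ∈ Z) (x : E) :
    (∀ l : E →L[ℝ] ℝ, ∫ z, l z ∂ξ = l x) ↔ Rep Z ξ x := by
  refine ⟨fun h2 => ⟨inferInstance, h, fun i => h2 (ContinuousLinearMap.proj i)⟩, fun h2 l => ?_⟩
  obtain ⟨s, hs⟩ := clm l
  rw [hs x, show (fun z => l z) = _ from funext hs]
  rw [integral_finset_sum _ fun i _ => (intg h2.toT.ae i).mul_const _]
  exact Finset.sum_congr rfl fun i _ => by rw [integral_mul_const, h2.bary]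

lemma P_T {y c : ℝ} (hy : y ∈ Icc (0 : ℝ) 1) (hc : c = 0 ∨ c = 1 ∨ c = -1) : P y c ∈ T := by
  refine ⟨by simpa [P] using hy, fun k => by simp [P], fun s => ?_⟩
  simp only [P, pow_one]
  split_ifs with h
  · exact hc.imp_right fun h' => ⟨h, h'⟩
  · exact Or.inl rfl

lemma P_Z {s : ℚ} {c : ℝ} (hy : (s : ℝ) ∈ Icc (0 : ℝ) 1) (hc : c = 1 ∨ c = -1) : P s c ∈ Z := by
  refine ⟨P_T hy (Or.inr hc), fun t ht => ?_⟩
  simp only [P, pow_one] at ht ⊢
  rw [if_pos ht]
  rcases hc with h | h <;> simp [h]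

lemma P_Z' {y : ℝ} (hy : y ∈ Icc (0 : ℝ) 1) (hi : Irrational y) : P y 0 ∈ Z :=
  ⟨P_T hy (Or.inl rfl), fun t ht => absurd ⟨t, by simpa [P] using ht.symm⟩ hi⟩

end Pool.Agent.H51.PorcB
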