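import Mathlib

set_option autoImplicit false

namespace Pool.Agent.H51.ProDisc

open Filter Topology

section fg
variable {Q : Type} [AddCommGroup Q] [Module.Finite ℤ Q]

theorem fin_sep : {x : Q | ∀ f : Q →ₗ[ℤ] ℤ, f x = 0}.Finite := by
  have h1 : Finite (Submodule.torsion ℤ Q) :=
    Module.finite_of_fg_torsion _ (Submodule.torsion_isTorsion)
  refine (Set.toFinite (Submodule.torsion ℤ Q : Set Q)).subset fun x hx => ?_
  have : (Submodule.torsion ℤ Q).mkQ x = 0 :=
    (Module.forall_dual_apply_eq_zero_iff ℤ _).1 fun f => hx (f.comp (Submodule.torsion ℤ Q).mkQ)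
  simpa using this

theorem eval_surj (ψ : (Q →ₗ[ℤ] ℤ) →ₗ[ℤ] ℤ) : ∃ x, ∀ f : Q →ₗ[ℤ] ℤ, f x = ψ f := by
  obtain ⟨y, hy⟩ := (Module.bijective_dual_eval ℤ (Q ⧸ Submodule.torsion ℤ Q)).2
    (ψ.comp (Submodule.torsion ℤ Q).mkQ.dualMap)
  obtain ⟨x, rfl⟩ := (Submodule.torsion ℤ Q).mkQ_surjective y
  refine ⟨x, fun f => ?_⟩
  have hf : Submodule.torsion ℤ Q ≤ LinearMap.ker f := by
    rintro z ⟨⟨n, hn⟩, hz⟩
    have := congrArg f hz
    simp only [Submonoid.mk_smul, map_smul, smul_eq_mul, map_zero, mul_eq_zero] at this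
    exact this.resolve_left (nonZeroDivisors.ne_zero hn)
  have := LinearMap.congr_fun hy ((Submodule.torsion ℤ Q).liftQ f hf)
  simp only [Module.Dual.eval_apply, Submodule.mkQ_apply, Submodule.liftQ_apply,
    LinearMap.comp_apply, LinearMap.dualMap_apply', Submodule.liftQ_mkQ] at this
  exact this

end fg

theorem hump {A ι : Type} [AddCommGroup A] (r : A →ₗ[ℤ] (ι →₀ ℤ)) (hr : Function.Injective r)
    (hA : ¬ Module.Finite ℤ A) (M : A → ℤ) : ∃ φ : A →ₗ[ℤ] ℤ, ∀ n : ℕ, ∃ f, n * M f < |φ f| := by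
  classical
  have step : ∀ (n : ℕ) (p : Finset ι × (ι → ℤ)), ∃ p' : Finset ι × (ι → ℤ),
      p.1 ⊆ p'.1 ∧ (∀ j ∈ p.1, p'.2 j = p.2 j) ∧
      ∃ f, (r f).support ⊆ p'.1 ∧ n * M f < |Finsupp.linearCombination ℤ p'.2 (r f)| := by
    rintro n ⟨F, c⟩
    obtain ⟨f, j, hj, hf⟩ : ∃ f, ∃ j ∉ F, r f j ≠ 0 := by
      by_contra hc
      simp only [not_exists, not_and, not_not] at hc
      apply hA
      refine Module.Finite.of_injective
        (LinearMap.pi fun j : F => (Finsupp.lapply (j : ι)).comp r) fun f g h => hr ?_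
      ext j
      by_cases hj : j ∈ F
      · exact congrFun h ⟨j, hj⟩
      · rw [hc f j hj, hc g j hj]
    set s := Finsupp.linearCombination ℤ c (r f)
    refine ⟨(F ∪ (r f).support, c + Pi.single j (|n * M f| + |s| + 1)), Finset.subset_union_left,
      fun i hi => ?_, f, Finset.subset_union_right, ?_⟩
    · have : i ≠ j := fun h => hj (h ▸ hi)
      simp [this]
    · have e : Finsupp.linearCombination ℤ (c + Pi.single j (|n * M f| + |s| + 1)) (r f) =
          s + r f j * (|n * M f| + |s| + 1) := by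
        simp only [s, Finsupp.linearCombination_apply, Finsupp.sum, Pi.add_apply, smul_eq_mul,
          mul_add (r f _) (c _), Finset.sum_add_distrib]
        congr 1
        rw [Finset.sum_eq_single j]
        · simp
        · intro i _ hi; simp [hi]
        · intro h; exact absurd (Finsupp.mem_support_iff.2 hf) h
      refine lt_of_lt_of_eq ?_ (congrArg abs e.symm)
      have h1 : 1 ≤ |r f j| := Int.one_le_abs hf
      have h2 := abs_nonneg (n * M f)
      have h3 := abs_nonneg s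
      have h4 := le_abs_self (n * M f)
      have h5 := abs_sub (s + r f j * (|n * M f| + |s| + 1)) s
      rw [add_sub_cancel_left, abs_mul, abs_of_nonneg (show 0 ≤ |n * M f| + |s| + 1 by omega)] at h5
      nlinarith
  choose nx h1 h2 h3 using step
  let P : ℕ → Finset ι × (ι → ℤ) := fun n => Nat.rec (∅, 0) nx n
  have hP : ∀ n m, n ≤ m → (P n).1 ⊆ (P m).1 ∧ ∀ j ∈ (P n).1, (P m).2 j = (P n).2 j := by
    intro n m h
    induction h with
    | refl => exact ⟨subset_rfl, fun _ _ => rfl⟩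
    | step _ ih =>
      exact ⟨ih.1.trans (h1 _ _), fun j hj => (h2 _ _ j (ih.1 hj)).trans (ih.2 j hj)⟩
  let c : ι → ℤ := fun j => if h : ∃ n, j ∈ (P n).1 then (P (Nat.find h)).2 j else 0
  have hc : ∀ n, ∀ j ∈ (P n).1, c j = (P n).2 j := by
    intro n j hj
    have h : ∃ n, j ∈ (P n).1 := ⟨n, hj⟩
    simp only [c, dif_pos h]
    exact ((hP _ _ (Nat.find_min' h hj)).2 j (Nat.find_spec h)).symm
  refine ⟨(Finsupp.linearCombination ℤ c).comp r, fun n => ?_⟩
  obtain ⟨f, a1, a2⟩ := h3 n (P n)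
  refine ⟨f, ?_⟩
  convert a2 using 2
  simp only [LinearMap.comp_apply, Finsupp.linearCombination_apply, Finsupp.sum]
  exact Finset.sum_congr rfl fun j hj => by rw [hc (n + 1) j (a1 hj)]

variable {G : Type} [AddCommGroup G] [UniformSpace G] [IsUniformAddGroup G]

theorem fg_quot {K : Set G} (hK : IsCompact K) (hc : AddSubgroup.closure K = ⊤)
    (N : OpenAddSubgroup G) : Module.Finite ℤ (G ⧸ N.toAddSubgroup) := by
  haveI := QuotientAddGroup.discreteTopology N.isOpen
  rw [Module.Finite.iff_addGroup_fg, AddGroup.fg_iff]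
  refine ⟨QuotientAddGroup.mk' _ '' K, ?_,
    (hK.image QuotientAddGroup.continuous_mk).finite_of_discrete⟩
  rw [← AddMonoidHom.map_closure, hc]
  exact AddSubgroup.map_top_of_surjective _ (QuotientAddGroup.mk'_surjective _)

/-- Pulling back functionals from a discrete quotient. -/
def pull (N : OpenAddSubgroup G) : (G ⧸ N.toAddSubgroup →ₗ[ℤ] ℤ) →ₗ[ℤ] (G →L[ℤ] ℤ) where
  toFun h := ⟨h.comp (QuotientAddGroup.mk' N.toAddSubgroup).toIntLinearMap, by
    haveI := QuotientAddGroup.discreteTopology N.isOpen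
    exact (continuous_of_discreteTopology (f := h)).comp QuotientAddGroup.continuous_mk⟩
  map_add' _ _ := rfl
  map_smul' _ _ := rfl

theorem pull_apply (N : OpenAddSubgroup G) (h : G ⧸ N.toAddSubgroup →ₗ[ℤ] ℤ) (x : G) :
    pull N h x = h (QuotientAddGroup.mk x) := rfl

theorem rep {K : Set G} (hK : IsCompact K) (hc : AddSubgroup.closure K = ⊤)
    (φ : (G →L[ℤ] ℤ) →ₗ[ℤ] ℤ) (N : OpenAddSubgroup G) :
    ∃ g, ∀ f : G →L[ℤ] ℤ, (∀ x ∈ N, f x = 0) → f g = φ f := by
  haveI := fg_quot hK hc N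
  obtain ⟨q, hq⟩ := eval_surj (φ.comp (pull N))
  obtain ⟨g, rfl⟩ := QuotientAddGroup.mk_surjective q
  refine ⟨g, fun f hf => ?_⟩
  have := hq (QuotientAddGroup.lift N.toAddSubgroup f.toLinearMap.toAddMonoidHom hf).toIntLinearMap
  exact this

/-- The kernel of a continuous functional. -/
def kerO (f : G →L[ℤ] ℤ) : OpenAddSubgroup G :=
  ⟨f.toLinearMap.toAddMonoidHom.ker, (isOpen_discrete ({0} : Set ℤ)).preimage f.continuous⟩

theorem surj [CompleteSpace G] [NonarchimedeanAddGroup G] {K : Set G} (hK : IsCompact K)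
    (hc : AddSubgroup.closure K = ⊤) (φ : (G →L[ℤ] ℤ) →ₗ[ℤ] ℤ) : ∃ g, ∀ f : G →L[ℤ] ℤ, f g = φ f := by
  choose g hg using rep hK hc φ
  let 𝒰 : Ultrafilter (OpenAddSubgroup G) := Ultrafilter.of atBot
  have hU : ∀ U : OpenAddSubgroup G, ∀ᶠ N in (𝒰 : Filter _), N ≤ U := fun U =>
    Ultrafilter.of_le atBot (eventually_le_atBot U)
  have hcau : Cauchy (map g 𝒰) := by
    rw [IsUniformAddGroup.cauchy_map_iff_tendsto]
    refine ⟨inferInstance, fun s hs => ?_⟩
    obtain ⟨U, hUs⟩ := NonarchimedeanAddGroup.is_nonarchimedean s hs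
    haveI := fg_quot hK hc U
    obtain ⟨q, -, hq⟩ := Ultrafilter.eq_pure_of_finite_mem
      (f := 𝒰.map fun N => (QuotientAddGroup.mk (g N - g U) : G ⧸ U.toAddSubgroup))
      (fin_sep (Q := G ⧸ U.toAddSubgroup)) (by
        refine (hU U).mono fun N hN h => ?_
        have h0 : ∀ x ∈ U, pull U h x = 0 := fun x hx => by
          rw [pull_apply, (QuotientAddGroup.eq_zero_iff x).2 hx, map_zero]
        rw [← pull_apply, map_sub, hg N _ fun x hx => h0 x (hN hx), hg U _ h0, sub_self])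
    have hq' : ∀ᶠ N in (𝒰 : Filter _),
        (QuotientAddGroup.mk (g N - g U) : G ⧸ U.toAddSubgroup) = q := by
      have : {q} ∈ 𝒰.map fun N => (QuotientAddGroup.mk (g N - g U) : G ⧸ U.toAddSubgroup) := by
        rw [hq]; simp
      exact this
    refine mem_map.2 (mem_of_superset (prod_mem_prod hq' hq') fun p hp => hUs ?_)
    have h1 : (QuotientAddGroup.mk (g p.2 - g U) : G ⧸ U.toAddSubgroup) =
        QuotientAddGroup.mk (g p.1 - g U) := hp.2.trans hp.1.symm
    rw [QuotientAddGroup.eq] at h1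
    have e : g p.1 - g p.2 = -(g p.2 - g U) + (g p.1 - g U) := by abel
    change g p.1 - g p.2 ∈ U.toAddSubgroup
    rw [e]
    exact h1
  obtain ⟨x, hx⟩ := CompleteSpace.complete hcau
  refine ⟨x, fun f => ?_⟩
  have h1 : Tendsto (fun N => f (g N)) 𝒰 (𝓝 (f x)) := (f.continuous.tendsto x).comp hx
  refine tendsto_nhds_unique h1 (tendsto_const_nhds.congr' ?_)
  exact (hU (kerO f)).mono fun N hN => (hg N f fun x hx => hN hx).symm

omit [IsUniformAddGroup G] in
theorem bound {K : Set G} (hc : AddSubgroup.closure K = ⊤) (g : G) :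
    ∃ n : ℕ, ∀ (f : G →L[ℤ] ℤ) (M : ℤ), (∀ k ∈ K, |f k| ≤ M) → |f g| ≤ n * M := by
  have hg : g ∈ AddSubgroup.closure K := hc ▸ AddSubgroup.mem_top g
  induction hg using AddSubgroup.closure_induction with
  | mem x hx => exact ⟨1, fun f M h => by simpa using h x hx⟩
  | zero => exact ⟨0, fun f M h => by simp⟩
  | add x y _ _ hx hy =>
    obtain ⟨n, hn⟩ := hx
    obtain ⟨m, hm⟩ := hy
    refine ⟨n + m, fun f M h => ?_⟩
    have := abs_add_le (f x) (f y)
    have := hn f M h
    have := hm f M h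
    rw [map_add]
    push_cast
    linarith
  | neg x _ hx =>
    obtain ⟨n, hn⟩ := hx
    exact ⟨n, fun f M h => by simpa using hn f M h⟩

theorem dual_fin [T2Space G] [CompleteSpace G] [NonarchimedeanAddGroup G] {K : Set G}
    (hK : IsCompact K) (hc : AddSubgroup.closure K = ⊤) : Module.Finite ℤ (G →L[ℤ] ℤ) := by
  by_contra hA
  haveI : CompactSpace K := isCompact_iff_compactSpace.1 hK
  haveI : Module.Free ℤ (LocallyConstant K ℤ) := LocallyConstant.freeOfProfinite (Profinite.of K)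
  let res : (G →L[ℤ] ℤ) →ₗ[ℤ] LocallyConstant K ℤ :=
    { toFun := fun f => ⟨fun k => f k, (IsLocallyConstant.iff_continuous _).2
        (f.continuous.comp continuous_subtype_val)⟩
      map_add' := fun _ _ => rfl
      map_smul' := fun _ _ => rfl }
  have hM : ∀ f : G →L[ℤ] ℤ, ∃ M : ℤ, ∀ k ∈ K, |f k| ≤ M := by
    intro f
    obtain ⟨M, hM⟩ := (hK.image (continuous_abs.comp f.continuous)).finite_of_discrete.bddAbove
    exact ⟨M, fun k hk => hM ⟨k, hk, rfl⟩⟩
  choose M hM using hM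
  obtain ⟨φ, hφ⟩ := hump ((Module.Free.chooseBasis ℤ (LocallyConstant K ℤ)).repr.toLinearMap.comp res)
    ((LinearEquiv.injective _).comp ((injective_iff_map_eq_zero res).2 fun f hf => by
      ext g
      obtain ⟨n, hn⟩ := bound hc g
      have := hn f 0 fun k hk => by
        have : f k = 0 := congrArg (fun u : LocallyConstant K ℤ => u ⟨k, hk⟩) hf
        simp [this]
      simpa using this)) hA M
  obtain ⟨g, hg⟩ := surj hK hc φ
  obtain ⟨n, hn⟩ := bound hc g
  obtain ⟨f, hf⟩ := hφ n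
  have := hn f _ (hM f)
  rw [hg] at this
  omega

theorem main [T2Space G] [CompleteSpace G]
    (h1 : ∀ s ∈ nhds (0 : G), ∃ U : AddSubgroup G, IsOpen (U : Set G) ∧ (U : Set G) ⊆ s)
    {K : Set G} (hK : IsCompact K) (hc : AddSubgroup.closure K = ⊤)
    (h3 : ∀ H : AddSubgroup G, IsCompact (H : Set G) → H = ⊥) :
    DiscreteTopology G ∧ ∃ n : ℕ, Nonempty (G ≃+ (Fin n → ℤ)) := by
  haveI : NonarchimedeanAddGroup G := ⟨fun s hs => by
    obtain ⟨U, a, b⟩ := h1 s hs
    exact ⟨⟨U, a⟩, b⟩⟩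
  let N : AddSubgroup G := ⨅ f : G →L[ℤ] ℤ, f.toLinearMap.toAddMonoidHom.ker
  have hN : ∀ x, x ∈ N ↔ ∀ f : G →L[ℤ] ℤ, f x = 0 := fun x => AddSubgroup.mem_iInf
  have hopen : IsOpen (N : Set G) := by
    obtain ⟨s, hs⟩ := (dual_fin hK hc).fg_top
    have : (N : Set G) = ⋂ f ∈ s, (kerO f : Set G) := by
      ext x
      simp only [SetLike.mem_coe, hN, Set.mem_iInter]
      refine ⟨fun h f _ => h f, fun h f => ?_⟩
      have hf : f ∈ Submodule.span ℤ (s : Set (G →L[ℤ] ℤ)) := hs ▸ Submodule.mem_top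
      induction hf using Submodule.span_induction with
      | mem f hf => exact h f hf
      | zero => rfl
      | add f g _ _ a b => simp [a, b]
      | smul c f _ a => simp [a]
    rw [this]
    exact isOpen_biInter_finset fun f _ => (kerO f).isOpen
  have hbot : N = ⊥ := by
    refine h3 N (isCompact_iff_totallyBounded_isComplete.2 ⟨?_, ?_⟩)
    · refine totallyBounded_iff_subset_finite_iUnion_nhds_zero.2 fun s hs => ?_
      obtain ⟨U, hUs⟩ := NonarchimedeanAddGroup.is_nonarchimedean s hs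
      haveI := fg_quot hK hc U
      refine ⟨_, (fin_sep (Q := G ⧸ U.toAddSubgroup)).image Quotient.out, fun x hx => ?_⟩
      refine Set.mem_biUnion ⟨QuotientAddGroup.mk x, fun h => (hN x).1 hx (pull U h), rfl⟩ ?_
      refine ⟨-(QuotientAddGroup.mk x : G ⧸ U.toAddSubgroup).out + x, hUs ?_, by simp⟩
      exact QuotientAddGroup.eq.1 (QuotientAddGroup.out_eq' _)
    · exact (N.isClosed_of_isOpen hopen).isComplete
  haveI hd : DiscreteTopology G := by
    rw [discreteTopology_iff_isOpen_singleton_zero]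
    simpa [hbot] using hopen
  refine ⟨hd, ?_⟩
  haveI : Module.Finite ℤ G := by
    rw [Module.Finite.iff_addGroup_fg, AddGroup.fg_iff]
    exact ⟨K, hc, hK.finite_of_discrete⟩
  haveI : Module.IsTorsionFree ℤ G := by
    refine Module.IsTorsionFree.of_smul_eq_zero fun n x h => ?_
    by_cases hn : n = 0
    · exact Or.inl hn
    · right
      rw [← AddSubgroup.mem_bot, ← hbot, hN]
      intro f
      have := congrArg f h
      rw [map_smul, map_zero, smul_eq_mul] at this
      exact (mul_eq_zero.1 this).resolve_left hn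
  exact ⟨_, ⟨(Module.finBasis ℤ G).equivFun.toAddEquiv⟩⟩

end Pool.Agent.H51.ProDisc
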