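import Mathlib
import Pool.Agent.H51.ProperCert

set_option autoImplicit false

namespace Pool.Agent.H51.ProperA

open SimpleGraph Pool.Agent.H51.ProperCert

lemma seqWalk {V : Type} (G : SimpleGraph V) : ∀ (n : ℕ) (g : ℕ → V),
    (∀ i < n, G.Adj (g i) (g (i + 1))) →
    ∃ w : G.Walk (g 0) (g n), w.support = (List.range (n + 1)).map g ∧ w.length = n ∧
      ∀ i < n, s(g i, g (i + 1)) ∈ w.edges := by
  intro n
  induction n with
  | zero => intro g _; exact ⟨Walk.nil, by simp, rfl, by simp⟩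
  | succ n ih =>
    intro g h
    obtain ⟨w, hs, hl, he⟩ := ih (fun i => g (i + 1)) (fun i hi => h (i + 1) (by omega))
    refine ⟨Walk.cons (h 0 (by omega)) w, ?_, by simp [hl], ?_⟩
    · rw [Walk.support_cons, hs, List.range_succ_eq_map (n := n + 1)]
      simp [Function.comp_def]
    · intro i hi
      rw [Walk.edges_cons]
      rcases i with _ | i
      · exact List.mem_cons_self
      · exact List.mem_cons_of_mem _ (he i (by omega))

lemma seqCycle {V : Type} (G : SimpleGraph V) (L : ℕ) (hL : 3 ≤ L) (g : ℕ → V)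
    (h : ∀ i < L, G.Adj (g i) (g (i + 1))) (hend : g L = g 0)
    (hinj : ∀ i < L, ∀ j < L, g i = g j → i = j) :
    ∃ c : G.Walk (g 0) (g 0), c.IsCycle ∧ c.length = L ∧
      ∀ i < L, s(g i, g (i + 1)) ∈ c.edges := by
  obtain ⟨k, rfl⟩ : ∃ k, L = k + 1 := ⟨L - 1, by omega⟩
  obtain ⟨w, hs, hl, he⟩ := seqWalk G k (fun i => g (i + 1)) (fun i hi => h (i + 1) (by omega))
  refine ⟨Walk.cons (h 0 (by omega)) (w.copy rfl hend), ?_, by simp [hl], ?_⟩
  · rw [Walk.isCycle_iff_isPath_tail_and_le_length]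
    refine ⟨?_, by simp [hl]; omega⟩
    simp only [Walk.getVert_cons_succ, Walk.tail_cons, Walk.isPath_copy]
    rw [Walk.isPath_def, hs]
    refine List.Nodup.map_on ?_ List.nodup_range
    intro a ha b hb hab
    rw [List.mem_range] at ha hb
    by_cases h1 : a = k <;> by_cases h2 : b = k
    · omega
    · subst h1
      have := hinj 0 (by omega) (b + 1) (by omega) (hend.symm.trans hab)
      omega
    · subst h2
      have := hinj (a + 1) (by omega) 0 (by omega) (hab.trans hend)
      omega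
    · have := hinj (a + 1) (by omega) (b + 1) (by omega) hab
      omega
  · intro i hi
    rw [Walk.edges_cons, Walk.edges_copy]
    rcases i with _ | i
    · exact List.mem_cons_self
    · exact List.mem_cons_of_mem _ (he i (by omega))

/-- vertex `m` read modulo `40 (t + 2)` -/
def vx (t m : ℕ) : Fin (40 * (t + 2)) := ⟨m % (40 * (t + 2)), Nat.mod_lt _ (by omega)⟩

def ES (t : ℕ) : Finset (Sym2 (Fin (40 * (t + 2)))) :=
  ((Finset.range (t + 2)) ×ˢ EH.toFinset).image
    fun q => s(vx t (40 * q.1 + q.2.1), vx t (40 * q.1 + q.2.2))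

def GG (t : ℕ) : SimpleGraph (Fin (40 * (t + 2))) := fromEdgeSet (ES t)

lemma vx_inj (t c a b : ℕ) (ha : a < 40 * (t + 2)) (hb : b < 40 * (t + 2))
    (h : vx t (c + a) = vx t (c + b)) : a = b := by
  have h1 : (c + a) % (40 * (t + 2)) = (c + b) % (40 * (t + 2)) := congrArg Fin.val h
  have h2 : a ≡ b [MOD 40 * (t + 2)] := Nat.ModEq.add_left_cancel' c h1
  exact Nat.ModEq.eq_of_lt_of_lt h2 ha hb

lemma vx_mod (t j x : ℕ) : vx t (40 * j + x) = vx t (40 * (j % (t + 2)) + x) := by
  apply Fin.ext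
  show (40 * j + x) % (40 * (t + 2)) = (40 * (j % (t + 2)) + x) % (40 * (t + 2))
  have : 40 * j + x = 40 * (j % (t + 2)) + x + 40 * (t + 2) * (j / (t + 2)) := by
    have := Nat.mod_add_div j (t + 2)
    calc 40 * j + x = 40 * (j % (t + 2) + (t + 2) * (j / (t + 2))) + x := by rw [this]
      _ = _ := by ring
  rw [this, Nat.add_mul_mod_self_left]

lemma adj_EH (t j x y : ℕ) (h : (x, y) ∈ EH) : (GG t).Adj (vx t (40 * j + x)) (vx t (40 * j + y)) := by
  have hl := EH_lt _ h
  simp only at hl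
  rw [GG, fromEdgeSet_adj]
  refine ⟨?_, fun e => ?_⟩
  · rw [vx_mod t j x, vx_mod t j y]
    simp only [ES, Finset.coe_image]
    exact ⟨(j % (t + 2), (x, y)), by
      simp only [Finset.coe_product, Set.mem_prod, Finset.mem_coe, Finset.mem_range,
        List.mem_toFinset]
      exact ⟨Nat.mod_lt _ (by omega), h⟩, rfl⟩
  · have := vx_inj t _ x y (by omega) (by omega) e
    omega

lemma adj_ad (t j x y : ℕ) (hx : x ≤ 40) (hy : y ≤ 40) (h : ad x y = true) :
    (GG t).Adj (vx t (40 * j + x)) (vx t (40 * j + y)) := by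
  have := ad_spec
  simp only [List.all_eq_true, List.mem_range] at this
  have h2 := this x (by omega) y (by omega)
  rw [h] at h2
  simp only [Bool.not_true, Bool.false_or, Bool.or_eq_true, decide_eq_true_eq] at h2
  rcases h2 with h2 | h2
  · exact adj_EH t j x y h2
  · exact (adj_EH t j y x h2).symm

lemma inj_spec (N L : ℕ) (h : inj N L = true) :
    (∀ i < L, dg N i ≤ 40) ∧ ∀ i < L, ∀ j < L, dg N i = dg N j → i = j := by
  simp only [inj, List.all_eq_true, List.mem_range, Bool.and_eq_true, decide_eq_true_eq,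
    bne_iff_ne] at h
  refine ⟨fun i hi => (h i hi).1, fun i hi j hj e => ?_⟩
  rcases lt_trichotomy i j with h1 | h1 | h1
  · exact absurd e.symm ((h j hj).2 i h1)
  · exact h1
  · exact absurd e ((h i hi).2 j h1)

lemma edge_mem (t : ℕ) (e : Sym2 (Fin (40 * (t + 2)))) (he : e ∈ (GG t).edgeSet) :
    ∃ j, ∃ p ∈ EH, e = s(vx t (40 * j + p.1), vx t (40 * j + p.2)) := by
  rw [GG, edgeSet_fromEdgeSet] at he
  have h1 := he.1
  simp only [ES, Finset.coe_image] at h1
  obtain ⟨q, hq, rfl⟩ := h1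
  simp only [Finset.coe_product, Set.mem_prod, Finset.mem_coe, Finset.mem_range,
    List.mem_toFinset] at hq
  exact ⟨q.1, q.2, hq.2, rfl⟩

lemma short (t : ℕ) (e : Sym2 (Fin (40 * (t + 2)))) (he : e ∈ (GG t).edgeSet) (L : ℕ)
    (h3 : 3 ≤ L) (h : L ≤ 23) :
    ∃ u, ∃ c : (GG t).Walk u u, c.IsCycle ∧ c.length = L ∧ e ∈ c.edges := by
  obtain ⟨j, p, hp, rfl⟩ := edge_mem t e he
  obtain ⟨C, hC⟩ := chk_all L h3 h
  simp only [chk, List.all_eq_true, List.any_eq_true, Bool.and_eq_true, beq_iff_eq] at hC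
  obtain ⟨N, -, ⟨h0, h1⟩, hg⟩ := hC p hp
  simp only [goodC, Bool.and_eq_true, List.all_eq_true, List.mem_range] at hg
  obtain ⟨hb, hi⟩ := inj_spec N L hg.1
  have hm : ∀ i, i % L < L := fun i => Nat.mod_lt _ (by omega)
  obtain ⟨c, hc, hl, hed⟩ := seqCycle (GG t) L h3 (fun i => vx t (40 * j + dg N (i % L)))
    (fun i hi' => by
      have := hg.2 i hi'
      simp only [Nat.mod_eq_of_lt hi']
      exact adj_ad t j _ _ (hb i hi') (hb _ (hm _)) this)
    (by simp)
    (fun a ha b hb' e => by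
      simp only [Nat.mod_eq_of_lt ha, Nat.mod_eq_of_lt hb'] at e
      have h5 := hb a ha
      have h6 := hb b hb'
      exact hi a ha b hb' (vx_inj t _ _ _ (by omega) (by omega) e))
  refine ⟨_, c, hc, hl, ?_⟩
  have := hed 0 (by omega)
  simp only [Nat.zero_mod, zero_add, Nat.mod_eq_of_lt (show 1 < L by omega), h0, h1] at this
  exact this

lemma long (t : ℕ) (e : Sym2 (Fin (40 * (t + 2)))) (he : e ∈ (GG t).edgeSet) :
    ∃ u, ∃ c : (GG t).Walk u u, c.IsHamiltonianCycle ∧ e ∈ c.edges := by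
  obtain ⟨j, p, hp, rfl⟩ := edge_mem t e he
  have hc := hp_cover
  simp only [List.all_eq_true, List.any_eq_true, List.mem_range, Bool.or_eq_true,
    Bool.and_eq_true, beq_iff_eq] at hc
  obtain ⟨N, hN, i0, hi0, hpi⟩ := hc p hp
  have hg := List.all_eq_true.1 hp_good N hN
  simp only [goodP, Bool.and_eq_true, List.all_eq_true, List.mem_range, beq_iff_eq] at hg
  obtain ⟨⟨⟨hj, h0⟩, h40⟩, ha⟩ := hg
  obtain ⟨hb, hi⟩ := inj_spec N 41 hj
  let π : ℕ → ℕ := fun i => if i ≤ 40 then dg N i else i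
  have hπ1 : ∀ i ≤ 40, π i = dg N i := fun i h => if_pos h
  have hπ2 : ∀ i, 40 ≤ i → π i = i := fun i h => by
    by_cases h' : i ≤ 40
    · have : i = 40 := by omega
      subst this
      rw [hπ1 40 le_rfl, h40]
    · exact if_neg h'
  obtain ⟨c, hc, hl, hed⟩ := seqCycle (GG t) (40 * (t + 2)) (by omega)
    (fun i => vx t (40 * j + π i))
    (fun i hi' => by
      by_cases h' : i < 40
      · simp only [hπ1 i (by omega), hπ1 (i + 1) (by omega)]
        exact adj_ad t j _ _ (hb i (by omega)) (hb _ (by omega)) (ha i h')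
      · simp only [hπ2 i (by omega), hπ2 (i + 1) (by omega)]
        have e1 : 40 * j + i = 40 * (j + i / 40) + i % 40 := by omega
        have e2 : 40 * j + (i + 1) = 40 * (j + i / 40) + (i % 40 + 1) := by omega
        rw [e1, e2]
        exact adj_EH t _ _ _ (EH_step _ (Nat.mod_lt _ (by omega))))
    (by
      simp only [hπ2 _ (show 40 ≤ 40 * (t + 2) by omega), hπ1 0 (by omega), h0]
      apply Fin.ext
      simp [vx])
    (fun a ha' b hb' e => by
      have hlt : ∀ x < 40 * (t + 2), π x < 40 * (t + 2) := fun x hx => by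
        by_cases h' : x ≤ 40
        · rw [hπ1 x h']; have := hb x (by omega); omega
        · rw [hπ2 x (by omega)]; exact hx
      have e2 := vx_inj t _ _ _ (hlt a ha') (hlt b hb') e
      by_cases h1 : a ≤ 40 <;> by_cases h2 : b ≤ 40
      · rw [hπ1 a h1, hπ1 b h2] at e2
        exact hi a (by omega) b (by omega) e2
      · rw [hπ1 a h1, hπ2 b (by omega)] at e2
        have := hb a (by omega); omega
      · rw [hπ2 a (by omega), hπ1 b h2] at e2
        have := hb b (by omega); omega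
      · rwa [hπ2 a (by omega), hπ2 b (by omega)] at e2)
  refine ⟨_, c, ?_, ?_⟩
  · rw [Walk.isHamiltonianCycle_iff_isCycle_and_length_eq]
    exact ⟨hc, by simpa using hl⟩
  · have := hed i0 (by omega)
    simp only [hπ1 i0 (by omega), hπ1 (i0 + 1) (by omega)] at this
    rcases hpi with ⟨h1, h2⟩ | ⟨h1, h2⟩
    · rwa [h1, h2] at this
    · rw [h1, h2] at this
      rwa [Sym2.eq_swap]

lemma ncard_le (t : ℕ) : (GG t).edgeSet.ncard ≤ 79 * (t + 2) := by
  have h1 : (GG t).edgeSet ⊆ (ES t : Set _) := by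
    rw [GG, edgeSet_fromEdgeSet]; exact Set.diff_subset
  refine (Set.ncard_le_ncard h1 (Finset.finite_toSet _)).trans ?_
  rw [Set.ncard_coe_finset]
  refine Finset.card_image_le.trans ?_
  rw [Finset.card_product, Finset.card_range]
  have := List.toFinset_card_le EH
  rw [EH_len] at this
  nlinarith

lemma nonempty (t : ℕ) : (GG t).edgeSet.Nonempty :=
  ⟨s(vx t (40 * 0 + 0), vx t (40 * 0 + 1)), adj_EH t 0 0 1 (EH_step 0 (by omega))⟩

end Pool.Agent.H51.ProperA
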