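import Pool.Agent.H51.QFDefs

namespace Pool.Agent.H51.QFBasic
open Pool.Agent.H51.QFDefs

variable {R : Type} [CommRing R]

theorem card_quot_eq_index (I : Ideal R) : Nat.card (R ⧸ I) = I.toAddSubgroup.index := rfl

/-- Multiplying an ideal by a nonzero element multiplies the index by the norm. -/
theorem index_map_mul [IsDomain R] (a : R) (ha : a ≠ 0) (J : AddSubgroup R) :
    (J.map (AddMonoidHom.mulLeft a)).index = J.index * (Ideal.span {a}).toAddSubgroup.index := by
  rw [AddSubgroup.index_map_of_injective _ (mul_right_injective₀ ha)]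
  congr 2
  ext x
  simp [Ideal.mem_span_singleton', eq_comm, mul_comm]

theorem nrm_of_ne {x : R} (hx : x ≠ 0) : nrm x = (Ideal.span {x}).toAddSubgroup.index := by
  unfold nrm; rw [if_neg hx]; rfl

theorem nrm_zero : nrm (0 : R) = 0 := by unfold nrm; simp

theorem nrm_mul [IsDomain R] (a b : R) : nrm (a * b) = nrm a * nrm b := by
  by_cases ha : a = 0
  · simp [ha, nrm_zero]
  by_cases hb : b = 0
  · simp [hb, nrm_zero]
  rw [nrm_of_ne ha, nrm_of_ne hb, nrm_of_ne (mul_ne_zero ha hb), mul_comm _ (AddSubgroup.index _),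
    ← index_map_mul a ha]
  congr 1
  ext x
  simp only [Submodule.mem_toAddSubgroup, Ideal.mem_span_singleton', AddSubgroup.mem_map,
    AddMonoidHom.coe_mulLeft]
  constructor
  · rintro ⟨c, rfl⟩
    exact ⟨c * b, ⟨c, rfl⟩, by ring⟩
  · rintro ⟨_, ⟨c, rfl⟩, rfl⟩
    exact ⟨c, by ring⟩

theorem nrm_unit {u : R} (hu : IsUnit u) [Nontrivial R] : nrm u = 1 := by
  rw [nrm_of_ne hu.ne_zero, Ideal.span_singleton_eq_top.mpr hu]
  simp

theorem absK_div [IsDomain R] {K : Type} [Field K] [Algebra R K]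
    (hinj : Function.Injective (algebraMap R K)) (hfin : ∀ x : R, x ≠ 0 → nrm x ≠ 0)
    (a b : R) (hb : b ≠ 0) :
    absK R (algebraMap R K a / algebraMap R K b) = (nrm a : ℚ) / nrm b := by
  have h : ∃ p : R × R, p.2 ≠ 0 ∧ algebraMap R K a / algebraMap R K b =
      algebraMap R K p.1 / algebraMap R K p.2 := ⟨(a, b), hb, rfl⟩
  unfold absK
  rw [dif_pos h]
  obtain ⟨h1, h2⟩ := h.choose_spec
  set p := h.choose
  have hb' : algebraMap R K b ≠ 0 := fun e => hb (hinj (by simpa using e))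
  have hp' : algebraMap R K p.2 ≠ 0 := fun e => h1 (hinj (by simpa using e))
  rw [div_eq_div_iff hb' hp', ← map_mul, ← map_mul] at h2
  have h3 := congrArg nrm (hinj h2)
  rw [nrm_mul, nrm_mul] at h3
  have hb2 : (nrm b : ℚ) ≠ 0 := by exact_mod_cast hfin b hb
  have hp2 : (nrm p.2 : ℚ) ≠ 0 := by exact_mod_cast hfin _ h1
  rw [div_eq_div_iff hp2 hb2]
  exact_mod_cast h3.symm

end Pool.Agent.H51.QFBasic
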