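import Mathlib

/-!
Definitions for Euclidean quadratic forms over normed rings with the canonical norm
`|a| = #(R / aR)`.
-/

namespace Pool.Agent.H51.QFDefs

/-- The value `∑ i j, a i j * x i * x j` of the quadratic form with coefficients `a i j ∈ R`
at a vector `x` with entries in an `R`-algebra `A`. -/
def qf {R : Type} [CommRing R] {n : ℕ} (a : Fin n → Fin n → R) (A : Type) [CommRing A]
    [Algebra R A] (x : Fin n → A) : A :=
  ∑ i, ∑ j, algebraMap R A (a i j) * x i * x j

open Classical in
/-- The canonical norm on `R`: `|x| = #(R / xR)` for `x ≠ 0`, and `|0| = 0`. -/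
noncomputable def nrm {R : Type} [CommRing R] (x : R) : ℕ :=
  if x = 0 then 0 else Nat.card (R ⧸ Ideal.span {x})

open Classical in
/-- The canonical norm on the fraction field `K` of `R`: `|a / b| = |a| / |b|`, computed on a chosen
representation `z = a / b` with `a, b ∈ R`, `b ≠ 0` (the value does not depend on the choice). -/
noncomputable def absK (R : Type) [CommRing R] {K : Type} [Field K] [Algebra R K] (z : K) : ℚ :=
  if h : ∃ p : R × R, p.2 ≠ 0 ∧ z = algebraMap R K p.1 / algebraMap R K p.2 then
    (nrm h.choose.1 : ℚ) / (nrm h.choose.2 : ℚ)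
  else 0

/-- The form is nondegenerate over `K`: its polar bilinear form has trivial radical. -/
def Nondegenerate {R : Type} [CommRing R] {n : ℕ} (a : Fin n → Fin n → R) (K : Type) [Field K]
    [Algebra R K] : Prop :=
  ∀ x : Fin n → K, (∀ y : Fin n → K, qf a K (x + y) = qf a K x + qf a K y) → x = 0

/-- The form is anisotropic: it has no nonzero zero in `K ^ n`. -/
def Anisotropic {R : Type} [CommRing R] {n : ℕ} (a : Fin n → Fin n → R) (K : Type) [Field K]
    [Algebra R K] : Prop :=
  ∀ x : Fin n → K, x ≠ 0 → qf a K x ≠ 0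

/-- The form is Euclidean: for every `x ∈ K ^ n \ R ^ n` there is `y ∈ R ^ n` with
`0 < |q (x - y)| < 1`. -/
def IsEuclidean {R : Type} [CommRing R] {n : ℕ} (a : Fin n → Fin n → R) (K : Type) [Field K]
    [Algebra R K] : Prop :=
  ∀ x : Fin n → K, (¬ ∃ y : Fin n → R, x = fun i => algebraMap R K (y i)) →
    ∃ y : Fin n → R, 0 < absK R (qf a K (x - fun i => algebraMap R K (y i))) ∧
      absK R (qf a K (x - fun i => algebraMap R K (y i))) < 1

/-- Two forms are isomorphic if they differ by an invertible `R`-linear change of variables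
(this forces the numbers of variables to agree). -/
def Isomorphic {R : Type} [CommRing R] {m n : ℕ} (a : Fin m → Fin m → R) (b : Fin n → Fin n → R) :
    Prop :=
  ∃ e : (Fin n → R) ≃ₗ[R] (Fin m → R), ∀ x, qf b R x = qf a R (e x)

end Pool.Agent.H51.QFDefs
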