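import Pool.Agent.H51.QFDefs

/-!
Lattices, genus and class number one for a quadratic form over a Dedekind domain.
-/

namespace Pool.Agent.H51.QFGenusDefs
open Pool.Agent.H51.QFDefs IsDedekindDomain

/-- The form is Euclidean: for every `x ∈ K ^ n` there is `y ∈ R ^ n` with `|q (x - y)| < 1`. -/
def IsEuclid {R : Type} [CommRing R] {n : ℕ} (a : Fin n → Fin n → R) (K : Type) [Field K]
    [Algebra R K] : Prop :=
  ∀ x : Fin n → K, ∃ y : Fin n → R, absK R (qf a K (x - fun i => algebraMap R K (y i))) < 1

/-- The standard lattice `L = R ^ n` inside `K ^ n`. -/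
def stdLattice (R K : Type) [CommRing R] [Field K] [Algebra R K] (n : ℕ) :
    Submodule R (Fin n → K) :=
  Submodule.span R (Set.range fun i : Fin n => (Pi.single i 1 : Fin n → K))

/-- The completion `M_v` of a lattice `M ⊆ K ^ n` at the maximal ideal `v`: the `R_v`-span of the
image of `M` in `K_v ^ n`. -/
noncomputable def localLattice {R : Type} [CommRing R] [IsDedekindDomain R] (K : Type) [Field K]
    [Algebra R K] [IsFractionRing R K] {n : ℕ} (v : HeightOneSpectrum R)
    (M : Submodule R (Fin n → K)) :
    Submodule (v.adicCompletionIntegers K) (Fin n → v.adicCompletion K) :=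
  Submodule.span (v.adicCompletionIntegers K)
    ((fun (x : Fin n → K) (i : Fin n) => algebraMap K (v.adicCompletion K) (x i)) '' M)

/-- Two `A`-submodules of `B ^ n` are isometric for the form with coefficients `a` if there is an
`A`-linear isomorphism between them preserving the values of the form. -/
def Isometric {R : Type} [CommRing R] {n : ℕ} (a : Fin n → Fin n → R) {A B : Type} [CommRing A]
    [CommRing B] [Algebra R B] [Algebra A B] (M N : Submodule A (Fin n → B)) : Prop :=
  ∃ e : M ≃ₗ[A] N, ∀ x : M, qf a B (e x : Fin n → B) = qf a B (x : Fin n → B)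

/-- `M` is a lattice in `K ^ n` (finitely generated over `R`, spanning `K ^ n` over `K`) in the
genus of `L = R ^ n`: its completion at every maximal ideal is isometric to that of `L`. -/
def InGenus {R : Type} [CommRing R] [IsDedekindDomain R] {n : ℕ} (a : Fin n → Fin n → R)
    (K : Type) [Field K] [Algebra R K] [IsFractionRing R K] (M : Submodule R (Fin n → K)) : Prop :=
  M.IsLattice K ∧ ∀ v : HeightOneSpectrum R,
    Isometric a (localLattice K v M) (localLattice K v (stdLattice R K n))

/-- The form has class number one: every lattice in the genus of `L = R ^ n` is isometric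
to `L`. -/
def ClassNumberOne {R : Type} [CommRing R] [IsDedekindDomain R] {n : ℕ} (a : Fin n → Fin n → R)
    (K : Type) [Field K] [Algebra R K] [IsFractionRing R K] : Prop :=
  ∀ M : Submodule R (Fin n → K), InGenus a K M → Isometric a M (stdLattice R K n)

end Pool.Agent.H51.QFGenusDefs
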