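import Pool.Agent.H51.QFReflect
import Pool.Agent.H51.QFGenusDefs

namespace Pool.Agent.H51.QFGenus
open Pool.Agent.H51.QFDefs Pool.Agent.H51.QFBasic Pool.Agent.H51.QFReflect
  Pool.Agent.H51.QFGenusDefs IsDedekindDomain

/-- The form as a bundled quadratic form. -/
noncomputable def QF {R : Type} [CommRing R] {n : ℕ} (a : Fin n → Fin n → R) (A : Type)
    [CommRing A] [Algebra R A] : QuadraticForm A (Fin n → A) :=
  ∑ i, ∑ j, algebraMap R A (a i j) • QuadraticMap.proj i j

theorem QF_apply {R : Type} [CommRing R] {n : ℕ} (a : Fin n → Fin n → R) (A : Type)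
    [CommRing A] [Algebra R A] (x : Fin n → A) : QF a A x = qf a A x := by
  simp [QF, qf, QuadraticMap.sum_apply, mul_assoc, Algebra.smul_def]

theorem val_qf {R : Type} [CommRing R] {n : ℕ} (a : Fin n → Fin n → R) {A : Type}
    [Field A] [Algebra R A] {Γ : Type} [LinearOrderedCommGroupWithZero Γ] (w : Valuation A Γ)
    (hw : ∀ r : R, w (algebraMap R A r) ≤ 1) (x : Fin n → A) (hx : ∀ i, w (x i) ≤ 1) :
    w (qf a A x) ≤ 1 := by
  unfold qf
  refine w.map_sum_le fun i _ => w.map_sum_le fun j _ => ?_
  rw [map_mul, map_mul]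
  exact mul_le_one' (mul_le_one' (hw _) (hx i)) (hx j)

variable {R K : Type} [CommRing R] [IsDedekindDomain R] [Field K] [Algebra R K]
  [IsFractionRing R K] {n : ℕ}

omit [IsDedekindDomain R] [IsFractionRing R K] in
theorem mem_std {x : Fin n → K} :
    x ∈ stdLattice R K n ↔ ∀ i, x i ∈ (algebraMap R K).range := by
  unfold stdLattice
  rw [Submodule.mem_span_range_iff_exists_fun]
  constructor
  · rintro ⟨c, rfl⟩ i
    refine ⟨c i, ?_⟩
    simp [Finset.sum_apply, Pi.single_apply, Algebra.smul_def]
  · intro h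
    choose c hc using h
    refine ⟨c, funext fun i => ?_⟩
    simp [Finset.sum_apply, Pi.single_apply, Algebra.smul_def, hc]

/-- The embedding into the completion. -/
noncomputable def emb (v : HeightOneSpectrum R) (x : Fin n → K) : Fin n → v.adicCompletion K :=
  fun i => algebraMap K (v.adicCompletion K) (x i)

theorem val_emb (v : HeightOneSpectrum R) (k : K) :
    Valued.v (algebraMap K (v.adicCompletion K) k) = v.valuation K k :=
  v.valuedAdicCompletion_eq_valuation' k

theorem val_R (v : HeightOneSpectrum R) (r : R) :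
    Valued.v (algebraMap R (v.adicCompletion K) r) ≤ 1 := by
  rw [IsScalarTower.algebraMap_apply R K, val_emb]
  exact v.valuation_le_one r

theorem emb_add (v : HeightOneSpectrum R) (x y : Fin n → K) :
    emb v (x + y) = emb v x + emb v y := by
  funext i; simp [emb]

theorem QF_emb (a : Fin n → Fin n → R) (v : HeightOneSpectrum R) (x : Fin n → K) :
    QF a _ (emb v x) = algebraMap K (v.adicCompletion K) (QF a K x) := by
  rw [QF_apply, QF_apply]
  unfold qf emb
  simp only [map_sum, map_mul, ← IsScalarTower.algebraMap_apply]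

theorem polar_emb (a : Fin n → Fin n → R) (v : HeightOneSpectrum R) (x y : Fin n → K) :
    QuadraticMap.polar (QF a _) (emb v x) (emb v y) =
      algebraMap K (v.adicCompletion K) (QuadraticMap.polar (QF a K) x y) := by
  unfold QuadraticMap.polar
  rw [← emb_add, QF_emb, QF_emb, QF_emb, map_sub, map_sub]

theorem emb_mem (v : HeightOneSpectrum R) {M : Submodule R (Fin n → K)} {x : Fin n → K}
    (hx : x ∈ M) : emb v x ∈ localLattice K v M :=
  Submodule.subset_span ⟨x, hx, rfl⟩

theorem mem_localStd (v : HeightOneSpectrum R) {z : Fin n → v.adicCompletion K} :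
    z ∈ localLattice K v (stdLattice R K n) ↔ ∀ i, Valued.v (z i) ≤ 1 := by
  constructor
  · intro hz
    induction hz using Submodule.span_induction with
    | mem x hx =>
      obtain ⟨y, hy, rfl⟩ := hx
      intro i
      obtain ⟨r, hr⟩ := mem_std.mp hy i
      show Valued.v (algebraMap K (v.adicCompletion K) (y i)) ≤ 1
      rw [val_emb, ← hr]
      exact v.valuation_le_one r
    | zero => intro i; simp
    | add x y _ _ hx hy => intro i; exact Valuation.map_add_le _ (hx i) (hy i)
    | smul c x _ hx =>
      intro i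
      show Valued.v ((c : v.adicCompletion K) * x i) ≤ 1
      rw [map_mul]
      exact mul_le_one' c.2 (hx i)
  · intro h
    have : z = ∑ i, (⟨z i, h i⟩ : v.adicCompletionIntegers K) • emb v (Pi.single i 1) := by
      funext j
      rw [Finset.sum_apply, Finset.sum_eq_single j]
      · show z j = z j * algebraMap K _ ((Pi.single j (1 : K) : Fin n → K) j)
        simp
      · intro i _ hi
        show z i * algebraMap K _ ((Pi.single i (1 : K) : Fin n → K) j) = 0
        simp [hi.symm]
      · simp
    rw [this]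
    exact Submodule.sum_mem _ fun i _ => Submodule.smul_mem _ _
      (emb_mem v (Submodule.subset_span ⟨i, rfl⟩))

theorem approx (v : HeightOneSpectrum R) (c : v.adicCompletion K) (hc : Valued.v c ≤ 1)
    (δ : K) (hδ : δ ≠ 0) :
    ∃ r : R, Valued.v (c - algebraMap R (v.adicCompletion K) r) ≤ v.valuation K δ := by
  have key : ∀ δ : K, δ ≠ 0 → ∃ k : K,
      Valued.v (c - algebraMap K (v.adicCompletion K) k) ≤ v.valuation K δ := by
    intro δ hδ
    have hopen : IsOpen {x : v.adicCompletion K |
        (c - x) * algebraMap K (v.adicCompletion K) δ⁻¹ ∈ v.adicCompletionIntegers K} :=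
      (Valued.isOpen_valuationSubring (v.adicCompletion K)).preimage (by fun_prop)
    obtain ⟨k, hk⟩ := (v.denseRange_algebraMap K).exists_mem_open hopen ⟨c, by simp⟩
    refine ⟨k, ?_⟩
    have h1 : Valued.v ((c - algebraMap K (v.adicCompletion K) k) *
      algebraMap K (v.adicCompletion K) δ⁻¹) ≤ 1 := hk
    have h2 : v.valuation K δ ≠ 0 := by simpa using hδ
    rwa [map_mul, val_emb, map_inv₀, mul_inv_le_iff₀ (zero_lt_iff.mpr h2), one_mul] at h1
  by_cases h1 : v.valuation K δ ≤ 1
  · obtain ⟨k, hk⟩ := key δ hδ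
    have hk1 : v.valuation K k ≤ 1 := by
      rw [← val_emb]
      have : algebraMap K (v.adicCompletion K) k = c - (c - algebraMap K _ k) := by ring
      rw [this]
      exact Valuation.map_sub_le _ hc (hk.trans h1)
    have h2 : v.valuation K δ ≠ 0 := by simpa using hδ
    obtain ⟨r, hr⟩ := v.exists_valuation_sub_lt_of_integer hk1 (Units.mk0 _ h2)
    refine ⟨r, ?_⟩
    have : c - algebraMap R (v.adicCompletion K) r = (c - algebraMap K _ k) -
        algebraMap K _ (algebraMap R K r - k) := by
      rw [map_sub, ← IsScalarTower.algebraMap_apply]; ring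
    rw [this]
    refine Valuation.map_sub_le _ hk ?_
    rw [val_emb]
    exact hr.le
  · exact ⟨0, by simpa using hc.trans (not_le.mp h1).le⟩

omit [IsDedekindDomain R] in
theorem exists_smul_mem_std [IsDomain R] (M : Submodule R (Fin n → K)) (hM : M.FG) :
    ∃ d : R, d ≠ 0 ∧ ∀ x ∈ M, d • x ∈ stdLattice R K n := by
  obtain ⟨s, rfl⟩ := hM
  obtain ⟨d, hd⟩ := IsLocalization.exist_integer_multiples (nonZeroDivisors R)
    (s ×ˢ (Finset.univ : Finset (Fin n))) (fun p : (Fin n → K) × Fin n => p.1 p.2)
  refine ⟨d, nonZeroDivisors.coe_ne_zero d, fun x hx => ?_⟩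
  induction hx using Submodule.span_induction with
  | mem x hx => exact mem_std.mpr fun i => hd (x, i) (by simpa using hx)
  | zero => simp
  | add x y _ _ hx hy => rw [smul_add]; exact add_mem hx hy
  | smul c x _ hx => rw [smul_comm]; exact Submodule.smul_mem _ _ hx

omit [IsDedekindDomain R] in
theorem exists_smul_mem [IsDomain R] (M : Submodule R (Fin n → K)) (hM : M.IsLattice K)
    (x : Fin n → K) : ∃ d : R, d ≠ 0 ∧ d • x ∈ M := by
  obtain ⟨t, ht⟩ := multiple_mem_span_of_mem_localization_span (nonZeroDivisors R) K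
    (M : Set (Fin n → K)) x (by rw [hM.span_eq_top]; trivial)
  rw [Submodule.span_eq] at ht
  exact ⟨t, nonZeroDivisors.coe_ne_zero t, ht⟩

omit [IsDedekindDomain R] in
theorem exists_smul_std_mem [IsDomain R] (M : Submodule R (Fin n → K)) (hM : M.IsLattice K) :
    ∃ d : R, d ≠ 0 ∧ ∀ x ∈ stdLattice R K n, d • x ∈ M := by
  choose d hd0 hd using fun i : Fin n => exists_smul_mem M hM (Pi.single i 1)
  refine ⟨∏ i, d i, Finset.prod_ne_zero_iff.mpr fun i _ => hd0 i, fun x hx => ?_⟩
  induction hx using Submodule.span_induction with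
  | mem x hx =>
    obtain ⟨i, rfl⟩ := hx
    obtain ⟨c, hc⟩ := Finset.dvd_prod_of_mem d (Finset.mem_univ i)
    rw [hc, mul_comm, mul_smul]
    exact M.smul_mem _ (hd i)
  | zero => simp
  | add x y _ _ hx hy => rw [smul_add]; exact add_mem hx hy
  | smul c x _ hx => rw [smul_comm]; exact Submodule.smul_mem _ _ hx

omit [IsDedekindDomain R] in
theorem relIndex_ne_zero [IsDomain R] (hfin : ∀ x : R, x ≠ 0 → nrm x ≠ 0)
    (M : Submodule R (Fin n → K)) (hM : M.FG) :
    (stdLattice R K n).toAddSubgroup.relIndex M.toAddSubgroup ≠ 0 := by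
  have hinj : Function.Injective (algebraMap R K) := IsFractionRing.injective R K
  obtain ⟨d, hd0, hd⟩ := exists_smul_mem_std M hM
  have hdK : algebraMap R K d ≠ 0 := fun e => hd0 (hinj (by simpa using e))
  let O : AddSubgroup K := (algebraMap R K).range.toAddSubgroup
  have h1 : (stdLattice R K n).toAddSubgroup =
      ⨅ i, O.comap (Pi.evalAddMonoidHom (fun _ : Fin n => K) i) := by
    ext x
    simp only [Submodule.mem_toAddSubgroup, mem_std, AddSubgroup.mem_iInf, AddSubgroup.mem_comap]
    rfl
  rw [h1]
  refine AddSubgroup.relIndex_iInf_ne_zero fun i => ?_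
  rw [AddSubgroup.relIndex_comap]
  let g : R →+ K := (AddMonoidHom.mulRight (algebraMap R K d)⁻¹).comp
    (algebraMap R K).toAddMonoidHom
  have h2 : M.toAddSubgroup.map (Pi.evalAddMonoidHom (fun _ : Fin n => K) i) ≤ g.range := by
    rintro _ ⟨x, hx, rfl⟩
    obtain ⟨r, hr⟩ := mem_std.mp (hd x hx) i
    refine ⟨r, ?_⟩
    show algebraMap R K r * (algebraMap R K d)⁻¹ = x i
    rw [hr, Pi.smul_apply, Algebra.smul_def]
    field_simp
  intro h
  have h3 := AddSubgroup.relIndex_eq_zero_of_le_right h2 h
  rw [← AddSubgroup.index_comap] at h3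
  have h4 : (Ideal.span {d}).toAddSubgroup ≤ O.comap g := by
    intro r hr
    obtain ⟨c, rfl⟩ := Ideal.mem_span_singleton'.mp hr
    refine ⟨c, ?_⟩
    show algebraMap R K c = algebraMap R K (c * d) * (algebraMap R K d)⁻¹
    rw [map_mul]; field_simp
  have h5 := AddSubgroup.index_dvd_of_le h4
  rw [h3, ← nrm_of_ne hd0] at h5
  exact hfin d hd0 (Nat.eq_zero_of_zero_dvd h5)

theorem local_mem (v : HeightOneSpectrum R) (M : Submodule R (Fin n → K)) (hM : M.IsLattice K)
    (w : Fin n → K) (hw : emb v w ∈ localLattice K v M) : ∃ s : R, s ∉ v.asIdeal ∧ s • w ∈ M := by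
  have hinj : Function.Injective (algebraMap R K) := IsFractionRing.injective R K
  obtain ⟨d, hd0, hd⟩ := exists_smul_mem_std M hM.fg
  obtain ⟨d', hd0', hd'⟩ := exists_smul_std_mem M hM
  have hdK : algebraMap R K d ≠ 0 := fun e => hd0 (hinj (by simpa using e))
  have hdK' : algebraMap R K d' ≠ 0 := fun e => hd0' (hinj (by simpa using e))
  have key : ∀ z ∈ localLattice K v M, ∃ m ∈ M, ∀ i,
      Valued.v (z i - emb v m i) ≤ v.valuation K (algebraMap R K d') := by
    intro z hz
    induction hz using Submodule.span_induction with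
    | mem x hx =>
      obtain ⟨y, hy, rfl⟩ := hx
      exact ⟨y, hy, fun i => by simp [emb]⟩
    | zero => exact ⟨0, M.zero_mem, fun i => by simp [emb]⟩
    | add x y _ _ hx hy =>
      obtain ⟨m, hm, hx⟩ := hx
      obtain ⟨m', hm', hy⟩ := hy
      refine ⟨m + m', add_mem hm hm', fun i => ?_⟩
      have : (x + y) i - emb v (m + m') i = (x i - emb v m i) + (y i - emb v m' i) := by
        rw [emb_add]; simp only [Pi.add_apply]; ring
      rw [this]
      exact Valuation.map_add_le _ (hx i) (hy i)
    | smul c x _ hx =>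
      obtain ⟨m, hm, hx⟩ := hx
      obtain ⟨r, hr⟩ := approx v (c : v.adicCompletion K) c.2
        (algebraMap R K d * algebraMap R K d') (mul_ne_zero hdK hdK')
      refine ⟨r • m, M.smul_mem r hm, fun i => ?_⟩
      have : (c • x) i - emb v (r • m) i = (c : v.adicCompletion K) * (x i - emb v m i) +
          ((c : v.adicCompletion K) - algebraMap R _ r) * emb v m i := by
        show (c : v.adicCompletion K) * x i - algebraMap K _ (r • m i) = _
        rw [Algebra.smul_def, map_mul, ← IsScalarTower.algebraMap_apply]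
        unfold emb; ring
      rw [this]
      refine Valuation.map_add_le _ ?_ ?_
      · rw [map_mul]
        exact (mul_le_of_le_one_left' c.2).trans (hx i)
      · obtain ⟨s, hs⟩ := mem_std.mp (hd m hm) i
        have h1 : v.valuation K (algebraMap R K d) * v.valuation K (m i) ≤ 1 := by
          rw [← map_mul, ← Algebra.smul_def, ← Pi.smul_apply, ← hs]
          exact v.valuation_le_one s
        rw [map_mul]
        unfold emb
        rw [val_emb]
        calc _ ≤ v.valuation K (algebraMap R K d * algebraMap R K d') * v.valuation K (m i) :=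
              mul_le_mul_left hr _
          _ = v.valuation K (algebraMap R K d') *
              (v.valuation K (algebraMap R K d) * v.valuation K (m i)) := by
              rw [map_mul]; ac_rfl
          _ ≤ _ := mul_le_of_le_one_right' h1
  obtain ⟨m, hm, hwm⟩ := key _ hw
  have h1 : ∀ i, v.valuation K ((w i - m i) / algebraMap R K d') ≤ 1 := by
    intro i
    have := hwm i
    unfold emb at this
    rw [← map_sub, val_emb] at this
    rw [map_div₀]
    exact div_le_one_of_le₀ this zero_le
  choose p s hps using fun i => v.exists_primeCompl_mul_eq_of_integer _ (h1 i)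
  refine ⟨(∏ i, s i : v.asIdeal.primeCompl), (∏ i, s i).2, ?_⟩
  set S : R := ((∏ i, s i : v.asIdeal.primeCompl) : R)
  have h2 : S • (fun i => (w i - m i) / algebraMap R K d') ∈ stdLattice R K n := by
    refine mem_std.mpr fun i => ?_
    obtain ⟨c, hc⟩ := Finset.dvd_prod_of_mem s (Finset.mem_univ i)
    refine ⟨c * p i, ?_⟩
    simp only [S, hc, Pi.smul_apply, Algebra.smul_def, Submonoid.coe_mul, map_mul, ← hps]
    ring
  have h3 := hd' _ h2
  have h4 : S • w = d' • S • (fun i => (w i - m i) / algebraMap R K d') + S • m := by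
    funext i
    show S • w i = d' • S • ((w i - m i) / algebraMap R K d') + S • m i
    simp only [Algebra.smul_def]
    field_simp
    ring
  rw [h4]
  exact add_mem h3 (M.smul_mem _ hm)

theorem exists_t (v : HeightOneSpectrum R) : ∃ (t : K) (π : R), π ∈ v.asIdeal ∧
    v.valuation K (t * algebraMap R K π) = 1 ∧
    ∀ v' : HeightOneSpectrum R, v' ≠ v → v'.valuation K t ≤ 1 := by
  obtain ⟨t, ht, ht1⟩ := FractionalIdeal.exists_notMem_one_of_ne_bot (K := K) v.ne_bot
    v.isPrime.ne_top
  rw [FractionalIdeal.mem_inv_iff (by simpa using v.ne_bot)] at ht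
  have h1 : ∀ s ∈ v.asIdeal, ∀ v' : HeightOneSpectrum R,
      v'.valuation K (t * algebraMap R K s) ≤ 1 := by
    intro s hs v'
    obtain ⟨r, hr⟩ := (FractionalIdeal.mem_one_iff _).mp
      (ht _ (FractionalIdeal.mem_coeIdeal_of_mem _ hs))
    rw [← hr]
    exact v'.valuation_le_one r
  have h2 : ∀ v' : HeightOneSpectrum R, v' ≠ v → v'.valuation K t ≤ 1 := by
    intro v' hv'
    have : ¬ v.asIdeal ≤ v'.asIdeal := by
      intro h
      exact hv' (HeightOneSpectrum.ext (v.isMaximal.eq_of_le v'.isPrime.ne_top h).symm)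
    obtain ⟨s, hs, hs'⟩ := SetLike.not_le_iff_exists.mp this
    have h3 := h1 s hs v'
    rwa [map_mul, (HeightOneSpectrum.valuation_eq_one_iff_notMem v').mpr hs', mul_one] at h3
  have h3 : 1 < v.valuation K t := by
    by_contra h
    push Not at h
    apply ht1
    obtain ⟨r, hr⟩ := HeightOneSpectrum.mem_integers_of_valuation_le_one K t (fun v' => by
      by_cases hv : v' = v
      · rw [hv]; exact h
      · exact h2 v' hv)
    exact (FractionalIdeal.mem_one_iff _).mpr ⟨r, hr⟩
  obtain ⟨π, hπ⟩ := v.valuation_exists_uniformizer' K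
  have hπm : π ∈ v.asIdeal := by
    rw [← HeightOneSpectrum.valuation_lt_one_iff_mem (K := K), hπ, ← WithZero.exp_zero,
      WithZero.exp_lt_exp]
    norm_num
  refine ⟨t, π, hπm, le_antisymm (h1 π hπm v) ?_, h2⟩
  rw [map_mul, hπ]
  have h4 : v.valuation K t ≠ 0 := (zero_lt_one.trans h3).ne'
  rw [← WithZero.exp_log h4] at h3 ⊢
  rw [← WithZero.exp_add, ← WithZero.exp_zero, WithZero.exp_le_exp]
  rw [← WithZero.exp_zero, WithZero.exp_lt_exp] at h3
  omega

theorem main (hfin : ∀ x : R, x ≠ 0 → nrm x ≠ 0) (a : Fin n → Fin n → R)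
    (haniso : Anisotropic a K) (heuc : IsEuclid a K) : ClassNumberOne a K := by
  have hinj : Function.Injective (algebraMap R K) := IsFractionRing.injective R K
  rintro M ⟨hM, hgen⟩
  have hQ0 : ∀ x, QF a K x = 0 → x = 0 := by
    intro x hx
    by_contra h
    exact haniso x h (by rwa [← QF_apply])
  have hL : Intg (QF a K) (stdLattice R K n) := by
    intro x hx
    refine HeightOneSpectrum.mem_integers_of_valuation_le_one K _ fun v => ?_
    rw [QF_apply]
    refine val_qf a _ v.valuation_le_one x fun i => ?_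
    obtain ⟨r, hr⟩ := mem_std.mp hx i
    rw [← hr]; exact v.valuation_le_one r
  have hloc : ∀ (v : HeightOneSpectrum R), ∀ z ∈ localLattice K v (stdLattice R K n),
      Valued.v (QF a _ z) ≤ 1 := by
    intro v z hz
    rw [QF_apply]
    exact val_qf a _ (val_R v) z ((mem_localStd v).mp hz)
  have hMi : Intg (QF a K) M := by
    intro x hx
    refine HeightOneSpectrum.mem_integers_of_valuation_le_one K _ fun v => ?_
    obtain ⟨e, he⟩ := hgen v
    have h1 := he ⟨emb v x, emb_mem v hx⟩
    rw [← val_emb, ← QF_emb, QF_apply, ← h1, ← QF_apply]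
    exact hloc v _ (e _).2
  have heuc' : ∀ x, ∃ y ∈ stdLattice R K n, absK R (QF a K (x - y)) < 1 := by
    intro x
    obtain ⟨y, hy⟩ := heuc x
    exact ⟨_, mem_std.mpr fun i => ⟨y i, rfl⟩, by rwa [QF_apply]⟩
  obtain ⟨σ, hσ1, hσ2⟩ := embed hfin (QF a K) hQ0 _ hL heuc' M hMi (relIndex_ne_zero hfin M hM.fg)
  have hsurj : ∀ w, σ w ∈ stdLattice R K n → w ∈ M := by
    intro w0 hw0
    by_contra hw0M
    let A : Ideal R := M.comap (LinearMap.toSpanSingleton R _ w0)
    have hAtop : A ≠ ⊤ := by
      intro h
      have : (1 : R) ∈ A := h ▸ Submodule.mem_top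
      exact hw0M (by simpa [A] using this)
    have hAbot : A ≠ ⊥ := by
      obtain ⟨d, hd0, hd⟩ := exists_smul_mem M hM w0
      intro h
      have : d ∈ A := hd
      rw [h] at this
      exact hd0 this
    obtain ⟨p, hp, hAp⟩ := Ideal.exists_le_maximal A hAtop
    have hp0 : p ≠ ⊥ := fun h => hAbot (le_bot_iff.mp (h ▸ hAp))
    let v : HeightOneSpectrum R := ⟨p, hp.isPrime, hp0⟩
    obtain ⟨B, hB⟩ := Ideal.dvd_iff_le.mpr hAp
    have hBA : ¬ B ≤ A := by
      intro h
      have hB0 : B ≠ ⊥ := by
        rintro rfl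
        exact hAbot (by simpa using hB)
      have h1 : p * B ∣ 1 * B := by rw [← hB, one_mul]; exact Ideal.dvd_iff_le.mpr h
      have h2 := (mul_dvd_mul_iff_right hB0).mp h1
      exact hp.ne_top (by simpa using Ideal.dvd_iff_le.mp h2)
    obtain ⟨b, hbB, hbA⟩ := SetLike.not_le_iff_exists.mp hBA
    set w := b • w0 with hw
    have hwM : w ∉ M := hbA
    have hpw : ∀ s ∈ p, s • w ∈ M := by
      intro s hs
      have : s * b ∈ A := hB ▸ Ideal.mul_mem_mul hs hbB
      rw [hw, smul_smul]
      exact this
    have hwL : σ w ∈ stdLattice R K n := by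
      rw [hw, ← algebraMap_smul K b, map_smul, algebraMap_smul]
      exact Submodule.smul_mem _ _ hw0
    have hwloc : emb v w ∉ localLattice K v M := by
      intro h
      obtain ⟨s, hs, hsw⟩ := local_mem v M hM w h
      obtain ⟨c, d, hd, hcd⟩ := hp.exists_inv hs
      apply hwM
      rw [← one_smul R w, ← hcd, add_smul, mul_smul]
      exact add_mem (M.smul_mem _ hsw) (hpw d hd)
    have hQw : QF a K w ∈ (algebraMap R K).range := by rw [← hσ1]; exact hL _ hwL
    have hpolw : ∀ m ∈ M, QuadraticMap.polar (QF a K) w m ∈ (algebraMap R K).range := by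
      intro m hm
      have := hL.polar hwL (hσ2 m hm)
      unfold QuadraticMap.polar at this ⊢
      rwa [← map_add, hσ1, hσ1, hσ1] at this
    have hpolw' : ∀ m ∈ localLattice K v M,
        Valued.v (QuadraticMap.polar (QF a _) (emb v w) m) ≤ 1 := by
      intro m hm
      induction hm using Submodule.span_induction with
      | mem x hx =>
        obtain ⟨y, hy, rfl⟩ := hx
        obtain ⟨r, hr⟩ := hpolw y hy
        show Valued.v (QuadraticMap.polar (QF a _) (emb v w) (emb v y)) ≤ 1
        rw [polar_emb, val_emb, ← hr]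
        exact v.valuation_le_one r
      | zero => simp
      | add x y _ _ hx hy =>
        rw [QuadraticMap.polar_add_right]; exact Valuation.map_add_le _ hx hy
      | smul c x _ hx =>
        show Valued.v (QuadraticMap.polar (QF a _) (emb v w) ((c : v.adicCompletion K) • x)) ≤ 1
        rw [QuadraticMap.polar_smul_right, smul_eq_mul, map_mul]
        exact mul_le_one' c.2 hx
    obtain ⟨t, π, hπ, htπ, ht⟩ := exists_t (K := K) v
    have htπ0 : t * algebraMap R K π ≠ 0 := by
      intro h; rw [h] at htπ; simp at htπ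
    have ht0 : t ≠ 0 := left_ne_zero_of_mul htπ0
    have hπ0 : algebraMap R K π ≠ 0 := right_ne_zero_of_mul htπ0
    set T : v.adicCompletion K := algebraMap K _ t with hT
    have hT0 : T ≠ 0 := by rw [hT]; simpa using ht0
    have hTinv : Valued.v T⁻¹ ≤ 1 := by
      have : t⁻¹ = (t * algebraMap R K π)⁻¹ * algebraMap R K π := by field_simp
      rw [hT, ← map_inv₀, val_emb, this, map_mul, map_inv₀, htπ, inv_one, one_mul]
      exact v.valuation_le_one π
    have hz : T⁻¹ • emb v w ∈ localLattice K v M := by
      have h1 : Valued.v (algebraMap K (v.adicCompletion K) (t * algebraMap R K π)⁻¹) ≤ 1 := by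
        rw [val_emb, map_inv₀, htπ, inv_one]
      have h2 := (localLattice K v M).smul_mem ⟨_, h1⟩ (emb_mem v (hpw π hπ))
      convert h2 using 1
      funext i
      show T⁻¹ * algebraMap K _ (w i) = algebraMap K _ _ * algebraMap K _ (π • w i)
      rw [hT, ← map_inv₀, ← map_mul, ← map_mul, Algebra.smul_def]
      congr 1
      field_simp
    obtain ⟨e, he⟩ := hgen v
    simp only [← QF_apply] at he
    set z' : Fin n → v.adicCompletion K := (e ⟨_, hz⟩ : Fin n → v.adicCompletion K) with hz'
    have hz'L : z' ∈ localLattice K v (stdLattice R K n) := (e _).2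
    have hu1 : T • z' ∉ localLattice K v (stdLattice R K n) := by
      intro h
      apply hwloc
      have h1 : e ⟨_, hz⟩ = (⟨T⁻¹, hTinv⟩ : v.adicCompletionIntegers K) • ⟨_, h⟩ := by
        apply Subtype.ext
        show z' = T⁻¹ • T • z'
        rw [smul_smul, inv_mul_cancel₀ hT0, one_smul]
      have h2 := congrArg (fun x => (e.symm x : Fin n → v.adicCompletion K)) h1
      simp only [LinearEquiv.symm_apply_apply, map_smul] at h2
      have h3 : T⁻¹ • emb v w = T⁻¹ • (e.symm ⟨_, h⟩ : Fin n → v.adicCompletion K) := h2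
      rw [smul_right_injective _ (inv_ne_zero hT0) h3]
      exact (e.symm _).2
    have hu2 : ∀ y ∈ localLattice K v (stdLattice R K n), Valued.v (QF a _ (T • z' + y)) ≤ 1 := by
      intro y hy
      have h1 : QF a _ (T • z') = QF a _ (emb v w) := by
        rw [QuadraticMap.map_smul, hz', he, QuadraticMap.map_smul]
        simp only [smul_eq_mul]
        field_simp
      have h2 : QuadraticMap.polar (QF a _) (T • z') y = QuadraticMap.polar (QF a _) (emb v w)
          (e.symm ⟨y, hy⟩ : Fin n → v.adicCompletion K) := by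
        have h3 : QuadraticMap.polar (QF a _) z' y = QuadraticMap.polar (QF a _) (T⁻¹ • emb v w)
            (e.symm ⟨y, hy⟩ : Fin n → v.adicCompletion K) := by
          have h4 := he (⟨_, hz⟩ + e.symm ⟨y, hy⟩)
          have h5 := he (e.symm ⟨y, hy⟩)
          have h6 := he ⟨_, hz⟩
          rw [map_add, LinearEquiv.apply_symm_apply] at h4
          rw [LinearEquiv.apply_symm_apply] at h5
          unfold QuadraticMap.polar
          rw [← h5, ← h6]
          congr 2
        rw [QuadraticMap.polar_smul_left, h3, QuadraticMap.polar_smul_left, smul_smul,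
          mul_inv_cancel₀ hT0, one_smul]
      rw [Q_add, h1, h2]
      refine Valuation.map_add_le _ (Valuation.map_add_le _ ?_ (hloc v y hy))
        (hpolw' _ (e.symm _).2)
      obtain ⟨r, hr⟩ := hQw
      rw [QF_emb, val_emb, ← hr]
      exact v.valuation_le_one r
    choose r hr using fun i => approx v (z' i) ((mem_localStd v).mp hz'L i) t⁻¹ (inv_ne_zero ht0)
    let u : Fin n → K := fun i => t * algebraMap R K (r i)
    have hu : emb v u - T • z' ∈ localLattice K v (stdLattice R K n) := by
      refine (mem_localStd v).mpr fun i => ?_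
      have h1 : (emb v u - T • z') i = -(T * (z' i - algebraMap R _ (r i))) := by
        simp only [Pi.sub_apply, emb, u, Pi.smul_apply, smul_eq_mul, map_mul,
          ← IsScalarTower.algebraMap_apply]
        ring
      rw [h1, Valuation.map_neg, map_mul]
      calc _ ≤ Valued.v T * v.valuation K t⁻¹ := mul_le_mul_right (hr i) _
        _ = 1 := by rw [hT, val_emb, ← map_mul, mul_inv_cancel₀ ht0, map_one]
    obtain ⟨y, hy, hlt⟩ := heuc' u
    have hint : QF a K (u - y) ∈ (algebraMap R K).range := by
      refine HeightOneSpectrum.mem_integers_of_valuation_le_one K _ fun v' => ?_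
      by_cases hv : v' = v
      · rw [hv, ← val_emb, ← QF_emb]
        have : emb v (u - y) = T • z' + ((emb v u - T • z') - emb v y) := by
          funext i
          simp only [emb, Pi.sub_apply, Pi.add_apply, map_sub]
          ring
        rw [this]
        exact hu2 _ (sub_mem hu (emb_mem v hy))
      · rw [QF_apply]
        refine val_qf a _ v'.valuation_le_one _ fun i => ?_
        obtain ⟨s, hs⟩ := mem_std.mp hy i
        refine Valuation.map_sub_le _ ?_ ?_
        · rw [map_mul]
          exact mul_le_one' (ht v' hv) (v'.valuation_le_one _)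
        · rw [← hs]; exact v'.valuation_le_one _
    obtain ⟨r0, hr0⟩ := hint
    have h1 : absK R (QF a K (u - y)) = nrm r0 := by
      have := absK_div hinj hfin r0 1 one_ne_zero
      rw [nrm_unit isUnit_one] at this
      simpa [hr0] using this
    rw [h1] at hlt
    have h2 : nrm r0 = 0 := by
      have : nrm r0 < 1 := by exact_mod_cast hlt
      omega
    have h3 : r0 = 0 := by
      by_contra h
      exact hfin r0 h h2
    have h4 : u = y := sub_eq_zero.mp (hQ0 _ (by rw [← hr0, h3, map_zero]))
    apply hu1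
    have : T • z' = emb v y - (emb v u - T • z') := by rw [h4, sub_sub_cancel]
    rw [this]
    exact sub_mem (emb_mem v hy) hu
  have hmap : M.map ((σ.restrictScalars R : (Fin n → K) ≃ₗ[R] (Fin n → K)) :
      (Fin n → K) →ₗ[R] (Fin n → K)) = stdLattice R K n := by
    apply le_antisymm
    · rintro _ ⟨x, hx, rfl⟩
      exact hσ2 x hx
    · intro x hx
      exact ⟨σ.symm x, hsurj _ (by simpa using hx), by simp⟩
  refine ⟨LinearEquiv.ofSubmodules (σ.restrictScalars R) _ _ hmap, fun x => ?_⟩
  rw [← QF_apply, ← QF_apply, ← hσ1 x]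
  rfl

end Pool.Agent.H51.QFGenus
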