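import Pool.Agent.H51.QFBasic

namespace Pool.Agent.H51.QFReflect
open Pool.Agent.H51.QFDefs Pool.Agent.H51.QFBasic

variable {R K V : Type} [CommRing R] [IsDomain R] [Field K] [Algebra R K] [IsFractionRing R K]
  [AddCommGroup V] [Module K V] [Module R V] [IsScalarTower R K V]

/-- The reflection in the vector `v`. -/
noncomputable def refl (Q : QuadraticForm K V) (v : V) : V →ₗ[K] V :=
  LinearMap.id - ((Q v)⁻¹ • Q.polarBilin v).smulRight v

theorem refl_apply (Q : QuadraticForm K V) (v z : V) :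
    refl Q v z = z - ((Q v)⁻¹ * QuadraticMap.polar Q v z) • v := by
  simp [refl]

theorem Q_add (Q : QuadraticForm K V) (x y : V) :
    Q (x + y) = Q x + Q y + QuadraticMap.polar Q x y := by
  simp [QuadraticMap.polar]

theorem Q_refl (Q : QuadraticForm K V) (v : V) (hv : Q v ≠ 0) (z : V) : Q (refl Q v z) = Q z := by
  rw [refl_apply, sub_eq_add_neg, ← neg_smul, Q_add, QuadraticMap.map_smul,
    QuadraticMap.polar_smul_right, QuadraticMap.polar_comm Q z v]
  simp only [smul_eq_mul]
  field_simp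
  ring

theorem refl_refl (Q : QuadraticForm K V) (v : V) (hv : Q v ≠ 0) (z : V) :
    refl Q v (refl Q v z) = z := by
  rw [refl_apply Q v (refl Q v z), refl_apply, QuadraticMap.polar_sub_right,
    QuadraticMap.polar_smul_right, QuadraticMap.polar_self, sub_sub, ← add_smul]
  have : (Q v)⁻¹ * QuadraticMap.polar Q v z + (Q v)⁻¹ * (QuadraticMap.polar Q v z -
      ((Q v)⁻¹ * QuadraticMap.polar Q v z) • 2 • Q v) = 0 := by
    simp only [smul_eq_mul, nsmul_eq_mul]
    field_simp
    push_cast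
    ring
  rw [this, zero_smul, sub_zero]

/-- The lattice is integral. -/
def Intg (Q : QuadraticForm K V) (M : Submodule R V) : Prop :=
  ∀ x ∈ M, Q x ∈ (algebraMap R K).range

omit [IsDomain R] [IsFractionRing R K] [IsScalarTower R K V] in
theorem Intg.polar {Q : QuadraticForm K V} {M : Submodule R V} (h : Intg Q M) {x y : V}
    (hx : x ∈ M) (hy : y ∈ M) : QuadraticMap.polar Q x y ∈ (algebraMap R K).range :=
  sub_mem (sub_mem (h _ (add_mem hx hy)) (h _ hx)) (h _ hy)

theorem step (hfin : ∀ x : R, x ≠ 0 → nrm x ≠ 0) (Q : QuadraticForm K V)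
    (haniso : ∀ x, Q x = 0 → x = 0) (L M : Submodule R V) (hL : Intg Q L) (hM : Intg Q M)
    (heuc : ∀ x, ∃ y ∈ L, absK R (Q (x - y)) < 1)
    (h0 : L.toAddSubgroup.relIndex M.toAddSubgroup ≠ 0) (hML : ¬ M ≤ L) :
    ∃ v, Q v ≠ 0 ∧
      L.toAddSubgroup.relIndex (M.map ((refl Q v).restrictScalars R)).toAddSubgroup ≠ 0 ∧
      L.toAddSubgroup.relIndex (M.map ((refl Q v).restrictScalars R)).toAddSubgroup <
        L.toAddSubgroup.relIndex M.toAddSubgroup := by
  have hinj : Function.Injective (algebraMap R K) := IsFractionRing.injective R K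
  obtain ⟨x, hxM, hxL⟩ := SetLike.not_le_iff_exists.mp hML
  obtain ⟨y, hyL, hy⟩ := heuc x
  set v := x - y with hv
  have hv0 : v ≠ 0 := by
    intro h
    apply hxL
    have : x = y := sub_eq_zero.mp h
    rw [this]; exact hyL
  have ha : Q v ≠ 0 := fun h => hv0 (haniso v h)
  refine ⟨v, ha, ?_⟩
  obtain ⟨α, β, hβ, hαβ⟩ := IsFractionRing.div_surjective (A := R) (Q v)
  have hβ0 : β ≠ 0 := nonZeroDivisors.ne_zero hβ
  have hβK : algebraMap R K β ≠ 0 := fun e => hβ0 (hinj (by simpa using e))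
  have hα0 : α ≠ 0 := by
    rintro rfl
    apply ha
    rw [← hαβ]; simp
  have hlt : nrm α < nrm β := by
    rw [← hαβ, absK_div hinj hfin _ _ hβ0, div_lt_one (by
      have := hfin β hβ0
      positivity)] at hy
    exact_mod_cast hy
  set LA := L.toAddSubgroup
  set MA := M.toAddSubgroup
  let f : R →+ V := (LinearMap.toSpanSingleton R V x).toAddMonoidHom
  let g : R →+ V := (LinearMap.toSpanSingleton R V ((Q v)⁻¹ • v)).toAddMonoidHom
  let τ : V →+ V := (refl Q v).toAddMonoidHom
  let N : AddSubgroup V := (LA ⊓ MA) ⊔ f.range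
  have hfM : f.range ≤ MA := by
    rintro _ ⟨r, rfl⟩
    exact M.smul_mem r hxM
  have hNM : N ≤ MA := sup_le inf_le_right hfM
  let J : AddSubgroup R := LA.comap f
  let I : AddSubgroup R := LA.comap g
  have hJ : (LA ⊓ MA).relIndex N = J.index := by
    rw [AddSubgroup.relIndex_sup_left, AddSubgroup.index_comap,
      ← AddSubgroup.inf_relIndex_right, inf_assoc, inf_eq_right.mpr hfM,
      AddSubgroup.inf_relIndex_right]
  have hsplit : J.index * N.relIndex MA = LA.relIndex MA := by
    rw [← hJ, AddSubgroup.relIndex_mul_relIndex _ _ _ le_sup_left hNM,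
      AddSubgroup.inf_relIndex_right]
  have hJ0 : J.index ≠ 0 := by
    intro h; rw [h, zero_mul] at hsplit; exact h0 hsplit.symm
  have hN0 : N.relIndex MA ≠ 0 := by
    intro h; rw [h, mul_zero] at hsplit; exact h0 hsplit.symm
  -- the subgroup `a J`
  let aJ : AddSubgroup R := (J.map (AddMonoidHom.mulLeft α)).comap (AddMonoidHom.mulLeft β)
  have hmap : aJ.map (AddMonoidHom.mulLeft β) = J.map (AddMonoidHom.mulLeft α) := by
    apply AddSubgroup.map_comap_eq_self
    rintro _ ⟨l, hl, rfl⟩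
    have hl' : l • x ∈ L := hl
    have h1 : algebraMap R K l * Q v ∈ (algebraMap R K).range := by
      have h2 : Q v = Q x + Q y - QuadraticMap.polar Q x y := by
        rw [hv, sub_eq_add_neg, Q_add, QuadraticMap.map_neg, QuadraticMap.polar_neg_right]; ring
      have h3 : algebraMap R K l * QuadraticMap.polar Q x y = QuadraticMap.polar Q (l • x) y := by
        rw [← algebraMap_smul K l x, QuadraticMap.polar_smul_left, smul_eq_mul]
      rw [h2, mul_sub, h3]
      exact sub_mem (mul_mem ⟨l, rfl⟩ (add_mem (hM _ hxM) (hL _ hyL))) (hL.polar hl' hyL)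
    obtain ⟨r, hr⟩ := h1
    refine ⟨r, hinj ?_⟩
    simp only [AddMonoidHom.coe_mulLeft, map_mul]
    rw [hr, ← hαβ]
    field_simp
  have haJ : aJ.index * nrm β = J.index * nrm α := by
    rw [nrm_of_ne hβ0, nrm_of_ne hα0, ← index_map_mul β hβ0, ← index_map_mul α hα0, hmap]
  have haJ0 : aJ.index ≠ 0 := by
    intro h
    rw [h, zero_mul] at haJ
    exact mul_ne_zero hJ0 (hfin α hα0) haJ.symm
  have haJlt : aJ.index < J.index := by
    by_contra h
    push Not at h
    have h1 : J.index * nrm α < J.index * nrm β :=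
      Nat.mul_lt_mul_of_pos_left hlt (Nat.pos_of_ne_zero hJ0)
    have h2 : J.index * nrm β ≤ aJ.index * nrm β := Nat.mul_le_mul_right _ h
    omega
  have haJI : aJ ≤ I := by
    rintro r ⟨l, hl, hr⟩
    have hl' : l • x ∈ L := hl
    show r • ((Q v)⁻¹ • v) ∈ L
    have h1 : algebraMap R K r * (Q v)⁻¹ = algebraMap R K l := by
      have h2 := congrArg (algebraMap R K) hr
      simp only [AddMonoidHom.coe_mulLeft, map_mul] at h2
      have hαK : algebraMap R K α ≠ 0 := fun e => hα0 (hinj (by simpa using e))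
      rw [← hαβ]
      field_simp
      linear_combination -h2
    rw [← algebraMap_smul K r, smul_smul, h1, algebraMap_smul, hv, smul_sub]
    exact sub_mem hl' (L.smul_mem l hyL)
  have hI0 : I.index ≠ 0 := by
    intro h
    exact haJ0 (Nat.eq_zero_of_zero_dvd (h ▸ AddSubgroup.index_dvd_of_le haJI))
  have hIle : I.index ≤ aJ.index := Nat.le_of_dvd (Nat.pos_of_ne_zero haJ0)
    (AddSubgroup.index_dvd_of_le haJI)
  have hg : ∀ c ∈ (algebraMap R K).range, ((Q v)⁻¹ * c) • v ∈ g.range := by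
    rintro _ ⟨r, rfl⟩
    refine ⟨r, ?_⟩
    show r • ((Q v)⁻¹ • v) = _
    rw [← algebraMap_smul K r, smul_smul, mul_comm]
  have hτN : N.map τ ≤ LA ⊔ g.range := by
    rw [AddSubgroup.map_le_iff_le_comap]
    refine sup_le ?_ ?_
    · rintro m ⟨hmL, hmM⟩
      show refl Q v m ∈ LA ⊔ g.range
      rw [refl_apply]
      refine sub_mem (AddSubgroup.mem_sup_left hmL) (AddSubgroup.mem_sup_right (hg _ ?_))
      rw [hv, QuadraticMap.polar_sub_left]
      exact sub_mem (hM.polar hxM hmM) (hL.polar hyL hmL)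
    · rintro _ ⟨r, rfl⟩
      show refl Q v (r • x) ∈ LA ⊔ g.range
      have h1 : refl Q v x = y - ((Q v)⁻¹ * (Q x - Q y)) • v := by
        have h2 : x = v + y := by rw [hv]; abel
        have h3 : Q x = Q v + Q y + QuadraticMap.polar Q v y := by rw [h2, Q_add]
        have h4 : QuadraticMap.polar Q v x = 2 * Q v + QuadraticMap.polar Q v y := by
          rw [h2, QuadraticMap.polar_add_right, QuadraticMap.polar_self]; simp
        rw [refl_apply, h4, h3]
        have h5 : (Q v)⁻¹ * (2 * Q v + QuadraticMap.polar Q v y) =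
            1 + (Q v)⁻¹ * (Q v + Q y + QuadraticMap.polar Q v y - Q y) := by
          field_simp; ring
        rw [h5, add_smul, one_smul]
        nth_rewrite 1 [h2]
        abel
      rw [← algebraMap_smul K r, map_smul, h1, smul_sub, smul_smul, algebraMap_smul,
        mul_left_comm]
      refine sub_mem (AddSubgroup.mem_sup_left (L.smul_mem r hyL))
        (AddSubgroup.mem_sup_right (hg _ ?_))
      exact mul_mem ⟨r, rfl⟩ (sub_mem (hM _ hxM) (hL _ hyL))
  have hIeq : LA.relIndex (LA ⊔ g.range) = I.index := by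
    rw [AddSubgroup.relIndex_sup_left, AddSubgroup.index_comap]
  let L' : AddSubgroup V := LA.comap τ
  have hL'N : L'.relIndex N = LA.relIndex (N.map τ) := AddSubgroup.relIndex_comap _ _ _
  have hL'N0 : L'.relIndex N ≠ 0 := by
    rw [hL'N]
    intro h
    exact hI0 (hIeq ▸ AddSubgroup.relIndex_eq_zero_of_le_right hτN h)
  have hL'Nle : L'.relIndex N ≤ I.index := by
    rw [hL'N, ← hIeq]
    exact AddSubgroup.relIndex_le_of_le_right hτN (hIeq ▸ hI0)
  have hprod : (L' ⊓ N).relIndex MA = L'.relIndex N * N.relIndex MA := by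
    rw [← AddSubgroup.relIndex_mul_relIndex _ _ _ inf_le_right hNM, AddSubgroup.inf_relIndex_right]
  have hfinal : LA.relIndex (M.map ((refl Q v).restrictScalars R)).toAddSubgroup =
      L'.relIndex MA := by
    rw [AddSubgroup.relIndex_comap]; rfl
  have hp0 : (L' ⊓ N).relIndex MA ≠ 0 := by rw [hprod]; exact mul_ne_zero hL'N0 hN0
  rw [hfinal]
  refine ⟨fun h => hp0 (AddSubgroup.relIndex_eq_zero_of_le_left inf_le_left h), ?_⟩
  calc L'.relIndex MA ≤ (L' ⊓ N).relIndex MA := AddSubgroup.relIndex_le_of_le_left inf_le_left hp0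
    _ = L'.relIndex N * N.relIndex MA := hprod
    _ < J.index * N.relIndex MA :=
      Nat.mul_lt_mul_of_pos_right (by omega) (Nat.pos_of_ne_zero hN0)
    _ = _ := hsplit

theorem embed (hfin : ∀ x : R, x ≠ 0 → nrm x ≠ 0) (Q : QuadraticForm K V)
    (haniso : ∀ x, Q x = 0 → x = 0) (L : Submodule R V) (hL : Intg Q L)
    (heuc : ∀ x, ∃ y ∈ L, absK R (Q (x - y)) < 1) (M : Submodule R V) (hM : Intg Q M)
    (h0 : L.toAddSubgroup.relIndex M.toAddSubgroup ≠ 0) :
    ∃ σ : V ≃ₗ[K] V, (∀ x, Q (σ x) = Q x) ∧ ∀ x ∈ M, σ x ∈ L := by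
  generalize hN : L.toAddSubgroup.relIndex M.toAddSubgroup = N
  induction N using Nat.strong_induction_on generalizing M with
  | _ N ih =>
    by_cases hML : M ≤ L
    · exact ⟨LinearEquiv.refl K V, fun _ => rfl, fun x hx => hML hx⟩
    obtain ⟨v, hv, h1, h2⟩ := step hfin Q haniso L M hL hM heuc h0 hML
    obtain ⟨σ, hσ1, hσ2⟩ := ih _ (hN ▸ h2) (M.map ((refl Q v).restrictScalars R)) (by
      rintro _ ⟨x, hx, rfl⟩
      show Q (refl Q v x) ∈ _
      rw [Q_refl Q v hv]
      exact hM x hx) h1 rfl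
    let τ : V ≃ₗ[K] V := LinearEquiv.ofInvolutive (refl Q v) (refl_refl Q v hv)
    refine ⟨τ.trans σ, fun x => ?_, fun x hx => hσ2 _ ⟨x, hx, rfl⟩⟩
    show Q (σ (refl Q v x)) = Q x
    rw [hσ1, Q_refl Q v hv]

end Pool.Agent.H51.QFReflect
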