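import Mathlib

set_option autoImplicit false
open Matrix

namespace Pool.Agent.H51.QuasiNil
open scoped commutatorElement

def M1 (p : Fin 3 → ℤ) : Matrix (Fin 4) (Fin 4) ℤ :=
  !![0, p 0, p 1, p 2; -p 0, 0, p 2, -p 1; -p 1, -p 2, 0, p 0; -p 2, p 1, -p 0, 0]

def M2 (p : Fin 3 → ℤ) : Matrix (Fin 4) (Fin 4) ℤ :=
  !![0, p 0, p 1, p 2; -p 0, 0, p 2, -p 1; -p 1, -p 2, 0, 2 * p 0 - p 1;
    -p 2, p 1, -(2 * p 0 - p 1), 0]

def Om (p : Fin 3 → ℤ) : Matrix (Fin 8) (Fin 8) ℤ :=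
  (fromBlocks (M1 p) 0 0 (M2 p)).submatrix (finSumFinEquiv (m := 4) (n := 4)).symm
    (finSumFinEquiv (m := 4) (n := 4)).symm

def Q1 (p : Fin 3 → ℤ) : ℤ := p 0 ^ 2 + p 1 ^ 2 + p 2 ^ 2
def Q2 (p : Fin 3 → ℤ) : ℤ := 2 * p 0 ^ 2 - p 0 * p 1 + p 1 ^ 2 + p 2 ^ 2

theorem det_Om (p : Fin 3 → ℤ) : (Om p).det = (Q1 p * Q2 p) ^ 2 := by
  rw [Om, det_submatrix_equiv_self, det_fromBlocks_zero₂₁]
  simp [M1, M2, Q1, Q2, det_succ_row_zero, Fin.sum_univ_succ, Fin.succAbove]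
  ring

theorem Om_lin (a b : ℤ) (s t : Fin 3 → ℤ) : Om (a • s + b • t) = a • Om s + b • Om t := by
  have h1 : M1 (a • s + b • t) = a • M1 s + b • M1 t := by
    ext i j; fin_cases i <;> fin_cases j <;> simp [M1] <;> ring
  have h2 : M2 (a • s + b • t) = a • M2 s + b • M2 t := by
    ext i j; fin_cases i <;> fin_cases j <;> simp [M2] <;> ring
  ext i j
  simp only [Om, h1, h2, submatrix_apply, Matrix.add_apply, Matrix.smul_apply]
  rcases (finSumFinEquiv (m := 4) (n := 4)).symm i with i | i <;>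
    rcases (finSumFinEquiv (m := 4) (n := 4)).symm j with j | j <;> simp [-zsmul_eq_mul]

theorem Om_skew (p : Fin 3 → ℤ) : (Om p)ᵀ = -Om p := by
  have h1 : ∀ i j, M1 p j i = -M1 p i j := by
    intro i j; fin_cases i <;> fin_cases j <;> simp [M1]
  have h2 : ∀ i j, M2 p j i = -M2 p i j := by
    intro i j; fin_cases i <;> fin_cases j <;> simp [M2]
  ext i j
  simp only [Om, submatrix_apply, transpose_apply, neg_apply]
  rcases (finSumFinEquiv (m := 4) (n := 4)).symm i with i | i <;>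
    rcases (finSumFinEquiv (m := 4) (n := 4)).symm j with j | j <;> simp [h1 i, h2 i]

def e (k : Fin 3) : Fin 3 → ℤ := Pi.single k 1

theorem Om_exp (p : Fin 3 → ℤ) : Om p = p 0 • Om (e 0) + p 1 • Om (e 1) + p 2 • Om (e 2) := by
  rw [← Om_lin, ← one_smul ℤ (Om (_ + _)), ← Om_lin]
  congr 1
  ext i; fin_cases i <;> simp [e]

@[ext] structure K {k : ℕ} (L : Fin k → Fin 3 → ℤ) where
  v : Fin 8 → ℤ
  c : Fin k → ℤ

variable {k : ℕ} {L : Fin k → Fin 3 → ℤ}

instance : Mul (K L) := ⟨fun x y => ⟨x.v + y.v, x.c + y.c + fun j => x.v ⬝ᵥ Om (L j) *ᵥ y.v⟩⟩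
instance : One (K L) := ⟨⟨0, 0⟩⟩
instance : Inv (K L) := ⟨fun x => ⟨-x.v, -x.c⟩⟩

@[simp] theorem mul_v (x y : K L) : (x * y).v = x.v + y.v := rfl
@[simp] theorem mul_c (x y : K L) (j : Fin k) :
    (x * y).c j = x.c j + y.c j + x.v ⬝ᵥ Om (L j) *ᵥ y.v := rfl
@[simp] theorem one_v : (1 : K L).v = 0 := rfl
@[simp] theorem one_c : (1 : K L).c = 0 := rfl
@[simp] theorem inv_v (x : K L) : (x⁻¹).v = -x.v := rfl
@[simp] theorem inv_c (x : K L) : (x⁻¹).c = -x.c := rfl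

theorem skew (p : Fin 3 → ℤ) (v w : Fin 8 → ℤ) : w ⬝ᵥ Om p *ᵥ v = -(v ⬝ᵥ Om p *ᵥ w) := by
  rw [dotProduct_mulVec, ← mulVec_transpose, Om_skew, dotProduct_comm, neg_mulVec, dotProduct_neg]

@[simp] theorem alt (p : Fin 3 → ℤ) (v : Fin 8 → ℤ) : v ⬝ᵥ Om p *ᵥ v = 0 := by
  have := skew p v v
  omega

instance : Group (K L) := Group.ofLeftAxioms
  (fun a b c => by
    ext j
    · simp [add_assoc]
    · simp [mulVec_add]; ring)
  (fun a => by ext j <;> simp) (fun a => by ext j <;> simp)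

theorem pow_eq (x : K L) (n : ℕ) : x ^ n = ⟨n • x.v, n • x.c⟩ := by
  induction n with
  | zero => ext j <;> simp
  | succ n ih => rw [pow_succ, ih]; ext j <;> simp [add_mul, smul_dotProduct, -nsmul_eq_mul, add_smul]

theorem zpow_eq (x : K L) (n : ℤ) : x ^ n = ⟨n • x.v, n • x.c⟩ := by
  cases n with
  | ofNat n => simp [pow_eq]
  | negSucc n => rw [zpow_negSucc, pow_eq]; ext j <;> simp [Int.negSucc_eq] <;> ring

theorem comm_eq (x y : K L) : ⁅x, y⁆ = ⟨0, fun j => 2 * (x.v ⬝ᵥ Om (L j) *ᵥ y.v)⟩ := by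
  rw [commutatorElement_def]
  ext j
  · simp
  · simp [mulVec_neg, skew (L j) x.v y.v]; ring

theorem tf (g : K L) (n : ℕ) (hn : 0 < n) (h : g ^ n = 1) : g = 1 := by
  rw [pow_eq] at h
  have h1 := congrArg K.v h
  have h2 := congrArg K.c h
  simp only [one_v, one_c, smul_eq_zero, hn.ne', false_or] at h1 h2
  exact K.ext h1 h2

theorem cl2 : upperCentralSeries (K L) 2 = ⊤ := by
  show Subgroup.upperCentralSeries (K L) 2 = ⊤
  rw [eq_top_iff]
  intro x _
  rw [mem_upperCentralSeries_succ_iff]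
  intro y
  rw [upperCentralSeries_one, Subgroup.mem_center_iff]
  intro z
  rw [comm_eq]
  ext j <;> simp [add_comm]

def pr (L : Fin k → Fin 3 → ℤ) : K e →* K L := MonoidHom.mk'
  (fun x => ⟨x.v, fun j => L j ⬝ᵥ x.c⟩) (fun x y => by
    ext j
    · rfl
    · simp only [mul_c, dotProduct, Fin.sum_univ_three]
      rw [Om_exp (L j)]
      simp only [add_mulVec, smul_mulVec, Pi.add_apply, Pi.smul_apply, smul_eq_mul, mul_add,
        Finset.sum_add_distrib, mul_left_comm _ (L j _), ← Finset.mul_sum]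
      ring)

theorem pr_c (L : Fin k → Fin 3 → ℤ) (x : K e) (j : Fin k) : (pr L x).c j = L j ⬝ᵥ x.c := rfl

def xv (i : Fin 8) : FreeGroup (Fin 11) := FreeGroup.of (Fin.castAdd 3 i)
def uv (i : Fin 3) : FreeGroup (Fin 11) := FreeGroup.of (Fin.natAdd 8 i)

def rel (i j : Fin 8) : FreeGroup (Fin 11) :=
  ⁅xv i, xv j⁆⁻¹ * (uv 0 ^ Om (e 0) i j * uv 1 ^ Om (e 1) i j * uv 2 ^ Om (e 2) i j)

def R : List (FreeGroup (Fin 11)) :=
  (List.finRange 8).flatMap fun i => (List.finRange 8).map fun j => rel i j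

theorem mem_R (w : FreeGroup (Fin 11)) : w ∈ R ↔ ∃ i j, rel i j = w := by simp [R]

def f0 : Fin 11 → K e :=
  Fin.append (m := 8) (n := 3) (fun i => ⟨Pi.single i 1, 0⟩) (fun i => ⟨0, Pi.single i 2⟩)

theorem f0_rel (i j : Fin 8) : FreeGroup.lift f0 (rel i j) = 1 := by
  simp only [rel, xv, uv, map_mul, map_inv, map_zpow, map_commutatorElement, FreeGroup.lift_apply_of,
    f0, Fin.append_left, Fin.append_right, comm_eq, zpow_eq]
  ext l
  · simp
  · fin_cases l <;> simp <;> ring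

theorem f0_u : FreeGroup.lift f0 (uv 0) ≠ 1 := by
  simp only [uv, FreeGroup.lift_apply_of, f0, Fin.append_right]
  intro h
  simpa using congrFun (congrArg K.c h) 0

theorem Q1_nonneg (p : Fin 3 → ℤ) : 0 ≤ Q1 p := by unfold Q1; positivity
theorem Q2_nonneg (p : Fin 3 → ℤ) : 0 ≤ Q2 p := by
  unfold Q2; nlinarith [sq_nonneg (p 0 - p 1), sq_nonneg (p 0), sq_nonneg (p 1), sq_nonneg (p 2)]

theorem analyse {L : Fin 2 → Fin 3 → ℤ} (f : Fin 11 → K L)
    (h : ∀ w ∈ R, FreeGroup.lift f w = 1) :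
    (∀ i, (FreeGroup.lift f (uv i)).v = 0) ∧ ∃ d : ℤ, ∀ a b : ℤ,
      d * (Q1 (a • L 0 + b • L 1) * Q2 (a • L 0 + b • L 1)) =
      Q1 (a • (fun i => (FreeGroup.lift f (uv i)).c 0) + b • fun i => (FreeGroup.lift f (uv i)).c 1) *
      Q2 (a • (fun i => (FreeGroup.lift f (uv i)).c 0) +
        b • fun i => (FreeGroup.lift f (uv i)).c 1) := by
  have h1 : ∀ i j, FreeGroup.lift f (rel i j) = 1 := fun i j => h _ ((mem_R _).2 ⟨i, j, rfl⟩)
  simp only [rel, map_mul, map_inv, map_zpow, map_commutatorElement, comm_eq, zpow_eq,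
    inv_mul_eq_one] at h1
  generalize hu : (fun i => FreeGroup.lift f (uv i)) = u
  have hu' : ∀ i, FreeGroup.lift f (uv i) = u i := fun i => congrFun hu i
  simp only [hu'] at h1 ⊢
  have hv : ∀ i, (u i).v = 0 := by
    have a1 := congrArg K.v (h1 0 1)
    have a2 := congrArg K.v (h1 0 2)
    have a3 := congrArg K.v (h1 0 3)
    have b : ∀ i j : Fin 3, Om (e i) 0 (Fin.castLE (by norm_num) j.succ) = if i = j then 1 else 0 := by
      decide
    have b0 := fun i => b i 0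
    have b1 := fun i => b i 1
    have b2 := fun i => b i 2
    simp only [show Fin.castLE (by norm_num : 4 ≤ 8) (Fin.succ 0) = 1 from rfl,
      show Fin.castLE (by norm_num : 4 ≤ 8) (Fin.succ 1) = 2 from rfl,
      show Fin.castLE (by norm_num : 4 ≤ 8) (Fin.succ 2) = 3 from rfl] at b0 b1 b2
    simp [b0, b1, b2] at a1 a2 a3
    intro i
    fin_cases i
    exacts [a1.symm, a2.symm, a3.symm]
  refine ⟨hv, ?_⟩
  let φ : Matrix (Fin 8) (Fin 8) ℤ := Matrix.of fun i => (FreeGroup.lift f (xv i)).v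
  have h2 : ∀ l, (2 : ℤ) • (φ * Om (L l) * φᵀ) = Om fun i => (u i).c l := by
    intro l
    ext i j
    have := congrFun (congrArg K.c (h1 i j)) l
    simp only [mul_c, mul_v, hv, smul_zero, add_zero, zero_dotProduct, Pi.smul_apply,
      smul_eq_mul] at this
    rw [Om_exp fun i => (u i).c l, Matrix.mul_assoc]
    simp only [Matrix.smul_apply, Matrix.add_apply, smul_eq_mul]
    refine Eq.trans ?_ (this.trans (by ring))
    rfl
  refine ⟨|16 * φ.det|, fun a b => ?_⟩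
  have h3 := congrArg det (Om_lin a b (fun i => (u i).c 0) (fun i => (u i).c 1))
  have h4 : a • (2 : ℤ) • (φ * Om (L 0) * φᵀ) + b • (2 : ℤ) • (φ * Om (L 1) * φᵀ) =
      (2 : ℤ) • (φ * Om (a • L 0 + b • L 1) * φᵀ) := by
    rw [Om_lin, Matrix.mul_add, Matrix.add_mul, Matrix.mul_smul, Matrix.mul_smul, Matrix.smul_mul,
      Matrix.smul_mul, smul_add, smul_comm a, smul_comm b]
  rw [← h2 0, ← h2 1, h4, det_smul, det_mul, det_mul, det_transpose, det_Om, det_Om] at h3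
  refine (pow_left_inj₀ (mul_nonneg (abs_nonneg _) (mul_nonneg (Q1_nonneg _) (Q2_nonneg _)))
    (mul_nonneg (Q1_nonneg _) (Q2_nonneg _)) two_ne_zero).1 ?_
  rw [h3, mul_pow, sq_abs, Fintype.card_fin]
  ring

theorem irr (a b : ℤ) (h : a ^ 2 = 2 * b ^ 2) : b = 0 := by
  by_contra hb
  have : Irrational (√2) := irrational_sqrt_two
  apply this
  refine ⟨|(a : ℚ) / b|, ?_⟩
  rw [eq_comm, Real.sqrt_eq_iff_mul_self_eq (by norm_num) (by positivity)]
  have hb' : (b : ℝ) ≠ 0 := by exact_mod_cast hb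
  have h' : (a : ℝ) ^ 2 = 2 * b ^ 2 := by exact_mod_cast h
  push_cast
  rw [abs_mul_abs_self]
  field_simp
  linarith

theorem prop2 (m d A B C A' B' C' : ℤ) (hm : 0 < m)
    (h : ∀ a b : ℤ, d * (m * a ^ 2 + b ^ 2) ^ 2 =
      (A * a ^ 2 + B * a * b + C * b ^ 2) * (A' * a ^ 2 + B' * a * b + C' * b ^ 2))
    (hC : 0 < C) (hC' : 0 < C') : B = 0 ∧ B' = 0 ∧ A = m * C ∧ A' = m * C' := by
  have e1 := h 1 0
  have e2 := h 0 1
  have e3 := h 1 1
  have e4 := h 1 (-1)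
  have e5 := h 2 1
  have c0 : d * m ^ 2 = A * A' := by linarith
  have c4 : d = C * C' := by linarith
  have c2 : 2 * d * m = A * C' + B * B' + C * A' := by nlinarith
  have c13 : A * B' + A' * B + (B * C' + B' * C) = 0 := by nlinarith
  have c1 : A * B' + A' * B = 0 := by nlinarith
  have c3 : B * C' + B' * C = 0 := by linarith
  have k : ((A - m * C) ^ 2 + m * B ^ 2) * ((A' - m * C') ^ 2 + m * B' ^ 2) = 0 := by
    have r1 : (A - m * C) * (A' - m * C') - m * (B * B') = 0 := by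
      linear_combination -c0 + m * c2 - m ^ 2 * c4
    have r2 : (A - m * C) * B' + B * (A' - m * C') = 0 := by linear_combination c1 - m * c3
    linear_combination ((A - m * C) * (A' - m * C') - m * (B * B')) * r1 +
      m * ((A - m * C) * B' + B * (A' - m * C')) * r2
  rcases mul_eq_zero.1 k with k | k
  · have b0 : B = 0 := by nlinarith [sq_nonneg (A - m * C), sq_nonneg B]
    have a0 : A = m * C := by nlinarith [sq_nonneg (A - m * C), sq_nonneg B]
    subst b0 a0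
    refine ⟨rfl, by nlinarith, rfl, ?_⟩
    apply mul_left_cancel₀ hC.ne'
    linear_combination -c2 + 2 * m * c4
  · have b0 : B' = 0 := by nlinarith [sq_nonneg (A' - m * C'), sq_nonneg B']
    have a0 : A' = m * C' := by nlinarith [sq_nonneg (A' - m * C'), sq_nonneg B']
    subst b0 a0
    refine ⟨by nlinarith, rfl, ?_, rfl⟩
    apply mul_left_cancel₀ hC'.ne'
    linear_combination -c2 + 2 * m * c4

theorem core (m d : ℤ) (hm : 0 < m) (s t : Fin 3 → ℤ)
    (h : ∀ a b : ℤ, d * (m * a ^ 2 + b ^ 2) ^ 2 = Q1 (a • s + b • t) * Q2 (a • s + b • t)) :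
    (s = 0 ∧ t = 0) ∨ (Q1 s = m * Q1 t ∧ s 0 * t 0 + s 1 * t 1 + s 2 * t 2 = 0 ∧ 0 < Q1 t ∧
      ((s 0 = 0 ∧ t 0 = 0) ∨ (s 0 = s 1 ∧ t 0 = t 1))) := by
  have z : ∀ p : Fin 3 → ℤ, p ≠ 0 → 0 < Q1 p ∧ 0 < Q2 p := fun p hp => by
    have h1 : 0 < Q1 p := by
      refine lt_of_le_of_ne (Q1_nonneg p) fun e => hp ?_
      unfold Q1 at e
      ext i
      fin_cases i <;> simp <;> nlinarith [sq_nonneg (p 0), sq_nonneg (p 1), sq_nonneg (p 2)]
    refine ⟨h1, ?_⟩
    unfold Q1 Q2 at *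
    nlinarith [sq_nonneg (p 0 - p 1), sq_nonneg (p 0), sq_nonneg (p 1), sq_nonneg (p 2)]
  by_cases ht : t = 0
  · refine Or.inl ⟨by_contra fun hs => ?_, ht⟩
    have e1 := h 0 1
    have e2 := h 1 0
    simp only [ht, zero_smul, smul_zero, add_zero, one_smul] at e1 e2
    have : d = 0 := by simpa [Q1] using e1
    rw [this, zero_mul] at e2
    exact (mul_pos (z s hs).1 (z s hs).2).ne e2
  · obtain ⟨k1, k2, k3, k4⟩ := prop2 m d (Q1 s) (2 * (s 0 * t 0 + s 1 * t 1 + s 2 * t 2)) (Q1 t)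
      (Q2 s) (4 * s 0 * t 0 - s 0 * t 1 - s 1 * t 0 + 2 * s 1 * t 1 + 2 * s 2 * t 2) (Q2 t) hm
      (fun a b => by rw [h]; simp only [Q1, Q2, Pi.add_apply, Pi.smul_apply, smul_eq_mul]; ring)
      (z t ht).1 (z t ht).2
    refine Or.inr ⟨k3, by omega, (z t ht).1, ?_⟩
    unfold Q1 Q2 at *
    have a1 : s 0 * (s 0 - s 1) = m * (t 0 * (t 0 - t 1)) := by linear_combination k4 - k3
    have a2 : s 0 * (t 0 - t 1) + (s 0 - s 1) * t 0 = 0 := by linear_combination k2 - k1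
    have a3 : (s 0 ^ 2 + m * t 0 ^ 2) * ((s 0 - s 1) ^ 2 + m * (t 0 - t 1) ^ 2) = 0 := by
      linear_combination (s 0 * (s 0 - s 1) - m * (t 0 * (t 0 - t 1))) * a1 +
        m * (s 0 * (t 0 - t 1) + (s 0 - s 1) * t 0) * a2
    rcases mul_eq_zero.1 a3 with a | a
    · exact Or.inl ⟨by nlinarith [sq_nonneg (s 0), sq_nonneg (t 0)],
        by nlinarith [sq_nonneg (s 0), sq_nonneg (t 0)]⟩
    · exact Or.inr ⟨by nlinarith [sq_nonneg (s 0 - s 1), sq_nonneg (t 0 - t 1)],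
        by nlinarith [sq_nonneg (s 0 - s 1), sq_nonneg (t 0 - t 1)]⟩

def L1 : Fin 2 → Fin 3 → ℤ := ![![0, 1, 0], ![0, 0, 1]]
def L2 : Fin 2 → Fin 3 → ℤ := ![![1, 1, 0], ![0, 0, 1]]
def L3 : Fin 2 → Fin 3 → ℤ := ![![1, 0, 0], ![0, 0, 1]]

theorem K1q (f : Fin 11 → K L1) (h : ∀ w ∈ R, FreeGroup.lift f w = 1) :
    FreeGroup.lift f (uv 0) = 1 := by
  obtain ⟨hv, d, hd⟩ := analyse f h
  have key : (FreeGroup.lift f (uv 0)).c 0 = 0 ∧ (FreeGroup.lift f (uv 0)).c 1 = 0 := by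
    rcases core 1 d one_pos _ _ (fun a b => by rw [← hd]; simp [Q1, Q2, L1]; left; ring) with
      ⟨h1, h2⟩ | ⟨h1, h2, h3, h4 | ⟨h4, h5⟩⟩
    · exact ⟨congrFun h1 0, congrFun h2 0⟩
    · exact h4
    · simp only [Q1] at h1 h3
      simp only [← h4, ← h5] at h1 h2 h3
      generalize (FreeGroup.lift f (uv 0)).c 0 = a at *
      generalize (FreeGroup.lift f (uv 0)).c 1 = b at *
      generalize (FreeGroup.lift f (uv 2)).c 0 = c at *
      generalize (FreeGroup.lift f (uv 2)).c 1 = e at *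
      have := irr (b ^ 2 + b ^ 2 + e ^ 2) (a * e - c * b) (by
        linear_combination -(b ^ 2 + b ^ 2 + e ^ 2) * h1 + (a * b + a * b + c * e) * h2)
      have : (b ^ 2 + b ^ 2 + e ^ 2) ^ 2 = 0 := by
        linear_combination -(b ^ 2 + b ^ 2 + e ^ 2) * h1 + (a * b + a * b + c * e) * h2 +
          2 * (a * e - c * b) * this
      exact absurd (pow_eq_zero_iff two_ne_zero |>.1 this) h3.ne'
  exact K.ext (hv 0) (funext fun j => by fin_cases j; exacts [key.1, key.2])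

theorem K2q (f : Fin 11 → K L2) (h : ∀ w ∈ R, FreeGroup.lift f w = 1) :
    FreeGroup.lift f (uv 0 * (uv 1)⁻¹) = 1 := by
  obtain ⟨hv, d, hd⟩ := analyse f h
  have key : (FreeGroup.lift f (uv 0)).c 0 = (FreeGroup.lift f (uv 1)).c 0 ∧
      (FreeGroup.lift f (uv 0)).c 1 = (FreeGroup.lift f (uv 1)).c 1 := by
    rcases core 2 d two_pos _ _ (fun a b => by rw [← hd]; simp [Q1, Q2, L2]; left; ring) with
      ⟨h1, h2⟩ | ⟨h1, h2, h3, ⟨h4, h5⟩ | h4⟩
    · exact ⟨(congrFun h1 0).trans (congrFun h1 1).symm, (congrFun h2 0).trans (congrFun h2 1).symm⟩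
    · simp only [Q1] at h1 h3
      simp only [h4, h5] at h1 h2 h3
      generalize (FreeGroup.lift f (uv 1)).c 0 = a at *
      generalize (FreeGroup.lift f (uv 1)).c 1 = b at *
      generalize (FreeGroup.lift f (uv 2)).c 0 = c at *
      generalize (FreeGroup.lift f (uv 2)).c 1 = e at *
      have := irr (a * e - c * b) (0 ^ 2 + b ^ 2 + e ^ 2) (by
        linear_combination (b ^ 2 + e ^ 2) * h1 - (a * b + c * e) * h2)
      exact absurd this h3.ne'
    · exact h4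
  rw [map_mul, map_inv, mul_inv_eq_one]
  exact K.ext ((hv 0).trans (hv 1).symm) (funext fun j => by fin_cases j; exacts [key.1, key.2])

theorem K3q (f : Fin 11 → K L3) (h : ∀ w ∈ (uv 0 * (uv 1)⁻¹) :: R, FreeGroup.lift f w = 1) :
    FreeGroup.lift f (uv 0) = 1 := by
  obtain ⟨hv, d, hd⟩ := analyse f fun w hw => h w (List.mem_cons_of_mem _ hw)
  have h0 := h _ List.mem_cons_self
  rw [map_mul, map_inv, mul_inv_eq_one] at h0
  have e1 := hd 1 0
  have e2 := hd 0 1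
  have q : ∀ a b : ℤ, Q1 (a • L3 0 + b • L3 1) * Q2 (a • L3 0 + b • L3 1) =
      (a ^ 2 + b ^ 2) * (2 * a ^ 2 + b ^ 2) := fun a b => by simp [Q1, Q2, L3]
  rw [q] at e1 e2
  simp only [Q1, Q2, Pi.add_apply, Pi.smul_apply, smul_eq_mul, ← h0] at e1 e2
  refine K.ext (hv 0) (funext fun j => ?_)
  generalize FreeGroup.lift f (uv 0) = x at e1 e2 ⊢
  generalize FreeGroup.lift f (uv 2) = y at e1 e2
  have a1 := irr (2 * x.c 0 ^ 2 + y.c 0 ^ 2) (2 * x.c 1 ^ 2 + y.c 1 ^ 2) (by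
    linear_combination -e1 + 2 * e2)
  have a2 : (2 * x.c 0 ^ 2 + y.c 0 ^ 2) ^ 2 = 0 := by
    linear_combination -e1 + 2 * e2 + 2 * (2 * x.c 1 ^ 2 + y.c 1 ^ 2) * a1
  have a3 := pow_eq_zero_iff two_ne_zero |>.1 a2
  fin_cases j
  · show x.c 0 = 0
    nlinarith [sq_nonneg (x.c 0), sq_nonneg (y.c 0)]
  · show x.c 1 = 0
    nlinarith [sq_nonneg (x.c 1), sq_nonneg (y.c 1)]

abbrev QI : Type := Σ n : ℕ, List (FreeGroup (Fin n)) × FreeGroup (Fin n)

def Sat (G : Type) [Group G] (q : QI) : Prop :=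
  ∀ f : Fin q.1 → G, (∀ w ∈ q.2.1, FreeGroup.lift f w = 1) → FreeGroup.lift f q.2.2 = 1

theorem lift_pr {G H : Type} [Group G] [Group H] (π : G →* H) {n : ℕ} (f : Fin n → G)
    (w : FreeGroup (Fin n)) : FreeGroup.lift (π ∘ f) w = π (FreeGroup.lift f w) := by
  have : FreeGroup.lift (π ∘ f) = π.comp (FreeGroup.lift f) := by ext; simp
  rw [this]; rfl

theorem Sat.img {G H : Type} [Group G] [Group H] (π : G →* H) {q : QI} (h : Sat H q)
    (f : Fin q.1 → G) (hf : ∀ w ∈ q.2.1, FreeGroup.lift f w = 1) :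
    π (FreeGroup.lift f q.2.2) = 1 := by
  rw [← lift_pr]
  exact h _ fun w hw => by rw [lift_pr, hf w hw, map_one]

theorem sub (q : QI) (h1 : Sat (K L1) q) (h2 : Sat (K L2) q ∨ Sat (K L3) q) : Sat (K e) q := by
  intro f hf
  have a := h1.img (pr L1) f hf
  generalize hx : FreeGroup.lift f q.2.2 = x at a
  have a1 : x.c 1 = 0 := by simpa [L1, dotProduct, Fin.sum_univ_three] using (pr_c L1 x 0).symm.trans (congrFun (congrArg K.c a) 0)
  have a2 : x.c 2 = 0 := by simpa [L1, dotProduct, Fin.sum_univ_three] using (pr_c L1 x 1).symm.trans (congrFun (congrArg K.c a) 1)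
  have a0 : x.c 0 = 0 := by
    rcases h2 with h | h
    · have b := h.img (pr L2) f hf
      rw [hx] at b
      have : x.c 0 + x.c 1 = 0 := by simpa [L2, dotProduct, Fin.sum_univ_three] using (pr_c L2 x 0).symm.trans (congrFun (congrArg K.c b) 0)
      omega
    · have b := h.img (pr L3) f hf
      rw [hx] at b
      simpa [L3, dotProduct, Fin.sum_univ_three] using (pr_c L3 x 0).symm.trans (congrFun (congrArg K.c b) 0)
  exact K.ext (congrArg K.v a :) (funext fun j => by fin_cases j; exacts [a0, a1, a2])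

end Pool.Agent.H51.QuasiNil
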