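import Pool.Agent.H51.RAltDefs

namespace Pool.Agent.H51.RAlt
open Pool.Agent.H51.RAltDefs

/-- Elements `a + b x + c t`. -/
def T : Type := ZMod 2 × ZMod 2 × ZMod 2

instance : AddCommGroup T := inferInstanceAs (AddCommGroup (ZMod 2 × ZMod 2 × ZMod 2))
instance : Fintype T := inferInstanceAs (Fintype (ZMod 2 × ZMod 2 × ZMod 2))
instance : DecidableEq T := inferInstanceAs (DecidableEq (ZMod 2 × ZMod 2 × ZMod 2))

instance : NonUnitalNonAssocRing T where
  mul u v := (u.1 * v.1 + v.2.2 * u.2.1, u.1 * v.2.1 + u.2.1 * v.1, 0)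
  left_distrib := by decide
  right_distrib := by decide
  zero_mul := by decide
  mul_zero := by decide

theorem ralt : ∀ x y : T, (x * y) * y = x * (y * y) := by decide

/-- The ideal of elements without `t`. -/
def I : AddSubgroup T where
  carrier := {u | u.2.2 = 0}
  add_mem' := by
    intro a b ha hb
    show a.2.2 + b.2.2 = 0
    rw [ha, hb, add_zero]
  zero_mem' := rfl
  neg_mem' := by
    intro a ha
    show -a.2.2 = 0
    rw [ha, neg_zero]

/-- The ideal generated by `x` in `I`. -/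
def J : AddSubgroup T where
  carrier := {u | u.1 = 0 ∧ u.2.2 = 0}
  add_mem' := by
    rintro a b ⟨ha, ha'⟩ ⟨hb, hb'⟩
    show a.1 + b.1 = 0 ∧ a.2.2 + b.2.2 = 0
    rw [ha, hb, ha', hb', add_zero]
    exact ⟨rfl, rfl⟩
  zero_mem' := ⟨rfl, rfl⟩
  neg_mem' := by
    rintro a ⟨ha, ha'⟩
    show -a.1 = 0 ∧ -a.2.2 = 0
    rw [ha, ha', neg_zero]
    exact ⟨rfl, rfl⟩

/-- The unit of `I`. -/
def e : T := (1, 0, 0)

theorem e_ne : e ≠ 0 := by decide

/-- The element `x`. -/
def xx : T := (0, 1, 0)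

theorem xx_ne : xx ≠ 0 := by decide

theorem minimal : IsMinimalIdeal I := by
  refine ⟨⟨le_top, fun a _ x _ => ⟨rfl, rfl⟩⟩, fun h => e_ne ?_, fun K hK hKI => ?_⟩
  · have : e ∈ I := rfl
    rwa [h] at this
  · by_cases h : K = ⊥
    · exact Or.inl h
    right
    obtain ⟨u, hu, hu0⟩ : ∃ u ∈ K, u ≠ 0 := by
      by_contra hc
      push Not at hc
      exact h ((AddSubgroup.eq_bot_iff_forall K).mpr hc)
    have hu2 : u.2.2 = 0 := hKI hu
    refine le_antisymm hKI fun v hv => ?_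
    have hv2 : v.2.2 = 0 := hv
    have key : ∀ u v : T, u ≠ 0 → u.2.2 = 0 → v.2.2 = 0 → ∃ a b c : T, v = ((u * a) * b) * c := by
      decide
    obtain ⟨a, b, c, rfl⟩ := key u v hu0 hu2 hv2
    exact (hK.2 c trivial _ (hK.2 b trivial _ (hK.2 a trivial _ hu).2).2).2

theorem not_simple : ¬ IsSimpleAsRing I := by
  rintro ⟨-, h⟩
  have key : ∀ a x : T, a.2.2 = 0 → x.1 = 0 → (a * x).1 = 0 ∧ (x * a).1 = 0 ∨ x.2.2 ≠ 0 := by
    decide
  rcases h J ⟨fun u hu => hu.2, fun a ha x hx => by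
    rcases key a x ha hx.1 with h | h
    · exact ⟨⟨h.1, rfl⟩, ⟨h.2, rfl⟩⟩
    · exact absurd hx.2 h⟩ with h | h
  · have : xx ∈ J := ⟨rfl, rfl⟩
    rw [h] at this
    exact xx_ne this
  · have : e ∈ J := h ▸ (rfl : e ∈ I)
    exact absurd this.1 (by decide)

theorem not_solvable : ¬ IsSolvable I := by
  rintro ⟨k, hk⟩
  have : ∀ k, e ∈ derived I k := by
    intro k
    induction k with
    | zero => rfl
    | succ k ih => exact AddSubgroup.subset_closure ⟨e, ih, e, ih, by decide⟩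
  exact e_ne (by have := this k; rwa [hk] at this)

theorem not_rightNilpotent : ¬ IsRightNilpotent I := by
  rintro ⟨k, hk⟩
  have : ∀ k, e ∈ rightPow I k := by
    intro k
    induction k with
    | zero => rfl
    | succ k ih => exact AddSubgroup.subset_closure ⟨e, ih, e, rfl, by decide⟩
  exact e_ne (by have := this k; rwa [hk] at this)

end Pool.Agent.H51.RAlt
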