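import Mathlib

/-! Minimal ideals of nonassociative rings. -/

namespace Pool.Agent.H51.RAltDefs

variable {R : Type} [NonUnitalNonAssocRing R]

/-- `A B`: the additive subgroup spanned by all products `a * b` with `a ∈ A`, `b ∈ B`. -/
def mulSub (A B : AddSubgroup R) : AddSubgroup R :=
  AddSubgroup.closure {z | ∃ a ∈ A, ∃ b ∈ B, z = a * b}

/-- `J` is a two-sided ideal of the subring `A`: an additive subgroup of `A` closed under left and
right multiplication by elements of `A`. With `A = ⊤` these are the ideals of `R`. -/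
def IsIdealOf (J A : AddSubgroup R) : Prop :=
  J ≤ A ∧ ∀ a ∈ A, ∀ x ∈ J, a * x ∈ J ∧ x * a ∈ J

/-- A minimal ideal of `R`: a nonzero ideal containing no ideal of `R` other than `0` and itself. -/
def IsMinimalIdeal (I : AddSubgroup R) : Prop :=
  IsIdealOf I ⊤ ∧ I ≠ ⊥ ∧ ∀ J : AddSubgroup R, IsIdealOf J ⊤ → J ≤ I → J = ⊥ ∨ J = I

/-- `I` is simple as a ring: `I ^ 2 ≠ 0` and `I` has no two-sided ideals other than `0` and `I`. -/
def IsSimpleAsRing (I : AddSubgroup R) : Prop :=
  mulSub I I ≠ ⊥ ∧ ∀ J : AddSubgroup R, IsIdealOf J I → J = ⊥ ∨ J = I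

/-- The derived series. -/
def derived (I : AddSubgroup R) : ℕ → AddSubgroup R
  | 0 => I
  | k + 1 => mulSub (derived I k) (derived I k)

/-- The right powers: `rightPow I n` is the `(n + 1)`-st right power. -/
def rightPow (I : AddSubgroup R) : ℕ → AddSubgroup R
  | 0 => I
  | k + 1 => mulSub (rightPow I k) I

/-- `I` is solvable. -/
def IsSolvable (I : AddSubgroup R) : Prop := ∃ k, derived I k = ⊥

/-- `I` is right nilpotent. -/
def IsRightNilpotent (I : AddSubgroup R) : Prop := ∃ k, rightPow I k = ⊥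

end Pool.Agent.H51.RAltDefs
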