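import Mathlib

set_option autoImplicit false

namespace Pool.Agent.H51.RadoF2

variable {X : Type} [CommGroup X]

def Spec (S : Set X) : Prop := (1 : X) ∉ S ∧ ∀ U V : Finset X, Disjoint U V →
  ∃ z : X, z ∉ U ∧ z ∉ V ∧ (∀ u ∈ U, z * u⁻¹ ∈ S) ∧ (∀ v ∈ V, z * v⁻¹ ∉ S)

def Good (S T : Set X) (Γ : Subgroup (X × X)) : Prop :=
  (Γ : Set (X × X)).Finite ∧ ∀ p ∈ Γ, (p.1 = 1 ↔ p.2 = 1) ∧ (p.1 ∈ S ↔ p.2 ∈ T)

theorem ext1 (h2 : ∀ x : X, x * x = 1) {S T : Set X} (hT : Spec T) {Γ : Subgroup (X × X)}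
    (hΓ : Good S T Γ) (a : X) : ∃ Δ, Good S T Δ ∧ Γ ≤ Δ ∧ ∃ b, (a, b) ∈ Δ := by
  classical
  by_cases ha : ∃ b, (a, b) ∈ Γ
  · exact ⟨Γ, hΓ, le_rfl, ha⟩
  have hinv : ∀ x : X, x⁻¹ = x := fun x => inv_eq_of_mul_eq_one_right (h2 x)
  have h2' : ∀ x : X × X, x * x = 1 := fun x => Prod.ext (h2 _) (h2 _)
  have hinv' : ∀ x : X × X, x⁻¹ = x := fun x => inv_eq_of_mul_eq_one_right (h2' x)
  obtain ⟨z, hz1, hz2, hz3, hz4⟩ := hT.2
    ((hΓ.1.toFinset.filter fun p => a * p.1 ∈ S).image Prod.snd)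
    ((hΓ.1.toFinset.filter fun p => a * p.1 ∉ S).image Prod.snd) (by
      rw [Finset.disjoint_left]
      intro x hx hx'
      simp only [Finset.mem_image, Finset.mem_filter, Set.Finite.mem_toFinset, SetLike.mem_coe]
        at hx hx'
      obtain ⟨p, ⟨hp, hp1⟩, rfl⟩ := hx
      obtain ⟨q, ⟨hq, hq1⟩, hpq⟩ := hx'
      have := ((hΓ.2 _ (mul_mem hp (inv_mem hq))).1.2 (by simp [hpq]))
      simp only [Prod.fst_mul, Prod.fst_inv, mul_inv_eq_one] at this
      exact hq1 (this ▸ hp1))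
  simp only [Finset.mem_image, Finset.mem_filter, Set.Finite.mem_toFinset, SetLike.mem_coe,
    not_exists, not_and, and_imp, forall_exists_index, hinv] at hz1 hz2 hz3 hz4
  let c : X × X := (a, z)
  let Δ : Subgroup (X × X) :=
    { carrier := {q | q ∈ Γ ∨ c * q ∈ Γ}
      one_mem' := Or.inl Γ.one_mem
      inv_mem' := fun {x} hx => by rwa [hinv']
      mul_mem' := by
        rintro x y (hx | hx) (hy | hy)
        · exact Or.inl (mul_mem hx hy)
        · right; rw [mul_left_comm]; exact mul_mem hx hy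
        · right; rw [← mul_assoc]; exact mul_mem hx hy
        · left
          have := mul_mem hx hy
          rwa [mul_mul_mul_comm, h2', one_mul] at this }
  refine ⟨Δ, ⟨?_, ?_⟩, fun x hx => Or.inl hx, z, Or.inr (by rw [h2']; exact Γ.one_mem)⟩
  · exact hΓ.1.union (hΓ.1.preimage (mul_right_injective c).injOn)
  · rintro p (hp | hp)
    · exact hΓ.2 p hp
    · have e1 : p.1 = a * (c * p).1 := by
        show _ = a * (a * p.1); rw [← mul_assoc, h2, one_mul]
      have e2 : p.2 = z * (c * p).2 := by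
        show _ = z * (z * p.2); rw [← mul_assoc, h2, one_mul]
      refine ⟨iff_of_false ?_ ?_, ?_⟩
      · intro h
        apply ha
        refine ⟨(c * p).2, ?_⟩
        have : (a, (c * p).2) = c * p := Prod.ext (by simp [c, h]) rfl
        rwa [this]
      · intro h
        have e : (c * p).2 = z := by simp [c, h]
        by_cases hs : a * (c * p).1 ∈ S
        · exact hz1 _ hp hs e
        · exact hz2 _ hp hs e
      · rw [e1, e2]
        by_cases hs : a * (c * p).1 ∈ S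
        · exact iff_of_true hs (hz3 _ _ hp hs rfl)
        · exact iff_of_false hs (hz4 _ _ hp hs rfl)

theorem Good.swap {S T : Set X} {Γ : Subgroup (X × X)} (h : Good S T Γ) :
    Good T S (Γ.comap (MulEquiv.prodComm : X × X ≃* X × X).toMonoidHom) :=
  ⟨h.1.preimage (f := Prod.swap) Prod.swap_injective.injOn, fun p hp => ⟨(h.2 _ hp).1.symm, (h.2 _ hp).2.symm⟩⟩

theorem uniq [Countable X] (h2 : ∀ x : X, x * x = 1) {S T : Set X} (hS : Spec S) (hT : Spec T) :
    ∃ σ : MulAut X, (fun x => σ x) '' S = T := by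
  let P := {Γ // Good S T Γ}
  let p0 : P := ⟨⊥, by simp, fun p hp => by
    rw [Subgroup.mem_bot] at hp
    simp [hp, hS.1, hT.1]⟩
  let D : X ⊕ X → Order.Cofinal P := fun i => match i with
    | Sum.inl a => ⟨{Γ | ∃ b, (a, b) ∈ Γ.1}, fun Γ => by
        obtain ⟨Δ, h1, h3, h4⟩ := ext1 h2 hT Γ.2 a
        exact ⟨⟨Δ, h1⟩, h4, h3⟩⟩
    | Sum.inr b => ⟨{Γ | ∃ a, (a, b) ∈ Γ.1}, fun Γ => by
        obtain ⟨Δ, h1, h3, a, h4⟩ := ext1 h2 hS Γ.2.swap b
        exact ⟨⟨_, h1.swap⟩, ⟨a, h4⟩, fun x hx => h3 (show x.swap ∈ _ from hx)⟩⟩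
  letI := Encodable.ofCountable (X ⊕ X)
  let s := Order.sequenceOfCofinals p0 D
  have hs : Monotone s := Order.sequenceOfCofinals.monotone p0 D
  have hm : ∀ x, x ∈ ⨆ n, (s n).1 ↔ ∃ n, x ∈ (s n).1 := fun x =>
    Subgroup.mem_iSup_of_directed (Monotone.directed_le fun a b h => hs h)
  have hg : ∀ p ∈ ⨆ n, (s n).1, (p.1 = 1 ↔ p.2 = 1) ∧ (p.1 ∈ S ↔ p.2 ∈ T) := fun p hp => by
    obtain ⟨n, hn⟩ := (hm p).1 hp
    exact (s n).2.2 p hn
  obtain ⟨e, he⟩ := Subgroup.exists_mulEquiv_eq_graph (G := ⨆ n, (s n).1)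
    ⟨(injective_iff_map_eq_one ((MonoidHom.fst X X).comp (Subgroup.subtype _))).2
      fun p hp => Subtype.ext (Prod.ext hp ((hg _ p.2).1.1 hp)), fun a => by
        obtain ⟨b, hb⟩ := Order.sequenceOfCofinals.encode_mem p0 D (Sum.inl a)
        exact ⟨⟨(a, b), (hm _).2 ⟨_, hb⟩⟩, rfl⟩⟩
    ⟨(injective_iff_map_eq_one ((MonoidHom.snd X X).comp (Subgroup.subtype _))).2
      fun p hp => Subtype.ext (Prod.ext ((hg _ p.2).1.2 hp) hp), fun b => by
        obtain ⟨a, hb⟩ := Order.sequenceOfCofinals.encode_mem p0 D (Sum.inr b)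
        exact ⟨⟨(a, b), (hm _).2 ⟨_, hb⟩⟩, rfl⟩⟩
  have h : ∀ x, x ∈ S ↔ e x ∈ T := fun x => (hg (x, e x) (by rw [he]; rfl)).2
  refine ⟨e, Set.ext fun y => ⟨?_, fun hy => ⟨e.symm y, by rw [h]; simpa using hy, by simp⟩⟩⟩
  rintro ⟨x, hx, rfl⟩
  exact (h x).1 hx

abbrev Y := Multiplicative (ℕ →₀ ZMod 2)

instance : Countable Y := inferInstanceAs (Countable (ℕ →₀ ZMod 2))

theorem Y_sq (x : Y) : x * x = 1 := by
  apply Multiplicative.toAdd.injective
  ext n
  simp [CharTwo.add_self_eq_zero]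

theorem Y_card : Cardinal.mk (MulAut Y) = Cardinal.continuum := by
  apply le_antisymm
  · calc Cardinal.mk (MulAut Y) ≤ Cardinal.mk (Y → Y) :=
          Cardinal.mk_le_of_injective (f := fun σ x => σ x) DFunLike.coe_injective
      _ = _ := by simp
  · have h : Cardinal.mk (Equiv.Perm ℕ) = Cardinal.continuum := by
      rw [Cardinal.mk_perm_eq_two_power]; simp
    rw [← h]
    refine Cardinal.mk_le_of_injective
      (f := fun σ => AddEquiv.toMultiplicative (Finsupp.domCongr σ)) fun σ τ h => ?_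
    ext n
    have := congrArg (fun e : MulAut Y => (e (Multiplicative.ofAdd (Finsupp.single n 1))).toAdd) h
    simpa [Finsupp.single_left_inj] using this

end Pool.Agent.H51.RadoF2
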