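import Pool.Agent.H51.RegDefs

namespace Pool.Agent.H51.RegBasic
open Pool.Agent.H51.RegDefs

/-- A set of sequences closed under the `k` decimation maps contains the kernel of its members. -/
theorem kernel_subset_of_closed {α : Type} {k : ℕ} (hk : 0 < k) (S : Set (ℕ → α))
    (hS : ∀ f ∈ S, ∀ r < k, (fun n => f (k * n + r)) ∈ S) {a : ℕ → α} (ha : a ∈ S) :
    kernel k a ⊆ S := by
  rintro f ⟨e, r, hr, rfl⟩
  induction e generalizing r with
  | zero =>
    have : r = 0 := by simpa using hr
    subst this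
    simpa using ha
  | succ e ih =>
    have hpos : 0 < k ^ e := pow_pos hk e
    have h1 : r % k ^ e < k ^ e := Nat.mod_lt _ hpos
    have h2 : r / k ^ e < k := by
      rw [Nat.div_lt_iff_lt_mul hpos]
      calc r < k ^ (e + 1) := hr
        _ = k * k ^ e := by ring
    have := hS _ (ih _ h1) _ h2
    convert this using 3
    have := Nat.mod_add_div r (k ^ e)
    rename_i n
    calc k ^ (e + 1) * n + r = k ^ (e + 1) * n + (r % k ^ e + k ^ e * (r / k ^ e)) := by rw [this]
      _ = _ := by ring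

theorem isRegular_of_closed {k : ℕ} (hk : 0 < k) (G : Finset (ℕ → ℤ))
    (hG : ∀ f ∈ G, ∀ r < k, (fun n => f (k * n + r)) ∈ Submodule.span ℤ (G : Set (ℕ → ℤ)))
    {a : ℕ → ℤ} (ha : a ∈ Submodule.span ℤ (G : Set (ℕ → ℤ))) : IsRegular k a := by
  have hfg : (Submodule.span ℤ (G : Set (ℕ → ℤ))).FG := ⟨G, rfl⟩
  refine hfg.of_le ?_
  rw [Submodule.span_le]
  refine kernel_subset_of_closed hk _ ?_ ha
  intro f hf r hr
  induction hf using Submodule.span_induction with
  | mem x hx => exact hG x hx r hr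
  | zero => exact Submodule.zero_mem _
  | add x y _ _ hx hy => exact Submodule.add_mem _ hx hy
  | smul c x _ hx => exact Submodule.smul_mem _ c hx

theorem isAutomatic_of_closed {α : Type} {k : ℕ} (hk : 0 < k) (S : Set (ℕ → α)) (hfin : S.Finite)
    (hS : ∀ f ∈ S, ∀ r < k, (fun n => f (k * n + r)) ∈ S) {a : ℕ → α} (ha : a ∈ S)
    (hr : (Set.range a).Finite) : IsAutomatic k a :=
  ⟨hr, hfin.subset (kernel_subset_of_closed hk S hS ha)⟩

/-- A finitely generated module of integer sequences contains no infinite triangular family. -/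
theorem not_fg_of_diag (M : Submodule ℤ (ℕ → ℤ)) (z : ℕ → ℕ → ℤ) (p : ℕ → ℕ)
    (hz : ∀ e, z e ∈ M) (h1 : ∀ e, z e (p e) ≠ 0) (h2 : ∀ e e', e' ≠ e → z e' (p e) = 0) :
    ¬ M.FG := by
  intro hM
  haveI : IsNoetherian ℤ M := isNoetherian_of_fg_of_noetherian M hM
  have hli : LinearIndependent ℤ (fun e => (⟨z e, hz e⟩ : M)) := by
    rw [linearIndependent_iff']
    intro s g hsum i hi
    have h := congrArg (fun x : M => (x : ℕ → ℤ) (p i)) hsum
    simp only [AddSubmonoidClass.coe_finset_sum, SetLike.val_smul, Finset.sum_apply, Pi.smul_apply,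
      smul_eq_mul, ZeroMemClass.coe_zero, Pi.zero_apply] at h
    rw [Finset.sum_eq_single i] at h
    · exact (mul_eq_zero.mp h).resolve_right (h1 i)
    · intro b _ hb; rw [h2 i b hb, mul_zero]
    · intro hn; exact absurd hi hn
  have := hli.finite_of_isNoetherian
  exact not_finite ℕ

end Pool.Agent.H51.RegBasic
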