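import Mathlib

/-!
Definitions for k-regular and k-automatic sequences (Allouche and Shallit).
-/

namespace Pool.Agent.H51.RegDefs

/-- The `k`-kernel of a sequence `a`: all subsequences `n ↦ a (k ^ e * n + r)` with `r < k ^ e`. -/
def kernel {α : Type} (k : ℕ) (a : ℕ → α) : Set (ℕ → α) :=
  {f | ∃ e r : ℕ, r < k ^ e ∧ f = fun n => a (k ^ e * n + r)}

/-- An integer sequence is `k`-regular if the `ℤ`-module generated by its `k`-kernel is
finitely generated. -/
def IsRegular (k : ℕ) (a : ℕ → ℤ) : Prop :=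
  (Submodule.span ℤ (kernel k a)).FG

/-- A sequence is `k`-automatic if it takes finitely many values and its `k`-kernel is finite. -/
def IsAutomatic {α : Type} (k : ℕ) (a : ℕ → α) : Prop :=
  (Set.range a).Finite ∧ (kernel k a).Finite

/-- A two-dimensional integer array `c` is 2-regular if there are finitely many arrays such that
every subarray `(m, n) ↦ c (2 ^ e * m + r) (2 ^ e * n + t)` with `r, t < 2 ^ e` is a `ℤ`-linear
combination of them. -/
def IsTwoRegularArray (c : ℕ → ℕ → ℤ) : Prop :=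
  ∃ (s : ℕ) (g : Fin s → ℕ → ℕ → ℤ), ∀ e r t : ℕ, r < 2 ^ e → t < 2 ^ e →
    ∃ coef : Fin s → ℤ, ∀ m n : ℕ, c (2 ^ e * m + r) (2 ^ e * n + t) = ∑ i, coef i * g i m n

end Pool.Agent.H51.RegDefs
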