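import Mathlib

namespace Pool.Agent.H51.Riesz
open Finset

variable {V J : Type*} [Fintype V] [DecidableEq V] [Fintype J] [DecidableEq J]

/-- edges with exactly one end in `S` -/
def cutS (u v : J → V) (S : Finset V) : Finset J := univ.filter (fun j => ¬ (u j ∈ S ↔ v j ∈ S))

/-- class of a label -/
def cls (c : V → V) (x : V) : Finset V := univ.filter (fun w => c w = x)

/-- edges between different classes -/
def cross (u v : J → V) (c : V → V) : Finset J := univ.filter (fun j => c (u j) ≠ c (v j))

theorem sum_cut_le (u v : J → V) (c : V → V) :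
    ∑ x ∈ univ.image c, (cutS u v (cls c x)).card ≤ 2 * (cross u v c).card := by
  have h1 := card_eq_sum_card_fiberwise (s := cross u v c) (t := univ.image c)
    (f := fun j => c (u j)) (fun j _ => mem_coe.2 (mem_image_of_mem c (mem_univ _)))
  have h2 := card_eq_sum_card_fiberwise (s := cross u v c) (t := univ.image c)
    (f := fun j => c (v j)) (fun j _ => mem_coe.2 (mem_image_of_mem c (mem_univ _)))
  rw [two_mul]
  nth_rewrite 1 [h1]
  rw [h2, ← sum_add_distrib]
  apply sum_le_sum
  intro x _
  refine le_trans (card_le_card ?_) (card_union_le _ _)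
  intro j hj
  simp only [cutS, cls, cross, mem_filter, mem_univ, true_and, mem_union] at hj ⊢
  by_cases a1 : c (u j) = x
  · left
    refine ⟨fun h => hj ⟨fun _ => h ▸ a1, fun _ => a1⟩, a1⟩
  · right
    have a2 : c (v j) = x := by
      by_contra a2
      exact hj ⟨fun h => absurd h a1, fun h => absurd h a2⟩
    exact ⟨fun h => a1 (h ▸ a2), a2⟩

theorem cut_union (u v : J → V) (S T : Finset V) (j0 : J) (h1 : j0 ∈ cutS u v S)
    (h2 : j0 ∈ cutS u v T) (h3 : j0 ∉ cutS u v (S ∪ T)) :
    (cutS u v (S ∪ T)).card + 2 ≤ (cutS u v S).card + (cutS u v T).card := by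
  have a1 : cutS u v (S ∪ T) ⊆ (cutS u v S ∪ cutS u v T).erase j0 := by
    intro j hj
    refine mem_erase.2 ⟨fun e => h3 (e ▸ hj), ?_⟩
    simp only [cutS, mem_filter, mem_univ, true_and, mem_union] at hj ⊢
    tauto
  have a2 := card_le_card a1
  rw [card_erase_of_mem (mem_union_left _ h1)] at a2
  have a3 := card_union_add_card_inter (cutS u v S) (cutS u v T)
  have a4 : 0 < (cutS u v S ∩ cutS u v T).card := card_pos.2 ⟨j0, mem_inter.2 ⟨h1, h2⟩⟩
  have a5 : 0 < (cutS u v S ∪ cutS u v T).card := card_pos.2 ⟨j0, mem_union_left _ h1⟩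
  omega

theorem no_expand_aux [Nonempty V] (u v : J → V) (K D M : ℕ)
    (hexp : ∀ S : Finset V, S.card ≤ M → S.card ≤ K * (cutS u v S).card)
    (hM : 2 * (K * D) ≤ M) :
    ∀ (r : ℕ) (c : V → V), (univ.image c).card = r →
      (∀ x ∈ univ.image c, (cutS u v (cls c x)).card ≤ D ∧ (cls c x).card ≤ K * D) →
      (cross u v c).card ≤ r → False := by
  intro r
  induction r using Nat.strong_induction_on with
  | _ r ih =>
    intro c hr hinv hcr
    have hpos : 0 < r := by
      rw [← hr]; exact card_pos.2 (univ_nonempty.image c)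
    obtain ⟨q, hq, hq2⟩ : ∃ q ∈ univ.image c, (cutS u v (cls c q)).card ≤ 2 := by
      by_contra hc
      push Not at hc
      have a1 := card_nsmul_le_sum (univ.image c) (fun x => (cutS u v (cls c x)).card) 3
        (fun x hx => hc x hx)
      have a2 := sum_cut_le u v c
      rw [hr, smul_eq_mul] at a1
      omega
    have hq3 : 0 < (cls c q).card := by
      obtain ⟨w, _, hw⟩ := mem_image.1 hq
      exact card_pos.2 ⟨w, by simp [cls, hw]⟩
    have hq4 := hexp (cls c q) (by have := (hinv q hq).2; omega)
    obtain ⟨j0, hj0⟩ : (cutS u v (cls c q)).Nonempty := by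
      apply card_pos.1
      rcases Nat.eq_zero_or_pos (cutS u v (cls c q)).card with h | h
      · rw [h] at hq4; omega
      · exact h
    obtain ⟨p, hp, hpq, hj⟩ : ∃ p ∈ univ.image c, p ≠ q ∧
        ((c (u j0) = q ∧ c (v j0) = p) ∨ (c (u j0) = p ∧ c (v j0) = q)) := by
      simp only [cutS, cls, mem_filter, mem_univ, true_and] at hj0
      by_cases a1 : c (u j0) = q
      · refine ⟨c (v j0), mem_image_of_mem c (mem_univ _), fun h => hj0 ⟨fun _ => h, fun _ => a1⟩,
          Or.inl ⟨a1, rfl⟩⟩
      · have a2 : c (v j0) = q := by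
          by_contra a2
          exact hj0 ⟨fun h => absurd h a1, fun h => absurd h a2⟩
        exact ⟨c (u j0), mem_image_of_mem c (mem_univ _), a1, Or.inr ⟨rfl, a2⟩⟩
    set c' : V → V := fun w => if c w = q then p else c w with hc'
    have himg : univ.image c' = (univ.image c).erase q := by
      ext x
      simp only [mem_image, mem_univ, true_and, mem_erase, hc']
      constructor
      · rintro ⟨w, rfl⟩
        by_cases a : c w = q
        · simp only [a, if_true]
          exact ⟨hpq, by simpa using hp⟩
        · simp only [a, if_false]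
          exact ⟨a, w, rfl⟩
      · rintro ⟨a, w, rfl⟩
        exact ⟨w, by simp [a]⟩
    have hcp : cls c' p = cls c p ∪ cls c q := by
      ext w
      simp only [cls, mem_filter, mem_univ, true_and, mem_union, hc']
      by_cases a : c w = q
      · simp [a]
      · simp [a]
    have hco : ∀ x, x ≠ p → x ≠ q → cls c' x = cls c x := by
      intro x a1 a2
      ext w
      simp only [cls, mem_filter, mem_univ, true_and, hc']
      by_cases a : c w = q
      · simp only [a, if_true]
        exact ⟨fun h => absurd h.symm a1, fun h => absurd h.symm a2⟩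
      · simp [a]
    refine ih (r - 1) (by omega) c' (by rw [himg, card_erase_of_mem hq, hr]) ?_ ?_
    · intro x hx
      rw [himg, mem_erase] at hx
      by_cases a : x = p
      · subst a
        rw [hcp]
        have b1 := cut_union u v (cls c x) (cls c q) j0 ?_ ?_ ?_
        · have b2 := hinv x hp
          have b3 := hinv q hq
          have b4 : (cutS u v (cls c x ∪ cls c q)).card ≤ D := by omega
          refine ⟨b4, ?_⟩
          have b5 := card_union_le (cls c x) (cls c q)
          exact (hexp _ (by omega)).trans (Nat.mul_le_mul_left _ b4)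
        · simp only [cutS, cls, mem_filter, mem_univ, true_and]
          rcases hj with ⟨e1, e2⟩ | ⟨e1, e2⟩ <;> simp [e1, e2, hpq.symm]
        · exact hj0
        · simp only [cutS, cls, mem_filter, mem_univ, true_and, mem_union]
          rcases hj with ⟨e1, e2⟩ | ⟨e1, e2⟩ <;> simp [e1, e2]
      · rw [hco x a hx.1]
        exact hinv x hx.2
    · have a1 : cross u v c' ⊆ (cross u v c).erase j0 := by
        intro j hj'
        simp only [cross, mem_filter, mem_univ, true_and, mem_erase, hc'] at hj' ⊢
        refine ⟨?_, fun h => hj' (by rw [h])⟩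
        rintro rfl
        apply hj'
        rcases hj with ⟨e1, e2⟩ | ⟨e1, e2⟩ <;> simp [e1, e2]
      have a2 : j0 ∈ cross u v c := by
        simp only [cross, mem_filter, mem_univ, true_and]
        rcases hj with ⟨e1, e2⟩ | ⟨e1, e2⟩
        · rw [e1, e2]; exact hpq.symm
        · rw [e1, e2]; exact hpq
      have a3 := card_le_card a1
      rw [card_erase_of_mem a2] at a3
      omega

theorem no_expand [Nonempty V] (u v : J → V) (K D M : ℕ) (hJ : Fintype.card J ≤ Fintype.card V)
    (hdeg : ∀ x, (cutS u v {x}).card ≤ D)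
    (hexp : ∀ S : Finset V, S.card ≤ M → S.card ≤ K * (cutS u v S).card)
    (hM : 2 * (K * D) ≤ M) (hM1 : 1 ≤ M) : False := by
  refine no_expand_aux u v K D M hexp hM _ id rfl ?_ ?_
  · intro x _
    have e : cls id x = {x} := by ext w; simp [cls]
    rw [e]
    exact ⟨hdeg x, (hexp {x} (by simpa using hM1)).trans (Nat.mul_le_mul_left _ (hdeg x))⟩
  · rw [image_id, card_univ]
    exact (card_le_univ _).trans hJ

end Pool.Agent.H51.Riesz
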