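import Mathlib
import Pool.Agent.H51.RieszA

namespace Pool.Agent.H51.Riesz
open Finset Matrix

variable {p : ℕ} [NeZero p]

/-- Fourier coefficients of an indicator -/
noncomputable def co (R : Finset (ZMod p)) (t : ZMod p) : ℂ :=
  (p : ℂ)⁻¹ * ∑ s ∈ R, ZMod.stdAddChar (t * s)

theorem conj_psi (x : ZMod p) :
    (starRingEnd ℂ) (ZMod.stdAddChar x) = ZMod.stdAddChar (-x) := by
  rw [AddChar.map_neg_eq_inv, ZMod.stdAddChar_apply, ← Circle.coe_inv_eq_conj, Circle.coe_inv]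

theorem norm_psi (x : ZMod p) : ‖(ZMod.stdAddChar x : ℂ)‖ = 1 := by
  rw [ZMod.stdAddChar_apply]; exact Circle.norm_coe _

theorem co_inv (R : Finset (ZMod p)) (s' : ZMod p) :
    ∑ t, ZMod.stdAddChar (-(t * s')) * co R t = if s' ∈ R then 1 else 0 := by
  have hp : (p : ℂ) ≠ 0 := by exact_mod_cast NeZero.ne p
  have h1 : ∀ t, ZMod.stdAddChar (-(t * s')) * co R t =
      (p : ℂ)⁻¹ * ∑ s ∈ R, ZMod.stdAddChar (t * (s - s')) := by
    intro t
    unfold co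
    rw [mul_left_comm, mul_sum]
    congr 1
    apply sum_congr rfl
    intro s _
    rw [← AddChar.map_add_eq_mul]
    congr 1; ring
  simp_rw [h1]
  rw [← mul_sum, sum_comm]
  simp_rw [AddChar.sum_mulShift _ (ZMod.isPrimitive_stdAddChar p), sub_eq_zero, ZMod.card]
  simp only [Nat.cast_ite, Nat.cast_zero, sum_ite_eq']
  split_ifs
  · exact inv_mul_cancel₀ hp
  · simp

theorem co_parseval (R : Finset (ZMod p)) : ∑ t, ‖co R t‖ ^ 2 = (R.card : ℝ) / p := by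
  have h1 : ∀ t, ((‖co R t‖ ^ 2 : ℝ) : ℂ) =
      (p : ℂ)⁻¹ * ∑ s ∈ R, ZMod.stdAddChar (-(t * s)) * co R t := by
    intro t
    rw [← Complex.normSq_eq_norm_sq, Complex.normSq_eq_conj_mul_self, ← sum_mul, ← mul_assoc]
    congr 1
    unfold co
    rw [map_mul, map_sum]
    simp_rw [conj_psi]
    simp
  have h2 : ((∑ t, ‖co R t‖ ^ 2 : ℝ) : ℂ) = (((R.card : ℝ) / p : ℝ) : ℂ) := by
    rw [Complex.ofReal_sum]
    simp_rw [h1]
    rw [← mul_sum, sum_comm]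
    simp_rw [co_inv]
    rw [sum_congr rfl (fun s hs => if_pos hs)]
    simp [div_eq_inv_mul]
  exact_mod_cast h2

theorem co_zero (R : Finset (ZMod p)) : ‖co R 0‖ = (R.card : ℝ) / p := by
  unfold co
  simp [div_eq_inv_mul]

theorem co_lower (R : Finset (ZMod p)) (h : 2 * R.card ≤ p) :
    (R.card : ℝ) / (2 * p) ≤ ∑ t, if t = 0 then 0 else ‖co R t‖ ^ 2 := by
  have h1 := co_parseval R
  have h2 : ∑ t, ‖co R t‖ ^ 2 =
      (∑ t, if t = 0 then 0 else ‖co R t‖ ^ 2) + ∑ t, if t = 0 then ‖co R t‖ ^ 2 else 0 := by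
    rw [← sum_add_distrib]
    apply sum_congr rfl
    intro t _
    split_ifs <;> simp
  rw [sum_ite_eq' univ 0, if_pos (mem_univ _), co_zero] at h2
  have hp : (0 : ℝ) < p := by exact_mod_cast Nat.pos_of_ne_zero (NeZero.ne p)
  have h3 : (2 : ℝ) * R.card ≤ p := by exact_mod_cast h
  have h4 : (R.card : ℝ) / p ≤ 1 / 2 := by rw [div_le_div_iff₀ hp (by norm_num)]; linarith
  have h5 : (0 : ℝ) ≤ (R.card : ℝ) / p := by positivity
  have h6 : (R.card : ℝ) / (2 * p) = (R.card : ℝ) / p * (1 / 2) := by field_simp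
  rw [h6]
  nlinarith

/-- the test vector -/
noncomputable def tv (S1 S2 : Finset (ZMod p)) (x : ZMod p × ZMod p) : ℂ :=
  (if x.1 = 0 then co S1 x.2 else 0) - (if x.1 = x.2 then co S2 x.2 else 0)

theorem sum_E {M : Type*} [AddCommMonoid M] (E : Finset (ZMod p × ZMod p))
    (h1 : ∀ t, (0, t) ∈ E) (h2 : ∀ t, (t, t) ∈ E) (S1 S2 : Finset (ZMod p))
    (F : ZMod p × ZMod p → ℂ → M) (hF : ∀ x, F x 0 = 0) :
    ∑ i : E, F i (tv S1 S2 i) = ∑ x, F x (tv S1 S2 x) := by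
  rw [sum_coe_sort E (fun x => F x (tv S1 S2 x))]
  apply sum_subset (subset_univ _)
  rintro ⟨x, y⟩ _ hx
  have a1 : x ≠ 0 := by rintro rfl; exact hx (h1 y)
  have a2 : x ≠ y := by rintro rfl; exact hx (h2 x)
  simp [tv, a1, a2, hF]

theorem tv_apply (S1 S2 : Finset (ZMod p)) (b : ZMod p × ZMod p) :
    ∑ x : ZMod p × ZMod p, ZMod.stdAddChar (-(b.1 * x.1 + b.2 * x.2)) * tv S1 S2 x =
      (if b.2 ∈ S1 then 1 else 0) - (if b.1 + b.2 ∈ S2 then 1 else 0) := by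
  rw [← co_inv, ← co_inv]
  unfold tv
  simp_rw [mul_sub]
  rw [sum_sub_distrib, Fintype.sum_prod_type_right, Fintype.sum_prod_type_right]
  congr 1
  · apply sum_congr rfl
    intro t _
    simp_rw [mul_ite, mul_zero]
    rw [sum_ite_eq' univ 0, if_pos (mem_univ _)]
    congr 2; ring
  · apply sum_congr rfl
    intro t _
    simp_rw [mul_ite, mul_zero]
    rw [sum_ite_eq' univ t, if_pos (mem_univ _)]
    congr 2; ring

theorem tv_upper (S1 S2 : Finset (ZMod p)) :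
    ∑ x, ‖tv S1 S2 x‖ ^ 2 ≤ 2 * ((S1.card : ℝ) + S2.card) / p := by
  have h : ∀ x : ZMod p × ZMod p, ‖tv S1 S2 x‖ ^ 2 ≤
      2 * (if x.1 = 0 then ‖co S1 x.2‖ ^ 2 else 0) + 2 * (if x.1 = x.2 then ‖co S2 x.2‖ ^ 2 else 0) := by
    intro x
    unfold tv
    have a := norm_sub_le (co S1 x.2) (co S2 x.2)
    have b := norm_nonneg (co S1 x.2 - co S2 x.2)
    split_ifs
    · nlinarith [sq_nonneg (‖co S1 x.2‖ - ‖co S2 x.2‖)]
    · simp only [sub_zero]; nlinarith [sq_nonneg ‖co S1 x.2‖]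
    · simp only [zero_sub, norm_neg]; nlinarith [sq_nonneg ‖co S2 x.2‖]
    · simp
  refine (sum_le_sum (fun x _ => h x)).trans (le_of_eq ?_)
  rw [sum_add_distrib, ← mul_sum, ← mul_sum, Fintype.sum_prod_type_right,
    Fintype.sum_prod_type_right]
  simp only [sum_ite_eq', mem_univ, if_true]
  rw [co_parseval, co_parseval]; ring

theorem tv_lower (S1 S2 : Finset (ZMod p)) (h1 : 2 * S1.card ≤ p) (h2 : 2 * S2.card ≤ p) :
    ((S1.card : ℝ) + S2.card) / (2 * p) ≤ ∑ x, ‖tv S1 S2 x‖ ^ 2 := by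
  have h : ∀ x : ZMod p × ZMod p,
      (if x.1 = 0 then (if x.2 = 0 then 0 else ‖co S1 x.2‖ ^ 2) else 0) +
      (if x.1 = x.2 then (if x.2 = 0 then 0 else ‖co S2 x.2‖ ^ 2) else 0) ≤ ‖tv S1 S2 x‖ ^ 2 := by
    rintro ⟨x, y⟩
    unfold tv
    by_cases hy : y = 0
    · simp [hy]
    · by_cases hx : x = 0
      · have : x ≠ y := by rw [hx]; exact Ne.symm hy
        simp [hy, hx, Ne.symm hy]
      · by_cases hxy : x = y
        · simp [hy, hxy]
        · simp [hx, hxy]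
  refine le_trans ?_ (sum_le_sum (fun x _ => h x))
  rw [sum_add_distrib, Fintype.sum_prod_type_right, Fintype.sum_prod_type_right]
  simp only [sum_ite_eq', mem_univ, if_true]
  have a1 := co_lower S1 h1
  have a2 := co_lower S2 h2
  rw [add_div]
  linarith

theorem norm_facts {n : Type*} [Fintype n] [DecidableEq n] (T : Matrix n n ℂ) (hT : IsUnit T.det)
    (a : n → ℂ) :
    ∑ j, ‖(Tᴴ *ᵥ a) j‖ ^ 2 ≤ ‖toEuclideanCLM (n := n) (𝕜 := ℂ) T‖ ^ 2 * ∑ i, ‖a i‖ ^ 2 ∧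
    ∑ i, ‖a i‖ ^ 2 ≤ ‖toEuclideanCLM (n := n) (𝕜 := ℂ) T⁻¹‖ ^ 2 * ∑ j, ‖(Tᴴ *ᵥ a) j‖ ^ 2 := by
  have key : ∀ (A : Matrix n n ℂ) (x : n → ℂ), ∑ j, ‖(Aᴴ *ᵥ x) j‖ ^ 2 ≤
      ‖toEuclideanCLM (n := n) (𝕜 := ℂ) A‖ ^ 2 * ∑ i, ‖x i‖ ^ 2 := by
    intro A x
    have h1 := (toEuclideanCLM (n := n) (𝕜 := ℂ) Aᴴ).le_opNorm (WithLp.toLp 2 x)
    have h2 : ‖toEuclideanCLM (n := n) (𝕜 := ℂ) Aᴴ‖ = ‖toEuclideanCLM (n := n) (𝕜 := ℂ) A‖ := by
      rw [← star_eq_conjTranspose, map_star, ContinuousLinearMap.star_eq_adjoint,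
        LinearIsometryEquiv.norm_map]
    rw [h2, toEuclideanCLM_toLp] at h1
    have h3 := pow_le_pow_left₀ (norm_nonneg _) h1 2
    rw [mul_pow, EuclideanSpace.norm_sq_eq, EuclideanSpace.norm_sq_eq] at h3
    exact h3
  refine ⟨key T a, ?_⟩
  have h := key T⁻¹ (Tᴴ *ᵥ a)
  rwa [mulVec_mulVec, ← conjTranspose_mul, mul_nonsing_inv T hT, conjTranspose_one, one_mulVec] at h

theorem main (K : ℕ) (hp : 32 * K * K + 2 ≤ p) (E : Finset (ZMod p × ZMod p))
    (h1 : ∀ t, (0, t) ∈ E) (h2 : ∀ t, (t, t) ∈ E) (hE : E.card ≤ 2 * p)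
    (b : E → ZMod p × ZMod p) (T : Matrix E E ℂ)
    (hTe : ∀ i j, T i j = ZMod.stdAddChar ((b j).1 * i.1.1 + (b j).2 * i.1.2))
    (hT : IsUnit T.det) :
    (K : ℝ) < ‖toEuclideanCLM (n := E) (𝕜 := ℂ) T‖ ^ 2 *
      ‖toEuclideanCLM (n := E) (𝕜 := ℂ) T⁻¹‖ ^ 2 := by
  by_contra hc
  push Not at hc
  set α := ‖toEuclideanCLM (n := E) (𝕜 := ℂ) T‖ ^ 2 with hα
  set β := ‖toEuclideanCLM (n := E) (𝕜 := ℂ) T⁻¹‖ ^ 2 with hβ
  have hα0 : 0 ≤ α := by positivity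
  have hβ0 : 0 ≤ β := by positivity
  have hpE : p ≤ E.card := by
    have : (univ : Finset (ZMod p)).card ≤ E.card :=
      card_le_card_of_injOn (fun t => (t, t)) (fun t _ => mem_coe.2 (h2 t))
        (fun x _ y _ h => (Prod.mk.inj h).1)
    rwa [card_univ, ZMod.card] at this
  have hp0 : (0 : ℝ) < p := by exact_mod_cast Nat.pos_of_ne_zero (NeZero.ne p)
  have hpE' : (p : ℝ) ≤ E.card := by exact_mod_cast hpE
  have hE' : (E.card : ℝ) ≤ 2 * p := by exact_mod_cast hE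
  have hd := norm_facts T hT (Pi.single ⟨(0, 0), h1 0⟩ 1)
  have d1 : ∑ i : E, ‖(Pi.single (⟨(0, 0), h1 0⟩ : E) (1 : ℂ) : E → ℂ) i‖ ^ 2 = 1 := by
    rw [sum_eq_single ⟨(0, 0), h1 0⟩]
    · simp
    · intro j _ hj; simp [Pi.single_eq_of_ne hj]
    · simp
  have d2 : ∑ j : E, ‖(Tᴴ *ᵥ (Pi.single (⟨(0, 0), h1 0⟩ : E) (1 : ℂ))) j‖ ^ 2 = E.card := by
    have : ∀ j : E, ‖(Tᴴ *ᵥ (Pi.single (⟨(0, 0), h1 0⟩ : E) (1 : ℂ))) j‖ ^ 2 = 1 := by
      intro j
      rw [mulVec_single_one]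
      simp only [col_apply, conjTranspose_apply, norm_star, hTe, norm_psi, one_pow]
    rw [sum_congr rfl (fun j _ => this j)]
    simp
  rw [d1, d2, ← hα, ← hβ] at hd
  have hαK : α ≤ K * (2 * p) := by nlinarith [hd.1, hd.2]
  have hβK : β * p ≤ K := by nlinarith [hd.1, hd.2]
  let u : E → ZMod p ⊕ ZMod p := fun j => Sum.inl (b j).2
  let v : E → ZMod p ⊕ ZMod p := fun j => Sum.inr ((b j).1 + (b j).2)
  have hcut : ∀ S : Finset (ZMod p ⊕ ZMod p),
      ∑ j, ‖(Tᴴ *ᵥ (fun i : E => tv S.toLeft S.toRight i)) j‖ ^ 2 = (cutS u v S).card := by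
    intro S
    have e : ∀ j, (Tᴴ *ᵥ (fun i : E => tv S.toLeft S.toRight i)) j =
        (if u j ∈ S then 1 else 0) - (if v j ∈ S then 1 else 0) := by
      intro j
      have e1 := sum_E E h1 h2 S.toLeft S.toRight
        (fun x z => ZMod.stdAddChar (-((b j).1 * x.1 + (b j).2 * x.2)) * z) (by simp)
      rw [tv_apply] at e1
      simp only [mem_toLeft, mem_toRight] at e1
      rw [← e1]
      simp only [mulVec, dotProduct, conjTranspose_apply, hTe]
      apply sum_congr rfl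
      intro i _
      rw [← conj_psi]; rfl
    simp_rw [e]
    unfold cutS
    rw [card_filter]
    push_cast
    apply sum_congr rfl
    intro j _
    by_cases a1 : u j ∈ S <;> by_cases a2 : v j ∈ S <;> simp [a1, a2]
  have hnorm : ∀ S : Finset (ZMod p ⊕ ZMod p),
      ∑ i : E, ‖tv S.toLeft S.toRight i‖ ^ 2 = ∑ x, ‖tv S.toLeft S.toRight x‖ ^ 2 :=
    fun S => sum_E E h1 h2 S.toLeft S.toRight (fun _ z => ‖z‖ ^ 2) (by simp)
  have hcard : ∀ S : Finset (ZMod p ⊕ ZMod p),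
      (S.toLeft.card : ℝ) + S.toRight.card = S.card := by
    intro S; exact_mod_cast card_toLeft_add_card_toRight
  refine no_expand u v (2 * K) (4 * K) (p / 2) ?_ ?_ ?_ ?_ ?_
  · simp only [Fintype.card_coe, Fintype.card_sum, ZMod.card]; omega
  · intro x
    have a1 := (norm_facts T hT (fun i : E => tv ({x} : Finset _).toLeft ({x} : Finset _).toRight i)).1
    rw [hcut, hnorm, ← hα] at a1
    have a2 := tv_upper ({x} : Finset _).toLeft ({x} : Finset _).toRight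
    rw [hcard, card_singleton] at a2
    have a3 : ((cutS u v {x}).card : ℝ) ≤ 4 * K := by
      refine a1.trans ((mul_le_mul hαK a2 (by positivity) (by positivity)).trans (le_of_eq ?_))
      field_simp
      push_cast
      ring
    exact_mod_cast a3
  · intro S hS
    have a1 := (norm_facts T hT (fun i : E => tv S.toLeft S.toRight i)).2
    rw [hcut, hnorm, ← hβ] at a1
    have a0 := card_toLeft_add_card_toRight (u := S)
    have a2 := tv_lower S.toLeft S.toRight (by omega) (by omega)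
    rw [hcard, div_le_iff₀ (by positivity)] at a2
    have a4 : (0 : ℝ) ≤ (cutS u v S).card := by positivity
    have a3 : (S.card : ℝ) ≤ 2 * K * (cutS u v S).card := by nlinarith
    exact_mod_cast a3
  · have : 2 * (2 * K * (4 * K)) = 16 * (K * K) := by ring
    have h' : 32 * K * K = 32 * (K * K) := by ring
    omega
  · omega

end Pool.Agent.H51.Riesz
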