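import Mathlib

set_option autoImplicit false

namespace Pool.Agent.H51.RotA

open Finset

variable {p : ℕ}

def s {p : ℕ} (y : ZMod p) : ℤ := if 2 * y.val < p then 1 else -1

lemma s_abs (y : ZMod p) : |s y| = 1 := by unfold s; split_ifs <;> simp

lemma s_sq (y : ZMod p) : s y * s y = 1 := by unfold s; split_ifs <;> simp

lemma sum_ind [NeZero p] (a : ℕ) : ∑ y : ZMod p, (if y.val = a then (2 : ℤ) else 0) ≤ 2 := by
  rw [← Finset.sum_filter, Finset.sum_const, nsmul_eq_mul]
  have : (Finset.univ.filter (fun y : ZMod p => y.val = a)).card ≤ 1 := by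
    rw [Finset.card_le_one]
    intro x hx y hy
    simp only [mem_filter, mem_univ, true_and] at hx hy
    exact ZMod.val_injective p (hx.trans hy.symm)
  have : ((Finset.univ.filter (fun y : ZMod p => y.val = a)).card : ℤ) ≤ 1 := by exact_mod_cast this
  linarith

lemma val_add_nat [NeZero p] (y : ZMod p) (t : ℕ) (ht : t < p) :
    (y + t).val = if y.val + t < p then y.val + t else y.val + t - p := by
  rw [ZMod.val_add, ZMod.val_natCast, Nat.mod_eq_of_lt ht]
  have := ZMod.val_lt y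
  split_ifs with h
  · exact Nat.mod_eq_of_lt h
  · rw [Nat.mod_eq_sub_mod (by omega), Nat.mod_eq_of_lt (by omega)]

lemma shift_one [NeZero p] (hp : 1 < p) (ho : p % 2 = 1) :
    ∑ y : ZMod p, |s (y + 1) - s y| ≤ 4 := by
  have h : ∀ y : ZMod p, |s (y + 1) - s y| ≤
      (if y.val = p / 2 then (2 : ℤ) else 0) + (if y.val = p - 1 then (2 : ℤ) else 0) := by
    intro y
    have h1 := val_add_nat y 1 hp
    rw [Nat.cast_one] at h1
    have := ZMod.val_lt y
    unfold s
    rw [h1]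
    split_ifs <;> first | omega | norm_num
  calc _ ≤ _ := Finset.sum_le_sum fun y _ => h y
    _ ≤ 4 := by
      rw [Finset.sum_add_distrib]
      linarith [sum_ind (p := p) (p / 2), sum_ind (p := p) (p - 1)]

lemma shift_nat [NeZero p] (hp : 1 < p) (ho : p % 2 = 1) (t : ℕ) :
    ∑ y : ZMod p, |s (y + (t : ZMod p)) - s y| ≤ 4 * t := by
  induction t with
  | zero => simp
  | succ t ih =>
    have h1 : ∑ y : ZMod p, |s (y + (t : ZMod p) + 1) - s (y + (t : ZMod p))| ≤ 4 := by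
      have := Equiv.sum_comp (Equiv.addRight (t : ZMod p)) (fun y => |s (y + 1) - s y|)
      simp only [Equiv.coe_addRight] at this
      rw [this]; exact shift_one hp ho
    calc ∑ y : ZMod p, |s (y + ((t + 1 : ℕ) : ZMod p)) - s y|
        ≤ ∑ y : ZMod p, (|s (y + (t : ZMod p) + 1) - s (y + (t : ZMod p))| + |s (y + (t : ZMod p)) - s y|) := by
          apply Finset.sum_le_sum
          intro y _
          push_cast
          rw [← add_assoc]
          exact abs_sub_le _ _ _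
      _ ≤ _ := by rw [Finset.sum_add_distrib]; push_cast; linarith

lemma shift_half [NeZero p] (hp : 1 < p) (ho : p % 2 = 1) :
    ∑ y : ZMod p, |s (y + (((p + 1) / 2 : ℕ) : ZMod p)) + s y| ≤ 2 := by
  have h : ∀ y : ZMod p, |s (y + (((p + 1) / 2 : ℕ) : ZMod p)) + s y| ≤
      (if y.val = p / 2 then (2 : ℤ) else 0) := by
    intro y
    have h1 := val_add_nat y ((p + 1) / 2) (by omega)
    have := ZMod.val_lt y
    unfold s
    rw [h1]
    split_ifs <;> first | omega | norm_num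
  calc _ ≤ _ := Finset.sum_le_sum fun y _ => h y
    _ ≤ 2 := sum_ind _

lemma two_half (ho : p % 2 = 1) : (2 : ZMod p) * ((p + 1) / 2 : ℕ) = 1 := by
  have : ((2 * ((p + 1) / 2) : ℕ) : ZMod p) = ((p + 1 : ℕ) : ZMod p) := by
    congr 1; omega
  push_cast at this
  simpa using this

lemma unit_two (ho : p % 2 = 1) : IsUnit (2 : ZMod p) :=
  IsUnit.of_mul_eq_one _ (two_half ho)

lemma sum_mul_unit [NeZero p] (u : ZMod p) (hu : IsUnit u) (f : ZMod p → ℤ) :
    ∑ y, f (u * y) = ∑ y, f y := by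
  obtain ⟨v, rfl⟩ := hu
  exact Equiv.sum_comp (Units.mulLeft v) f

lemma corr [NeZero p] (hp : 1 < p) (ho : p % 2 = 1) (d : ℕ) :
    |∑ y : ZMod p, s y * s (2 ^ (d + 1) * y)| ≤ 2 ^ (d + 2) := by
  set h : ZMod p := (((p + 1) / 2 : ℕ) : ZMod p) with hh
  have e1 : ∑ y : ZMod p, s y * s (2 ^ (d + 1) * y) =
      ∑ y : ZMod p, s (y + h) * s (2 ^ (d + 1) * y + ((2 ^ d : ℕ) : ZMod p)) := by
    have := Equiv.sum_comp (Equiv.addRight h) (fun y => s y * s (2 ^ (d + 1) * y))
    simp only [Equiv.coe_addRight] at this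
    rw [← this]
    refine Finset.sum_congr rfl fun y _ => ?_
    congr 2
    have := two_half ho
    rw [← hh] at this
    push_cast
    rw [mul_add, pow_succ, mul_assoc _ 2 h, this, mul_one]
  have e2 : 2 * ∑ y : ZMod p, s y * s (2 ^ (d + 1) * y) =
      ∑ y : ZMod p, ((s (y + h) + s y) * s (2 ^ (d + 1) * y + ((2 ^ d : ℕ) : ZMod p)) -
        s y * (s (2 ^ (d + 1) * y + ((2 ^ d : ℕ) : ZMod p)) - s (2 ^ (d + 1) * y))) := by
    rw [two_mul]
    nth_rewrite 1 [e1]
    rw [← Finset.sum_add_distrib]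
    refine Finset.sum_congr rfl fun y _ => by ring
  have e3 : |2 * ∑ y : ZMod p, s y * s (2 ^ (d + 1) * y)| ≤ 2 + 4 * (2 ^ d : ℕ) := by
    rw [e2]
    refine (Finset.abs_sum_le_sum_abs _ _).trans ?_
    have h1 := shift_half hp ho
    have h2 := shift_nat hp ho (2 ^ d)
    rw [← sum_mul_unit (2 ^ (d + 1)) ((unit_two ho).pow _)] at h2
    refine le_trans ?_ (add_le_add h1 h2)
    rw [← Finset.sum_add_distrib]
    refine Finset.sum_le_sum fun y _ => ?_
    refine (abs_sub _ _).trans ?_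
    rw [abs_mul, abs_mul, s_abs, s_abs, mul_one, one_mul]
  rw [abs_mul] at e3
  push_cast at e3
  have : (1 : ℤ) ≤ 2 ^ d := one_le_pow₀ (by norm_num)
  rw [pow_add 2 d 2]
  rw [abs_two] at e3
  linarith

lemma corr2 [NeZero p] (hp : 1 < p) (ho : p % 2 = 1) (K i j : ℕ) (hi : i < K) (hj : j < K) :
    |∑ y : ZMod p, s (2 ^ i * y) * s (2 ^ j * y)| ≤ (if i = j then (p : ℤ) else 0) + 2 ^ K := by
  have key : ∀ i j, i < j → j < K → |∑ y : ZMod p, s (2 ^ i * y) * s (2 ^ j * y)| ≤ 2 ^ K := by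
    intro i j hij hj
    obtain ⟨d, rfl⟩ : ∃ d, j = i + (d + 1) := ⟨j - i - 1, by omega⟩
    have := corr hp ho d
    rw [← sum_mul_unit (2 ^ i) ((unit_two ho).pow _)] at this
    refine le_trans (le_of_eq ?_) (this.trans (pow_le_pow_right₀ (by norm_num) (by omega)))
    congr 1
    refine Finset.sum_congr rfl fun y _ => ?_
    congr 2
    ring
  rcases lt_trichotomy i j with h | rfl | h
  · rw [if_neg h.ne, zero_add]; exact key i j h hj
  · simp only [s_sq, if_true, sum_const, card_univ, ZMod.card, nsmul_eq_mul, mul_one, Nat.abs_cast]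
    have : (0 : ℤ) ≤ 2 ^ K := by positivity
    linarith
  · rw [if_neg h.ne', zero_add, Finset.sum_congr rfl (fun y _ => mul_comm _ _)]
    exact key j i h hi

def chi (y : ZMod p) : ℤ := jacobiSym (y.val : ℤ) p

lemma chi_mul [NeZero p] (x y : ZMod p) : chi (x * y) = chi x * chi y := by
  unfold chi
  rw [← jacobiSym.mul_left, ZMod.val_mul, jacobiSym.mod_left ((x.val : ℤ) * y.val)]
  push_cast
  rfl

lemma chi_eq_zero [NeZero p] (y : ZMod p) : chi y = 0 ↔ ¬ IsUnit y := by
  unfold chi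
  rw [jacobiSym.eq_zero_iff_not_coprime, Int.gcd_natCast_natCast]
  nth_rewrite 2 [← ZMod.natCast_zmod_val y]
  rw [ZMod.isUnit_iff_coprime]

lemma chi_sq [NeZero p] (y : ZMod p) : chi y ^ 2 = if IsUnit y then 1 else 0 := by
  split_ifs with h
  · have h1 : chi y ≠ 0 := by rw [Ne, chi_eq_zero]; simpa using h
    rcases jacobiSym.trichotomy (y.val : ℤ) p with h2 | h2 | h2
    · exact absurd h2 h1
    · unfold chi; rw [h2]; norm_num
    · unfold chi; rw [h2]; norm_num
  · rw [(chi_eq_zero y).2 h]; simp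

lemma sum_chi_sq [NeZero p] : ∑ y : ZMod p, chi y ^ 2 = p.totient := by
  classical
  simp only [chi_sq]
  rw [← Finset.sum_filter, Finset.sum_const, nsmul_eq_mul, mul_one, ← ZMod.card_units_eq_totient]
  congr 1
  rw [← Fintype.card_subtype]
  refine Fintype.card_congr ⟨fun x => x.2.unit, fun u => ⟨u, u.isUnit⟩, fun x => by simp,
    fun u => by simp⟩

lemma main_bound [NeZero p] (hp : 1 < p) (ho : p % 2 = 1) (K : ℕ) :
    (K * ∑ y : ZMod p, chi y * s y) ^ 2 ≤ p.totient * (K * p + K ^ 2 * 2 ^ K) := by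
  have e1 : (K * ∑ y : ZMod p, chi y * s y) =
      ∑ y : ZMod p, chi y * ∑ i ∈ range K, chi (2 ^ i : ZMod p) * s (2 ^ i * y) := by
    simp only [Finset.mul_sum]
    rw [Finset.sum_comm]
    have : ∀ i ∈ range K, ∑ y : ZMod p, chi y * (chi (2 ^ i : ZMod p) * s (2 ^ i * y)) =
        ∑ y : ZMod p, chi y * s y := by
      intro i _
      rw [← sum_mul_unit (2 ^ i) ((unit_two ho).pow _) (fun y => chi y * s y)]
      refine Finset.sum_congr rfl fun y _ => ?_
      rw [chi_mul]; ring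
    rw [Finset.sum_congr rfl this, Finset.sum_const, card_range, nsmul_eq_mul, Finset.mul_sum]
  rw [e1]
  refine (Finset.sum_mul_sq_le_sq_mul_sq _ _ _).trans ?_
  rw [sum_chi_sq]
  refine mul_le_mul_of_nonneg_left ?_ (by positivity)
  have e2 : ∑ y : ZMod p, (∑ i ∈ range K, chi (2 ^ i : ZMod p) * s (2 ^ i * y)) ^ 2 =
      ∑ i ∈ range K, ∑ j ∈ range K, chi (2 ^ i : ZMod p) * chi (2 ^ j : ZMod p) *
        ∑ y : ZMod p, s (2 ^ i * y) * s (2 ^ j * y) := by
    simp only [sq, Finset.sum_mul_sum]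
    simp only [Finset.mul_sum]
    rw [Finset.sum_comm]
    refine Finset.sum_congr rfl fun i _ => ?_
    rw [Finset.sum_comm]
    refine Finset.sum_congr rfl fun j _ => Finset.sum_congr rfl fun y _ => by ring
  rw [e2]
  have habs : ∀ i, |chi (2 ^ i : ZMod p)| = 1 := by
    intro i
    have := chi_sq (2 ^ i : ZMod p)
    rw [if_pos ((unit_two ho).pow _)] at this
    rcases sq_eq_one_iff.1 this with h | h <;> simp [h]
  calc _ ≤ ∑ i ∈ range K, ∑ j ∈ range K, ((if i = j then (p : ℤ) else 0) + 2 ^ K) := by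
        refine Finset.sum_le_sum fun i hi => Finset.sum_le_sum fun j hj => ?_
        refine (le_abs_self _).trans ?_
        rw [abs_mul, abs_mul, habs, habs, one_mul, one_mul]
        exact corr2 hp ho K i j (mem_range.1 hi) (mem_range.1 hj)
    _ = _ := by
        simp only [Finset.sum_add_distrib, Finset.sum_ite_eq, Finset.sum_const, card_range,
          nsmul_eq_mul]
        rw [Finset.sum_congr rfl (fun i hi => if_pos hi), Finset.sum_const, card_range,
          nsmul_eq_mul]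
        ring

lemma prod_bound (S : Finset ℕ) : (∀ q ∈ S, 3 ≤ q ∧ q % 2 = 1) →
    (∏ q ∈ S, (1 - (q : ℝ)⁻¹)) ^ 2 * (2 * S.card + 1) ≥ 1 ∧
      ∀ a, 3 ≤ a → a % 2 = 1 → (∀ q ∈ S, q < a) → 2 * S.card + 3 ≤ a := by
  induction S using Finset.induction_on_max with
  | empty => intro _; refine ⟨by simp, fun a h _ _ => by simpa using h⟩
  | insert a S hmax ih =>
    intro h
    have hna : a ∉ S := fun ha => lt_irrefl _ (hmax a ha)
    obtain ⟨h1, h2⟩ := ih (fun q hq => h q (mem_insert_of_mem hq))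
    obtain ⟨ha3, hao⟩ := h a (mem_insert_self _ _)
    have h3 := h2 a ha3 hao hmax
    rw [Finset.prod_insert hna, Finset.card_insert_of_notMem hna]
    constructor
    · have h3' : (2 * S.card + 3 : ℝ) ≤ a := by exact_mod_cast h3
      have hc : (0 : ℝ) ≤ S.card := by positivity
      have ha : (0 : ℝ) < a := by linarith
      have key : (2 * S.card + 1 : ℝ) ≤ (1 - (a : ℝ)⁻¹) ^ 2 * (2 * (S.card + 1) + 1) := by
        have e : (1 - (a : ℝ)⁻¹) = (a - 1) / a := by field_simp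
        rw [e, div_pow, div_mul_eq_mul_div, le_div_iff₀ (by positivity)]
        nlinarith [mul_nonneg ha.le (sub_nonneg.2 h3')]
      push_cast
      rw [mul_pow]
      nlinarith [sq_nonneg (∏ q ∈ S, (1 - (q : ℝ)⁻¹))]
    · intro b _ hbo hb
      have := hb a (mem_insert_self _ _)
      omega

lemma totient_bound (hp : 1 < p) (ho : p % 2 = 1) :
    (p : ℝ) ^ 2 ≤ (p.totient : ℝ) ^ 2 * (2 * Nat.log 2 p + 1) := by
  have h1 := (prod_bound p.primeFactors (fun q hq => by
    have hq1 := Nat.prime_of_mem_primeFactors hq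
    have hq2 := Nat.dvd_of_mem_primeFactors hq
    have h2 : q ≠ 2 := by rintro rfl; omega
    have := hq1.two_le
    exact ⟨by omega, hq1.eq_two_or_odd.resolve_left h2⟩)).1
  have h2 : (p.totient : ℝ) = p * ∏ q ∈ p.primeFactors, (1 - (q : ℝ)⁻¹) := by
    have := Nat.totient_eq_mul_prod_factors p
    have h := congrArg (fun x : ℚ => (x : ℝ)) this
    simpa using h
  have h3 : p.primeFactors.card ≤ Nat.log 2 p := by
    apply Nat.le_log_of_pow_le (by norm_num)
    calc 2 ^ p.primeFactors.card ≤ ∏ q ∈ p.primeFactors, q :=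
          Finset.pow_card_le_prod _ _ _ fun q hq => (Nat.prime_of_mem_primeFactors hq).two_le
      _ ≤ p := Nat.le_of_dvd (by omega) (Nat.prod_primeFactors_dvd p)
  have h3' : (p.primeFactors.card : ℝ) ≤ Nat.log 2 p := by exact_mod_cast h3
  rw [h2, mul_pow, mul_assoc]
  have : (1 : ℝ) ≤ (∏ q ∈ p.primeFactors, (1 - (q : ℝ)⁻¹)) ^ 2 * (2 * Nat.log 2 p + 1) := by
    refine le_trans h1 (mul_le_mul_of_nonneg_left (by linarith) (sq_nonneg _))
  nlinarith [sq_nonneg (p : ℝ)]

lemma ratio_bound [NeZero p] (hp : 3 < p) (ho : p % 2 = 1) :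
    (((∑ y : ZMod p, chi y * s y : ℤ) : ℝ) / p.totient) ^ 4 ≤ 28 / (Nat.log 2 p / 2 : ℕ) := by
  set K := Nat.log 2 p / 2 with hK
  have hL : 2 ≤ Nat.log 2 p := Nat.le_log_of_pow_le (by norm_num) (by omega)
  have hK1 : 1 ≤ K := by omega
  have hK1' : (1 : ℝ) ≤ K := by exact_mod_cast hK1
  have h1 : ((K * ∑ y : ZMod p, chi y * s y : ℤ) : ℝ) ^ 2 ≤
      p.totient * (K * p + K ^ 2 * 2 ^ K) := by exact_mod_cast main_bound (by omega) ho K
  have h2 := totient_bound (p := p) (by omega) ho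
  have h3 : (2 * Nat.log 2 p + 1 : ℝ) ≤ 7 * K := by
    exact_mod_cast (by omega : 2 * Nat.log 2 p + 1 ≤ 7 * K)
  have h4 : K * 2 ^ K ≤ p := by
    calc K * 2 ^ K ≤ 2 ^ K * 2 ^ K := Nat.mul_le_mul_right _ (Nat.lt_two_pow_self).le
      _ = 2 ^ (2 * K) := by ring
      _ ≤ 2 ^ Nat.log 2 p := Nat.pow_le_pow_right (by norm_num) (by omega)
      _ ≤ p := Nat.pow_log_le_self 2 (by omega)
  have h4' : (K : ℝ) * 2 ^ K ≤ p := by exact_mod_cast h4
  have hφ : (0 : ℝ) < p.totient := by exact_mod_cast Nat.totient_pos.2 (by omega)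
  push_cast at h1 ⊢
  set T : ℝ := ∑ y : ZMod p, (chi y : ℝ) * (s y : ℝ)
  set φ : ℝ := (p.totient : ℝ)
  have h5 : K * T ^ 2 ≤ φ * (2 * p) := by
    have : K * (K * T ^ 2) ≤ K * (φ * (2 * p)) := by
      have : φ * (K * p + K ^ 2 * 2 ^ K) ≤ K * (φ * (2 * p)) := by
        have : (K : ℝ) ^ 2 * 2 ^ K ≤ K * p := by
          rw [sq, mul_assoc]; exact mul_le_mul_of_nonneg_left h4' (by linarith)
        nlinarith
      nlinarith
    exact le_of_mul_le_mul_left this (by linarith)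
  have h6 : (K * T ^ 2) ^ 2 ≤ (φ * (2 * p)) ^ 2 := pow_le_pow_left₀ (by positivity) h5 2
  have h7 : (p : ℝ) ^ 2 ≤ φ ^ 2 * (7 * K) := h2.trans (mul_le_mul_of_nonneg_left h3 (sq_nonneg _))
  rw [div_pow, div_le_div_iff₀ (by positivity) (by linarith)]
  have : K * (T ^ 4 * K) ≤ K * (28 * φ ^ 4) := by
    have : (φ * (2 * p)) ^ 2 ≤ K * (28 * φ ^ 4) := by
      have := mul_le_mul_of_nonneg_left h7 (by positivity : 0 ≤ 4 * φ ^ 2)
      nlinarith
    nlinarith
  exact le_of_mul_le_mul_left this (by linarith)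

end Pool.Agent.H51.RotA
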