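import Mathlib
import Pool.Agent.H64.Golod
import Pool.Agent.H68.Cay

set_option autoImplicit false

namespace Pool.Agent.H51.SepZ

open Module Pool.Agent.H64.Golod Pool.Agent.H68.Cay

theorem exists_burnside : ∃ (B : Type) (_ : Group B) (S : Finset B),
    Subgroup.closure (S : Set B) = ⊤ ∧ Infinite B ∧ ∀ b : B, IsOfFinOrder b := by
  classical
  obtain ⟨M, _, _, ρ, e, hM, he, hnil⟩ := golod (ZMod 2)
  let u : Fin 3 → (End (ZMod 2) M)ˣ := fun j => (hnil _ (x_mem j)).isUnit_one_add.unit
  have hu : ∀ j, (u j : End (ZMod 2) M) = 1 + ρ (x (ZMod 2) j) := fun j => rfl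
  let B := Subgroup.closure (Set.range u)
  let P : (End (ZMod 2) M)ˣ → Prop := fun b => ∃ a ∈ J (ZMod 2) 1, (b : End (ZMod 2) M) = 1 + ρ a
  have h2 : ∀ (y : End (ZMod 2) M) (k : ℕ), (1 + y) ^ 2 ^ k = 1 + y ^ 2 ^ k := by
    intro y k
    induction k with
    | zero => simp
    | succ k ih =>
      have : ∀ z : End (ZMod 2) M, z + z = 0 := fun z => by
        rw [← two_smul (ZMod 2) z, show (2 : ZMod 2) = 0 from rfl, zero_smul]
      rw [pow_succ, pow_mul, ih, pow_mul, sq, sq, add_mul, mul_add, mul_add, one_mul, one_mul,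
        mul_one, add_assoc, ← add_assoc (y ^ 2 ^ k), this, zero_add]
  have Pfin : ∀ b, P b → IsOfFinOrder b := by
    rintro b ⟨a, ha, hb⟩
    obtain ⟨k, hk⟩ := hnil a ha
    refine isOfFinOrder_iff_pow_eq_one.2 ⟨2 ^ k, by positivity, Units.ext ?_⟩
    rw [Units.val_pow_eq_pow_val, hb, h2, pow_eq_zero_of_le (Nat.lt_two_pow_self).le hk]
    simp
  have P1 : P 1 := ⟨0, zero_mem _, by simp⟩
  have Pmul : ∀ b c, P b → P c → P (b * c) := by
    rintro b c ⟨a, ha, hb⟩ ⟨a', ha', hc⟩
    refine ⟨a + a' + a * a', add_mem (add_mem ha ha') (J_left _ _ _ ha'), ?_⟩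
    rw [Units.val_mul, hb, hc, map_add, map_add, map_mul]
    noncomm_ring
  have Ppow : ∀ b (k : ℕ), P b → P (b ^ k) := by
    intro b k hb
    induction k with
    | zero => simpa using P1
    | succ k ih => rw [pow_succ]; exact Pmul _ _ ih hb
  have PB : ∀ b ∈ B, P b := by
    intro b hb
    induction hb using Subgroup.closure_induction with
    | mem y hy => obtain ⟨j, rfl⟩ := hy; exact ⟨_, x_mem j, hu j⟩
    | one => exact P1
    | mul y z _ _ hy hz => exact Pmul _ _ hy hz
    | inv y _ hy =>
      obtain ⟨k, hk, hk'⟩ := isOfFinOrder_iff_pow_eq_one.1 (Pfin y hy)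
      obtain ⟨k, rfl⟩ : ∃ m, k = m + 1 := ⟨k - 1, by omega⟩
      rw [inv_eq_of_mul_eq_one_left (by rw [← pow_succ, hk'] : y ^ k * y = 1)]
      exact Ppow _ _ hy
  have hfg : Group.FG B := (Group.fg_iff_subgroup_fg B).2
    ((Subgroup.fg_iff B).2 ⟨_, rfl, Set.finite_range u⟩)
  obtain ⟨S, hS⟩ := hfg.out
  refine ⟨B, inferInstance, S, hS, ?_, fun b => ?_⟩
  · by_contra hfin
    rw [not_infinite_iff_finite] at hfin
    let W : Submodule (ZMod 2) M :=
      Submodule.span (ZMod 2) (Set.range fun b : B => (b.1 : End (ZMod 2) M) e)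
    haveI : FiniteDimensional (ZMod 2) W :=
      FiniteDimensional.span_of_finite _ (Set.finite_range _)
    have hx : ∀ j, ∀ m ∈ W, ρ (x (ZMod 2) j) m ∈ W := by
      intro j m hm
      have h1 : (u j : End (ZMod 2) M) m ∈ W := by
        induction hm using Submodule.span_induction with
        | mem y hy =>
          obtain ⟨b, rfl⟩ := hy
          exact Submodule.subset_span ⟨⟨u j, Subgroup.subset_closure ⟨j, rfl⟩⟩ * b, rfl⟩
        | zero => simp
        | add y z _ _ hy hz => rw [map_add]; exact add_mem hy hz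
        | smul c y _ hy => rw [map_smul]; exact W.smul_mem c hy
      rw [hu] at h1
      simpa using sub_mem h1 hm
    have hw : ∀ w : FreeMonoid (Fin 3), ρ (MonoidAlgebra.single w 1) e ∈ W := by
      intro w
      induction w using FreeMonoid.inductionOn' with
      | one => exact Submodule.subset_span ⟨1, by simp [← MonoidAlgebra.one_def]⟩
      | of_mul j w ih =>
        have := hx j _ ih
        rwa [← End.mul_apply, ← map_mul, x, MonoidAlgebra.single_mul_single, mul_one] at this
    have hall : ∀ a, ρ a e ∈ W := by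
      intro a
      induction a using MonoidAlgebra.induction_on with
      | of w => exact hw w
      | add a b ha hb => rw [map_add]; exact add_mem ha hb
      | smul c a ha => rw [map_smul]; exact W.smul_mem c ha
    have : W = ⊤ := eq_top_iff.2 fun m _ => by obtain ⟨a, rfl⟩ := he m; exact hall a
    exact hM (Module.Finite.equiv (LinearEquiv.ofTop W this))
  · exact (B.subtype_injective.isOfFinOrder_iff).1 (Pfin _ (PB _ b.2))

variable {B : Type} [Group B] {S : Finset B}

theorem exists_ray (hS : Subgroup.closure (S : Set B) = ⊤) [Infinite B] :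
    ∃ γ : ℕ → B, (∀ n, (cay S).dist 1 (γ n) = n) ∧ ∀ n, (cay S).Adj (γ n) (γ (n + 1)) := by
  classical
  let Good : B → Prop := fun g =>
    {h | (cay S).dist 1 h = (cay S).dist 1 g + (cay S).dist g h}.Infinite
  have g1 : Good 1 := by simpa [Good] using Set.infinite_univ
  have step : ∀ g, Good g →
      ∃ g', Good g' ∧ (cay S).Adj g g' ∧ (cay S).dist 1 g' = (cay S).dist 1 g + 1 := by
    intro g hg
    by_contra hc
    apply hg
    have hN : {g' | (cay S).Adj g g' ∧ (cay S).dist 1 g' = (cay S).dist 1 g + 1}.Finite :=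
      (ball_fin hS ((cay S).dist 1 g + 1)).subset fun _ h => h.2.le
    refine ((Set.finite_singleton g).union (hN.biUnion
      (t := fun g' => {h | (cay S).dist 1 h = (cay S).dist 1 g' + (cay S).dist g' h})
      fun g' hg' => ?_)).subset fun h hh => ?_
    · by_contra hi
      exact hc ⟨g', hi, hg'⟩
    · by_cases e : h = g
      · exact Or.inl e
      · right
        obtain ⟨p, hp⟩ := (reach hS g h).exists_walk_length_eq_dist
        cases p with
        | nil => exact absurd rfl e
        | @cons _ g' _ ha q =>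
          have a1 := SimpleGraph.dist_le q
          have a2 := dist_tri hS 1 g' h
          have a3 := dist_tri hS 1 g g'
          have a4 : (cay S).dist g g' = 1 := SimpleGraph.dist_eq_one_iff_adj.2 ha
          have a5 := dist_tri hS g g' h
          simp only [SimpleGraph.Walk.length_cons, Set.mem_setOf_eq] at hp hh
          exact Set.mem_biUnion (show g' ∈ _ from ⟨ha, by omega⟩) (by
            simp only [Set.mem_setOf_eq]; omega)
  choose! nx h1 h2 h3 using step
  have key : ∀ n, Good (nx^[n] 1) ∧ (cay S).dist 1 (nx^[n] 1) = n := by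
    intro n
    induction n with
    | zero => exact ⟨g1, by simp⟩
    | succ n ih =>
      rw [Function.iterate_succ_apply']
      exact ⟨h1 _ ih.1, by rw [h3 _ ih.1, ih.2]⟩
  refine ⟨fun n => nx^[n] 1, fun n => (key n).2, fun n => ?_⟩
  simp only [Function.iterate_succ_apply']
  exact h2 _ (key n).1

theorem free_comm {X : Type} (u v : FreeGroup X) (h : Commute u v) :
    ∃ a b : ℤ, (a ≠ 0 ∨ b ≠ 0) ∧ u ^ a = v ^ b := by
  classical
  let K := Subgroup.closure ({u, v} : Set (FreeGroup X))
  have hc : ∀ a b : K, a * b = b * a := by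
    letI := Subgroup.closureCommGroupOfComm (k := ({u, v} : Set (FreeGroup X))) (by
      rintro a (rfl | rfl) b (rfl | rfl)
      exacts [rfl, h.eq, h.eq.symm, rfl])
    exact fun a b => mul_comm a b
  have hsub : ∀ i j : IsFreeGroup.Generators K, i = j := by
    intro i j
    by_contra hij
    let f : K →* Equiv.Perm (Fin 3) := IsFreeGroup.lift fun k =>
      if k = i then Equiv.swap 0 1 else Equiv.swap 1 2
    have := congrArg f (hc (IsFreeGroup.of i) (IsFreeGroup.of j))
    simp only [map_mul, f, IsFreeGroup.lift_of, if_true, if_neg (Ne.symm hij)] at this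
    revert this
    decide
  have hcyc : ∃ c : K, ∀ a : K, ∃ n : ℤ, a = c ^ n := by
    by_cases hne : Nonempty (IsFreeGroup.Generators K)
    · obtain ⟨i⟩ := hne
      refine ⟨IsFreeGroup.mulEquiv K (FreeGroup.of i), fun a => ?_⟩
      obtain ⟨a, rfl⟩ := (IsFreeGroup.mulEquiv K).surjective a
      induction a using FreeGroup.induction_on with
      | C1 => exact ⟨0, by simp⟩
      | of j => exact ⟨1, by simp [hsub j i]⟩
      | inv_of j _ => exact ⟨-1, by simp [hsub j i]⟩
      | mul a b ha hb =>
        obtain ⟨m, hm⟩ := ha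
        obtain ⟨n, hn⟩ := hb
        exact ⟨m + n, by rw [map_mul, hm, hn, zpow_add]⟩
    · refine ⟨1, fun a => ⟨0, ?_⟩⟩
      obtain ⟨a, rfl⟩ := (IsFreeGroup.mulEquiv K).surjective a
      induction a using FreeGroup.induction_on with
      | C1 => simp
      | of j => exact absurd ⟨j⟩ hne
      | inv_of j _ => exact absurd ⟨j⟩ hne
      | mul a b ha hb => rw [map_mul, ha, hb]; simp
  obtain ⟨c, hc⟩ := hcyc
  obtain ⟨m, hm⟩ := hc ⟨u, Subgroup.subset_closure (by simp)⟩
  obtain ⟨n, hn⟩ := hc ⟨v, Subgroup.subset_closure (by simp)⟩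
  have hm' : u = c.1 ^ m := congrArg Subtype.val hm
  have hn' : v = c.1 ^ n := congrArg Subtype.val hn
  by_cases h0 : m = 0
  · exact ⟨1, 0, Or.inl one_ne_zero, by simp [hm', h0]⟩
  · exact ⟨n, m, Or.inr h0, by rw [hm', hn', ← zpow_mul, ← zpow_mul, mul_comm]⟩

theorem last_mul {X : Type} [DecidableEq X] (x : X × Bool) (v : FreeGroup X) (hv : v ≠ 1)
    (hv' : FreeGroup.mk [x] * v ≠ 1) :
    (FreeGroup.mk [x] * v).toWord.getLast? = v.toWord.getLast? := by
  have e : (FreeGroup.mk [x] * v).toWord = FreeGroup.reduce (x :: v.toWord) := by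
    conv_lhs => rw [← FreeGroup.mk_toWord (x := v), FreeGroup.mul_mk, FreeGroup.toWord_mk]
    rfl
  rw [Ne, ← FreeGroup.toWord_eq_nil_iff] at hv hv'
  rw [e, FreeGroup.reduce.cons, FreeGroup.reduce_toWord] at hv' ⊢
  cases hw : v.toWord with
  | nil => exact absurd hw hv
  | cons hd tl =>
    rw [hw] at hv'
    simp only at hv' ⊢
    split_ifs at hv' ⊢ with h
    · cases tl with
      | nil => exact absurd rfl hv'
      | cons a b => simp
    · simp

end Pool.Agent.H51.SepZ
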