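import Mathlib
import Pool.Agent.H51.SepZa
import Pool.Agent.H51.LebN

set_option autoImplicit false

namespace Pool.Agent.H51.SepZ

open Pool.Agent.H68.Cay SemidirectProduct

/-- Left translation of the free basis. -/
def shift (A : Type) [Group A] : A →* MulAut (FreeGroup A) where
  toFun a := FreeGroup.freeGroupCongr (Equiv.mulLeft a)
  map_one' := by
    ext w
    simp
  map_mul' a b := by
    ext w
    simp [FreeGroup.map.comp, Function.comp_def, mul_assoc]

theorem shift_of {A : Type} [Group A] (a b : A) :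
    shift A a (FreeGroup.of b) = FreeGroup.of (a * b) := by
  simp [shift]

/-- The free product of `A` with the integers, as a semidirect product. -/
abbrev FP (A : Type) [Group A] := FreeGroup A ⋊[shift A] A

theorem no_Z2 {A : Type} [Group A] (hA : ∀ a : A, IsOfFinOrder a)
    (j : Multiplicative (Fin 2 → ℤ) →* FP A) (hj : Function.Injective j) : False := by
  have key : ∀ g : FP A, ∃ (m : ℕ) (u : FreeGroup A), 0 < m ∧ g ^ m = inl u := by
    intro g
    obtain ⟨m, hm, h⟩ := isOfFinOrder_iff_pow_eq_one.1 (hA (rightHom g))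
    have : g ^ m ∈ (inl : FreeGroup A →* FP A).range := by
      rw [range_inl_eq_ker_rightHom, MonoidHom.mem_ker, map_pow, h]
    obtain ⟨u, hu⟩ := this
    exact ⟨m, u, hm, hu.symm⟩
  obtain ⟨m, u, hm, hu⟩ := key (j (Multiplicative.ofAdd ![1, 0]))
  obtain ⟨n, v, hn, hv⟩ := key (j (Multiplicative.ofAdd ![0, 1]))
  have hc : Commute u v := by
    apply inl_injective (φ := shift A)
    rw [map_mul, map_mul, ← hu, ← hv, ← map_pow j, ← map_pow j, ← map_mul j, ← map_mul j,
      mul_comm]
  obtain ⟨a, b, hab, h⟩ := free_comm u v hc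
  have h1 := congrArg (inl : FreeGroup A →* FP A) h
  rw [map_zpow, map_zpow, ← hu, ← hv, ← map_pow j, ← map_pow j, ← map_zpow j,
    ← map_zpow j] at h1
  have h2 := congrArg Multiplicative.toAdd (hj h1)
  have h3 := congrFun h2 0
  have h4 := congrFun h2 1
  simp at h3 h4
  omega

theorem lip {G : Type} [Group G] {S : Finset G} (hS : Subgroup.closure (S : Set G) = ⊤)
    (ψ : G → ℤ) (h : ∀ g, ∀ s ∈ S, ψ (g * s) ≤ ψ g + 1 ∧ ψ g ≤ ψ (g * s) + 1) (x y : G) :
    ψ y ≤ ψ x + (cay S).dist x y := by
  obtain ⟨p, hp⟩ := (reach hS x y).exists_walk_length_eq_dist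
  rw [← hp]
  clear hp
  induction p with
  | nil => simp
  | @cons a b c hab p ih =>
    have : ψ b ≤ ψ a + 1 := by
      rcases (adj_iff.1 hab).2 with h1 | h1
      · simpa using (h a _ h1).1
      · simpa using (h b _ h1).2
    simp only [SimpleGraph.Walk.length_cons]
    push_cast
    omega

theorem dist_gen {G : Type} [Group G] {S : Finset G} (g : G) {s : G} (hs : s ∈ S) :
    (cay S).dist g (g * s) ≤ 1 := by
  by_cases h : g = g * s
  · rw [← h]; simp
  · exact (SimpleGraph.dist_eq_one_iff_adj.2 (adj_iff.2 ⟨h, Or.inl (by simpa)⟩)).le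

variable {B : Type} [Group B]

/-- The coordinate embeddings. -/
def io (i : Fin 4) : B →* FP (Fin 4 → B) := inr.comp (MonoidHom.mulSingle (fun _ => B) i)

/-- The extra generator. -/
def tt : FP (Fin 4 → B) := inl (FreeGroup.of 1)

open Classical in
/-- The generating set. -/
noncomputable def gens (S : Finset B) : Finset (FP (Fin 4 → B)) :=
  insert tt ((Finset.univ ×ˢ S).image fun p : Fin 4 × B => io p.1 p.2)

theorem mem_gens {S : Finset B} {g : FP (Fin 4 → B)} :
    g ∈ gens S ↔ g = tt ∨ ∃ i, ∃ s ∈ S, io i s = g := by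
  simp [gens]

theorem inr_eq (a : Fin 4 → B) :
    (inr a : FP (Fin 4 → B)) = io 0 (a 0) * io 1 (a 1) * io 2 (a 2) * io 3 (a 3) := by
  simp only [io, MonoidHom.comp_apply, ← map_mul]
  congr 1
  ext i
  fin_cases i <;> simp

variable {S : Finset B}

theorem gens_top (hS : Subgroup.closure (S : Set B) = ⊤) :
    Subgroup.closure (gens S : Set (FP (Fin 4 → B))) = ⊤ := by
  set K := Subgroup.closure (gens S : Set (FP (Fin 4 → B)))
  have h1 : ∀ i b, io i b ∈ K := by
    intro i b
    have hb : b ∈ Subgroup.closure (S : Set B) := hS ▸ Subgroup.mem_top b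
    induction hb using Subgroup.closure_induction with
    | mem s hs => exact Subgroup.subset_closure (mem_gens.2 (Or.inr ⟨i, s, hs, rfl⟩))
    | one => simp
    | mul a b _ _ ha hb => rw [map_mul]; exact mul_mem ha hb
    | inv a _ ha => rw [map_inv]; exact inv_mem ha
  have h2 : ∀ a, inr a ∈ K := fun a => by
    rw [inr_eq]
    exact mul_mem (mul_mem (mul_mem (h1 _ _) (h1 _ _)) (h1 _ _)) (h1 _ _)
  have h3 : ∀ a, inl (FreeGroup.of a) ∈ K := fun a => by
    have : (inl (FreeGroup.of a) : FP (Fin 4 → B)) = inr a * tt * inr a⁻¹ := by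
      rw [tt, ← inl_aut, shift_of, mul_one]
    rw [this]
    exact mul_mem (mul_mem (h2 _) (Subgroup.subset_closure (mem_gens.2 (Or.inl rfl)))) (h2 _)
  have h4 : ∀ w, inl w ∈ K := fun w => by
    induction w using FreeGroup.induction_on with
    | C1 => simp
    | of a => exact h3 a
    | inv_of a h => rw [map_inv]; exact inv_mem h
    | mul a b ha hb => rw [map_mul]; exact mul_mem ha hb
  refine eq_top_iff.2 fun g _ => ?_
  rw [← inl_left_mul_inr_right g]
  exact mul_mem (h4 _) (h2 _)

theorem io_inj (i : Fin 4) : Function.Injective (io (B := B) i) := fun a b h => by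
  have := congrFun (inr_injective h) i
  simpa using this

theorem dist_io (hS : Subgroup.closure (S : Set B) = ⊤) (i : Fin 4) (b : B) :
    (cay (gens S)).dist 1 (io i b) ≤ (cay S).dist 1 b := by
  let φ : cay S →g cay (gens S) :=
    { toFun := io i
      map_rel' := fun {g h} e => by
        rw [adj_iff] at e ⊢
        refine ⟨fun h' => e.1 (io_inj i h'), ?_⟩
        rw [← map_inv, ← map_mul, ← map_inv, ← map_mul]
        exact e.2.imp (fun h => mem_gens.2 (Or.inr ⟨i, _, h, rfl⟩))
          (fun h => mem_gens.2 (Or.inr ⟨i, _, h, rfl⟩)) }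
  obtain ⟨p, hp⟩ := (reach hS 1 b).exists_walk_length_eq_dist
  have := SimpleGraph.dist_le (p.map φ)
  rw [SimpleGraph.Walk.length_map, hp] at this
  simpa [φ] using this

theorem dist_mul {G : Type} [Group G] {S : Finset G} (hS : Subgroup.closure (S : Set G) = ⊤)
    (g h : G) : (cay S).dist 1 (g * h) ≤ (cay S).dist 1 g + (cay S).dist 1 h := by
  have := dist_tri hS 1 g (g * h)
  rwa [dist_eq hS g, inv_mul_cancel_left] at this

theorem dist_inr_le (hS : Subgroup.closure (S : Set B) = ⊤) (a b : Fin 4 → B) (m : ℕ)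
    (h : ∀ i, (cay S).dist (a i) (b i) ≤ m) : (cay (gens S)).dist (inr a) (inr b) ≤ 4 * m := by
  have hG := gens_top hS
  rw [dist_eq hG, ← map_inv, ← map_mul, inr_eq]
  have e : ∀ i, (cay (gens S)).dist 1 (io i ((a⁻¹ * b) i)) ≤ m := fun i =>
    (dist_io hS i _).trans (by have := h i; rwa [dist_eq hS] at this)
  have e0 := e 0
  have e1 := e 1
  have e2 := e 2
  have e3 := e 3
  have := dist_mul hG (io 0 ((a⁻¹ * b) 0)) (io 1 ((a⁻¹ * b) 1))
  have := dist_mul hG (io 0 ((a⁻¹ * b) 0) * io 1 ((a⁻¹ * b) 1)) (io 2 ((a⁻¹ * b) 2))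
  have := dist_mul hG (io 0 ((a⁻¹ * b) 0) * io 1 ((a⁻¹ * b) 1) * io 2 ((a⁻¹ * b) 2))
    (io 3 ((a⁻¹ * b) 3))
  omega

theorem le_dist_inr (hS : Subgroup.closure (S : Set B) = ⊤) (a b : Fin 4 → B) (i : Fin 4) :
    (cay S).dist 1 (b i) ≤ (cay S).dist 1 (a i) + (cay (gens S)).dist (inr a) (inr b) := by
  have := lip (gens_top hS) (fun g => ((cay S).dist 1 (g.right i) : ℤ)) (fun g s hs => by
    have h1 : (cay S).dist (g.right i) ((g * s).right i) ≤ 1 := by
      rcases mem_gens.1 hs with rfl | ⟨j, s, hs', rfl⟩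
      · simp [tt]
      · by_cases hij : i = j
        · subst hij
          simpa [io] using dist_gen (g.right i) hs'
        · simp [io, hij]
    have h2 := dist_tri hS 1 (g.right i) ((g * s).right i)
    have h3 := dist_tri hS 1 ((g * s).right i) (g.right i)
    rw [SimpleGraph.dist_comm (u := (g * s).right i)] at h3
    constructor <;> omega) (inr a) (inr b)
  simp only [right_inr] at this
  omega

/-- The exponent sum. -/
def ex (g : FP (Fin 4 → B)) : ℤ :=
  Multiplicative.toAdd (FreeGroup.lift (fun _ => Multiplicative.ofAdd (1 : ℤ)) g.left)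

theorem ex_lip (hS : Subgroup.closure (S : Set B) = ⊤) (x y : FP (Fin 4 → B)) :
    ex y ≤ ex x + (cay (gens S)).dist x y := by
  refine lip (gens_top hS) ex (fun g s hs => ?_) x y
  rcases mem_gens.1 hs with rfl | ⟨j, s, hs, rfl⟩
  · simp [ex, tt, shift_of]
    omega
  · simp [ex, io]

theorem ex_pow (n : ℕ) : ex (B := B) (inl (FreeGroup.of 1 ^ n)) = n := by
  simp only [ex, left_inl]
  simp

theorem ex_pow_inv (n : ℕ) : ex (B := B) (inl (FreeGroup.of 1 ^ n)⁻¹) = -n := by
  simp only [ex, left_inl]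
  simp

open Classical in
/-- The side of the cut vertex. -/
def side (g : FP (Fin 4 → B)) : Prop := g.left⁻¹.toWord.getLast? = some (1, false)

theorem side_mul {g s : FP (Fin 4 → B)} (hs : s ∈ gens S) (h1 : g ≠ 1) :
    side g ↔ side (g * s) := by
  classical
  rcases mem_gens.1 hs with rfl | ⟨j, s, hs, rfl⟩
  · have e : (g * tt).left⁻¹ = FreeGroup.mk [(g.right, false)] * g.left⁻¹ := by
      simp only [tt, mul_left, left_inl, shift_of, mul_one, mul_inv_rev]
      rfl
    unfold side
    by_cases a1 : g.left⁻¹ = 1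
    · rw [e, a1, mul_one]
      simp only [FreeGroup.toWord_one, List.getLast?_nil, FreeGroup.toWord_mk]
      refine ⟨fun h => by simp at h, fun h => ?_⟩
      exfalso
      apply h1
      have h2 : g.right = 1 := by simpa using h
      ext1
      · simpa using a1
      · exact h2
    · by_cases a2 : FreeGroup.mk [(g.right, false)] * g.left⁻¹ = 1
      · rw [e, a2]
        have : g.left⁻¹ = FreeGroup.of g.right := by
          rw [eq_inv_of_mul_eq_one_right a2]
          rfl
        rw [this]
        simp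
      · rw [e]
        convert Iff.rfl using 2
        convert last_mul _ _ a1 a2
  · simp [side, io]

theorem side_walk {x y : FP (Fin 4 → B)} (p : (cay (gens S)).Walk x y)
    (hp : ∀ v ∈ p.support, v ≠ 1) : side x ↔ side y := by
  induction p with
  | nil => rfl
  | @cons a b c hab p ih =>
    have ha : a ≠ 1 := hp a (by simp)
    have hb : b ≠ 1 := hp b (by simp)
    refine Iff.trans ?_ (ih fun v hv => hp v (by simp [hv]))
    rcases (adj_iff.1 hab).2 with h1 | h1
    · simpa using side_mul h1 ha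
    · simpa using (side_mul h1 hb).symm

theorem side_pow (n : ℕ) : side (B := B) (inl (FreeGroup.of 1 ^ (n + 1))) := by
  simp only [side, left_inl]
  simp [FreeGroup.toWord_of_pow, FreeGroup.invRev, List.getLast?_replicate]

theorem side_pow_inv (n : ℕ) : ¬ side (B := B) (inl (FreeGroup.of 1 ^ (n + 1))⁻¹) := by
  simp only [side, left_inl]
  simp [FreeGroup.toWord_of_pow, List.getLast?_replicate]

theorem ray_dist (hS : Subgroup.closure (S : Set B) = ⊤) {γ : ℕ → B}
    (h : ∀ n, (cay S).Adj (γ n) (γ (n + 1))) (a b m : ℕ) (h1 : a ≤ b + m) (h2 : b ≤ a + m) :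
    (cay S).dist (γ a) (γ b) ≤ m := by
  have key : ∀ a k, (cay S).dist (γ a) (γ (a + k)) ≤ k := by
    intro a k
    induction k with
    | zero => simp
    | succ k ih =>
      have := dist_tri hS (γ a) (γ (a + k)) (γ (a + k + 1))
      rw [SimpleGraph.dist_eq_one_iff_adj.2 (h _)] at this
      rw [← add_assoc]
      omega
  rcases le_total a b with h3 | h3
  · obtain ⟨k, rfl⟩ := Nat.exists_eq_add_of_le h3
    exact (key a k).trans (by omega)
  · obtain ⟨k, rfl⟩ := Nat.exists_eq_add_of_le h3
    rw [SimpleGraph.dist_comm]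
    exact (key b k).trans (by omega)

end Pool.Agent.H51.SepZ
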