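import Mathlib

set_option autoImplicit false

namespace Pool.Agent.H51.SierA

open Filter Topology

variable (𝕜 : Type) [RCLike 𝕜]

/-- Finitely supported sequences, to be normed by the family of finite sets on which `f` is
increasing. -/
def C00 (_f : ℕ → ℚ) : Type := ℕ →₀ 𝕜

variable {𝕜}

/-- The combinatorial norm: supremum of `∑_{i ∈ C} |x i|` over finite `C` with `f` increasing
on `C`. -/
noncomputable def nrm (f : ℕ → ℚ) (x : ℕ →₀ 𝕜) : ℝ :=
  ⨆ C : {C : Finset ℕ // StrictMonoOn f C}, ∑ i ∈ C.1, ‖x i‖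

instance (f : ℕ → ℚ) : Nonempty {C : Finset ℕ // StrictMonoOn f C} := ⟨⟨∅, fun _ h => by simp at h⟩⟩

lemma le_nrm {f : ℕ → ℚ} (x : ℕ →₀ 𝕜) {C : Finset ℕ} (hC : StrictMonoOn f C) :
    ∑ i ∈ C, ‖x i‖ ≤ nrm f x := by
  refine le_ciSup (f := fun C : {C : Finset ℕ // StrictMonoOn f C} => ∑ i ∈ C.1, ‖x i‖)
    ⟨∑ i ∈ x.support, ‖x i‖, ?_⟩ ⟨C, hC⟩
  rintro _ ⟨D, rfl⟩
  simp only
  rw [← Finset.sum_filter_ne_zero]
  exact Finset.sum_le_sum_of_subset_of_nonneg (fun i hi => by simpa using (Finset.mem_filter.1 hi).2)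
    fun _ _ _ => norm_nonneg _

lemma nrm_smul_le (f : ℕ → ℚ) (c : 𝕜) (x : ℕ →₀ 𝕜) : nrm f (c • x) ≤ ‖c‖ * nrm f x :=
  ciSup_le fun C => by
    simp only [Finsupp.smul_apply, norm_smul, ← Finset.mul_sum]
    exact mul_le_mul_of_nonneg_left (le_nrm x C.2) (norm_nonneg _)

noncomputable instance (f : ℕ → ℚ) : AddCommGroup (C00 𝕜 f) :=
  inferInstanceAs (AddCommGroup (ℕ →₀ 𝕜))

noncomputable instance (f : ℕ → ℚ) : Module 𝕜 (C00 𝕜 f) := inferInstanceAs (Module 𝕜 (ℕ →₀ 𝕜))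

noncomputable instance (f : ℕ → ℚ) : SeminormedAddCommGroup (C00 𝕜 f) :=
  AddGroupSeminorm.toSeminormedAddCommGroup
    { toFun := fun x => nrm f x
      map_zero' := by
        change nrm f (0 : ℕ →₀ 𝕜) = 0
        simp [nrm]
      add_le' := fun (x y : ℕ →₀ 𝕜) => ciSup_le fun C => by
        refine le_trans ?_ (add_le_add (le_nrm x C.2) (le_nrm y C.2))
        rw [← Finset.sum_add_distrib]
        exact Finset.sum_le_sum fun i _ => norm_add_le _ _
      neg' := fun (x : ℕ →₀ 𝕜) => by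
        change nrm f (-x) = nrm f x
        simp [nrm] }

noncomputable instance (f : ℕ → ℚ) : NormedSpace 𝕜 (C00 𝕜 f) where
  norm_smul_le c x := nrm_smul_le f c x

variable (𝕜) in
/-- The Sierpiński space: the completion of `C00`. -/
abbrev X (f : ℕ → ℚ) : Type := UniformSpace.Completion (C00 𝕜 f)

end Pool.Agent.H51.SierA
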