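import Pool.Agent.H51.SierA

set_option autoImplicit false

namespace Pool.Agent.H51.SierB

open Filter Topology Pool.Agent.H51.SierA Finset

variable {𝕜 : Type} [RCLike 𝕜] {f : ℕ → ℚ}

lemma up {x y : ℕ →₀ 𝕜} {N : ℕ} (hx : ∀ i, N ≤ i → x i = 0) (hy : ∑ i ∈ range N, ‖y i‖ ≤ 1 / 10)
    (h : 19 / 10 < nrm f (x + y)) (h1 : nrm f x ≤ 11 / 10) (h2 : nrm f y ≤ 11 / 10) :
    ∃ C : Finset ℕ, StrictMonoOn f C ∧ 7 / 10 < ∑ i ∈ C with i < N, ‖x i‖ ∧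
      7 / 10 < ∑ i ∈ C with ¬ i < N, ‖y i‖ := by
  obtain ⟨⟨C, hC⟩, h3⟩ := exists_lt_of_lt_ciSup h
  simp only at h3
  rw [← sum_filter_add_sum_filter_not C (· < N)] at h3
  have a : ∑ i ∈ C with i < N, ‖(x + y) i‖ ≤ ∑ i ∈ C with i < N, ‖x i‖ + 1 / 10 := by
    refine (sum_le_sum fun i _ => norm_add_le (x i) (y i)).trans ?_
    rw [sum_add_distrib]
    exact add_le_add le_rfl (le_trans (sum_le_sum_of_subset_of_nonneg
      (fun i hi => mem_range.2 (mem_filter.1 hi).2) fun _ _ _ => norm_nonneg _) hy)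
  have b : ∑ i ∈ C with ¬ i < N, ‖(x + y) i‖ = ∑ i ∈ C with ¬ i < N, ‖y i‖ :=
    sum_congr rfl fun i hi => by simp [hx i (not_lt.1 (mem_filter.1 hi).2)]
  have c := le_nrm x (hC.mono (coe_subset.2 (filter_subset (· < N) C)))
  have d := le_nrm y (hC.mono (coe_subset.2 (filter_subset (¬ · < N) C)))
  exact ⟨C, hC, by linarith, by linarith⟩

lemma down {x y : ℕ →₀ 𝕜} {N : ℕ} (hx : ∀ i, N ≤ i → x i = 0)
    (hy : ∑ i ∈ range N, ‖y i‖ ≤ 1 / 10) {C D : Finset ℕ} (hC : StrictMonoOn f C)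
    (hD : StrictMonoOn f D) (a : 7 / 10 < ∑ i ∈ C with i < N, ‖x i‖)
    (b : 7 / 10 < ∑ i ∈ D with ¬ i < N, ‖y i‖)
    (h : ∀ i ∈ C, i < N → ∀ j ∈ D, ¬ j < N → f i < f j) : 13 / 10 < nrm f (x + y) := by
  have hm : StrictMonoOn f ((C.filter (· < N) ∪ D.filter (¬ · < N) : Finset ℕ) : Set ℕ) := by
    intro i hi j hj hij
    simp only [coe_union, coe_filter, Set.mem_union, Set.mem_setOf_eq] at hi hj
    rcases hi with hi | hi <;> rcases hj with hj | hj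
    · exact hC hi.1 hj.1 hij
    · exact h i hi.1 hi.2 j hj.1 hj.2
    · omega
    · exact hD hi.1 hj.1 hij
  have := le_nrm (x + y) hm
  rw [sum_union (by
    rw [disjoint_left]
    exact fun i h1 h2 => (mem_filter.1 h2).2 (mem_filter.1 h1).2)] at this
  have a' : ∑ i ∈ C with i < N, ‖x i‖ ≤ ∑ i ∈ C with i < N, ‖(x + y) i‖ + 1 / 10 := by
    refine (sum_le_sum fun i _ => norm_le_add_norm_add (x i) (y i)).trans ?_
    rw [sum_add_distrib]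
    exact add_le_add le_rfl (le_trans (sum_le_sum_of_subset_of_nonneg
      (fun i hi => mem_range.2 (mem_filter.1 hi).2) fun _ _ _ => norm_nonneg _) hy)
  have b' : ∑ i ∈ D with ¬ i < N, ‖(x + y) i‖ = ∑ i ∈ D with ¬ i < N, ‖y i‖ :=
    sum_congr rfl fun i hi => by simp [hx i (not_lt.1 (mem_filter.1 hi).2)]
  linarith

lemma pig (u : ℕ → ℕ →₀ 𝕜) (hu : ∀ k, nrm f (u k) ≤ 2) (N : ℕ) :
    ∃ i j, i ≠ j ∧ ∑ n ∈ range N, ‖u i n - u j n‖ ≤ 1 / 10 := by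
  obtain ⟨a, _, φ, hφ, h⟩ := tendsto_subseq_of_bounded (Metric.isBounded_closedBall
    (x := (0 : Fin N → 𝕜)) (r := 2)) (x := fun k n => u k n) (fun k => by
      rw [mem_closedBall_zero_iff, pi_norm_le_iff_of_nonneg (by norm_num)]
      intro n
      simpa using (le_nrm (u k) (C := {(n : ℕ)}) (by simp)).trans (hu k))
  have h2 : Tendsto (fun k => ∑ n : Fin N, ‖u (φ k) n - u (φ (k + 1)) n‖) atTop
      (𝓝 (∑ n : Fin N, ‖a n - a n‖)) :=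
    tendsto_finset_sum _ fun n _ => ((tendsto_pi_nhds.1 h n).sub
      (tendsto_pi_nhds.1 (h.comp (tendsto_add_atTop_nat 1)) n)).norm
  obtain ⟨k, hk⟩ := (h2.eventually (gt_mem_nhds (a := 1 / 10) (by simp))).exists
  exact ⟨φ k, φ (k + 1), (hφ (Nat.lt_succ_self k)).ne, by
    rw [← Fin.sum_univ_eq_sum_range (fun n => ‖u (φ k) n - u (φ (k + 1)) n‖)]; exact hk.le⟩

lemma main (p q : X 𝕜 f) (u v : ℕ → X 𝕜 f) (c : 𝕜) (hc : ‖c‖ ≤ 1) (hp : ‖p‖ ≤ 1) (hq : ‖q‖ ≤ 1)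
    (hu : ∀ k, ‖u k‖ ≤ 1) (hv : ∀ k, ‖v k‖ ≤ 1)
    (h1 : ∀ i j, i ≠ j → ‖c • (u i - u j)‖ ≤ 1 ∧ 2 ≤ ‖p + c • (u i - u j)‖ ∧
      ‖q + c • (u i - u j)‖ ≤ 1)
    (h2 : ∀ i j, i ≠ j → ‖c • (v i - v j)‖ ≤ 1 ∧ 2 ≤ ‖q + c • (v i - v j)‖ ∧
      ‖p + c • (v i - v j)‖ ≤ 1) : False := by
  have ap : ∀ z : X 𝕜 f, ∃ x : C00 𝕜 f, ‖z - x‖ < 1 / 40 := fun z => by
    simpa [dist_eq_norm] using UniformSpace.Completion.denseRange_coe.exists_dist_lt z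
      (ε := 1 / 40) (by norm_num)
  choose A hA using ap
  have n0 : ∀ x : C00 𝕜 f, nrm f x = ‖(x : X 𝕜 f)‖ := fun x =>
    (UniformSpace.Completion.norm_coe x).symm
  have n1 : ∀ z : X 𝕜 f, ‖z‖ ≤ 1 → nrm f (A z) ≤ 11 / 10 := fun z hz => by
    rw [n0]
    linarith [norm_sub_norm_le (A z : X 𝕜 f) z, norm_sub_rev (A z : X 𝕜 f) z, hA z]
  have n2 : ∀ z w : X 𝕜 f, ‖c • (z - w) - (c • (A z - A w) : C00 𝕜 f)‖ ≤ 1 / 20 := fun z w => by
    rw [UniformSpace.Completion.coe_smul, UniformSpace.Completion.coe_sub, ← smul_sub,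
      norm_smul, sub_sub_sub_comm]
    have := norm_sub_le (z - A z) (w - A w)
    nlinarith [hA z, hA w, norm_nonneg (z - A z - (w - A w))]
  have n3 : ∀ y z w : X 𝕜 f,
      |nrm f (A y + c • (A z - A w) : C00 𝕜 f) - ‖y + c • (z - w)‖| < 1 / 10 := fun y z w => by
    rw [n0, abs_sub_comm]
    refine (abs_norm_sub_norm_le _ _).trans_lt ?_
    rw [UniformSpace.Completion.coe_add, add_sub_add_comm]
    linarith [norm_add_le (y - A y) (c • (z - w) - (c • (A z - A w) : C00 𝕜 f)), hA y, n2 z w]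
  have n4 : ∀ z w : X 𝕜 f, ‖c • (z - w)‖ ≤ 1 → nrm f (c • (A z - A w) : C00 𝕜 f) ≤ 11 / 10 :=
    fun z w h => by
    rw [n0]
    linarith [norm_sub_norm_le ((c • (A z - A w) : C00 𝕜 f) : X 𝕜 f) (c • (z - w)),
      norm_sub_rev ((c • (A z - A w) : C00 𝕜 f) : X 𝕜 f) (c • (z - w)), n2 z w]
  let B : X 𝕜 f → ℕ →₀ 𝕜 := A
  obtain ⟨N, hN⟩ := ((B p).support ∪ (B q).support).exists_nat_subset_range
  have zp : ∀ i, N ≤ i → B p i = 0 := fun i hi => by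
    by_contra h
    have := mem_range.1 (hN (mem_union_left _ (Finsupp.mem_support_iff.2 h)))
    omega
  have zq : ∀ i, N ≤ i → B q i = 0 := fun i hi => by
    by_contra h
    have := mem_range.1 (hN (mem_union_right _ (Finsupp.mem_support_iff.2 h)))
    omega
  have sm : ∀ z w, ∑ n ∈ range N, ‖B z n - B w n‖ ≤ 1 / 10 →
      ∑ n ∈ range N, ‖(c • (B z - B w)) n‖ ≤ 1 / 10 := fun z w h =>
    le_trans (sum_le_sum fun n _ => by
      simp only [Finsupp.smul_apply, Finsupp.sub_apply, norm_smul]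
      exact mul_le_of_le_one_left (norm_nonneg _) hc) h
  obtain ⟨i, j, hij, s1⟩ := pig (f := f) (fun k => B (u k)) (fun k => by linarith [n1 _ (hu k)]) N
  obtain ⟨k, l, hkl, s2⟩ := pig (f := f) (fun k => B (v k)) (fun k => by linarith [n1 _ (hv k)]) N
  obtain ⟨a1, a2, a3⟩ := h1 i j hij
  obtain ⟨b1, b2, b3⟩ := h2 k l hkl
  obtain ⟨C, hC, c1, c2⟩ := up (f := f) zp (sm _ _ s1)
    (by have := (abs_lt.1 (n3 p (u i) (u j))).1; exact lt_of_le_of_lt (by linarith) (lt_sub_iff_add_lt.1 this)) (n1 p hp) (n4 _ _ a1)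
  obtain ⟨D, hD, d1, d2⟩ := up (f := f) zq (sm _ _ s2)
    (by have := (abs_lt.1 (n3 q (v k) (v l))).1; exact lt_of_le_of_lt (by linarith) (lt_sub_iff_add_lt.1 this)) (n1 q hq) (n4 _ _ b1)
  by_cases h : ∀ i ∈ C, i < N → ∀ j ∈ D, ¬ j < N → f i < f j
  · have := (down zp (sm _ _ s2) hC hD c1 d2 h).trans
      (sub_lt_iff_lt_add.1 (abs_lt.1 (n3 p (v k) (v l))).2)
    linarith
  · push Not at h
    obtain ⟨a, ha, ha', b, hb, hb', h⟩ := h
    have := (down zq (sm _ _ s1) hD hC d1 c2 fun a' h1 h2 b' h3 h4 =>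
      (hD h1 hb (by omega)).trans_le (h.trans (hC ha h3 (by omega)).le)).trans
      (sub_lt_iff_lt_add.1 (abs_lt.1 (n3 q (u i) (u j))).2)
    linarith

end Pool.Agent.H51.SierB
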