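import Mathlib

namespace Pool.Agent.H51.SqDyadic

theorem dvd_eq {a b c : ℤ} (h : a ∣ b) (e : c = b) : a ∣ c := e ▸ h

theorem lemD (l : ℕ) (hl : l.Prime) (hodd : l ≠ 2) (a b c : ℤ) :
    ∃ x y z : ℤ, x * a + y * b + z * c = 0 ∧ ¬ (l : ℤ) ∣ x ^ 2 + y ^ 2 + z ^ 2 := by
  have hp : Prime (l : ℤ) := Nat.prime_iff_prime_int.mp hl
  have h2 : ¬ (l : ℤ) ∣ 2 := by
    intro h
    have : l ∣ 2 := by exact_mod_cast h
    exact hodd ((Nat.prime_dvd_prime_iff_eq hl Nat.prime_two).mp this)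
  have key : ∀ t : ℤ, (l : ℤ) ∣ 2 * t ^ 2 → (l : ℤ) ∣ t := by
    intro t ht
    rcases hp.dvd_or_dvd ht with h | h
    · exact absurd h h2
    · exact hp.dvd_of_dvd_pow h
  generalize hN : a.natAbs + b.natAbs + c.natAbs = N
  induction N using Nat.strong_induction_on generalizing a b c with
  | _ N ih =>
    by_cases h0 : N = 0
    · refine ⟨1, 0, 0, ?_, ?_⟩
      · have : a = 0 := by omega
        simp [this]
      · simpa using hp.not_dvd_one
    by_cases h1 : (l : ℤ) ∣ a ^ 2 + b ^ 2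
    · by_cases h2 : (l : ℤ) ∣ a ^ 2 + c ^ 2
      · by_cases h3 : (l : ℤ) ∣ b ^ 2 + c ^ 2
        · obtain ⟨a', rfl⟩ : (l : ℤ) ∣ a := key a (dvd_eq (dvd_sub (dvd_add h1 h2) h3) (by ring))
          obtain ⟨b', rfl⟩ : (l : ℤ) ∣ b := key b (dvd_eq (dvd_sub (dvd_add h1 h3) h2) (by ring))
          obtain ⟨c', rfl⟩ : (l : ℤ) ∣ c := key c (dvd_eq (dvd_sub (dvd_add h2 h3) h1) (by ring))
          have hl2 := hl.two_le
          simp only [Int.natAbs_mul, Int.natAbs_natCast] at hN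
          obtain ⟨x, y, z, hxyz, hn⟩ := ih (a'.natAbs + b'.natAbs + c'.natAbs) (by
            have : l * (a'.natAbs + b'.natAbs + c'.natAbs) = N := by rw [← hN]; ring
            have h3 : 0 < a'.natAbs + b'.natAbs + c'.natAbs := by
              rcases Nat.eq_zero_or_pos (a'.natAbs + b'.natAbs + c'.natAbs) with h | h
              · rw [h] at this; omega
              · exact h
            nlinarith) a' b' c' rfl
          refine ⟨x, y, z, ?_, hn⟩
          linear_combination (l : ℤ) * hxyz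
        · exact ⟨0, c, -b, by ring, by convert h3 using 2; ring⟩
      · exact ⟨c, 0, -a, by ring, by convert h2 using 2; ring⟩
    · exact ⟨b, -a, 0, by ring, by convert h1 using 2; ring⟩

theorem lemQ (l : ℕ) (hl : l.Prime) (hodd : l ≠ 2) (A B : ℤ) (hA : ¬ (l : ℤ) ∣ A)
    (hB : ¬ (l : ℤ) ∣ B) : ∃ s t : ℤ, (l : ℤ) ∣ A * s ^ 2 + B * t ^ 2 - 1 := by
  haveI : Fact l.Prime := ⟨hl⟩
  have hA' : (A : ZMod l) ≠ 0 := by rwa [Ne, ZMod.intCast_zmod_eq_zero_iff_dvd]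
  have hB' : (B : ZMod l) ≠ 0 := by rwa [Ne, ZMod.intCast_zmod_eq_zero_iff_dvd]
  obtain ⟨s, t, h⟩ := FiniteField.exists_root_sum_quadratic (R := ZMod l)
    (f := Polynomial.C (A : ZMod l) * Polynomial.X ^ 2)
    (g := Polynomial.C (B : ZMod l) * Polynomial.X ^ 2 + Polynomial.C 0 * Polynomial.X
      + Polynomial.C (-1))
    (Polynomial.degree_C_mul_X_pow 2 hA') (Polynomial.degree_quadratic hB')
    (by rw [ZMod.card]; exact Nat.odd_iff.mp (hl.odd_of_ne_two hodd))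
  refine ⟨(s.cast : ℤ), (t.cast : ℤ), ?_⟩
  rw [← ZMod.intCast_zmod_eq_zero_iff_dvd]
  push_cast
  simp only [Polynomial.eval_add, Polynomial.eval_mul, Polynomial.eval_C, Polynomial.eval_pow,
    Polynomial.eval_X] at h
  linear_combination h

theorem lemC (l : ℕ) (hl : l.Prime) (hodd : l ≠ 2) (v : Fin 6 → ℤ) :
    ∃ u : Fin 6 → ℤ, ∑ i, u i * v i = 0 ∧ (l : ℤ) ∣ ∑ i, u i ^ 2 - 1 := by
  obtain ⟨x, y, z, h1, h2⟩ := lemD l hl hodd (v 0) (v 1) (v 2)
  obtain ⟨x', y', z', h1', h2'⟩ := lemD l hl hodd (v 3) (v 4) (v 5)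
  obtain ⟨s, t, h⟩ := lemQ l hl hodd _ _ h2 h2'
  refine ⟨![s * x, s * y, s * z, t * x', t * y', t * z'], ?_, ?_⟩
  · simp only [Fin.sum_univ_six]
    simp
    linear_combination s * h1 + t * h1'
  · simp only [Fin.sum_univ_six]
    simp
    convert h using 1; ring

theorem lemB (d : ℕ) (hd : Odd d) (v : Fin 6 → ℤ) :
    ∃ u : Fin 6 → ℤ, ∑ i, u i * v i = 0 ∧ (d : ℤ) ∣ ∑ i, u i ^ 2 - 1 := by
  induction d using induction_on_primes with
  | zero => simp at hd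
  | one => exact ⟨0, by simp, by simp⟩
  | prime_mul l d hl ih =>
    have hlo : Odd l := (Nat.odd_mul.mp hd).1
    have hdo : Odd d := (Nat.odd_mul.mp hd).2
    have hl2 : l ≠ 2 := by rintro rfl; exact absurd hlo (by decide)
    obtain ⟨u, hu1, e, hu2⟩ := ih hdo
    by_cases hld : l ∣ d
    · obtain ⟨d', rfl⟩ := hld
      obtain ⟨h, rfl⟩ := hlo
      refine ⟨fun i => (1 + ((2 * h + 1) * d' : ℕ) * (e * h)) * u i, ?_, ?_⟩
      · simp only [mul_assoc, ← Finset.mul_sum, hu1, mul_zero]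
      · simp only [mul_pow, ← Finset.mul_sum]
        have : ∑ i, u i ^ 2 = 1 + ((2 * h + 1) * d' : ℕ) * e := by linear_combination hu2
        rw [this]
        push_cast
        refine ⟨e + d' * (e * h) ^ 2 + d' * 2 * (e * h) * e
          + (2 * h + 1) * d' * d' * (e * h) ^ 2 * e, ?_⟩
        ring
    · obtain ⟨u', hu1', e', hu2'⟩ := lemC l hl hl2 v
      have hco : IsCoprime (l : ℤ) (d : ℤ) := by
        rw [Nat.isCoprime_iff_coprime]
        exact (Nat.Prime.coprime_iff_not_dvd hl).mpr hld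
      obtain ⟨α, β, hαβ⟩ := hco
      refine ⟨fun i => (α * l) * u i + (β * d) * u' i, ?_, ?_⟩
      · simp only [add_mul, mul_assoc, Finset.sum_add_distrib, ← Finset.mul_sum, hu1, hu1',
          mul_zero, add_zero]
      · push_cast
        refine IsCoprime.mul_dvd ⟨α, β, hαβ⟩ ?_ ?_
        · have : ∑ i, ((α * l) * u i + (β * d) * u' i) ^ 2 - 1 =
              (∑ i, u' i ^ 2 - 1) + l * ∑ i, (α * (u i - u' i) * (2 * u' i + α * l * (u i - u' i))) := by
            rw [Finset.mul_sum, sub_add_eq_add_sub, ← Finset.sum_add_distrib]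
            congr 1
            refine Finset.sum_congr rfl fun i _ => ?_
            have : β * d = 1 - α * l := by linear_combination hαβ
            rw [this]; ring
          rw [this, hu2']
          exact dvd_add (dvd_mul_right _ _) (dvd_mul_right _ _)
        · have : ∑ i, ((α * l) * u i + (β * d) * u' i) ^ 2 - 1 =
              (∑ i, u i ^ 2 - 1) + d * ∑ i, (β * (u' i - u i) * (2 * u i + β * d * (u' i - u i))) := by
            rw [Finset.mul_sum, sub_add_eq_add_sub, ← Finset.sum_add_distrib]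
            congr 1
            refine Finset.sum_congr rfl fun i _ => ?_
            have : α * l = 1 - β * d := by linear_combination hαβ
            rw [this]; ring
          rw [this, hu2]
          exact dvd_add (dvd_mul_right _ _) (dvd_mul_right _ _)

/-- Large powers of four congruent to one. -/
theorem pow_four (D : ℕ) (hD : Odd D) (Q : ℤ) :
    ∃ K : ℕ, Q ≤ 4 ^ K ∧ (D : ℤ) ∣ 4 ^ K - 1 := by
  have hco : Nat.Coprime 4 D := by
    have : Nat.Coprime 2 D := (Nat.coprime_two_left).mpr hD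
    simpa using Nat.Coprime.pow_left 2 this
  have hpos : 0 < D := hD.pos
  have ht : 0 < D.totient := Nat.totient_pos.mpr hpos
  refine ⟨D.totient * Q.natAbs, ?_, ?_⟩
  · have h1 : Q.natAbs ≤ D.totient * Q.natAbs := Nat.le_mul_of_pos_left _ ht
    have h2 : D.totient * Q.natAbs < 4 ^ (D.totient * Q.natAbs) :=
      Nat.lt_pow_self (by norm_num)
    have h3 : Q ≤ Q.natAbs := Int.le_natAbs
    have h4 : ((D.totient * Q.natAbs : ℕ) : ℤ) < ((4 ^ (D.totient * Q.natAbs) : ℕ) : ℤ) := by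
      exact_mod_cast h2
    have h5 : ((Q.natAbs : ℕ) : ℤ) ≤ ((D.totient * Q.natAbs : ℕ) : ℤ) := by exact_mod_cast h1
    have h6 : ((4 ^ (D.totient * Q.natAbs) : ℕ) : ℤ) = 4 ^ (D.totient * Q.natAbs) := by push_cast; rfl
    linarith
  · have h := (Nat.ModEq.pow_totient hco).pow Q.natAbs
    rw [one_pow, ← pow_mul] at h
    have := (Nat.modEq_iff_dvd.mp h.symm)
    simpa using this

theorem four_sq (N : ℤ) (hN : 0 ≤ N) : ∃ s : Fin 4 → ℤ, ∑ i, s i ^ 2 = N := by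
  obtain ⟨a, b, c, d, h⟩ := Nat.sum_four_squares N.toNat
  refine ⟨![a, b, c, d], ?_⟩
  simp only [Fin.sum_univ_four]
  simp
  have : ((a ^ 2 + b ^ 2 + c ^ 2 + d ^ 2 : ℕ) : ℤ) = N := by rw [h]; exact Int.toNat_of_nonneg hN
  exact_mod_cast this

theorem lemA (d : ℕ) (hd : Odd d) (v : Fin 6 ⊕ Fin 4 → ℤ) :
    ∃ (j : ℕ) (u : Fin 6 ⊕ Fin 4 → ℤ), ∑ i, u i ^ 2 = 4 ^ j ∧ (d : ℤ) ∣ ∑ i, u i * v i := by
  obtain ⟨u, hu1, hu2⟩ := lemB (d * d) (hd.mul hd) (fun i => v (Sum.inl i))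
  obtain ⟨K, hK1, hK2⟩ := pow_four (d * d) (hd.mul hd) (∑ i, u i ^ 2)
  obtain ⟨N, hN⟩ := dvd_sub hK2 hu2
  have hdpos : (0 : ℤ) < ((d * d : ℕ) : ℤ) := by
    have := hd.pos
    positivity
  have hN0 : 0 ≤ N := by
    by_contra h
    have : ((d * d : ℕ) : ℤ) * N < 0 := mul_neg_of_pos_of_neg hdpos (by omega)
    linarith
  obtain ⟨s, hs⟩ := four_sq N hN0
  refine ⟨K, Sum.elim u (fun i => d * s i), ?_, ?_⟩
  · rw [Fintype.sum_sum_type]
    simp only [Sum.elim_inl, Sum.elim_inr, mul_pow, ← Finset.mul_sum, hs]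
    push_cast at hN
    linear_combination -hN
  · rw [Fintype.sum_sum_type]
    simp only [Sum.elim_inl, Sum.elim_inr, hu1, zero_add, mul_assoc, ← Finset.mul_sum]
    exact dvd_mul_right _ _

/-- Core statement with nonzero residue. -/
theorem core0 {κ : Type} [Fintype κ] (d : ℕ) (hd : Odd d)
    (w : (Fin 4 × (Fin 6 ⊕ Fin 4)) ⊕ κ → ℤ) (hw : ¬ ((d : ℤ) * d) ∣ ∑ i, w i ^ 2) :
    ∃ (J K : ℕ) (m : ℕ) (y : (Fin 4 × (Fin 6 ⊕ Fin 4)) ⊕ κ → ℤ), 0 < m ∧ m < d * d ∧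
      ∑ i, (4 ^ J * w i + d * y i) ^ 2 = (4 : ℤ) ^ K * (m : ℤ) := by
  choose j u hu1 hu2 using fun t : Fin 4 => lemA d hd (fun i => w (Sum.inl (t, i)))
  let J := ∑ t, j t
  have hjJ : ∀ t, j t ≤ J := fun t =>
    Finset.single_le_sum (f := j) (fun _ _ => Nat.zero_le _) (Finset.mem_univ t)
  let U : Fin 4 → Fin 6 ⊕ Fin 4 → ℤ := fun t i => 2 ^ (J - j t) * u t i
  have hU1 : ∀ t, ∑ i, U t i ^ 2 = 4 ^ J := by
    intro t
    simp only [U, mul_pow, ← Finset.mul_sum, hu1]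
    rw [← pow_mul, mul_comm (J - j t) 2, pow_mul, ← Nat.sub_add_cancel (hjJ t), pow_add]
    simp
  have hU2 : ∀ t, ∃ c : ℤ, ∑ i, U t i * w (Sum.inl (t, i)) = d * c := by
    intro t
    simp only [U, mul_assoc, ← Finset.mul_sum]
    exact Dvd.dvd.mul_left (hu2 t) _
  choose c hc using hU2
  set Q0 : ℤ := 4 ^ J * ∑ i, w i ^ 2 - d * d * ∑ t, c t ^ 2 with hQ0
  have hdpos : (0 : ℤ) < (d : ℤ) * d := by
    have := hd.pos
    positivity
  have hQ : ¬ ((d : ℤ) * d) ∣ Q0 := by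
    intro h
    apply hw
    have h1 : ((d : ℤ) * d) ∣ 4 ^ J * ∑ i, w i ^ 2 := by
      exact dvd_eq (dvd_add h (dvd_mul_right ((d : ℤ) * d) (∑ t, c t ^ 2))) (by rw [hQ0]; ring)
    have hco : IsCoprime ((d : ℤ) * d) (4 ^ J) := by
      have h2 : Nat.Coprime (d * d) (4 ^ J) := by
        have : Nat.Coprime (d * d) 2 := (Nat.coprime_two_right).mpr (hd.mul hd)
        have h4 : Nat.Coprime (d * d) 4 := by simpa using Nat.Coprime.pow_right 2 this
        exact Nat.Coprime.pow_right J h4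
      have := Nat.isCoprime_iff_coprime.mpr h2
      simpa using this
    exact hco.dvd_of_dvd_mul_left h1
  set m : ℤ := Q0 % (d * d) with hm
  have hm0 : 0 ≤ m := Int.emod_nonneg _ hdpos.ne'
  have hm1 : m < d * d := Int.emod_lt_of_pos _ hdpos
  have hm2 : m ≠ 0 := fun h => hQ (Int.dvd_of_emod_eq_zero h)
  have hm3 : ((d : ℤ) * d) ∣ m - Q0 := by
    rw [hm, Int.emod_def]
    exact ⟨-(Q0 / (d * d)), by ring⟩
  obtain ⟨K, hK1, hK2⟩ := pow_four (d * d) (hd.mul hd) Q0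
  push_cast at hK2
  obtain ⟨N, hN⟩ := dvd_add (Dvd.dvd.mul_right hK2 m) hm3
  have hN0 : 0 ≤ N := by
    by_contra h
    have h1 : ((d : ℤ) * d) * N < 0 := mul_neg_of_pos_of_neg hdpos (by omega)
    have h2 : (0 : ℤ) < 4 ^ K := by positivity
    have h3 : 4 ^ K * 1 ≤ 4 ^ K * m := mul_le_mul_of_nonneg_left (by omega) h2.le
    nlinarith
  obtain ⟨s, hs⟩ := four_sq N hN0
  refine ⟨J, J + K, m.toNat, Sum.elim (fun p => (s p.1 - c p.1) * U p.1 p.2) 0, by omega, ?_, ?_⟩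
  · have : ((m.toNat : ℕ) : ℤ) < ((d * d : ℕ) : ℤ) := by
      rw [Int.toNat_of_nonneg hm0]; push_cast; exact hm1
    exact_mod_cast this
  · rw [Int.toNat_of_nonneg hm0]
    have hsum : ∑ i, w i ^ 2 = ∑ t, ∑ i, w (Sum.inl (t, i)) ^ 2 + ∑ i, w (Sum.inr i) ^ 2 := by
      rw [Fintype.sum_sum_type, Fintype.sum_prod_type]
    rw [Fintype.sum_sum_type, Fintype.sum_prod_type]
    simp only [Sum.elim_inl, Sum.elim_inr, Pi.zero_apply, mul_zero, add_zero]
    have hblock : ∀ t, ∑ i, (4 ^ J * w (Sum.inl (t, i)) + d * ((s t - c t) * U t i)) ^ 2 =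
        (4 ^ J) ^ 2 * ∑ i, w (Sum.inl (t, i)) ^ 2 + 4 ^ J * (d * d) * (s t ^ 2 - c t ^ 2) := by
      intro t
      have e1 : ∀ i, (4 ^ J * w (Sum.inl (t, i)) + d * ((s t - c t) * U t i)) ^ 2 =
          (4 ^ J) ^ 2 * w (Sum.inl (t, i)) ^ 2
            + (2 * 4 ^ J * d * (s t - c t)) * (U t i * w (Sum.inl (t, i)))
            + (d * (s t - c t)) ^ 2 * U t i ^ 2 := by
        intro i; ring
      simp only [e1, Finset.sum_add_distrib, ← Finset.mul_sum, hU1, hc]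
      ring
    simp only [hblock, Finset.sum_add_distrib, ← Finset.mul_sum, mul_pow, Finset.sum_sub_distrib, hs]
    rw [hsum] at hQ0
    rw [pow_add]
    linear_combination (-(4 : ℤ) ^ J) * hN - (4 : ℤ) ^ J * hQ0

theorem core {ι κ : Type} [Fintype ι] [Fintype κ] (e : ι ≃ (Fin 4 × (Fin 6 ⊕ Fin 4)) ⊕ κ)
    (d : ℕ) (hd : Odd d) (w : ι → ℤ) (i0 : ι) (hw : ¬ (d : ℤ) ∣ w i0) :
    ∃ (J K : ℕ) (m : ℕ) (y : ι → ℤ), 0 < m ∧ m < d * d ∧
      ∑ i, (4 ^ J * w i + d * y i) ^ 2 = (4 : ℤ) ^ K * (m : ℤ) := by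
  classical
  have aux : ∀ w : ι → ℤ, ¬ ((d : ℤ) * d) ∣ ∑ i, w i ^ 2 →
      ∃ (J K : ℕ) (m : ℕ) (y : ι → ℤ), 0 < m ∧ m < d * d ∧
      ∑ i, (4 ^ J * w i + d * y i) ^ 2 = (4 : ℤ) ^ K * (m : ℤ) := by
    intro w hw
    obtain ⟨J, K, m, y, h1, h2, h3⟩ := core0 d hd (fun i => w (e.symm i)) (by
      rwa [Equiv.sum_comp e.symm (fun i => w i ^ 2)])
    refine ⟨J, K, m, fun i => y (e i), h1, h2, ?_⟩
    rw [← h3, ← Equiv.sum_comp e]
    simp
  by_cases h : ((d : ℤ) * d) ∣ ∑ i, w i ^ 2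
  · obtain ⟨J, K, m, y, h1, h2, h3⟩ := aux (fun i => w i + d * (if i = i0 then 1 else 0)) (by
      intro h'
      have e1 : ∑ i, (w i + d * (if i = i0 then 1 else 0)) ^ 2 =
          ∑ i, w i ^ 2 + (d * (2 * w i0) + d * d) := by
        have : ∀ i, (w i + d * (if i = i0 then 1 else 0)) ^ 2 =
            w i ^ 2 + (if i = i0 then d * (2 * w i0) + d * d else 0) := by
          intro i
          split_ifs with hi
          · subst hi; ring
          · ring
        simp only [this, Finset.sum_add_distrib, Finset.sum_ite_eq', Finset.mem_univ, if_true]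
      rw [e1] at h'
      have h4 : ((d : ℤ) * d) ∣ d * (2 * w i0) := by
        exact dvd_eq (dvd_sub (dvd_sub h' h) (dvd_refl ((d : ℤ) * d))) (by ring)
      have hd0 : (d : ℤ) ≠ 0 := by have := hd.pos; positivity
      have h5 : (d : ℤ) ∣ 2 * w i0 := (mul_dvd_mul_iff_left hd0).mp h4
      have hco : IsCoprime (d : ℤ) 2 := by
        have := Nat.isCoprime_iff_coprime.mpr ((Nat.coprime_two_right).mpr hd)
        simpa using this
      exact hw (hco.dvd_of_dvd_mul_left h5))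
    refine ⟨J, K, m, fun i => y i + 4 ^ J * (if i = i0 then 1 else 0), h1, h2, ?_⟩
    rw [← h3]
    refine Finset.sum_congr rfl fun i _ => ?_
    ring
  · exact aux w h

end Pool.Agent.H51.SqDyadic
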