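import Pool.Agent.H51.QFBasic
import Pool.Agent.H51.SqDyadic

namespace Pool.Agent.H51.SqEuclid
open Pool.Agent.H51.QFDefs Pool.Agent.H51.QFBasic
open IsDedekindDomain NumberField

/-- The sum of squares. -/
def one (R : Type) [CommRing R] (n : ℕ) : Fin n → Fin n → R := fun i j => if i = j then 1 else 0

theorem qf_one (R : Type) [CommRing R] (n : ℕ) (A : Type) [CommRing A] [Algebra R A]
    (x : Fin n → A) : qf (one R n) A x = ∑ i, x i ^ 2 := by
  unfold qf one
  refine Finset.sum_congr rfl fun i _ => ?_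
  rw [Finset.sum_eq_single i]
  · simp [sq]
  · intro j _ hj; simp [hj.symm]
  · simp

section
variable {R : Type} [CommRing R] [IsDomain R] [Algebra R ℚ]
  (hinj : Function.Injective (algebraMap R ℚ))
  (hR : ∀ x : ℚ, (∃ r : R, algebraMap R ℚ r = x) ↔ ∃ (k : ℕ) (m : ℤ), x = m / 2 ^ k)
include hinj hR

theorem two_unit : IsUnit (2 : R) := by
  obtain ⟨r, hr⟩ := (hR (1 / 2)).mpr ⟨1, 1, by norm_num⟩
  refine IsUnit.of_mul_eq_one r (hinj ?_)
  rw [map_mul, hr, map_ofNat, map_one]; norm_num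

theorem nrm_odd (m : ℕ) (hm : Odd m) : nrm (m : R) = m := by
  have hm0 : (m : R) ≠ 0 := by
    intro h
    have := congrArg (algebraMap R ℚ) h
    simp only [map_natCast, map_zero, Nat.cast_eq_zero] at this
    subst this; simp at hm
  have hco : ∀ k : ℕ, IsCoprime (m : ℤ) (2 ^ k) := by
    intro k
    have := Nat.isCoprime_iff_coprime.mpr
      (Nat.Coprime.pow_right k (Nat.coprime_two_right.mpr hm))
    simpa using this
  let f : ℤ →+* R ⧸ Ideal.span {(m : R)} := (Ideal.Quotient.mk _).comp (Int.castRingHom R)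
  have hsurj : Function.Surjective f := by
    intro z
    obtain ⟨r, rfl⟩ := Ideal.Quotient.mk_surjective z
    obtain ⟨k, t, ht⟩ := (hR _).mp ⟨r, rfl⟩
    obtain ⟨α, β, hαβ⟩ := hco k
    refine ⟨β * t, ?_⟩
    show Ideal.Quotient.mk _ ((β * t : ℤ) : R) = _
    rw [Ideal.Quotient.eq, Ideal.mem_span_singleton']
    refine ⟨-(α * r), hinj ?_⟩
    have h2 : (α : ℚ) * m + β * 2 ^ k = 1 := by exact_mod_cast hαβ
    have h3 : (t : ℚ) = 2 ^ k * algebraMap R ℚ r := by rw [ht]; field_simp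
    simp only [map_mul, map_neg, map_intCast, map_natCast, map_sub, Int.cast_mul]
    rw [h3]
    linear_combination (-algebraMap R ℚ r) * h2
  have hker : RingHom.ker f = Ideal.span {(m : ℤ)} := by
    ext t
    have hf : f t = Ideal.Quotient.mk _ ((t : ℤ) : R) := rfl
    rw [RingHom.mem_ker, hf, Ideal.Quotient.eq_zero_iff_mem, Ideal.mem_span_singleton,
      Ideal.mem_span_singleton]
    constructor
    · rintro ⟨r, hr⟩
      obtain ⟨k, s, hs⟩ := (hR _).mp ⟨r, rfl⟩
      have h1 := congrArg (algebraMap R ℚ) hr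
      simp only [map_intCast, map_mul, map_natCast] at h1
      rw [hs] at h1
      have h2 : (2 : ℚ) ^ k * t = m * s := by rw [h1]; field_simp
      have h3 : (2 : ℤ) ^ k * t = m * s := by exact_mod_cast h2
      exact (hco k).dvd_of_dvd_mul_left ⟨s, h3⟩
    · rintro ⟨s, rfl⟩
      exact ⟨s, by push_cast; rfl⟩
  unfold nrm
  rw [if_neg hm0, ← Nat.card_congr (RingHom.quotientKerEquivOfSurjective hsurj).toEquiv, hker,
    Nat.card_congr (Int.quotientSpanNatEquivZMod m).toEquiv, Nat.card_zmod]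

theorem nrm_two_pow (k : ℕ) : nrm ((2 : R) ^ k) = 1 := nrm_unit ((two_unit hinj hR).pow k)

theorem nrm_nat (m : ℕ) (hm : 0 < m) : 0 < nrm (m : R) ∧ nrm (m : R) ≤ m := by
  obtain ⟨k, t, ht, rfl⟩ := Nat.exists_eq_two_pow_mul_odd hm.ne'
  push_cast
  rw [nrm_mul, nrm_two_pow hinj hR, nrm_odd hinj hR t ht, one_mul]
  exact ⟨ht.pos, Nat.le_mul_of_pos_left _ (by positivity)⟩

theorem nrm_ne_zero (x : R) (hx : x ≠ 0) : nrm x ≠ 0 := by
  obtain ⟨k, t, ht⟩ := (hR _).mp ⟨x, rfl⟩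
  have h1 : (2 : R) ^ k * x = t := by
    apply hinj
    simp only [map_mul, map_pow, map_ofNat, map_intCast, ht]; field_simp
  have ht0 : t ≠ 0 := by
    rintro rfl
    apply hx
    apply hinj
    simp [ht]
  have h2 : nrm (x * x) ≠ 0 := by
    have h3 : ((2 : R) ^ k * 2 ^ k) * (x * x) = ((t.natAbs * t.natAbs : ℕ) : R) := by
      have : ((t.natAbs * t.natAbs : ℕ) : R) = ((t * t : ℤ) : R) := by
        rw [← Int.natAbs_mul_self]; exact (Int.cast_natCast _).symm
      rw [this]; push_cast; rw [← h1]; ring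
    have h4 := congrArg nrm h3
    rw [nrm_mul, nrm_mul, nrm_two_pow hinj hR, one_mul, one_mul] at h4
    rw [h4]
    exact (nrm_nat hinj hR _ (Nat.mul_pos (Int.natAbs_pos.mpr ht0) (Int.natAbs_pos.mpr ht0))).1.ne'
  rw [nrm_mul] at h2
  exact left_ne_zero_of_mul h2

theorem euclid (r : ℕ) : IsEuclidean (one R (40 + r)) ℚ := by
  intro x hx
  obtain ⟨D, hD0, hD⟩ : ∃ D : ℕ, D ≠ 0 ∧ ∀ i, ∃ w : ℤ, x i * D = w := by
    refine ⟨∏ i, (x i).den, Finset.prod_ne_zero_iff.mpr fun i _ => (x i).den_nz, fun i => ?_⟩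
    obtain ⟨c, hc⟩ := Finset.dvd_prod_of_mem (fun i => (x i).den) (Finset.mem_univ i)
    refine ⟨(x i).num * c, ?_⟩
    rw [hc]; push_cast
    rw [← mul_assoc, Rat.mul_den_eq_num]
  choose w hw using hD
  obtain ⟨a, d, hd, rfl⟩ := Nat.exists_eq_two_pow_mul_odd hD0
  have hdq : (d : ℚ) ≠ 0 := by have := hd.pos; positivity
  have hxw : ∀ i, x i = w i / (2 ^ a * d) := by
    intro i; rw [← hw i]; push_cast; field_simp
  obtain ⟨i0, hi0⟩ : ∃ i0, ¬ (d : ℤ) ∣ w i0 := by
    by_contra h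
    push Not at h
    apply hx
    have : ∀ i, ∃ r : R, algebraMap R ℚ r = x i := by
      intro i
      obtain ⟨c, hc⟩ := h i
      refine (hR _).mpr ⟨a, c, ?_⟩
      rw [hxw, hc]; push_cast; field_simp
    choose y hy using this
    exact ⟨y, funext fun i => (hy i).symm⟩
  have e : Fin (40 + r) ≃ (Fin 4 × (Fin 6 ⊕ Fin 4)) ⊕ Fin r :=
    Fintype.equivOfCardEq (by simp)
  obtain ⟨J, K, m, y, hm0, hm1, hsum⟩ := SqDyadic.core e d hd w i0 hi0
  have : ∀ i, ∃ r : R, algebraMap R ℚ r = -(y i) / 2 ^ (a + 2 * J) :=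
    fun i => (hR _).mpr ⟨a + 2 * J, -(y i), by push_cast; rfl⟩
  choose Y hY using this
  refine ⟨Y, ?_⟩
  have hval : qf (one R (40 + r)) ℚ (x - fun i => algebraMap R ℚ (Y i)) =
      algebraMap R ℚ (2 ^ (2 * K) * m) / algebraMap R ℚ (2 ^ (2 * (a + 2 * J)) * (d * d : ℕ)) := by
    rw [qf_one]
    have h1 : ∀ i, (x - fun i => algebraMap R ℚ (Y i)) i ^ 2 =
        ((4 ^ J * w i + d * y i : ℤ) : ℚ) ^ 2 / (2 ^ (2 * (a + 2 * J)) * (d * d)) := by
      intro i
      simp only [Pi.sub_apply, hY, hxw]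
      push_cast
      have : (4 : ℚ) ^ J = 2 ^ (2 * J) := by rw [pow_mul]; norm_num
      rw [this]
      field_simp
      ring
    simp only [h1, ← Finset.sum_div]
    have h2 : ∑ i, ((4 ^ J * w i + d * y i : ℤ) : ℚ) ^ 2 = 4 ^ K * m := by exact_mod_cast hsum
    rw [h2]
    simp only [map_mul, map_pow, map_ofNat, map_natCast, Nat.cast_mul]
    have : (4 : ℚ) ^ K = 2 ^ (2 * K) := by rw [pow_mul]; norm_num
    rw [this]
  have hden : (2 : R) ^ (2 * (a + 2 * J)) * (d * d : ℕ) ≠ 0 := by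
    intro h
    have := congrArg (algebraMap R ℚ) h
    simp only [map_mul, map_pow, map_ofNat, map_natCast, Nat.cast_mul, map_zero] at this
    have h2 : (2 : ℚ) ^ (2 * (a + 2 * J)) * (d * d) ≠ 0 := by positivity
    exact h2 this
  rw [hval, absK_div hinj (nrm_ne_zero hinj hR) _ _ hden, nrm_mul, nrm_mul, nrm_two_pow hinj hR,
    nrm_two_pow hinj hR, one_mul, one_mul, nrm_odd hinj hR _ (hd.mul hd)]
  obtain ⟨h1, h2⟩ := nrm_nat hinj hR m hm0
  have hdd : (0 : ℚ) < ((d * d : ℕ) : ℚ) := by have := hd.pos; positivity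
  constructor
  · have : (0 : ℚ) < nrm (m : R) := by exact_mod_cast h1
    positivity
  · rw [div_lt_one hdd]
    exact_mod_cast lt_of_le_of_lt h2 hm1

end

theorem aniso (R : Type) [CommRing R] [Algebra R ℚ] (n : ℕ) : Anisotropic (one R n) ℚ := by
  intro x hx h
  rw [qf_one, Finset.sum_eq_zero_iff_of_nonneg (fun i _ => sq_nonneg _)] at h
  exact hx (funext fun i => by simpa using h i (Finset.mem_univ i))

theorem nondeg (R : Type) [CommRing R] [Algebra R ℚ] (n : ℕ) : Nondegenerate (one R n) ℚ := by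
  intro x hx
  by_contra h
  apply aniso R n x h
  have h1 := hx x
  simp only [qf_one, Pi.add_apply] at h1 ⊢
  have h2 : ∑ i, (x i + x i) ^ 2 = 4 * ∑ i, x i ^ 2 := by
    rw [Finset.mul_sum]; exact Finset.sum_congr rfl fun i _ => by ring
  linarith

theorem not_iso (R : Type) [CommRing R] [Nontrivial R] {m n : ℕ} (a : Fin m → Fin m → R)
    (b : Fin n → Fin n → R) (h : Isomorphic a b) : m = n := by
  obtain ⟨e, -⟩ := h
  have := e.finrank_eq
  simpa using this.symm

/-- The finite place of the rationals above 2. -/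
def S2 : Set (HeightOneSpectrum (𝓞 ℚ)) := {v | (2 : 𝓞 ℚ) ∈ v.asIdeal}

theorem S2_finite : S2.Finite := by
  have := Ideal.finite_factors (R := 𝓞 ℚ) (I := Ideal.span {2}) (by simp)
  refine this.subset fun v hv => ?_
  simpa [Ideal.dvd_span_singleton, S2] using hv

theorem mem_S2 (x : ℚ) : x ∈ S2.integer ℚ ↔ ∃ (k : ℕ) (m : ℤ), x = m / 2 ^ k := by
  constructor
  · intro hx
    obtain ⟨k, t, ht, hkt⟩ := Nat.exists_eq_two_pow_mul_odd x.den_nz
    have ht1 : t = 1 := by
      by_contra h1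
      obtain ⟨p, hp, hpt⟩ := Nat.exists_prime_and_dvd h1
      let v : HeightOneSpectrum (𝓞 ℚ) := Rat.HeightOneSpectrum.primesEquiv.symm ⟨p, hp⟩
      have hv : Rat.HeightOneSpectrum.natGenerator v = p := by
        have : Rat.HeightOneSpectrum.primesEquiv v = ⟨p, hp⟩ := Equiv.apply_symm_apply _ _
        exact congrArg Subtype.val this
      have hmem : ∀ n : ℕ, (n : 𝓞 ℚ) ∈ v.asIdeal ↔ p ∣ n := by
        intro n
        rw [← hv, Rat.HeightOneSpectrum.natGenerator_dvd_iff, Ideal.mem_map_of_equiv]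
        constructor
        · intro h
          exact ⟨_, h, map_natCast _ _⟩
        · rintro ⟨y, hy, h⟩
          have : y = n := (Rat.IsIntegralClosure.intEquiv (𝓞 ℚ)).injective
            (by rw [map_natCast]; exact h)
          exact this ▸ hy
      have hv2 : v ∉ S2 := by
        intro h
        have : p ∣ 2 := (hmem 2).mp h
        have := (Nat.prime_dvd_prime_iff_eq hp Nat.prime_two).mp this
        subst this
        exact (Nat.not_even_iff_odd.mpr ht) (even_iff_two_dvd.mpr hpt)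
      have h2 : v.valuation ℚ x ≤ 1 := hx v hv2
      have hden : v.valuation ℚ (x.den : ℚ) < 1 := by
        have : (x.den : ℚ) = algebraMap (𝓞 ℚ) ℚ (x.den : 𝓞 ℚ) := by simp
        rw [this, HeightOneSpectrum.valuation_lt_one_iff_mem, hmem, hkt]
        exact Dvd.dvd.mul_left hpt _
      have hnum : v.valuation ℚ (x.num.natAbs : ℚ) < 1 := by
        have h3 : (x.num.natAbs : ℚ) = x.num ∨ (x.num.natAbs : ℚ) = -x.num := by
          rcases Int.natAbs_eq x.num with h | h
          · left; rw [h]; simp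
          · right; rw [h]; simp
        have h4 : v.valuation ℚ (x.num : ℚ) < 1 := by
          rw [← Rat.mul_den_eq_num, map_mul]
          exact mul_lt_one_of_nonneg_of_lt_one_right h2 zero_le hden
        rcases h3 with h | h
        · rwa [h]
        · rwa [h, Valuation.map_neg]
      have : (x.num.natAbs : ℚ) = algebraMap (𝓞 ℚ) ℚ (x.num.natAbs : 𝓞 ℚ) := by simp
      rw [this, HeightOneSpectrum.valuation_lt_one_iff_mem, hmem] at hnum
      have h5 : p ∣ x.den := by rw [hkt]; exact Dvd.dvd.mul_left hpt _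
      exact hp.one_lt.ne' (Nat.eq_one_of_dvd_coprimes x.reduced hnum h5)
    refine ⟨k, x.num, ?_⟩
    have : (x.den : ℚ) = 2 ^ k := by rw [hkt, ht1]; simp
    rw [← this, Rat.num_div_den]
  · rintro ⟨k, m, rfl⟩ v hv
    have h1 : v.valuation ℚ (2 : ℚ) = 1 := by
      have : (2 : ℚ) = algebraMap (𝓞 ℚ) ℚ 2 := (map_ofNat _ 2).symm
      rw [this]
      refine le_antisymm (v.valuation_le_one _) (not_lt.mp ?_)
      rw [HeightOneSpectrum.valuation_lt_one_iff_mem]
      exact hv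
    rw [map_div₀, map_pow, h1, one_pow, div_one]
    have : (m : ℚ) = algebraMap (𝓞 ℚ) ℚ (m : 𝓞 ℚ) := by simp
    rw [this]
    exact v.valuation_le_one _

theorem main : ∃ S : Set (HeightOneSpectrum (𝓞 ℚ)), S.Finite ∧
    ∃ (n : ℕ → ℕ) (q : ∀ i, Fin (n i) → Fin (n i) → S.integer ℚ),
      (∀ i, 1 ≤ n i ∧ Nondegenerate (q i) ℚ ∧ Anisotropic (q i) ℚ ∧ IsEuclidean (q i) ℚ) ∧
      ∀ i j, i ≠ j → ¬ Isomorphic (q i) (q j) := by
  refine ⟨S2, S2_finite, fun i => 40 + i, fun i => one _ (40 + i), fun i => ⟨by show 1 ≤ 40 + i; omega,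
    nondeg _ _, aniso _ _, euclid Subtype.val_injective ?_ i⟩, fun i j hij h => ?_⟩
  · intro x
    rw [← mem_S2]
    exact ⟨fun ⟨r, hr⟩ => hr ▸ r.2, fun h => ⟨⟨x, h⟩, rfl⟩⟩
  · have : 40 + i = 40 + j := not_iso _ _ _ h
    omega

end Pool.Agent.H51.SqEuclid
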