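import Mathlib

namespace Pool.Agent.H51.SquareRing

theorem of_surj (T : Type) [Ring T] [Nontrivial T] (φ : T →+* T × T) (hφ : Function.Surjective φ) :
    ∃ (I : Ideal T) (_ : I.IsTwoSided), Nontrivial (T ⧸ I) ∧
      Nonempty ((T ⧸ I) ≃+* (T ⧸ I) × (T ⧸ I)) := by
  let K : ℕ → Ideal T := fun n => Nat.rec ⊥ (fun _ J => J.comap ((RingHom.fst T T).comp φ) ⊓
    J.comap ((RingHom.snd T T).comp φ)) n
  have hK : ∀ n x, x ∈ K (n + 1) ↔ (φ x).1 ∈ K n ∧ (φ x).2 ∈ K n := fun n x => Iff.rfl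
  have hmono : Monotone K := by
    refine monotone_nat_of_le_succ fun n => ?_
    induction n with
    | zero => exact bot_le
    | succ n ih => exact fun x hx => (hK (n + 1) x).mpr ⟨ih ((hK n x).mp hx).1, ih ((hK n x).mp hx).2⟩
  have htwo : ∀ n a, a ∈ K n → ∀ b, a * b ∈ K n := by
    intro n
    induction n with
    | zero => intro a ha b; rw [show a = 0 from ha, zero_mul]; exact zero_mem _
    | succ n ih =>
      intro a ha b
      rw [hK, map_mul]
      exact ⟨ih _ ha.1 _, ih _ ha.2 _⟩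
  have hone : ∀ n, (1 : T) ∉ K n := by
    intro n
    induction n with
    | zero => exact fun h => one_ne_zero (show (1 : T) = 0 from h)
    | succ n ih => intro h; rw [hK, map_one] at h; exact ih h.1
  have hmem : ∀ x, x ∈ ⨆ n, K n ↔ ∃ n, x ∈ K n := fun x =>
    Submodule.mem_iSup_of_directed K hmono.directed_le
  haveI : (⨆ n, K n).IsTwoSided := ⟨fun b ha => by
    obtain ⟨n, hn⟩ := (hmem _).mp ha
    exact (hmem _).mpr ⟨n, htwo n _ hn b⟩⟩
  refine ⟨⨆ n, K n, this, ?_, ?_⟩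
  · refine Ideal.Quotient.nontrivial_iff.mpr fun h => ?_
    obtain ⟨n, hn⟩ := (hmem 1).mp (h ▸ Submodule.mem_top)
    exact hone n hn
  · let ψ : T →+* (T ⧸ ⨆ n, K n) × (T ⧸ ⨆ n, K n) :=
      (RingHom.prodMap (Ideal.Quotient.mk _) (Ideal.Quotient.mk _)).comp φ
    have hψ : ∀ x, ψ x = 0 ↔ x ∈ ⨆ n, K n := by
      intro x
      have : ψ x = (Ideal.Quotient.mk _ (φ x).1, Ideal.Quotient.mk _ (φ x).2) := rfl
      rw [this, Prod.mk_eq_zero, Ideal.Quotient.eq_zero_iff_mem, Ideal.Quotient.eq_zero_iff_mem,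
        hmem, hmem, hmem]
      constructor
      · rintro ⟨⟨m, hm⟩, ⟨n, hn⟩⟩
        exact ⟨max m n + 1, hmono (le_max_left _ _) hm, hmono (le_max_right _ _) hn⟩
      · rintro ⟨n, hn⟩
        have := hmono (Nat.le_succ n) hn
        exact ⟨⟨n, this.1⟩, ⟨n, this.2⟩⟩
    refine ⟨RingEquiv.ofBijective (Ideal.Quotient.lift _ ψ fun x hx => (hψ x).mpr hx) ⟨?_, ?_⟩⟩
    · rw [injective_iff_map_eq_zero]
      intro x hx
      obtain ⟨x, rfl⟩ := Ideal.Quotient.mk_surjective x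
      exact Ideal.Quotient.eq_zero_iff_mem.mpr ((hψ x).mp hx)
    · rintro ⟨a, b⟩
      obtain ⟨a, rfl⟩ := Ideal.Quotient.mk_surjective a
      obtain ⟨b, rfl⟩ := Ideal.Quotient.mk_surjective b
      obtain ⟨x, hx⟩ := hφ (a, b)
      refine ⟨Ideal.Quotient.mk _ x, ?_⟩
      show (Ideal.Quotient.mk _ (φ x).1, Ideal.Quotient.mk _ (φ x).2) = _
      rw [hx]

open FreeAlgebra in
/-- The relations of the Cohn algebra with one extra free generator. -/
inductive Rel : FreeAlgebra ℤ (Fin 5) → FreeAlgebra ℤ (Fin 5) → Prop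
  | r11 : Rel (ι ℤ 2 * ι ℤ 0) 1
  | r12 : Rel (ι ℤ 2 * ι ℤ 1) 0
  | r21 : Rel (ι ℤ 3 * ι ℤ 0) 0
  | r22 : Rel (ι ℤ 3 * ι ℤ 1) 1

/-- The ring. -/
abbrev T : Type := RingQuot Rel

/-- Generators. -/
def g (i : Fin 5) : T := RingQuot.mkRingHom Rel (FreeAlgebra.ι ℤ i)

/-- Universal property. -/
def liftT {S : Type} [Ring S] (f : Fin 5 → S) (h11 : f 2 * f 0 = 1) (h12 : f 2 * f 1 = 0)
    (h21 : f 3 * f 0 = 0) (h22 : f 3 * f 1 = 1) : T →+* S :=
  RingQuot.lift ⟨(FreeAlgebra.lift ℤ f).toRingHom, by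
    intro x y h
    cases h <;> simp [*]⟩

theorem liftT_g {S : Type} [Ring S] (f : Fin 5 → S) (h11 : f 2 * f 0 = 1) (h12 : f 2 * f 1 = 0)
    (h21 : f 3 * f 0 = 0) (h22 : f 3 * f 1 = 1) (i : Fin 5) :
    liftT f h11 h12 h21 h22 (g i) = f i := by
  simp [liftT, g]

theorem g11 : g 2 * g 0 = 1 := by
  simpa [g] using RingQuot.mkRingHom_rel Rel.r11
theorem g12 : g 2 * g 1 = 0 := by
  simpa [g] using RingQuot.mkRingHom_rel Rel.r12
theorem g21 : g 3 * g 0 = 0 := by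
  simpa [g] using RingQuot.mkRingHom_rel Rel.r21
theorem g22 : g 3 * g 1 = 1 := by
  simpa [g] using RingQuot.mkRingHom_rel Rel.r22

theorem gen (S : Subring T) (h : ∀ i, g i ∈ S) (x : T) : x ∈ S := by
  obtain ⟨x, rfl⟩ := RingQuot.mkRingHom_surjective Rel x
  induction x using FreeAlgebra.induction with
  | grade0 r => simp
  | grade1 i => exact h i
  | mul a b ha hb => rw [map_mul]; exact mul_mem ha hb
  | add a b ha hb => rw [map_add]; exact add_mem ha hb

/-- Interleaving with zeros. -/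
def up (r : ℕ) : Module.End ℤ (ℕ → ℤ) where
  toFun f n := if n % 2 = r then f (n / 2) else 0
  map_add' f g := by funext n; by_cases h : n % 2 = r <;> simp [h]
  map_smul' c f := by funext n; by_cases h : n % 2 = r <;> simp [h]

/-- Subsequence. -/
def down (r : ℕ) : Module.End ℤ (ℕ → ℤ) where
  toFun f n := f (2 * n + r)
  map_add' _ _ := rfl
  map_smul' _ _ := rfl

instance : Nontrivial T := by
  refine (liftT (S := Module.End ℤ (ℕ → ℤ)) ![up 0, up 1, down 0, down 1, 0] ?_ ?_ ?_ ?_).domain_nontrivial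
  all_goals
    ext f n
    simp [up, down, Nat.add_mod, Nat.mul_add_div]

/-- The surjection onto the square. -/
def φ : T →+* T × T :=
  liftT ![(g 0, g 0), (g 1, g 1), (g 2, g 2), (g 3, g 3),
    (g 0 * g 2 + g 1 * g 4 * g 3, g 1 * g 4 * g 3)]
    (by simp [g11, Prod.ext_iff]) (by simp [g12]) (by simp [g21]) (by simp [g22, Prod.ext_iff])

theorem φ_surj : Function.Surjective φ := by
  have h0 : φ (g 0) = (g 0, g 0) := liftT_g _ _ _ _ _ _
  have h1 : φ (g 1) = (g 1, g 1) := liftT_g _ _ _ _ _ _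
  have h2 : φ (g 2) = (g 2, g 2) := liftT_g _ _ _ _ _ _
  have h3 : φ (g 3) = (g 3, g 3) := liftT_g _ _ _ _ _ _
  have h4 : φ (g 4) = (g 0 * g 2 + g 1 * g 4 * g 3, g 1 * g 4 * g 3) := liftT_g _ _ _ _ _ _
  have he : φ (g 2 * g 4 * g 0) = (1, 0) := by
    rw [map_mul, map_mul, h0, h2, h4]
    simp only [Prod.mk_mul_mk, mul_add, add_mul, ← mul_assoc, g11, g12]
    simp [g11]
  have ht : φ (g 3 * g 4 * g 1) = (g 4, g 4) := by
    rw [map_mul, map_mul, h1, h3, h4]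
    simp only [Prod.mk_mul_mk, mul_add, add_mul, ← mul_assoc, g21, g22]
    simp [mul_assoc, g22]
  have hd : ∀ x, (x, x) ∈ φ.range := by
    refine gen (φ.range.comap ((RingHom.id T).prod (RingHom.id T))) fun i => ?_
    fin_cases i
    exacts [⟨_, h0⟩, ⟨_, h1⟩, ⟨_, h2⟩, ⟨_, h3⟩, ⟨_, ht⟩]
  rintro ⟨a, b⟩
  have : (a, b) = (1, 0) * (a - b, a - b) + (b, b) := by simp
  rw [this]
  exact add_mem (mul_mem (show (1, 0) ∈ φ.range from ⟨_, he⟩) (hd _)) (hd _)

theorem main : ∃ (R : Type) (_ : Ring R), Nontrivial R ∧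
    (∃ S : Finset R, Subring.closure (S : Set R) = ⊤) ∧ Nonempty (R ≃+* R × R) := by
  classical
  obtain ⟨I, _, h1, h2⟩ := of_surj T φ φ_surj
  refine ⟨T ⧸ I, inferInstance, h1,
    ⟨Finset.univ.image fun i => Ideal.Quotient.mk I (g i), ?_⟩, h2⟩
  rw [eq_top_iff]
  rintro x -
  obtain ⟨x, rfl⟩ := Ideal.Quotient.mk_surjective x
  refine gen (Subring.comap (Ideal.Quotient.mk I) (Subring.closure
    ((Finset.univ.image fun i => Ideal.Quotient.mk I (g i) : Finset (T ⧸ I)) : Set (T ⧸ I))))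
    (fun i => ?_) x
  rw [Subring.mem_comap]
  exact Subring.subset_closure (by simp)

end Pool.Agent.H51.SquareRing
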