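import Mathlib

set_option autoImplicit false
open Finset SimpleGraph

namespace Pool.Agent.H51.SwitchA
open Classical

variable {V V' : Type} [Fintype V] [Fintype V']

def sg (b : Bool) : ℚ := if b then -1 else 1

theorem sg_xor (a b : Bool) : sg (xor a b) = sg a * sg b := by cases a <;> cases b <;> simp [sg]
theorem sg_sq (a : Bool) : sg a * sg a = 1 := by cases a <;> simp [sg]

noncomputable def wt (H : SimpleGraph V) (g : Sym2 V → Bool) : ℚ := ∏ e : H.edgeSet, sg (g e)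

theorem wt_xor (H : SimpleGraph V) (g g' : Sym2 V → Bool) :
    wt H (fun e => xor (g e) (g' e)) = wt H g * wt H g' := by
  simp only [wt, sg_xor, prod_mul_distrib]

theorem wt_sq (H : SimpleGraph V) (g : Sym2 V → Bool) : wt H g * wt H g = 1 := by
  simp [wt, ← prod_mul_distrib, sg_sq]

theorem wt_false (H : SimpleGraph V) : wt H (fun _ => false) = 1 := by simp [wt, sg]

theorem wt_congr (H : SimpleGraph V) {g g' : Sym2 V → Bool}
    (h : ∀ u v, u ≠ v → g s(u, v) = g' s(u, v)) : wt H g = wt H g' := by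
  refine prod_congr rfl ?_
  rintro ⟨e, he⟩ -
  induction e with
  | _ u v => exact congrArg sg (h u v (H.ne_of_adj he))

theorem wt_iso {H : SimpleGraph V} {H' : SimpleGraph V'} (e : H ≃g H') (g : Sym2 V' → Bool) :
    wt H (g ∘ Sym2.map e) = wt H' g :=
  Fintype.prod_equiv e.mapEdgeSet _ _ fun _ => rfl

theorem wt_sum (H : SimpleGraph V) (H' : SimpleGraph V') (g : Sym2 (V ⊕ V') → Bool) :
    wt (H ⊕g H') g = wt H (g ∘ Sym2.map Sum.inl) * wt H' (g ∘ Sym2.map Sum.inr) := by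
  rw [wt, ← (edgeSetSumEquiv (G := H) (H := H')).symm.prod_comp, Fintype.prod_sum_type,
    wt, wt]
  congr 1 <;> refine prod_congr (by congr) ?_ <;> rintro ⟨⟨u, v⟩, he⟩ - <;> rfl

def cut {V : Type} (ε : V → Bool) : Sym2 V → Bool :=
  Sym2.lift ⟨fun u v => xor (ε u) (ε v), fun _ _ => Bool.xor_comm _ _⟩

theorem cut_comp {V V' : Type} (ε : V' → Bool) (φ : V → V') :
    cut ε ∘ Sym2.map φ = cut (ε ∘ φ) := by
  funext e
  induction e with
  | _ u v => rfl

def Ev (H : SimpleGraph V) : Prop := ∀ ε, wt H (cut ε) = 1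

theorem Ev.iso {H : SimpleGraph V} {H' : SimpleGraph V'} (e : H ≃g H') (h : Ev H) : Ev H' :=
  fun ε => by rw [← wt_iso e, cut_comp]; exact h _

theorem Ev.sum {H : SimpleGraph V} {H' : SimpleGraph V'} (h : Ev H) (h' : Ev H') :
    Ev (H ⊕g H') := fun ε => by rw [wt_sum, cut_comp, cut_comp, h, h', mul_one]

theorem cut_false {V : Type} : cut (fun _ : V => false) = fun _ => false := by
  funext e
  induction e with
  | _ u v => rfl

theorem Ev.left {H : SimpleGraph V} {H' : SimpleGraph V'} (h : Ev (H ⊕g H')) : Ev H := fun ε => by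
  have := h (Sum.elim ε fun _ => false)
  rwa [wt_sum, cut_comp, cut_comp, Sum.elim_comp_inl, Sum.elim_comp_inr, cut_false, wt_false,
    mul_one] at this

theorem Ev.right {H : SimpleGraph V} {H' : SimpleGraph V'} (h : Ev (H ⊕g H')) : Ev H' :=
  (h.iso Iso.sumComm).left

theorem sum_cut {H : SimpleGraph V} (h : ¬ Ev H) : ∑ ε, wt H (cut ε) = 0 := by
  obtain ⟨ε0, h0⟩ := not_forall.1 h
  have h1 : wt H (cut ε0) = -1 := (mul_self_eq_one_iff.1 (wt_sq H _)).resolve_left h0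
  have h2 : ∑ ε, wt H (cut ε) = ∑ ε, wt H (cut ε) * wt H (cut ε0) := by
    refine (Fintype.sum_bijective (fun ε v => xor (ε v) (ε0 v))
      (Function.Involutive.bijective fun ε => by funext v; simp) _ _ fun ε => ?_).symm
    rw [← wt_xor]
    congr 1
    funext e
    induction e with
    | _ u v =>
      show xor (xor (ε u) (ε v)) (xor (ε0 u) (ε0 v)) = xor (xor (ε u) (ε0 u)) (xor (ε v) (ε0 v))
      cases ε u <;> cases ε v <;> cases ε0 u <;> cases ε0 v <;> rfl
  rw [← sum_mul, h1] at h2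
  linarith

def rb (i j : ℕ) : Bool := j.testBit i || i.testBit j

def W : Sym2 ℕ → Bool := Sym2.lift ⟨rb, fun _ _ => Bool.or_comm _ _⟩

noncomputable def D (φ : V → ℕ) : ℕ →₀ ℕ := ∑ v, Finsupp.single (φ v) 1

theorem D_comp (φ : V' → ℕ) (e : V ≃ V') : D (φ ∘ e) = D φ :=
  e.sum_comp fun v => Finsupp.single (φ v) 1

theorem D_apply (φ : V → ℕ) (i : ℕ) : D φ i = (univ.filter fun v => φ v = i).card := by
  simp [D, Finsupp.finset_sum_apply, Finsupp.single_apply]

theorem D_deg (φ : V → ℕ) : (D φ).sum (fun _ e => e) = Fintype.card V := by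
  rw [D, ← Finsupp.sum_finsetSum_index (by simp) (by simp)]
  simp

theorem D_map (φ : V → ℕ) (σ : Equiv.Perm ℕ) :
    Finsupp.equivMapDomain σ (D φ) = D (σ ∘ φ) := by
  ext i
  simp [D_apply, Equiv.eq_symm_apply]

variable (V) in
noncomputable def Ph (s : ℕ →₀ ℕ) : Finset (V → ℕ) :=
  (Fintype.piFinset fun _ => s.support).filter fun φ => D φ = s

theorem mem_Ph {s : ℕ →₀ ℕ} {φ : V → ℕ} : φ ∈ Ph V s ↔ D φ = s := by
  simp only [Ph, mem_filter, Fintype.mem_piFinset, and_iff_right_iff_imp]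
  rintro rfl v
  rw [Finsupp.mem_support_iff, D_apply]
  exact card_ne_zero_of_mem (a := v) (by simp)

noncomputable def chi (H : SimpleGraph V) : MvPowerSeries ℕ ℚ :=
  fun s => ∑ φ ∈ Ph V s, wt H (W ∘ Sym2.map φ)

theorem coeff_chi (H : SimpleGraph V) (s : ℕ →₀ ℕ) :
    MvPowerSeries.coeff s (chi H) = ∑ φ ∈ Ph V s, wt H (W ∘ Sym2.map φ) := rfl

theorem chi_deg (H : SimpleGraph V) (s : ℕ →₀ ℕ) (h : MvPowerSeries.coeff s (chi H) ≠ 0) :
    s.sum (fun _ e => e) = Fintype.card V := by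
  obtain ⟨φ, hφ, -⟩ := exists_ne_zero_of_sum_ne_zero h
  rw [← mem_Ph.1 hφ, D_deg]

theorem chi_iso {H : SimpleGraph V} {H' : SimpleGraph V'} (e : H ≃g H') : chi H = chi H' := by
  ext s
  rw [coeff_chi, coeff_chi]
  symm
  refine sum_bijective (fun φ => φ ∘ e) (e.toEquiv.arrowCongr (Equiv.refl ℕ)).symm.bijective
    (fun φ => ?_) fun φ _ => ?_
  · rw [mem_Ph, mem_Ph, show (φ ∘ e) = φ ∘ e.toEquiv from rfl, D_comp]
  · rw [← wt_iso e, Function.comp_assoc, ← Sym2.map_comp]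

theorem chi_sum (H : SimpleGraph V) (H' : SimpleGraph V') : chi (H ⊕g H') = chi H * chi H' := by
  ext s
  have hD : ∀ φ : V ⊕ V' → ℕ, D φ = D (φ ∘ Sum.inl) + D (φ ∘ Sum.inr) := fun φ => by
    simp [D, Fintype.sum_sum_type]
  rw [MvPowerSeries.coeff_mul, coeff_chi, ← sum_fiberwise_of_maps_to (t := antidiagonal s)
    (g := fun φ => (D (φ ∘ Sum.inl), D (φ ∘ Sum.inr)))
    (fun φ hφ => by rw [HasAntidiagonal.mem_antidiagonal, ← hD, mem_Ph.1 hφ])]
  refine sum_congr rfl fun p hp => ?_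
  rw [coeff_chi, coeff_chi, sum_mul_sum, ← sum_product']
  rw [HasAntidiagonal.mem_antidiagonal] at hp
  refine sum_bijective (fun φ => (φ ∘ Sum.inl, φ ∘ Sum.inr))
    (Equiv.sumArrowEquivProdArrow V V' ℕ).bijective (fun φ => ?_) fun φ _ => ?_
  · simp only [mem_filter, mem_Ph, mem_product, hD φ, Prod.ext_iff]
    exact ⟨fun h => h.2, fun h => ⟨by rw [h.1, h.2, hp], h⟩⟩
  · rw [wt_sum, Function.comp_assoc, Function.comp_assoc, ← Sym2.map_comp, ← Sym2.map_comp]

theorem chi_empty [IsEmpty V] (H : SimpleGraph V) : chi H = 1 := by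
  ext s
  have hw : ∀ g, wt H g = 1 := fun g => by simp [wt]
  rw [coeff_chi, MvPowerSeries.coeff_one]
  split_ifs with h
  · rw [sum_eq_single_of_mem isEmptyElim (mem_Ph.2 (by simp [D, h]))
      fun b _ hb => absurd (Subsingleton.elim _ _) hb, hw]
  · exact sum_eq_zero fun φ hφ => absurd (mem_Ph.1 hφ) (by simp [D, Ne.symm h])

theorem chi_inv {H : SimpleGraph V} (h : Ev H) (σ : Equiv.Perm ℕ) (ε : ℕ → Bool)
    (hσ : ∀ i j, rb (σ i) (σ j) = xor (rb i j) (xor (ε i) (ε j))) (s : ℕ →₀ ℕ) :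
    MvPowerSeries.coeff (Finsupp.equivMapDomain σ s) (chi H) = MvPowerSeries.coeff s (chi H) := by
  rw [coeff_chi, coeff_chi]
  symm
  refine sum_bijective (fun φ => σ ∘ φ) (σ.bijective.comp_left) (fun φ => ?_) fun φ _ => ?_
  · rw [mem_Ph, mem_Ph, ← D_map]
    exact (Finsupp.equivCongrLeft σ).injective.eq_iff.symm
  · rw [← mul_one (wt H _), ← h (ε ∘ φ), ← wt_xor]
    exact wt_congr H fun u v _ => (hσ _ _).symm

theorem sum_Ph {ψ : V' → ℕ} (hψ : Function.Injective ψ) (F : (V → ℕ) → ℚ) :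
    ∑ φ ∈ Ph V (D ψ), F φ = ∑ e : V ≃ V', F (ψ ∘ e) := by
  symm
  refine sum_nbij (fun e => ψ ∘ e) (fun e _ => mem_Ph.2 (D_comp _ _))
    (fun e _ e' _ h => Equiv.ext fun v => hψ (congrFun h v)) (fun φ hφ => ?_) fun _ _ => rfl
  have h := mem_Ph.1 hφ
  have h1 : ∀ v, ∃ w, ψ w = φ v := fun v => by
    have := congrArg (fun s => s (φ v)) h
    simp only [D_apply] at this
    obtain ⟨w, hw⟩ := card_ne_zero.1 (this ▸ card_ne_zero_of_mem (a := v) (by simp))
    exact ⟨w, (mem_filter.1 hw).2⟩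
  choose f hf using h1
  have h2 : Fintype.card V = Fintype.card V' := by rw [← D_deg φ, h, D_deg]
  have h3 : Function.Surjective f := fun w => by
    have := congrArg (fun s => s (ψ w)) h
    simp only [D_apply] at this
    obtain ⟨v, hv⟩ := card_ne_zero.1 (this.symm ▸ card_ne_zero_of_mem (a := w) (by simp))
    exact ⟨v, hψ (by rw [hf, (mem_filter.1 hv).2])⟩
  exact ⟨Equiv.ofBijective f ((Fintype.bijective_iff_surjective_and_card f).2 ⟨h3, h2⟩),
    by simp, funext hf⟩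

theorem D_le {ψ : V → ℕ} (hψ : Function.Injective ψ) (i : ℕ) : D ψ i ≤ 1 := by
  rw [D_apply]
  exact card_le_one.2 fun a ha b hb => hψ (by rw [(mem_filter.1 ha).2, (mem_filter.1 hb).2])

theorem exists_D (s : ℕ →₀ ℕ) (hs : ∀ i, s i ≤ 1) :
    ∃ (n : ℕ) (ψ : Fin n → ℕ), Function.Injective ψ ∧ D ψ = s := by
  refine ⟨_, fun i => s.support.equivFin.symm i,
    Subtype.val_injective.comp s.support.equivFin.symm.injective, ?_⟩
  refine (D_comp Subtype.val s.support.equivFin.symm).trans ?_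
  conv_rhs => rw [← s.sum_single, Finsupp.sum, ← sum_coe_sort]
  refine sum_congr rfl fun i _ => ?_
  have := Finsupp.mem_support_iff.1 i.2
  have := hs i
  congr 1
  omega

end Pool.Agent.H51.SwitchA
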