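import Pool.Agent.H51.SwitchA

set_option autoImplicit false
open Finset SimpleGraph

namespace Pool.Agent.H51.SwitchB
open Classical Pool.Agent.H51.SwitchA

def Ext (w : ℕ → ℕ → Bool) : Prop :=
  ∀ (U : Finset ℕ) (t : ℕ → Bool), ∃ z, z ∉ U ∧ ∀ u ∈ U, w z u = t u

theorem bits (A : Finset ℕ) : ∃ z : ℕ, ∀ i, z.testBit i = decide (i ∈ A) := by
  induction A using Finset.induction_on with
  | empty => exact ⟨0, by simp⟩
  | insert a A _ ih =>
    obtain ⟨z, hz⟩ := ih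
    exact ⟨2 ^ a ||| z, fun i => by simp [Nat.testBit_or, Nat.testBit_two_pow, hz, eq_comm]⟩

theorem rb_ext : Ext rb := fun U t => by
  obtain ⟨z, hz⟩ := bits (insert (U.sup id + 1) (U.filter fun u => t u = true))
  have h1 : 2 ^ (U.sup id + 1) ≤ z := Nat.ge_two_pow_of_testBit (by simp [hz])
  have h2 : ∀ u ∈ U, u < U.sup id + 1 := fun u hu => Nat.lt_succ_of_le (le_sup (f := id) hu)
  have h3 : U.sup id + 1 < 2 ^ (U.sup id + 1) := Nat.lt_two_pow_self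
  refine ⟨z, fun h => by have := h2 z h; omega, fun u hu => ?_⟩
  have h4 : u.testBit z = false := Nat.testBit_lt_two_pow (by
    have := h2 u hu
    have : z < 2 ^ z := Nat.lt_two_pow_self
    omega)
  have := h2 u hu
  simp [rb, h4, hz, hu, this.ne]

theorem rb_symm (i j : ℕ) : rb i j = rb j i := Bool.or_comm _ _

theorem rb_self (i : ℕ) : rb i i = false := by
  simp [rb, Nat.testBit_lt_two_pow Nat.lt_two_pow_self]

def Good (w w' : ℕ → ℕ → Bool) (Γ : Finset (ℕ × ℕ)) : Prop :=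
  ∀ p ∈ Γ, ∀ q ∈ Γ, (p.1 = q.1 ↔ p.2 = q.2) ∧ (p.1 ≠ q.1 → w p.1 q.1 = w' p.2 q.2)

theorem ext1 {w w' : ℕ → ℕ → Bool} (hs : ∀ i j, w i j = w j i) (hs' : ∀ i j, w' i j = w' j i)
    (h : Ext w') {Γ : Finset (ℕ × ℕ)} (hΓ : Good w w' Γ) (a : ℕ) :
    ∃ Δ, Good w w' Δ ∧ Γ ⊆ Δ ∧ ∃ b, (a, b) ∈ Δ := by
  by_cases ha : ∃ b, (a, b) ∈ Γ
  · exact ⟨Γ, hΓ, subset_rfl, ha⟩
  obtain ⟨z, h1, h2⟩ := h (Γ.image Prod.snd) fun u => decide (∃ p ∈ Γ, p.2 = u ∧ w a p.1 = true)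
  have key : ∀ p ∈ Γ, a ≠ p.1 ∧ z ≠ p.2 ∧ w a p.1 = w' z p.2 := fun p hp => by
    refine ⟨fun e => ha ⟨p.2, e ▸ hp⟩, fun e => h1 (e ▸ mem_image_of_mem _ hp), ?_⟩
    rw [h2 _ (mem_image_of_mem _ hp), Bool.eq_iff_iff, decide_eq_true_iff]
    exact ⟨fun e => ⟨p, hp, rfl, e⟩, fun ⟨q, hq, e1, e2⟩ => by rwa [← (hΓ q hq p hp).1.2 e1]⟩
  refine ⟨insert (a, z) Γ, fun p hp q hq => ?_, subset_insert _ _, z, mem_insert_self _ _⟩
  rcases mem_insert.1 hp with rfl | hp <;> rcases mem_insert.1 hq with rfl | hq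
  · simp
  · exact ⟨iff_of_false (key q hq).1 (key q hq).2.1, fun _ => (key q hq).2.2⟩
  · exact ⟨iff_of_false (key p hp).1.symm (key p hp).2.1.symm,
      fun _ => by rw [hs, hs']; exact (key p hp).2.2⟩
  · exact hΓ p hp q hq

theorem Good.swap {w w' : ℕ → ℕ → Bool} {Γ : Finset (ℕ × ℕ)} (h : Good w w' Γ) :
    Good w' w (Γ.image Prod.swap) := by
  intro p' hp' q' hq'
  obtain ⟨p, hp, rfl⟩ := mem_image.1 hp'
  obtain ⟨q, hq, rfl⟩ := mem_image.1 hq'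
  exact ⟨(h p hp q hq).1.symm, fun e => ((h p hp q hq).2 fun e' => e ((h p hp q hq).1.1 e')).symm⟩

theorem back_forth {w w' : ℕ → ℕ → Bool} (hs : ∀ i j, w i j = w j i) (hs' : ∀ i j, w' i j = w' j i)
    (h : Ext w) (h' : Ext w') {Γ : Finset (ℕ × ℕ)} (hΓ : Good w w' Γ) :
    ∃ σ : Equiv.Perm ℕ, (∀ p ∈ Γ, σ p.1 = p.2) ∧ ∀ i j, i ≠ j → w i j = w' (σ i) (σ j) := by
  let P := {Γ // Good w w' Γ}
  let E : ℕ ⊕ ℕ → Order.Cofinal P := fun i => match i with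
    | Sum.inl a => ⟨{Γ | ∃ b, (a, b) ∈ Γ.1}, fun Γ => by
        obtain ⟨Δ, h1, h3, h4⟩ := ext1 hs hs' h' Γ.2 a
        exact ⟨⟨Δ, h1⟩, h4, h3⟩⟩
    | Sum.inr b => ⟨{Γ | ∃ a, (a, b) ∈ Γ.1}, fun Γ => by
        obtain ⟨Δ, h1, h3, a, h4⟩ := ext1 hs' hs h Γ.2.swap b
        exact ⟨⟨_, h1.swap⟩, ⟨a, mem_image_of_mem Prod.swap h4⟩, fun x hx =>
          mem_image.2 ⟨x.swap, h3 (mem_image_of_mem _ hx), rfl⟩⟩⟩
  let s := Order.sequenceOfCofinals (⟨Γ, hΓ⟩ : P) E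
  have hm : Monotone s := Order.sequenceOfCofinals.monotone _ E
  have hg : ∀ p q : ℕ × ℕ, (∃ n, p ∈ (s n).1) → (∃ n, q ∈ (s n).1) →
      (p.1 = q.1 ↔ p.2 = q.2) ∧ (p.1 ≠ q.1 → w p.1 q.1 = w' p.2 q.2) := by
    rintro p q ⟨n, hn⟩ ⟨m, hm'⟩
    exact (s (max n m)).2 p (hm (le_max_left _ _) hn) q (hm (le_max_right _ _) hm')
  have h1 : ∀ a, ∃ b n, (a, b) ∈ (s n).1 := fun a => by
    obtain ⟨b, hb⟩ := Order.sequenceOfCofinals.encode_mem (⟨Γ, hΓ⟩ : P) E (Sum.inl a)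
    exact ⟨b, _, hb⟩
  choose f hf using h1
  refine ⟨Equiv.ofBijective f ⟨fun a b e => (hg _ _ (hf a) (hf b)).1.2 e, fun b => ?_⟩,
    fun p hp => (hg _ _ (hf p.1) ⟨0, hp⟩).1.1 rfl, fun i j hij => (hg _ _ (hf i) (hf j)).2 hij⟩
  obtain ⟨a, ha⟩ := Order.sequenceOfCofinals.encode_mem (⟨Γ, hΓ⟩ : P) E (Sum.inr b)
  exact ⟨a, (hg _ _ (hf a) ⟨_, ha⟩).1.1 rfl⟩

variable {V : Type} [Fintype V]

theorem realize (g : Sym2 V → Bool) :
    ∃ ψ : V → ℕ, Function.Injective ψ ∧ ∀ u v, u ≠ v → rb (ψ u) (ψ v) = g s(u, v) := by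
  have : ∀ U : Finset V, ∃ ψ : V → ℕ, ∀ u ∈ U, ∀ v ∈ U, u ≠ v →
      ψ u ≠ ψ v ∧ rb (ψ u) (ψ v) = g s(u, v) := by
    intro U
    induction U using Finset.induction_on with
    | empty => exact ⟨fun _ => 0, by simp⟩
    | insert a U ha ih =>
      obtain ⟨ψ, hψ⟩ := ih
      obtain ⟨z, h1, h2⟩ := rb_ext (U.image ψ) fun i => decide (∃ u ∈ U, ψ u = i ∧ g s(a, u) = true)
      have key : ∀ u ∈ U, z ≠ ψ u ∧ rb z (ψ u) = g s(a, u) := fun u hu => by
        refine ⟨fun e => h1 (e ▸ mem_image_of_mem _ hu), ?_⟩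
        rw [h2 _ (mem_image_of_mem _ hu), Bool.eq_iff_iff, decide_eq_true_iff]
        refine ⟨fun ⟨v, hv, e1, e2⟩ => ?_, fun e => ⟨u, hu, rfl, e⟩⟩
        by_cases e : v = u
        · rwa [← e]
        · exact absurd e1 (hψ v hv u hu e).1
      have hne : ∀ u ∈ U, u ≠ a := fun u hu e => ha (e ▸ hu)
      refine ⟨Function.update ψ a z, fun u hu' v hv' huv => ?_⟩
      rcases mem_insert.1 hu' with rfl | hu <;> rcases mem_insert.1 hv' with rfl | hv
      · exact absurd rfl huv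
      · simpa [hne v hv] using key v hv
      · simp only [Function.update_self, Function.update_of_ne (hne u hu)]
        rw [rb_symm, Sym2.eq_swap]
        exact ⟨(key u hu).1.symm, (key u hu).2⟩
      · simpa [hne u hu, hne v hv] using hψ u hu v hv huv
  obtain ⟨ψ, hψ⟩ := this univ
  exact ⟨ψ, fun u v e => by_contra fun h => (hψ u (mem_univ _) v (mem_univ _) h).1 e,
    fun u v h => (hψ u (mem_univ _) v (mem_univ _) h).2⟩

theorem homog {ψ ψ' : V → ℕ} (h : Function.Injective ψ) (h' : Function.Injective ψ') (ε : V → Bool)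
    (hw : ∀ u v, u ≠ v → rb (ψ' u) (ψ' v) = xor (rb (ψ u) (ψ v)) (xor (ε u) (ε v))) :
    ∃ (σ : Equiv.Perm ℕ) (η : ℕ → Bool), σ ∘ ψ = ψ' ∧
      ∀ i j, rb (σ i) (σ j) = xor (rb i j) (xor (η i) (η j)) := by
  let η : ℕ → Bool := fun i => decide (∃ v, ψ v = i ∧ ε v = true)
  have hη : ∀ v, η (ψ v) = ε v := fun v => by simp [η, h.eq_iff]
  obtain ⟨σ, h1, h2⟩ := back_forth (w := fun i j => xor (rb i j) (xor (η i) (η j))) (w' := rb)
    (fun i j => by rw [rb_symm, Bool.xor_comm (η i)]) rb_symm (fun U t => by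
      obtain ⟨z, z1, z2⟩ := rb_ext (U ∪ univ.image ψ) fun u => xor (t u) (η u)
      rw [mem_union, not_or] at z1
      have : η z = false := decide_eq_false fun ⟨v, hv, _⟩ => z1.2 (mem_image.2 ⟨v, mem_univ _, hv⟩)
      exact ⟨z, z1.1, fun u hu => by simp [z2 u (mem_union_left _ hu), this]⟩)
    rb_ext (Γ := univ.image fun v => (ψ v, ψ' v)) (by
      intro p hp q hq
      obtain ⟨u, -, rfl⟩ := mem_image.1 hp
      obtain ⟨v, -, rfl⟩ := mem_image.1 hq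
      exact ⟨h.eq_iff.trans h'.eq_iff.symm, fun e => by
        simp only [hη]; exact (hw u v fun e' => e (congrArg ψ e')).symm⟩)
  refine ⟨σ, η, funext fun v => h1 _ (mem_image.2 ⟨v, mem_univ _, rfl⟩), fun i j => ?_⟩
  by_cases e : i = j
  · simp [e, rb_self]
  · exact (h2 i j e).symm

def Inv (f : MvPowerSeries ℕ ℚ) : Prop :=
  ∀ (σ : Equiv.Perm ℕ) (η : ℕ → Bool), (∀ i j, rb (σ i) (σ j) = xor (rb i j) (xor (η i) (η j))) →
    ∀ s, MvPowerSeries.coeff (Finsupp.equivMapDomain σ s) f = MvPowerSeries.coeff s f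

theorem expand {α : Type} [Fintype α] (F : (α → Bool) → ℚ) :
    ∃ c : Finset α → ℚ, ∀ g, F g = ∑ E, c E * ∏ e ∈ E, sg (g e) := by
  refine ⟨fun E => ∑ g0, F g0 * (1 / 2) ^ Fintype.card α * ∏ e ∈ E, sg (g0 e), fun g => ?_⟩
  simp only [sum_mul]
  rw [sum_comm, sum_eq_single_of_mem g (mem_univ _)]
  · simp only [mul_assoc, ← prod_mul_distrib, sg_sq, prod_const_one, mul_one, sum_const, card_univ,
      Fintype.card_finset, nsmul_eq_mul]
    push_cast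
    rw [mul_left_comm, ← mul_pow]; simp
  · intro g0 _ hne
    simp only [mul_assoc, ← prod_mul_distrib, ← mul_sum]
    rw [← powerset_univ, ← prod_one_add]
    obtain ⟨e, he⟩ := Function.ne_iff.1 hne
    rw [prod_eq_zero (mem_univ e), mul_zero, mul_zero]
    revert he
    cases g0 e <;> cases g e <;> simp [sg]

theorem prod_wt (E : Finset (Sym2 V)) (g : Sym2 V → Bool) (hg : ∀ v, g s(v, v) = false) :
    ∏ e ∈ E, sg (g e) = wt (fromEdgeSet (E : Set (Sym2 V))) g := by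
  rw [wt, ← prod_subtype (E.filter fun e => ¬ e.IsDiag) (by simp) fun e => sg (g e)]
  refine (prod_filter_of_ne (p := fun e : Sym2 V => ¬ e.IsDiag) fun e _ h hd => h ?_).symm
  induction e with
  | _ u v =>
    obtain rfl : u = v := hd
    simp [hg, sg]

variable (V) in
theorem span_V {f : MvPowerSeries ℕ ℚ} (hf : Inv f) :
    ∃ c : SimpleGraph V → ℚ, (∀ H, ¬ Ev H → c H = 0) ∧ ∀ ψ : V → ℕ, Function.Injective ψ →
      MvPowerSeries.coeff (D ψ) f = ∑ H, c H * MvPowerSeries.coeff (D ψ) (chi H) := by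
  choose r hr1 hr2 using realize (V := V)
  obtain ⟨c, hc⟩ := expand fun g => MvPowerSeries.coeff (D (r g)) f
  have h1 : ∀ ψ : V → ℕ, Function.Injective ψ → ∀ ε, MvPowerSeries.coeff (D ψ) f =
      ∑ E : Finset (Sym2 V), c E * (wt (fromEdgeSet E) (W ∘ Sym2.map ψ) *
        wt (fromEdgeSet (E : Set (Sym2 V))) (cut ε)) := by
    intro ψ hψ ε
    obtain ⟨σ, η, e1, e2⟩ := homog hψ (hr1 fun e => xor ((W ∘ Sym2.map ψ) e) (cut ε e)) ε
      (hr2 _)
    rw [← hf σ η e2, D_map, e1, hc]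
    refine sum_congr rfl fun E _ => ?_
    rw [prod_wt E (fun e => xor ((W ∘ Sym2.map ψ) e) (cut ε e)) fun v => by
      show xor (rb _ _) (xor _ _) = false
      simp [rb_self], wt_xor]
  have h2 : ∀ ψ : V → ℕ, Function.Injective ψ → MvPowerSeries.coeff (D ψ) f =
      ∑ E : Finset (Sym2 V), (if Ev (fromEdgeSet (E : Set (Sym2 V))) then c E else 0) *
        wt (fromEdgeSet E) (W ∘ Sym2.map ψ) := by
    intro ψ hψ
    have hc0 : (Fintype.card (V → Bool) : ℚ) ≠ 0 := Nat.cast_ne_zero.2 Fintype.card_ne_zero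
    apply mul_left_cancel₀ hc0
    rw [← nsmul_eq_mul, ← card_univ, ← sum_const, sum_congr rfl fun ε _ => h1 ψ hψ ε, sum_comm,
      mul_sum]
    refine sum_congr rfl fun E _ => ?_
    rw [← mul_sum, ← mul_sum]
    split_ifs with h
    · simp only [h _, sum_const, nsmul_eq_mul]; ring
    · rw [sum_cut h]; simp
  have hc0 : (Fintype.card (V ≃ V) : ℚ) ≠ 0 := Nat.cast_ne_zero.2 Fintype.card_ne_zero
  refine ⟨fun H => ∑ E ∈ univ.filter (fun E : Finset (Sym2 V) => fromEdgeSet (E : Set (Sym2 V)) = H),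
    (if Ev H then c E else 0) / Fintype.card (V ≃ V), fun H hH => by simp [hH], fun ψ hψ => ?_⟩
  have h3 : ∑ e : V ≃ V, MvPowerSeries.coeff (D ψ) f = ∑ e : V ≃ V, ∑ E : Finset (Sym2 V),
      (if Ev (fromEdgeSet (E : Set (Sym2 V))) then c E else 0) *
        wt (fromEdgeSet E) (W ∘ Sym2.map (ψ ∘ e)) :=
    sum_congr rfl fun e _ => by rw [← h2 _ (hψ.comp e.injective), D_comp]
  rw [sum_const, card_univ, nsmul_eq_mul, sum_comm] at h3
  rw [eq_div_of_mul_eq hc0 ((mul_comm _ _).trans h3), sum_div,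
    ← sum_fiberwise (s := univ) (g := fun E : Finset (Sym2 V) => fromEdgeSet (E : Set (Sym2 V)))]
  refine sum_congr rfl fun H _ => ?_
  rw [sum_mul]
  refine sum_congr rfl fun E hE => ?_
  rw [(mem_filter.1 hE).2, coeff_chi, sum_Ph hψ, ← mul_sum]
  ring

theorem orth (H H' : SimpleGraph V) (h : H ≠ H') : ∑ g, wt H g * wt H' g = 0 := by
  obtain ⟨e0, h0⟩ : ∃ e, ¬ (e ∈ H.edgeSet ↔ e ∈ H'.edgeSet) := by
    by_contra hc
    push Not at hc
    exact h (edgeSet_injective (Set.ext hc))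
  have hw : ∀ G : SimpleGraph V, wt G (fun e => decide (e = e0)) = if e0 ∈ G.edgeSet then -1 else 1 := by
    intro G
    split_ifs with hG
    · rw [wt, prod_eq_single_of_mem ⟨e0, hG⟩ (mem_univ _)]
      · simp [sg]
      · intro b _ hb
        rw [decide_eq_false fun e => hb (Subtype.ext e)]; rfl
    · refine prod_eq_one fun b _ => ?_
      have : (b : Sym2 V) ≠ e0 := fun e => hG (e ▸ b.2)
      simp [this, sg]
  have h2 : ∑ g, wt H g * wt H' g = ∑ g, -(wt H g * wt H' g) := by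
    refine (Fintype.sum_bijective (fun g e => xor (g e) (decide (e = e0)))
      (Function.Involutive.bijective fun ε => by funext v; simp) _ _ fun g => ?_).symm
    rw [wt_xor, wt_xor, hw, hw]
    by_cases h1 : e0 ∈ H.edgeSet <;> by_cases h2 : e0 ∈ H'.edgeSet <;> simp_all
  rw [sum_neg_distrib] at h2
  linarith

theorem funct (H0 : SimpleGraph V) : ∃ Λ : MvPowerSeries ℕ ℚ →ₗ[ℚ] ℚ,
    (∀ f, (∀ s : ℕ →₀ ℕ, (∀ i, s i ≤ 1) → MvPowerSeries.coeff s f = 0) → Λ f = 0) ∧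
    Λ (chi H0) ≠ 0 ∧ ∀ (V' : Type) [Fintype V'] (H : SimpleGraph V'), IsEmpty (H ≃g H0) →
      Λ (chi H) = 0 := by
  choose r hr1 hr2 using realize (V := V)
  let Λ : MvPowerSeries ℕ ℚ →ₗ[ℚ] ℚ := ∑ g, wt H0 g • MvPowerSeries.coeff (D (r g))
  have hΛ : ∀ f, Λ f = ∑ g, wt H0 g * MvPowerSeries.coeff (D (r g)) f := fun f => by simp [Λ]
  have key : ∀ (V' : Type) [Fintype V'] (H : SimpleGraph V'), Λ (chi H) =
      ∑ e : V' ≃ V, ∑ g, wt H0 g * wt (H.comap e.symm) g := by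
    intro V' _ H
    rw [hΛ, sum_comm]
    refine sum_congr rfl fun g _ => ?_
    rw [coeff_chi, sum_Ph (hr1 g), mul_sum]
    refine sum_congr rfl fun e _ => ?_
    rw [← wt_iso (Iso.comap e.symm H).symm]
    congr 1
    exact wt_congr H fun u v h => hr2 g _ _ (e.injective.ne h)
  refine ⟨Λ, fun f hf => ?_, ?_, fun V' _ H hH => ?_⟩
  · rw [hΛ]
    exact sum_eq_zero fun g _ => by rw [hf _ (D_le (hr1 g)), mul_zero]
  · rw [key]
    refine (sum_pos' (fun e _ => ?_) ⟨Equiv.refl V, mem_univ _, ?_⟩).ne'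
    · by_cases h : H0 = H0.comap e.symm
      · rw [← h]; exact sum_nonneg fun g _ => mul_self_nonneg _
      · rw [orth _ _ h]
    · show 0 < ∑ g, wt H0 g * wt H0 g
      simp [wt_sq]
  · rw [key]
    refine sum_eq_zero fun e _ => orth _ _ fun h => hH.false ?_
    rw [h]
    exact (Iso.comap e.symm H).symm

end Pool.Agent.H51.SwitchB
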