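import Pool.Agent.H51.SwitchB

set_option autoImplicit false
open Finset SimpleGraph

namespace Pool.Agent.H51.SwitchC
open Classical Pool.Agent.H51.SwitchA Pool.Agent.H51.SwitchB

variable {V V' U : Type}

abbrev cp (H : SimpleGraph V) (v : V) : SimpleGraph {u | H.Reachable v u} :=
  H.induce {u | H.Reachable v u}

theorem cp_emb {H : SimpleGraph V} {G : SimpleGraph V'} (f : H ↪g G)
    (hf : ∀ u x, G.Adj (f u) x → ∃ w, f w = x) (v : V) : Nonempty (cp H v ≃g cp G (f v)) := by
  have h : ∀ x, G.Reachable (f v) x → ∃ u, H.Reachable v u ∧ f u = x := by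
    intro x hx
    rw [reachable_iff_reflTransGen] at hx
    induction hx with
    | refl => exact ⟨v, Reachable.refl _, rfl⟩
    | tail _ h2 ih =>
      obtain ⟨u, hu, rfl⟩ := ih
      obtain ⟨w, rfl⟩ := hf _ _ h2
      exact ⟨w, hu.trans (f.map_adj_iff.1 h2).reachable, rfl⟩
  refine ⟨⟨Equiv.ofBijective (fun u => ⟨f u, Reachable.map f.toHom u.2⟩)
    ⟨fun a b e => Subtype.ext (f.injective (congrArg Subtype.val e)), fun x => ?_⟩, ?_⟩⟩
  · obtain ⟨u, hu, e⟩ := h x x.2
    exact ⟨⟨u, hu⟩, Subtype.ext e⟩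
  · intro a b
    exact f.map_adj_iff

noncomputable def cnt [Fintype V] (C : SimpleGraph U) (H : SimpleGraph V) : ℕ :=
  ∑ v, if Nonempty (cp H v ≃g C) then 1 else 0

theorem iso_iff {W W' : Type} {A : SimpleGraph W} {B : SimpleGraph W'} (C : SimpleGraph U)
    (h : Nonempty (A ≃g B)) : Nonempty (B ≃g C) ↔ Nonempty (A ≃g C) :=
  ⟨fun ⟨e⟩ => ⟨h.some.trans e⟩, fun ⟨e⟩ => ⟨h.some.symm.trans e⟩⟩

variable [Fintype V] [Fintype V']

theorem cnt_iso (C : SimpleGraph U) {H : SimpleGraph V} {G : SimpleGraph V'} (e : H ≃g G) :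
    cnt C H = cnt C G :=
  Fintype.sum_equiv e.toEquiv _ _ fun v => by
    rw [← iso_iff C (cp_emb e.toEmbedding (fun _ x _ => e.surjective x) v)]; rfl

theorem cnt_sum (C : SimpleGraph U) (H : SimpleGraph V) (G : SimpleGraph V') :
    cnt C (H ⊕g G) = cnt C H + cnt C G := by
  rw [cnt, Fintype.sum_sum_type]
  congr 1 <;> refine sum_congr rfl fun v _ => ?_
  · rw [← iso_iff C (cp_emb (Embedding.sumInl (H := G))
      (by rintro u (x | x) h; exacts [⟨x, rfl⟩, absurd h (not_adj_sum_inl_inr _ _)]) v)]; rfl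
  · rw [← iso_iff C (cp_emb (Embedding.sumInr (G := H))
      (by rintro u (x | x) h; exacts [absurd h.symm (not_adj_sum_inl_inr _ _), ⟨x, rfl⟩]) v)]; rfl

theorem cnt_conn (C : SimpleGraph U) {H : SimpleGraph V} (h : H.Connected) :
    cnt C H = if Nonempty (H ≃g C) then Fintype.card V else 0 := by
  have : ∀ v, Nonempty (cp H v ≃g C) ↔ Nonempty (H ≃g C) := fun v =>
    (iso_iff C ⟨⟨Equiv.subtypeUnivEquiv fun u => h v u, Iff.rfl⟩⟩).symm
  simp [cnt, this]

abbrev Gr : Type := Σ n : ℕ, {G : SimpleGraph (Fin n) // G.Connected ∧ Ev G}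

def st : Setoid Gr :=
  ⟨fun a b => Nonempty (a.2.1 ≃g b.2.1), fun _ => ⟨Iso.refl⟩, fun ⟨e⟩ => ⟨e.symm⟩,
    fun ⟨e⟩ ⟨f⟩ => ⟨e.trans f⟩⟩

abbrev I : Type := Quotient st

noncomputable def y (i : I) : MvPowerSeries ℕ ℚ := chi i.out.2.1

theorem mem_adj (n : ℕ) : ∀ (V : Type) [Fintype V] (H : SimpleGraph V), Fintype.card V = n →
    Ev H → chi H ∈ Algebra.adjoin ℚ (Set.range y) := by
  induction n using Nat.strong_induction_on with
  | _ n ih =>
    intro V _ H hn hH
    rcases isEmpty_or_nonempty V with h | ⟨⟨v⟩⟩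
    · rw [chi_empty]; exact one_mem _
    by_cases hc : ∀ u, H.Reachable v u
    · have e := Iso.comap (Fintype.equivFin V).symm H
      haveI : Nonempty V := ⟨v⟩
      let a : Gr := ⟨_, _, e.connected_iff.2 ⟨fun a b => (hc a).symm.trans (hc b)⟩, hH.iso e.symm⟩
      obtain ⟨f⟩ : st.r (Quotient.mk st a).out a := Quotient.exact (Quotient.out_eq _)
      exact Algebra.subset_adjoin ⟨Quotient.mk st a, chi_iso (f.trans e)⟩
    · set S := {u | H.Reachable v u} with hS
      have e : H.induce S ⊕g H.induce Sᶜ ≃g H := ⟨Equiv.Set.sumCompl S, by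
        rintro (a | a) (b | b)
        · rfl
        · exact iff_of_false (fun h => b.2 (Reachable.trans a.2 (Adj.reachable h))) (by simp)
        · exact iff_of_false (fun h => a.2 (Reachable.trans b.2 (Adj.reachable h).symm)) (by simp)
        · rfl⟩
      have he := hH.iso e.symm
      obtain ⟨u, hu⟩ := not_forall.1 hc
      rw [← chi_iso e, chi_sum]
      exact mul_mem (ih _ (hn ▸ Fintype.card_subtype_lt (x := u) hu) _ _ rfl he.left)
        (ih _ (hn ▸ Fintype.card_subtype_lt (x := v) (by simp [hS])) _ _ rfl he.right)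

def Pm (m : I →₀ ℕ) : Prop := ∃ (n : ℕ) (H : SimpleGraph (Fin n)),
    chi H = m.prod (fun i k => y i ^ k) ∧ ∀ i : I, cnt i.out.2.1 H = m i * i.out.1

theorem Pm.add {a b : I →₀ ℕ} (ha : Pm a) (hb : Pm b) : Pm (a + b) := by
  obtain ⟨n, H, h1, h2⟩ := ha
  obtain ⟨m, G, h3, h4⟩ := hb
  have e := Iso.comap (Fintype.equivFin _).symm (H ⊕g G)
  refine ⟨_, _, (chi_iso e).trans ?_, fun i => (cnt_iso _ e).trans ?_⟩
  · rw [chi_sum, h1, h3, Finsupp.prod_add_index' (by simp) (by simp [pow_add])]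
  · rw [cnt_sum, h2, h4, Finsupp.add_apply, add_mul]

theorem mono (m : I →₀ ℕ) : Pm m := by
  have hz : Pm 0 := ⟨0, ⊥, by simp [chi_empty], by simp [cnt]⟩
  induction m using Finsupp.induction_linear with
  | zero => exact hz
  | add a b ha hb => exact ha.add hb
  | single j k =>
    induction k with
    | zero => simpa using hz
    | succ k ih =>
      rw [Finsupp.single_add]
      refine ih.add ⟨_, j.out.2.1, by simp [y], fun i => ?_⟩
      rw [cnt_conn _ j.out.2.2.1, Fintype.card_fin]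
      by_cases h : j = i
      · subst h
        rw [if_pos ⟨Iso.refl⟩]; simp
      · have : ¬ Nonempty (j.out.2.1 ≃g i.out.2.1) := fun e => h (Quotient.out_equiv_out.1 e)
        rw [if_neg this]; simp [h]

def K0 : Ideal (MvPowerSeries ℕ ℚ) where
  carrier := {f | ∀ s : ℕ →₀ ℕ, (∀ i, s i ≤ 1) → MvPowerSeries.coeff s f = 0}
  add_mem' := fun ha hb s hs => by rw [map_add, ha s hs, hb s hs, add_zero]
  zero_mem' := fun _ _ => rfl
  smul_mem' := fun g f hf s hs => by
    rw [smul_eq_mul, MvPowerSeries.coeff_mul]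
    refine sum_eq_zero fun p hp => ?_
    rw [HasAntidiagonal.mem_antidiagonal] at hp
    rw [hf p.2 fun i => le_trans (by rw [← hp]; simp) (hs i), mul_zero]

theorem indep : AlgebraicIndependent ℚ fun i => Ideal.Quotient.mk K0 (y i) := by
  rw [algebraicIndependent_iff]
  intro p hp
  have h1 : MvPolynomial.aeval y p ∈ K0 := by
    rw [← Ideal.Quotient.eq_zero_iff_mem, ← hp]
    exact (MvPolynomial.comp_aeval_apply y (Ideal.Quotient.mkₐ ℚ K0) p)
  choose n H h2 h3 using mono
  ext m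
  obtain ⟨Λ, l1, l2, l3⟩ := funct (H m)
  have h4 := l1 _ h1
  rw [MvPolynomial.aeval_def, MvPolynomial.eval₂_eq, map_sum] at h4
  by_contra hm
  rw [sum_eq_single_of_mem m (MvPolynomial.mem_support_iff.2 hm)] at h4
  · rw [← Algebra.smul_def, map_smul, smul_eq_zero] at h4
    exact h4.elim hm fun h => l2 (by rw [h2]; exact h)
  · intro m' _ hne
    rw [← Algebra.smul_def, map_smul, smul_eq_zero_of_right]
    refine Eq.trans (congrArg Λ (h2 m').symm) (l3 _ _ ⟨fun e => hne ?_⟩)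
    ext i
    have := cnt_iso i.out.2.1 e
    rw [h3, h3] at this
    exact Nat.eq_of_mul_eq_mul_right (Fin.pos_iff_nonempty.2 i.out.2.2.1.nonempty) this

theorem span_all {f : MvPowerSeries ℕ ℚ} (hf : Inv f) (N : ℕ)
    (hN : ∀ s : ℕ →₀ ℕ, N ≤ s.sum (fun _ e => e) → MvPowerSeries.coeff s f = 0) :
    ∃ g ∈ Algebra.adjoin ℚ (Set.range y), f - g ∈ K0 := by
  choose c h1 h2 using fun n => span_V (Fin n) hf
  refine ⟨∑ n ∈ range N, ∑ H, c n H • chi H, sum_mem fun n _ => sum_mem fun H _ => ?_,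
    fun s hs => ?_⟩
  · by_cases h : Ev H
    · exact Subalgebra.smul_mem _ (mem_adj _ _ H rfl h) _
    · rw [h1 n H h, zero_smul]; exact zero_mem _
  · obtain ⟨n, ψ, hψ, rfl⟩ := exists_D s hs
    have hz : ∀ m, m ≠ n → MvPowerSeries.coeff (D ψ) (∑ H, c m H • chi H) = 0 := fun m hm => by
      rw [map_sum]
      refine sum_eq_zero fun H _ => ?_
      rw [map_smul, smul_eq_zero_of_right]
      by_contra h
      have := chi_deg H _ h
      rw [D_deg, Fintype.card_fin, Fintype.card_fin] at this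
      exact hm this.symm
    rw [map_sub, map_sum, sub_eq_zero]
    by_cases h : n < N
    · rw [sum_eq_single_of_mem n (mem_range.2 h) fun m _ hm => hz m hm, h2 n ψ hψ]
      simp only [map_sum, map_smul, smul_eq_mul]
      convert rfl
    · rw [hN _ (by rw [D_deg, Fintype.card_fin]; omega)]
      exact (sum_eq_zero fun m hm => hz m (by have := mem_range.1 hm; omega)).symm

theorem sw_iff (σ : Equiv.Perm ℕ) :
    (∃ S : Set ℕ, ∀ i j : ℕ, i ≠ j →
      ((Nat.testBit (σ j) (σ i) = true ∨ Nat.testBit (σ i) (σ j) = true) ↔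
        ((Nat.testBit j i = true ∨ Nat.testBit i j = true) ↔ (i ∈ S ↔ j ∈ S)))) ↔
    ∃ η : ℕ → Bool, ∀ i j, rb (σ i) (σ j) = xor (rb i j) (xor (η i) (η j)) := by
  have key : ∀ a b c d : Bool, (a = true ↔ (b = true ↔ (c = true ↔ d = true))) ↔
      a = xor b (xor c d) := by decide
  constructor
  · rintro ⟨S, h⟩
    refine ⟨fun i => decide (i ∈ S), fun i j => ?_⟩
    by_cases e : i = j
    · simp [e, rb_self]
    · rw [← key]; simpa [rb] using h i j e
  · rintro ⟨η, h⟩
    refine ⟨{i | η i = true}, fun i j _ => ?_⟩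
    simpa [rb] using (key _ _ _ _).2 (h i j)

end Pool.Agent.H51.SwitchC
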