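import Mathlib

set_option autoImplicit false

namespace Pool.Agent.H51.ThreeBase

noncomputable def force (f : ℕ → Bool) (n : ℕ) : Bool :=
  @Nat.rec (fun _ => Bool) (f (nat_lit 0)) (fun p _ => f (Nat.succ p)) n

lemma force_eq (f : ℕ → Bool) (n : ℕ) : force f n = f n := by cases n <;> rfl

noncomputable def allR (f : ℕ → Bool) (d : ℕ) : ℕ → Bool :=
  @Nat.rec (fun _ => ℕ → Bool) (fun lo => f lo)
    (fun d ih lo => @Bool.rec (fun _ => Bool) false
      (force ih (Nat.add lo (Nat.pow (nat_lit 2) d))) (ih lo)) d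

lemma allR_succ (f : ℕ → Bool) (d lo : ℕ) :
    allR f (d + 1) lo = (allR f d lo && allR f d (lo + 2 ^ d)) := by
  show @Bool.rec (fun _ => Bool) false (force (allR f d) (lo + 2 ^ d)) (allR f d lo) = _
  rw [force_eq]
  cases allR f d lo <;> rfl

lemma allR_spec (f : ℕ → Bool) : ∀ d lo, allR f d lo = true → ∀ m, lo ≤ m → m < lo + 2 ^ d →
    f m = true := by
  intro d
  induction d with
  | zero =>
    intro lo h m h1 h2
    have : m = lo := by omega
    subst this; exact h
  | succ d ih =>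
    intro lo h m h1 h2
    rw [allR_succ, Bool.and_eq_true] at h
    rw [pow_succ] at h2
    by_cases h3 : m < lo + 2 ^ d
    · exact ih lo h.1 m h1 h3
    · exact ih _ h.2 m (by omega) (by omega)

noncomputable def three (w : ℕ → ℕ) (B c Z : ℕ) : Bool :=
  and (Nat.ble Z (Nat.mul B (w c))) (and (Nat.ble Z (Nat.mul B (w (Nat.add c (nat_lit 59049)))))
    (Nat.ble Z (Nat.mul B (w (Nat.add c (nat_lit 118098))))))

noncomputable def zz (w : ℕ → ℕ) (i j : ℕ) : ℕ :=
  Nat.sub (Nat.mul (nat_lit 100000) (w i)) (Nat.mul (nat_lit 30778) (w (Nat.mod j (nat_lit 177147))))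

noncomputable def chk (w : ℕ → ℕ) (t : ℕ) : Bool :=
  or (Nat.ble (nat_lit 59049) t)
    (and (force (three w (nat_lit 78306) (Nat.mod (Nat.mul (nat_lit 4) t) (nat_lit 59049)))
        (zz w (Nat.mul (nat_lit 3) t) (Nat.add (Nat.mul (nat_lit 12) t) (nat_lit 2))))
      (and (Nat.ble (zz w (Nat.add (Nat.mul (nat_lit 3) t) (nat_lit 1))
          (Nat.add (Nat.mul (nat_lit 12) t) (nat_lit 6))) (nat_lit 0))
        (force (three w (nat_lit 141148)
            (Nat.mod (Nat.add (Nat.mul (nat_lit 2) t) (nat_lit 1)) (nat_lit 59049)))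
          (zz w (Nat.add (Nat.mul (nat_lit 3) t) (nat_lit 2))
            (Nat.add (Nat.mul (nat_lit 12) t) (nat_lit 10))))))

lemma three_spec (w : ℕ → ℕ) (B c Z : ℕ) (h : three w B c Z = true) (x : ℕ) (hx : x < 177147)
    (hc : x % 59049 = c) : Z ≤ B * w x := by
  simp only [three, Bool.and_eq_true, Nat.ble_eq] at h
  obtain ⟨h0, h1, h2⟩ := h
  have : x = c ∨ x = c + 59049 ∨ x = c + 118098 := by omega
  rcases this with h | h | h
  · rw [h]; exact h0
  · rw [h]; exact h1
  · rw [h]; exact h2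

lemma chk_spec (w : ℕ → ℕ) (t : ℕ) (ht : t < 59049) (h : chk w t = true) :
    (∀ x < 177147, x % 59049 = 4 * t % 59049 →
      100000 * w (3 * t) ≤ 30778 * w ((12 * t + 2) % 177147) + 78306 * w x) ∧
    (100000 * w (3 * t + 1) ≤ 30778 * w ((12 * t + 6) % 177147)) ∧
    (∀ x < 177147, x % 59049 = (2 * t + 1) % 59049 →
      100000 * w (3 * t + 2) ≤ 30778 * w ((12 * t + 10) % 177147) + 141148 * w x) := by
  simp only [chk, force_eq, Bool.or_eq_true, Bool.and_eq_true, Nat.ble_eq] at h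
  rcases h with h | ⟨h1, h2, h3⟩
  · exact absurd h (by omega)
  refine ⟨fun x hx hc => ?_, ?_, fun x hx hc => ?_⟩
  · have h4 : 100000 * w (3 * t) - 30778 * w ((12 * t + 2) % 177147) ≤ 78306 * w x :=
      three_spec w _ _ _ h1 x hx hc
    omega
  · have h4 : 100000 * w (3 * t + 1) - 30778 * w ((12 * t + 6) % 177147) ≤ 0 := h2
    omega
  · have h4 : 100000 * w (3 * t + 2) - 30778 * w ((12 * t + 10) % 177147) ≤ 141148 * w x :=
      three_spec w _ _ _ h3 x hx hc
    omega

end Pool.Agent.H51.ThreeBase
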