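import Mathlib
import Pool.Agent.H51.ThreeBase

set_option autoImplicit false

namespace Pool.Agent.H51.ThreeA

open Pool.Agent.H51.ThreeBase Finset

def T (n : ℕ) : ℕ := if n % 2 = 0 then n / 2 else (3 * n + 1) / 2

open Classical in
noncomputable def S (X a : ℕ) : Finset ℕ := (Icc 1 X).filter fun n => ∃ k, T^[k] n = a

def NP (a : ℕ) : Prop := ∀ k, 0 < k → T^[k] a ≠ a

lemma NP_child {a c : ℕ} (h : T c = a) (ha : NP a) : NP c := by
  intro k hk e
  refine ha k hk ?_
  rw [← h, ← Function.iterate_succ_apply, Function.iterate_succ_apply', e]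

lemma S_sub {X a c : ℕ} (h : T c = a) (ha : NP a) : S X c ⊆ (S X a).erase a := by
  intro n hn
  simp only [S, mem_filter, mem_erase] at hn ⊢
  obtain ⟨h1, k, hk⟩ := hn
  have h2 : T^[k + 1] n = a := by rw [Function.iterate_succ_apply', hk, h]
  refine ⟨fun e => ha (k + 1) (by omega) (by rw [e] at h2; exact h2), h1, k + 1, h2⟩

lemma S_le {X a c : ℕ} (h : T c = a) (ha : NP a) : (S X c).card ≤ (S X a).card :=
  card_le_card ((S_sub h ha).trans (erase_subset _ _))

lemma S_disj {X a c d : ℕ} (h : T c = a) (h' : T d = a) (hcd : c ≠ d) (ha : NP a) :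
    Disjoint (S X c) (S X d) := by
  rw [disjoint_left]
  intro n hn hn'
  simp only [S, mem_filter] at hn hn'
  obtain ⟨-, k, hk⟩ := hn
  obtain ⟨-, l, hl⟩ := hn'
  have h2 : T^[k + 1] n = a := by rw [Function.iterate_succ_apply', hk, h]
  have h3 : T^[l + 1] n = a := by rw [Function.iterate_succ_apply', hl, h']
  rcases lt_trichotomy k l with h4 | h4 | h4
  · refine ha (l - k) (by omega) ?_
    conv_lhs => rw [← h2, ← Function.iterate_add_apply]
    rw [show l - k + (k + 1) = l + 1 by omega, h3]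
  · subst h4; exact hcd (hk.symm.trans hl)
  · refine ha (k - l) (by omega) ?_
    conv_lhs => rw [← h3, ← Function.iterate_add_apply]
    rw [show k - l + (l + 1) = k + 1 by omega, h2]

lemma self_mem {X a : ℕ} (h1 : 1 ≤ a) (h2 : a ≤ X) : a ∈ S X a := by
  simp only [S, mem_filter, mem_Icc]
  exact ⟨⟨h1, h2⟩, 0, rfl⟩

lemma T_two (a : ℕ) : T (2 * a) = a := by simp only [T]; rw [if_pos (by omega)]; omega

lemma cst (k ρ : ℝ) (hρ : 0 ≤ ρ) (h : k ^ 20 ≤ ρ ^ 17) : k ≤ ρ ^ (17 / 20 : ℝ) := by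
  have h1 : k ^ 20 ≤ (ρ ^ (17 / 20 : ℝ)) ^ 20 := by
    rw [← Real.rpow_natCast (ρ ^ (17 / 20 : ℝ)), ← Real.rpow_mul hρ]
    rw [show (17 / 20 : ℝ) * ((20 : ℕ) : ℝ) = ((17 : ℕ) : ℝ) by norm_num, Real.rpow_natCast]
    exact h
  exact le_of_pow_le_pow_left₀ (by norm_num) (by positivity) h1

lemma scale (k ρ X b y : ℝ) (hρ : 0 ≤ ρ) (h : k ^ 20 ≤ ρ ^ 17) (hX : 0 ≤ X) (hb : 0 < b)
    (hy : 0 < y) (hyb : ρ * y ≤ b) :
    k * (X / b) ^ (17 / 20 : ℝ) ≤ (X / y) ^ (17 / 20 : ℝ) := by
  have h7 : ρ * (X / b) ≤ X / y := by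
    rw [← mul_div_assoc, div_le_div_iff₀ hb hy]
    nlinarith
  calc _ ≤ ρ ^ (17 / 20 : ℝ) * (X / b) ^ (17 / 20 : ℝ) :=
        mul_le_mul_of_nonneg_right (cst k ρ hρ h) (by positivity)
    _ = (ρ * (X / b)) ^ (17 / 20 : ℝ) := (Real.mul_rpow hρ (by positivity)).symm
    _ ≤ _ := Real.rpow_le_rpow (by positivity) h7 (by norm_num)

lemma main (w : ℕ → ℕ) (hw : ∀ m, w m ≤ 65535) (ok : ∀ t < 59049, chk w t = true) (X : ℕ) :
    ∀ N a : ℕ, (S X a).card ≤ N → a % 3 = 2 → a ≤ X → NP a →
    (w (a / 3 % 177147) : ℝ) * ((X : ℝ) / a) ^ (17 / 20 : ℝ) ≤ 262144 * (S X a).card := by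
  intro N
  induction N with
  | zero =>
    intro a h h1 h2 _
    have := card_pos.2 ⟨a, self_mem (by omega) h2⟩
    omega
  | succ N ih =>
    intro a h h0 h2 ha
    have h1 : 1 ≤ a := by omega
    have hpos := card_pos.2 ⟨a, self_mem h1 h2⟩
    have ha0 : (0 : ℝ) < a := by exact_mod_cast h1
    have hX0 : (0 : ℝ) ≤ X := Nat.cast_nonneg X
    have hu : (0 : ℝ) ≤ ((X : ℝ) / a) ^ (17 / 20 : ℝ) := by positivity
    by_cases hb : X < 4 * a
    · have h3 : ((X : ℝ) / a) ^ (17 / 20 : ℝ) ≤ 4 := by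
        have h4 : (X : ℝ) / a ≤ 4 := by
          rw [div_le_iff₀ ha0]; exact_mod_cast hb.le
        calc _ ≤ (4 : ℝ) ^ (17 / 20 : ℝ) := Real.rpow_le_rpow (by positivity) h4 (by norm_num)
          _ ≤ (4 : ℝ) ^ (1 : ℝ) := Real.rpow_le_rpow_of_exponent_le (by norm_num) (by norm_num)
          _ = 4 := by simp
      have h5 : (w (a / 3 % 177147) : ℝ) ≤ 65535 := by exact_mod_cast hw _
      have h6 : (1 : ℝ) ≤ (S X a).card := by exact_mod_cast hpos
      nlinarith
    · have t2 := T_two a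
      have t4 := T_two (2 * a)
      have n2 := NP_child t2 ha
      have s2 := card_le_card (S_sub (X := X) t2 ha)
      rw [card_erase_of_mem (self_mem h1 h2)] at s2
      have s4 := S_le (X := X) t4 n2
      have i4 := ih (2 * (2 * a)) (by omega) (by omega) (by omega) (NP_child t4 n2)
      have r4 := scale (30778 / 100000) (1 / 4) X a ((2 * (2 * a) : ℕ) : ℝ) (by norm_num)
        (by norm_num) hX0 ha0 (by push_cast; linarith) (by push_cast; linarith)
      obtain ⟨q, hq⟩ : ∃ q, a = 3 * q + 2 := ⟨a / 3, by omega⟩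
      have e0 : a / 3 = q := by omega
      have e4 : 2 * (2 * a) / 3 = 4 * q + 2 := by omega
      rw [e4] at i4
      rw [e0]
      obtain ⟨t, ht⟩ : ∃ t, t = q % 177147 / 3 := ⟨_, rfl⟩
      have htl : t < 59049 := by omega
      obtain ⟨c0, c1, c2⟩ := chk_spec w t htl (ok t htl)
      have w4 : (0 : ℝ) ≤ w ((4 * q + 2) % 177147) := Nat.cast_nonneg _
      have m4 := mul_le_mul_of_nonneg_left r4 w4
      have tc : T (2 * q + 1) = a := by simp only [T]; rw [if_neg (by omega)]; omega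
      have s3 : (S X (2 * a)).card + (S X (2 * q + 1)).card ≤ (S X a).card - 1 := by
        rw [← card_union_of_disjoint (S_disj t2 tc (by omega) ha),
          ← card_erase_of_mem (self_mem h1 h2)]
        exact card_le_card (union_subset (S_sub t2 ha) (S_sub tc ha))
      have nc := NP_child tc ha
      have hqa : (a : ℝ) = 3 * q + 2 := by exact_mod_cast hq
      have hq0 : (0 : ℝ) ≤ q := Nat.cast_nonneg q
      have h9 : q % 3 = 0 ∨ q % 3 = 1 ∨ q % 3 = 2 := by omega
      rcases h9 with h9 | h9 | h9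
      · obtain ⟨p, hp⟩ : ∃ p, q = 3 * p := ⟨q / 3, by omega⟩
        have td := T_two (2 * q + 1)
        have sd := S_le (X := X) td nc
        have id := ih (2 * (2 * q + 1)) (by omega) (by omega) (by omega) (NP_child td nc)
        have ed : 2 * (2 * q + 1) / 3 = 4 * p := by omega
        rw [ed] at id
        have rd := scale (78306 / 100000) (3 / 4) X a ((2 * (2 * q + 1) : ℕ) : ℝ) (by norm_num)
          (by norm_num) hX0 ha0 (by push_cast; linarith) (by push_cast; linarith)
        have c3 := c0 (4 * p % 177147) (Nat.mod_lt _ (by norm_num)) (by omega)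
        rw [show 3 * t = q % 177147 by omega,
          show (12 * t + 2) % 177147 = (4 * q + 2) % 177147 by omega] at c3
        have c4 : (100000 : ℝ) * w (q % 177147) ≤
            30778 * w ((4 * q + 2) % 177147) + 78306 * w (4 * p % 177147) := by exact_mod_cast c3
        have wd : (0 : ℝ) ≤ w (4 * p % 177147) := Nat.cast_nonneg _
        have s5 : ((S X (2 * (2 * a))).card : ℝ) + (S X (2 * (2 * q + 1))).card ≤ (S X a).card := by
          exact_mod_cast (show (S X (2 * (2 * a))).card + (S X (2 * (2 * q + 1))).card ≤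
            (S X a).card by omega)
        have m1 := mul_le_mul_of_nonneg_right c4 hu
        have m3 := mul_le_mul_of_nonneg_left rd wd
        nlinarith
      · rw [show 3 * t + 1 = q % 177147 by omega,
          show (12 * t + 6) % 177147 = (4 * q + 2) % 177147 by omega] at c1
        have c4 : (100000 : ℝ) * w (q % 177147) ≤ 30778 * w ((4 * q + 2) % 177147) := by
          exact_mod_cast c1
        have s5 : ((S X (2 * (2 * a))).card : ℝ) ≤ (S X a).card := by
          exact_mod_cast (show (S X (2 * (2 * a))).card ≤ (S X a).card by omega)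
        have m1 := mul_le_mul_of_nonneg_right c4 hu
        nlinarith
      · obtain ⟨p, hp⟩ : ∃ p, q = 3 * p + 2 := ⟨q / 3, by omega⟩
        have id := ih (2 * q + 1) (by omega) (by omega) (by omega) nc
        have ed : (2 * q + 1) / 3 = 2 * p + 1 := by omega
        rw [ed] at id
        have rd := scale (141148 / 100000) (3 / 2) X a ((2 * q + 1 : ℕ) : ℝ) (by norm_num)
          (by norm_num) hX0 ha0 (by push_cast; linarith) (by push_cast; linarith)
        have c3 := c2 ((2 * p + 1) % 177147) (Nat.mod_lt _ (by norm_num)) (by omega)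
        rw [show 3 * t + 2 = q % 177147 by omega,
          show (12 * t + 10) % 177147 = (4 * q + 2) % 177147 by omega] at c3
        have c4 : (100000 : ℝ) * w (q % 177147) ≤
            30778 * w ((4 * q + 2) % 177147) + 141148 * w ((2 * p + 1) % 177147) := by
          exact_mod_cast c3
        have wd : (0 : ℝ) ≤ w ((2 * p + 1) % 177147) := Nat.cast_nonneg _
        have s5 : ((S X (2 * (2 * a))).card : ℝ) + (S X (2 * q + 1)).card ≤ (S X a).card := by
          exact_mod_cast (show (S X (2 * (2 * a))).card + (S X (2 * q + 1)).card ≤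
            (S X a).card by omega)
        have m1 := mul_le_mul_of_nonneg_right c4 hu
        have m3 := mul_le_mul_of_nonneg_left rd wd
        nlinarith

lemma T_pow (j a : ℕ) : T^[j] (2 ^ j * a) = a := by
  induction j with
  | zero => simp
  | succ j ih => rw [Function.iterate_succ_apply, pow_succ', mul_assoc, T_two, ih]

lemma root (a : ℕ) (ha : a % 3 ≠ 0) : ∃ b, b % 3 = 2 ∧ NP b ∧ ∃ j, T^[j] b = a := by
  have key : ∀ M, ∃ j, 0 < j ∧ M < 2 ^ j * a ∧ (2 ^ j * a) % 3 = 2 := by
    intro M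
    have h4 : ∀ m, (2 ^ (2 * m) * a) % 3 = a % 3 := by
      intro m
      induction m with
      | zero => simp
      | succ m ih => rw [show 2 * (m + 1) = 2 * m + 1 + 1 by ring, pow_succ', pow_succ',
          mul_assoc, mul_assoc]; omega
    have h5 := h4 (M + 1)
    have h6 : 2 * (M + 1) < 2 ^ (2 * (M + 1)) := Nat.lt_two_pow_self
    have h7 : 2 ^ (2 * (M + 1)) ≤ 2 ^ (2 * (M + 1)) * a := Nat.le_mul_of_pos_right _ (by omega)
    by_cases h : a % 3 = 2
    · exact ⟨2 * (M + 1), by omega, by omega, by omega⟩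
    · refine ⟨2 * (M + 1) + 1, by omega, ?_, ?_⟩ <;> rw [pow_succ', mul_assoc] <;> omega
  by_cases hn : NP a
  · by_cases h : a % 3 = 2
    · exact ⟨a, h, hn, 0, rfl⟩
    · exact ⟨2 * a, by omega, NP_child (T_two a) hn, 1, T_two a⟩
  · simp only [NP, not_forall, not_not] at hn
    obtain ⟨p, hp, hper⟩ := hn
    obtain ⟨j, hj, hM, h3⟩ := key ((range p).sup fun k => T^[k] a)
    refine ⟨_, h3, fun q hq e => ?_, j, T_pow j a⟩
    have e1 : T^[q * j] (2 ^ j * a) = 2 ^ j * a := Function.IsPeriodicPt.mul_const e j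
    have hle : j ≤ q * j := Nat.le_mul_of_pos_left _ hq
    rw [show q * j = (q * j - j) + j by omega, Function.iterate_add_apply, T_pow,
      ← Function.IsPeriodicPt.iterate_mod_apply hper] at e1
    have := le_sup (f := fun k => T^[k] a) (mem_range.2 (Nat.mod_lt (q * j - j) hp))
    omega

/-- the counting bound for positive targets -/
theorem count (w : ℕ → ℕ) (hw : ∀ m, w m ≤ 65535) (ok : ∀ t < 59049, chk w t = true)
    (pos : ∀ m < 177147, 1 ≤ w m) (a : ℕ) (ha : a % 3 ≠ 0) :
    ∃ c : ℝ, 0 < c ∧ ∃ X₀ : ℕ, 1 ≤ X₀ ∧ ∀ X : ℕ, X₀ ≤ X →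
      c * ((X : ℝ) + 1) ^ (17 / 20 : ℝ) ≤ (S X a).card := by
  obtain ⟨b, h3, hb, j, hj⟩ := root a ha
  have hb0 : (0 : ℝ) < b := by exact_mod_cast (show 0 < b by omega)
  refine ⟨(1 / (2 * b)) ^ (17 / 20 : ℝ) / 262144, by positivity, b, by omega, fun X hX => ?_⟩
  have m := main w hw ok X _ b le_rfl h3 hX hb
  have h1 : (1 : ℝ) ≤ w (b / 3 % 177147) := by exact_mod_cast pos _ (Nat.mod_lt _ (by norm_num))
  have h2 : (S X b).card ≤ (S X a).card := by
    refine card_le_card fun n hn => ?_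
    simp only [S, mem_filter] at hn ⊢
    obtain ⟨h, k, hk⟩ := hn
    exact ⟨h, j + k, by rw [Function.iterate_add_apply, hk, hj]⟩
  have h4 : ((S X b).card : ℝ) ≤ (S X a).card := by exact_mod_cast h2
  have hX1 : (1 : ℝ) ≤ X := by exact_mod_cast (show 1 ≤ X by omega)
  have h5 : (1 / (2 * b) : ℝ) ^ (17 / 20 : ℝ) * ((X : ℝ) + 1) ^ (17 / 20 : ℝ) ≤
      ((X : ℝ) / b) ^ (17 / 20 : ℝ) := by
    rw [← Real.mul_rpow (by positivity) (by positivity)]
    refine Real.rpow_le_rpow (by positivity) ?_ (by norm_num)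
    rw [one_div_mul_eq_div, div_le_div_iff₀ (by positivity) hb0]
    nlinarith
  have h7 : (0 : ℝ) ≤ ((X : ℝ) / b) ^ (17 / 20 : ℝ) := by positivity
  rw [div_mul_eq_mul_div, div_le_iff₀ (by norm_num)]
  nlinarith

end Pool.Agent.H51.ThreeA
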