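import Mathlib
import Pool.Agent.H51.ThreeT

set_option autoImplicit false

namespace Pool.Agent.H51.ThreeC

open Pool.Agent.H51.ThreeBase Pool.Agent.H51.ThreeT

lemma ok0 : allR (chk w) 11 0 = true := by decide +kernel
lemma ok3 : allR (chk w) 11 6144 = true := by decide +kernel
lemma ok6 : allR (chk w) 11 12288 = true := by decide +kernel
lemma ok9 : allR (chk w) 11 18432 = true := by decide +kernel
lemma ok12 : allR (chk w) 11 24576 = true := by decide +kernel
lemma ok15 : allR (chk w) 11 30720 = true := by decide +kernel
lemma ok18 : allR (chk w) 11 36864 = true := by decide +kernel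
lemma ok21 : allR (chk w) 11 43008 = true := by decide +kernel
lemma ok24 : allR (chk w) 11 49152 = true := by decide +kernel
lemma ok27 : allR (chk w) 11 55296 = true := by decide +kernel

end Pool.Agent.H51.ThreeC
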