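import Mathlib
import Pool.Agent.H51.ThreeT

set_option autoImplicit false

namespace Pool.Agent.H51.ThreeC

open Pool.Agent.H51.ThreeBase Pool.Agent.H51.ThreeT

lemma ok1 : allR (chk w) 11 2048 = true := by decide +kernel
lemma ok4 : allR (chk w) 11 8192 = true := by decide +kernel
lemma ok7 : allR (chk w) 11 14336 = true := by decide +kernel
lemma ok10 : allR (chk w) 11 20480 = true := by decide +kernel
lemma ok13 : allR (chk w) 11 26624 = true := by decide +kernel
lemma ok16 : allR (chk w) 11 32768 = true := by decide +kernel
lemma ok19 : allR (chk w) 11 38912 = true := by decide +kernel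
lemma ok22 : allR (chk w) 11 45056 = true := by decide +kernel
lemma ok25 : allR (chk w) 11 51200 = true := by decide +kernel
lemma ok28 : allR (chk w) 11 57344 = true := by decide +kernel

end Pool.Agent.H51.ThreeC
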