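import Mathlib
import Pool.Agent.H51.ThreeT

set_option autoImplicit false

namespace Pool.Agent.H51.ThreeC

open Pool.Agent.H51.ThreeBase Pool.Agent.H51.ThreeT

lemma ok2 : allR (chk w) 11 4096 = true := by decide +kernel
lemma ok5 : allR (chk w) 11 10240 = true := by decide +kernel
lemma ok8 : allR (chk w) 11 16384 = true := by decide +kernel
lemma ok11 : allR (chk w) 11 22528 = true := by decide +kernel
lemma ok14 : allR (chk w) 11 28672 = true := by decide +kernel
lemma ok17 : allR (chk w) 11 34816 = true := by decide +kernel
lemma ok20 : allR (chk w) 11 40960 = true := by decide +kernel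
lemma ok23 : allR (chk w) 11 47104 = true := by decide +kernel
lemma ok26 : allR (chk w) 11 53248 = true := by decide +kernel

end Pool.Agent.H51.ThreeC
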