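import Mathlib

namespace Pool.Agent.H51.ThreeClos
open DihedralGroup Subgroup
open scoped commutatorElement

/-- The finite test group. -/
abbrev G : Type := DihedralGroup 8 × Multiplicative (ZMod 4)

/-- Membership test. -/
def p1 (g : G) : Bool := decide (((g.1 = r 0 ∨ g.1 = r 4) ∧ g.2 = 1) ∨
    ((g.1 = r 2 ∨ g.1 = r 6) ∧ g.2 = Multiplicative.ofAdd 2))
/-- Membership test. -/
def p3 (g : G) : Bool := decide ((∃ i, g.1 = r i) ∧ g.2 = 1)

theorem m1 : ∀ a b : G, p1 a = true → p1 b = true → p1 (a * b) = true := by decide +kernel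
theorem i1 : ∀ a : G, p1 a = true → p1 a⁻¹ = true := by decide +kernel
theorem m3 : ∀ a b : G, p3 a = true → p3 b = true → p3 (a * b) = true := by decide +kernel
theorem i3 : ∀ a : G, p3 a = true → p3 a⁻¹ = true := by decide +kernel

/-- Image of the first normal closure. -/
def N1 : Subgroup G where
  carrier := {g | p1 g = true}
  mul_mem' := fun {a b} => m1 a b
  one_mem' := by show p1 1 = true; decide +kernel
  inv_mem' := fun {a} => i1 a

/-- Image of the third normal closure. -/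
def N3 : Subgroup G where
  carrier := {g | p3 g = true}
  mul_mem' := fun {a b} => m3 a b
  one_mem' := by show p3 1 = true; decide +kernel
  inv_mem' := fun {a} => i3 a

instance : DecidablePred (· ∈ N1) := fun g => inferInstanceAs (Decidable (p1 g = true))
instance : DecidablePred (· ∈ N3) := fun g => inferInstanceAs (Decidable (p3 g = true))

instance : N1.Normal := ⟨by decide +kernel⟩
instance : N3.Normal := ⟨by decide +kernel⟩

theorem c13 : ∀ a ∈ N1, ∀ b ∈ N3, ⁅a, b⁆ = 1 := by decide +kernel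
theorem c31 : ∀ a ∈ N3, ∀ b ∈ N1, ⁅a, b⁆ = 1 := by decide +kernel
theorem c2 : ∀ a : G, ∀ b ∈ N1, b ∈ N3 → ⁅a, b⁆ = 1 := by decide +kernel

/-- First generator. -/
def x : FreeGroup Bool := FreeGroup.of true
/-- Second generator. -/
def y : FreeGroup Bool := FreeGroup.of false

/-- The test homomorphism. -/
def h : FreeGroup Bool →* G :=
  FreeGroup.lift fun b => if b then (r 1, 1) else (sr 0, Multiplicative.ofAdd 1)

theorem hx : h x = (r 1, 1) := by simp [h, x]
theorem hy : h y = (sr 0, Multiplicative.ofAdd 1) := by simp [h, y]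

theorem R1_le : normalClosure {x * y * x⁻¹ * y} ≤ N1.comap h := by
  apply normalClosure_le_normal
  rintro _ rfl
  show h _ ∈ N1
  simp only [map_mul, map_inv, hx, hy]
  decide

theorem R3_le : normalClosure {x} ≤ N3.comap h := by
  apply normalClosure_le_normal
  rintro _ rfl
  show h _ ∈ N3
  rw [hx]
  decide

theorem D_le : (⁅normalClosure {x * y * x⁻¹ * y}, normalClosure {y} ⊓ normalClosure {x}⁆ ⊔
    ⁅normalClosure {y}, normalClosure {x * y * x⁻¹ * y} ⊓ normalClosure {x}⁆ ⊔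
    ⁅normalClosure {x}, normalClosure {x * y * x⁻¹ * y} ⊓ normalClosure {y}⁆) ≤ h.ker := by
  refine sup_le (sup_le ?_ ?_) ?_ <;> rw [commutator_le] <;> intro a ha b hb <;>
    rw [MonoidHom.mem_ker, map_commutatorElement]
  · exact c13 _ (R1_le ha) _ (R3_le hb.2)
  · exact c2 _ _ (R1_le hb.1) (R3_le hb.2)
  · exact c31 _ (R3_le ha) _ (R1_le hb.1)

theorem g_not : ⁅y, x * y * x⁻¹ * y⁆ ∉ h.ker := by
  rw [MonoidHom.mem_ker, map_commutatorElement]
  simp only [map_mul, map_inv, hx, hy]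
  decide

theorem cj {s : Set (FreeGroup Bool)} {a : FreeGroup Bool} (ha : a ∈ normalClosure s)
    (g : FreeGroup Bool) : g * a * g⁻¹ ∈ normalClosure s :=
  (normalClosure_normal (s := s)).conj_mem a ha g

theorem sf (a : FreeGroup Bool) : a ∈ normalClosure ({a} : Set (FreeGroup Bool)) :=
  subset_normalClosure (Set.mem_singleton a)

theorem r_mem : x * y * x⁻¹ * y ∈
    normalClosure {x * y * x⁻¹ * y} ⊓ normalClosure ({y} : Set (FreeGroup Bool)) :=
  mem_inf.mpr ⟨sf _, mul_mem (cj (sf y) x) (sf y)⟩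

theorem c_mem : y * x * y⁻¹ * x⁻¹ ∈ normalClosure ({x} : Set (FreeGroup Bool)) :=
  mul_mem (cj (sf x) y) (inv_mem (sf x))

theorem g_mem : ⁅y, x * y * x⁻¹ * y⁆ ∈ normalClosure {x * y * x⁻¹ * y} ⊓ normalClosure {y} ⊓
    normalClosure ({x} : Set (FreeGroup Bool)) := by
  have a1 := (mem_inf.mp r_mem).1
  have a2 := (mem_inf.mp r_mem).2
  refine mem_inf.mpr ⟨mem_inf.mpr ⟨mul_mem (cj a1 y) (inv_mem a1),
    mul_mem (cj a2 y) (inv_mem a2)⟩, ?_⟩
  have : ⁅y, x * y * x⁻¹ * y⁆ = y * (y * x * y⁻¹ * x⁻¹)⁻¹ * y⁻¹ * (y * x * y⁻¹ * x⁻¹) := by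
    simp only [commutatorElement_def]; group
  rw [this]
  exact mul_mem (cj (inv_mem c_mem) y) c_mem

theorem g_sq : ⁅y, x * y * x⁻¹ * y⁆ ^ 2 =
    ⁅y, ⁅y, x * y * x⁻¹ * y⁆⁆⁻¹ * ⁅y * x * y⁻¹ * x⁻¹, x * y * x⁻¹ * y⁆ := by
  simp only [commutatorElement_def, pow_two]; group

end Pool.Agent.H51.ThreeClos
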