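import Mathlib
import Pool.Agent.H51.ThreeC0
import Pool.Agent.H51.ThreeC1
import Pool.Agent.H51.ThreeC2

set_option autoImplicit false

namespace Pool.Agent.H51.ThreeC

open Pool.Agent.H51.ThreeBase Pool.Agent.H51.ThreeT

lemma ok (t : ℕ) (ht : t < 59049) : chk w t = true := by
  by_cases c0 : t < 2048
  · exact allR_spec _ 11 _ ok0 t (by omega) (by omega)
  by_cases c1 : t < 4096
  · exact allR_spec _ 11 _ ok1 t (by omega) (by omega)
  by_cases c2 : t < 6144
  · exact allR_spec _ 11 _ ok2 t (by omega) (by omega)
  by_cases c3 : t < 8192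
  · exact allR_spec _ 11 _ ok3 t (by omega) (by omega)
  by_cases c4 : t < 10240
  · exact allR_spec _ 11 _ ok4 t (by omega) (by omega)
  by_cases c5 : t < 12288
  · exact allR_spec _ 11 _ ok5 t (by omega) (by omega)
  by_cases c6 : t < 14336
  · exact allR_spec _ 11 _ ok6 t (by omega) (by omega)
  by_cases c7 : t < 16384
  · exact allR_spec _ 11 _ ok7 t (by omega) (by omega)
  by_cases c8 : t < 18432
  · exact allR_spec _ 11 _ ok8 t (by omega) (by omega)
  by_cases c9 : t < 20480
  · exact allR_spec _ 11 _ ok9 t (by omega) (by omega)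
  by_cases c10 : t < 22528
  · exact allR_spec _ 11 _ ok10 t (by omega) (by omega)
  by_cases c11 : t < 24576
  · exact allR_spec _ 11 _ ok11 t (by omega) (by omega)
  by_cases c12 : t < 26624
  · exact allR_spec _ 11 _ ok12 t (by omega) (by omega)
  by_cases c13 : t < 28672
  · exact allR_spec _ 11 _ ok13 t (by omega) (by omega)
  by_cases c14 : t < 30720
  · exact allR_spec _ 11 _ ok14 t (by omega) (by omega)
  by_cases c15 : t < 32768
  · exact allR_spec _ 11 _ ok15 t (by omega) (by omega)
  by_cases c16 : t < 34816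
  · exact allR_spec _ 11 _ ok16 t (by omega) (by omega)
  by_cases c17 : t < 36864
  · exact allR_spec _ 11 _ ok17 t (by omega) (by omega)
  by_cases c18 : t < 38912
  · exact allR_spec _ 11 _ ok18 t (by omega) (by omega)
  by_cases c19 : t < 40960
  · exact allR_spec _ 11 _ ok19 t (by omega) (by omega)
  by_cases c20 : t < 43008
  · exact allR_spec _ 11 _ ok20 t (by omega) (by omega)
  by_cases c21 : t < 45056
  · exact allR_spec _ 11 _ ok21 t (by omega) (by omega)
  by_cases c22 : t < 47104
  · exact allR_spec _ 11 _ ok22 t (by omega) (by omega)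
  by_cases c23 : t < 49152
  · exact allR_spec _ 11 _ ok23 t (by omega) (by omega)
  by_cases c24 : t < 51200
  · exact allR_spec _ 11 _ ok24 t (by omega) (by omega)
  by_cases c25 : t < 53248
  · exact allR_spec _ 11 _ ok25 t (by omega) (by omega)
  by_cases c26 : t < 55296
  · exact allR_spec _ 11 _ ok26 t (by omega) (by omega)
  by_cases c27 : t < 57344
  · exact allR_spec _ 11 _ ok27 t (by omega) (by omega)
  exact allR_spec _ 11 _ ok28 t (by omega) (by omega)

end Pool.Agent.H51.ThreeC
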