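import Mathlib
import Pool.Agent.H51.ThreeT

set_option autoImplicit false

namespace Pool.Agent.H51.ThreeC

open Pool.Agent.H51.ThreeBase Pool.Agent.H51.ThreeT

noncomputable def pf (m : ℕ) : Bool := or (Nat.ble (nat_lit 177147) m) (Nat.ble (nat_lit 1) (w m))

lemma pos0 : allR pf 13 0 = true := by decide +kernel
lemma pos1 : allR pf 13 8192 = true := by decide +kernel
lemma pos2 : allR pf 13 16384 = true := by decide +kernel
lemma pos3 : allR pf 13 24576 = true := by decide +kernel
lemma pos4 : allR pf 13 32768 = true := by decide +kernel
lemma pos5 : allR pf 13 40960 = true := by decide +kernel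
lemma pos6 : allR pf 13 49152 = true := by decide +kernel
lemma pos7 : allR pf 13 57344 = true := by decide +kernel
lemma pos8 : allR pf 13 65536 = true := by decide +kernel
lemma pos9 : allR pf 13 73728 = true := by decide +kernel
lemma pos10 : allR pf 13 81920 = true := by decide +kernel
lemma pos11 : allR pf 13 90112 = true := by decide +kernel
lemma pos12 : allR pf 13 98304 = true := by decide +kernel
lemma pos13 : allR pf 13 106496 = true := by decide +kernel
lemma pos14 : allR pf 13 114688 = true := by decide +kernel
lemma pos15 : allR pf 13 122880 = true := by decide +kernel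
lemma pos16 : allR pf 13 131072 = true := by decide +kernel
lemma pos17 : allR pf 13 139264 = true := by decide +kernel
lemma pos18 : allR pf 13 147456 = true := by decide +kernel
lemma pos19 : allR pf 13 155648 = true := by decide +kernel
lemma pos20 : allR pf 13 163840 = true := by decide +kernel
lemma pos21 : allR pf 13 172032 = true := by decide +kernel

lemma pos (m : ℕ) (hm : m < 177147) : 1 ≤ w m := by
  have h : pf m = true := by
    by_cases c0 : m < 8192
    · exact allR_spec pf 13 _ pos0 m (by omega) (by omega)
    by_cases c1 : m < 16384
    · exact allR_spec pf 13 _ pos1 m (by omega) (by omega)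
    by_cases c2 : m < 24576
    · exact allR_spec pf 13 _ pos2 m (by omega) (by omega)
    by_cases c3 : m < 32768
    · exact allR_spec pf 13 _ pos3 m (by omega) (by omega)
    by_cases c4 : m < 40960
    · exact allR_spec pf 13 _ pos4 m (by omega) (by omega)
    by_cases c5 : m < 49152
    · exact allR_spec pf 13 _ pos5 m (by omega) (by omega)
    by_cases c6 : m < 57344
    · exact allR_spec pf 13 _ pos6 m (by omega) (by omega)
    by_cases c7 : m < 65536
    · exact allR_spec pf 13 _ pos7 m (by omega) (by omega)
    by_cases c8 : m < 73728
    · exact allR_spec pf 13 _ pos8 m (by omega) (by omega)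
    by_cases c9 : m < 81920
    · exact allR_spec pf 13 _ pos9 m (by omega) (by omega)
    by_cases c10 : m < 90112
    · exact allR_spec pf 13 _ pos10 m (by omega) (by omega)
    by_cases c11 : m < 98304
    · exact allR_spec pf 13 _ pos11 m (by omega) (by omega)
    by_cases c12 : m < 106496
    · exact allR_spec pf 13 _ pos12 m (by omega) (by omega)
    by_cases c13 : m < 114688
    · exact allR_spec pf 13 _ pos13 m (by omega) (by omega)
    by_cases c14 : m < 122880
    · exact allR_spec pf 13 _ pos14 m (by omega) (by omega)
    by_cases c15 : m < 131072
    · exact allR_spec pf 13 _ pos15 m (by omega) (by omega)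
    by_cases c16 : m < 139264
    · exact allR_spec pf 13 _ pos16 m (by omega) (by omega)
    by_cases c17 : m < 147456
    · exact allR_spec pf 13 _ pos17 m (by omega) (by omega)
    by_cases c18 : m < 155648
    · exact allR_spec pf 13 _ pos18 m (by omega) (by omega)
    by_cases c19 : m < 163840
    · exact allR_spec pf 13 _ pos19 m (by omega) (by omega)
    by_cases c20 : m < 172032
    · exact allR_spec pf 13 _ pos20 m (by omega) (by omega)
    exact allR_spec pf 13 _ pos21 m (by omega) (by omega)
  simp only [pf, Bool.or_eq_true, Nat.ble_eq] at h
  omega

end Pool.Agent.H51.ThreeC
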