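import Mathlib
import Pool.Agent.H51.ThreeA

set_option autoImplicit false

namespace Pool.Agent.H51.ThreeZ

open Pool.Agent.H51.ThreeBase Finset
open Pool.Agent.H51.ThreeA (scale)

def T (n : ℤ) : ℤ := if n % 2 = 0 then n / 2 else (3 * n + 1) / 2

open Classical in
noncomputable def S (X : ℕ) (a : ℤ) : Finset ℤ := (Icc (-(X : ℤ)) X).filter fun n => ∃ k, T^[k] n = a

def NP (a : ℤ) : Prop := ∀ k, 0 < k → T^[k] a ≠ a

lemma NP_child {a c : ℤ} (h : T c = a) (ha : NP a) : NP c := by
  intro k hk e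
  refine ha k hk ?_
  rw [← h, ← Function.iterate_succ_apply, Function.iterate_succ_apply', e]

lemma S_sub {X : ℕ} {a c : ℤ} (h : T c = a) (ha : NP a) : S X c ⊆ (S X a).erase a := by
  intro n hn
  simp only [S, mem_filter, mem_erase] at hn ⊢
  obtain ⟨h1, k, hk⟩ := hn
  have h2 : T^[k + 1] n = a := by rw [Function.iterate_succ_apply', hk, h]
  refine ⟨fun e => ha (k + 1) (by omega) (by rw [e] at h2; exact h2), h1, k + 1, h2⟩

lemma S_le {X : ℕ} {a c : ℤ} (h : T c = a) (ha : NP a) : (S X c).card ≤ (S X a).card :=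
  card_le_card ((S_sub h ha).trans (erase_subset _ _))

lemma S_disj {X : ℕ} {a c d : ℤ} (h : T c = a) (h' : T d = a) (hcd : c ≠ d) (ha : NP a) :
    Disjoint (S X c) (S X d) := by
  rw [disjoint_left]
  intro n hn hn'
  simp only [S, mem_filter] at hn hn'
  obtain ⟨-, k, hk⟩ := hn
  obtain ⟨-, l, hl⟩ := hn'
  have h2 : T^[k + 1] n = a := by rw [Function.iterate_succ_apply', hk, h]
  have h3 : T^[l + 1] n = a := by rw [Function.iterate_succ_apply', hl, h']
  rcases lt_trichotomy k l with h4 | h4 | h4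
  · refine ha (l - k) (by omega) ?_
    conv_lhs => rw [← h2, ← Function.iterate_add_apply]
    rw [show l - k + (k + 1) = l + 1 by omega, h3]
  · subst h4; exact hcd (hk.symm.trans hl)
  · refine ha (k - l) (by omega) ?_
    conv_lhs => rw [← h3, ← Function.iterate_add_apply]
    rw [show k - l + (l + 1) = k + 1 by omega, h2]

lemma self_mem {X : ℕ} {a : ℤ} (h2 : a.natAbs ≤ X) : a ∈ S X a := by
  simp only [S, mem_filter, mem_Icc]
  exact ⟨⟨by omega, by omega⟩, 0, rfl⟩

lemma T_two (a : ℤ) : T (2 * a) = a := by simp only [T]; rw [if_pos (by omega)]; omega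

def Big (a : ℤ) : Prop := ∀ n : ℤ, (∃ k, T^[k] n = a) → 10000000 ≤ n.natAbs

lemma Big_child {a c : ℤ} (h : T c = a) (ha : Big a) : Big c := by
  rintro n ⟨k, hk⟩
  exact ha n ⟨k + 1, by rw [Function.iterate_succ_apply', hk, h]⟩

def r (q : ℤ) : ℕ := (q % 177147).toNat

lemma r_cast (q : ℤ) : (r q : ℤ) = q % 177147 := Int.toNat_of_nonneg (by omega)

lemma r_lt (q : ℤ) : r q < 177147 := by have := r_cast q; omega

lemma main (w : ℕ → ℕ) (hw : ∀ m, w m ≤ 65535) (ok : ∀ t < 59049, chk w t = true) (X : ℕ) :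
    ∀ (N : ℕ) (a : ℤ), (S X a).card ≤ N → a % 3 = 2 → a.natAbs ≤ X → NP a → Big a →
    (w (r (a / 3)) : ℝ) * ((X : ℝ) / (a.natAbs : ℝ)) ^ (17 / 20 : ℝ) ≤ 262144 * (S X a).card := by
  intro N
  induction N with
  | zero =>
    intro a h h1 h2 _ _
    have := card_pos.2 ⟨a, self_mem h2⟩
    omega
  | succ N ih =>
    intro a h h0 h2 ha hB
    have h1 : 10000000 ≤ a.natAbs := hB a ⟨0, rfl⟩
    have hpos := card_pos.2 ⟨a, self_mem h2⟩
    have ha1 : (10000000 : ℝ) ≤ (a.natAbs : ℝ) := by exact_mod_cast h1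
    have ha0 : (0 : ℝ) < (a.natAbs : ℝ) := by linarith
    have hX0 : (0 : ℝ) ≤ X := Nat.cast_nonneg X
    have hu : (0 : ℝ) ≤ ((X : ℝ) / (a.natAbs : ℝ)) ^ (17 / 20 : ℝ) := by positivity
    by_cases hb : X < 4 * a.natAbs
    · have h3 : ((X : ℝ) / (a.natAbs : ℝ)) ^ (17 / 20 : ℝ) ≤ 4 := by
        have h4 : (X : ℝ) / (a.natAbs : ℝ) ≤ 4 := by
          rw [div_le_iff₀ ha0]; exact_mod_cast hb.le
        calc _ ≤ (4 : ℝ) ^ (17 / 20 : ℝ) := Real.rpow_le_rpow (by positivity) h4 (by norm_num)
          _ ≤ (4 : ℝ) ^ (1 : ℝ) := Real.rpow_le_rpow_of_exponent_le (by norm_num) (by norm_num)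
          _ = 4 := by simp
      have h5 : (w (r (a / 3)) : ℝ) ≤ 65535 := by exact_mod_cast hw _
      have h6 : (1 : ℝ) ≤ (S X a).card := by exact_mod_cast hpos
      nlinarith
    · have t2 := T_two a
      have t4 := T_two (2 * a)
      have n2 := NP_child t2 ha
      have b2 := Big_child t2 hB
      have s2 := card_le_card (S_sub (X := X) t2 ha)
      rw [card_erase_of_mem (self_mem h2)] at s2
      have s4 := S_le (X := X) t4 n2
      have a4 : (2 * (2 * a)).natAbs = 4 * a.natAbs := by omega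
      have i4 := ih (2 * (2 * a)) (by omega) (by omega) (by omega) (NP_child t4 n2)
        (Big_child t4 b2)
      rw [a4] at i4
      have r4 := scale (30778 / 100000) (1 / 4) X a.natAbs ((4 * a.natAbs : ℕ) : ℝ) (by norm_num)
        (by norm_num) hX0 ha0 (by rw [Nat.cast_mul, Nat.cast_ofNat]; linarith)
        (by rw [Nat.cast_mul, Nat.cast_ofNat]; linarith)
      obtain ⟨q, hq⟩ : ∃ q, a = 3 * q + 2 := ⟨a / 3, by omega⟩
      have e0 : a / 3 = q := by omega
      have e4 : 2 * (2 * a) / 3 = 4 * q + 2 := by omega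
      rw [e4] at i4
      rw [e0]
      have rq := r_cast q
      have rq4 := r_cast (4 * q + 2)
      have rl := r_lt q
      obtain ⟨t, ht⟩ : ∃ t, t = r q / 3 := ⟨_, rfl⟩
      have htl : t < 59049 := by omega
      obtain ⟨c0, c1, c2⟩ := chk_spec w t htl (ok t htl)
      have w4 : (0 : ℝ) ≤ w (r (4 * q + 2)) := Nat.cast_nonneg _
      have m4 := mul_le_mul_of_nonneg_left r4 w4
      have tc : T (2 * q + 1) = a := by simp only [T]; rw [if_neg (by omega)]; omega
      have s3 : (S X (2 * a)).card + (S X (2 * q + 1)).card ≤ (S X a).card - 1 := by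
        rw [← card_union_of_disjoint (S_disj t2 tc (by omega) ha),
          ← card_erase_of_mem (self_mem h2)]
        exact card_le_card (union_subset (S_sub t2 ha) (S_sub tc ha))
      have nc := NP_child tc ha
      have bc := Big_child tc hB
      have h9 : q % 3 = 0 ∨ q % 3 = 1 ∨ q % 3 = 2 := by omega
      rcases h9 with h9 | h9 | h9
      · obtain ⟨p, hp⟩ : ∃ p, q = 3 * p := ⟨q / 3, by omega⟩
        have td := T_two (2 * q + 1)
        have sd := S_le (X := X) td nc
        have hy : 3 * (2 * (2 * q + 1)).natAbs ≤ 4 * a.natAbs + 2 := by omega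
        have hy0 : 0 < (2 * (2 * q + 1)).natAbs := by omega
        have id := ih (2 * (2 * q + 1)) (by omega) (by omega) (by omega) (NP_child td nc)
          (Big_child td bc)
        have ed : 2 * (2 * q + 1) / 3 = 4 * p := by omega
        rw [ed] at id
        generalize (2 * (2 * q + 1)).natAbs = y at hy hy0 id
        have hy' : (3 : ℝ) * y ≤ 4 * (a.natAbs : ℝ) + 2 := by exact_mod_cast hy
        have rd := scale (78306 / 100000) (749999925 / 1000000000) X a.natAbs y (by norm_num)
          (by norm_num) hX0 ha0 (by exact_mod_cast hy0) (by linarith)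
        have rp := r_cast (4 * p)
        have k1 : r (4 * p) % 59049 = 4 * t % 59049 := by
          clear * - rp rq ht hp rl
          generalize r (4 * p) = x at *
          generalize r q = z at *
          omega
        have k2 : 3 * t = r q := by
          clear * - rq ht hp rl
          generalize r q = z at *
          omega
        have k3 : (12 * t + 2) % 177147 = r (4 * q + 2) := by
          clear * - rq rq4 k2
          generalize r (4 * q + 2) = x at *
          generalize r q = z at *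
          omega
        have c3 := c0 (r (4 * p)) (r_lt _) k1
        rw [k2, k3] at c3
        have c4 : (100000 : ℝ) * w (r q) ≤
            30778 * w (r (4 * q + 2)) + 78306 * w (r (4 * p)) := by exact_mod_cast c3
        have wd : (0 : ℝ) ≤ w (r (4 * p)) := Nat.cast_nonneg _
        have s5 : ((S X (2 * (2 * a))).card : ℝ) + (S X (2 * (2 * q + 1))).card ≤ (S X a).card := by
          exact_mod_cast (show (S X (2 * (2 * a))).card + (S X (2 * (2 * q + 1))).card ≤
            (S X a).card by omega)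
        have m1 := mul_le_mul_of_nonneg_right c4 hu
        have m3 := mul_le_mul_of_nonneg_left rd wd
        linarith
      · have k2 : 3 * t + 1 = r q := by
          clear * - rq ht h9 rl
          generalize r q = z at *
          omega
        have k3 : (12 * t + 6) % 177147 = r (4 * q + 2) := by
          clear * - rq rq4 k2
          generalize r (4 * q + 2) = x at *
          generalize r q = z at *
          omega
        rw [k2, k3] at c1
        have c4 : (100000 : ℝ) * w (r q) ≤ 30778 * w (r (4 * q + 2)) := by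
          exact_mod_cast c1
        have s5 : ((S X (2 * (2 * a))).card : ℝ) ≤ (S X a).card := by
          exact_mod_cast (show (S X (2 * (2 * a))).card ≤ (S X a).card by omega)
        have m1 := mul_le_mul_of_nonneg_right c4 hu
        linarith
      · obtain ⟨p, hp⟩ : ∃ p, q = 3 * p + 2 := ⟨q / 3, by omega⟩
        have hy : 3 * (2 * q + 1).natAbs ≤ 2 * a.natAbs + 1 := by omega
        have hy0 : 0 < (2 * q + 1).natAbs := by omega
        have id := ih (2 * q + 1) (by omega) (by omega) (by omega) nc bc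
        have ed : (2 * q + 1) / 3 = 2 * p + 1 := by omega
        rw [ed] at id
        generalize (2 * q + 1).natAbs = y at hy hy0 id
        have hy' : (3 : ℝ) * y ≤ 2 * (a.natAbs : ℝ) + 1 := by exact_mod_cast hy
        have rd := scale (141148 / 100000) (149999985 / 100000000) X a.natAbs y (by norm_num)
          (by norm_num) hX0 ha0 (by exact_mod_cast hy0) (by linarith)
        have rp := r_cast (2 * p + 1)
        have k1 : r (2 * p + 1) % 59049 = (2 * t + 1) % 59049 := by
          clear * - rp rq ht hp rl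
          generalize r (2 * p + 1) = x at *
          generalize r q = z at *
          omega
        have k2 : 3 * t + 2 = r q := by
          clear * - rq ht hp rl
          generalize r q = z at *
          omega
        have k3 : (12 * t + 10) % 177147 = r (4 * q + 2) := by
          clear * - rq rq4 k2
          generalize r (4 * q + 2) = x at *
          generalize r q = z at *
          omega
        have c3 := c2 (r (2 * p + 1)) (r_lt _) k1
        rw [k2, k3] at c3
        have c4 : (100000 : ℝ) * w (r q) ≤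
            30778 * w (r (4 * q + 2)) + 141148 * w (r (2 * p + 1)) := by
          exact_mod_cast c3
        have wd : (0 : ℝ) ≤ w (r (2 * p + 1)) := Nat.cast_nonneg _
        have s5 : ((S X (2 * (2 * a))).card : ℝ) + (S X (2 * q + 1)).card ≤ (S X a).card := by
          exact_mod_cast (show (S X (2 * (2 * a))).card + (S X (2 * q + 1)).card ≤
            (S X a).card by omega)
        have m1 := mul_le_mul_of_nonneg_right c4 hu
        have m3 := mul_le_mul_of_nonneg_left rd wd
        linarith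

lemma T_pow (j : ℕ) (a : ℤ) : T^[j] (2 ^ j * a) = a := by
  induction j with
  | zero => simp
  | succ j ih => rw [Function.iterate_succ_apply, pow_succ', mul_assoc, T_two, ih]

lemma four_mod (a : ℤ) (m : ℕ) : (2 ^ (2 * m) * a) % 3 = a % 3 := by
  induction m with
  | zero => simp
  | succ m ih =>
    rw [show 2 * (m + 1) = 2 * m + 1 + 1 by ring, pow_succ', pow_succ', mul_assoc, mul_assoc]
    omega

lemma NP_pow (j : ℕ) (a : ℤ) (ha : NP a) : NP (2 ^ j * a) := by
  induction j with
  | zero => simpa using ha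
  | succ j ih => rw [pow_succ', mul_assoc]; exact NP_child (T_two _) ih

lemma root1 (a : ℤ) (ha : a % 3 ≠ 0) : ∃ b, b % 3 = 2 ∧ NP b ∧ ∃ j, T^[j] b = a := by
  have key : ∀ M : ℕ, ∃ j, 0 < j ∧ M < (2 ^ j * a).natAbs ∧ (2 ^ j * a) % 3 = 2 := by
    intro M
    have h5 := four_mod a (M + 1)
    have h6 : 2 * (M + 1) < 2 ^ (2 * (M + 1)) := Nat.lt_two_pow_self
    have h7 : 2 ^ (2 * (M + 1)) ≤ (2 ^ (2 * (M + 1)) * a).natAbs := by
      rw [Int.natAbs_mul, Int.natAbs_pow]
      exact Nat.le_mul_of_pos_right _ (by omega)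
    by_cases h : a % 3 = 2
    · exact ⟨2 * (M + 1), by omega, by omega, by omega⟩
    · refine ⟨2 * (M + 1) + 1, by omega, ?_, ?_⟩ <;> rw [pow_succ', mul_assoc] <;> omega
  by_cases hn : NP a
  · by_cases h : a % 3 = 2
    · exact ⟨a, h, hn, 0, rfl⟩
    · exact ⟨2 * a, by omega, NP_child (T_two a) hn, 1, T_two a⟩
  · simp only [NP, not_forall, not_not] at hn
    obtain ⟨p, hp, hper⟩ := hn
    obtain ⟨j, hj, hM, h3⟩ := key ((range p).sup fun k => (T^[k] a).natAbs)
    refine ⟨_, h3, fun q hq e => ?_, j, T_pow j a⟩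
    have e1 : T^[q * j] (2 ^ j * a) = 2 ^ j * a := Function.IsPeriodicPt.mul_const e j
    have hle : j ≤ q * j := Nat.le_mul_of_pos_left _ hq
    rw [show q * j = (q * j - j) + j by omega, Function.iterate_add_apply, T_pow,
      ← Function.IsPeriodicPt.iterate_mod_apply hper] at e1
    have := le_sup (f := fun k => (T^[k] a).natAbs) (mem_range.2 (Nat.mod_lt (q * j - j) hp))
    rw [e1] at this
    omega

lemma root2 (b : ℤ) (hb : NP b) : ∃ m, Big (2 ^ (2 * m) * b) := by
  classical
  let f : ℤ → ℕ := fun n => if h : ∃ k, T^[k] n = b then Nat.find h else 0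
  refine ⟨(Icc (-10000000 : ℤ) 10000000).sup f + 1, ?_⟩
  generalize hM : (Icc (-10000000 : ℤ) 10000000).sup f = M
  rintro n ⟨k, hk⟩
  by_contra hn
  have h1 : f n ≤ M := hM ▸ le_sup (f := f) (mem_Icc.2 ⟨by omega, by omega⟩)
  have h2 : T^[2 * (M + 1) + k] n = b := by rw [Function.iterate_add_apply, hk, T_pow]
  have h3 : ∃ k, T^[k] n = b := ⟨_, h2⟩
  have h4 : f n = Nat.find h3 := dif_pos h3
  have h5 : T^[Nat.find h3] n = b := Nat.find_spec h3
  generalize Nat.find h3 = v at h4 h5
  refine hb (2 * (M + 1) + k - v) (by omega) ?_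
  conv_lhs => rw [← h5, ← Function.iterate_add_apply]
  rw [show 2 * (M + 1) + k - v + v = 2 * (M + 1) + k by omega, h2]

/-- the counting bound for all integer targets prime to three -/
theorem count (w : ℕ → ℕ) (hw : ∀ m, w m ≤ 65535) (ok : ∀ t < 59049, chk w t = true)
    (pos : ∀ m < 177147, 1 ≤ w m) (a : ℤ) (ha : a % 3 ≠ 0) :
    ∃ c : ℝ, 0 < c ∧ ∃ X₀ : ℕ, ∀ X : ℕ, X₀ ≤ X →
      c * ((X : ℝ) + 1) ^ (17 / 20 : ℝ) ≤ (S X a).card := by
  obtain ⟨b0, h30, hb0', j0, hj0⟩ := root1 a ha
  obtain ⟨m0, hB⟩ := root2 b0 hb0'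
  have h3 := (four_mod b0 m0).trans h30
  have hb := NP_pow (2 * m0) b0 hb0'
  have hj : T^[j0 + 2 * m0] (2 ^ (2 * m0) * b0) = a := by
    rw [Function.iterate_add_apply, T_pow, hj0]
  generalize 2 ^ (2 * m0) * b0 = b at hB h3 hb hj
  generalize j0 + 2 * m0 = j at hj
  have hb1 : 0 < b.natAbs := by omega
  have hb0 : (0 : ℝ) < (b.natAbs : ℝ) := by exact_mod_cast hb1
  refine ⟨(1 / (2 * (b.natAbs : ℝ))) ^ (17 / 20 : ℝ) / 262144, by positivity, b.natAbs,
    fun X hX => ?_⟩
  have m := main w hw ok X _ b le_rfl h3 hX hb hB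
  have h1 : (1 : ℝ) ≤ w (r (b / 3)) := by exact_mod_cast pos _ (r_lt _)
  have h2 : (S X b).card ≤ (S X a).card := by
    refine card_le_card fun n hn => ?_
    simp only [S, mem_filter] at hn ⊢
    obtain ⟨h, k, hk⟩ := hn
    exact ⟨h, j + k, by rw [Function.iterate_add_apply, hk, hj]⟩
  have h4 : ((S X b).card : ℝ) ≤ (S X a).card := by exact_mod_cast h2
  have hX1 : (1 : ℝ) ≤ X := by exact_mod_cast (show 1 ≤ X by omega)
  have h5 : (1 / (2 * (b.natAbs : ℝ)) : ℝ) ^ (17 / 20 : ℝ) * ((X : ℝ) + 1) ^ (17 / 20 : ℝ) ≤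
      ((X : ℝ) / (b.natAbs : ℝ)) ^ (17 / 20 : ℝ) := by
    rw [← Real.mul_rpow (by positivity) (by positivity)]
    refine Real.rpow_le_rpow (by positivity) ?_ (by norm_num)
    rw [one_div_mul_eq_div, div_le_div_iff₀ (by positivity) hb0]
    nlinarith
  have h7 : (0 : ℝ) ≤ ((X : ℝ) / (b.natAbs : ℝ)) ^ (17 / 20 : ℝ) := by positivity
  rw [div_mul_eq_mul_div, div_le_iff₀ (by norm_num)]
  nlinarith

/-- real-variable form -/
theorem countR (w : ℕ → ℕ) (hw : ∀ m, w m ≤ 65535) (ok : ∀ t < 59049, chk w t = true)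
    (pos : ∀ m < 177147, 1 ≤ w m) (a : ℤ) (ha : a % 3 ≠ 0) :
    ∃ c : ℝ, 0 < c ∧ ∃ x₀ : ℝ, ∀ x : ℝ, x₀ ≤ x → c * x ^ (17 / 20 : ℝ) ≤
      (Set.ncard {n : ℤ | |(n : ℝ)| ≤ x ∧ ∃ k : ℕ, T^[k] n = a} : ℝ) := by
  obtain ⟨c, hc, X₀, h⟩ := count w hw ok pos a ha
  refine ⟨c, hc, X₀, fun x hx => ?_⟩
  have hx0 : 0 ≤ x := (Nat.cast_nonneg X₀).trans hx
  have h1 := h ⌊x⌋₊ (Nat.le_floor hx)
  have h2 : x ^ (17 / 20 : ℝ) ≤ ((⌊x⌋₊ : ℝ) + 1) ^ (17 / 20 : ℝ) :=
    Real.rpow_le_rpow hx0 (Nat.lt_floor_add_one x).le (by norm_num)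
  have h3 : {n : ℤ | |(n : ℝ)| ≤ x ∧ ∃ k : ℕ, T^[k] n = a} = (S ⌊x⌋₊ a : Set ℤ) := by
    ext n
    simp only [S, Set.mem_setOf_eq, coe_filter, mem_Icc]
    refine and_congr_left fun _ => ?_
    rw [← abs_le, ← Int.cast_abs, ← Int.le_floor, Int.natCast_floor_eq_floor hx0]
  rw [h3, Set.ncard_coe_finset]
  exact (mul_le_mul_of_nonneg_left h2 hc.le).trans h1

end Pool.Agent.H51.ThreeZ
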