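import Mathlib

namespace Pool.Agent.H51.TwoStep
open Polynomial

section General
variable {K V W : Type} [Field K] [AddCommGroup V] [Module K V] [AddCommGroup W] [Module K W]

/-- Central extension defined by an alternating bilinear map. -/
def Ext (_B : {B : V →ₗ[K] V →ₗ[K] W // ∀ v, B v v = 0}) : Type := V × W

variable (B : {B : V →ₗ[K] V →ₗ[K] W // ∀ v, B v v = 0})

instance : AddCommGroup (Ext B) := inferInstanceAs (AddCommGroup (V × W))
instance : Module K (Ext B) := inferInstanceAs (Module K (V × W))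

instance : LieRing (Ext B) where
  bracket a b := ((0, B.1 a.1 b.1) : V × W)
  add_lie a b c := by
    exact Prod.ext (add_zero _).symm (LinearMap.map_add₂ B.1 a.1 b.1 c.1)
  lie_add a b c := by
    exact Prod.ext (add_zero _).symm (map_add (B.1 a.1) b.1 c.1)
  lie_self a := by
    show ((0, B.1 a.1 a.1) : V × W) = 0
    rw [B.2]; rfl
  leibniz_lie a b c := by
    refine Prod.ext (add_zero _).symm ?_
    show B.1 a.1 0 = B.1 0 c.1 + B.1 b.1 0
    simp

instance : LieAlgebra K (Ext B) where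
  lie_smul t a b := by
    exact Prod.ext (smul_zero _).symm (map_smul (B.1 a.1) t b.1)

/-- Constructor. -/
def mk (v : V) (w : W) : Ext B := (v, w)

theorem lie_eq (a b : Ext B) : ⁅a, b⁆ = mk B 0 (B.1 a.1 b.1) := rfl

theorem lie_eq_zero (a b : Ext B) : ⁅a, b⁆ = 0 ↔ B.1 a.1 b.1 = 0 := by
  rw [lie_eq]
  exact ⟨fun h => congrArg Prod.snd h, fun h => by rw [h]; rfl⟩

/-- Inclusion of `V`. -/
def inl : V →ₗ[K] Ext B := LinearMap.inl K V W

theorem not_res (hc : ∀ v : V, v ≠ 0 → ∃ u : V, ∀ v', B.1 v v' = 0 → ∃ s t : K, v' = s • v + t • u)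
    (P : Type) [AddCommGroup P] [Module K P] (hP : ¬ FiniteDimensional K P) (f : P →ₗ[K] V)
    (w0 : W) (hw0 : w0 ≠ 0) (hf : ∀ p : P, p ≠ 0 → ∃ u, B.1 (f p) u = w0) :
    (∀ x y z : Ext B, ⁅x, ⁅y, z⁆⁆ = 0) ∧
    (∀ x : Ext B, (∃ y : Ext B, ⁅x, y⁆ ≠ 0) →
        ∃ W : Submodule K (Ext B), FiniteDimensional K W ∧
          ∀ y : Ext B, ⁅x, y⁆ = 0 →
            ∃ w ∈ W, ∃ z : Ext B, (∀ u : Ext B, ⁅z, u⁆ = 0) ∧ y = w + z) ∧
    ∃ x : Ext B, x ≠ 0 ∧ ∀ I : LieIdeal K (Ext B),
      FiniteDimensional K (Ext B ⧸ (I : Submodule K (Ext B))) → x ∈ I := by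
  refine ⟨fun x y z => (lie_eq_zero B _ _).mpr (map_zero _), ?_, mk B 0 w0,
    fun h => hw0 (congrArg Prod.snd h), fun I hI => ?_⟩
  · rintro x ⟨y, hy⟩
    have hx : x.1 ≠ 0 := by
      intro h
      apply hy
      rw [lie_eq_zero, h]; simp
    obtain ⟨u, hu⟩ := hc x.1 hx
    refine ⟨Submodule.span K {inl B x.1, inl B u}, FiniteDimensional.span_of_finite K (by simp),
      fun y hy => ?_⟩
    obtain ⟨s, t, h⟩ := hu y.1 ((lie_eq_zero B _ _).mp hy)
    refine ⟨inl B y.1, ?_, mk B 0 y.2, fun u => (lie_eq_zero B _ _).mpr ?_, ?_⟩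
    · rw [h, map_add, map_smul, map_smul]
      exact add_mem (Submodule.smul_mem _ _ (Submodule.subset_span (by simp)))
        (Submodule.smul_mem _ _ (Submodule.subset_span (by simp)))
    · show B.1 0 u.1 = 0
      simp
    · exact Prod.ext (add_zero _).symm (zero_add _).symm
  · have : ¬ Function.Injective ((I : Submodule K (Ext B)).mkQ ∘ₗ inl B ∘ₗ f) :=
      fun h => hP (Module.Finite.of_injective _ h)
    rw [injective_iff_map_eq_zero] at this
    push Not at this
    obtain ⟨p, hp, hp0⟩ := this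
    have hpI : inl B (f p) ∈ I := (Submodule.Quotient.mk_eq_zero _).mp hp
    obtain ⟨u, hu⟩ := hf p hp0
    have := lie_mem_left K (Ext B) I _ (inl B u) hpI
    rw [lie_eq] at this
    rw [← hu]
    exact this

end General

/-- Monic polynomials. -/
abbrev M : Type := {x : ℂ[X] // x.Monic}

/-- The pairing. -/
noncomputable def T : (M →₀ ℂ) →ₗ[ℂ] ℂ[X] →ₗ[ℂ] ℂ :=
  Finsupp.linearCombination ℂ fun x : M => lcoeff ℂ x.1.natDegree

/-- The bracket. -/
noncomputable def om : (ℂ[X] × (M →₀ ℂ)) →ₗ[ℂ] (ℂ[X] × (M →₀ ℂ)) →ₗ[ℂ]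
    ((ℕ → ℕ → ℂ) × (M → M → ℂ) × ℂ × (M → ℂ[X])) :=
  LinearMap.mk₂ ℂ (fun a b => (fun i j => a.1.coeff i * b.1.coeff j - a.1.coeff j * b.1.coeff i,
      fun i j => a.2 i * b.2 j - a.2 j * b.2 i, T b.2 a.1 - T a.2 b.1,
      fun x => b.2 x • (a.1 - a.1.coeff x.1.natDegree • x.1) -
        a.2 x • (b.1 - b.1.coeff x.1.natDegree • x.1)))
    (by intros; ext <;> simp <;> ring) (by intros; ext <;> simp <;> ring)
    (by intros; ext <;> simp <;> ring) (by intros; ext <;> simp <;> ring)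

theorem om_self (v : ℂ[X] × (M →₀ ℂ)) : om v v = 0 := by
  ext <;> simp [om] <;> ring

theorem cent (v : ℂ[X] × (M →₀ ℂ)) (hv : v ≠ 0) :
    ∃ u, ∀ v', om v v' = 0 → ∃ s t : ℂ, v' = s • v + t • u := by
  obtain ⟨p, y⟩ := v
  by_cases hp : p = 0
  · subst hp
    have hy : y ≠ 0 := by rintro rfl; exact hv rfl
    obtain ⟨x, hx⟩ := Finsupp.ne_iff.mp hy
    have hx' : y x ≠ 0 := hx
    refine ⟨(x.1, 0), ?_⟩
    rintro ⟨p', y'⟩ h
    have h2 := fun j => congrFun (congrFun (congrArg (fun w => w.2.1) h) x) j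
    have h4 := congrFun (congrArg (fun w => w.2.2.2) h) x
    simp [om, hx'] at h2 h4
    refine ⟨y' x / y x, p'.coeff x.1.natDegree, Prod.ext ?_ ?_⟩
    · simpa [sub_eq_zero] using h4
    · ext j
      have := h2 j.1 j.2
      simp
      field_simp
      linear_combination this
  · let x0 : M := ⟨p * C p.leadingCoeff⁻¹, monic_mul_leadingCoeff_inv hp⟩
    refine ⟨(0, Finsupp.single x0 1), ?_⟩
    rintro ⟨p', y'⟩ h
    have hl : p.leadingCoeff ≠ 0 := leadingCoeff_ne_zero.mpr hp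
    have h1 := fun j => congrFun (congrFun (congrArg (fun w => w.1) h) p.natDegree) j
    have h4 := fun x => congrFun (congrArg (fun w => w.2.2.2) h) x
    simp [om] at h1 h4
    obtain ⟨s, hs⟩ : ∃ s : ℂ, p' = s • p := by
      refine ⟨p'.coeff p.natDegree / p.leadingCoeff, ?_⟩
      ext j
      have := h1 j
      simp
      field_simp
      linear_combination this
    refine ⟨s, y' x0 - s * y x0, Prod.ext (by simpa using hs) ?_⟩
    ext x
    by_cases hx : x0 = x
    · subst hx; simp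
    · have h5 : (y' x - s * y x) • (p - p.coeff x.1.natDegree • x.1) = 0 := by
        rw [← h4 x.1 x.2, hs]
        simp only [coeff_smul, smul_eq_mul]
        module
      rcases smul_eq_zero.mp h5 with h6 | h6
      · simp [hx]
        linear_combination h6
      · exfalso
        apply hx
        apply Subtype.ext
        rw [sub_eq_zero] at h6
        set c := p.coeff x.1.natDegree
        have hc : c ≠ 0 := by rintro h0; rw [h0, zero_smul] at h6; exact hp h6
        have h7 : p.leadingCoeff = c := by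
          rw [h6, leadingCoeff_smul_of_smul_regular _ (IsSMulRegular.of_ne_zero hc),
            x.2.leadingCoeff]
          simp
        show p * C p.leadingCoeff⁻¹ = x.1
        rw [h7, h6, mul_comm, C_mul', smul_smul, inv_mul_cancel₀ hc, one_smul]

theorem partner (p : ℂ[X]) (hp : p ≠ 0) :
    ∃ u, om (LinearMap.inl ℂ ℂ[X] (M →₀ ℂ) p) u = (0, 0, 1, 0) := by
  let x0 : M := ⟨p * C p.leadingCoeff⁻¹, monic_mul_leadingCoeff_inv hp⟩
  have hl : p.leadingCoeff ≠ 0 := leadingCoeff_ne_zero.mpr hp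
  have hd : x0.1.natDegree = p.natDegree := natDegree_mul_leadingCoeff_inv _ hp
  refine ⟨(0, Finsupp.single x0 p.leadingCoeff⁻¹), ?_⟩
  refine Prod.ext ?_ (Prod.ext ?_ (Prod.ext ?_ ?_))
  · ext; simp [om]
  · ext; simp [om]
  · simp [om, T, hd, hl]
  · funext x
    by_cases hx : x0 = x
    · subst hx
      have : p - p.leadingCoeff • x0.1 = 0 := by
        show p - p.leadingCoeff • (p * C p.leadingCoeff⁻¹) = 0
        rw [mul_comm, C_mul', smul_smul, mul_inv_cancel₀ hl, one_smul, sub_self]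
      simp [om, hd, this]
    · simp [om, hx]

end Pool.Agent.H51.TwoStep
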